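import Pool.Agent.Lib.MP_36fb43_ag.KC

/-! Elementary rules for `dv`, tangent and conormal spaces. -/

open MvPolynomial Matrix Module

namespace PV

section dv
variable {F R σ : Type} [CommRing R] [Field F] [Algebra R F] (D E : Derivation R F F)

@[simp] theorem dv_apply (v : σ → F) (i : σ) : dv D v i = D (v i) := rfl
theorem dv_add (v w : σ → F) : dv D (v + w) = dv D v + dv D w := by ext i; simp
theorem dv_sub (v w : σ → F) : dv D (v - w) = dv D v - dv D w := by ext i; simp
theorem dv_neg (v : σ → F) : dv D (-v) = -dv D v := by ext i; simp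
theorem dv_zero : dv D (0 : σ → F) = 0 := by ext i; simp
theorem dv_smul (a : F) (v : σ → F) : dv D (a • v) = D a • v + a • dv D v := by
  ext i; simp [mul_comm, add_comm]
theorem dv_sum {ι : Type*} (s : Finset ι) (v : ι → σ → F) :
    dv D (∑ a ∈ s, v a) = ∑ a ∈ s, dv D (v a) := by
  ext i; simp [Finset.sum_apply, map_sum]
theorem dvD_add (v : σ → F) : dv (D + E) v = dv D v + dv E v := by ext i; simp
theorem dvD_sub (v : σ → F) : dv (D - E) v = dv D v - dv E v := by ext i; simp
theorem dvD_neg (v : σ → F) : dv (-D) v = -dv D v := by ext i; simp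
theorem dvD_zero (v : σ → F) : dv (0 : Derivation R F F) v = 0 := by ext i; simp
theorem dvD_smul (a : F) (v : σ → F) : dv (a • D) v = a • dv D v := by ext i; simp
theorem der_sum {ι : Type*} (s : Finset ι) (A : ι → Derivation R F F) (y : F) :
    (∑ a ∈ s, A a) y = ∑ a ∈ s, A a y := by
  classical
  induction s using Finset.induction_on with
  | empty => simp
  | insert a s h ih => rw [Finset.sum_insert h, Finset.sum_insert h, Derivation.add_apply, ih]
theorem dvD_sum {ι : Type*} (s : Finset ι) (A : ι → Derivation R F F) (v : σ → F) :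
    dv (∑ a ∈ s, A a) v = ∑ a ∈ s, dv (A a) v := by
  ext i; simp [Finset.sum_apply, der_sum]
theorem dv_lie (v : σ → F) : dv ⁅D, E⁆ v = dv D (dv E v) - dv E (dv D v) := by
  ext i; simp [Derivation.commutator_apply]
theorem dv_single [DecidableEq σ] (a : σ) : dv D (Pi.single a (1 : F)) = 0 := by
  ext i
  by_cases h : i = a <;> simp [h]

variable [Fintype σ]

theorem D_dot (v w : σ → F) : D (v ⬝ᵥ w) = dv D v ⬝ᵥ w + v ⬝ᵥ dv D w := by
  simp only [dotProduct, map_sum, D.leibniz, smul_eq_mul, dv_apply, ← Finset.sum_add_distrib]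
  exact Finset.sum_congr rfl fun i _ => by ring
theorem dv_mulVec (M : Matrix σ σ F) (v : σ → F) :
    dv D (M *ᵥ v) = M.map D *ᵥ v + M *ᵥ dv D v := by
  ext i
  exact D_dot D (M i) v
theorem D_bil (M : Matrix σ σ F) (v w : σ → F) :
    D (v ⬝ᵥ M *ᵥ w) = dv D v ⬝ᵥ M *ᵥ w + v ⬝ᵥ M.map D *ᵥ w + v ⬝ᵥ M *ᵥ dv D w := by
  rw [D_dot, dv_mulVec, dotProduct_add, add_assoc]
theorem bil_symm {M : Matrix σ σ F} (h : ∀ a b, M a b = M b a) (v w : σ → F) :
    v ⬝ᵥ M *ᵥ w = w ⬝ᵥ M *ᵥ v := by
  have : Mᵀ = M := by ext a b; exact h b a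
  rw [dotProduct_mulVec, ← mulVec_transpose, this, dotProduct_comm]
theorem Pv_apply (P : σ → Matrix σ σ F) (v : σ → F) (a b : σ) :
    Pv P v a b = ∑ e, v e * P e a b := by
  simp [Pv, Matrix.sum_apply]
theorem Pv_add (P : σ → Matrix σ σ F) (v w : σ → F) : Pv P (v + w) = Pv P v + Pv P w := by
  simp [Pv, add_smul, Finset.sum_add_distrib]
theorem Pv_smul (P : σ → Matrix σ σ F) (t : F) (v : σ → F) : Pv P (t • v) = t • Pv P v := by
  simp [Pv, Finset.smul_sum, smul_smul]
theorem Pv_zero (P : σ → Matrix σ σ F) : Pv P 0 = 0 := by simp [Pv]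
theorem Pv_sub (P : σ → Matrix σ σ F) (v w : σ → F) : Pv P (v - w) = Pv P v - Pv P w := by
  simp [Pv, sub_smul, Finset.sum_sub_distrib]
theorem Pv_map (P : σ → Matrix σ σ F) (v : σ → F) :
    (Pv P v).map D = Pv (fun a => (P a).map D) v + Pv P (dv D v) := by
  ext a b
  simp only [Matrix.map_apply, Matrix.add_apply, Pv_apply, map_sum, D.leibniz, smul_eq_mul,
    dv_apply, ← Finset.sum_add_distrib]
  exact Finset.sum_congr rfl fun i _ => by ring
theorem Pv_swap {P : σ → Matrix σ σ F} (s1 : ∀ a b e, P a b e = P b a e)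
    (s2 : ∀ a b e, P a b e = P a e b) (v w : σ → F) : Pv P v *ᵥ w = Pv P w *ᵥ v := by
  ext a
  simp only [mulVec, dotProduct, Pv_apply, Finset.sum_mul]
  rw [Finset.sum_comm]
  refine Finset.sum_congr rfl fun e _ => Finset.sum_congr rfl fun b _ => ?_
  rw [s2 e a b, s1 e b a, s2 b e a]; ring
theorem Pv_symm {P : σ → Matrix σ σ F} (s2 : ∀ a b e, P a b e = P a e b) (v : σ → F) (a b : σ) :
    Pv P v a b = Pv P v b a := by
  simp only [Pv_apply]
  exact Finset.sum_congr rfl fun e _ => by rw [s2]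

/-- the annihilator of a subspace for the dot product -/
def perp (U : Submodule F (σ → F)) : Submodule F (σ → F) where
  carrier := {v | ∀ w ∈ U, w ⬝ᵥ v = 0}
  add_mem' := fun ha hb w hw => by rw [dotProduct_add, ha w hw, hb w hw, add_zero]
  zero_mem' := fun w _ => dotProduct_zero w
  smul_mem' := fun c _ ha w hw => by rw [dotProduct_smul, ha w hw, smul_zero]

theorem mem_perp {U : Submodule F (σ → F)} {v : σ → F} : v ∈ perp U ↔ ∀ w ∈ U, w ⬝ᵥ v = 0 :=
  Iff.rfl

theorem mem_perp_span {S : Set (σ → F)} {v : σ → F} :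
    v ∈ perp (Submodule.span F S) ↔ ∀ w ∈ S, w ⬝ᵥ v = 0 := by
  refine ⟨fun h w hw => h w (Submodule.subset_span hw), fun h w hw => ?_⟩
  induction hw using Submodule.span_induction with
  | mem x hx => exact h x hx
  | zero => exact zero_dotProduct v
  | add x y _ _ hx hy => rw [add_dotProduct, hx, hy, add_zero]
  | smul a x _ hx => rw [smul_dotProduct, hx, smul_zero]

theorem finrank_perp (U : Submodule F (σ → F)) :
    finrank F U + finrank F (perp U) = Fintype.card σ := by
  classical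
  let B : LinearMap.BilinForm F (σ → F) := dotProductBilin F F
  have hB : B.Nondegenerate := by
    refine ⟨fun v hv => ?_, fun v hv => ?_⟩
    · ext i
      simpa [B] using hv (Pi.single i 1)
    · ext i
      simpa [B] using hv (Pi.single i 1)
  have e : perp U = B.orthogonal U := by
    ext v
    simp [mem_perp, LinearMap.BilinForm.mem_orthogonal_iff, B]
  have := LinearMap.BilinForm.finrank_orthogonal hB U
  have h2 := Submodule.finrank_le U
  rw [e, this]
  simp only [finrank_fintype_fun_eq_card] at *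
  omega

theorem perp_perp (U : Submodule F (σ → F)) : perp (perp U) = U := by
  refine (Submodule.eq_of_le_of_finrank_eq (fun v hv w hw => ?_) ?_).symm
  · rw [dotProduct_comm]; exact hw v hv
  · have h1 := finrank_perp U
    have h2 := finrank_perp (perp U)
    omega

end dv

section tg
variable {k F R σ : Type} [CommRing k] [Field R] [Field F] [Algebra k F] [Algebra R F] [Fintype σ]
  {I : Ideal (MvPolynomial σ k)} {x : σ → F}

theorem tg_iff {v : σ → F} : Tg I x v ↔ v ∈ perp (Nm I x) := by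
  rw [Nm, mem_perp_span]
  exact ⟨fun h _ ⟨f, hf, e⟩ => e ▸ h f hf, fun h f hf => h _ ⟨f, hf, rfl⟩⟩

theorem Tg.dot {v w : σ → F} (h : Tg I x v) (hw : w ∈ Nm I x) : w ⬝ᵥ v = 0 := tg_iff.1 h w hw

omit [Fintype σ] in
theorem gr_mem {f} (hf : f ∈ I) : gr f x ∈ Nm I x := Submodule.subset_span ⟨f, hf, rfl⟩

theorem mem_Nm {w : σ → F} (h : ∀ v, Tg I x v → w ⬝ᵥ v = 0) : w ∈ Nm I x := by
  rw [← perp_perp (Nm I x)]
  exact fun v hv => by rw [dotProduct_comm]; exact h v (tg_iff.2 hv)

theorem tg_dv (hx : On I x) (D : Derivation R F F) (hD : ∀ c : k, D (algebraMap k F c) = 0) :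
    Tg I x (dv D x) := fun f hf => by
  rw [← D_aeval D hD, hx f hf, map_zero]

end tg

theorem finrank_tg {k F : Type} [Field k] [Field F] [Algebra k F] {n : ℕ} (Z : Cone k n)
    {x : Fin n → F} (h0 : x ≠ 0) (hx : On Z.I x) : finrank F (perp (Nm Z.I x)) + 2 = n := by
  have := finrank_perp (Nm Z.I x)
  rw [Z.rk F x h0 hx, Fintype.card_fin] at this
  omega

end PV
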