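import Pool.Agent.Lib.MP_36fb43_ag.Bas

/-! Linear and quadratic forms, lines, and isotropic vectors. -/

open MvPolynomial Matrix Module

namespace PV

section ring
variable {K R σ : Type} [Field K] [CommRing R] [Algebra K R] [Fintype σ]

theorem cn_lin (l : σ → K) (y : σ → R) : aeval y (lin l) = (algebraMap K R ∘ l) ⬝ᵥ y := by
  simp [lin, dotProduct]

theorem cn_qf (M : Matrix σ σ K) (y : σ → R) :
    aeval y (qf M) = y ⬝ᵥ (M.map (algebraMap K R)) *ᵥ y := by
  simp only [qf, map_sum, map_mul, aeval_C, aeval_X, dotProduct, mulVec, Matrix.map_apply,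
    Finset.mul_sum]
  exact Finset.sum_congr rfl fun i _ => Finset.sum_congr rfl fun j _ => by ring

theorem cn_mv (M : Matrix σ σ K) (z : σ → K) :
    algebraMap K R ∘ (M *ᵥ z) = M.map (algebraMap K R) *ᵥ (algebraMap K R ∘ z) :=
  funext fun i => RingHom.map_mulVec _ M z i

theorem cn_dot (a z : σ → K) :
    (algebraMap K R ∘ a) ⬝ᵥ (algebraMap K R ∘ z) = algebraMap K R (a ⬝ᵥ z) :=
  (RingHom.map_dotProduct _ a z).symm

theorem cn_symm {M : Matrix σ σ K} (h : ∀ a b, M a b = M b a) (v w : σ → R) :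
    v ⬝ᵥ M.map (algebraMap K R) *ᵥ w = w ⬝ᵥ M.map (algebraMap K R) *ᵥ v := by
  have : (M.map (algebraMap K R))ᵀ = M.map (algebraMap K R) := by
    ext a b
    exact congrArg _ (h b a)
  rw [dotProduct_mulVec, ← mulVec_transpose, this, dotProduct_comm]

omit [Fintype σ] in
theorem cn_smul {f : MvPolynomial σ K} {d : ℕ} (hf : f.IsHomogeneous d) (c : R) (y : σ → R) :
    aeval (c • y) f = c ^ d * aeval y f := by
  rw [aeval_def, aeval_def, eval₂_eq, eval₂_eq, Finset.mul_sum]
  refine Finset.sum_congr rfl fun m hm => ?_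
  have e : ∑ i ∈ m.support, m i = d := by
    rw [← hf (mem_support_iff.1 hm)]
    simp [Finsupp.weight_apply, Finsupp.sum]
  simp only [Pi.smul_apply, smul_eq_mul, mul_pow, Finset.prod_mul_distrib,
    Finset.prod_pow_eq_pow_sum, e]
  ring

theorem cn_lin_hom (l : σ → K) : (lin l).IsHomogeneous 1 :=
  IsHomogeneous.sum _ _ _ fun i _ => (isHomogeneous_X K i).C_mul _

theorem cn_qf_hom (M : Matrix σ σ K) : (qf M).IsHomogeneous 2 :=
  IsHomogeneous.sum _ _ _ fun i _ => IsHomogeneous.sum _ _ _ fun j _ =>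
    ((isHomogeneous_X K i).C_mul _).mul (isHomogeneous_X K j)

omit [Fintype σ] in
theorem cn_pl_hom {r : ℕ} (l : Fin r → σ → K) (i : σ) : (pl l i).IsHomogeneous 1 :=
  IsHomogeneous.sum _ _ _ fun a _ => (isHomogeneous_X K a).C_mul _

omit [Fintype σ] in
theorem cn_pl {r : ℕ} (l : Fin r → σ → K) (t : Fin r → R) :
    (fun i => aeval t (pl l i)) = ∑ a, t a • (algebraMap K R ∘ l a) := by
  ext i
  simp [pl, mul_comm]

theorem cn_pd_lin (l : σ → K) (i : σ) : pderiv i (lin l) = C (l i) := by
  classical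
  simp [lin, pderiv_X, Pi.single_apply]

theorem cn_pd_qf {M : Matrix σ σ K} (h : ∀ a b, M a b = M b a) (i : σ) :
    pderiv i (qf M) = 2 * lin (M i) := by
  classical
  simp only [qf, lin, map_sum, Derivation.leibniz, pderiv_X, pderiv_C, smul_eq_mul, mul_zero,
    add_zero, Finset.sum_add_distrib, Pi.single_apply, mul_ite, mul_one, Finset.sum_ite_eq',
    Finset.mem_univ, if_true, two_mul]
  congr 1
  · exact Finset.sum_congr rfl fun a _ => by rw [h]
  · rw [Finset.sum_comm]
    simp [mul_comm]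

end ring

section cd
variable {R F σ : Type} [Field R] [Field F] [Algebra R F] [Fintype σ] (D : Derivation R F F)

theorem cn_cD_hom {f : MvPolynomial σ F} {d : ℕ} (hf : f.IsHomogeneous d) :
    (cD D f).IsHomogeneous d := fun m hm => hf fun e => hm (by rw [coeff_cD, e, map_zero])

theorem cn_cD_add (f g : MvPolynomial σ F) : cD D (f + g) = cD D f + cD D g := by
  ext m
  simp [coeff_cD]

theorem cn_cD_sub (f g : MvPolynomial σ F) : cD D (f - g) = cD D f - cD D g := by
  ext m
  simp [coeff_cD]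

theorem cn_cD_map (f : MvPolynomial σ R) : cD D (MvPolynomial.map (algebraMap R F) f) = 0 := by
  ext m
  simp [coeff_cD, coeff_map]

theorem cn_cD_lin (l : σ → F) : cD D (lin l) = lin (dv D l) := by
  classical
  ext m
  simp only [coeff_cD, lin, coeff_sum, coeff_C_mul, coeff_X, map_sum, mul_ite, mul_one, mul_zero,
    apply_ite D, map_zero, dv_apply]

theorem cn_cD_pow (f : MvPolynomial σ F) (n : ℕ) :
    f * cD D (f ^ n) = n * cD D f * f ^ n := by
  induction n with
  | zero =>
    have := cn_cD_map D (1 : MvPolynomial σ R)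
    rw [map_one] at this
    simp [this]
  | succ n ih =>
    rw [pow_succ, cD_mul]
    push_cast
    linear_combination f * ih

end cd

section line
variable {K F σ : Type} [Field K] [Field F] [Algebra K F] [Fintype σ]

omit [Fintype σ] in
theorem cn_ev (a b : σ → F) (f : MvPolynomial σ K) (s : F) :
    (aeval (ln a b) f).eval s = aeval (s • a + b) f := by
  have := comp_aeval_apply (f := ln a b)
    ((Polynomial.aeval s : Polynomial F →ₐ[F] F).restrictScalars K) f
  simp only [AlgHom.coe_restrictScalars', Polynomial.coe_aeval_eq_eval] at this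
  rw [this]
  congr 2
  ext i
  simp [ln, mul_comm s]

omit [Fintype σ] in
theorem cn_deg (a b : σ → F) {f : MvPolynomial σ K} {d : ℕ} (hf : f.IsHomogeneous d) :
    (aeval (ln a b) f).natDegree ≤ d := by
  rw [← aeval_map_algebraMap F, ← mul_one d]
  exact aeval_natDegree_le _ (hf.map _).totalDegree_le _ fun i => Polynomial.natDegree_linear_le

theorem cn_grL_add (f g : MvPolynomial σ K) (p q v : σ → F) :
    grL (f + g) p q v = grL f p q v + grL g p q v := by
  simp [grL, add_mul, Finset.sum_add_distrib]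

theorem cn_grL_mul (f g : MvPolynomial σ K) (p q v : σ → F) :
    grL (f * g) p q v = aeval (ln p q) f * grL g p q v + aeval (ln p q) g * grL f p q v := by
  simp [grL, add_mul, Finset.sum_add_distrib, Finset.mul_sum, mul_assoc]

theorem cn_grL_ev (f : MvPolynomial σ K) (p q v : σ → F) (s : F) :
    (grL f p q v).eval s = gr f (s • p + q) ⬝ᵥ v := by
  simp [grL, Polynomial.eval_finsetSum, cn_ev, gr, dotProduct]

theorem cn_der (f : MvPolynomial σ K) (p q : σ → F) :
    Polynomial.derivative (aeval (ln p q) f) = grL f p q p := by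
  classical
  induction f using MvPolynomial.induction_on with
  | C c => simp [grL]
  | add f g hf hg => rw [map_add, map_add, hf, hg, cn_grL_add]
  | mul_X f i hf =>
    rw [map_mul, Polynomial.derivative_mul, hf, cn_grL_mul, add_comm, mul_comm (grL f p q p)]
    simp [grL, ln, pderiv_X, Pi.single_apply]

omit [Fintype σ] in
theorem cn_gr_add (f g : MvPolynomial σ K) (x : σ → F) : gr (f + g) x = gr f x + gr g x := by
  ext i
  simp [gr]

omit [Fintype σ] in
theorem cn_gr_sub (f g : MvPolynomial σ K) (x : σ → F) : gr (f - g) x = gr f x - gr g x := by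
  ext i
  simp [gr]

omit [Fintype σ] in
theorem cn_gr_mul (f g : MvPolynomial σ K) (x : σ → F) :
    gr (f * g) x = aeval x f • gr g x + aeval x g • gr f x := by
  ext i
  simp [gr]

theorem cn_gr_lin (l : σ → K) (x : σ → F) : gr (lin l) x = algebraMap K F ∘ l := by
  ext i
  simp [gr, cn_pd_lin]

theorem cn_gr_qf {M : Matrix σ σ K} (h : ∀ a b, M a b = M b a) (x : σ → F) :
    gr (qf M) x = (2 : F) • (M.map (algebraMap K F) *ᵥ x) := by
  ext i
  rw [gr, cn_pd_qf h, map_mul, cn_lin, map_ofNat]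
  rfl

theorem cn_euler {f : MvPolynomial σ K} {d : ℕ} (hf : f.IsHomogeneous d) (x : σ → F) :
    gr f x ⬝ᵥ x = d * aeval x f := by
  have := congrArg (aeval x) hf.sum_X_mul_pderiv
  simp only [map_sum, map_mul, aeval_X, nsmul_eq_mul, map_natCast] at this
  rw [← this]
  exact Finset.sum_congr rfl fun i _ => mul_comm _ _

theorem cn_orth {α β : Type} [Fintype α] [Fintype β] {L : α → σ → F} {v : β → σ → F}
    (hL : LinearIndependent F L) (hv : LinearIndependent F v) (h : ∀ a b, L a ⬝ᵥ v b = 0) :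
    Fintype.card α + Fintype.card β ≤ Fintype.card σ := by
  rw [← finrank_perp (Submodule.span F (Set.range L)), finrank_span_eq_card hL,
    ← finrank_span_eq_card hv]
  refine Nat.add_le_add_left (Submodule.finrank_mono (Submodule.span_le.2 ?_)) _
  rintro _ ⟨b, rfl⟩
  exact mem_perp_span.2 (by rintro _ ⟨a, rfl⟩; exact h a b)

theorem cn_ker3 (a b c : Fin 6 → F) : ∃ μ : Fin 3 → Fin 6 → F, LinearIndependent F μ ∧
    ∀ i, a ⬝ᵥ μ i = 0 ∧ b ⬝ᵥ μ i = 0 ∧ c ⬝ᵥ μ i = 0 := by
  have h1 := finrank_perp (Submodule.span F (Set.range ![a, b, c]))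
  have h2 : finrank F (Submodule.span F (Set.range ![a, b, c])) ≤ Fintype.card (Fin 3) :=
    finrank_range_le_card (R := F) ![a, b, c]
  obtain ⟨μ, hμ⟩ := exists_linearIndependent_of_le_finrank (R := F) (n := 3)
    (M := perp (Submodule.span F (Set.range ![a, b, c]))) (by simp only [Fintype.card_fin] at h1 h2; omega)
  refine ⟨fun i => μ i, hμ.map' (Submodule.subtype _) (Submodule.ker_subtype _), fun i => ?_⟩
  have := mem_perp_span.1 (μ i).2
  exact ⟨this _ ⟨0, rfl⟩, this _ ⟨1, rfl⟩, this _ ⟨2, rfl⟩⟩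

/-- coordinates adapted to a vector `z` in a hyperplane `n` -/
theorem cn_dec {n z : Fin 6 → K} (hn : n ≠ 0) (hz : z ≠ 0) (h : n ⬝ᵥ z = 0) :
    ∃ (s : Fin 6 → K) (b : Fin 4 → Fin 6 → K) (τ : Matrix (Fin 4) (Fin 6) K),
      ∀ (R : Type) [CommRing R] [Algebra K R] (y : Fin 6 → R), (algebraMap K R ∘ n) ⬝ᵥ y = 0 →
        ∑ a, (τ.map (algebraMap K R) *ᵥ y) a • (algebraMap K R ∘ b a) =
          y - ((algebraMap K R ∘ s) ⬝ᵥ y) • (algebraMap K R ∘ z) := by
  obtain ⟨i, hi⟩ := Function.ne_iff.1 hn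
  obtain ⟨j, hj⟩ := Function.ne_iff.1 hz
  have hi : n i ≠ 0 := hi
  have hj : z j ≠ 0 := hj
  obtain ⟨s, hs⟩ : ∃ s : Fin 6 → K, s ⬝ᵥ z = 1 := ⟨Pi.single j (z j)⁻¹, by simp [hj]⟩
  obtain ⟨a1, h1⟩ : ∃ a : Fin 6 → K, n ⬝ᵥ a = 1 := ⟨Pi.single i (n i)⁻¹, by simp [hi]⟩
  obtain ⟨a0, h2, h3⟩ : ∃ a : Fin 6 → K, n ⬝ᵥ a = 1 ∧ s ⬝ᵥ a = 0 :=
    ⟨a1 - (s ⬝ᵥ a1) • z, by simp [h1, h], by simp [hs]⟩
  have li : LinearIndependent K ![n, s] := LinearIndependent.pair_iff.2 fun x y e => by
    have e1 := congrArg (· ⬝ᵥ z) e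
    have e2 := congrArg (· ⬝ᵥ a0) e
    simp [h, hs, h2, h3] at e1 e2
    exact ⟨e2, e1⟩
  have r := finrank_perp (Submodule.span K (Set.range ![n, s]))
  rw [finrank_span_eq_card li] at r
  obtain ⟨ι, b, hb, hU⟩ := ech_ex (r := 4) (perp (Submodule.span K (Set.range ![n, s])))
    (by simp at r; omega)
  let w : Fin 6 → Fin 6 → K := fun c => Pi.single c 1 - s c • z - n c • a0
  have key : ∀ c, w c = ∑ a, w c (ι a) • b a := fun c => hb.repr (hU ▸ mem_perp_span.2 (by
    rintro _ ⟨a, rfl⟩
    fin_cases a <;> simp [w, h, hs, h2, h3]))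
  refine ⟨s, b, Matrix.of fun a c => w c (ι a), fun R _ _ y hy => funext fun e => ?_⟩
  have k2 : ∀ c, ∑ a, algebraMap K R (w c (ι a)) * algebraMap K R (b a e) =
      (if e = c then 1 else 0) - algebraMap K R (s c) * algebraMap K R (z e) -
        algebraMap K R (n c) * algebraMap K R (a0 e) := fun c => by
    have := congrArg (algebraMap K R) (congrFun (key c) e)
    simp only [Finset.sum_apply, Pi.smul_apply, smul_eq_mul, map_sum, map_mul] at this
    rw [← this]
    simp [w, Pi.single_apply, apply_ite (algebraMap K R)]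
  calc _ = ∑ c, (∑ a, algebraMap K R (w c (ι a)) * algebraMap K R (b a e)) * y c := by
        simp only [Finset.sum_apply, Pi.smul_apply, smul_eq_mul, mulVec, dotProduct,
          Matrix.map_apply, of_apply, Finset.sum_mul, Function.comp_apply]
        rw [Finset.sum_comm]
        exact Finset.sum_congr rfl fun _ _ => Finset.sum_congr rfl fun _ _ => by ring
    _ = y e - ((algebraMap K R ∘ s) ⬝ᵥ y) * algebraMap K R (z e) -
          ((algebraMap K R ∘ n) ⬝ᵥ y) * algebraMap K R (a0 e) := by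
        simp only [k2, sub_mul, Finset.sum_sub_distrib, dotProduct, Finset.sum_mul,
          Function.comp_apply, ite_mul, one_mul, zero_mul, Finset.sum_ite_eq, Finset.mem_univ,
          if_true]
        congr 1
        · congr 1
          exact Finset.sum_congr rfl fun _ _ => by ring
        · exact Finset.sum_congr rfl fun _ _ => by ring
    _ = _ := by simp [hy]

end line

end PV
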