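import Pool.Agent.Lib.MP_36fb43_ag.Bas

/-! Conic type, step C3: symmetric forms killed by the leaf derivations. -/

open MvPolynomial Matrix Module

namespace PV

variable {Z : Cone ℂ 6} {Ω : Type} [Field Ω] [Algebra ℂ Ω] {T : Tri Z Ω} {s : Sect Z 2}
  {L : Leg T s}

theorem ce_two (Ω : Type) [Field Ω] [Algebra ℂ Ω] : (2 : Ω) ≠ 0 :=
  haveI : CharZero Ω := charZero_of_injective_algebraMap (algebraMap ℂ Ω).injective
  two_ne_zero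

theorem ce_half {a : Ω} (h : a + a = 0) : a = 0 :=
  (mul_eq_zero.1 ((two_mul a).trans h)).resolve_left (ce_two Ω)

theorem ce_p : T.p ∈ T.La := Submodule.subset_span (by simp)
theorem ce_e0 : T.e 0 ∈ T.La := Submodule.subset_span (by simp)
theorem ce_e1 : T.e 1 ∈ T.La := Submodule.subset_span (by simp)
theorem ce_e2 : T.e 2 ∈ T.La := Submodule.subset_span (by simp)
theorem ce_π : dv T.Dπ T.p ∈ T.La := T.Dπp ▸ T.La.zero_mem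

theorem ce_La {v : Fin 6 → Ω} (hv : v ∈ T.La) :
    ∃ a b c d : Ω, v = a • T.p + b • T.e 0 + c • T.e 1 + d • T.e 2 := by
  simp only [Tri.La, Submodule.mem_span_insert, Submodule.mem_span_singleton] at hv
  obtain ⟨a, _, ⟨b, _, ⟨c, _, ⟨d, rfl⟩, rfl⟩, rfl⟩, rfl⟩ := hv
  exact ⟨a, b, c, d, by simp only [add_assoc]⟩

theorem Leaf.nLa (A : Leaf L) {v : Fin 6 → Ω} (hv : v ∈ T.La) : A.n ⬝ᵥ v = 0 :=
  (A.ker v).2 (Submodule.mem_sup_left hv)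

theorem Leaf.nξ (A : Leaf L) : A.n ⬝ᵥ A.ξ = 0 :=
  (A.ker _).2 (Submodule.mem_sup_right (Submodule.mem_span_singleton_self _))

theorem Leaf.dec (A : Leaf L) {v : Fin 6 → Ω} (h : A.n ⬝ᵥ v = 0) :
    ∃ l ∈ T.La, ∃ a : Ω, v = l + a • A.ξ := by
  obtain ⟨l, hl, w, hw, rfl⟩ := Submodule.mem_sup.1 ((A.ker v).1 h)
  obtain ⟨a, rfl⟩ := Submodule.mem_span_singleton.1 hw
  exact ⟨l, hl, a, rfl⟩

theorem Leaf.rel (A : Leaf L) {a b c d e : Ω}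
    (h : a • T.p + b • T.e 0 + c • T.e 1 + d • T.e 2 + e • A.ξ = 0) :
    a = 0 ∧ b = 0 ∧ c = 0 ∧ d = 0 ∧ e = 0 := by
  have := Fintype.linearIndependent_iff.1 A.li ![a, b, c, d, e]
    (by simpa [Fin.sum_univ_five] using h)
  exact ⟨this 0, this 1, this 2, this 3, this 4⟩

theorem Leaf.ξnot (A : Leaf L) {a : Ω} (h : a • A.ξ ∈ T.La) : a = 0 := by
  obtain ⟨b, c, d, e, h⟩ := ce_La h
  have := A.rel (a := b) (b := c) (c := d) (d := e) (e := -a) (by rw [← h]; simp)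
  exact neg_eq_zero.1 this.2.2.2.2

theorem Leaf.dL (A : Leaf L) {D : Derivation ℂ Ω Ω} (hD : dv D T.p ∈ T.La) {l : Fin 6 → Ω}
    (hl : l ∈ T.La) : ∃ l' ∈ T.La, dv D l = l' + (dv D T.p ⬝ᵥ A.Bt *ᵥ l) • A.ξ :=
  ⟨_, A.dLa D hD l hl, by simp⟩

/-- symmetric, killed by the leaf, zero on the line -/
structure Leaf.Good (A : Leaf L) (G : Matrix (Fin 6) (Fin 6) Ω) : Prop where
  sym : ∀ a b, G a b = G b a
  kill : ∀ D : Derivation ℂ Ω Ω, dv D T.p ∈ T.La → G.map D = 0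
  pp : T.p ⬝ᵥ G *ᵥ T.p = 0
  pq : T.p ⬝ᵥ G *ᵥ T.e 0 = 0
  qq : T.e 0 ⬝ᵥ G *ᵥ T.e 0 = 0

namespace Leaf

variable {A : Leaf L} {G G' : Matrix (Fin 6) (Fin 6) Ω}

theorem Good.d (h : A.Good G) {D : Derivation ℂ Ω Ω} (hD : dv D T.p ∈ T.La) {v w : Fin 6 → Ω}
    (e : v ⬝ᵥ G *ᵥ w = 0) : dv D v ⬝ᵥ G *ᵥ w + v ⬝ᵥ G *ᵥ dv D w = 0 := by
  have := D_bil D G v w
  rw [e, map_zero, h.kill D hD, zero_mulVec, dotProduct_zero, add_zero] at this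
  exact this.symm

theorem Good.pLa (h : A.Good G) (w : Fin 6 → Ω) (hw : w ∈ T.La) : T.p ⬝ᵥ G *ᵥ w = 0 := by
  have h1 : T.p ⬝ᵥ G *ᵥ T.e 1 = 0 := by
    have := h.d ce_π h.pq
    rwa [T.Dπp, zero_dotProduct, zero_add] at this
  have h2 : T.p ⬝ᵥ G *ᵥ T.e 2 = 0 := by
    have := h.d ce_π h1
    rwa [T.Dπp, zero_dotProduct, zero_add] at this
  obtain ⟨a, b, c, d, rfl⟩ := ce_La hw
  simp only [mulVec_add, mulVec_smul, dotProduct_add, dotProduct_smul, h.pp, h.pq, h1, h2,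
    smul_zero, add_zero]

theorem Good.c3 (h : A.Good G) (v : Fin 6 → Ω) (hv : v ∈ T.La) (w : Fin 6 → Ω) (hw : w ∈ T.La) :
    v ⬝ᵥ G *ᵥ w = (v ⬝ᵥ A.Bt *ᵥ w) * (T.e 0 ⬝ᵥ G *ᵥ T.e 2) := by
  refine A.c0 G (fun a b => congrFun (congrFun (h.kill _ ce_π) a) b) h.pLa
    (fun w hw => by rw [bil_symm h.sym]; exact h.pLa w hw) h.qq ?_ v hv w hw
  have := h.d ce_π h.qq
  rw [bil_symm h.sym] at this
  exact ce_half this

theorem Good.pξ (h : A.Good G) : T.p ⬝ᵥ G *ᵥ A.ξ = -(T.e 0 ⬝ᵥ G *ᵥ T.e 2) := by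
  obtain ⟨E, hE⟩ := T.exp (T.e 0)
  have hL : dv E T.p ∈ T.La := hE ▸ ce_e0
  obtain ⟨l, hl, e⟩ := A.dL hL (ce_e2 (T := T))
  have := h.d hL (h.pLa _ ce_e2)
  rw [e, hE, A.B02, one_smul, mulVec_add, dotProduct_add, h.pLa l hl, zero_add] at this
  linear_combination this

theorem mlem (A : Leaf L) {M : Matrix (Fin 6) (Fin 6) Ω} (hs : ∀ a b, M a b = M b a)
    (h0 : ∀ v ∈ T.La, ∀ w ∈ T.La, v ⬝ᵥ M *ᵥ w = 0) (t : Derivation ℂ Ω Ω → Ω)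
    (ht : ∀ E : Derivation ℂ Ω Ω, dv E T.p ∈ T.La → ∀ v ∈ T.La, ∀ w ∈ T.La,
      v ⬝ᵥ M.map E *ᵥ w = t E * (v ⬝ᵥ A.Bt *ᵥ w)) :
    (∀ w ∈ T.La, A.ξ ⬝ᵥ M *ᵥ w = 0) ∧ ∀ E : Derivation ℂ Ω Ω, dv E T.p ∈ T.La → t E = 0 := by
  have key : ∀ E : Derivation ℂ Ω Ω, dv E T.p ∈ T.La → ∀ v ∈ T.La, ∀ w ∈ T.La,
      (dv E T.p ⬝ᵥ A.Bt *ᵥ v) * (A.ξ ⬝ᵥ M *ᵥ w) + t E * (v ⬝ᵥ A.Bt *ᵥ w) +
        (dv E T.p ⬝ᵥ A.Bt *ᵥ w) * (A.ξ ⬝ᵥ M *ᵥ v) = 0 := by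
    intro E hE v hv w hw
    obtain ⟨v', hv', e1⟩ := A.dL hE hv
    obtain ⟨w', hw', e2⟩ := A.dL hE hw
    have := D_bil E M v w
    rw [h0 v hv w hw, map_zero, ht E hE v hv w hw, e1, bil_symm hs v, e2, add_dotProduct,
      add_dotProduct, h0 v' hv' w hw, h0 w' hw' v hv, smul_dotProduct, smul_dotProduct] at this
    simpa using this.symm
  obtain ⟨E, hE⟩ := T.exp (T.e 0)
  have hL : dv E T.p ∈ T.La := hE ▸ ce_e0
  have t0 : t E = 0 := by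
    have := key E hL _ ce_e1 _ ce_e1
    rw [hE, A.B01, A.B11] at this
    linear_combination -this
  have m2 : A.ξ ⬝ᵥ M *ᵥ T.e 2 = 0 := by
    have := key E hL _ ce_e2 _ ce_e2
    rw [hE, A.B02, t0] at this
    exact ce_half (by linear_combination this)
  have m : ∀ w ∈ T.La, A.ξ ⬝ᵥ M *ᵥ w = 0 := fun w hw => by
    have := key E hL _ ce_e2 w hw
    rw [hE, A.B02, t0, m2] at this
    linear_combination this
  refine ⟨m, fun E' hE' => ?_⟩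
  have := key E' hE' _ ce_e0 _ ce_e2
  rw [m _ ce_e0, m2, A.B02] at this
  linear_combination this

theorem Good.zero (h : A.Good G) (h0 : T.e 0 ⬝ᵥ G *ᵥ T.e 2 = 0) (v w : Fin 6 → Ω)
    (hv : A.n ⬝ᵥ v = 0) (hw : A.n ⬝ᵥ w = 0) : v ⬝ᵥ G *ᵥ w = 0 := by
  have h1 : ∀ v ∈ T.La, ∀ w ∈ T.La, v ⬝ᵥ G *ᵥ w = 0 := fun v hv w hw => by
    rw [h.c3 v hv w hw, h0, mul_zero]
  have m := (A.mlem h.sym h1 (fun _ => 0) fun E hE v _ w _ => by simp [h.kill E hE]).1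
  have h2 : A.ξ ⬝ᵥ G *ᵥ A.ξ = 0 := by
    obtain ⟨E, hE⟩ := T.exp (T.e 0)
    have hL : dv E T.p ∈ T.La := hE ▸ ce_e0
    obtain ⟨l, hl, e⟩ := A.dL hL (ce_e2 (T := T))
    have hn : A.n ⬝ᵥ dv E A.ξ = 0 := by
      have := D_dot E A.n A.ξ
      rw [A.nξ, map_zero, (A.leaf E).2 hL, zero_dotProduct, zero_add] at this
      exact this.symm
    obtain ⟨l', hl', a, e'⟩ := A.dec hn
    have := h.d hL (m _ ce_e2)
    rw [e, e', hE, A.B02, one_smul, mulVec_add, dotProduct_add, m l hl, add_dotProduct,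
      smul_dotProduct, m _ ce_e2, h1 l' hl' _ ce_e2] at this
    simpa using this
  obtain ⟨l, hl, a, rfl⟩ := A.dec hv
  obtain ⟨l', hl', a', rfl⟩ := A.dec hw
  have h3 : l ⬝ᵥ G *ᵥ A.ξ = 0 := by rw [bil_symm h.sym]; exact m l hl
  simp only [mulVec_add, mulVec_smul, add_dotProduct, dotProduct_add, smul_dotProduct,
    dotProduct_smul, h1 l hl l' hl', m l' hl', h2, h3, smul_zero, add_zero]

theorem Good.ratio (h : A.Good G) (h' : A.Good G') (ρ : Ω)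
    (hρ : T.e 0 ⬝ᵥ G *ᵥ T.e 2 = ρ * (T.e 0 ⬝ᵥ G' *ᵥ T.e 2)) (h0 : T.e 0 ⬝ᵥ G' *ᵥ T.e 2 ≠ 0)
    (E : Derivation ℂ Ω Ω) (hE : dv E T.p ∈ T.La) : E ρ = 0 := by
  have := (A.mlem (M := G - ρ • G') (fun a b => by simp [h.sym a b, h'.sym a b])
    (fun v hv w hw => by
      rw [sub_mulVec, smul_mulVec, dotProduct_sub, dotProduct_smul, h.c3 v hv w hw,
        h'.c3 v hv w hw, hρ, smul_eq_mul]
      ring)
    (fun E => -E ρ * (T.e 0 ⬝ᵥ G' *ᵥ T.e 2)) fun E hE v hv w hw => by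
      have e : (G - ρ • G').map E = (-E ρ) • G' := by
        ext a b
        have e1 : E (G a b) = 0 := congrFun (congrFun (h.kill E hE) a) b
        have e2 : E (G' a b) = 0 := congrFun (congrFun (h'.kill E hE) a) b
        simp [e1, e2, mul_comm]
      rw [e, smul_mulVec, dotProduct_smul, h'.c3 v hv w hw, smul_eq_mul]
      ring).2 E hE
  exact neg_eq_zero.1 ((mul_eq_zero.1 this).resolve_right h0)

theorem Good.La (h : A.Good G) (h0 : T.e 0 ⬝ᵥ G *ᵥ T.e 2 ≠ 0) (v : Fin 6 → Ω) :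
    v ∈ T.La ↔ A.n ⬝ᵥ v = 0 ∧ T.p ⬝ᵥ G *ᵥ v = 0 := by
  refine ⟨fun hv => ⟨A.nLa hv, h.pLa v hv⟩, fun ⟨h1, h2⟩ => ?_⟩
  obtain ⟨l, hl, a, rfl⟩ := A.dec h1
  rw [mulVec_add, mulVec_smul, dotProduct_add, dotProduct_smul, h.pLa l hl, h.pξ, zero_add,
    smul_eq_mul, mul_eq_zero, neg_eq_zero] at h2
  rw [h2.resolve_right h0, zero_smul, add_zero]
  exact hl

theorem Good.nd (h : A.Good G) (h0 : T.e 0 ⬝ᵥ G *ᵥ T.e 2 ≠ 0) {y : Fin 6 → Ω}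
    (hy : A.n ⬝ᵥ y = 0) (hz : ∀ v, A.n ⬝ᵥ v = 0 → y ⬝ᵥ G *ᵥ v = 0) : y = 0 := by
  have hL : y ∈ T.La := (h.La h0 y).2 ⟨hy, by rw [bil_symm h.sym]; exact hz _ (A.nLa ce_p)⟩
  have hB : ∀ w ∈ T.La, y ⬝ᵥ A.Bt *ᵥ w = 0 := fun w hw =>
    (mul_eq_zero.1 ((h.c3 y hL w hw).symm.trans (hz w (A.nLa hw)))).resolve_right h0
  obtain ⟨a, b, c, d, rfl⟩ := ce_La hL
  have h1 := hB _ ce_e0
  have h2 := hB _ ce_e1
  have h3 := hB _ ce_e2
  simp only [add_dotProduct, smul_dotProduct, smul_eq_mul] at h1 h2 h3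
  rw [A.Bp _ ce_e0, A.B00, A.Bs _ ce_e1 _ ce_e0, A.Bs _ ce_e2 _ ce_e0, A.B01, A.B02] at h1
  obtain rfl : d = 0 := by linear_combination h1
  rw [A.Bp _ ce_e1, A.B01, A.B11] at h2
  obtain rfl : c = 0 := by linear_combination -h2
  rw [A.Bp _ ce_e2, A.B02] at h3
  obtain rfl : b = 0 := by linear_combination h3
  have h4 := hz _ A.nξ
  simp only [zero_smul, add_zero, smul_dotProduct, smul_eq_mul, h.pξ, mul_eq_zero,
    neg_eq_zero] at h4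
  simp [h4.resolve_right h0]

/-- the basis `ε_b - n_b ε_a0` of the hyperplane -/
theorem hyp_ext (A : Leaf L) {w : Fin 6 → Ω}
    (h : ∀ b, w b - A.n b * w A.a0 = 0) {v : Fin 6 → Ω} (hv : A.n ⬝ᵥ v = 0) : w ⬝ᵥ v = 0 := by
  have : w = w A.a0 • A.n := by
    ext b
    simp only [Pi.smul_apply, smul_eq_mul]
    linear_combination h b
  rw [this, smul_dotProduct, hv, smul_zero]

theorem split (A : Leaf L) (hs : ∀ a b, G a b = G b a) (ha : G A.a0 A.a0 = 0)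
    (h : ∀ v w, A.n ⬝ᵥ v = 0 → A.n ⬝ᵥ w = 0 → v ⬝ᵥ G *ᵥ w = 0) (a b : Fin 6) :
    G a b = A.n a * G A.a0 b + G A.a0 a * A.n b := by
  have hn : ∀ a, A.n ⬝ᵥ (Pi.single a 1 - A.n a • (Pi.single A.a0 1 : Fin 6 → Ω)) = 0 := fun a => by
    simp [dotProduct_sub, A.na]
  have := h _ _ (hn a) (hn b)
  simp only [mulVec_sub, mulVec_smul, sub_dotProduct, dotProduct_sub, smul_dotProduct,
    dotProduct_smul, single_one_dotProduct, mulVec_single_one, col_apply, smul_eq_mul, ha] at this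
  rw [hs a A.a0] at this
  linear_combination this

/-- a derivation preserving the leaf constants sends `Φ` to a good form -/
theorem good (A : Leaf L) (D : Derivation ℂ Ω Ω)
    (hD : ∀ w ∈ cst {E : Derivation ℂ Ω Ω | dv E A.n = 0},
      D w ∈ cst {E : Derivation ℂ Ω Ω | dv E A.n = 0}) : A.Good (A.Φ.map D) := by
  have s1 : ∀ v, T.p ⬝ᵥ A.Φ *ᵥ v = L.z ⬝ᵥ v := fun v => by
    rw [bil_symm A.Φs, A.Φp, dotProduct_comm]
  have s2 : ∀ v, T.q ⬝ᵥ A.Φ *ᵥ v = L.z' ⬝ᵥ v := fun v => by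
    rw [bil_symm A.Φs, A.Φq, dotProduct_comm]
  refine ⟨fun a b => by simp [A.Φs a b], fun E hE => ?_, ?_, ?_, ?_⟩
  · ext a b
    exact hD _ (fun E' hE' => A.dΦ E' ((A.leaf E').1 hE') a b) E ((A.leaf E).2 hE)
  · have := D_bil D A.Φ T.p T.p
    rw [s1, s1, L.zp, A.Φp, two_mul, map_add, L.dc, dotProduct_comm (dv D T.p)] at this
    linear_combination -this
  · have := D_bil D A.Φ T.p T.q
    rw [s1, s1, L.zq, A.Φq, L.dc1, dotProduct_comm (dv D T.p)] at this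
    show T.p ⬝ᵥ _ *ᵥ T.q = 0
    linear_combination -this
  · have := D_bil D A.Φ T.q T.q
    rw [s2, s2, L.z'q, A.Φq, two_mul, map_add, L.dc2, dotProduct_comm (dv D T.q)] at this
    show T.q ⬝ᵥ _ *ᵥ T.q = 0
    linear_combination -this

end Leaf

end PV
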