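import Pool.Agent.Lib.MP_36fb43_ag.TriB
import Pool.Agent.Lib.MP_36fb43_ag.ConEA

/-! Conic type, step C4 over the big field. -/

open MvPolynomial Matrix Module

namespace PV

variable {Z : Cone ℂ 6} {Ω : Type} [Field Ω] [Algebra ℂ Ω] {T : Tri Z Ω} {s : Sect Z 2}
  {L : Leg T s}

namespace Leaf

variable {A : Leaf L} {G : Matrix (Fin 6) (Fin 6) Ω}

theorem rank2 (A : Leaf L) :
    finrank Ω (dsp (Set.univ : Set (Derivation ℂ Ω Ω)) A.n) = 2 := by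
  obtain ⟨D1, h1⟩ := T.exp A.ξ
  obtain ⟨D2, h2⟩ := T.exp (Pi.single A.a0 1)
  have hl : LinearIndependent Ω ![dv D1 A.n, dv D2 A.n] := by
    rw [LinearIndependent.pair_iff]
    intro a b h
    have := (A.leaf (a • D1 + b • D2)).1 (by rw [dvD_add, dvD_smul, dvD_smul, h])
    rw [dvD_add, dvD_smul, dvD_smul, h1, h2] at this
    have hb : b = 0 := by simpa [A.nξ, A.na] using A.nLa this
    rw [hb, zero_smul, add_zero] at this
    exact ⟨A.ξnot this, hb⟩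
  have : dsp (Set.univ : Set (Derivation ℂ Ω Ω)) A.n =
      Submodule.span Ω (Set.range ![dv D1 A.n, dv D2 A.n]) := by
    refine le_antisymm (Submodule.span_le.2 ?_) (Submodule.span_le.2 ?_)
    · rintro _ ⟨E, -, rfl⟩
      obtain ⟨l, hl, a, e⟩ := A.dec
        (v := dv E T.p - (A.n ⬝ᵥ dv E T.p) • (Pi.single A.a0 1 : Fin 6 → Ω)) (by simp [A.na])
      have := (A.leaf (E - a • D1 - (A.n ⬝ᵥ dv E T.p) • D2)).2 (by
        rw [dvD_sub, dvD_sub, dvD_smul, dvD_smul, h1, h2, sub_right_comm, e, add_sub_cancel_right]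
        exact hl)
      rw [dvD_sub, dvD_sub, dvD_smul, dvD_smul, sub_sub, sub_eq_zero] at this
      rw [this]
      exact Submodule.add_mem _ (Submodule.smul_mem _ _ (Submodule.subset_span ⟨0, rfl⟩))
        (Submodule.smul_mem _ _ (Submodule.subset_span ⟨1, rfl⟩))
    · rintro _ ⟨i, rfl⟩
      fin_cases i
      · exact Submodule.subset_span ⟨D1, trivial, rfl⟩
      · exact Submodule.subset_span ⟨D2, trivial, rfl⟩
  rw [this, finrank_span_eq_card hl, Fintype.card_fin]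

theorem n_mem (A : Leaf L) (a : Fin 6) : A.n a ∈ cst {E : Derivation ℂ Ω Ω | dv E A.n = 0} :=
  fun _ hE => congrFun hE a

theorem Φ_mem (A : Leaf L) (a b : Fin 6) :
    A.Φ a b ∈ cst {E : Derivation ℂ Ω Ω | dv E A.n = 0} :=
  fun E hE => A.dΦ E ((A.leaf E).1 hE) a b

/-- normalisation `Φ a0 a0 = 0` -/
theorem norm (A : Leaf L) : ∃ A' : Leaf L, A'.Φ A'.a0 A'.a0 = 0 := by
  have hv : ∀ v, A.n ⬝ᵥ v = 0 →
      (A.Φ - A.Φ A.a0 A.a0 • vecMulVec A.n A.n) *ᵥ v = A.Φ *ᵥ v := fun v hv => by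
    rw [sub_mulVec, smul_mulVec, vecMulVec_mulVec, hv]; simp
  refine ⟨{ A with
    Φ := A.Φ - A.Φ A.a0 A.a0 • vecMulVec A.n A.n
    Φs := fun a b => by simp [vecMulVec_apply, A.Φs a b, mul_comm]
    dΦ := fun D hD a b => ?_
    Φp := (hv _ (A.nLa ce_p)).trans A.Φp
    Φq := (hv _ (A.nLa ce_e0)).trans A.Φq }, by simp [vecMulVec_apply, A.na]⟩
  have hn : ∀ a, D (A.n a) = 0 := congrFun ((A.leaf D).2 hD)
  simp [vecMulVec_apply, A.dΦ D hD, hn]

theorem xΦx (A : Leaf L) (u : Ω) :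
    (u • T.p + T.q) ⬝ᵥ A.Φ *ᵥ (u • T.p + T.q) = 2 * (L.c * u ^ 2 + L.c1 * u + L.c2) := by
  rw [mulVec_add, mulVec_smul, A.Φp, A.Φq, dotProduct_comm]
  simp only [add_dotProduct, dotProduct_add, smul_dotProduct, dotProduct_smul, L.zp, L.zq, L.z'p,
    L.z'q, smul_eq_mul]
  ring

theorem flat [IsAlgClosed Ω] (A : Leaf L) {D1 D2 : Derivation ℂ Ω Ω} {y1 y2 : Fin 6}
    (h11 : D1 (A.n y1) = 1) (h12 : D1 (A.n y2) = 0) (h21 : D2 (A.n y1) = 0)
    (h22 : D2 (A.n y2) = 1)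
    (hE : ∀ E : Derivation ℂ Ω Ω, E (A.n y1) = 0 → E (A.n y2) = 0 → dv E A.n = 0)
    (p2 : ∀ w ∈ cst {E : Derivation ℂ Ω Ω | dv E A.n = 0},
      D2 w ∈ cst {E : Derivation ℂ Ω Ω | dv E A.n = 0})
    (cm : ∀ w ∈ cst {E : Derivation ℂ Ω Ω | dv E A.n = 0}, D1 (D2 w) = D2 (D1 w))
    (s1 : ∀ a b, D1 (A.Φ a b) = A.n a * D1 (A.Φ A.a0 b) + D1 (A.Φ A.a0 a) * A.n b)
    (s2 : ∀ a b, D2 (A.Φ a b) = A.n a * D2 (A.Φ A.a0 b) + D2 (A.Φ A.a0 a) * A.n b) : s.Poly := by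
  have st : ∀ a b, D2 (A.n a) * D1 (A.Φ A.a0 b) + D1 (A.Φ A.a0 a) * D2 (A.n b) =
      D1 (A.n a) * D2 (A.Φ A.a0 b) + D2 (A.Φ A.a0 a) * D1 (A.n b) := fun a b => by
    have := cm _ (A.Φ_mem a b)
    rw [s1, s2] at this
    simp only [map_add, Derivation.leibniz, smul_eq_mul, cm _ (A.Φ_mem _ _)] at this
    linear_combination -this
  obtain ⟨κ, hκ⟩ : ∃ κ, κ = D2 (A.Φ A.a0 y2) := ⟨_, rfl⟩
  have z1 : D1 (A.Φ A.a0 y2) = 0 := ce_half (by
    have := st y2 y2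
    rw [h12, h22] at this
    linear_combination this)
  have z2 : D2 (A.Φ A.a0 y1) = 0 := ce_half (by
    have := st y1 y1
    rw [h11, h21] at this
    linear_combination -this)
  have l1 : ∀ b, D1 (A.Φ A.a0 b) = κ * D1 (A.n b) := fun b => by
    have := st y2 b
    rw [h12, h22, z1, ← hκ] at this
    linear_combination this
  have l2 : ∀ b, D2 (A.Φ A.a0 b) = κ * D2 (A.n b) := fun b => by
    have := st y1 b
    rw [h11, h21, z2, l1 y1, h11] at this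
    linear_combination -this
  have k : ∀ b, D1 κ * D2 (A.n b) = D2 κ * D1 (A.n b) := fun b => by
    have := cm _ (A.Φ_mem A.a0 b)
    rw [l1, l2] at this
    simp only [Derivation.leibniz, smul_eq_mul, cm _ (A.n_mem _)] at this
    linear_combination this
  have k1 : D1 κ = 0 := by simpa [h12, h22] using k y2
  have k2 : D2 κ = 0 := by simpa [h11, h21] using (k y1).symm
  have kκ : ∀ E : Derivation ℂ Ω Ω, dv E A.n = 0 → E κ = 0 := hκ ▸ p2 _ (A.Φ_mem _ _)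
  have all : ∀ (E : Derivation ℂ Ω Ω) a b, E (A.Φ a b - κ * (A.n a * A.n b)) = 0 := by
    intro E a b
    have e1 : D1 (A.Φ a b - κ * (A.n a * A.n b)) = 0 := by
      simp only [map_sub, Derivation.leibniz, smul_eq_mul, k1]
      rw [s1, l1, l1]; ring
    have e2 : D2 (A.Φ a b - κ * (A.n a * A.n b)) = 0 := by
      simp only [map_sub, Derivation.leibniz, smul_eq_mul, k2]
      rw [s2, l2, l2]; ring
    have h := hE (E - E (A.n y1) • D1 - E (A.n y2) • D2) (by simp [h11, h21]) (by simp [h12, h22])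
    have e3 : (E - E (A.n y1) • D1 - E (A.n y2) • D2) (A.Φ a b - κ * (A.n a * A.n b)) = 0 := by
      rw [map_sub, Derivation.leibniz, Derivation.leibniz, kκ _ h, A.Φ_mem a b _ h,
        A.n_mem a _ h, A.n_mem b _ h]
      simp
    rwa [Derivation.sub_apply, Derivation.sub_apply, Derivation.smul_apply, Derivation.smul_apply,
      e1, e2, smul_zero, smul_zero, sub_zero, sub_zero] at e3
  refine T.poly ((2 : Ω)⁻¹ • (A.Φ - κ • vecMulVec A.n A.n)) (fun E a b => ?_) ?_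
  · have e2 : E (2 : Ω)⁻¹ = 0 := by
      rw [Derivation.leibniz_inv, ← one_add_one_eq_two, map_add, E.map_one_eq_zero]; simp
    show E ((2 : Ω)⁻¹ * (A.Φ a b - κ * (A.n a * A.n b))) = 0
    rw [Derivation.leibniz, all, e2, smul_zero, smul_zero, add_zero]
  · have hn : A.n ⬝ᵥ T.x 0 = 0 := A.nLa (T.La.add_mem (T.La.smul_mem _ ce_p) ce_e0)
    rw [smul_mulVec, sub_mulVec, smul_mulVec, vecMulVec_mulVec, hn, MulOpposite.op_zero, zero_smul,
      smul_zero, sub_zero, dotProduct_smul, Tri.x, A.xΦx, smul_eq_mul,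
      inv_mul_cancel_left₀ (ce_two Ω)]
    exact L.val 0

theorem Good.xx (h : A.Good G) (u : Ω) : (u • T.p + T.q) ⬝ᵥ G *ᵥ (u • T.p + T.q) = 0 := by
  have h1 : T.q ⬝ᵥ G *ᵥ T.p = 0 := (bil_symm h.sym _ _).trans h.pq
  have h2 : T.p ⬝ᵥ G *ᵥ T.q = 0 := h.pq
  have h3 : T.q ⬝ᵥ G *ᵥ T.q = 0 := h.qq
  simp only [mulVec_add, mulVec_smul, add_dotProduct, dotProduct_add, smul_dotProduct,
    dotProduct_smul, h.pp, h1, h2, h3, smul_zero, add_zero]

/-- the rank of `(n, d q)` on the tangent space is at most one -/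
theorem Good.detx (h : A.Good G) (i : Fin 3) (D D' : Derivation ℂ Ω Ω) :
    (A.n ⬝ᵥ dv D' (T.x i)) * (T.x i ⬝ᵥ G *ᵥ dv D (T.x i)) -
      (A.n ⬝ᵥ dv D (T.x i)) * (T.x i ⬝ᵥ G *ᵥ dv D' (T.x i)) = 0 := by
  by_contra hne
  have hx : T.x i ∈ T.La := T.La.add_mem (T.La.smul_mem _ ce_p) ce_e0
  have hxx : T.x i ⬝ᵥ G *ᵥ T.x i = 0 := h.xx _
  have kn : ∀ E : Derivation ℂ Ω Ω, dv E T.p ∈ T.La → A.n ⬝ᵥ dv E (T.x i) = 0 := fun E hE => by
    have := D_dot E A.n (T.x i)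
    rw [A.nLa hx, map_zero, (A.leaf E).2 hE, zero_dotProduct, zero_add] at this
    exact this.symm
  have kq : ∀ E : Derivation ℂ Ω Ω, dv E T.p ∈ T.La → T.x i ⬝ᵥ G *ᵥ dv E (T.x i) = 0 :=
    fun E hE => by
      have := h.d hE hxx
      rw [bil_symm h.sym] at this
      exact ce_half this
  obtain ⟨E, hE⟩ := T.exp (T.e 2)
  have hL : dv E T.p ∈ T.La := hE ▸ ce_e2
  let U := perp (Nm Z.I (T.x i))
  let v : Fin 5 → U := ![⟨_, tg_iff.1 (tg_self Z (T.on i))⟩, ⟨_, tg_iff.1 (T.tgx T.Dπ i)⟩,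
    ⟨_, tg_iff.1 (T.tgx E i)⟩, ⟨_, tg_iff.1 (T.tgx D i)⟩, ⟨_, tg_iff.1 (T.tgx D' i)⟩]
  have hv : LinearIndependent Ω v := by
    rw [Fintype.linearIndependent_iff]
    intro g hg
    have e : g 0 • T.x i + g 1 • dv T.Dπ (T.x i) + g 2 • dv E (T.x i) + g 3 • dv D (T.x i) +
        g 4 • dv D' (T.x i) = 0 := by
      have := congrArg Subtype.val hg
      rw [Fin.sum_univ_five] at this
      exact this
    have e1 := congrArg (A.n ⬝ᵥ ·) e
    have e2 := congrArg (T.x i ⬝ᵥ G *ᵥ ·) e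
    simp only [mulVec_add, mulVec_smul, dotProduct_add, dotProduct_smul, smul_eq_mul, A.nLa hx,
      hxx, kn _ ce_π, kn _ hL, kq _ ce_π, kq _ hL, mul_zero, zero_add, mulVec_zero,
      dotProduct_zero] at e1 e2
    have g3 : g 3 = 0 := (mul_eq_zero.1 (by
      linear_combination (A.n ⬝ᵥ dv D' (T.x i)) * e2 -
        (T.x i ⬝ᵥ G *ᵥ dv D' (T.x i)) * e1)).resolve_right hne
    have g4 : g 4 = 0 := (mul_eq_zero.1 (by
      linear_combination (T.x i ⬝ᵥ G *ᵥ dv D (T.x i)) * e1 -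
        (A.n ⬝ᵥ dv D (T.x i)) * e2)).resolve_right hne
    rw [g3, g4, zero_smul, zero_smul, add_zero, add_zero] at e
    obtain ⟨l, hl, el⟩ := A.dL hL hx
    obtain ⟨l', hl', el'⟩ := A.dL ce_π hx
    rw [T.Dπp, zero_dotProduct, zero_smul, add_zero] at el'
    have hB : dv E T.p ⬝ᵥ A.Bt *ᵥ T.x i = 1 := by
      rw [hE, A.Bs _ ce_e2 _ hx, Tri.x, add_dotProduct, smul_dotProduct, A.Bp _ ce_e2, smul_zero,
        zero_add]
      exact A.B02
    rw [hB, one_smul] at el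
    have g2 : g 2 = 0 := A.ξnot (by
      have : g 2 • A.ξ = -(g 0 • T.x i + g 1 • l' + g 2 • l) := by
        rw [el, el', smul_add, ← add_assoc] at e
        exact eq_neg_of_add_eq_zero_right e
      rw [this]
      exact T.La.neg_mem (T.La.add_mem (T.La.add_mem (T.La.smul_mem _ hx) (T.La.smul_mem _ hl'))
        (T.La.smul_mem _ hl)))
    rw [g2, zero_smul, add_zero, T.dx, T.Dπp, Tri.x] at e
    have := A.rel (a := g 0 * T.u i + g 1 * T.Dπ (T.u i)) (b := g 0) (c := g 1) (d := 0) (e := 0)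
      (by rw [← e, T.e_succ, T.e0]; module)
    intro j
    fin_cases j
    exacts [this.2.1, this.2.2.1, g2, g3, g4]
  have h1 := hv.fintype_card_le_finrank
  have h2 : finrank Ω U + 2 = 6 := finrank_tg Z (T.x_ne i) (T.on i)
  rw [Fintype.card_fin] at h1
  omega

theorem Good.detp (h : A.Good G) (h0 : T.e 0 ⬝ᵥ G *ᵥ T.e 2 ≠ 0) {D D' : Derivation ℂ Ω Ω}
    (hi : ∀ a b : Ω, a • dv D A.n + b • dv D' A.n = 0 → a = 0 ∧ b = 0) :
    (A.n ⬝ᵥ dv D' T.p) * (T.p ⬝ᵥ G *ᵥ dv D T.p) -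
      (A.n ⬝ᵥ dv D T.p) * (T.p ⬝ᵥ G *ᵥ dv D' T.p) ≠ 0 := by
  intro e
  have k : ∀ a b : Ω, a * (A.n ⬝ᵥ dv D T.p) + b * (A.n ⬝ᵥ dv D' T.p) = 0 →
      a * (T.p ⬝ᵥ G *ᵥ dv D T.p) + b * (T.p ⬝ᵥ G *ᵥ dv D' T.p) = 0 → a = 0 ∧ b = 0 := by
    intro a b h1 h2
    have := (A.leaf (a • D + b • D')).2 ((h.La h0 _).2 (by
      simp only [dvD_add, dvD_smul, mulVec_add, mulVec_smul, dotProduct_add, dotProduct_smul,
        smul_eq_mul]
      exact ⟨h1, h2⟩))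
    rw [dvD_add, dvD_smul, dvD_smul] at this
    exact hi a b this
  have h1 := k (A.n ⬝ᵥ dv D' T.p) (-(A.n ⬝ᵥ dv D T.p)) (by ring) (by linear_combination e)
  have h2 := k (T.p ⬝ᵥ G *ᵥ dv D' T.p) (-(T.p ⬝ᵥ G *ᵥ dv D T.p)) (by linear_combination -e)
    (by ring)
  exact one_ne_zero (k 1 0 (by linear_combination -h1.2) (by linear_combination -h2.2)).1

end Leaf

end PV
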