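import Pool.Agent.Lib.MP_36fb43_ag.TriB
import Pool.Agent.Lib.MP_36fb43_ag.ConEB

open MvPolynomial Matrix Module

namespace PV

theorem ce_cD_qf {R K σ : Type} [Field R] [Field K] [Algebra R K] [Fintype σ]
    (d : Derivation R K K) (Q : Matrix σ σ K) : cD d (qf Q) = qf (Q.map d) := by
  simp only [qf, ka_cD_sum, cD_mul, ka_cD_C, ka_cD_X, mul_zero, add_zero, Matrix.map_apply]

theorem ce_qf {K σ : Type} [CommRing K] [Fintype σ] (M Q : Matrix σ σ K) (u v w z : σ → K) (β : K)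
    (h : ∀ a b, M a b = u a * v b + v a * u b + (w a * z b + z a * w b) + β * Q a b) :
    qf M = lin u * lin (v + v) + lin w * lin (z + z) + C β * qf Q := by
  have k : ∀ u v : σ → K, lin u * lin v = ∑ a, ∑ b, C (u a * v b) * X a * X b := fun u v => by
    simp only [lin, Finset.sum_mul_sum, map_mul]
    exact Finset.sum_congr rfl fun a _ => Finset.sum_congr rfl fun b _ => by ring
  have k2 : ∀ u v : σ → K, lin u * lin (v + v) = lin u * lin v + lin v * lin u := fun u v => by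
    have : lin (v + v) = lin v + lin v := by
      simp only [lin, Pi.add_apply, map_add, add_mul, Finset.sum_add_distrib]
    rw [this]; ring
  rw [k2, k2]
  simp only [k, qf, h, Finset.mul_sum, ← Finset.sum_add_distrib, map_add, map_mul]
  exact Finset.sum_congr rfl fun a _ => Finset.sum_congr rfl fun b _ => by ring

variable {Z : Cone ℂ 6} {Ω : Type} [Field Ω] [IsAlgClosed Ω] [Algebra ℂ Ω]

omit [IsAlgClosed Ω] in
theorem conend_of {T : Tri Z Ω} {s : Sect Z 2} {L : Leg T s} (A : Leaf L) (h3 : T.e 3 ∈ T.La)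
    {K : Type} [Field K] [Algebra ℂ K] [Algebra K Ω] {D D' : Derivation ℂ Ω Ω}
    {d d' : Derivation ℂ K K} (hd : ∀ c, algebraMap K Ω (d c) = D (algebraMap K Ω c))
    (hd' : ∀ c, algebraMap K Ω (d' c) = D' (algebraMap K Ω c)) (n : Fin 6 → K)
    (hn : algebraMap K Ω ∘ n = A.n) (Φ : Matrix (Fin 6) (Fin 6) K)
    (hΦ : Φ.map (algebraMap K Ω) = A.Φ) (β : K) (hc : ∀ c, d (d' c) = d' (d c) + β * d' c)
    (hs : ∀ a b, d (Φ a b) = n a * d (Φ A.a0 b) + d (Φ A.a0 a) * n b)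
    (kill : ∀ E : Derivation ℂ Ω Ω, dv E T.p ∈ T.La → ∀ c : K, E (algebraMap K Ω c) = 0)
    (hg : A.Good (A.Φ.map D')) (h0 : T.e 0 ⬝ᵥ A.Φ.map D' *ᵥ T.e 2 ≠ 0)
    (hi : ∀ a b : Ω, a • dv D A.n + b • dv D' A.n = 0 → a = 0 ∧ b = 0) :
    Nonempty (ConEnd T K) := by
  have inj := (algebraMap K Ω).injective
  have hQ : (Φ.map d').map (algebraMap K Ω) = A.Φ.map D' := by
    rw [← hΦ]; ext a b; exact hd' _
  have hQ1 : ((Φ.map d').map d).map (algebraMap K Ω) = (A.Φ.map D').map D := by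
    rw [← hQ]; ext a b; exact hd _
  have hQ2 : ((Φ.map d').map d').map (algebraMap K Ω) = (A.Φ.map D').map D' := by
    rw [← hQ]; ext a b; exact hd' _
  have hn1 : algebraMap K Ω ∘ dv d n = dv D A.n := by rw [← hn]; ext a; exact hd _
  have hn2 : algebraMap K Ω ∘ dv d' n = dv D' A.n := by rw [← hn]; ext a; exact hd' _
  have hna : ∀ a, algebraMap K Ω (n a) = A.n a := congrFun hn
  have na : n A.a0 = 1 := inj (by rw [hna, A.na, map_one])
  have Qs : ∀ a b, Φ.map d' a b = Φ.map d' b a := fun a b =>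
    inj ((congrFun (congrFun hQ a) b).trans ((hg.sym a b).trans (congrFun (congrFun hQ b) a).symm))
  have dQ : cD d (qf (Φ.map d')) = lin (dv d' n) * lin (dv d (Φ A.a0) + dv d (Φ A.a0)) +
      lin n * lin (dv d' (dv d (Φ A.a0)) + dv d' (dv d (Φ A.a0))) + C β * qf (Φ.map d') := by
    rw [ce_cD_qf]
    refine ce_qf _ _ _ _ _ _ _ fun a b => ?_
    simp only [Matrix.map_apply, dv_apply]
    rw [hc, hs, map_add, Derivation.leibniz, Derivation.leibniz]
    simp only [smul_eq_mul]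
    ring
  have ev : ∀ x : Fin 6 → Ω, A.n ⬝ᵥ x = 0 → x ⬝ᵥ A.Φ.map D' *ᵥ x = 0 →
      aeval x (lin (dv d (Φ A.a0) + dv d (Φ A.a0)) * lin (dv d' n) ^ 2 -
        lin (dv d n) * cD d' (qf (Φ.map d'))) =
      2 * ((A.n ⬝ᵥ dv D' x) * (x ⬝ᵥ A.Φ.map D' *ᵥ dv D x) -
        (A.n ⬝ᵥ dv D x) * (x ⬝ᵥ A.Φ.map D' *ᵥ dv D' x)) := by
    intro x h1 h2
    have e := congrArg (aeval x) dQ
    simp only [ce_cD_qf, map_add, map_mul, aeval_qf, aeval_lin, hQ, hQ1, hn, hn2, h1, h2,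
      zero_mul, mul_zero, add_zero] at e
    simp only [ce_cD_qf, map_sub, map_mul, map_pow, aeval_qf, aeval_lin, hQ2, hn1, hn2]
    have a1 := D_dot D A.n x
    have a2 := D_dot D' A.n x
    have b1 := D_bil D (A.Φ.map D') x x
    have b2 := D_bil D' (A.Φ.map D') x x
    rw [h1, map_zero] at a1 a2
    rw [h2, map_zero, bil_symm hg.sym (dv _ x)] at b1 b2
    linear_combination (-(dv D' A.n ⬝ᵥ x)) * e - (dv D' A.n ⬝ᵥ x) * b1 + (dv D A.n ⬝ᵥ x) * b2 +
      2 * (x ⬝ᵥ A.Φ.map D' *ᵥ dv D x) * a2 - 2 * (x ⬝ᵥ A.Φ.map D' *ᵥ dv D' x) * a1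
  refine ⟨{
    D := d, D' := d', n := n, l := dv d (Φ A.a0) + dv d (Φ A.a0)
    l3 := dv d' (dv d (Φ A.a0)) + dv d' (dv d (Φ A.a0)), b := β, Q := Φ.map d', Qs := Qs
    li := ?_, dQ := dQ, nd := fun y hy hz => ?_, kill := kill, liLa := ?_, stab := h3
    La := fun v => by rw [hn, hQ]; exact hg.La h0 v
    qq := by rw [hQ]; exact hg.qq
    ψx := fun i => by
      rw [ev (T.x i) (A.nLa (T.La.add_mem (T.La.smul_mem _ ce_p) ce_e0)) (hg.xx _), hg.detx,
        mul_zero]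
    ψp := by
      rw [ev _ (A.nLa ce_p) hg.pp]
      exact mul_ne_zero (ce_two Ω) (hg.detp h0 hi) }⟩
  · rw [Fintype.linearIndependent_iff]
    intro g hg
    have e : g 0 • n + g 1 • dv d n + g 2 • dv d' n = 0 := by
      rw [Fin.sum_univ_three] at hg
      exact hg
    have g0 : g 0 = 0 := by simpa [na] using congrFun e A.a0
    rw [g0, zero_smul, zero_add] at e
    have := hi (algebraMap K Ω (g 1)) (algebraMap K Ω (g 2)) (by
      rw [← hn1, ← hn2]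
      ext a
      simpa [Algebra.smul_def] using congrArg (algebraMap K Ω) (congrFun e a))
    intro j
    fin_cases j
    exacts [g0, inj (this.1.trans (map_zero _).symm), inj (this.2.trans (map_zero _).symm)]
  · have hw : ∀ b, (Φ.map d' *ᵥ y) b - n b * (Φ.map d' *ᵥ y) A.a0 = 0 := fun b => by
      have := hz (Pi.single b 1 - n b • (Pi.single A.a0 1 : Fin 6 → K)) (by simp [na])
      rw [bil_symm Qs] at this
      simpa using this
    have e : ∀ b, algebraMap K Ω ((Φ.map d' *ᵥ y) b) = (A.Φ.map D' *ᵥ (algebraMap K Ω ∘ y)) b :=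
      fun b => by rw [← hQ, RingHom.map_mulVec]
    have := hg.nd h0 (y := algebraMap K Ω ∘ y)
      (by rw [← hn, ← RingHom.map_dotProduct, hy, map_zero]) fun v hv => by
        rw [bil_symm hg.sym, dotProduct_comm]
        refine A.hyp_ext (fun b => ?_) hv
        rw [← e, ← e, ← hna, ← map_mul, ← map_sub, hw, map_zero]
    ext a
    exact inj ((congrFun this a).trans (map_zero _).symm)
  · rw [Fintype.linearIndependent_iff]
    intro g hg
    have := A.rel (a := g 0) (b := g 1) (c := g 2) (d := g 3) (e := 0) (by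
      rw [Fin.sum_univ_four] at hg
      rw [zero_smul, add_zero]
      exact hg)
    intro j
    fin_cases j
    exacts [this.1, this.2.1, this.2.2.1, this.2.2.2.1]

omit [IsAlgClosed Ω] in
theorem conend_cur {T : Tri Z Ω} {s : Sect Z 2} {L : Leg T s} (A : Leaf L) (h3 : T.e 3 ∈ T.La)
    (ha : A.Φ A.a0 A.a0 = 0) {D1 D2 : Derivation ℂ Ω Ω} {y1 y2 : Fin 6}
    (h11 : D1 (A.n y1) = 1) (h12 : D1 (A.n y2) = 0) (h21 : D2 (A.n y1) = 0)
    (h22 : D2 (A.n y2) = 1)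
    (p1 : ∀ w ∈ cst {E : Derivation ℂ Ω Ω | dv E A.n = 0},
      D1 w ∈ cst {E : Derivation ℂ Ω Ω | dv E A.n = 0})
    (p2 : ∀ w ∈ cst {E : Derivation ℂ Ω Ω | dv E A.n = 0},
      D2 w ∈ cst {E : Derivation ℂ Ω Ω | dv E A.n = 0})
    (cm : ∀ w ∈ cst {E : Derivation ℂ Ω Ω | dv E A.n = 0}, D1 (D2 w) = D2 (D1 w))
    (h0 : T.e 0 ⬝ᵥ A.Φ.map D2 *ᵥ T.e 2 ≠ 0) :
    Nonempty (ConEnd T (cst {E : Derivation ℂ Ω Ω | dv E A.n = 0})) := by
  have g1 := A.good D1 p1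
  have g2 := A.good D2 p2
  obtain ⟨ρ, hρ⟩ : ∃ ρ, T.e 0 ⬝ᵥ A.Φ.map D1 *ᵥ T.e 2 = ρ * (T.e 0 ⬝ᵥ A.Φ.map D2 *ᵥ T.e 2) :=
    ⟨_, (div_mul_cancel₀ _ h0).symm⟩
  have mρ : ρ ∈ cst {E : Derivation ℂ Ω Ω | dv E A.n = 0} := fun E hE =>
    g1.ratio g2 ρ hρ h0 E ((A.leaf E).1 hE)
  have ap : ∀ w, (D1 - ρ • D2) w = D1 w - ρ * D2 w := fun w => rfl
  have p0 : ∀ w ∈ cst {E : Derivation ℂ Ω Ω | dv E A.n = 0},
      (D1 - ρ • D2) w ∈ cst {E : Derivation ℂ Ω Ω | dv E A.n = 0} := fun w hw =>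
    ap w ▸ sub_mem (p1 w hw) (mul_mem mρ (p2 w hw))
  have g0 := A.good _ p0
  have sp := A.split g0.sym (by rw [Matrix.map_apply, ha, map_zero]) (g0.zero (by
    have : A.Φ.map (D1 - ρ • D2 : Derivation ℂ Ω Ω) = A.Φ.map D1 - ρ • A.Φ.map D2 := by
      ext a b; exact ap _
    rw [this, sub_mulVec, smul_mulVec, dotProduct_sub, dotProduct_smul, hρ, smul_eq_mul,
      sub_self]))
  obtain ⟨d, hd⟩ := der_res _ _ p0
  obtain ⟨d', hd'⟩ := der_res _ _ p2
  refine conend_of A h3 hd hd' (fun a => ⟨A.n a, A.n_mem a⟩) rfl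
    (fun a b => ⟨A.Φ a b, A.Φ_mem a b⟩) rfl ⟨D2 ρ, p2 ρ mρ⟩ (fun c => Subtype.ext ?_)
    (fun a b => Subtype.ext ?_) (fun E hE c => c.2 E ((A.leaf E).2 hE)) g2 h0 fun a b h => ?_
  · simp only [AddMemClass.coe_add, MulMemClass.coe_mul, hd, hd', ap, map_sub, Derivation.leibniz,
      smul_eq_mul, cm _ c.2]
    ring
  · simp only [AddMemClass.coe_add, MulMemClass.coe_mul, hd]
    exact sp a b
  · have e1 := congrFun h y1
    have e2 := congrFun h y2
    simp only [Pi.add_apply, Pi.smul_apply, dv_apply, ap, h11, h12, h21, h22, smul_eq_mul,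
      Pi.zero_apply] at e1 e2
    obtain rfl : a = 0 := by linear_combination e1
    exact ⟨rfl, by linear_combination e2⟩

theorem conend_ex {T : Tri Z Ω} {s : Sect Z 2} {L : Leg T s} (A : Leaf L) (h3 : T.e 3 ∈ T.La)
    (hs : ¬ s.Poly) : ∃ (K : Type) (_ : Field K) (_ : IsAlgClosed K) (_ : Algebra ℂ K)
      (_ : Algebra K Ω) (_ : IsScalarTower ℂ K Ω), Nonempty (ConEnd T K) := by
  obtain ⟨A, ha⟩ := A.norm
  obtain ⟨y, D, h1, h2, p, cm⟩ := fol A.n A.rank2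
  refine ⟨cst {E : Derivation ℂ Ω Ω | dv E A.n = 0}, inferInstance, cst_algClosed _, inferInstance,
    inferInstance, inferInstance, ?_⟩
  by_cases l1 : T.e 0 ⬝ᵥ A.Φ.map (D 1) *ᵥ T.e 2 = 0
  · by_cases l0 : T.e 0 ⬝ᵥ A.Φ.map (D 0) *ᵥ T.e 2 = 0
    · have g0 := A.good _ (p 0)
      have g1 := A.good _ (p 1)
      exact (hs (A.flat (h1 0 0) (h1 0 1) (h1 1 0) (h1 1 1)
        (fun E e0 e1 => h2 E (Fin.forall_fin_two.2 ⟨e0, e1⟩)) (p 1) (cm 0 1)
        (A.split g0.sym ((congrArg _ ha).trans (map_zero _)) (g0.zero l0))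
        (A.split g1.sym ((congrArg _ ha).trans (map_zero _)) (g1.zero l1)))).elim
    · exact conend_cur A h3 ha (h1 1 1) (h1 1 0) (h1 0 1) (h1 0 0) (p 1) (p 0) (cm 1 0) l0
  · exact conend_cur A h3 ha (h1 0 0) (h1 0 1) (h1 1 0) (h1 1 1) (p 0) (p 1) (cm 0 1) l1

end PV
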