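import Pool.Agent.Lib.MP_36fb43_ag.GPb

/-! Lines through the generic point. -/

open MvPolynomial Matrix Module

namespace PV

section gen
variable {k F : Type} [Field k] [Field F] [IsAlgClosed F] [Algebra k F] {n : ℕ} {Z : Cone k n}
  {p q : Fin n → F}

theorem gp1 (hp : ∀ v, ∃ D : Derivation k F F, dv D p = v) {κ τ : Type} [Fintype κ] [Fintype τ]
    (z : κ → F) (hz : Function.Injective z) (A : ∀ a, GPt Z p q (z a)) (v : τ → Fin n → F)
    (hv : LinearIndependent F v) (hK : ∀ a t, Kz Z.I p q (z a) (A a).m (v t)) :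
    (LinearIndependent F fun a i => ((A a).h 0 i).eval (z a)) ∧
      2 * ∑ a, (A a).m + Fintype.card τ ≤ n + Fintype.card κ := by
  classical
  have h0 := gp0 p q hp (fun j : κ × Fin 2 => z j.1) (fun j => (A j.1).m - j.2)
    (fun j => (A j.1).h j.2) (fun D j => (A j.1).hD D j.2) (fun w => by
      rcases isEmpty_or_nonempty {j : κ × Fin 2 // z j.1 = w ∧ 1 ≤ (A j.1).m - j.2} with
        he | ⟨⟨⟨⟨a, b⟩, ha, hb⟩⟩⟩
      · exact linearIndependent_empty_type
      · dsimp only at ha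
        subst ha
        have h1 := (A a).li.comp
          (fun j : {j : κ × Fin 2 // z j.1 = z a ∧ 1 ≤ (A j.1).m - j.2} => j.1.2) (by
            rintro ⟨⟨a1, b1⟩, h1, h1'⟩ ⟨⟨a2, b2⟩, h2, h2'⟩ e
            obtain rfl := hz h1
            obtain rfl := hz h2
            obtain rfl : b1 = b2 := e
            rfl)
        convert h1 using 1
        funext ⟨⟨a1, b1⟩, h1, h1'⟩
        obtain rfl := hz h1
        rfl)
  constructor
  · have h1 := h0.comp (fun a : κ => (⟨(a, 0), ⟨0, (A a).pos⟩⟩ :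
      Σ j : κ × Fin 2, Fin ((A j.1).m - j.2))) (fun a b e => by
        have := congrArg (fun x => x.1.1) e
        exact this)
    convert h1 using 1
    funext a i
    simp
  · have h1 := gp_orth _ v h0 hv (fun js t => by
      have h2 := gp_tay_dvd _ _ ((A js.1.1).kill _ (hK js.1.1 t) js.1.2) js.2.2
      rw [← h2]
      simp [dotProduct, Polynomial.taylor_mul, Polynomial.finsetSum_coeff])
    rw [Fintype.card_sigma, Fintype.sum_prod_type] at h1
    simp only [Fintype.card_fin, Fin.sum_univ_two, Fin.val_zero, Fin.val_one, Nat.sub_zero] at h1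
    have h2 : ∑ a, ((A a).m + ((A a).m - 1)) + Fintype.card κ = 2 * ∑ a, (A a).m := by
      rw [Fintype.card, Finset.card_eq_sum_ones, ← Finset.sum_add_distrib, Finset.mul_sum]
      exact Finset.sum_congr rfl fun a _ => by have := (A a).pos; omega
    omega

theorem GPt.le {z : F} (A : GPt Z p q z) {g : Polynomial F} (hg : Al Z.I p q g) {a : ℕ}
    (h : (Polynomial.X - Polynomial.C z) ^ a ∣ g) : a ≤ A.m := by
  obtain ⟨f, hf, r, h1, h2⟩ := A.ex
  exact gp_le h2 (h1 ▸ h.trans (hg f hf))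

theorem gp_x0 (hq : LinearIndependent F ![p, q]) (z : F) : z • p + q ≠ 0 := fun e => by
  have := (LinearIndependent.pair_iff.1 hq z 1 (by simpa using e)).2
  exact one_ne_zero this

theorem gp_split {g : Polynomial F} (hm : g.Monic) {d : ℕ} (hd : g.natDegree = d) :
    ∃ u : Fin d → F, g = ∏ i, (Polynomial.X - Polynomial.C (u i)) := by
  induction d generalizing g with
  | zero => exact ⟨0, by simpa using (hm.natDegree_eq_zero).1 hd⟩
  | succ d ih =>
    obtain ⟨z, hz⟩ := IsAlgClosed.exists_root g (by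
      rw [Polynomial.degree_eq_natDegree hm.ne_zero, hd]; exact_mod_cast Nat.succ_ne_zero d)
    obtain ⟨r, rfl⟩ := Polynomial.dvd_iff_isRoot.2 hz
    have hr : r.Monic := (Polynomial.monic_X_sub_C z).of_mul_monic_left hm
    rw [(Polynomial.monic_X_sub_C z).natDegree_mul hr, Polynomial.natDegree_X_sub_C] at hd
    obtain ⟨u, hu⟩ := ih hr (by omega)
    exact ⟨Fin.cons z u, by simp [Fin.prod_univ_succ, ← hu]⟩

/-- an aligned scheme of the largest possible length is reduced -/
theorem gp2 (hp : ∀ v, ∃ D : Derivation k F F, dv D p = v) (hq : LinearIndependent F ![p, q])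
    {g : Polynomial F} (hm : g.Monic) {d : ℕ} (hd : g.natDegree = d) (hg : Al Z.I p q g)
    {τ : Type} [Fintype τ] (v : τ → Fin n → F) (hv : LinearIndependent F v)
    (hK : ∀ z m t, Al Z.I p q ((Polynomial.X - Polynomial.C z) ^ m) → Kz Z.I p q z m (v t))
    (hn : n ≤ d + Fintype.card τ) :
    ∃ (u : Fin d → F) (h : Fin d → Fin n → F), Function.Injective u ∧
      g = ∏ i, (Polynomial.X - Polynomial.C (u i)) ∧
      (∀ i, h i ∈ Nm Z.I (u i • p + q)) ∧ (∀ i, h i ⬝ᵥ p = 0) ∧ LinearIndependent F h ∧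
      (∀ i, ¬ Tg Z.I (u i • p + q) p) ∧ ∀ w, On Z.I (w • p + q) → ∃ i, w = u i := by
  classical
  obtain ⟨u, hu⟩ := gp_split hm hd
  have hon : ∀ i, On Z.I (u i • p + q) := fun i => al_on hg (Polynomial.dvd_iff_isRoot.1
    (hu ▸ Finset.dvd_prod_of_mem _ (Finset.mem_univ i)))
  have hinj : Function.Injective u := by
    let S := Finset.univ.image u
    have hS : ∀ a : S, On Z.I ((a : F) • p + q) := by
      rintro ⟨a, ha⟩
      obtain ⟨i, -, rfl⟩ := Finset.mem_image.1 ha
      exact hon i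
    let A : ∀ a : S, GPt Z p q a := fun a => (gpt_ex hp (gp_x0 hq _) (hS a)).some
    have h1 := (gp1 hp (fun a : S => (a : F)) Subtype.val_injective A v hv
      (fun a t => hK _ _ t (A a).al)).2
    have h2 : ∀ a : S, (Finset.univ.filter fun i => u i = a).card ≤ (A a).m := fun a => by
      refine (A a).le hg ?_
      rw [hu, ← Finset.prod_const]
      refine Dvd.dvd.trans (dvd_of_eq (Finset.prod_congr rfl fun i hi => ?_))
        (Finset.prod_dvd_prod_of_subset _ _ _ (Finset.filter_subset (fun i => u i = a) _))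
      rw [(Finset.mem_filter.1 hi).2]
    have h3 : d = ∑ a : S, (Finset.univ.filter fun i => u i = a).card := by
      rw [Finset.sum_coe_sort S (fun a => (Finset.univ.filter fun i => u i = a).card),
        ← Finset.card_eq_sum_card_image u Finset.univ]
      simp
    have h4 := Finset.sum_le_sum (s := Finset.univ) fun a _ => h2 a
    have h5 : S.card ≤ d := Finset.card_image_le.trans (by simp)
    rw [Fintype.card_coe] at h1
    have h6 : S.card = (Finset.univ : Finset (Fin d)).card := by simp; omega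
    exact fun a b e => Finset.injOn_of_card_image_eq h6 (by simp) (by simp) e
  let A : ∀ i, GPt Z p q (u i) := fun i => (gpt_ex hp (gp_x0 hq _) (hon i)).some
  obtain ⟨h1, h2⟩ := gp1 hp u hinj A v hv (fun a t => hK _ _ t (A a).al)
  have h3 : ∀ i, (A i).m = 1 := by
    intro i
    by_contra h
    have h4 : ∑ _a : Fin d, 1 < ∑ a, (A a).m :=
      Finset.sum_lt_sum (fun a _ => (A a).pos) ⟨i, Finset.mem_univ _, by have := (A i).pos; omega⟩
    simp at h4 h2
    omega
  refine ⟨u, fun a i => ((A a).h 0 i).eval (u a), hinj, hu, fun i => (A i).nm, fun a => ?_, h1,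
    fun a ht => ?_, fun w hw => ?_⟩
  · have h4 := (A a).kill p (kz_p _ _ _ _ _) 0
    rw [h3, Fin.val_zero, Nat.sub_zero, pow_one, Polynomial.dvd_iff_isRoot] at h4
    simpa [Polynomial.eval_finsetSum, dotProduct] using h4
  · obtain ⟨f, hf, r, e, hr⟩ := (A a).ex
    have h4 := ht f hf
    rw [← grL_eval, ← ln_deriv, e, h3] at h4
    exact hr (by simpa using h4)
  · by_contra h
    push Not at h
    have hi : Function.Injective (fun o : Option (Fin d) => o.elim w u) := by
      rintro (_ | a) (_ | b) e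
      · rfl
      · exact absurd e (h b)
      · exact absurd e.symm (h a)
      · exact congrArg some (hinj e)
    let B : ∀ o : Option (Fin d), GPt Z p q (o.elim w u) := fun o =>
      (gpt_ex hp (gp_x0 hq _) (by cases o; exacts [hw, hon _])).some
    have h4 := (gp1 hp _ hi B v hv (fun a t => hK _ _ t (B a).al)).2
    have h5 : ∑ _a : Option (Fin d), 1 ≤ ∑ a, (B a).m := Finset.sum_le_sum fun a _ => (B a).pos
    simp only [Finset.sum_const, Finset.card_univ, Fintype.card_option, Fintype.card_fin,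
      smul_eq_mul, mul_one] at h4 h5
    omega

theorem gp_li3 (hq : LinearIndependent F ![p, q]) {v : Fin n → F}
    (hv : v ∉ Submodule.span F {p, q}) : LinearIndependent F ![v, p, q] := by
  refine linearIndependent_finCons.2 ⟨hq, ?_⟩
  simpa [Set.pair_comm] using hv

theorem kz_of {I : Ideal (MvPolynomial (Fin n) k)} {g g1 : Polynomial F} (hg : Al I p q g) {z : F}
    {m : ℕ} (e : g = (Polynomial.X - Polynomial.C z) ^ m * g1) (h1 : g1.eval z ≠ 0)
    {v : Fin n → F} {ρ : Polynomial F} (hρ : (Polynomial.X - Polynomial.C z) ^ (m - 1) ∣ ρ)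
    (h : ∀ f ∈ I, ∀ r, aeval (ln p q) f = g * r → g ∣ grL f p q v - r * ρ) : Kz I p q z m v := by
  have hc : IsCoprime ((Polynomial.X - Polynomial.C z) ^ m) g1 :=
    ((Polynomial.irreducible_X_sub_C z).coprime_iff_not_dvd.2
      fun hd => h1 (Polynomial.dvd_iff_isRoot.1 hd)).pow_left
  obtain ⟨a, b, hab⟩ := hc
  refine ⟨b * ρ, hρ.mul_left _, fun f hf r' hr' => ?_⟩
  obtain ⟨r, hr⟩ := hg f hf
  have h2 : r' = g1 * r := by
    rw [hr, e, mul_assoc] at hr'
    exact (mul_left_cancel₀ (pow_ne_zero _ (Polynomial.X_sub_C_ne_zero z)) hr').symm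
  have h3 := dvd_add ((Dvd.intro _ e.symm).trans (h f hf r hr))
    (dvd_mul_right ((Polynomial.X - Polynomial.C z) ^ m) (a * r * ρ))
  convert h3 using 1
  rw [h2]
  linear_combination (-(r * ρ)) * hab

end gen

variable {Z : Cone ℂ 6} {F : Type} [Field F] [IsAlgClosed F] [Algebra ℂ F] {p q : Fin 6 → F}

theorem gpa (hp : ∀ v, ∃ D : Derivation ℂ F F, dv D p = v) (hq : LinearIndependent F ![p, q])
    {g : Polynomial F} (hm : g.Monic) (hd : g.natDegree = 3) (hg : Al Z.I p q g) {z : F}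
    (hz : (Polynomial.X - Polynomial.C z) ^ 2 ∣ g) :
    (∃ z3, z3 ≠ z ∧ g = (Polynomial.X - Polynomial.C z) ^ 2 * (Polynomial.X - Polynomial.C z3)) ∧
    (∀ w, g.IsRoot w → ∃ f ∈ Z.I, ∃ r, MvPolynomial.aeval (ln p q) f = g * r ∧ r.eval w ≠ 0) ∧
    ∀ (v : Fin 6 → F) (ρ : Polynomial F), ρ.eval z = 0 →
      (∀ f ∈ Z.I, ∀ r, MvPolynomial.aeval (ln p q) f = g * r → g ∣ grL f p q v - r * ρ) →
      v ∈ Submodule.span F {p, q} := by
  obtain ⟨r, e⟩ := hz
  have hm2 := (Polynomial.monic_X_sub_C z).pow (n := 2)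
  have hr : r.Monic := hm2.of_mul_monic_left (e ▸ hm)
  have hd1 : r.natDegree = 1 := by
    rw [e, hm2.natDegree_mul hr, Polynomial.natDegree_pow, Polynomial.natDegree_X_sub_C] at hd
    omega
  obtain ⟨u, hu⟩ := gp_split hr hd1
  rw [Fin.prod_univ_one] at hu
  generalize u 0 = z3 at hu
  subst hu
  have hK : ∀ w m (t : Fin 2), Al Z.I p q ((Polynomial.X - Polynomial.C w) ^ m) →
      Kz Z.I p q w m (![p, q] t) := fun w m t h => by
    fin_cases t
    exacts [kz_p _ _ _ _ _, kz_q Z _ _ _ _ h]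
  have o1 : On Z.I (z • p + q) := al_on hg (by simp [e])
  have o3 : On Z.I (z3 • p + q) := al_on hg (by simp [e])
  obtain ⟨A1⟩ := gpt_ex hp (gp_x0 hq _) o1
  obtain ⟨A3⟩ := gpt_ex hp (gp_x0 hq _) o3
  have hne : z3 ≠ z := by
    rintro rfl
    have h1 := (gp1 hp (fun _ : Unit => z3) (fun _ _ _ => rfl) (fun _ => A1) _ hq
      (fun a t => hK _ _ t A1.al)).2
    have h2 : 3 ≤ A1.m := A1.le hg (by rw [e, ← pow_succ])
    simp at h1
    omega
  have hi : Function.Injective (fun b : Bool => cond b z z3) := by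
    rintro (_ | _) (_ | _) h
    exacts [rfl, absurd h hne, absurd h.symm hne, rfl]
  let A : ∀ b : Bool, GPt Z p q (cond b z z3) := fun b => Bool.rec A3 A1 b
  have h1 : 2 * (A1.m + A3.m) + 2 ≤ 6 + 2 := by
    simpa [A] using (gp1 hp _ hi A _ hq (fun a t => hK _ _ t (A a).al)).2
  have h2 : 2 ≤ A1.m := A1.le hg ⟨_, e⟩
  have h3 := A3.pos
  have m1 : A1.m = 2 := by omega
  have m3 : A3.m = 1 := by omega
  have e3 : g = (Polynomial.X - Polynomial.C z3) ^ 1 * (Polynomial.X - Polynomial.C z) ^ 2 := by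
    rw [e]; ring
  refine ⟨⟨z3, hne, e⟩, fun w hw => ?_, fun v ρ hρ h => ?_⟩
  · have hw' : w = z ∨ w = z3 := by simpa [e, sub_eq_zero] using hw
    rcases hw' with rfl | rfl
    · obtain ⟨f, hf, r1, a1, a2⟩ := A1.ex
      obtain ⟨r, hr⟩ := hg f hf
      refine ⟨f, hf, r, hr, fun h0 => a2 ?_⟩
      rw [hr, m1, e, mul_assoc] at a1
      rw [← mul_left_cancel₀ (pow_ne_zero _ (Polynomial.X_sub_C_ne_zero w)) a1]
      simp [h0]
    · obtain ⟨f, hf, r1, a1, a2⟩ := A3.ex
      obtain ⟨r, hr⟩ := hg f hf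
      refine ⟨f, hf, r, hr, fun h0 => a2 ?_⟩
      rw [hr, m3, e3, mul_assoc] at a1
      rw [← mul_left_cancel₀ (pow_ne_zero _ (Polynomial.X_sub_C_ne_zero w)) a1]
      simp [h0]
  · by_contra hv
    have h4 := (gp1 hp _ hi A _ (gp_li3 hq hv) (fun a t => by
      fin_cases t
      · cases a
        · show Kz Z.I p q z3 A3.m v
          rw [m3]
          exact kz_of hg e3 (by simpa [sub_eq_zero] using hne) (by simp) h
        · show Kz Z.I p q z A1.m v
          rw [m1]
          exact kz_of hg e (by simpa [sub_eq_zero] using hne.symm)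
            (by simpa using Polynomial.dvd_iff_isRoot.2 hρ) h
      · exact hK _ _ 0 (A a).al
      · exact hK _ _ 1 (A a).al)).2
    have h5 : 2 * (A1.m + A3.m) + 3 ≤ 6 + 2 := by simpa [A] using h4
    omega

theorem gpb (hp : ∀ v, ∃ D : Derivation ℂ F F, dv D p = v) (hq : LinearIndependent F ![p, q])
    {g : Polynomial F} (hm : g.Monic) (hd : g.natDegree = 3) (hg : Al Z.I p q g) {D : Derivation ℂ F F}
    (h0 : dv D p = 0) (h1 : dv D q ∉ Submodule.span F {p, q}) :
    ∃ (u : Fin 3 → F) (h : Fin 3 → Fin 6 → F), Function.Injective u ∧ g = ∏ i, (Polynomial.X - Polynomial.C (u i)) ∧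
      (∀ i, h i ∈ Nm Z.I (u i • p + q)) ∧ (∀ i, h i ⬝ᵥ p = 0) ∧ LinearIndependent F h ∧
      (∀ i, ¬ Tg Z.I (u i • p + q) p) ∧ ∀ w, On Z.I (w • p + q) → ∃ i, w = u i :=
  gp2 hp hq hm hd hg _ (gp_li3 hq h1) (fun w m t h => by
    fin_cases t
    exacts [kz_D _ _ _ _ _ D h0, kz_p _ _ _ _ _, kz_q Z _ _ _ _ h]) (by simp)

theorem gpc (hp : ∀ v, ∃ D : Derivation ℂ F F, dv D p = v) (hq : LinearIndependent F ![p, q])
    {g : Polynomial F} (hm : g.Monic) (hd : g.natDegree = 4) (hg : Al Z.I p q g) :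
    ∃ (u : Fin 4 → F) (h : Fin 4 → Fin 6 → F), Function.Injective u ∧ g = ∏ i, (Polynomial.X - Polynomial.C (u i)) ∧
      (∀ i, h i ∈ Nm Z.I (u i • p + q)) ∧ (∀ i, h i ⬝ᵥ p = 0) ∧ LinearIndependent F h ∧
      ∀ i, ¬ Tg Z.I (u i • p + q) p := by
  obtain ⟨u, h, a1, a2, a3, a4, a5, a6, -⟩ := gp2 hp hq hm hd hg _ hq (fun w m t h => by
    fin_cases t
    exacts [kz_p _ _ _ _ _, kz_q Z _ _ _ _ h]) (by simp)
  exact ⟨u, h, a1, a2, a3, a4, a5, a6⟩

theorem gpd (hp : ∀ v, ∃ D : Derivation ℂ F F, dv D p = v) {D1 D2 : Derivation ℂ F F}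
    (h1 : dv D1 p = 0) (h2 : dv D2 p = 0)
    (hq : LinearIndependent F ![p, q, dv D1 q, dv D2 q]) (z : F) :
    ¬ Al Z.I p q ((Polynomial.X - Polynomial.C z) ^ 2) := by
  intro hg
  have hq2 : LinearIndependent F ![p, q] := by
    have := hq.comp (Fin.castLE (by norm_num : 2 ≤ 4)) (Fin.castLE_injective _)
    convert this using 1
    funext i
    fin_cases i <;> rfl
  obtain ⟨A⟩ := gpt_ex hp (gp_x0 hq2 _) (al_on hg (z := z) (by simp))
  have h3 := (gp1 hp (fun _ : Unit => z) (fun _ _ _ => rfl) (fun _ => A) _ hq (fun a t => by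
    fin_cases t
    exacts [kz_p _ _ _ _ _, kz_q Z _ _ _ _ A.al, kz_D _ _ _ _ _ D1 h1, kz_D _ _ _ _ _ D2 h2])).2
  have h4 : 2 ≤ A.m := A.le hg dvd_rfl
  simp at h3
  omega

end PV
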