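import Pool.Agent.Lib.MP_36fb43_ag.ConI
import Pool.Agent.Lib.MP_36fb43_ag.GP

set_option linter.unusedSectionVars false

open MvPolynomial Matrix Module

namespace PV

variable {Z : Cone ℂ 6} {Ω : Type} [Field Ω] [IsAlgClosed Ω] [Algebra ℂ Ω]

variable {K : Type} [Field K] [IsAlgClosed K] [Algebra ℂ K] [Algebra K Ω] [IsScalarTower ℂ K Ω]

theorem cn_two {F : Type} [Field F] {μ : Fin 3 → Fin 6 → F} (h : LinearIndependent F μ)
    {a b : Fin 6 → F} (hm : ∀ i, μ i ∈ Submodule.span F {a, b}) : False := by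
  classical
  have h1 := Submodule.finrank_mono (Submodule.span_le.2 (Set.range_subset_iff.2 hm))
  have h2 := finrank_span_le_card (R := F) ({a, b} : Set (Fin 6 → F))
  have h3 := Finset.card_le_two (a := a) (b := b)
  rw [finrank_span_eq_card h, Fintype.card_fin] at h1
  rw [Set.toFinset_insert, Set.toFinset_singleton] at h2
  omega

theorem cn_line {F V : Type} [Field F] [AddCommGroup V] [Module F V] (V0 : Submodule F V)
    {w : V} (a n b : V) (hw : w ∉ V0) :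
    ∃ v0, ∀ α γ : F, α • w + γ • a ∈ V0 → α • n + γ • b ∈ Submodule.span F {v0} := by
  have k : ∀ δ : F, δ • w ∈ V0 → δ = 0 := fun δ h =>
    by_contra fun n => hw ((V0.smul_mem_iff n).1 h)
  by_cases h : ∃ α γ : F, γ ≠ 0 ∧ α • w + γ • a ∈ V0
  · obtain ⟨α0, γ0, h0, h1⟩ := h
    refine ⟨α0 • n + γ0 • b, fun α γ h2 => Submodule.mem_span_singleton.2 ⟨γ / γ0, ?_⟩⟩
    have := k (γ0 * α - γ * α0) (by
      convert V0.sub_mem (V0.smul_mem γ0 h2) (V0.smul_mem γ h1) using 1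
      module)
    rw [smul_add, smul_smul, smul_smul, div_mul_cancel₀ _ h0]
    congr 2
    field_simp
    linear_combination -this
  · push Not at h
    refine ⟨0, fun α γ h2 => ?_⟩
    obtain rfl : γ = 0 := by_contra fun n => h α γ n h2
    rw [k α (by simpa using h2)]
    simp

theorem ConEnd.cn_grΨ {T : Tri Z Ω} (E : ConEnd T K) {F : Type} [Field F] [Algebra K F]
    {z : Fin 6 → F} (hn' : aeval z (lin (dv E.D E.n)) = 0)
    (hn'' : aeval z (lin (dv E.D' E.n)) = 0) (hr : aeval z (cD E.D' (qf E.Q)) = 0) :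
    aeval z E.Ψ = 0 ∧ gr E.Ψ z = 0 := by
  simp [ConEnd.Ψ, cn_gr_sub, cn_gr_mul, pow_two, hn', hn'', hr]

theorem con_A {T : Tri Z Ω} (E : ConEnd T K) (hθ : ∀ i, T.h i ⬝ᵥ T.e 2 ≠ 0) {z : Fin 6 → Ω}
    (h0 : z ≠ 0) (hn : aeval z (lin E.n) = 0) (hn' : aeval z (lin (dv E.D E.n)) = 0)
    (hn'' : aeval z (lin (dv E.D' E.n)) = 0) (hq : aeval z (qf E.Q) = 0)
    (hr : aeval z (cD E.D' (qf E.Q)) = 0) :
    T.p ⬝ᵥ (E.Q.map (algebraMap K Ω)) *ᵥ z ≠ 0 := fun hp => by
  obtain ⟨Ψz, gΨ⟩ := E.cn_grΨ hn' hn'' hr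
  have Ψp : aeval T.p E.Ψ ≠ 0 := E.ψp
  have li : LinearIndependent Ω ![T.p, z] :=
    (LinearIndependent.pair_iff' (show T.p ≠ 0 from E.liLa.ne_zero 0)).2 fun a e => by
      rw [← e, cn_smul E.cn_Ψ, mul_eq_zero, or_iff_left Ψp, pow_eq_zero_iff three_ne_zero] at Ψz
      exact h0 (by rw [← e, Ψz, zero_smul])
  have qp := (E.La _).1 (E.cn_mem 0)
  change _ ⬝ᵥ T.p = 0 ∧ _ ⬝ᵥ _ *ᵥ T.p = 0 at qp
  have xd : ∀ F : MvPolynomial (Fin 6) K, aeval z F = 0 → Polynomial.X ∣ aeval (ln T.p z) F :=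
    fun F h => by rw [Polynomial.X_dvd_iff, Polynomial.coeff_zero_eq_eval_zero, cn_ev, zero_smul,
      zero_add, h]
  obtain ⟨R, hR⟩ : Polynomial.X ^ 2 ∣ aeval (ln T.p z) E.Ψ := by
    rw [ConEnd.Ψ, map_sub, map_mul, map_mul, map_pow]
    exact dvd_sub ((pow_dvd_pow_of_dvd (xd _ hn'') 2).mul_left _)
      (pow_two (Polynomial.X : Polynomial Ω) ▸ mul_dvd_mul (xd _ hn') (xd _ hr))
  obtain ⟨a, b, rfl⟩ : ∃ a b, R = Polynomial.C a * Polynomial.X + Polynomial.C b := by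
    refine Polynomial.exists_eq_X_add_C_of_natDegree_le_one ?_
    have := cn_deg T.p z E.cn_Ψ
    rcases eq_or_ne R 0 with rfl | R0
    · simp
    rw [hR, Polynomial.natDegree_X_pow_mul _ R0] at this
    omega
  have ha : a = aeval T.p E.Ψ := by
    have : Polynomial.X * aeval (ln z T.p) E.Ψ =
        Polynomial.X * (Polynomial.C a + Polynomial.C b * Polynomial.X) :=
      Polynomial.funext fun t => by
        rcases eq_or_ne t 0 with rfl | ht
        · simp
        have := congrArg (Polynomial.eval t⁻¹) hR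
        rw [cn_ev] at this
        rw [Polynomial.eval_mul, cn_ev, show t • z + T.p = t • (t⁻¹ • T.p + z) by
          rw [smul_add, smul_inv_smul₀ ht, add_comm], cn_smul E.cn_Ψ, this]
        simp only [Polynomial.eval_mul, Polynomial.eval_add, Polynomial.eval_pow, Polynomial.eval_X,
          Polynomial.eval_C]
        field_simp
    have := congrArg (Polynomial.eval 0) (mul_left_cancel₀ Polynomial.X_ne_zero this)
    rw [cn_ev, zero_smul, zero_add] at this
    simp [this]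
  have a0 : a ≠ 0 := ha ▸ Ψp
  set g : Polynomial Ω := (Polynomial.X - Polynomial.C 0) ^ 2 *
    (Polynomial.X - Polynomial.C (-b / a)) with hg
  have gm : g.Monic := ((Polynomial.monic_X_sub_C _).pow 2).mul (Polynomial.monic_X_sub_C _)
  have gd : g.natDegree = 3 := by
    rw [hg, ((Polynomial.monic_X_sub_C _).pow 2).natDegree_mul (Polynomial.monic_X_sub_C _),
      Polynomial.natDegree_pow, Polynomial.natDegree_X_sub_C, Polynomial.natDegree_X_sub_C]
  have eΨ : aeval (ln T.p z) E.Ψ = Polynomial.C a * g := by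
    have : Polynomial.C a * Polynomial.C (-b / a) = -Polynomial.C b := by
      rw [← map_mul, mul_div_cancel₀ _ a0, map_neg]
    rw [hR, hg, map_zero]
    linear_combination Polynomial.X ^ 2 * this
  rw [cn_lin] at hn
  rw [cn_qf] at hq
  obtain ⟨y, y0, yn, yq, y1, y2⟩ := con_iso E z ((-b / a) • T.p + z) h0
    (fun e => one_ne_zero (LinearIndependent.pair_iff.1 li (-b / a) 1 (by rwa [one_smul])).2) hn
    (by simp [hn, qp.1])
  have cop : ∀ M : ℕ, IsCoprime g (aeval (ln T.p z) (lin (E.Q *ᵥ y)) ^ M) := fun M => by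
    have k : ∀ w, (algebraMap K Ω ∘ (E.Q *ᵥ y)) ⬝ᵥ (w • T.p + z) ≠ 0 →
        IsCoprime (Polynomial.X - Polynomial.C w) (aeval (ln T.p z) (lin (E.Q *ᵥ y))) :=
      fun w hw => (Polynomial.irreducible_X_sub_C w).coprime_iff_not_dvd.2 fun h => hw (by
        have := Polynomial.dvd_iff_isRoot.1 h
        rwa [Polynomial.IsRoot, cn_ev, cn_lin] at this)
    exact ((k 0 (by simpa using y1)).pow_left.mul_left (k _ y2)).pow_right
  have en : aeval (ln T.p z) (lin E.n) = 0 := Polynomial.funext fun t => by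
    rw [cn_ev]
    simp [cn_lin, hn, qp.1]
  have eq : aeval (ln T.p z) (qf E.Q) = 0 := Polynomial.funext fun t => by
    rw [cn_ev]
    simp [cn_qf, mulVec_add, mulVec_smul, hq, hp, qp.2, cn_symm E.Qs z T.p]
  have idt : ∀ f ∈ Z.I, ∃ (M : ℕ) (α β γ : MvPolynomial (Fin 6) K),
      α * lin E.n + β * qf E.Q + γ * E.Ψ =
        lin (E.Q *ᵥ y) ^ M * MvPolynomial.map (algebraMap ℂ K) f ∧
      aeval (ln T.p z) γ * (Polynomial.C a * g) =
        aeval (ln T.p z) (lin (E.Q *ᵥ y)) ^ M * aeval (ln T.p z) f := fun f hf => by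
    obtain ⟨M, hM⟩ := con_id E hθ y0 yn yq hf
    obtain ⟨α, β, γ, e⟩ := Submodule.mem_span_triple.1 hM
    refine ⟨M, α, β, γ, e, ?_⟩
    have := congrArg (aeval (ln T.p z)) e
    simpa only [smul_eq_mul, map_add, map_mul, map_pow, en, eq, eΨ, mul_zero, zero_add,
      aeval_map_algebraMap] using this
  have al : Al Z.I T.p z g := fun f hf => by
    obtain ⟨M, α, β, γ, -, e⟩ := idt f hf
    exact (cop M).dvd_of_dvd_mul_left (e ▸ (dvd_mul_left _ _).mul_left _)
  obtain ⟨μ, hμ, hk⟩ := cn_ker3 (algebraMap K Ω ∘ E.n) (E.Q.map (algebraMap K Ω) *ᵥ T.p)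
    (E.Q.map (algebraMap K Ω) *ᵥ z)
  refine cn_two hμ fun i => (gpa T.exp li gm gd al (dvd_mul_right _ _)).2.2 (μ i)
    (Polynomial.C a⁻¹ * grL E.Ψ T.p z (μ i)) (by simp [cn_grL_ev, gΨ]) fun f hf r hr => ?_
  obtain ⟨M, α, β, γ, e1, e2⟩ := idt f hf
  have g1 : grL (lin E.n) T.p z (μ i) = 0 := Polynomial.funext fun t => by
    simp [cn_grL_ev, cn_gr_lin, (hk i).1]
  have g2 : grL (qf E.Q) T.p z (μ i) = 0 := Polynomial.funext fun t => by
    simp [cn_grL_ev, cn_gr_qf E.Qs, mulVec_add, mulVec_smul, (hk i).2.1, (hk i).2.2]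
  have g3 : grL (MvPolynomial.map (algebraMap ℂ K) f) T.p z (μ i) = grL f T.p z (μ i) := by
    simp only [grL, pderiv_map, aeval_map_algebraMap]
  have e3 := congrArg (fun F => grL F T.p z (μ i)) e1
  simp only [cn_grL_add, cn_grL_mul, en, eq, eΨ, g1, g2, g3, mul_zero, zero_mul, zero_add,
    aeval_map_algebraMap, map_pow, hr] at e3
  have e4 : aeval (ln T.p z) γ * Polynomial.C a = aeval (ln T.p z) (lin (E.Q *ᵥ y)) ^ M * r :=
    mul_left_cancel₀ gm.ne_zero (by rw [hr] at e2; linear_combination e2)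
  have e5 : Polynomial.C a * Polynomial.C a⁻¹ = 1 := by rw [← map_mul, mul_inv_cancel₀ a0, map_one]
  refine (cop M).dvd_of_dvd_mul_left ⟨Polynomial.C a * grL γ T.p z (μ i) -
    r * grL (lin (E.Q *ᵥ y) ^ M) T.p z (μ i), ?_⟩
  linear_combination -e3 + Polynomial.C a⁻¹ * grL E.Ψ T.p z (μ i) * e4 -
    aeval (ln T.p z) γ * grL E.Ψ T.p z (μ i) * e5

theorem con_false {T : Tri Z Ω} (E : ConEnd T K) (hθ : ∀ i, T.h i ⬝ᵥ T.e 2 ≠ 0) : False := by
  have : CharZero K := cz K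
  obtain ⟨μ, hμ, hk⟩ := cn_ker3 E.n (dv E.D E.n) (dv E.D' E.n)
  have pv : ∀ (R : Type) [CommRing R] [Algebra K R] (t : Fin 3 → R) (F : MvPolynomial (Fin 6) K),
      aeval t (aeval (pl μ) F) = aeval (∑ a, t a • (algebraMap K R ∘ μ a)) F :=
    fun R _ _ t F => by rw [comp_aeval_apply, cn_pl]
  have pl0 : ∀ c : Fin 6 → K, (∀ a, c ⬝ᵥ μ a = 0) → aeval (pl μ) (lin c) = 0 := fun c hc =>
    MvPolynomial.funext fun t => by
      rw [← coe_aeval_eq_eval, RingHom.coe_coe, pv, cn_lin]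
      simp [dotProduct_sum, hc]
  have p0 := pl0 _ fun a => (hk a).1
  have p1 := pl0 _ fun a => (hk a).2.1
  have p2 := pl0 _ fun a => (hk a).2.2
  have qh := (cn_qf_hom E.Q).aeval _ (cn_pl_hom μ)
  have rh := (cn_cD_hom E.D' (cn_qf_hom E.Q)).aeval _ (cn_pl_hom μ)
  have q0 : aeval (pl μ) (qf E.Q) ≠ 0 := fun e => by
    obtain ⟨t, ht⟩ := E.cn_noiso hμ fun a => (hk a).1
    have := pv K t (qf E.Q)
    rw [e, map_zero, cn_qf] at this
    exact ht (by simpa using this.symm)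
  obtain ⟨Y, Y0, Yq, Yr⟩ := forms_zero _ _ le_rfl qh rh (by norm_num) (by norm_num)
  rw [← coe_aeval_eq_eval, RingHom.coe_coe] at Yq Yr
  obtain ⟨φ, hφ, ⟨φ', hφ'⟩, φ0⟩ := cn_fac (aeval Y : _ →ₐ[K] K).toRingHom q0 Yq
  change aeval Y φ = 0 at φ0
  have φh := (homfac (hφ' ▸ qh) (hφ' ▸ q0)).1
  have φd : 1 ≤ φ.totalDegree := Nat.pos_of_ne_zero fun e => hφ.ne_zero (by
    rw [totalDegree_eq_zero_iff_eq_C.1 e] at φ0 ⊢
    rw [aeval_C] at φ0
    rw [show coeff 0 φ = 0 from φ0, C_0])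
  have nd : ¬ φ ∣ aeval (pl μ) (cD E.D' (qf E.Q)) := by
    rintro ⟨φ2, h2⟩
    obtain ⟨W, W0, W1, W2⟩ := forms_zero (MvPolynomial.map (algebraMap K Ω) φ)
      (lin fun a => T.p ⬝ᵥ E.Q.map (algebraMap K Ω) *ᵥ (algebraMap K Ω ∘ μ a)) le_rfl (φh.map _)
      (cn_lin_hom _) φd le_rfl
    rw [eval_map, ← aeval_def] at W1
    have li : LinearIndependent Ω fun a => algebraMap K Ω ∘ μ a :=
      (linearIndependent_algebraMap_comp_iff (R := K) (S := Ω) (v := μ)).2 hμ
    refine con_A E hθ (z := ∑ a, W a • (algebraMap K Ω ∘ μ a))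
      (fun e => W0 (funext (Fintype.linearIndependent_iff.1 li W e)))
      (by rw [← pv Ω W, p0, map_zero]) (by rw [← pv Ω W, p1, map_zero])
      (by rw [← pv Ω W, p2, map_zero]) (by rw [← pv Ω W, hφ', map_mul (aeval W), W1, zero_mul])
      (by rw [← pv Ω W, h2, map_mul (aeval W), W1, zero_mul]) ?_
    rw [← W2]
    simp [lin, mulVec_sum, mulVec_smul, dotProduct_sum, mul_comm]
  have pz : ∀ F, aeval Y (aeval (pl μ) F) = aeval (∑ a, Y a • μ a) F := fun F => pv K Y F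
  set z := ∑ a, Y a • μ a with hz
  have z0 : z ≠ 0 := fun e => Y0 (funext (Fintype.linearIndependent_iff.1 hμ Y e))
  have zn : aeval z (lin E.n) = 0 := by rw [← pz, p0, map_zero]
  have zn' : aeval z (lin (dv E.D E.n)) = 0 := by rw [← pz, p1, map_zero]
  have zn'' : aeval z (lin (dv E.D' E.n)) = 0 := by rw [← pz, p2, map_zero]
  rw [pz] at Yq Yr
  obtain ⟨Ψz, gΨ⟩ := E.cn_grΨ zn' zn'' Yr
  have z1 : algebraMap K Ω ∘ z ≠ 0 := fun e => z0 (funext fun i =>
    (map_eq_zero _).1 (congrFun e i))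
  have z2 : (algebraMap K Ω ∘ E.n) ⬝ᵥ (algebraMap K Ω ∘ z) = 0 := by
    rw [cn_lin] at zn
    rw [cn_dot, show E.n ⬝ᵥ z = 0 by simpa using zn, map_zero]
  obtain ⟨y, y0, yn, yq, y1, -⟩ := con_iso E _ _ z1 z1 z2 z2
  have yz : aeval z (lin (E.Q *ᵥ y)) ≠ 0 := fun e => y1 (by
    rw [cn_lin] at e
    rw [cn_dot, show (E.Q *ᵥ y) ⬝ᵥ z = 0 by simpa using e, map_zero])
  have dΨ : ∀ D : Derivation ℂ K K, cD D E.Ψ = lin (dv E.D' E.n) * (cD D (lin E.l) *
      lin (dv E.D' E.n) + 2 * lin E.l * cD D (lin (dv E.D' E.n))) - (lin (dv D (dv E.D E.n)) *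
        cD E.D' (qf E.Q) + lin (dv E.D E.n) * cD D (cD E.D' (qf E.Q))) := fun D => by
    rw [ConEnd.Ψ, cn_cD_sub, pow_two, cD_mul, cD_mul, cD_mul, cn_cD_lin D (dv E.D E.n)]
    ring
  obtain ⟨D, hD, Dn, Dq⟩ : ∃ D : Derivation ℂ K K, dv D E.n ∉ Submodule.span K {E.n, E.Q *ᵥ z} ∧
      aeval z (lin (dv D E.n)) = 0 ∧ aeval z (cD D (qf E.Q)) = 0 := by
    by_contra hc
    push Not at hc
    refine cn_two E.li (a := E.n) (b := E.Q *ᵥ z) fun i => ?_
    fin_cases i
    · exact Submodule.subset_span (by simp)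
    · exact by_contra fun h => hc _ h zn' (by
        simp only [E.dQ, map_add, map_mul, zn, zn'', Yq, zero_mul, mul_zero, add_zero])
    · exact by_contra fun h => hc _ h zn'' Yr
  set κ := aeval z (lin (dv E.D' (dv E.D E.n))) with hκ
  obtain ⟨v0, hv⟩ := cn_line _ (κ • gr (cD D (qf E.Q)) z + gr (cD D E.Ψ) z) E.n
    ((κ * 2) • E.Q *ᵥ z) hD
  have key : ∀ f ∈ Z.I, aeval z f = 0 ∧ gr f z ∈ Submodule.span K {v0} := fun f hf => by
    obtain ⟨M, hM⟩ := con_id E hθ y0 yn yq hf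
    obtain ⟨α, β, γ, e⟩ := Submodule.mem_span_triple.1 hM
    simp only [smul_eq_mul] at e
    have f0 : aeval z f = 0 := by
      have := congrArg (aeval z) e
      simp only [map_add, map_mul, zn, Yq, Ψz, mul_zero, add_zero, map_pow,
        aeval_map_algebraMap] at this
      exact (mul_eq_zero.1 this.symm).resolve_left (pow_ne_zero _ yz)
    have J : ∀ D : Derivation ℂ K K, ∃ A B C', lin (E.Q *ᵥ y) * (α * lin (dv D E.n) +
        β * cD D (qf E.Q) + γ * cD D E.Ψ) = A * lin E.n + B * qf E.Q + C' * E.Ψ := fun D => by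
      have h1 := congrArg (cD D) e
      have h2 := cn_cD_pow D (lin (E.Q *ᵥ y)) M
      simp only [cn_cD_add, cD_mul, cn_cD_map, cn_cD_lin D E.n] at h1
      exact ⟨M * cD D (lin (E.Q *ᵥ y)) * α - lin (E.Q *ᵥ y) * cD D α,
        M * cD D (lin (E.Q *ᵥ y)) * β - lin (E.Q *ᵥ y) * cD D β,
        M * cD D (lin (E.Q *ᵥ y)) * γ - lin (E.Q *ᵥ y) * cD D γ, by
          linear_combination lin (E.Q *ᵥ y) * h1 + MvPolynomial.map (algebraMap ℂ K) f * h2 -
            M * cD D (lin (E.Q *ᵥ y)) * e⟩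
    have R3 : aeval z β = aeval z γ * κ := by
      obtain ⟨A, B, C', h⟩ := J E.D'
      have h1 := congrArg (aeval (pl μ)) h
      rw [dΨ] at h1
      simp only [ConEnd.Ψ, map_add, map_mul, map_sub, map_pow, p0, p1, p2, hφ'] at h1
      obtain ⟨u, hu⟩ := (hφ.prime.dvd_or_dvd (a := aeval (pl μ) (lin (E.Q *ᵥ y) *
        (β - γ * lin (dv E.D' (dv E.D E.n))))) (b := aeval (pl μ) (cD E.D' (qf E.Q)))
        ⟨aeval (pl μ) B * φ', by
          simp only [map_mul, map_sub]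
          linear_combination h1⟩).resolve_right nd
      have h2 := congrArg (aeval Y) hu
      rw [pz, map_mul (aeval Y), φ0, zero_mul, map_mul, map_sub, map_mul] at h2
      exact sub_eq_zero.1 ((mul_eq_zero.1 h2).resolve_left yz)
    have gq : gr (qf E.Q) z = (2 : K) • E.Q *ᵥ z := by simpa using cn_gr_qf E.Qs z
    have gl : ∀ c : Fin 6 → K, gr (lin c) z = c := fun c => by simpa using cn_gr_lin c z
    have DΨ : aeval z (cD D E.Ψ) = 0 := by
      simp only [dΨ, map_sub, map_add, map_mul, zn', zn'', Yr, zero_mul, mul_zero, add_zero, sub_zero]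
    refine ⟨f0, (Submodule.smul_mem_iff _ (pow_ne_zero M yz)).1 ?_⟩
    have g1 := congrArg (gr · z) e
    have g2 : gr (MvPolynomial.map (algebraMap ℂ K) f) z = gr f z := funext fun i => by
      simp only [gr, pderiv_map, aeval_map_algebraMap]
    simp only [cn_gr_add, cn_gr_mul, zn, Yq, Ψz, gΨ, gq, gl, zero_smul, add_zero, smul_zero,
      aeval_map_algebraMap, f0, g2, map_pow, R3] at g1
    rw [← g1, show (aeval z γ * κ) • (2 : K) • E.Q *ᵥ z = aeval z γ • (κ * 2) • E.Q *ᵥ z by module]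
    refine hv _ _ ((Submodule.smul_mem_iff _ yz).1 ?_)
    obtain ⟨A, B, C', h⟩ := J D
    have g3 := congrArg (gr · z) h
    simp only [cn_gr_add, cn_gr_mul, zn, Yq, Ψz, gΨ, gq, gl, zero_smul, add_zero, smul_zero,
      map_add, map_mul, Dn, Dq, DΨ, mul_zero, R3] at g3
    convert Submodule.mem_span_pair.2 ⟨aeval z A, aeval z B * 2, rfl⟩ using 1
    linear_combination (norm := module) g3
  have h1 := Z.rk K z z0 fun f hf => (key f hf).1
  have h2 := Submodule.finrank_mono (show Nm Z.I z ≤ Submodule.span K {v0} from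
    Submodule.span_le.2 (by rintro _ ⟨f, hf, rfl⟩; exact (key f hf).2))
  have h3 := finrank_span_le_card (R := K) ({v0} : Set (Fin 6 → K))
  rw [Set.toFinset_singleton, Finset.card_singleton] at h3
  omega

end PV
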