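import Pool.Agent.Lib.MP_36fb43_ag.TriB
import Pool.Agent.Lib.MP_36fb43_ag.ConA

set_option linter.unusedSectionVars false

open MvPolynomial Matrix Module

namespace PV

variable {Z : Cone ℂ 6} {Ω : Type} [Field Ω] [IsAlgClosed Ω] [Algebra ℂ Ω]

variable {K : Type} [Field K] [IsAlgClosed K] [Algebra ℂ K] [Algebra K Ω] [IsScalarTower ℂ K Ω]

section aux
variable {T : Tri Z Ω} (E : ConEnd T K)

theorem cn_dual (φ : Ω →ₗ[K] K) (a : Fin 6 → K) (y : Fin 6 → Ω) :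
    φ ((algebraMap K Ω ∘ a) ⬝ᵥ y) = a ⬝ᵥ (φ ∘ y) := by
  simp [dotProduct, ← Algebra.smul_def]

include E

theorem ConEnd.cn_n : E.n ≠ 0 := E.li.ne_zero 0

theorem ConEnd.cn_nd {y : Fin 6 → Ω} (hn : (algebraMap K Ω ∘ E.n) ⬝ᵥ y = 0)
    (h : ∀ w : Fin 6 → K, E.n ⬝ᵥ w = 0 → (algebraMap K Ω ∘ (E.Q *ᵥ w)) ⬝ᵥ y = 0) : y = 0 :=
  funext fun i => (Module.forall_dual_apply_eq_zero_iff K (y i)).1 fun φ =>
    congrFun (E.nd (φ ∘ y) (by rw [← cn_dual, hn, map_zero]) fun w hw => by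
      rw [dotProduct_comm, ← cn_dual, h w hw, map_zero]) i

theorem ConEnd.cn_noiso {μ : Fin 3 → Fin 6 → K} (hl : LinearIndependent K μ)
    (hn : ∀ a, E.n ⬝ᵥ μ a = 0) : ∃ t : Fin 3 → K, (∑ a, t a • μ a) ⬝ᵥ E.Q *ᵥ (∑ a, t a • μ a) ≠ 0 := by
  have : CharZero K := charZero_of_injective_algebraMap (algebraMap ℂ K).injective
  by_contra hc
  push Not at hc
  have h : ∀ a b, μ a ⬝ᵥ E.Q *ᵥ μ b = 0 := fun a b => by
    have h1 := hc (Pi.single a 1)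
    have h2 := hc (Pi.single b 1)
    have h3 := hc (Pi.single a 1 + Pi.single b 1)
    simp only [Pi.add_apply, add_smul, Finset.sum_add_distrib, Pi.single_apply, ite_smul, one_smul,
      zero_smul, Finset.sum_ite_eq', Finset.mem_univ, if_true, mulVec_add, add_dotProduct,
      dotProduct_add] at h1 h2 h3
    rw [bil_symm E.Qs (μ b) (μ a)] at h3
    linear_combination (h3 - h1 - h2) / 2
  have li : LinearIndependent K (Fin.cons E.n fun a => E.Q *ᵥ μ a : Fin 4 → Fin 6 → K) := by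
    refine Fintype.linearIndependent_iff.2 fun c hc => ?_
    rw [Fin.sum_univ_succ] at hc
    simp only [Fin.cons_zero, Fin.cons_succ, ← mulVec_smul, ← mulVec_sum] at hc
    have h1 := E.nd (∑ a : Fin 3, c a.succ • μ a) (by simp [dotProduct_sum, hn]) fun w hw => by
      rw [bil_symm E.Qs, eq_neg_of_add_eq_zero_right hc, dotProduct_neg, dotProduct_smul,
        dotProduct_comm, hw, smul_zero, neg_zero]
    rw [h1, mulVec_zero, add_zero] at hc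
    exact Fin.cases ((smul_eq_zero.1 hc).resolve_right E.cn_n)
      (Fintype.linearIndependent_iff.1 hl _ h1)
  have := cn_orth li hl (Fin.cases hn fun a b => by
    rw [Fin.cons_succ, dotProduct_comm, h])
  simp at this

theorem ConEnd.cn_mem (a : Fin 4) : ![T.p, T.e 0, T.e 1, T.e 2] a ∈ T.La :=
  Submodule.subset_span (by fin_cases a <;> simp)

theorem ConEnd.cn_x (u t : Ω) : (algebraMap K Ω ∘ E.n) ⬝ᵥ (u • T.p + t • T.q) = 0 ∧
    (u • T.p + t • T.q) ⬝ᵥ E.Q.map (algebraMap K Ω) *ᵥ (u • T.p + t • T.q) = 0 := by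
  have h1 := (E.La _).1 (E.cn_mem 0)
  have h2 := (E.La _).1 (E.cn_mem 1)
  change _ ⬝ᵥ T.p = 0 ∧ _ ⬝ᵥ _ *ᵥ T.p = 0 at h1
  change _ ⬝ᵥ T.q = 0 ∧ _ ⬝ᵥ _ *ᵥ T.q = 0 at h2
  refine ⟨by simp [h1.1, h2.1], ?_⟩
  simp [mulVec_add, mulVec_smul, h1.2, h2.2, E.qq, cn_symm E.Qs T.q T.p]

theorem ConEnd.cn_π (c : K) : T.Dπ (algebraMap K Ω c) = 0 :=
  E.kill _ (T.Dπp ▸ zero_mem _) c

theorem ConEnd.cn_trans (f : MvPolynomial (Fin 6) K) {i : Fin 3} (h : aeval (T.x i) f = 0)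
    (i' : Fin 3) : aeval (T.x i') f = 0 := by
  obtain ⟨g, h1, h2, h3⟩ := T.trans i i'
  let g' : Ω →ₐ[K] Ω := { (g : Ω →+* Ω) with commutes' := fun c => h1 _ (E.cn_π c) }
  have e : T.x i' = fun a => g' (T.x i a) := funext fun a => by
    change _ = g (T.u i * T.p a + T.q a)
    rw [map_add, map_mul, h3, h2, h1 _ (congrFun T.Dπp a)]
    rfl
  rw [e, ← comp_aeval_apply, h, map_zero]

theorem ConEnd.cn_D {D : Derivation ℂ Ω Ω} (hD : dv D T.p ∈ T.La) (a : Fin 6 → K)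
    (y : Fin 6 → Ω) : D ((algebraMap K Ω ∘ a) ⬝ᵥ y) = (algebraMap K Ω ∘ a) ⬝ᵥ dv D y := by
  rw [D_dot, show dv D (algebraMap K Ω ∘ a) = 0 from funext fun i => E.kill D hD _,
    zero_dotProduct, zero_add]

theorem ConEnd.cn_p {z : Fin 6 → K} (h0 : z ≠ 0) (hn : E.n ⬝ᵥ z = 0) :
    (algebraMap K Ω ∘ (E.Q *ᵥ z)) ⬝ᵥ T.p ≠ 0 := fun hp => by
  have hLa : ∀ v ∈ T.La, (algebraMap K Ω ∘ (E.Q *ᵥ z)) ⬝ᵥ v = 0 := fun v hv => by
    obtain ⟨D, rfl⟩ := T.exp v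
    rw [← E.cn_D hv, hp, map_zero]
  obtain ⟨w0, a1, a2⟩ : ∃ w, E.n ⬝ᵥ w = 0 ∧ z ⬝ᵥ E.Q *ᵥ w ≠ 0 := by
    by_contra hc
    push Not at hc
    exact h0 (E.nd z hn hc)
  have np : (algebraMap K Ω ∘ E.n) ⬝ᵥ T.p = 0 := ((E.La _).1 (E.cn_mem 0)).1
  set A := (algebraMap K Ω ∘ (E.Q *ᵥ w0)) ⬝ᵥ T.p with hA
  set B := algebraMap K Ω (z ⬝ᵥ E.Q *ᵥ w0) with hB
  have B0 : B ≠ 0 := (map_ne_zero _).2 a2
  have e := E.cn_nd (y := A • (algebraMap K Ω ∘ z) - B • T.p)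
    (by simp [cn_dot, hn, np]) fun w hw => by
      have := hLa (A • (algebraMap K Ω ∘ w) -
        ((algebraMap K Ω ∘ (E.Q *ᵥ w)) ⬝ᵥ T.p) • (algebraMap K Ω ∘ w0)) ((E.La _).2
        ⟨by simp [cn_dot, hw, a1], by
          rw [mulVec_sub, mulVec_smul, mulVec_smul, ← cn_mv, ← cn_mv, dotProduct_sub,
            dotProduct_smul, dotProduct_smul, dotProduct_comm T.p, dotProduct_comm T.p, ← hA]
          simp [mul_comm]⟩)
      rw [dotProduct_sub, dotProduct_smul, dotProduct_smul, cn_dot, cn_dot, dotProduct_comm _ w,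
        dotProduct_comm _ w0, bil_symm E.Qs w0, ← hB, bil_symm E.Qs w, dotProduct_comm z] at this
      rw [dotProduct_sub, dotProduct_smul, dotProduct_smul, cn_dot]
      simp only [smul_eq_mul] at this ⊢
      linear_combination this
  obtain ⟨D, hD⟩ := T.exp T.q
  have hq : dv D T.p ∈ T.La := hD ▸ E.cn_mem 1
  have e1 := congrArg (dv D) e
  rw [dv_sub, dv_smul, dv_smul, show dv D (algebraMap K Ω ∘ z) = 0 from
    funext fun i => E.kill D hq _, hB, E.kill D hq, ← hB, hD, dv_zero] at e1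
  have := Fintype.linearIndependent_iff.1 E.liLa ![D A * B, -(A * B), 0, 0] (by
    simp only [Fin.sum_univ_four, cons_val, zero_smul, add_zero]
    change _ • T.p + _ • T.q = 0
    linear_combination (norm := module) A • e1 - D A • e) 1
  have A0 : A = 0 := by simpa [B0] using this
  rw [A0, zero_smul, zero_sub, neg_eq_zero, smul_eq_zero] at e
  exact E.liLa.ne_zero 0 (e.resolve_left B0)

theorem ConEnd.cn_Ψ : E.Ψ.IsHomogeneous 3 :=
  ((cn_lin_hom _).mul ((cn_lin_hom _).pow 2)).sub ((cn_lin_hom _).mul (cn_cD_hom _ (cn_qf_hom _)))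

end aux

theorem con_iso {T : Tri Z Ω} (E : ConEnd T K) (z1 z2 : Fin 6 → Ω) (h1 : z1 ≠ 0) (h2 : z2 ≠ 0)
    (n1 : (algebraMap K Ω ∘ E.n) ⬝ᵥ z1 = 0) (n2 : (algebraMap K Ω ∘ E.n) ⬝ᵥ z2 = 0) :
    ∃ z : Fin 6 → K, z ≠ 0 ∧ E.n ⬝ᵥ z = 0 ∧ z ⬝ᵥ E.Q *ᵥ z = 0 ∧
      (algebraMap K Ω ∘ (E.Q *ᵥ z)) ⬝ᵥ z1 ≠ 0 ∧ (algebraMap K Ω ∘ (E.Q *ᵥ z)) ⬝ᵥ z2 ≠ 0 := by
  have key : ∀ y : Fin 6 → Ω, y ≠ 0 → (algebraMap K Ω ∘ E.n) ⬝ᵥ y = 0 → ∃ c a : Fin 6 → K,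
      E.n ⬝ᵥ a = 0 ∧ c ⬝ᵥ a ≠ 0 ∧ ∀ z, c ⬝ᵥ z ≠ 0 → (algebraMap K Ω ∘ (E.Q *ᵥ z)) ⬝ᵥ y ≠ 0 := by
    intro y hy hn
    obtain ⟨a, a1, a2⟩ : ∃ a, E.n ⬝ᵥ a = 0 ∧ (algebraMap K Ω ∘ (E.Q *ᵥ a)) ⬝ᵥ y ≠ 0 := by
      by_contra hc
      push Not at hc
      exact hy (E.cn_nd hn hc)
    obtain ⟨φ, hφ⟩ := not_forall.1 (mt (Module.forall_dual_apply_eq_zero_iff K _).1 a2)
    have e : ∀ z, (E.Q *ᵥ (φ ∘ y)) ⬝ᵥ z = φ ((algebraMap K Ω ∘ (E.Q *ᵥ z)) ⬝ᵥ y) := fun z => by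
      rw [cn_dual, dotProduct_comm, bil_symm E.Qs, dotProduct_comm]
    exact ⟨E.Q *ᵥ (φ ∘ y), a, a1, e a ▸ hφ, fun z hz h => hz (by rw [e, h, map_zero])⟩
  obtain ⟨c1, a1, b1, d1, e1⟩ := key z1 h1 n1
  obtain ⟨c2, a2, b2, d2, e2⟩ := key z2 h2 n2
  obtain ⟨a, b, d, d'⟩ : ∃ a, E.n ⬝ᵥ a = 0 ∧ c1 ⬝ᵥ a ≠ 0 ∧ c2 ⬝ᵥ a ≠ 0 := by
    by_cases x : c2 ⬝ᵥ a1 = 0
    · by_cases y : c1 ⬝ᵥ a2 = 0
      · exact ⟨a1 + a2, by simp [b1, b2], by simpa [y] using d1, by simpa [x] using d2⟩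
      · exact ⟨a2, b2, y, d2⟩
    · exact ⟨a1, b1, d1, x⟩
  obtain ⟨μ, hμ, hk⟩ := cn_ker3 E.n c1 c2
  obtain ⟨t, ht⟩ := E.cn_noiso hμ fun a => (hk a).1
  have k : ∀ c : Fin 6 → K, (∀ a, c ⬝ᵥ μ a = 0) → c ⬝ᵥ ∑ a, t a • μ a = 0 := fun c hc => by
    simp [dotProduct_sum, hc]
  have k0 := k _ fun a => (hk a).1
  have k1 := k _ fun a => (hk a).2.1
  have k2 := k _ fun a => (hk a).2.2
  set w := ∑ a, t a • μ a
  obtain ⟨s, hs⟩ := IsAlgClosed.exists_root (Polynomial.C (w ⬝ᵥ E.Q *ᵥ w) * Polynomial.X ^ 2 +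
    Polynomial.C (2 * (a ⬝ᵥ E.Q *ᵥ w)) * Polynomial.X + Polynomial.C (a ⬝ᵥ E.Q *ᵥ a))
    (by rw [Polynomial.degree_quadratic ht]; decide)
  have g1 : c1 ⬝ᵥ (a + s • w) ≠ 0 := by simpa [k1] using d
  refine ⟨a + s • w, fun h => g1 (by rw [h, dotProduct_zero]), by simp [b, k0], ?_, e1 _ g1,
    e2 _ (by simpa [k2] using d')⟩
  simp only [Polynomial.IsRoot, Polynomial.eval_add, Polynomial.eval_mul, Polynomial.eval_C,
    Polynomial.eval_pow, Polynomial.eval_X] at hs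
  simp only [mulVec_add, mulVec_smul, add_dotProduct, dotProduct_add, smul_dotProduct,
    dotProduct_smul, smul_eq_mul, bil_symm E.Qs w a]
  linear_combination hs

theorem cn_fac {A B : Type} [CommRing A] [IsDomain A] [WfDvdMonoid A] [CommRing B] [IsDomain B]
    (φ : A →+* B) {f : A} (h0 : f ≠ 0) (h : φ f = 0) : ∃ ψ, Irreducible ψ ∧ ψ ∣ f ∧ φ ψ = 0 := by
  induction f using WfDvdMonoid.induction_on_irreducible with
  | zero => exact absurd rfl h0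
  | unit u hu => exact absurd h (hu.map φ).ne_zero
  | mul a i ha hi ih =>
    rw [map_mul, mul_eq_zero] at h
    rcases h with h | h
    · exact ⟨i, hi, dvd_mul_right _ _, h⟩
    · obtain ⟨ψ, h1, h2, h3⟩ := ih ha h
      exact ⟨ψ, h1, h2.mul_left _, h3⟩

theorem cn_li3 {T : Tri Z Ω} (E : ConEnd T K) (hθ : ∀ i, T.h i ⬝ᵥ T.e 2 ≠ 0)
    {D : Derivation ℂ Ω Ω} (hD : dv D T.p = T.e 2) :
    LinearIndependent Ω ![T.x 0, dv T.Dπ (T.x 0), dv D (T.x 0)] := by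
  have hk : ∀ a : Fin 3, T.h 1 ⬝ᵥ ![T.p, T.e 0, T.e 1] a = 0 := fun a =>
    (T.ker _).2 (Submodule.subset_span (by fin_cases a <;> simp)) 1
  have h0 : T.h 1 ⬝ᵥ T.p = 0 := hk 0
  have h1 : T.h 1 ⬝ᵥ T.q = 0 := hk 1
  have h2 : T.h 1 ⬝ᵥ dv T.Dπ T.q = 0 := hk 2
  have h3 := (tg_dv (T.on 1) D fun c => D.map_algebraMap c).dot (T.hN 1)
  refine Fintype.linearIndependent_iff.2 fun c hc => ?_
  simp only [Fin.sum_univ_three, cons_val, Tri.x, dv_add, dv_smul, T.Dπp, hD, smul_zero,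
    add_zero] at hc h3
  have e := congrArg (T.h 1 ⬝ᵥ ·) hc
  simp only [dotProduct_add, dotProduct_smul, h0, h1, h2, smul_eq_mul, dotProduct_zero] at e h3
  have c2 : c 2 = 0 := by
    have : c 2 * ((T.u 0 - T.u 1) * (T.h 1 ⬝ᵥ T.e 2)) = 0 := by linear_combination e - c 2 * h3
    exact (mul_eq_zero.1 this).resolve_right
      (mul_ne_zero (sub_ne_zero.2 (T.uinj.ne (by decide))) (hθ 1))
  have := Fintype.linearIndependent_iff.1 E.liLa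
    ![c 0 * T.u 0 + c 1 * T.Dπ (T.u 0), c 0, c 1, 0] (by
      simp only [Fin.sum_univ_four, cons_val, zero_smul, add_zero]
      change _ • T.p + _ • T.q + _ • dv T.Dπ T.q = 0
      rw [c2] at hc
      linear_combination (norm := module) hc)
  intro i
  fin_cases i
  · exact this 1
  · exact this 2
  · exact c2

theorem con_id {T : Tri Z Ω} (E : ConEnd T K) (hθ : ∀ i, T.h i ⬝ᵥ T.e 2 ≠ 0) {z : Fin 6 → K}
    (h0 : z ≠ 0) (hn : E.n ⬝ᵥ z = 0) (hz : z ⬝ᵥ E.Q *ᵥ z = 0) {f} (hf : f ∈ Z.I) :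
    ∃ M : ℕ, lin (E.Q *ᵥ z) ^ M * MvPolynomial.map (algebraMap ℂ K) f ∈
      Ideal.span {lin E.n, qf E.Q, E.Ψ} := by
  have : CharZero K := charZero_of_injective_algebraMap (algebraMap ℂ K).injective
  have : CharZero Ω := charZero_of_injective_algebraMap (algebraMap ℂ Ω).injective
  obtain ⟨s, b, τ, dec⟩ := cn_dec E.cn_n h0 hn
  let lam : MvPolynomial (Fin 4) K := aeval (pl b) (lin (E.Q *ᵥ z))
  let G : Fin 6 → MvPolynomial (Fin 4) K := fun i =>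
    2 * lam * pl b i - aeval (pl b) (qf E.Q) * C (z i)
  have lamh : lam.IsHomogeneous 1 := (cn_lin_hom _).aeval _ (cn_pl_hom b)
  have Gh : ∀ i, (G i).IsHomogeneous 2 := fun i =>
    (((isHomogeneous_C _ (2 : K)).mul lamh).mul (cn_pl_hom b i)).sub
      (((cn_qf_hom _).aeval _ (cn_pl_hom b)).mul (isHomogeneous_C _ _))
  have kl : ∀ (R : Type) [CommRing R] [Algebra K R] (y : Fin 6 → R),
      (algebraMap K R ∘ E.n) ⬝ᵥ y = 0 → aeval (τ.map (algebraMap K R) *ᵥ y) lam =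
        (algebraMap K R ∘ (E.Q *ᵥ z)) ⬝ᵥ y := fun R _ _ y hy => by
    rw [comp_aeval_apply, cn_pl, dec R y hy, cn_lin, dotProduct_sub, dotProduct_smul, cn_dot,
      dotProduct_comm _ z, hz, map_zero, smul_zero, sub_zero]
  have kf : ∀ (R : Type) [CommRing R] [Algebra K R] (y : Fin 6 → R),
      (algebraMap K R ∘ E.n) ⬝ᵥ y = 0 → y ⬝ᵥ E.Q.map (algebraMap K R) *ᵥ y = 0 →
      ∀ (F : MvPolynomial (Fin 6) K) (d : ℕ), F.IsHomogeneous d →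
        aeval (τ.map (algebraMap K R) *ᵥ y) (aeval G F) =
          (2 * ((algebraMap K R ∘ (E.Q *ᵥ z)) ⬝ᵥ y)) ^ d * aeval y F := by
    intro R _ _ y hy hq F d hF
    rw [comp_aeval_apply, ← cn_smul hF]
    congr 2
    ext i
    have e2 := congrFun (cn_pl b (τ.map (algebraMap K R) *ᵥ y)) i
    have e3 : y ⬝ᵥ E.Q.map (algebraMap K R) *ᵥ (algebraMap K R ∘ z) =
      (algebraMap K R ∘ (E.Q *ᵥ z)) ⬝ᵥ y := by rw [← cn_mv, dotProduct_comm]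
    have e4 : (algebraMap K R ∘ z) ⬝ᵥ E.Q.map (algebraMap K R) *ᵥ (algebraMap K R ∘ z) = 0 := by
      rw [← cn_mv, cn_dot, hz, map_zero]
    simp only [G, map_sub, map_mul, kl R y hy, map_ofNat, aeval_C]
    rw [comp_aeval_apply, cn_pl, e2, dec R y hy, cn_qf]
    simp only [mulVec_sub, mulVec_smul, sub_dotProduct, smul_dotProduct, dotProduct_sub,
      dotProduct_smul, cn_symm E.Qs (algebraMap K R ∘ z) y, e3, e4, hq, smul_eq_mul, Pi.sub_apply,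
      Pi.smul_apply, Function.comp_apply]
    ring
  set c := algebraMap K Ω ∘ (E.Q *ᵥ z) with hc
  set τ' := τ.map (algebraMap K Ω) with hτ
  have hp : c ⬝ᵥ T.p ≠ 0 := E.cn_p h0 hn
  have hx : ∀ i, c ⬝ᵥ T.x i ≠ 0 := fun i h => by
    have h1 := E.cn_trans (lin (E.Q *ᵥ z)) (i := i) (by rwa [cn_lin]) 0
    have h2 := E.cn_trans (lin (E.Q *ᵥ z)) (i := i) (by rwa [cn_lin]) 1
    simp only [cn_lin, ← hc, Tri.x, dotProduct_add, dotProduct_smul, smul_eq_mul] at h1 h2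
    exact mul_ne_zero (sub_ne_zero.2 (T.uinj.ne (show (0 : Fin 3) ≠ 1 by decide))) hp
      (by linear_combination h1 - h2)
  have liτ : ∀ (m : ℕ) (w : Fin m → Fin 6 → Ω) (x : Fin 6 → Ω), LinearIndependent Ω w →
      c ⬝ᵥ x ≠ 0 → (∀ i, (algebraMap K Ω ∘ E.n) ⬝ᵥ w i = 0 ∧
        x ⬝ᵥ E.Q.map (algebraMap K Ω) *ᵥ w i = 0) → LinearIndependent Ω fun i => τ' *ᵥ w i := by
    intro m w x hw hx h
    refine Fintype.linearIndependent_iff.2 fun g hg => Fintype.linearIndependent_iff.1 hw g ?_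
    simp only [← mulVec_smul, ← mulVec_sum] at hg
    have e1 := dec Ω (∑ i, g i • w i) (by simp [dotProduct_sum, (h _).1])
    have e2 : x ⬝ᵥ E.Q.map (algebraMap K Ω) *ᵥ ∑ i, g i • w i = 0 := by
      simp [mulVec_sum, mulVec_smul, dotProduct_sum, (h _).2]
    rw [← hτ, hg] at e1
    simp only [Pi.zero_apply, zero_smul, Finset.sum_const_zero] at e1
    rw [sub_eq_zero.1 e1.symm, mulVec_smul, ← cn_mv, dotProduct_smul, dotProduct_comm x, ← hc] at e2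
    rw [sub_eq_zero.1 e1.symm, (mul_eq_zero.1 e2).resolve_right hx, zero_smul]
  let A : Set (Derivation ℂ Ω Ω) := {D | dv D T.p ∈ T.La}
  have dτ : ∀ D ∈ A, ∀ y, dv D (τ' *ᵥ y) = τ' *ᵥ dv D y := fun D hD y =>
    funext fun a => E.cn_D hD (τ a) y
  have πA : T.Dπ ∈ A := show dv T.Dπ T.p ∈ T.La from T.Dπp ▸ zero_mem _
  have qx : ∀ i, (algebraMap K Ω ∘ E.n) ⬝ᵥ T.x i = 0 ∧
      T.x i ⬝ᵥ E.Q.map (algebraMap K Ω) *ᵥ T.x i = 0 := fun i => by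
    simpa only [one_smul, Tri.x] using E.cn_x (T.u i) 1
  have qp := (E.La _).1 (E.cn_mem 0)
  change _ ⬝ᵥ T.p = 0 ∧ _ ⬝ᵥ _ *ᵥ T.p = 0 at qp
  have Ψp : aeval (τ' *ᵥ T.p) (aeval G E.Ψ) ≠ 0 := by
    rw [kf Ω _ qp.1 qp.2 _ _ E.cn_Ψ]
    exact mul_ne_zero (pow_ne_zero _ (mul_ne_zero two_ne_zero hp)) E.ψp
  have Ψ0 : aeval G E.Ψ ≠ 0 := fun e => Ψp (by rw [e, map_zero])
  obtain ⟨ψ, hψ, ⟨χ, hχ⟩, ψ0⟩ := cn_fac (aeval (τ' *ᵥ T.x 0) : _ →ₐ[K] Ω).toRingHom Ψ0 (by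
    change aeval _ _ = 0
    rw [kf Ω _ (qx 0).1 (qx 0).2 _ _ E.cn_Ψ]
    exact mul_eq_zero_of_right _ (E.ψx 0))
  change aeval _ ψ = 0 at ψ0
  obtain ⟨ψh, χh⟩ := homfac (hχ ▸ E.cn_Ψ.aeval G Gh) (hχ ▸ Ψ0)
  set e := χ.totalDegree
  have div : ∀ (F : MvPolynomial (Fin 6) K) (d : ℕ), F.IsHomogeneous d → aeval (T.x 0) F = 0 →
      ψ ∣ aeval G F := fun F d hF h => by
    refine ht1h (τ' *ᵥ T.x 0) A (fun D hD => E.kill D hD) ?_ hψ ψh ψ0 _ (hF.aeval G Gh)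
      (by rw [kf Ω _ (qx 0).1 (qx 0).2 _ _ hF, h, mul_zero])
    obtain ⟨D, hD⟩ := T.exp (T.e 2)
    have DA : D ∈ A := show dv D T.p ∈ T.La from hD ▸ E.cn_mem 3
    have k : ∀ D ∈ A, (algebraMap K Ω ∘ E.n) ⬝ᵥ dv D (T.x 0) = 0 ∧
        T.x 0 ⬝ᵥ E.Q.map (algebraMap K Ω) *ᵥ dv D (T.x 0) = 0 := fun D hD => by
      refine ⟨by rw [← E.cn_D hD, (qx 0).1, map_zero], ?_⟩
      have := D_bil D (E.Q.map (algebraMap K Ω)) (T.x 0) (T.x 0)
      rw [(qx 0).2, map_zero, cn_symm E.Qs (dv D _), show (E.Q.map (algebraMap K Ω)).map D = 0 from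
        Matrix.ext fun a b => E.kill D hD _, zero_mulVec, dotProduct_zero] at this
      linear_combination -this / 2
    have li := liτ 3 _ _ (cn_li3 E hθ hD) (hx 0) fun i => by
      fin_cases i
      exacts [qx 0, k _ πA, k _ DA]
    have := Submodule.finrank_mono (show Submodule.span Ω (Set.range fun i =>
        τ' *ᵥ ![T.x 0, dv T.Dπ (T.x 0), dv D (T.x 0)] i) ≤
        Submodule.span Ω {τ' *ᵥ T.x 0} ⊔ dsp A (τ' *ᵥ T.x 0) from Submodule.span_le.2 (by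
      rintro _ ⟨i, rfl⟩
      fin_cases i
      exacts [Submodule.mem_sup_left (Submodule.subset_span rfl),
        Submodule.mem_sup_right (Submodule.subset_span ⟨_, πA, (dτ _ πA _).symm⟩),
        Submodule.mem_sup_right (Submodule.subset_span ⟨_, DA, (dτ _ DA _).symm⟩)]))
    rw [finrank_span_eq_card li] at this
    simp only [Fintype.card_fin] at this ⊢
    omega
  -- the cofactor is constant on the line
  set κ := (c ⬝ᵥ T.q) / (c ⬝ᵥ T.p) with hκ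
  set mm := T.q - κ • T.p with hmm
  have cm : c ⬝ᵥ mm = 0 := by
    rw [hmm, dotProduct_sub, dotProduct_smul, smul_eq_mul, hκ, div_mul_cancel₀ _ hp, sub_self]
  have prod : aeval (ln (τ' *ᵥ mm) (τ' *ᵥ T.p)) ψ * aeval (ln (τ' *ᵥ mm) (τ' *ᵥ T.p)) χ =
      Polynomial.C ((2 * (c ⬝ᵥ T.p)) ^ 3) * aeval (ln mm T.p) E.Ψ := Polynomial.funext fun t => by
    have h := E.cn_x (1 - t * κ) t
    rw [show (1 - t * κ) • T.p + t • T.q = t • mm + T.p by rw [hmm]; module] at h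
    rw [← map_mul, ← hχ, cn_ev, ← mulVec_smul, ← mulVec_add, kf Ω _ h.1 h.2 _ _ E.cn_Ψ,
      Polynomial.eval_mul, cn_ev, Polynomial.eval_C, ← hc, dotProduct_add, dotProduct_smul, cm,
      smul_zero, zero_add]
  have n12 : aeval (ln (τ' *ᵥ mm) (τ' *ᵥ T.p)) ψ * aeval (ln (τ' *ᵥ mm) (τ' *ᵥ T.p)) χ ≠ 0 :=
    fun h => Ψp (by
      have := congrArg (Polynomial.eval 0) h
      rwa [← map_mul, ← hχ, cn_ev, zero_smul, zero_add, Polynomial.eval_zero] at this)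
  have uκ : ∀ i, T.u i + κ ≠ 0 := fun i h => hx i (by
    rw [Tri.x, dotProduct_add, dotProduct_smul, smul_eq_mul, eq_neg_of_add_eq_zero_left h, hκ,
      neg_mul, div_mul_cancel₀ _ hp, neg_add_cancel])
  have d1 : 3 ≤ (aeval (ln (τ' *ᵥ mm) (τ' *ᵥ T.p)) ψ).natDegree := by
    by_contra hlt
    refine left_ne_zero_of_mul n12 (Polynomial.eq_zero_of_natDegree_lt_card_of_eval_eq_zero _
      (f := fun i => (T.u i + κ)⁻¹) (fun i j h => T.uinj (add_right_cancel (inv_injective h)))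
      (fun i => ?_) (by simpa using hlt))
    have h := E.cn_trans (aeval (fun a => lin (τ a)) ψ) (i := 0)
      (by rw [comp_aeval_apply]; simp only [cn_lin]; exact ψ0) i
    rw [comp_aeval_apply] at h
    simp only [cn_lin] at h
    change aeval (τ' *ᵥ T.x i) ψ = 0 at h
    rw [cn_ev, ← mulVec_smul, ← mulVec_add, show (T.u i + κ)⁻¹ • mm + T.p =
      (T.u i + κ)⁻¹ • T.x i by
        rw [eq_inv_smul_iff₀ (uκ i), smul_add, smul_inv_smul₀ (uκ i), hmm, Tri.x]; module,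
      mulVec_smul, cn_smul ψh, h, mul_zero]
  have d2 : (aeval (ln (τ' *ᵥ mm) (τ' *ᵥ T.p)) χ).natDegree = 0 := by
    have h1 := Polynomial.natDegree_mul (left_ne_zero_of_mul n12) (right_ne_zero_of_mul n12)
    have h2 := (Polynomial.natDegree_C_mul_le ((2 * (c ⬝ᵥ T.p)) ^ 3) _).trans
      (cn_deg mm T.p E.cn_Ψ)
    rw [← prod] at h2
    omega
  have g0 : gr χ (τ' *ᵥ T.p) ⬝ᵥ τ' *ᵥ mm = 0 := by
    have := cn_grL_ev χ (τ' *ᵥ mm) (τ' *ᵥ T.p) (τ' *ᵥ mm) 0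
    rw [← cn_der, Polynomial.derivative_of_natDegree_zero d2, zero_smul, zero_add] at this
    simpa using this.symm
  have g1 := cn_euler χh (τ' *ᵥ T.p)
  have dχ : ∀ D ∈ A, D (aeval (τ' *ᵥ T.p) χ) = gr χ (τ' *ᵥ T.p) ⬝ᵥ τ' *ᵥ dv D T.p :=
    fun D hD => by rw [D_aeval D (E.kill D hD), dτ D hD]
  have Λ : ∀ v ∈ T.La, c ⬝ᵥ T.p * (gr χ (τ' *ᵥ T.p) ⬝ᵥ τ' *ᵥ v) =
      e * aeval (τ' *ᵥ T.p) χ * (c ⬝ᵥ v) := by
    have st : ∀ v, c ⬝ᵥ T.p * (gr χ (τ' *ᵥ T.p) ⬝ᵥ τ' *ᵥ v) =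
        e * aeval (τ' *ᵥ T.p) χ * (c ⬝ᵥ v) → c ⬝ᵥ T.p * (gr χ (τ' *ᵥ T.p) ⬝ᵥ τ' *ᵥ dv T.Dπ v) =
        e * aeval (τ' *ᵥ T.p) χ * (c ⬝ᵥ dv T.Dπ v) := fun v h => by
      have := congrArg T.Dπ h
      simp only [Derivation.leibniz, D_dot T.Dπ (gr _ _), dv_gr T.Dπ E.cn_π, dτ _ πA, dχ _ πA, hc,
        E.cn_D πA, T.Dπp, mulVec_zero, dotProduct_zero, zero_dotProduct, add_zero,
        zero_add, Derivation.map_natCast, smul_eq_mul, mul_zero] at this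
      exact this
    have s0 : c ⬝ᵥ T.p * (gr χ (τ' *ᵥ T.p) ⬝ᵥ τ' *ᵥ T.q) =
        e * aeval (τ' *ᵥ T.p) χ * (c ⬝ᵥ T.q) := by
      rw [hmm, mulVec_sub, mulVec_smul, dotProduct_sub, dotProduct_smul, g1, sub_eq_zero] at g0
      rw [g0, hκ, smul_eq_mul]
      field_simp
    intro v hv
    induction hv using Submodule.span_induction with
    | mem x hx =>
      rcases hx with rfl | rfl | rfl | rfl
      exacts [by rw [g1, mul_comm], s0, st _ s0, st _ (st _ s0)]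
    | zero => simp
    | add x y _ _ h1 h2 => rw [mulVec_add, dotProduct_add, dotProduct_add, mul_add, mul_add, h1, h2]
    | smul a x _ h =>
      rw [mulVec_smul, dotProduct_smul, dotProduct_smul, smul_eq_mul, smul_eq_mul, mul_left_comm, h,
        mul_left_comm]
  set k0 := aeval (τ' *ᵥ T.p) χ / (c ⬝ᵥ T.p) ^ e with hk0
  have k1 : k0 * (c ⬝ᵥ T.p) ^ e = aeval (τ' *ᵥ T.p) χ := div_mul_cancel₀ _ (pow_ne_zero _ hp)
  have k2 : ∀ D ∈ A, D k0 = 0 := fun D hD => by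
    have h1 := congrArg D k1
    have h2 := Λ _ hD
    have h3 : c ⬝ᵥ T.p * D ((c ⬝ᵥ T.p) ^ e) = e * (c ⬝ᵥ dv D T.p) * (c ⬝ᵥ T.p) ^ e := by
      rw [← E.cn_D hD, D.leibniz_pow, ← hc]
      rcases e with _ | e
      · simp
      · simp [pow_succ]
        ring
    rw [D.leibniz, dχ D hD, smul_eq_mul, smul_eq_mul] at h1
    rw [← h1, ← k1] at h2
    refine (mul_eq_zero.1 (?_ : (c ⬝ᵥ T.p) ^ (e + 1) * D k0 = 0)).resolve_left (pow_ne_zero _ hp)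
    linear_combination h2 - k0 * h3
  have lp : aeval (τ' *ᵥ T.p) lam = c ⬝ᵥ T.p := kl Ω _ qp.1
  have k3 := ind_der A (τ' *ᵥ T.p) (by
      have li := liτ 4 _ _ E.liLa hp fun i => (E.La _).1 (E.cn_mem i)
      refine top_le_iff.1 ((li.span_eq_top_of_card_eq_finrank (by simp)).ge.trans
        (Submodule.span_le.2 ?_))
      rintro _ ⟨i, rfl⟩
      obtain ⟨D, hD⟩ := T.exp (![T.p, T.e 0, T.e 1, T.e 2] i)
      have DA : D ∈ A := show dv D T.p ∈ T.La from hD ▸ E.cn_mem i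
      exact Submodule.subset_span ⟨D, DA, by rw [dτ D DA, hD]⟩)
    (MvPolynomial.map (algebraMap K Ω) χ - C k0 * MvPolynomial.map (algebraMap K Ω) (lam ^ e))
    (fun D hD => by
      ext m
      simp only [coeff_cD, coeff_sub, coeff_C_mul, coeff_map, map_sub, D.leibniz, E.kill D hD,
        k2 D hD, smul_zero, add_zero, sub_zero, coeff_zero])
    (by
      rw [map_sub, map_mul, eval_C, eval_map, eval_map, ← aeval_def, ← aeval_def, map_pow, lp, k1,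
        sub_self])
  obtain ⟨k, hk⟩ : ∃ k : K, χ = C k * lam ^ e := by
    obtain ⟨m, hm⟩ := ne_zero_iff.1 (show lam ^ e ≠ 0 from fun h => pow_ne_zero e hp (by
      rw [← lp, ← map_pow, h, map_zero]))
    have h1 := congrArg (coeff m) k3
    rw [coeff_sub, coeff_C_mul, coeff_map, coeff_map, coeff_zero, sub_eq_zero] at h1
    refine ⟨coeff m χ / coeff m (lam ^ e), map_injective _ (algebraMap K Ω).injective ?_⟩
    rw [sub_eq_zero.1 k3, map_mul, map_C, map_div₀ (algebraMap K Ω), h1,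
      mul_div_cancel_right₀ _ ((map_ne_zero _).2 hm)]
  have kne : k ≠ 0 := fun h => Ψ0 (by rw [hχ, hk, h, C_0, zero_mul, mul_zero])
  have fin : ∀ (F : MvPolynomial (Fin 6) K) (d : ℕ), F.IsHomogeneous d → aeval (T.x 0) F = 0 →
      lin (E.Q *ᵥ z) ^ (e + d) * F ∈ Ideal.span {lin E.n, qf E.Q, E.Ψ} := fun F d hF h => by
    obtain ⟨γ, hγ⟩ := div F d hF h
    set J : Ideal (MvPolynomial (Fin 6) K) := Ideal.span {lin E.n, qf E.Q, E.Ψ}
    let ξ : Fin 6 → MvPolynomial (Fin 6) K ⧸ J := fun i => Ideal.Quotient.mkₐ K J (X i)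
    have ev : ∀ F, aeval ξ F = Ideal.Quotient.mk J F := fun F => by
      rw [← comp_aeval_apply, aeval_X_left_apply]
      rfl
    have z0 : ∀ F ∈ ({lin E.n, qf E.Q, E.Ψ} : Set _), aeval ξ F = 0 := fun F hF => by
      rw [ev, Ideal.Quotient.eq_zero_iff_mem]
      exact Ideal.subset_span hF
    have z1 := z0 (lin E.n) (by simp)
    have z2 := z0 (qf E.Q) (by simp)
    rw [cn_lin] at z1
    rw [cn_qf] at z2
    have h1 : C k * lam ^ e * aeval G F = aeval G E.Ψ * γ := by rw [hγ, hχ, ← hk]; ring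
    have h2 := congrArg (aeval (τ.map (algebraMap K _) *ᵥ ξ)) h1
    rw [map_mul, map_mul, map_mul, kf _ ξ z1 z2 _ _ hF, kf _ ξ z1 z2 _ _ E.cn_Ψ, map_pow, kl _ ξ z1,
      z0 E.Ψ (by simp), aeval_C, ← cn_lin] at h2
    rw [← Ideal.Quotient.eq_zero_iff_mem, ← ev, map_mul, map_pow,
      ← ((IsUnit.mk0 (k * 2 ^ d) (by simp [kne])).map (algebraMap K _)).mul_right_eq_zero,
      map_mul, map_pow, map_ofNat]
    linear_combination h2
  refine ⟨e + f.totalDegree, ?_⟩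
  conv => enter [2, 2, 2]; rw [← sum_homogeneousComponent f]
  rw [map_sum, Finset.mul_sum]
  refine Ideal.sum_mem _ fun d hd => ?_
  obtain ⟨r, hr⟩ := Nat.exists_eq_add_of_le (Nat.lt_succ_iff.1 (Finset.mem_range.1 hd))
  rw [hr, ← add_assoc, pow_add, mul_right_comm]
  exact Ideal.mul_mem_right _ _ (fin _ d ((homogeneousComponent_isHomogeneous d f).map _)
    (by rw [aeval_map_algebraMap]; exact T.on 0 _ (Z.hom f hf d)))

end PV
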