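import Pool.Agent.Lib.MP_36fb43_ag.KD

/-! Helpers for the dual defective case: annihilators, second fundamental forms, transfer. -/

open MvPolynomial Matrix Module

namespace PV.DD

section lin
variable {F σ : Type} [Field F] [Fintype σ]

/-- annihilator for the dot product -/
def perp (N : Submodule F (σ → F)) : Submodule F (σ → F) where
  carrier := {v | ∀ n ∈ N, n ⬝ᵥ v = 0}
  add_mem' := fun {a b} ha hb n hn => by rw [dotProduct_add, ha n hn, hb n hn, add_zero]
  zero_mem' := fun n _ => dotProduct_zero n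
  smul_mem' := fun c a ha n hn => by rw [dotProduct_smul, ha n hn, smul_zero]

theorem mem_perp {N : Submodule F (σ → F)} {v : σ → F} :
    v ∈ perp N ↔ ∀ n ∈ N, n ⬝ᵥ v = 0 := Iff.rfl

theorem perp_eq [DecidableEq σ] (N : Submodule F (σ → F)) :
    perp N = N.dualAnnihilator.comap (dotProductEquiv F σ).toLinearMap := by
  ext v
  simp only [mem_perp, Submodule.mem_comap, Submodule.mem_dualAnnihilator]
  refine forall_congr' fun n => forall_congr' fun _ => ?_
  rw [dotProduct_comm]
  rfl

theorem finrank_perp (N : Submodule F (σ → F)) :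
    finrank F N + finrank F (perp N) = Fintype.card σ := by
  classical
  rw [perp_eq, Submodule.comap_equiv_eq_map_symm, LinearEquiv.finrank_map_eq,
    Subspace.finrank_add_finrank_dualAnnihilator_eq, finrank_fintype_fun_eq_card]

theorem mem_of_perp {N : Submodule F (σ → F)} {n : σ → F} (h : ∀ v ∈ perp N, n ⬝ᵥ v = 0) :
    n ∈ N := by
  classical
  rw [← Subspace.forall_mem_dualAnnihilator_apply_eq_zero_iff]
  intro φ hφ
  obtain ⟨v, rfl⟩ := (dotProductEquiv F σ).surjective φ
  have := h v (by rw [perp_eq]; exact hφ)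
  rw [dotProduct_comm] at this
  exact this

theorem eig {K E V : Type} [Field K] [IsAlgClosed K] [AddCommGroup E] [Module K E]
    [AddCommGroup V] [Module K V] [FiniteDimensional K V] (α β : E →ₗ[K] V)
    (h : ∀ e, β e ∈ LinearMap.range α) (h0 : ∃ e, α e ≠ 0) :
    ∃ e c, α e ≠ 0 ∧ β e = (c : K) • α e := by
  obtain ⟨g, hg⟩ := α.rangeRestrict.exists_rightInverse_of_surjective α.range_rangeRestrict
  obtain ⟨e0, he0⟩ := h0
  have : Nontrivial (LinearMap.range α) :=
    ⟨⟨⟨α e0, e0, rfl⟩, 0, fun hh => he0 (congrArg Subtype.val hh)⟩⟩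
  obtain ⟨c, hc⟩ := Module.End.exists_eigenvalue
    ((β.codRestrict (LinearMap.range α) h) ∘ₗ g : Module.End K (LinearMap.range α))
  obtain ⟨w, hw⟩ := hc.exists_hasEigenvector
  have h1 : α (g w) = w := congrArg Subtype.val (LinearMap.congr_fun hg w)
  refine ⟨g w, c, fun hh => hw.2 (Subtype.ext (h1.symm.trans hh)), ?_⟩
  rw [h1]
  exact congrArg Subtype.val hw.apply_eq_smul

/-- a minor of a `3 x n` matrix -/
def m3 {A : Type} [CommRing A] (a b c : σ → A) (i j k : σ) : A :=
  a i * (b j * c k - b k * c j) - a j * (b i * c k - b k * c i) + a k * (b i * c j - b j * c i)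

omit [Fintype σ] in
theorem m3_of_dep {a b c : σ → F} (h : ¬ LinearIndependent F ![a, b, c]) (i j k : σ) :
    m3 a b c i j k = 0 := by
  obtain ⟨g, hg, s, hs⟩ := Fintype.not_linearIndependent_iff.1 h
  simp only [Fin.sum_univ_three, Matrix.cons_val_zero, Matrix.cons_val_one,
    Matrix.cons_val] at hg
  have e := fun t => congrFun hg t
  simp only [Pi.add_apply, Pi.smul_apply, smul_eq_mul, Pi.zero_apply] at e
  refine (mul_eq_zero.1 (?_ : g s * _ = 0)).resolve_left hs
  unfold m3
  fin_cases s
  · simp only [Fin.zero_eta]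
    linear_combination (b j * c k - b k * c j) * e i - (b i * c k - b k * c i) * e j +
      (b i * c j - b j * c i) * e k
  · simp only [Fin.mk_one]
    linear_combination -(a j * c k - a k * c j) * e i + (a i * c k - a k * c i) * e j -
      (a i * c j - a j * c i) * e k
  · simp only [Fin.reduceFinMk]
    linear_combination (a j * b k - a k * b j) * e i - (a i * b k - a k * b i) * e j +
      (a i * b j - a j * b i) * e k

theorem m3_dot {A : Type} [CommRing A] {a b c : σ → A} (i j : σ) (h : ∀ k, m3 a b c i j k = 0)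
    {w : σ → A} (hb : b ⬝ᵥ w = 0) (hc : c ⬝ᵥ w = 0) :
    (a ⬝ᵥ w) * (b i * c j - b j * c i) = 0 := by
  have : ∑ k, m3 a b c i j k * w k = a i * (b j * (c ⬝ᵥ w) - (b ⬝ᵥ w) * c j) -
      a j * (b i * (c ⬝ᵥ w) - (b ⬝ᵥ w) * c i) + (a ⬝ᵥ w) * (b i * c j - b j * c i) := by
    simp only [dotProduct, Finset.mul_sum, Finset.sum_mul, ← Finset.sum_sub_distrib,
      ← Finset.sum_add_distrib, mul_sub]
    exact Finset.sum_congr rfl fun k _ => by unfold m3; ring
  rw [hb, hc] at this
  simp only [h, zero_mul, Finset.sum_const_zero, mul_zero, sub_self, zero_add] at this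
  exact this.symm

omit [Fintype σ] in
theorem two_of_finrank {S : Set (σ → F)} (h : finrank F (Submodule.span F S) = 2) :
    ∃ b ∈ S, ∃ c ∈ S, ∃ i j, b i * c j - b j * c i ≠ 0 := by
  by_contra hn
  push Not at hn
  have : ∃ b : σ → F, Submodule.span F S ≤ Submodule.span F {b} := by
    by_cases h0 : ∃ b ∈ S, b ≠ 0
    · obtain ⟨b, hb, hb0⟩ := h0
      obtain ⟨i, hi⟩ := Function.ne_iff.1 hb0
      refine ⟨b, Submodule.span_le.2 fun c hc => Submodule.mem_span_singleton.2 ⟨c i / b i, ?_⟩⟩
      funext j
      have := hn b hb c hc i j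
      simp only [Pi.zero_apply] at hi
      simp only [Pi.smul_apply, smul_eq_mul]
      field_simp
      linear_combination -this
    · push Not at h0
      exact ⟨0, Submodule.span_le.2 fun c hc => by rw [h0 c hc]; exact Submodule.zero_mem _⟩
  obtain ⟨b, hb⟩ := this
  have h1 := Submodule.finrank_mono hb
  have h2 : finrank F (Submodule.span F ({b} : Set (σ → F))) ≤ 1 := by
    simpa using finrank_span_le_card (R := F) ({b} : Set (σ → F))
  omega

end lin

section der
variable {R F σ : Type} [CommRing R] [Field F] [Algebra R F]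

theorem dv_add (D : Derivation R F F) (u v : σ → F) : dv D (u + v) = dv D u + dv D v := by
  funext i; simp [dv]

theorem dv_sub (D : Derivation R F F) (u v : σ → F) : dv D (u - v) = dv D u - dv D v := by
  funext i; simp [dv]

theorem dv_zero (D : Derivation R F F) : dv D (0 : σ → F) = 0 := by
  funext i; simp [dv]

theorem dv_smul (D : Derivation R F F) (c : F) (v : σ → F) :
    dv D (c • v) = c • dv D v + D c • v := by
  funext i; simp [dv, mul_comm]

theorem dv_sub' (D E : Derivation R F F) (v : σ → F) : dv (D - E) v = dv D v - dv E v := by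
  funext i; simp [dv]

theorem dv_smul' (c : F) (D : Derivation R F F) (v : σ → F) : dv (c • D) v = c • dv D v := by
  funext i; simp [dv]

theorem dv_lie (D E : Derivation R F F) (v : σ → F) :
    dv ⁅D, E⁆ v = dv D (dv E v) - dv E (dv D v) := by
  funext i; simp [dv, Derivation.commutator_apply]

/-- `D ↦ D x` as a linear map -/
def dvL (R : Type) [CommRing R] [Algebra R F] (x : σ → F) : Derivation R F F →ₗ[F] (σ → F) where
  toFun D := dv D x
  map_add' D E := by funext i; simp [dv]
  map_smul' c D := by funext i; simp [dv]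

variable [Fintype σ]

theorem D_dot (D : Derivation R F F) (u v : σ → F) :
    D (u ⬝ᵥ v) = dv D u ⬝ᵥ v + u ⬝ᵥ dv D v := by
  simp only [dotProduct, map_sum, Derivation.leibniz, smul_eq_mul, dv, ← Finset.sum_add_distrib]
  exact Finset.sum_congr rfl fun i _ => by ring

theorem dv_mulVec (D : Derivation R F F) (M : Matrix σ σ F) (w : σ → F) :
    dv D (M *ᵥ w) = M.map D *ᵥ w + M *ᵥ dv D w := by
  funext i
  exact D_dot D (M i) w

theorem D_bil (D : Derivation R F F) (M : Matrix σ σ F) (v w : σ → F) :
    D (v ⬝ᵥ M *ᵥ w) = dv D v ⬝ᵥ M *ᵥ w + v ⬝ᵥ M.map D *ᵥ w + v ⬝ᵥ M *ᵥ dv D w := by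
  rw [D_dot, dv_mulVec, dotProduct_add, add_assoc]

theorem bil_symm {M : Matrix σ σ F} (h : Mᵀ = M) (v w : σ → F) :
    v ⬝ᵥ M *ᵥ w = w ⬝ᵥ M *ᵥ v := by
  rw [dotProduct_mulVec, ← mulVec_transpose, h, dotProduct_comm]

omit [Fintype σ] in
theorem dv_span (D : Derivation R F F) {S : Set (σ → F)}
    (h : ∀ v ∈ S, dv D v ∈ Submodule.span F S) {v : σ → F} (hv : v ∈ Submodule.span F S) :
    dv D v ∈ Submodule.span F S := by
  induction hv using Submodule.span_induction with
  | mem v hv => exact h v hv
  | zero => rw [dv_zero]; exact Submodule.zero_mem _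
  | add u v _ _ hu hv => rw [dv_add]; exact Submodule.add_mem _ hu hv
  | smul c v hv0 hv =>
    rw [dv_smul]; exact Submodule.add_mem _ (Submodule.smul_mem _ _ hv) (Submodule.smul_mem _ _ hv0)

theorem dv_perp (D : Derivation R F F) {N : Submodule F (σ → F)} (h : ∀ n ∈ N, dv D n ∈ N)
    {v : σ → F} (hv : v ∈ perp N) : dv D v ∈ perp N := fun n hn => by
  have := D_dot D n v
  rw [hv n hn, hv _ (h n hn), map_zero, zero_add] at this
  exact this.symm

end der

section poly
variable {k A σ : Type} [CommRing k] [CommRing A] [Algebra k A] [Fintype σ]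

/-- first order Taylor formula -/
theorem taylor1 (f : MvPolynomial σ k) (z w : σ → A) (t : A) :
    ∃ r : A, aeval (z + t • w) f =
      aeval z f + t * ∑ i, aeval z (pderiv i f) * w i + t ^ 2 * r := by
  classical
  induction f using MvPolynomial.induction_on with
  | C c => exact ⟨0, by simp⟩
  | add f g hf hg =>
    obtain ⟨r, hr⟩ := hf
    obtain ⟨s, hs⟩ := hg
    refine ⟨r + s, ?_⟩
    simp only [map_add, hr, hs, add_mul, Finset.sum_add_distrib]
    ring
  | mul_X f j hf =>
    obtain ⟨r, hr⟩ := hf
    refine ⟨r * (z j + t * w j) + (∑ i, aeval z (pderiv i f) * w i) * w j, ?_⟩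
    have : ∑ i, aeval z (pderiv i (f * X j)) * w i =
        (∑ i, aeval z (pderiv i f) * w i) * z j + aeval z f * w j := by
      simp only [Derivation.leibniz, smul_eq_mul, map_add, map_mul, aeval_X, pderiv_X, add_mul,
        Finset.sum_add_distrib, Finset.sum_mul]
      rw [add_comm]
      congr 1
      · exact Finset.sum_congr rfl fun i _ => by ring
      · rw [Finset.sum_eq_single j] <;> simp +contextual [eq_comm]
    rw [this, map_mul, map_mul, aeval_X, aeval_X, hr]
    simp only [Pi.add_apply, Pi.smul_apply, smul_eq_mul]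
    ring

end poly

section transfer
variable {k F σ : Type} [CommRing k] [Field F] [CharZero F] [Algebra k F]

/-- identities on a span pass to every algebra -/
theorem transfer {r : ℕ} (l : Fin r → σ → F) (Q : MvPolynomial σ F)
    (h : ∀ v ∈ Submodule.span F (Set.range l), eval v Q = 0) {L : Type} [CommRing L]
    (φ : F →+* L) (y : Fin r → L) : eval₂ φ (fun i => ∑ a, φ (l a i) * y a) Q = 0 := by
  have : Infinite F := Infinite.of_injective _ Nat.cast_injective
  have h1 : eval₂ C (pl l) Q = 0 := by
    refine MvPolynomial.funext fun y => ?_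
    rw [map_zero, eval₂_comp_left, ← h (∑ a, y a • l a)
      (Submodule.sum_mem _ fun a _ => Submodule.smul_mem _ _ (Submodule.subset_span ⟨a, rfl⟩))]
    rw [← coe_eval₂Hom, eval, coe_eval₂Hom, coe_eval₂Hom]
    congr 1
    · ext c; simp
    · funext i; simp [pl, mul_comm]
  have h2 := congrArg (eval₂Hom φ y) h1
  rw [map_zero, eval₂_comp_left] at h2
  rw [← h2]
  congr 1
  · ext c; simp
  · funext i; simp [pl]

theorem gr_line [Fintype σ] (g : MvPolynomial σ k) (y v : σ → F)
    (h : ∀ t : F, aeval (y + t • v) g = 0) : gr g y ⬝ᵥ v = 0 := by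
  have : Infinite F := Infinite.of_injective _ Nat.cast_injective
  obtain ⟨r, hr⟩ := taylor1 g (fun i => Polynomial.C (y i)) (fun i => Polynomial.C (v i))
    (Polynomial.X : Polynomial F)
  have e : ∀ (t : F) (u : σ → Polynomial F) (f : MvPolynomial σ k),
      (aeval u f).eval t = aeval (fun i => (u i).eval t) f := fun t u f => by
    have := comp_aeval_apply u ((Polynomial.aeval t : Polynomial F →ₐ[F] F).restrictScalars k) f
    simpa [Polynomial.coe_aeval_eq_eval] using this
  have h0 : aeval ((fun i => Polynomial.C (y i)) + (Polynomial.X : Polynomial F) •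
      fun i => Polynomial.C (v i)) g = 0 := by
    refine Polynomial.funext fun t => ?_
    rw [e, Polynomial.eval_zero, ← h t]
    congr 2
    funext i; simp [mul_comm (v i) t]
  have ec : ∀ f : MvPolynomial σ k,
      aeval (fun i => Polynomial.C (y i)) f = Polynomial.C (aeval y f) := fun f => by
    exact (comp_aeval_apply y
      ((Polynomial.CAlgHom : F →ₐ[F] Polynomial F).restrictScalars k) f).symm
  rw [h0] at hr
  have := congrArg (fun p => Polynomial.coeff p 1) hr
  simp only [ec, ← map_mul, ← map_sum, Polynomial.coeff_zero, Polynomial.coeff_add,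
    Polynomial.coeff_C, one_ne_zero, if_false, zero_add, Polynomial.X_mul_C,
    Polynomial.coeff_C_mul, Polynomial.coeff_X_one, mul_one, Polynomial.coeff_X_pow_mul'] at this
  simpa [gr, dotProduct] using this.symm

end transfer

section tang
variable {k F σ : Type} [CommRing k] [Field F] [Algebra k F] [Fintype σ]
  {I : Ideal (MvPolynomial σ k)}

omit [Fintype σ] in
theorem gr_mem {f} (hf : f ∈ I) (x : σ → F) : gr f x ∈ Nm I x :=
  Submodule.subset_span ⟨f, hf, rfl⟩

theorem tg_iff {x v : σ → F} : Tg I x v ↔ v ∈ perp (Nm I x) := by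
  refine ⟨fun h n hn => ?_, fun h f hf => h _ (gr_mem hf x)⟩
  induction hn using Submodule.span_induction with
  | mem n hn => obtain ⟨f, hf, rfl⟩ := hn; exact h f hf
  | zero => exact zero_dotProduct v
  | add a b _ _ ha hb => rw [add_dotProduct, ha, hb, add_zero]
  | smul c a _ ha => rw [smul_dotProduct, ha, smul_zero]

/-- a covector all of whose minors with two gradients vanish kills the tangent space -/
theorem dot_of_m3 {y h w : σ → F} (hr : finrank F (Nm I y) = 2)
    (h3 : ∀ f1 ∈ I, ∀ f2 ∈ I, ∀ i j l, m3 h (gr f1 y) (gr f2 y) i j l = 0) (hw : Tg I y w) :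
    h ⬝ᵥ w = 0 := by
  obtain ⟨_, ⟨f1, h1, rfl⟩, _, ⟨f2, h2, rfl⟩, i, j, hij⟩ := two_of_finrank hr
  exact (mul_eq_zero.1 (m3_dot i j (h3 f1 h1 f2 h2 i j) (hw f1 h1) (hw f2 h2))).resolve_right hij

theorem aeval_lin (h : σ → k) (x : σ → F) :
    aeval x (lin h) = (fun i => algebraMap k F (h i)) ⬝ᵥ x := by
  simp [lin, dotProduct]

end tang

section cone
variable {k : Type} [Field k] [CharZero k] {n : ℕ}

omit [CharZero k] in
theorem nondeg_low {Z : Cone k n} (hZ : Z.Nondeg) {f} (hf : f ∈ Z.I) (hd : f.totalDegree ≤ 1) :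
    f = 0 := by
  have h0 : homogeneousComponent 0 f = 0 := by
    have := Z.hom f hf 0
    rw [homogeneousComponent_zero] at this ⊢
    by_contra hne
    have hc : coeff 0 f ≠ 0 := fun h => hne (by rw [h, map_zero])
    exact Z.prime.ne_top (Ideal.eq_top_of_isUnit_mem _ this ((Ne.isUnit hc).map C))
  have h1 : homogeneousComponent 1 f = 0 := by
    have hm : homogeneousComponent 1 f ∈ homogeneousSubmodule (Fin n) k 1 :=
      homogeneousComponent_isHomogeneous 1 f
    rw [homogeneousSubmodule_one_eq_span_X, Submodule.mem_span_range_iff_exists_fun] at hm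
    obtain ⟨c, hc⟩ := hm
    have e : lin c = homogeneousComponent 1 f := by
      rw [← hc]; simp [lin, smul_eq_C_mul]
    have := hZ c (e ▸ Z.hom f hf 1)
    rw [← e, this]; simp [lin]
  rw [← sum_homogeneousComponent f]
  refine Finset.sum_eq_zero fun i hi => ?_
  have : i = 0 ∨ i = 1 := by have := Finset.mem_range.1 hi; omega
  rcases this with rfl | rfl <;> assumption

theorem nondeg_ext {Z : Cone k n} (hZ : Z.Nondeg) {K : Type} [Field K] [Algebra k K]
    {h : Fin n → K} (hh : lin h ∈ Z.I.map (MvPolynomial.map (algebraMap k K))) : h = 0 := by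
  by_contra h0
  have hne : lin h ≠ 0 := fun e => by
    obtain ⟨i, hi⟩ := Function.ne_iff.1 h0
    have := congrArg (eval (Pi.single i (1 : K))) e
    rw [← coe_aeval_eq_eval] at this
    have h2 := aeval_lin h (Pi.single i (1 : K))
    simp only [RingHom.coe_coe, map_zero] at this
    rw [this] at h2
    exact hi (by simpa using h2.symm)
  obtain ⟨f, hf, hf0, hd⟩ := low_of_ext Z K _ hne hh
  refine hf0 (nondeg_low hZ hf (hd.trans ?_))
  refine IsHomogeneous.totalDegree_le (IsHomogeneous.sum _ _ _ fun i _ => ?_)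
  simpa using (isHomogeneous_C (Fin n) (h i)).mul (isHomogeneous_X K i)

end cone

end PV.DD
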