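import Pool.Agent.Lib.MP_36fb43_ag.DD0

/-! Second fundamental forms and planes swept by a derivation. -/

open MvPolynomial Matrix Module

namespace PV.DD

theorem pd_comm {k σ : Type} [CommRing k] (i j : σ) (f : MvPolynomial σ k) :
    pderiv i (pderiv j f) = pderiv j (pderiv i f) := by
  classical
  have : ⁅pderiv (R := k) i, pderiv (R := k) j⁆ = 0 := by
    refine derivation_ext fun l => ?_
    simp only [Derivation.commutator_apply, pderiv_X, Pi.single_apply]
    split_ifs <;> simp
  have h := congrArg (fun D => D f) this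
  simpa [Derivation.commutator_apply, sub_eq_zero] using h

theorem li2 {F V : Type} [Field F] [AddCommGroup V] [Module F V] {x a : V} (hx : x ≠ 0)
    (ha : a ∉ Submodule.span F {x}) : LinearIndependent F ![a, x] :=
  linearIndependent_finCons.2 ⟨linearIndependent_unique_iff.2 hx, by simpa using ha⟩

theorem li3 {F V : Type} [Field F] [AddCommGroup V] [Module F V] {x a v : V}
    (h : LinearIndependent F ![a, x]) (hv : v ∉ Submodule.span F {a, x}) :
    LinearIndependent F ![v, a, x] :=
  linearIndependent_finCons.2 ⟨h, by simpa [Set.pair_comm] using hv⟩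

theorem range3 {V : Type} (v a x : V) : Set.range ![v, a, x] = {v, a, x} := by
  ext u; simp; tauto

theorem range2 {V : Type} (a x : V) : Set.range ![a, x] = {a, x} := by
  ext u; simp; tauto

theorem li4 {F V : Type} [Field F] [AddCommGroup V] [Module F V] {x a v w : V}
    (h : LinearIndependent F ![v, a, x]) (hw : w ∉ Submodule.span F {v, a, x}) :
    LinearIndependent F ![w, v, a, x] :=
  linearIndependent_finCons.2 ⟨h, by rw [range3]; exact hw⟩

section rep
variable {F σ : Type} [Field F] [Algebra ℂ F] [Fintype σ] {I : Ideal (MvPolynomial σ ℂ)}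
  {x : σ → F}

omit [Fintype σ] in
theorem hs_symm (f : MvPolynomial σ ℂ) (x : σ → F) : (hs f x)ᵀ = hs f x := by
  ext i j; simp [hs, pd_comm i j]

theorem dv_gr' (D : Derivation ℂ F F) (f : MvPolynomial σ ℂ) (x : σ → F) :
    dv D (gr f x) = hs f x *ᵥ dv D x := dv_gr D D.map_algebraMap f x

theorem tg_dv (hx : On I x) (D : Derivation ℂ F F) : Tg I x (dv D x) := fun f hf => by
  rw [← D_aeval D D.map_algebraMap, hx f hf, map_zero]

theorem cD_map (D : Derivation ℂ F F) (f : MvPolynomial σ ℂ) :
    cD D (MvPolynomial.map (algebraMap ℂ F) f) = 0 := by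
  ext m; rw [coeff_cD, coeff_map, D.map_algebraMap, coeff_zero]

/-- the derivative of `f` in the direction `t` -/
noncomputable def dir (f : MvPolynomial σ ℂ) (t : σ → F) : MvPolynomial σ F :=
  ∑ i, C (t i) * MvPolynomial.map (algebraMap ℂ F) (pderiv i f)

theorem eval_dir (f : MvPolynomial σ ℂ) (t y : σ → F) : eval y (dir f t) = gr f y ⬝ᵥ t := by
  simp [dir, gr, dotProduct, eval_map, aeval_def, mul_comm]

theorem cD_dir (D : Derivation ℂ F F) (f : MvPolynomial σ ℂ) {t : σ → F} (ht : dv D t = 0) :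
    cD D (dir f t) = 0 := by
  ext m
  have : ∀ i, D (t i) = 0 := fun i => congrFun ht i
  simp [coeff_cD, dir, coeff_sum, coeff_C_mul, coeff_map, this]

theorem dir_hom {f : MvPolynomial σ ℂ} {d : ℕ} (hf : f.IsHomogeneous d) (t : σ → F) :
    (dir f t).IsHomogeneous (d - 1) :=
  IsHomogeneous.sum _ _ _ fun _ _ => (hf.pderiv.map _).C_mul _

theorem hs_line (f : MvPolynomial σ ℂ) (y v t : σ → F)
    (h : ∀ c : F, gr f (y + c • v) ⬝ᵥ t = 0) : v ⬝ᵥ hs f y *ᵥ t = 0 := by
  have : CharZero F := charZero_of_injective_algebraMap (algebraMap ℂ F).injective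
  have := gr_line (dir f t) y v fun c => (eval_dir f t _).trans (h c)
  rw [dotProduct_comm] at this
  rw [← this]
  congr 1
  funext i
  simp [gr, dir, hs, mulVec, dotProduct, pderiv_map, aeval_def, mul_comm]

/-- covectors together with their second fundamental forms -/
def Rep (I : Ideal (MvPolynomial σ ℂ)) (x : σ → F) : Submodule F ((σ → F) × Matrix σ σ F) :=
  Submodule.span F {p | ∃ f ∈ I, p = (gr f x, hs f x)}

omit [Fintype σ] in
theorem rep_gr {f} (hf : f ∈ I) : (gr f x, hs f x) ∈ Rep I x := Submodule.subset_span ⟨f, hf, rfl⟩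

omit [Fintype σ] in
theorem rep_ex {n : σ → F} (hn : n ∈ Nm I x) : ∃ M, (n, M) ∈ Rep I x := by
  induction hn using Submodule.span_induction with
  | mem n hn => obtain ⟨f, hf, rfl⟩ := hn; exact ⟨_, rep_gr hf⟩
  | zero => exact ⟨0, Submodule.zero_mem _⟩
  | add a b _ _ ha hb =>
    obtain ⟨M, hM⟩ := ha
    obtain ⟨M', hM'⟩ := hb
    exact ⟨M + M', Submodule.add_mem _ hM hM'⟩
  | smul c a _ ha =>
    obtain ⟨M, hM⟩ := ha
    exact ⟨c • M, Submodule.smul_mem _ c hM⟩

omit [Fintype σ] in
theorem rep_nm {p} (hp : p ∈ Rep I x) : p.1 ∈ Nm I x ∧ p.2ᵀ = p.2 := by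
  induction hp using Submodule.span_induction with
  | mem n hn => obtain ⟨f, hf, rfl⟩ := hn; exact ⟨gr_mem hf x, hs_symm f x⟩
  | zero => exact ⟨Submodule.zero_mem _, rfl⟩
  | add a b _ _ ha hb => exact ⟨Submodule.add_mem _ ha.1 hb.1, by
      rw [Prod.snd_add, transpose_add, ha.2, hb.2]⟩
  | smul c a _ ha => exact ⟨Submodule.smul_mem _ c ha.1, by
      rw [Prod.smul_snd, transpose_smul, ha.2]⟩

theorem rep_der0 (D : Derivation ℂ F F) (hD : dv D x = 0) {p} (hp : p ∈ Rep I x) :
    (dv D p.1, p.2.map D) ∈ Rep I x := by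
  induction hp using Submodule.span_induction with
  | mem n hn =>
    obtain ⟨f, hf, rfl⟩ := hn
    convert Submodule.zero_mem _ using 1
    refine Prod.ext (by rw [dv_gr', hD, mulVec_zero]; rfl) ?_
    ext i j
    simp [hs, D_aeval D D.map_algebraMap, hD]
  | zero =>
    convert Submodule.zero_mem _ using 1
    refine Prod.ext (dv_zero D) ?_
    ext i j; simp
  | add a b _ _ ha hb =>
    convert Submodule.add_mem _ ha hb using 1
    refine Prod.ext (dv_add D _ _) ?_
    ext i j; simp
  | smul c a ha0 ha =>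
    convert Submodule.add_mem _ (Submodule.smul_mem _ c ha) (Submodule.smul_mem _ (D c) ha0) using 1
    refine Prod.ext (dv_smul D _ _) ?_
    ext i j; simp [mul_comm]

theorem rep_der (D : Derivation ℂ F F) {p} (hp : p ∈ Rep I x) :
    dv D p.1 - p.2 *ᵥ dv D x ∈ Nm I x := by
  induction hp using Submodule.span_induction with
  | mem n hn => obtain ⟨f, hf, rfl⟩ := hn; rw [dv_gr', sub_self]; exact Submodule.zero_mem _
  | zero => simp [dv_zero]
  | add a b _ _ ha hb =>
    convert Submodule.add_mem _ ha hb using 1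
    rw [Prod.fst_add, Prod.snd_add, dv_add, add_mulVec]; abel
  | smul c a ha0 ha =>
    convert Submodule.add_mem _ (Submodule.smul_mem _ c ha)
      (Submodule.smul_mem _ (D c) (rep_nm ha0).1) using 1
    rw [Prod.smul_fst, Prod.smul_snd, dv_smul, smul_mulVec, smul_sub]; abel

end rep

section cone
variable {F : Type} [Field F] [Algebra ℂ F] {n : ℕ} {Z : Cone ℂ n} {x : Fin n → F}

theorem rep_self {p} (hp : p ∈ Rep Z.I x) : p.2 *ᵥ x ∈ Nm Z.I x := by
  induction hp using Submodule.span_induction with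
  | mem n hn =>
    obtain ⟨f, hf, rfl⟩ := hn
    convert Submodule.sub_mem _ (gr_mem (euler_mem Z hf) x) (gr_mem hf x) using 1
    funext j
    simp [gr, hs, mulVec, dotProduct, Finset.sum_add_distrib, Pi.single_apply, mul_comm]
  | zero => simp
  | add a b _ _ ha hb => rw [Prod.snd_add, add_mulVec]; exact Submodule.add_mem _ ha hb
  | smul c a _ ha => rw [Prod.smul_snd, smul_mulVec]; exact Submodule.smul_mem _ c ha

theorem rep_key {p} (hp : p ∈ Rep Z.I x) {v : Fin n → F} (hv : v ∈ perp (Nm Z.I x))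
    (D : Derivation ℂ F F) (t : F) : v ⬝ᵥ p.2 *ᵥ (dv D x + t • x) = dv D p.1 ⬝ᵥ v := by
  have h1 := hv _ (rep_der D hp)
  have h2 := hv _ (rep_self hp)
  rw [sub_dotProduct] at h1
  rw [mulVec_add, mulVec_smul, dotProduct_comm, add_dotProduct, smul_dotProduct, h2, smul_zero]
  linear_combination -h1

theorem on_of_hom {y : Fin n → F}
    (h : ∀ f ∈ Z.I, ∀ d, f.IsHomogeneous d → aeval y f = 0) : On Z.I y := fun f hf => by
  rw [← sum_homogeneousComponent f, map_sum]
  exact Finset.sum_eq_zero fun d _ => h _ (Z.hom f hf d) d (homogeneousComponent_isHomogeneous d f)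

theorem tg_of_hom {y v : Fin n → F}
    (h : ∀ f ∈ Z.I, ∀ d, f.IsHomogeneous d → gr f y ⬝ᵥ v = 0) : Tg Z.I y v := fun f hf => by
  have : gr f y = ∑ d ∈ Finset.range (f.totalDegree + 1), gr (homogeneousComponent d f) y := by
    funext i
    conv_lhs => rw [← sum_homogeneousComponent f]
    simp [gr]
  rw [this, sum_dotProduct]
  exact Finset.sum_eq_zero fun d _ => h _ (Z.hom f hf d) d (homogeneousComponent_isHomogeneous d f)

theorem on_tay (A : Set (Derivation ℂ F F)) (U : Submodule F (Fin n → F))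
    (hU : ∀ D ∈ A, ∀ v ∈ U, dv D v ∈ U) (hx : x ∈ U) (hs : U ≤ Submodule.span F {x} ⊔ dsp A x)
    (h0 : On Z.I x) : ∀ v ∈ U, On Z.I v := fun v hv => on_of_hom fun f hf d hd => by
  have := tay A U hU hx hs (MvPolynomial.map (algebraMap ℂ F) f) (hd.map _)
    (fun D _ => cD_map D f) (by rw [eval_map, ← aeval_def]; exact h0 f hf) v hv
  rwa [eval_map, ← aeval_def] at this

/-- a line on the cone sweeps a stable plane -/
theorem plane_on {a : Fin n → F} {D : Derivation ℂ F F} (hx : dv D x = 0)
    (h2 : dv D (dv D a) ∈ Submodule.span F {dv D a, a, x})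
    (hon : ∀ v ∈ Submodule.span F {a, x}, On Z.I v) :
    ∀ v ∈ Submodule.span F {dv D a, a, x}, On Z.I v := by
  have : CharZero F := charZero_of_injective_algebraMap (algebraMap ℂ F).injective
  obtain ⟨L, _, _, _, ⟨c⟩⟩ := copy_ex (k := ℂ) (F := F) 1
  obtain ⟨E1, e1, -, e1'⟩ := c.ex D 0 0
  obtain ⟨E2, e2, -, e2'⟩ := c.ex 0 0 1
  set s := c.lam 0
  have s1 : E1 s = 0 := e1' 0
  have s2 : E2 s = 1 := e2' 0
  have s0 : s ≠ 0 := fun e => by rw [e, map_zero] at s2; exact zero_ne_one s2
  let j : (Fin n → F) → Fin n → L := fun v i => c.i1 (v i)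
  have j1 : ∀ v, dv E1 (j v) = j (dv D v) := fun v => funext fun i => e1 _
  have j2 : ∀ v, dv E2 (j v) = 0 := fun v => funext fun i => by simp [dv, j, e2]
  have j0 : j 0 = 0 := funext fun i => by simp [j]
  set U := Submodule.span L {j (dv D a), j a, j x} with hU
  have m1 : j (dv D a) ∈ U := Submodule.subset_span (by simp)
  have m2 : j a ∈ U := Submodule.subset_span (by simp)
  have m3 : j x ∈ U := Submodule.subset_span (by simp)
  have hj : ∀ v ∈ Submodule.span F {dv D a, a, x}, j v ∈ U := fun v hv => by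
    obtain ⟨p, q, r, rfl⟩ := Submodule.mem_span_triple.1 hv
    exact Submodule.mem_span_triple.2 ⟨c.i1 p, c.i1 q, c.i1 r, funext fun i => by simp [j]⟩
  have key := on_tay (Z := Z) (x := s • j a + j x) {E1, E2} U (fun E hE v hv => dv_span E (by
      rintro v (rfl | rfl | rfl) <;> rcases hE with rfl | rfl <;>
        simp only [j1, j2, hx, j0, Submodule.zero_mem]
      exacts [hj _ h2, m1]) hv) (U.add_mem (U.smul_mem _ m2) m3) (by
      set W := Submodule.span L {s • j a + j x} ⊔ dsp {E1, E2} (s • j a + j x)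
      have w0 : s • j a + j x ∈ W := Submodule.mem_sup_left (Submodule.subset_span rfl)
      have w1 : dv E1 (s • j a + j x) ∈ W :=
        Submodule.mem_sup_right (Submodule.subset_span ⟨E1, by simp, rfl⟩)
      have w2 : dv E2 (s • j a + j x) ∈ W :=
        Submodule.mem_sup_right (Submodule.subset_span ⟨E2, by simp, rfl⟩)
      rw [dv_add, dv_smul, j1, j1, hx, j0, s1, zero_smul, add_zero, add_zero] at w1
      rw [dv_add, dv_smul, j2, j2, s2, smul_zero, one_smul, zero_add, add_zero] at w2
      refine Submodule.span_le.2 ?_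
      rintro v (rfl | rfl | rfl)
      · exact (W.smul_mem_iff s0).1 w1
      · exact w2
      · simpa using W.sub_mem w0 (W.smul_mem s w2)) (fun f hf => by
      have := transfer ![a, x] (MvPolynomial.map (algebraMap ℂ F) f) (fun v hv => by
        rw [eval_map, ← aeval_def]; exact hon v (range2 a x ▸ hv) f hf) (c.i1 : F →+* L) ![s, 1]
      rw [eval₂_map, AlgHom.comp_algebraMap, ← aeval_def] at this
      rw [← this]
      congr 2
      funext i
      simp [j, mul_comm])
  intro v hv f hf
  apply c.i1.injective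
  rw [map_zero, ← key _ (hj v hv) f hf]
  exact comp_aeval_apply v c.i1 f

end cone

end PV.DD
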