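import Pool.Agent.Lib.MP_36fb43_ag.DD0b

/-! No hyperplane is tangent along a plane; a dual defective threefold is swept by planes. -/

open MvPolynomial Matrix Module

namespace PV.DD

theorem tl_core {σ A κ : Type} [Fintype σ] {I : Ideal (MvPolynomial σ ℂ)} [CommRing A] [IsDomain A]
    [Algebra ℂ A] [Field κ] [Algebra ℂ κ] (ψ : A →ₐ[ℂ] κ) (z w h : σ → A) (t : A) (ht0 : t ≠ 0)
    (ht : ψ t = 0) (h1 : ∀ f ∈ I, aeval z f = 0) (h2 : ∀ f ∈ I, aeval (z + t • w) f = 0)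
    (h3 : ∀ f1 ∈ I, ∀ f2 ∈ I, ∀ i j k, m3 h (fun i => aeval z (pderiv i f1))
      (fun i => aeval z (pderiv i f2)) i j k = 0)
    (hr : finrank κ (Nm I fun i => ψ (z i)) = 2) : ψ (h ⬝ᵥ w) = 0 := by
  have := dot_of_m3 (h := fun i => ψ (h i)) (w := fun i => ψ (w i)) hr
    (fun f1 m1 f2 m2 i j k => by
      have := congrArg ψ (h3 f1 m1 f2 m2 i j k)
      simpa [m3, gr, comp_aeval_apply] using this)
    (fun f hf => by
      obtain ⟨r, hr⟩ := taylor1 f z w t
      rw [h1 f hf, h2 f hf] at hr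
      have e : ∑ i, aeval z (pderiv i f) * w i = -(t * r) :=
        mul_left_cancel₀ ht0 (by linear_combination -hr)
      have := congrArg ψ e
      simpa [gr, dotProduct, comp_aeval_apply, ht] using this)
  simpa [dotProduct] using this

/-- a derivation that moves a finite family produces a pole -/
theorem pole {R L ι : Type} [Field R] [CharZero R] [Field L] [Algebra R L] [Finite ι]
    (D : Derivation R L L) (y : ι → L) {a : ι} (ha : D (y a) ≠ 0) :
    ∃ (O : ValuationSubring L) (b : ι), (∀ c, D c = 0 → c ∈ O) ∧ y b ≠ 0 ∧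
      O.valuation (y b)⁻¹ < 1 ∧ ∀ a, (y b)⁻¹ * y a ∈ O := by
  have : ¬ ∀ O : ValuationSubring L, (∀ z ∈ cst {D}, z ∈ O) → y a ∈ O :=
    fun h => ha (val_der {D} h D rfl)
  push Not at this
  obtain ⟨O, hO, hy⟩ := this
  have : Nonempty ι := ⟨a⟩
  obtain ⟨b, hb⟩ := Finite.exists_max fun b => O.valuation (y b)
  have h1 : 1 < O.valuation (y b) :=
    lt_of_lt_of_le (not_le.1 fun h => hy ((O.valuation_le_one_iff _).1 h)) (hb a)
  have h0 : 0 < O.valuation (y b) := lt_trans zero_lt_one h1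
  refine ⟨O, b, fun c hc => hO c fun E hE => hE ▸ hc, fun h => ?_, ?_, fun a => ?_⟩
  · rw [h, map_zero] at h0; exact lt_irrefl _ h0
  · rw [map_inv₀]; exact inv_lt_one_of_one_lt₀ h1
  · rw [← O.valuation_le_one_iff, map_mul, map_inv₀, inv_mul_le_iff₀ h0, mul_one]
    exact hb a

section core
variable {Z : Cone ℂ 6} {Ω : Type} [Field Ω] [Algebra ℂ Ω] {x h : Fin 6 → Ω}
  {M : Matrix (Fin 6) (Fin 6) Ω}

/-- the contact locus of `h` -/
def Lh (h : Fin 6 → Ω) : Submodule Ω (Fin 6 → Ω) :=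
  perp (Submodule.span Ω (insert h {u | ∃ D : Derivation ℂ Ω Ω, u = dv D h}))

theorem Lh_stab {E : Derivation ℂ Ω Ω} (hE : dv E h = 0) {v} (hv : v ∈ Lh h) : dv E v ∈ Lh h := by
  refine dv_perp E (fun n hn => dv_span E ?_ hn) hv
  rintro u (rfl | ⟨D, rfl⟩)
  · rw [hE]; exact Submodule.zero_mem _
  · have := dv_lie E D h
    rw [hE, dv_zero, sub_zero] at this
    exact Submodule.subset_span (Or.inr ⟨_, this.symm⟩)

theorem mem_Lh {v : Fin 6 → Ω} :
    v ∈ Lh h ↔ h ⬝ᵥ v = 0 ∧ ∀ D : Derivation ℂ Ω Ω, dv D h ⬝ᵥ v = 0 := by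
  refine ⟨fun hv => ⟨hv _ (Submodule.subset_span (Or.inl rfl)),
    fun D => hv _ (Submodule.subset_span (Or.inr ⟨D, rfl⟩))⟩, fun hv n hn => ?_⟩
  induction hn using Submodule.span_induction with
  | mem n hn => rcases hn with rfl | ⟨D, rfl⟩; exacts [hv.1, hv.2 D]
  | zero => exact zero_dotProduct v
  | add a b _ _ ha hb => rw [add_dotProduct, ha, hb, add_zero]
  | smul c a _ ha => rw [smul_dotProduct, ha, smul_zero]

theorem finrank_tg (h0 : x ≠ 0) (hx : On Z.I x) : finrank Ω (perp (Nm Z.I x)) = 4 := by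
  have := finrank_perp (Nm Z.I x)
  rw [Z.rk Ω x h0 hx, Fintype.card_fin] at this
  omega

/-- a line on the cone along which the tangent space is constant cannot exist generically -/
theorem caseA [IsAlgClosed Ω] (h0 : x ≠ 0) (hx : On Z.I x)
    (hT : ∀ v, Tg Z.I x v → ∃ (D : Derivation ℂ Ω Ω) (t : Ω), v = dv D x + t • x)
    {D2 : Derivation ℂ Ω Ω} {a : Fin 6 → Ω} (ha : dv D2 x = a) (li : LinearIndependent Ω ![a, x])
    (st : dv D2 a ∈ Submodule.span Ω {a, x}) (hon : ∀ v ∈ Submodule.span Ω {a, x}, On Z.I v)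
    (ker : ∀ f ∈ Z.I, hs f x *ᵥ a ∈ Nm Z.I x) :
    ∃ D : Derivation ℂ Ω Ω, dv D x ∉ Submodule.span Ω {a, x} ∧
      ∀ t ∈ perp (Nm Z.I x), dv D t ∈ perp (Nm Z.I x) := by
  set L := Submodule.span Ω {a, x} with hL
  have mx : x ∈ L := Submodule.subset_span (by simp)
  have ma : a ∈ L := Submodule.subset_span (by simp)
  have h4 := finrank_tg h0 hx
  obtain ⟨ι, t, ht, hts⟩ := ech_ex _ h4
  have tm : ∀ b, t b ∈ perp (Nm Z.I x) := fun b => hts ▸ Submodule.subset_span ⟨b, rfl⟩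
  have t0 : ∀ b, dv D2 (t b) = 0 := ht.dv D2 fun b => hts ▸ dv_perp D2 (fun n hn => dv_span D2 (by
    rintro _ ⟨f, hf, rfl⟩
    rw [dv_gr', ha]; exact ker f hf) hn) (tm b)
  have tg : ∀ y ∈ L, ∀ w ∈ perp (Nm Z.I x), Tg Z.I y w := fun y hy w hw => by
    rw [ht.repr (v := w) (hts ▸ hw), tg_iff]
    refine Submodule.sum_mem _ fun b _ => Submodule.smul_mem _ _ (tg_iff.1 (tg_of_hom ?_))
    intro f hf d hd
    rw [← eval_dir]
    refine tay {D2} L (fun D hD v hv => dv_span D ?_ hv) mx (Submodule.span_le.2 ?_) _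
      (dir_hom hd _) (fun D hD => hD ▸ cD_dir D2 f (t0 b))
      ((eval_dir _ _ _).trans (tm b _ (gr_mem hf x))) y hy
    · obtain rfl : D = D2 := hD
      rintro v (rfl | rfl)
      exacts [st, by rw [ha]; exact ma]
    · rintro v (rfl | rfl)
      exacts [Submodule.mem_sup_right (Submodule.subset_span ⟨D2, rfl, ha.symm⟩),
        Submodule.mem_sup_left (Submodule.subset_span rfl)]
  have nm : ∀ y ∈ L, y ≠ 0 → Nm Z.I y = Nm Z.I x := fun y hy hy0 =>
    Submodule.eq_of_le_of_finrank_eq (fun n hn => mem_of_perp fun w hw => tg_iff.1 (tg y hy w hw) n hn)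
      ((Z.rk Ω y hy0 (hon y hy)).trans (Z.rk Ω x h0 hx).symm)
  have key : ∀ v ∈ perp (Nm Z.I x), ∃ D : Derivation ℂ Ω Ω, L.mkQ (dv D x) = L.mkQ v :=
    fun v hv => by
      obtain ⟨D, c, rfl⟩ := hT v (tg_iff.2 hv)
      exact ⟨D, by simp [(Submodule.Quotient.mk_eq_zero L).2 mx]⟩
  obtain ⟨D, c, h1, h2⟩ := eig (L.mkQ ∘ₗ dvL ℂ x) (L.mkQ ∘ₗ dvL ℂ a) (fun D => key _ (by
      rw [← nm a ma (li.ne_zero 0)]
      exact tg_iff.1 (tg_dv (hon a ma) D))) (by
      by_contra hn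
      push Not at hn
      have : perp (Nm Z.I x) ≤ L := fun v hv => by
        obtain ⟨D, hD⟩ := key v hv
        exact (Submodule.Quotient.mk_eq_zero L).1 (hD.symm.trans (hn D))
      have h2 := Submodule.finrank_mono this
      rw [h4, hL, ← range2, finrank_span_eq_card li] at h2
      simp at h2)
  refine ⟨D, fun e => h1 ((Submodule.Quotient.mk_eq_zero L).2 e), fun w hw => ?_⟩
  have h3 : dv D a - c • dv D x ∈ L := by
    rw [← Submodule.Quotient.eq, Submodule.Quotient.mk_smul]; exact h2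
  have my : a - c • x ∈ L := L.sub_mem ma (L.smul_mem _ mx)
  have y0 : a - c • x ≠ 0 := fun e => one_ne_zero
    ((LinearIndependent.pair_iff.1 li 1 (-c) (by rw [← e, one_smul, neg_smul, sub_eq_add_neg])).1)
  have dy : dv D (a - c • x) ∈ L := by
    rw [dv_sub, dv_smul, ← sub_sub]; exact L.sub_mem h3 (L.smul_mem _ mx)
  rw [← nm _ my y0, ← tg_iff]
  intro f hf
  have := D_dot D (gr f (a - c • x)) w
  rw [tg _ my w hw f hf, map_zero, dv_gr', dotProduct_comm, bil_symm (hs_symm _ _),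
    hs_line f _ _ w fun s => tg _ (L.add_mem my (L.smul_mem s dy)) w hw f hf, zero_add] at this
  exact this.symm

theorem dd_core [IsAlgClosed Ω] {D1 D2 : Derivation ℂ Ω Ω} (h0 : x ≠ 0)
    (hx : On Z.I x) (hh : h ∈ Nm Z.I x)
    (hT : ∀ v, Tg Z.I x v → ∃ (D : Derivation ℂ Ω Ω) (t : Ω), v = dv D x + t • x)
    {j : Fin 6} (hj : h j = 1) (a1 : dv D1 x = 0) (a2 : dv D1 h ∉ Submodule.span Ω {h})
    (a3 : dv D2 h = 0) (a4 : dv D2 x ∉ Submodule.span Ω {x}) :
    ∃ v, v ∉ Submodule.span Ω {dv D2 x, x} ∧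
      ∀ u ∈ Submodule.span Ω {v, dv D2 x, x}, On Z.I u := by
  have : CharZero Ω := charZero_of_injective_algebraMap (algebraMap ℂ Ω).injective
  obtain ⟨M, r0⟩ := rep_ex hh
  have r1 := rep_der0 D1 a1 r0
  have r2 := rep_der0 D1 a1 r1
  simp only at r1 r2
  set M1 := M.map D1 with hM1
  set T := perp (Nm Z.I x) with hTT
  have hh0 : h ≠ 0 := fun e => by rw [e] at hj; exact zero_ne_one hj
  have hN : Submodule.span Ω {dv D1 h, h} = Nm Z.I x :=
    Submodule.eq_of_le_of_finrank_eq (Submodule.span_le.2 (by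
      rintro v (rfl | rfl); exacts [(rep_nm r1).1, hh])) (by
      rw [← range2, finrank_span_eq_card (li2 hh0 a2), Z.rk Ω x h0 hx]; simp)
  have dT : ∀ v ∈ T, dv D1 v ∈ T := fun v hv => dv_perp D1 (fun n hn => by
    obtain ⟨_, hM⟩ := rep_ex hn
    exact (rep_nm (rep_der0 D1 a1 hM)).1) hv
  have wd : ∀ p ∈ Rep Z.I x, ∃ α β : Ω, ∀ v ∈ T, ∀ w ∈ T,
      v ⬝ᵥ p.2 *ᵥ w = α * (v ⬝ᵥ M1 *ᵥ w) + β * (v ⬝ᵥ M *ᵥ w) := fun p hp => by
    obtain ⟨α, β, e⟩ := Submodule.mem_span_pair.1 (hN ▸ (rep_nm hp).1)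
    refine ⟨α, β, fun v hv w hw => ?_⟩
    obtain ⟨D, t, rfl⟩ := hT w (tg_iff.2 hw)
    have := rep_key (Submodule.sub_mem _ hp (Submodule.add_mem _ (Submodule.smul_mem _ α r1)
      (Submodule.smul_mem _ β r0))) hv D t
    simp only [Prod.fst_sub, Prod.snd_sub, Prod.smul_mk, Prod.mk_add_mk, e, sub_self, dv_zero,
      zero_dotProduct, sub_mulVec, add_mulVec, smul_mulVec, dotProduct_sub, dotProduct_add,
      dotProduct_smul, smul_eq_mul] at this
    linear_combination this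
  have LT : ∀ v ∈ Lh h, v ∈ T := fun v hv n hn => by
    obtain ⟨α, β, rfl⟩ := Submodule.mem_span_pair.1 (hN ▸ hn)
    rw [add_dotProduct, smul_dotProduct, smul_dotProduct, (mem_Lh.1 hv).1, (mem_Lh.1 hv).2]
    simp
  have Lk : ∀ v ∈ Lh h, ∀ w ∈ T, v ⬝ᵥ M *ᵥ w = 0 := fun v hv w hw => by
    obtain ⟨D, t, rfl⟩ := hT w (tg_iff.2 hw)
    exact (rep_key r0 (LT v hv) D t).trans ((mem_Lh.1 hv).2 D)
  have kL : ∀ v ∈ T, (∀ w ∈ T, v ⬝ᵥ M *ᵥ w = 0) → v ∈ Lh h := fun v hv hw =>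
    mem_Lh.2 ⟨hv h hh, fun D => by
      rw [← rep_key r0 hv D 0, zero_smul, add_zero]
      exact hw _ (tg_iff.1 (tg_dv hx D))⟩
  have sM := bil_symm (rep_nm r0).2
  have sM1 := bil_symm (rep_nm r1).2
  simp only at sM sM1
  have xL : x ∈ Lh h := kL x (tg_iff.1 (tg_self Z hx)) fun w hw => by
    rw [sM, dotProduct_comm]; exact hw _ (rep_self r0)
  set a := dv D2 x with ha
  have aL : a ∈ Lh h := Lh_stab a3 xL
  have hon : ∀ v ∈ Lh h, On Z.I v := by
    refine on_tay {E | dv E h = 0} _ (fun E hE v hv => Lh_stab hE hv) xL (fun v hv => ?_) hx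
    obtain ⟨D, t, e⟩ := hT v (tg_iff.2 (LT v hv))
    have : dv D h ∈ Nm Z.I x := mem_of_perp fun w hw => by
      rw [← rep_key r0 hw D t, ← e, sM]; exact Lk v hv w hw
    obtain ⟨α, β, e'⟩ := Submodule.mem_span_pair.1 (hN ▸ this)
    have hβ : β = 0 := by simpa [dv, hj] using congrFun e' j
    rw [e, add_comm]
    refine Submodule.add_mem_sup (Submodule.smul_mem _ _ (Submodule.subset_span rfl))
      (Submodule.subset_span ⟨D - α • D1, ?_, by rw [dv_sub', dv_smul', a1, smul_zero, sub_zero]⟩)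
    show dv _ h = 0
    rw [dv_sub', dv_smul', ← e', hβ, zero_smul, add_zero, sub_self]
  have li := li2 h0 a4
  have sL : Submodule.span Ω {a, x} ≤ Lh h := Submodule.span_le.2 (by
    rintro v (rfl | rfl); exacts [aL, xL])
  by_cases hL : ∃ v ∈ Lh h, v ∉ Submodule.span Ω {a, x}
  · obtain ⟨v, hv, hv'⟩ := hL
    refine ⟨v, hv', fun u hu => hon u (Submodule.span_le.2 ?_ hu)⟩
    rintro w (rfl | rfl | rfl); exacts [hv, aL, xL]
  push Not at hL
  have aT := LT a aL
  have a'T := dT a aT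
  have st : ∀ w ∈ T, dv D1 a ⬝ᵥ M *ᵥ w + a ⬝ᵥ M1 *ᵥ w = 0 := fun w hw => by
    have := D_bil D1 M a w
    rw [Lk a aL w hw, Lk a aL _ (dT w hw), map_zero, add_zero] at this
    exact this.symm
  by_cases hA : dv D1 a ∈ Lh h
  · obtain ⟨D, hD, hD'⟩ := caseA h0 hx hT ha.symm li (hL _ (Lh_stab a3 aL))
      (fun v hv => hon v (sL hv)) fun f hf => mem_of_perp fun w hw => by
        obtain ⟨α, β, e⟩ := wd _ (rep_gr hf)
        have := st w hw
        rw [Lk _ hA w hw, zero_add] at this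
        rw [dotProduct_comm, bil_symm (hs_symm f x), e a aT w hw, this, Lk a aL w hw]
        simp
    refine (hD (hL _ (kL _ (tg_iff.1 (tg_dv hx D)) fun w hw => ?_))).elim
    have e1 := rep_key r0 hw D 0
    have e2 := D_dot D h w
    rw [hw h hh, hD' w hw h hh, map_zero, add_zero] at e2
    rw [zero_smul, add_zero] at e1
    rw [sM, e1, ← e2]
  refine ⟨dv D1 a, fun e => hA (sL e), plane_on a1 ?_ fun v hv => hon v (sL hv)⟩
  have a''T := dT _ a'T
  obtain ⟨α, β, e2⟩ := wd _ r2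
  simp only at e2
  have s0 : ∀ w ∈ T, w ⬝ᵥ M *ᵥ a = 0 := fun w hw => (sM _ _).trans (Lk a aL w hw)
  have k1 : a ⬝ᵥ M1 *ᵥ a = 0 := by linear_combination st a aT - s0 _ a'T
  have k2 : a ⬝ᵥ M1 *ᵥ dv D1 a = 0 := by
    have := D_bil D1 M1 a a
    rw [k1, map_zero, e2 a aT a aT, k1, s0 a aT, sM1 (dv D1 a)] at this
    linear_combination (-1 / 2 : Ω) * this
  have k3 : dv D1 a ⬝ᵥ M *ᵥ dv D1 a = 0 := by linear_combination st _ a'T - k2
  have k4 : dv D1 a ⬝ᵥ M *ᵥ dv D1 (dv D1 a) = 0 := by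
    have e3 := D_bil D1 M (dv D1 a) (dv D1 a)
    have e4 := D_bil D1 M1 a (dv D1 a)
    rw [k3, map_zero, sM (dv D1 (dv D1 a))] at e3
    rw [k2, map_zero, e2 a aT _ a'T, k2, Lk a aL _ a'T] at e4
    linear_combination (-1 / 3 : Ω) * e3 + (1 / 3 : Ω) * e4 + (1 / 3 : Ω) * st _ a''T
  by_contra hn
  have l4 := li4 (li3 li fun e => hA (sL e)) hn
  have hsp : Submodule.span Ω (Set.range ![dv D1 (dv D1 a), dv D1 a, a, x]) = T :=
    Submodule.eq_of_le_of_finrank_eq (Submodule.span_le.2 (by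
      rintro _ ⟨i, rfl⟩
      fin_cases i
      exacts [a''T, a'T, aT, LT x xL])) (by
      rw [finrank_span_eq_card l4, finrank_tg h0 hx]; simp)
  refine hA (kL _ a'T fun w hw => ?_)
  obtain ⟨c, rfl⟩ := (Submodule.mem_span_range_iff_exists_fun Ω).1 (hsp ▸ hw)
  have k5 : dv D1 a ⬝ᵥ M *ᵥ x = 0 := (sM _ _).trans (Lk x xL _ a'T)
  simp [Fin.sum_univ_four, mulVec_add, mulVec_smul, k3, k4, k5, s0 _ a'T]

end core

end PV.DD

namespace PV
open DD

variable {Z : Cone ℂ 6} {Ω : Type} [Field Ω] [IsAlgClosed Ω] [Algebra ℂ Ω]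

variable {K : Type} [Field K] [IsAlgClosed K] [Algebra ℂ K] [Algebra K Ω] [IsScalarTower ℂ K Ω]

theorem tl (hZ : Z.Nondeg) {F : Type} [Field F] [Algebra ℂ F] (l : Fin 3 → Fin 6 → F)
    (hl : LinearIndependent F l) (hon : ∀ v ∈ Submodule.span F (Set.range l), On Z.I v)
    (h : Fin 6 → F) (h0 : h ≠ 0)
    (ht : ∀ f1 ∈ Z.I, ∀ f2 ∈ Z.I, ∀ v ∈ Submodule.span F (Set.range l),
      ¬ LinearIndependent F ![h, gr f1 v, gr f2 v]) : False := by
  have : CharZero F := charZero_of_injective_algebraMap (algebraMap ℂ F).injective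
  obtain ⟨ι, m, hm, hs⟩ := ech_ex (Submodule.span F (Set.range l))
    ((finrank_span_eq_card hl).trans (Fintype.card_fin 3))
  rw [← hs] at hon ht
  clear hs hl l
  obtain ⟨Z', hZ'⟩ := cone_map Z F
  obtain ⟨L, _, _, _, x, hx, hD, -⟩ := genpt_ex Z'
  let _ : Algebra ℂ L := ((algebraMap F L).comp (algebraMap ℂ F)).toAlgebra
  have : IsScalarTower ℂ F L := IsScalarTower.of_algebraMap_eq fun _ => rfl
  have hon' : On Z'.I x := fun f hf => (hx f).2 hf
  have hx0 : x ≠ 0 := by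
    obtain ⟨i, hi⟩ := Z'.ne
    exact fun e => hi ((hx _).1 (by simp [e]))
  have hxon : On Z.I x := fun f hf => by
    rw [← aeval_map_algebraMap F]
    exact hon' _ (hZ' ▸ Ideal.mem_map_of_mem _ hf)
  set mL : Fin 3 → Fin 6 → L := fun a i => algebraMap F L (m a i) with hmL
  have hEL : Ech ι mL := fun a b => by simp only [hmL, hm a b]; split_ifs <;> simp
  obtain ⟨v, hv, hv0⟩ : ∃ v ∈ perp (Nm Z'.I x) ⊓ Submodule.span L (Set.range mL), v ≠ 0 := by
    refine Submodule.exists_mem_ne_zero_of_ne_bot fun e => ?_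
    have e1 := Submodule.finrank_sup_add_finrank_inf_eq (perp (Nm Z'.I x))
      (Submodule.span L (Set.range mL))
    have e2 := finrank_perp (Nm Z'.I x)
    have e3 := Submodule.finrank_le (perp (Nm Z'.I x) ⊔ Submodule.span L (Set.range mL))
    rw [e, finrank_bot, finrank_span_eq_card hEL.li] at e1
    rw [Z'.rk L x hx0 hon'] at e2
    simp only [Fintype.card_fin, finrank_fintype_fun_eq_card] at e1 e2 e3
    omega
  obtain ⟨D, hDv⟩ := hD v (tg_iff.2 hv.1)
  have hrep := hEL.repr hv.2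
  obtain ⟨a, ha⟩ : ∃ a, D (x (ι a)) ≠ 0 := by
    by_contra hn
    push Not at hn
    refine hv0 (hrep.trans (Finset.sum_eq_zero fun a _ => ?_))
    rw [← hDv, show dv D x (ι a) = 0 from hn a, zero_smul]
  obtain ⟨O, b, hO, hb0, hb1, hb⟩ := pole D (fun a => x (ι a)) ha
  set w : Fin 6 → L := fun i => x i - ∑ a, mL a i * x (ι a) with hw
  have hDw : ∀ i, D (w i) = 0 := fun i => by
    have := congrFun hrep i
    rw [← hDv] at this
    simp only [dv, Finset.sum_apply, Pi.smul_apply, smul_eq_mul] at this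
    simp only [hw, hmL, map_sub, map_sum, Derivation.leibniz, Derivation.map_algebraMap,
      smul_eq_mul, mul_zero, add_zero, this, mul_comm (D _), sub_self]
  let φ : F →+* O := (algebraMap F L).codRestrict O fun c => hO _ (D.map_algebraMap c)
  let _ : Algebra ℂ O := (φ.comp (algebraMap ℂ F)).toAlgebra
  let _ : Algebra ℂ (IsLocalRing.ResidueField O) :=
    ((IsLocalRing.residue O).comp (algebraMap ℂ O)).toAlgebra
  let ψ : O →ₐ[ℂ] IsLocalRing.ResidueField O := ⟨IsLocalRing.residue O, fun _ => rfl⟩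
  let j : O →ₐ[ℂ] L := ⟨O.subtype, fun _ => rfl⟩
  let y : Fin 3 → O := fun a => ⟨_, hb a⟩
  let z : Fin 6 → O := fun i => ∑ a, φ (m a i) * y a
  let t : O := ⟨(x (ι b))⁻¹, (O.valuation_le_one_iff _).1 hb1.le⟩
  have tr : ∀ f : MvPolynomial (Fin 6) ℂ,
      eval₂ φ z (MvPolynomial.map (algebraMap ℂ F) f) = aeval z f := fun f => eval₂_map _ _ _ _
  have h1 : ∀ f ∈ Z.I, aeval z f = 0 := fun f hf => by
    rw [← tr]
    exact transfer m _ (fun v hv => by rw [eval_map, ← aeval_def]; exact hon v hv f hf) φ y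
  have key := tl_core (I := Z.I) ψ z (fun i => ⟨w i, hO _ (hDw i)⟩) (fun i => φ (h i)) t
    (fun e => inv_ne_zero hb0 (congrArg Subtype.val e))
    ((IsLocalRing.residue_eq_zero_iff _).2 ((O.valuation_lt_one_iff _).2 hb1)) h1
    (fun f hf => by
      apply Subtype.val_injective
      refine (comp_aeval_apply _ j f).trans ?_
      refine Eq.trans ?_ (on_smul Z hxon (x (ι b))⁻¹ f hf)
      congr 2
      funext i
      simp only [j, z, y, t, φ, hw, hmL, AlgHom.coe_mk, Pi.add_apply, Pi.smul_apply, smul_eq_mul,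
        map_add, map_mul, ValuationSubring.coe_subtype, RingHom.codRestrict_apply,
        Fin.sum_univ_three]
      ring)
    (fun f1 m1 f2 m2 i i' k => by
      have := transfer m (m3 (fun i => C (h i))
        (fun i => MvPolynomial.map (algebraMap ℂ F) (pderiv i f1))
        (fun i => MvPolynomial.map (algebraMap ℂ F) (pderiv i f2)) i i' k) (fun v hv => by
          rw [← m3_of_dep (ht f1 m1 f2 m2 v hv) i i' k]
          simp [m3, gr, eval_map, aeval_def]) φ y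
      rw [← this]
      simp only [m3, eval₂_add, eval₂_sub, eval₂_mul, eval₂_C, ← tr, z])
    (Z.rk _ _ (fun e => by
      have e1 : z (ι b) = 1 := by
        apply Subtype.val_injective
        simp only [z, hm _ b]
        rw [Finset.sum_eq_single b] <;> simp +contextual [y, hb0]
      have := congrFun e (ι b)
      simp [e1] at this) fun f hf => by rw [← comp_aeval_apply, h1 f hf, map_zero])
  have hhw : (fun i => algebraMap F L (h i)) ⬝ᵥ w = 0 := by
    by_contra hne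
    have hc : D ((fun i => algebraMap F L (h i)) ⬝ᵥ w) = 0 := by
      simp [dotProduct, hDw]
    refine (IsLocalRing.mem_maximalIdeal _).1 ((IsLocalRing.residue_eq_zero_iff _).1 key)
      (IsUnit.of_mul_eq_one ⟨_, hO _ (by rw [D.leibniz_inv, hc, smul_zero])⟩ ?_)
    apply Subtype.val_injective
    refine Eq.trans ?_ (mul_inv_cancel₀ hne)
    simp [dotProduct, φ]
  have hhm : ∀ a, h ⬝ᵥ m a = 0 := fun a =>
    have ha : m a ∈ Submodule.span F (Set.range m) := Submodule.subset_span ⟨a, rfl⟩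
    dot_of_m3 (Z.rk F _ (hm.li.ne_zero a) (hon _ ha))
      (fun f1 m1 f2 m2 => m3_of_dep (ht f1 m1 f2 m2 _ ha)) (tg_self Z (hon _ ha))
  refine h0 (nondeg_ext hZ (hZ' ▸ (hx _).1 ?_))
  rw [aeval_lin]
  have e : x = w + ∑ a, x (ι a) • mL a := by
    funext i; simp [hw, mul_comm]
  rw [e, dotProduct_add, hhw, zero_add, dotProduct_sum]
  refine Finset.sum_eq_zero fun a _ => ?_
  have := congrArg (algebraMap F L) (hhm a)
  simp only [dotProduct, map_sum, map_mul, map_zero] at this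
  rw [dotProduct_smul, show (fun i => algebraMap F L (h i)) ⬝ᵥ mL a = 0 from this, smul_zero]

theorem dd_plane (hZ : Z.Nondeg) {x h : Fin 6 → Ω} {D1 D2 : Derivation ℂ Ω Ω} (h0 : x ≠ 0)
    (hx : On Z.I x) (hh : h ∈ Nm Z.I x)
    (hT : ∀ v, Tg Z.I x v → ∃ (D : Derivation ℂ Ω Ω) (t : Ω), v = dv D x + t • x)
    (a1 : dv D1 x = 0) (a2 : dv D1 h ∉ Submodule.span Ω {h})
    (a3 : dv D2 h ∈ Submodule.span Ω {h}) (a4 : dv D2 x ∉ Submodule.span Ω {x}) :
    ∃ l : Fin 3 → Fin 6 → Ω, LinearIndependent Ω l ∧ x ∈ Submodule.span Ω (Set.range l) ∧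
      ∀ v ∈ Submodule.span Ω (Set.range l), On Z.I v := by
  have _ := hZ
  obtain ⟨j, hj⟩ : ∃ j, h j ≠ 0 := Function.ne_iff.1 fun e : h = 0 => a2 (by
    rw [e, dv_zero]; exact Submodule.zero_mem _)
  have m0 : h ∈ Submodule.span Ω {h} := Submodule.subset_span rfl
  have e1 : ((h j)⁻¹ • h) j = 1 := inv_mul_cancel₀ hj
  obtain ⟨v, hv, hon⟩ := dd_core (D1 := D1) (D2 := D2) h0 hx (Submodule.smul_mem _ (h j)⁻¹ hh) hT
    e1 a1 (fun e => a2 (by
      have := Submodule.sub_mem _ (Submodule.span_le.2 (Set.singleton_subset_iff.2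
        (Submodule.smul_mem _ _ m0)) e) (Submodule.smul_mem _ (D1 (h j)⁻¹) m0)
      rw [dv_smul, add_sub_cancel_right] at this
      exact (Submodule.smul_mem_iff _ (inv_ne_zero hj)).1 this)) (by
      have : dv D2 ((h j)⁻¹ • h) ∈ Submodule.span Ω {h} := by
        rw [dv_smul]
        exact Submodule.add_mem _ (Submodule.smul_mem _ _ a3) (Submodule.smul_mem _ _ m0)
      obtain ⟨c, hc⟩ := Submodule.mem_span_singleton.1 this
      have e2 := congrFun hc j
      rw [dv, e1, Derivation.map_one_eq_zero] at e2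
      rw [← hc, (mul_eq_zero.1 e2).resolve_right hj, zero_smul]) a4
  refine ⟨![v, dv D2 x, x], li3 (li2 h0 a4) hv, Submodule.subset_span ⟨2, rfl⟩, ?_⟩
  rwa [range3]

end PV
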