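import Pool.Agent.Lib.MP_36fb43_ag.Bas

open MvPolynomial Matrix Module

namespace PV.D2

section ring
variable {σ R S : Type} [Fintype σ] [CommRing R] [Algebra ℂ R] [CommRing S] [Algebra ℂ S]

/-- directional derivative over a ring -/
noncomputable def dg (f : MvPolynomial σ ℂ) (y w : σ → R) : R :=
  ∑ i, aeval y (pderiv i f) * w i

theorem dg_add (f : MvPolynomial σ ℂ) (y w w' : σ → R) :
    dg f y (w + w') = dg f y w + dg f y w' := by
  simp [dg, mul_add, Finset.sum_add_distrib]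

theorem dg_smul (f : MvPolynomial σ ℂ) (y w : σ → R) (c : R) :
    dg f y (c • w) = c * dg f y w := by
  simp [dg, Finset.mul_sum, mul_left_comm]

omit [Fintype σ] in
theorem map_ae (ψ : R →ₐ[ℂ] S) (f : MvPolynomial σ ℂ) (y : σ → R) :
    ψ (aeval y f) = aeval (ψ ∘ y) f := by
  rw [← AlgHom.comp_apply, comp_aeval]; rfl

theorem map_dg (ψ : R →ₐ[ℂ] S) (f : MvPolynomial σ ℂ) (y w : σ → R) :
    ψ (dg f y w) = dg f (ψ ∘ y) (ψ ∘ w) := by
  simp [dg, map_sum, map_ae]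

theorem taylor2 (f : MvPolynomial σ ℂ) (y w : σ → R) (c : R) :
    ∃ r, aeval (y + c • w) f = aeval y f + c * dg f y w + c ^ 2 * r := by
  classical
  induction f using MvPolynomial.induction_on with
  | C a => exact ⟨0, by simp [dg]⟩
  | add f g hf hg =>
    obtain ⟨r, hr⟩ := hf
    obtain ⟨s, hs⟩ := hg
    refine ⟨r + s, ?_⟩
    have : dg (f + g) y w = dg f y w + dg g y w := by
      simp [dg, add_mul, Finset.sum_add_distrib]
    rw [map_add, map_add, hr, hs, this]; ring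
  | mul_X f i hf =>
    obtain ⟨r, hr⟩ := hf
    refine ⟨r * y i + dg f y w * w i + c * r * w i, ?_⟩
    have : dg (f * X i) y w = dg f y w * y i + aeval y f * w i := by
      simp only [dg, Derivation.leibniz, smul_eq_mul, map_add, map_mul, aeval_X, add_mul,
        Finset.sum_add_distrib, Finset.sum_mul]
      rw [add_comm]
      congr 1
      · exact Finset.sum_congr rfl fun j _ => by ring
      · rw [Finset.sum_eq_single i]
        · simp
        · intro j _ hj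
          simp [pderiv_X, hj.symm]
        · simp
    rw [map_mul, map_mul, aeval_X, aeval_X, hr, this, Pi.add_apply, Pi.smul_apply, smul_eq_mul]
    ring

theorem map_vecMul' {ι : Type} [Fintype ι] {τ : Type} (ψ : R →ₐ[ℂ] S) (α : ι → R)
    (L : Matrix ι τ R) : ψ ∘ (α ᵥ* L) = (ψ ∘ α) ᵥ* L.map ψ := by
  ext i
  simp [vecMul, dotProduct, map_sum]

end ring

section field
variable {σ F : Type} [Fintype σ] [Field F] [Algebra ℂ F]

theorem dg_eq (f : MvPolynomial σ ℂ) (y w : σ → F) : dg f y w = gr f y ⬝ᵥ w := rfl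

theorem inf_F : Infinite F := Infinite.of_injective _ (algebraMap ℂ F).injective

/-- evaluation of polynomials as a map of complex algebras -/
noncomputable def ev (s : F) : Polynomial F →ₐ[ℂ] F := (Polynomial.aeval s).restrictScalars ℂ

omit [Fintype σ] in
theorem ev_line (s : F) (y w : σ → F) :
    ev s ∘ ((Polynomial.C ∘ y) + (Polynomial.X : Polynomial F) • (Polynomial.C ∘ w)) =
      y + s • w := by
  ext i
  simp [ev]
  exact mul_comm _ _

theorem poly_zero {p : Polynomial F} (a : F) (h : ∀ s, s ≠ a → ev s p = 0) : p = 0 := by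
  have := inf_F (F := F)
  refine Polynomial.eq_zero_of_infinite_isRoot p (Set.Infinite.mono (s := {a}ᶜ) (fun s hs => ?_)
    (Set.finite_singleton a).infinite_compl)
  have := h s hs
  simpa [ev] using this

/-- a line inside the zero set is tangent -/
theorem tan_line (f : MvPolynomial σ ℂ) (y w : σ → F) (h : ∀ s : F, aeval (y + s • w) f = 0) :
    gr f y ⬝ᵥ w = 0 := by
  obtain ⟨r, hr⟩ := taylor2 f (Polynomial.C ∘ y) (Polynomial.C ∘ w) (Polynomial.X : Polynomial F)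
  have h0 : aeval ((Polynomial.C ∘ y) + (Polynomial.X : Polynomial F) • (Polynomial.C ∘ w)) f = 0 :=
    poly_zero 0 fun s _ => by rw [map_ae, ev_line, h]
  have e1 := map_ae ((Polynomial.CAlgHom (R := F) (A := F)).restrictScalars ℂ) f y
  have e2 := map_dg ((Polynomial.CAlgHom (R := F) (A := F)).restrictScalars ℂ) f y w
  change Polynomial.C _ = aeval (Polynomial.C ∘ y) f at e1
  change Polynomial.C _ = dg f (Polynomial.C ∘ y) (Polynomial.C ∘ w) at e2
  rw [h0, ← e1, ← e2] at hr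
  have := congrArg (fun p => Polynomial.coeff p 1) hr
  rw [← dg_eq]
  generalize aeval y f = a at this
  generalize dg f y w = b at this
  simpa [Polynomial.coeff_X_pow_mul'] using this.symm

/-- tangency to a fixed vector is a closed condition along a line -/
theorem tan_cont (f : MvPolynomial σ ℂ) (y w v : σ → F) (a : F)
    (h : ∀ s, s ≠ a → gr f (y + s • w) ⬝ᵥ v = 0) : gr f y ⬝ᵥ v = 0 := by
  have e : ∀ s, ev s (dg f ((Polynomial.C ∘ y) + (Polynomial.X : Polynomial F) •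
      (Polynomial.C ∘ w)) (Polynomial.C ∘ v)) = gr f (y + s • w) ⬝ᵥ v := fun s => by
    rw [map_dg, ev_line, ← dg_eq]
    congr 1
    ext i
    simp [ev]
  have h0 := poly_zero a fun s hs => (e s).trans (h s hs)
  have := e 0
  rw [h0, map_zero, zero_smul, add_zero] at this
  exact this.symm

theorem tg_span {Z : Cone ℂ 6} {y w : Fin 6 → F} (h0 : y ≠ 0) (hy : On Z.I y)
    (L : Matrix (Fin 3) (Fin 6) F) (hL : ∀ γ, Tg Z.I y (γ ᵥ* L)) (hw : Tg Z.I y w)
    (hi : ∀ (γ : Fin 3 → F) (t : F), γ ᵥ* L + t • w = 0 → γ = 0 ∧ t = 0) {v : Fin 6 → F}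
    (hv : Tg Z.I y v) : ∃ (γ : Fin 3 → F) (t : F), v = γ ᵥ* L + t • w := by
  let g : (Fin 3 → F) × F →ₗ[F] (Fin 6 → F) :=
    (vecMulLinear L).coprod (LinearMap.toSpanSingleton F _ w)
  have hg : ∀ p, g p = p.1 ᵥ* L + p.2 • w := fun p => rfl
  have hinj : Function.Injective g := by
    rw [injective_iff_map_eq_zero]
    intro p hp
    obtain ⟨a, b⟩ := hi p.1 p.2 hp
    exact Prod.ext a b
  have h1 : finrank F (LinearMap.range g) = 4 := by
    rw [LinearMap.finrank_range_of_inj hinj]; simp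
  have h2 := finrank_tg Z h0 hy
  have h3 : LinearMap.range g = perp (Nm Z.I y) := by
    refine Submodule.eq_of_le_of_finrank_eq ?_ (by omega)
    rintro _ ⟨p, rfl⟩
    exact add_mem (tg_iff.1 (hL _)) (Submodule.smul_mem _ _ (tg_iff.1 hw))
  obtain ⟨p, hp⟩ : v ∈ LinearMap.range g := h3 ▸ tg_iff.1 hv
  exact ⟨p.1, p.2, hp.symm⟩

theorem tg_plane {I : Ideal (MvPolynomial σ ℂ)} {L : Matrix (Fin 3) σ F}
    (h : ∀ α, On I (α ᵥ* L)) (α γ : Fin 3 → F) : Tg I (α ᵥ* L) (γ ᵥ* L) := fun f hf =>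
  tan_line f _ _ fun s => by
    rw [← smul_vecMul, ← add_vecMul]; exact h _ f hf

end field

/-- coordinates adapted to a plane and its first order deformation -/
structure Co (R : Type) [CommRing R] where
  L : Matrix (Fin 3) (Fin 6) R
  M : Matrix (Fin 3) (Fin 6) R
  U : Matrix (Fin 6) (Fin 3) R
  W : Matrix (Fin 6) (Fin 3) R
  LU : L * U = 1
  LW : L * W = 0
  MU : M * U = 0
  MW : M * W = 1
  dec : U * L + W * M = 1

section co
variable {R S : Type} [CommRing R] [Algebra ℂ R] [CommRing S] [Algebra ℂ S]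

/-- transport of coordinates -/
def Co.map (c : Co R) (ψ : R →ₐ[ℂ] S) : Co S where
  L := c.L.map ψ
  M := c.M.map ψ
  U := c.U.map ψ
  W := c.W.map ψ
  LU := by rw [← Matrix.map_mul, c.LU, Matrix.map_one _ (map_zero ψ) (map_one ψ)]
  LW := by rw [← Matrix.map_mul, c.LW, Matrix.map_zero _ (map_zero ψ)]
  MU := by rw [← Matrix.map_mul, c.MU, Matrix.map_zero _ (map_zero ψ)]
  MW := by rw [← Matrix.map_mul, c.MW, Matrix.map_one _ (map_zero ψ) (map_one ψ)]
  dec := by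
    rw [← Matrix.map_mul, ← Matrix.map_mul, ← Matrix.map_add _ (map_add ψ), c.dec,
      Matrix.map_one _ (map_zero ψ) (map_one ψ)]

omit [Algebra ℂ R] in
theorem Co.cU (c : Co R) (α β : Fin 3 → R) : (α ᵥ* c.L + β ᵥ* c.M) ᵥ* c.U = α := by
  rw [add_vecMul, vecMul_vecMul, vecMul_vecMul, c.LU, c.MU]; simp

omit [Algebra ℂ R] in
theorem Co.cW (c : Co R) (α β : Fin 3 → R) : (α ᵥ* c.L + β ᵥ* c.M) ᵥ* c.W = β := by
  rw [add_vecMul, vecMul_vecMul, vecMul_vecMul, c.LW, c.MW]; simp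

omit [Algebra ℂ R] in
theorem Co.eq (c : Co R) (v : Fin 6 → R) : v = (v ᵥ* c.U) ᵥ* c.L + (v ᵥ* c.W) ᵥ* c.M := by
  rw [vecMul_vecMul, vecMul_vecMul, ← vecMul_add, c.dec, vecMul_one]

/-- the plane lies in the zero set and the deformation is tangent -/
def Co.Fr (c : Co R) (I : Ideal (MvPolynomial (Fin 6) ℂ)) : Prop :=
  ∀ f ∈ I, ∀ α : Fin 3 → R, aeval (α ᵥ* c.L) f = 0 ∧ dg f (α ᵥ* c.L) (α ᵥ* c.M) = 0

theorem on_map {F : Type} [Field F] [Algebra ℂ F] (ψ : F →ₐ[ℂ] S) (L M : Matrix (Fin 3) (Fin 6) F)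
    (f : MvPolynomial (Fin 6) ℂ) :
    ((∀ α : Fin 3 → F, aeval (α ᵥ* L) f = 0) → ∀ α : Fin 3 → S, aeval (α ᵥ* L.map ψ) f = 0) ∧
    ((∀ α : Fin 3 → F, dg f (α ᵥ* L) (α ᵥ* M) = 0) →
      ∀ α : Fin 3 → S, dg f (α ᵥ* L.map ψ) (α ᵥ* M.map ψ) = 0) := by
  have := inf_F (F := F)
  have key : ∀ {T : Type} [CommRing T] [Algebra ℂ T] (φ : F →ₐ[ℂ] T) (α : Fin 3 → T)
      (N : Matrix (Fin 3) (Fin 6) F), aevalTower φ α ∘ ((X : Fin 3 → MvPolynomial (Fin 3) F) ᵥ*
        N.map C) = α ᵥ* N.map φ := by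
    intro T _ _ φ α N
    ext i
    simp [vecMul, dotProduct, map_sum]
  have hev : ∀ (α : Fin 3 → F) (p : MvPolynomial (Fin 3) F),
      aevalTower (AlgHom.id ℂ F) α p = eval α p := fun α p => rfl
  have hid : ∀ N : Matrix (Fin 3) (Fin 6) F, N.map (AlgHom.id ℂ F) = N := fun N => rfl
  constructor
  · intro h α
    have h0 : aeval ((X : Fin 3 → MvPolynomial (Fin 3) F) ᵥ* L.map C) f = 0 :=
      MvPolynomial.funext fun a => by rw [← hev, map_ae, key, hid, h, map_zero]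
    rw [← key, ← map_ae, h0, map_zero]
  · intro h α
    have h0 : dg f ((X : Fin 3 → MvPolynomial (Fin 3) F) ᵥ* L.map C)
        ((X : Fin 3 → MvPolynomial (Fin 3) F) ᵥ* M.map C) = 0 :=
      MvPolynomial.funext fun a => by rw [← hev, map_dg, key, key, hid, hid, h, map_zero]
    rw [← key, ← key, ← map_dg, h0, map_zero]

theorem Co.Fr.map {F : Type} [Field F] [Algebra ℂ F] {c : Co F}
    {I : Ideal (MvPolynomial (Fin 6) ℂ)} (h : c.Fr I) (ψ : F →ₐ[ℂ] S) : (c.map ψ).Fr I :=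
  fun f hf α => ⟨(on_map ψ c.L c.M f).1 (fun a => (h f hf a).1) α,
    (on_map ψ c.L c.M f).2 (fun a => (h f hf a).2) α⟩

end co

section fr
variable {F : Type} [Field F] [Algebra ℂ F] {Z : Cone ℂ 6} {c : Co F}

theorem Co.Fr.par (h : c.Fr Z.I) {α : Fin 3 → F} (h0 : α ≠ 0) {v : Fin 6 → F}
    (hv : Tg Z.I (α ᵥ* c.L) v) : ∃ t : F, v ᵥ* c.W = t • α := by
  have hon : ∀ a, On Z.I (a ᵥ* c.L) := fun a f hf => (h f hf a).1
  have hne : α ᵥ* c.L ≠ 0 := fun e => h0 (by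
    have := c.cU α 0
    rw [e, zero_vecMul, add_zero, zero_vecMul] at this
    exact this.symm)
  obtain ⟨γ, t, rfl⟩ := tg_span hne (hon α) c.L (tg_plane hon α) (w := α ᵥ* c.M)
    (fun f hf => (h f hf α).2) (fun γ t e => by
      rw [← smul_vecMul] at e
      have e1 := c.cU γ (t • α)
      have e2 := c.cW γ (t • α)
      rw [e, zero_vecMul] at e1 e2
      exact ⟨e1.symm, (smul_eq_zero.1 e2.symm).resolve_right h0⟩) hv
  exact ⟨t, by rw [← smul_vecMul, c.cW]⟩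

/-- a plane in the zero set that meets the given plane is equal to it -/
theorem Co.Fr.plane (h : c.Fr Z.I) (P Q : Matrix (Fin 3) (Fin 3) F)
    (hi : ∀ y, y ᵥ* P = 0 → y ᵥ* Q = 0 → y = 0) (hon : ∀ y, On Z.I (y ᵥ* (P * c.L + Q * c.M))) :
    Q.det ≠ 0 ∨ Q = 0 := by
  by_contra hc
  rw [not_or, not_not] at hc
  obtain ⟨hd, hQ⟩ := hc
  have ex : ∀ y : Fin 3 → F, y ᵥ* (P * c.L + Q * c.M) = (y ᵥ* P) ᵥ* c.L + (y ᵥ* Q) ᵥ* c.M :=
    fun y => by rw [vecMul_add, vecMul_vecMul, vecMul_vecMul]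
  have key : ∀ y : Fin 3 → F, y ≠ 0 → y ᵥ* Q = 0 → ∀ z, ∃ t : F, z ᵥ* Q = t • (y ᵥ* P) := by
    intro y hy hyQ z
    have h1 := tg_plane hon y z
    rw [ex y, hyQ, zero_vecMul, add_zero] at h1
    obtain ⟨t, ht⟩ := h.par (fun e => hy (hi y e hyQ)) h1
    exact ⟨t, by rw [← ht, ex, c.cW]⟩
  obtain ⟨y0, hy0, hyQ⟩ := exists_vecMul_eq_zero_iff.2 hd
  obtain ⟨r, k, hk⟩ : ∃ r k, Q r k ≠ 0 := by
    by_contra hn
    push Not at hn
    exact hQ (Matrix.ext hn)
  have hrow : (Pi.single r (1 : F) ᵥ* Q) k ≠ 0 := by simpa using hk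
  let g : (Fin 3 → F) →ₗ[F] F × F :=
    ((LinearMap.proj k).comp (vecMulLinear P)).prod ((LinearMap.proj k).comp (vecMulLinear Q))
  obtain ⟨z, hz, hz0⟩ := (Submodule.ne_bot_iff _).1 (g.ker_ne_bot_of_finrank_lt (by simp))
  have hP : (z ᵥ* P) k = 0 := congrArg Prod.fst hz
  have hQ' : (z ᵥ* Q) k = 0 := congrArg Prod.snd hz
  obtain ⟨t, ht⟩ := key y0 hy0 hyQ (Pi.single r 1)
  obtain ⟨s, hs⟩ := key y0 hy0 hyQ z
  have hk0 : (y0 ᵥ* P) k ≠ 0 := fun e => hrow (by rw [ht, Pi.smul_apply, e, smul_zero])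
  have hs0 : s = 0 := by
    rw [hs, Pi.smul_apply, smul_eq_mul] at hQ'
    exact (mul_eq_zero.1 hQ').resolve_right hk0
  rw [hs0, zero_smul] at hs
  obtain ⟨u, hu⟩ := key z hz0 hs (Pi.single r 1)
  exact hrow (by rw [hu, Pi.smul_apply, hP, smul_zero])

theorem Co.Fr.scalar (h : c.Fr Z.I) (A : Matrix (Fin 3) (Fin 3) F) (h0 : A 0 0 = 0)
    (hA : ∀ α, Tg Z.I (α ᵥ* c.L) ((α ᵥ* A) ᵥ* c.M)) : A = 0 := by
  have key : ∀ α : Fin 3 → F, α ≠ 0 → ∃ t : F, α ᵥ* A = t • α := fun α hα => by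
    obtain ⟨t, ht⟩ := h.par hα (hA α)
    exact ⟨t, by rw [← ht, vecMul_vecMul (α ᵥ* A), c.MW, vecMul_one]⟩
  have off : ∀ i j, i ≠ j → A i j = 0 := fun i j hij => by
    obtain ⟨t, ht⟩ := key (Pi.single i 1) (by simp)
    simpa [hij.symm] using congrFun ht j
  obtain ⟨t, ht⟩ := key (fun _ => 1) (fun e => one_ne_zero (congrFun e 0))
  have dia : ∀ i, A i i = t := fun i => by
    have := congrFun ht i
    simp only [vecMul, dotProduct, one_mul, Pi.smul_apply, smul_eq_mul, mul_one] at this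
    rw [← this, Finset.sum_eq_single i (fun j _ hj => off j i hj) (by simp)]
  ext i j
  by_cases hij : i = j
  · rw [hij, dia, ← dia 0, h0]; rfl
  · exact off i j hij

end fr

end PV.D2
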