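import Pool.Agent.Lib.MP_36fb43_ag.DD1
import Pool.Agent.Lib.MP_36fb43_ag.DD2A

open MvPolynomial Matrix Module

namespace PV.D2

variable {Z : Cone ℂ 6} {Ω : Type} [Field Ω] [Algebra ℂ Ω]

omit [Algebra ℂ Ω] in
theorem co_ex (L M : Matrix (Fin 3) (Fin 6) Ω)
    (h : ∀ α β : Fin 3 → Ω, α ᵥ* L + β ᵥ* M = 0 → α = 0 ∧ β = 0) :
    ∃ c : Co Ω, c.L = L ∧ c.M = M := by
  have hinj : LinearMap.ker (vecMulLinear (fromRows L M)) = ⊥ := by
    rw [LinearMap.ker_eq_bot']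
    intro v hv
    rw [vecMulLinear_apply, vecMul_fromRows] at hv
    obtain ⟨h1, h2⟩ := h _ _ hv
    ext (a | a)
    · exact congrFun h1 a
    · exact congrFun h2 a
  obtain ⟨g, hg⟩ := LinearMap.exists_leftInverse_of_injective _ hinj
  let S : Matrix (Fin 6) (Fin 3 ⊕ Fin 3) Ω := LinearMap.toMatrixRight' g
  have hS : fromRows L M * S = 1 := by
    apply Matrix.vecMul_injective
    ext1 v
    have e : ∀ w, w ᵥ* S = g w := fun w => by
      rw [← toLinearMapRight'_apply]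
      exact LinearMap.congr_fun (LinearMap.toMatrixRight'.symm_apply_apply g) w
    change v ᵥ* _ = v ᵥ* _
    rw [← vecMul_vecMul, e, vecMul_one]
    exact LinearMap.congr_fun hg v
  have hS' : S * fromRows L M = 1 :=
    (mul_eq_one_comm_of_equiv (finSumFinEquiv : Fin 3 ⊕ Fin 3 ≃ Fin 6)).1 hS
  rw [← fromCols_toCols S] at hS hS'
  rw [fromRows_mul_fromCols, ← fromBlocks_one, fromBlocks_inj] at hS
  rw [fromCols_mul_fromRows] at hS'
  exact ⟨⟨L, M, _, _, hS.1, hS.2.1, hS.2.2.1, hS.2.2.2, hS'⟩, rfl, rfl⟩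

omit [Algebra ℂ Ω] in
theorem mem_span_iff (l : Fin 3 → Fin 6 → Ω) (v : Fin 6 → Ω) :
    v ∈ Submodule.span Ω (Set.range l) ↔ ∃ α : Fin 3 → Ω, v = α ᵥ* Matrix.of l := by
  rw [Submodule.mem_span_range_iff_exists_fun]
  refine exists_congr fun α => ?_
  rw [vecMul_eq_sum, eq_comm]
  rfl

theorem dv_vecMul (D : Derivation ℂ Ω Ω) (α : Fin 3 → Ω) (L : Matrix (Fin 3) (Fin 6) Ω) :
    dv D (α ᵥ* L) = dv D α ᵥ* L + α ᵥ* L.map D := by
  ext i
  exact D_dot D α fun a => L a i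

theorem tg_add {x v w : Fin 6 → Ω} (hv : Tg Z.I x v) (hw : Tg Z.I x w) : Tg Z.I x (v + w) :=
  fun f hf => by rw [dotProduct_add, hv f hf, hw f hf, add_zero]

theorem tg_sub {x v w : Fin 6 → Ω} (hv : Tg Z.I x v) (hw : Tg Z.I x w) : Tg Z.I x (v - w) :=
  fun f hf => by rw [dotProduct_sub, hv f hf, hw f hf, sub_zero]

theorem tg_smul {x v : Fin 6 → Ω} (t : Ω) (hv : Tg Z.I x v) : Tg Z.I x (t • v) :=
  fun f hf => by rw [dotProduct_smul, hv f hf, smul_zero]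

theorem tg_of_smul {x v : Fin 6 → Ω} {t : Ω} (ht : t ≠ 0) (hv : Tg Z.I x (t • v)) : Tg Z.I x v := by
  have := tg_smul t⁻¹ hv
  rwa [smul_smul, inv_mul_cancel₀ ht, one_smul] at this

/-- the first order deformation of the plane is an isomorphism onto the quotient -/
theorem fr_ex [IsAlgClosed Ω] (hZ : Z.Nondeg) {x : Fin 6 → Ω} (h0 : x ≠ 0)
    (hT : ∀ v, Tg Z.I x v → ∃ (D : Derivation ℂ Ω Ω) (t : Ω), v = dv D x + t • x)
    (l : Fin 3 → Fin 6 → Ω) (hl : LinearIndependent Ω l)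
    (hx : x ∈ Submodule.span Ω (Set.range l))
    (hon : ∀ v ∈ Submodule.span Ω (Set.range l), On Z.I v) :
    ∃ c : Co Ω, c.Fr Z.I ∧ x ᵥ* c.W = 0 := by
  set L : Matrix (Fin 3) (Fin 6) Ω := Matrix.of l with hL
  have hon' : ∀ α, On Z.I (α ᵥ* L) := fun α => hon _ ((mem_span_iff l _).2 ⟨α, rfl⟩)
  have hinj : ∀ α : Fin 3 → Ω, α ᵥ* L = 0 → α = 0 := fun α hα =>
    Matrix.vecMul_injective_iff.2 hl (hα.trans (zero_vecMul _).symm)
  obtain ⟨α0, hα0⟩ := (mem_span_iff l x).1 hx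
  rw [← hL] at hα0
  obtain ⟨v, hv, hv'⟩ : ∃ v, Tg Z.I x v ∧ v ∉ Submodule.span Ω (Set.range l) := by
    by_contra hc
    push Not at hc
    have h1 : perp (Nm Z.I x) ≤ Submodule.span Ω (Set.range l) := fun v hv => hc v (tg_iff.2 hv)
    have h2 := Submodule.finrank_mono h1
    have h3 := finrank_tg Z h0 (hon x hx)
    rw [finrank_span_eq_card hl, Fintype.card_fin] at h2
    omega
  obtain ⟨D, t, rfl⟩ := hT v hv
  set M : Matrix (Fin 3) (Fin 6) Ω := L.map D with hM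
  have htg : ∀ α, Tg Z.I (α ᵥ* L) (α ᵥ* M) := fun α => by
    have h1 := tg_sub (tg_dv (hon' α) D D.map_algebraMap) (tg_plane hon' α (dv D α))
    rwa [dv_vecMul, add_sub_cancel_left] at h1
  have hw : ∀ γ : Fin 3 → Ω, α0 ᵥ* M ≠ γ ᵥ* L := fun γ e => hv' (by
    refine add_mem ?_ (Submodule.smul_mem _ _ hx)
    rw [hα0, dv_vecMul, ← hM, e, ← add_vecMul]
    exact (mem_span_iff l _).2 ⟨_, rfl⟩)
  have hi : ∀ (γ : Fin 3 → Ω) (s : Ω), γ ᵥ* L + s • (α0 ᵥ* M) = 0 → γ = 0 ∧ s = 0 := by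
    intro γ s e
    by_cases hs : s = 0
    · rw [hs, zero_smul, add_zero] at e
      exact ⟨hinj γ e, hs⟩
    · refine absurd ?_ (hw (-s⁻¹ • γ))
      rw [smul_vecMul, eq_neg_of_add_eq_zero_left e, smul_neg, neg_smul, neg_neg, smul_smul,
        inv_mul_cancel₀ hs, one_smul]
  have main : ∀ α β : Fin 3 → Ω, α ᵥ* L + β ᵥ* M = 0 → β = 0 := by
    intro α β e
    by_contra hβ
    have hy0 : β ᵥ* L ≠ 0 := fun e => hβ (hinj β e)
    have eβ : β ᵥ* M = (-α) ᵥ* L := by rw [neg_vecMul]; exact eq_neg_of_add_eq_zero_right e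
    have t1 : ∀ z, Tg Z.I (β ᵥ* L) (z ᵥ* M) := fun z f hf =>
      tan_cont f _ (z ᵥ* L) _ 0 fun s hs => by
        have a1 := tg_sub (htg (β + s • z)) (tg_plane hon' (β + s • z) (-α))
        rw [add_vecMul M β (s • z), eβ, add_sub_cancel_left, smul_vecMul s z M] at a1
        rw [← smul_vecMul, ← add_vecMul]
        exact tg_of_smul hs a1 f hf
    have t2 := fun v hv => tg_span hy0 (hon' β) L (tg_plane hon' β) (t1 α0) hi (v := v) hv
    have t3 : ∀ z, Tg Z.I (z ᵥ* L) (α0 ᵥ* M) := fun z f hf => by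
      obtain ⟨γ, u, hu⟩ := t2 _ (t1 z)
      refine tan_cont f _ (α0 ᵥ* L) _ (-u) fun s hs => ?_
      have a1 := tg_sub (htg (z + s • α0)) (tg_plane hon' (z + s • α0) γ)
      rw [add_vecMul M z (s • α0), hu, smul_vecMul s α0 M, add_assoc, add_sub_cancel_left,
        ← add_smul] at a1
      rw [← smul_vecMul, ← add_vecMul]
      exact tg_of_smul (fun h => hs (eq_neg_of_add_eq_zero_right h)) a1 f hf
    have t4 : ∀ f ∈ Z.I, ∀ v ∈ Submodule.span Ω (Set.range l), gr f v ∈ Nm Z.I (β ᵥ* L) := by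
      intro f hf v hv
      obtain ⟨z, rfl⟩ := (mem_span_iff l v).1 hv
      refine mem_Nm fun v' hv' => ?_
      obtain ⟨γ, u, rfl⟩ := t2 v' hv'
      exact tg_add (tg_plane hon' z γ) (tg_smul u (t3 z)) f hf
    have hr := Z.rk Ω _ hy0 (hon' β)
    obtain ⟨h, hh, hh0⟩ := (Submodule.ne_bot_iff (Nm Z.I (β ᵥ* L))).1 (fun e => by
      rw [e, finrank_bot] at hr; omega)
    refine tl hZ l hl hon h hh0 fun f1 h1 f2 h2 v hv hli => ?_
    have a1 : Submodule.span Ω (Set.range ![h, gr f1 v, gr f2 v]) ≤ Nm Z.I (β ᵥ* L) := by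
      rw [Submodule.span_le]
      rintro _ ⟨i, rfl⟩
      fin_cases i
      · exact hh
      · exact t4 f1 h1 v hv
      · exact t4 f2 h2 v hv
    have a2 := Submodule.finrank_mono a1
    rw [finrank_span_eq_card hli, hr, Fintype.card_fin] at a2
    omega
  obtain ⟨c, c1, c2⟩ := co_ex L M fun α β e => by
    have hβ := main α β e
    rw [hβ, zero_vecMul, add_zero] at e
    exact ⟨hinj α e, hβ⟩
  refine ⟨c, fun f hf α => ?_, ?_⟩
  · rw [c1, c2]
    exact ⟨hon' α f hf, htg α f hf⟩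
  · rw [hα0, ← c1, vecMul_vecMul, c.LW, vecMul_zero]

end PV.D2
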