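import Pool.Agent.Lib.MP_36fb43_ag.DD2A

open MvPolynomial Matrix Module IsLocalRing

namespace PV.D2

section val
variable {R : Type} [CommRing R] [IsDomain R] [ValuationRing R]

theorem exists_dvd_all {ι : Type} (A : ι → R) {s : Finset ι} (hs : s.Nonempty) :
    ∃ i ∈ s, ∀ j ∈ s, A i ∣ A j := by
  induction hs using Finset.Nonempty.cons_induction with
  | singleton a => exact ⟨a, by simp, by simp⟩
  | cons a s _ _ ih =>
    obtain ⟨i, hi, h⟩ := ih
    rcases ValuationRing.dvd_total (A a) (A i) with h1 | h1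
    · refine ⟨a, by simp, fun j hj => ?_⟩
      rcases Finset.mem_cons.1 hj with rfl | hj
      · exact dvd_rfl
      · exact h1.trans (h j hj)
    · refine ⟨i, Finset.mem_cons.2 (Or.inr hi), fun j hj => ?_⟩
      rcases Finset.mem_cons.1 hj with rfl | hj
      · exact h1
      · exact h j hj

theorem prim_mat (A : Matrix (Fin 3) (Fin 3) R) (hA : A ≠ 0) :
    ∃ (e : R) (A' : Matrix (Fin 3) (Fin 3) R) (i j : Fin 3), e ≠ 0 ∧ e = A i j ∧ A' i j = 1 ∧
      A = e • A' := by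
  obtain ⟨⟨i, j⟩, -, h⟩ := exists_dvd_all (fun p : Fin 3 × Fin 3 => A p.1 p.2) Finset.univ_nonempty
  choose b hb using fun p => h p (Finset.mem_univ p)
  have he : A i j ≠ 0 := fun e => hA (Matrix.ext fun a c => by
    have := hb (a, c)
    dsimp only at this
    rw [this, e, zero_mul]; rfl)
  refine ⟨A i j, Matrix.of fun a c => b (a, c), i, j, he, rfl, ?_, Matrix.ext fun a c => hb (a, c)⟩
  exact mul_left_cancel₀ he ((hb (i, j)).symm.trans (mul_one _).symm)

variable [Algebra ℂ R]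

/-- the residue map -/
noncomputable def rs (R : Type) [CommRing R] [IsLocalRing R] [Algebra ℂ R] :
    R →ₐ[ℂ] ResidueField R := IsScalarTower.toAlgHom ℂ R _

theorem rs_ne {a : R} : rs R a ≠ 0 ↔ IsUnit a := residue_ne_zero_iff_isUnit a

theorem rs_surj {ι : Type} (y : ι → ResidueField R) : ∃ x : ι → R, y = rs R ∘ x := by
  choose x hx using fun i => residue_surjective (y i)
  exact ⟨x, funext fun i => (hx i).symm⟩

theorem rs_det (A : Matrix (Fin 3) (Fin 3) R) : rs R A.det = (A.map (rs R)).det :=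
  (rs R).map_det A

variable {Z : Cone ℂ 6} {c : Co R}

theorem val_A (hR : c.Fr Z.I) (hκ : (c.map (rs R)).Fr Z.I) (A : Matrix (Fin 3) (Fin 3) R)
    (hA : A ≠ 0) (h0 : ∀ i j, rs R (A i j) = 0)
    (hon : ∀ f ∈ Z.I, ∀ α : Fin 3 → R, aeval (α ᵥ* c.L + (α ᵥ* A) ᵥ* c.M) f = 0) :
    ∃ (e a : R) (E : Matrix (Fin 3) (Fin 3) R), e ≠ 0 ∧ rs R e = 0 ∧ IsUnit a ∧
      A = e • (a • (1 : Matrix (Fin 3) (Fin 3) R) + e • E) := by
  obtain ⟨e, A1, i, j, he, hij, h1, hA1⟩ := prim_mat A hA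
  have hre : rs R e = 0 := hij ▸ h0 i j
  have main : ∃ E : Matrix (Fin 3) (Fin 3) R, A - A 0 0 • 1 = e ^ 2 • E := by
    by_cases hz : A - A 0 0 • (1 : Matrix (Fin 3) (Fin 3) R) = 0
    · exact ⟨0, by rw [hz, smul_zero]⟩
    obtain ⟨e', A2, i', j', he', -, h2, hA2⟩ := prim_mat _ hz
    by_cases hd : e ^ 2 ∣ e'
    · obtain ⟨b, hb⟩ := hd
      exact ⟨b • A2, by rw [hA2, hb, smul_smul]⟩
    obtain ⟨b, hb⟩ := (ValuationRing.dvd_total (e ^ 2) e').resolve_left hd
    have hbu : rs R b = 0 := by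
      by_contra hu
      obtain ⟨b', hb'⟩ := (rs_ne.1 hu).exists_right_inv
      exact hd ⟨b', by rw [hb, mul_assoc, hb', mul_one]⟩
    have h00 : A2 0 0 = 0 := by
      have := congrFun (congrFun hA2 0) 0
      simp only [Matrix.sub_apply, Matrix.smul_apply, one_apply_eq, smul_eq_mul, mul_one,
        sub_self] at this
      exact (mul_eq_zero.1 this.symm).resolve_left he'
    have hz2 : A2.map (rs R) = 0 := by
      refine hκ.scalar _ (by rw [Matrix.map_apply, h00, map_zero]) fun α f hf => ?_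
      obtain ⟨α, rfl⟩ := rs_surj α
      obtain ⟨r, hr⟩ := taylor2 f (α ᵥ* c.L) ((α ᵥ* A1) ᵥ* c.M) e
      have e1 : e • (α ᵥ* A1) ᵥ* c.M = (α ᵥ* A) ᵥ* c.M := by
        rw [hA1, vecMul_smul, smul_vecMul]
      have e2 : (α ᵥ* A) ᵥ* c.M = e' • (α ᵥ* A2) ᵥ* c.M + A 0 0 • α ᵥ* c.M := by
        rw [← smul_vecMul e' (α ᵥ* A2), ← smul_vecMul (A 0 0) α, ← add_vecMul, ← vecMul_smul, ← hA2,
          vecMul_sub, vecMul_smul, vecMul_one, sub_add_cancel]
      rw [← dg_smul, e1, hon f hf, (hR f hf α).1, e2, dg_add, dg_smul, dg_smul, (hR f hf α).2,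
        hb] at hr
      have e3 : dg f (α ᵥ* c.L) ((α ᵥ* A2) ᵥ* c.M) = -(b * r) :=
        mul_left_cancel₀ he' (by linear_combination -hr)
      have e4 := congrArg (rs R) e3
      rw [map_dg, map_vecMul', map_vecMul', map_vecMul', map_neg, map_mul, hbu, zero_mul,
        neg_zero] at e4
      exact e4
    have := congrFun (congrFun hz2 i') j'
    rw [Matrix.map_apply, h2, map_one] at this
    exact absurd this one_ne_zero
  obtain ⟨E, hE⟩ := main
  have e00 : A 0 0 = e * A1 0 0 := congrFun (congrFun hA1 0) 0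
  have fin : A = e • (A1 0 0 • (1 : Matrix (Fin 3) (Fin 3) R) + e • E) := by
    rw [smul_add, smul_smul, smul_smul, ← e00, ← sq, ← hE, add_sub_cancel]
  refine ⟨e, A1 0 0, E, he, hre, rs_ne.1 fun hu => ?_, fin⟩
  have e5 := congrFun (congrFun (hA1.symm.trans fin) i) j
  simp only [Matrix.smul_apply, Matrix.add_apply, smul_eq_mul] at e5
  have e6 := congrArg (rs R) (mul_left_cancel₀ he e5)
  rw [h1, map_one, map_add, map_mul, map_mul, hu, hre, zero_mul, zero_mul, add_zero] at e6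
  exact one_ne_zero e6

theorem val_B {F : Type} [Field F] [Algebra ℂ F] (j : R →ₐ[ℂ] F) (hj : Function.Injective j)
    (hR : c.Fr Z.I) (hκ : (c.map (rs R)).Fr Z.I) (P Q : Matrix (Fin 3) (Fin 3) R)
    (hi : ∀ y, y ᵥ* P.map (rs R) = 0 → y ᵥ* Q.map (rs R) = 0 → y = 0)
    (hon : ∀ f ∈ Z.I, ∀ y : Fin 3 → R, aeval (y ᵥ* (P * c.L + Q * c.M)) f = 0)
    (B : Matrix (Fin 3) (Fin 3) F) (hB : P.map j = Q.map j * B) :
    ∃ (s : F) (E : Matrix (Fin 3) (Fin 3) R), B = s • (1 : Matrix (Fin 3) (Fin 3) F) + E.map j := by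
  have one : (1 : Matrix (Fin 3) (Fin 3) R).map j = 1 :=
    Matrix.map_one _ (map_zero j) (map_one j)
  have hpl := hκ.plane (P.map (rs R)) (Q.map (rs R)) hi fun y f hf => by
    obtain ⟨y, rfl⟩ := rs_surj y
    have := congrArg (rs R) (hon f hf y)
    rw [map_ae, map_vecMul', map_zero, Matrix.map_add _ (map_add _), Matrix.map_mul,
      Matrix.map_mul] at this
    exact this
  rcases hpl with hQ | hQ
  · have hu : IsUnit Q.det := rs_ne.1 (by rwa [rs_det])
    refine ⟨0, Q⁻¹ * P, ?_⟩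
    rw [zero_smul, zero_add, Matrix.map_mul, hB, ← Matrix.mul_assoc, ← Matrix.map_mul,
      nonsing_inv_mul _ hu, one, Matrix.one_mul]
  have hu : IsUnit P.det := rs_ne.1 (by
    rw [rs_det]
    intro hd
    obtain ⟨y, hy, hy'⟩ := exists_vecMul_eq_zero_iff.2 hd
    exact hy (hi y hy' (by rw [hQ, vecMul_zero])))
  have hAB : (P⁻¹ * Q).map j * B = 1 := by
    rw [Matrix.map_mul, Matrix.mul_assoc, ← hB, ← Matrix.map_mul, nonsing_inv_mul _ hu, one]
  obtain ⟨e, a, E, he, hre, ha, hA⟩ := val_A hR hκ (P⁻¹ * Q) (fun h => by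
      rw [h, Matrix.map_zero _ (map_zero j), Matrix.zero_mul] at hAB
      exact zero_ne_one hAB)
    (fun a b => by
      have : (P⁻¹ * Q).map (rs R) = 0 := by rw [Matrix.map_mul, hQ, Matrix.mul_zero]
      exact congrFun (congrFun this a) b)
    (fun f hf α => by
      have := hon f hf (α ᵥ* P⁻¹)
      rwa [vecMul_add, vecMul_vecMul, vecMul_vecMul, ← Matrix.mul_assoc, nonsing_inv_mul _ hu,
        Matrix.one_mul, ← Matrix.mul_assoc, ← vecMul_vecMul α (P⁻¹ * Q)] at this)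
  set N := a • (1 : Matrix (Fin 3) (Fin 3) R) + e • E with hN
  have hNu : IsUnit N.det := rs_ne.1 (by
    have : N.map (rs R) = rs R a • (1 : Matrix (Fin 3) (Fin 3) (ResidueField R)) := by
      ext x y
      by_cases hxy : x = y <;> simp [hN, hre, hxy]
    rw [rs_det, this, det_smul, det_one, mul_one]
    exact pow_ne_zero _ (rs_ne.2 ha))
  obtain ⟨a', ha'⟩ := ha.exists_left_inv
  have h1 : N⁻¹ = a' • (1 : Matrix (Fin 3) (Fin 3) R) + e • (-(a' • (E * N⁻¹))) := by
    have h2 := mul_nonsing_inv _ hNu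
    nth_rewrite 1 [hN] at h2
    rw [Matrix.add_mul, Matrix.smul_mul, Matrix.smul_mul, Matrix.one_mul] at h2
    rw [← h2, smul_add, smul_smul, ha', one_smul, smul_neg, smul_comm e a', add_neg_cancel_right]
  have hje : j e ≠ 0 := fun h => he (hj (h.trans (map_zero j).symm))
  have sm : ∀ (t : R) (X : Matrix (Fin 3) (Fin 3) R), (t • X).map j = j t • X.map j :=
    fun t X => Matrix.ext fun x y => map_mul j t (X x y)
  have h3 : j e • B = N⁻¹.map j := by
    rw [hA, sm, Matrix.smul_mul] at hAB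
    rw [← Matrix.mul_one (N⁻¹.map j), ← hAB, Matrix.mul_smul, ← Matrix.mul_assoc,
      ← Matrix.map_mul, nonsing_inv_mul _ hNu, one, Matrix.one_mul]
  refine ⟨(j e)⁻¹ * j a', -(a' • (E * N⁻¹)), ?_⟩
  rw [h1, Matrix.map_add _ (map_add j), sm, sm, one] at h3
  rw [← one_smul F B, ← inv_mul_cancel₀ hje, ← smul_smul, h3, smul_add, smul_smul, smul_smul,
    inv_mul_cancel₀ hje, one_smul]

end val

theorem val_C {Z : Cone ℂ 6} {Ω F : Type} [Field Ω] [Algebra ℂ Ω] [Field F] [Algebra ℂ F]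
    {c : Co Ω} (hc : c.Fr Z.I) (i : Ω →ₐ[ℂ] F) (O : ValuationSubring F) (hO : ∀ y, i y ∈ O)
    (B : Matrix (Fin 3) (Fin 3) F)
    (hB : ∀ β, On Z.I ((β ᵥ* B) ᵥ* (c.map i).L + β ᵥ* (c.map i).M)) (a b : Fin 3) :
    (B - B 0 0 • (1 : Matrix (Fin 3) (Fin 3) F)) a b ∈ O := by
  let g : Ω →+* O := (i : Ω →+* F).codRestrict O hO
  let _ : Algebra ℂ O := (g.comp (algebraMap ℂ Ω)).toAlgebra
  let ψ : Ω →ₐ[ℂ] O := ⟨g, fun _ => rfl⟩
  let j : O →ₐ[ℂ] F := ⟨O.subtype, fun r => i.commutes r⟩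
  have hj : Function.Injective j := Subtype.val_injective
  have hli : LinearIndependent F (fromCols B (1 : Matrix (Fin 3) (Fin 3) F)).row := by
    rw [← Matrix.vecMul_injective_iff]
    intro u v h
    have h' : u ᵥ* fromCols B 1 = v ᵥ* fromCols B 1 := h
    rw [vecMul_fromCols, vecMul_fromCols, vecMul_one, vecMul_one] at h'
    exact funext fun x => congrFun h' (Sum.inr x)
  obtain ⟨ι, l', hech, hsp, hl', -⟩ := ech_val O _ hli
  let P : Matrix (Fin 3) (Fin 3) O := Matrix.of fun x y => ⟨l' x (Sum.inl y), hl' _ _⟩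
  let Q : Matrix (Fin 3) (Fin 3) O := Matrix.of fun x y => ⟨l' x (Sum.inr y), hl' _ _⟩
  have hPQ : P.map j = Q.map j * B := by
    ext x y
    have hm : l' x ∈ Submodule.span F (Set.range (fromCols B (1 : Matrix (Fin 3) (Fin 3) F)).row) :=
      hsp ▸ Submodule.subset_span ⟨x, rfl⟩
    obtain ⟨u, hu⟩ := (Submodule.mem_span_range_iff_exists_fun F).1 hm
    have h' : u ᵥ* fromCols B 1 = l' x := by rw [vecMul_eq_sum]; exact hu
    rw [vecMul_fromCols, vecMul_one] at h'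
    change l' x (Sum.inl y) = ∑ z, l' x (Sum.inr z) * B z y
    rw [← h']; rfl
  obtain ⟨s, E, hE⟩ := val_B j hj (hc.map ψ) (hc.map ((rs O).comp ψ)) P Q (fun y h1 h2 => by
      have h3 : ∀ z, ∑ x, y x * rs O ⟨l' x z, hl' _ _⟩ = 0 := by
        rintro (z | z)
        · exact congrFun h1 z
        · exact congrFun h2 z
      ext x
      have h4 := h3 (ι x)
      rw [Finset.sum_eq_single x (fun z _ hz => by
        rw [show (⟨l' z (ι x), hl' _ _⟩ : O) = 0 from Subtype.ext ((hech z x).trans (if_neg hz)),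
          map_zero, mul_zero]) (by simp),
        show (⟨l' x (ι x), hl' _ _⟩ : O) = 1 from Subtype.ext ((hech x x).trans (if_pos rfl)),
        map_one, mul_one] at h4
      exact h4)
    (fun f hf y => hj (by
      have := hB ((j ∘ y) ᵥ* Q.map j) f hf
      rw [map_ae, map_vecMul', map_zero, Matrix.map_add _ (map_add j), Matrix.map_mul,
        Matrix.map_mul, hPQ, vecMul_add, ← vecMul_vecMul, ← vecMul_vecMul, ← vecMul_vecMul]
      exact this)) B hPQ
  have h1 : B - B 0 0 • (1 : Matrix (Fin 3) (Fin 3) F) = (E - E 0 0 • 1).map j := by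
    ext x y
    by_cases hxy : x = y <;> simp [hE, hxy]
  rw [h1]
  exact ((E - E 0 0 • (1 : Matrix (Fin 3) (Fin 3) O)) a b).2

end PV.D2
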