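import Pool.Agent.Lib.MP_36fb43_ag.DD1
import Pool.Agent.Lib.MP_36fb43_ag.DD2B
import Pool.Agent.Lib.MP_36fb43_ag.DD2C

open MvPolynomial Matrix Module

namespace PV

namespace D2

theorem rank4 {F : Type} [Field F] (c : Co F) {α : Fin 3 → F} (h0 : α ≠ 0)
    (S : Submodule F (Fin 6 → F)) (hL : ∀ a, c.L a ∈ S) (hw : α ᵥ* c.M ∈ S) :
    4 ≤ finrank F S := by
  let g : (Fin 3 → F) × F →ₗ[F] (Fin 6 → F) :=
    (vecMulLinear c.L).coprod (LinearMap.toSpanSingleton F _ (α ᵥ* c.M))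
  have hinj : Function.Injective g := by
    rw [injective_iff_map_eq_zero]
    intro p hp
    have e : p.1 ᵥ* c.L + (p.2 • α) ᵥ* c.M = 0 := by rw [smul_vecMul]; exact hp
    have e1 := c.cU p.1 (p.2 • α)
    have e2 := c.cW p.1 (p.2 • α)
    rw [e, zero_vecMul] at e1 e2
    exact Prod.ext e1.symm ((smul_eq_zero.1 e2.symm).resolve_right h0)
  have h1 : finrank F (LinearMap.range g) = 4 := by
    rw [LinearMap.finrank_range_of_inj hinj]; simp
  rw [← h1]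
  refine Submodule.finrank_mono ?_
  rintro _ ⟨p, rfl⟩
  refine add_mem ?_ (Submodule.smul_mem _ _ hw)
  change p.1 ᵥ* c.L ∈ S
  rw [vecMul_eq_sum]
  exact Submodule.sum_mem _ fun a _ => Submodule.smul_mem _ _ (hL a)

theorem lin_hom {k : Type} [Field k] (l : Fin 6 → k) : (lin l).IsHomogeneous 1 :=
  IsHomogeneous.sum _ _ _ fun i _ => (isHomogeneous_X k i).C_mul _

theorem aeval_lin {k F : Type} [Field k] [Field F] [Algebra k F] (l : Fin 6 → k) (v : Fin 6 → F) :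
    aeval v (lin l) = ∑ i, v i * algebraMap k F (l i) := by
  simp [lin, map_sum, mul_comm]

theorem quad_end {Z : Cone ℂ 6} {F : Type} [Field F] [Algebra ℂ F] (A : Set (Derivation ℂ F F))
    {x : Fin 6 → F} (hx : On Z.I x)
    (hr : 4 ≤ finrank F (Submodule.span F {x} ⊔ dsp A x : Submodule F (Fin 6 → F)))
    (G W : Matrix (Fin 6) (Fin 3) F) (hG : ∀ i a, G i a ∈ cst A) (hW : ∀ i a, W i a ∈ cst A)
    (h0 : (x ᵥ* G) 0 * (x ᵥ* W) 1 - (x ᵥ* G) 1 * (x ᵥ* W) 0 = 0) (v : Fin 6 → F)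
    (hv : (v ᵥ* G) 0 * (v ᵥ* W) 1 - (v ᵥ* G) 1 * (v ᵥ* W) 0 ≠ 0) :
    ∃ f ∈ Z.I, f ≠ 0 ∧ f.totalDegree ≤ 2 := by
  have : CharZero (cst A) := charZero_of_injective_algebraMap (algebraMap ℂ (cst A)).injective
  obtain ⟨Z', hZ'⟩ := cone_map Z (cst A)
  let a : Fin 3 → Fin 6 → cst A := fun t i => ⟨G i t, hG i t⟩
  let b : Fin 3 → Fin 6 → cst A := fun t i => ⟨W i t, hW i t⟩
  let q : MvPolynomial (Fin 6) (cst A) := lin (a 0) * lin (b 1) - lin (a 1) * lin (b 0)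
  have hq : ∀ y : Fin 6 → F, aeval y q = (y ᵥ* G) 0 * (y ᵥ* W) 1 - (y ᵥ* G) 1 * (y ᵥ* W) 0 :=
    fun y => by
      rw [map_sub, map_mul, map_mul, aeval_lin, aeval_lin, aeval_lin, aeval_lin]; rfl
  have hh : q.IsHomogeneous 2 := ((lin_hom _).mul (lin_hom _)).sub ((lin_hom _).mul (lin_hom _))
  have hx' : On Z'.I x := by
    have : Z'.I ≤ RingHom.ker (aeval x : MvPolynomial (Fin 6) (cst A) →ₐ[cst A] F) := by
      rw [hZ', Ideal.map_le_iff_le_comap]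
      intro f hf
      rw [Ideal.mem_comap, RingHom.mem_ker, aeval_map_algebraMap]
      exact hx f hf
    exact fun f hf => this hf
  have hm := gen Z' hx' A (fun D hD c => c.2 D hD) (by omega) q hh ((hq x).trans h0)
  obtain ⟨f, hf, hf0, hd⟩ := low_of_ext Z (cst A) q (fun e => hv (by rw [← hq, e, map_zero]))
    (hZ' ▸ hm)
  exact ⟨f, hf, hf0, hd.trans hh.totalDegree_le⟩

end D2

open D2

variable {Z : Cone ℂ 6} {Ω : Type} [Field Ω] [IsAlgClosed Ω] [Algebra ℂ Ω]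

variable {K : Type} [Field K] [IsAlgClosed K] [Algebra ℂ K] [Algebra K Ω] [IsScalarTower ℂ K Ω]

theorem dd_quad (hZ : Z.Nondeg) {x : Fin 6 → Ω} (h0 : x ≠ 0)
    (hT : ∀ v, Tg Z.I x v → ∃ (D : Derivation ℂ Ω Ω) (t : Ω), v = dv D x + t • x)
    (l : Fin 3 → Fin 6 → Ω) (hl : LinearIndependent Ω l)
    (hx : x ∈ Submodule.span Ω (Set.range l))
    (hon : ∀ v ∈ Submodule.span Ω (Set.range l), On Z.I v) :
    ∃ f ∈ Z.I, f ≠ 0 ∧ f.totalDegree ≤ 2 := by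
  obtain ⟨c, hc, hxW⟩ := fr_ex hZ h0 hT l hl hx hon
  obtain ⟨F, _, _, _, ⟨cp⟩⟩ := copy_ex (k := ℂ) (F := Ω) 0
  have hxL : x = (x ᵥ* c.U) ᵥ* c.L := by
    have := c.eq x
    rwa [hxW, zero_vecMul, add_zero] at this
  set α := x ᵥ* c.U with hα
  have hα0 : cp.i2 ∘ α ≠ 0 := fun e => h0 (by
    have : α = 0 := funext fun a => cp.i2.injective ((congrFun e a).trans (map_zero _).symm)
    rw [hxL, this, zero_vecMul])
  let A : Set (Derivation ℂ F F) := {D | ∀ y, D (cp.i1 y) = 0}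
  have hA : ∀ y, cp.i1 y ∈ cst A := fun y D hD => hD y
  set c1 := c.map cp.i1 with hc1
  set c2 := c.map cp.i2 with hc2
  have hx2 : cp.i2 ∘ x = (cp.i2 ∘ α) ᵥ* c2.L := by
    conv_lhs => rw [hxL]
    exact map_vecMul' _ _ _
  have on2 : ∀ y, On Z.I (y ᵥ* c2.L) := fun y f hf => (hc.map cp.i2 f hf y).1
  have hS : ∀ v, Tg Z.I x v →
      cp.i2 ∘ v ∈ Submodule.span F {cp.i2 ∘ x} ⊔ dsp A (cp.i2 ∘ x) := by
    intro v hv
    obtain ⟨D, t, rfl⟩ := hT v hv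
    obtain ⟨E, e1, e2, -⟩ := cp.ex 0 D fun _ => 0
    have : cp.i2 ∘ (dv D x + t • x) = cp.i2 t • (cp.i2 ∘ x) + dv E (cp.i2 ∘ x) := by
      ext i
      simp [e2, add_comm]
    rw [this]
    exact Submodule.add_mem_sup (Submodule.smul_mem _ _ (Submodule.mem_span_singleton_self _))
      (Submodule.subset_span ⟨E, fun y => by simp [e1], rfl⟩)
  have hr := rank4 c2 hα0 (Submodule.span F {cp.i2 ∘ x} ⊔ dsp A (cp.i2 ∘ x)) (fun a => by
      have h1 := tg_plane (I := Z.I) (fun y f hf => (hc f hf y).1) α (Pi.single a 1)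
      rw [← hxL, single_one_vecMul] at h1
      exact hS _ h1) (by
      have h1 : Tg Z.I (α ᵥ* c.L) (α ᵥ* c.M) := fun f hf => (hc f hf α).2
      rw [← hxL] at h1
      have h2 := hS _ h1
      rwa [map_vecMul'] at h2)
  have hPQ : c2.L * c1.U * c1.L + c2.L * c1.W * c1.M = c2.L := by
    rw [Matrix.mul_assoc, Matrix.mul_assoc, ← Matrix.mul_add, c1.dec, Matrix.mul_one]
  have key : ∃ B0 : Matrix (Fin 3) (Fin 3) F, (∀ a b, B0 a b ∈ cst A) ∧
      ((cp.i2 ∘ x) ᵥ* (c1.U - c1.W * B0)) 0 * ((cp.i2 ∘ x) ᵥ* c1.W) 1 -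
        ((cp.i2 ∘ x) ᵥ* (c1.U - c1.W * B0)) 1 * ((cp.i2 ∘ x) ᵥ* c1.W) 0 = 0 := by
    rcases (hc.map cp.i1).plane (c2.L * c1.U) (c2.L * c1.W) (fun y h1 h2 => by
        have h3 : y ᵥ* c2.L = 0 := by
          rw [← hPQ, vecMul_add, ← vecMul_vecMul, ← vecMul_vecMul y (c2.L * c1.W), h1, h2]
          simp
        have := c2.cU y 0
        rw [h3, zero_vecMul, add_zero, zero_vecMul] at this
        exact this.symm) (fun y => by rw [← hc1, hPQ]; exact on2 y) with hQ | hQ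
    · have hu : IsUnit (c2.L * c1.W).det := isUnit_iff_ne_zero.2 hQ
      set B := (c2.L * c1.W)⁻¹ * (c2.L * c1.U) with hB
      refine ⟨B - B 0 0 • 1, fun a b => val_der A fun O hO =>
        val_C hc cp.i1 O (fun y => hO _ (hA y)) B (fun β => ?_) a b, ?_⟩
      · have := on2 (β ᵥ* (c2.L * c1.W)⁻¹)
        nth_rewrite 2 [← hPQ] at this
        rw [vecMul_add, vecMul_vecMul, vecMul_vecMul, ← Matrix.mul_assoc _ (c2.L * c1.W),
          nonsing_inv_mul _ hu, Matrix.one_mul, ← Matrix.mul_assoc, ← hB,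
          ← vecMul_vecMul] at this
        exact this
      · have h1 : (cp.i2 ∘ x) ᵥ* c1.U = ((cp.i2 ∘ x) ᵥ* c1.W) ᵥ* B := by
          rw [hx2, vecMul_vecMul, vecMul_vecMul _ c2.L, vecMul_vecMul, hB,
            mul_nonsing_inv_cancel_left _ _ hu]
        rw [vecMul_sub, ← vecMul_vecMul, vecMul_sub, vecMul_smul, vecMul_one, h1, sub_sub_cancel]
        simp only [Pi.smul_apply, smul_eq_mul]
        ring
    · refine ⟨0, fun _ _ => zero_mem _, ?_⟩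
      have h1 : (cp.i2 ∘ x) ᵥ* c1.W = 0 := by rw [hx2, vecMul_vecMul, hQ, vecMul_zero]
      rw [h1]
      simp
  obtain ⟨B0, hB0, hq⟩ := key
  refine quad_end A (hx2 ▸ on2 _) hr (c1.U - c1.W * B0) c1.W (fun i a => ?_) (fun i a => hA _) hq
    ((Pi.single 0 1 + Pi.single 1 1 ᵥ* B0) ᵥ* c1.L + Pi.single 1 1 ᵥ* c1.M) ?_
  · rw [Matrix.sub_apply, Matrix.mul_apply]
    exact sub_mem (hA _) (sum_mem fun b _ => mul_mem (hA _) (hB0 _ _))
  · rw [vecMul_sub, ← vecMul_vecMul, c1.cU, c1.cW, add_sub_cancel_right]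
    simp

end PV
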