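import Mathlib

/-! Definitions for the proof of the Peskine - Van de Ven statement. -/

open MvPolynomial Matrix Module

namespace PV

section basic
variable {k F R σ : Type} [CommRing k] [CommRing R] [Field F] [Algebra k F] [Algebra R F]

/-- gradient of `f` at `x` -/
noncomputable def gr (f : MvPolynomial σ k) (x : σ → F) : σ → F := fun i => aeval x (pderiv i f)

/-- Hessian matrix of `f` at `x` -/
noncomputable def hs (f : MvPolynomial σ k) (x : σ → F) : Matrix σ σ F :=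
  fun i j => aeval x (pderiv i (pderiv j f))

/-- `x` is a zero of `I` -/
def On (I : Ideal (MvPolynomial σ k)) (x : σ → F) : Prop := ∀ f ∈ I, aeval x f = 0

/-- conormal space -/
def Nm (I : Ideal (MvPolynomial σ k)) (x : σ → F) : Submodule F (σ → F) :=
  Submodule.span F {w | ∃ f ∈ I, w = gr f x}

/-- tangent vector -/
def Tg [Fintype σ] (I : Ideal (MvPolynomial σ k)) (x v : σ → F) : Prop := ∀ f ∈ I, gr f x ⬝ᵥ v = 0

/-- a derivation acts coordinatewise -/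
def dv (D : Derivation R F F) (v : σ → F) : σ → F := fun i => D (v i)

/-- a derivation acts on the coefficients of a polynomial -/
noncomputable def cD (D : Derivation R F F) (f : MvPolynomial σ F) : MvPolynomial σ F :=
  ∑ m ∈ f.support, monomial m (D (coeff m f))

/-- the span of the derivatives of `x` -/
def dsp (A : Set (Derivation R F F)) (x : σ → F) : Submodule F (σ → F) :=
  Submodule.span F {v | ∃ D ∈ A, v = dv D x}

/-- the line `u p + q` -/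
noncomputable def ln (p q : σ → F) : σ → Polynomial F :=
  fun i => Polynomial.C (p i) * Polynomial.X + Polynomial.C (q i)

/-- `grad f (u p + q) (v)` -/
noncomputable def grL [Fintype σ] (f : MvPolynomial σ k) (p q v : σ → F) : Polynomial F :=
  ∑ i, aeval (ln p q) (pderiv i f) * Polynomial.C (v i)

/-- `g` is an aligned scheme on the line `u p + q` -/
def Al (I : Ideal (MvPolynomial σ k)) (p q : σ → F) (g : Polynomial F) : Prop :=
  ∀ f ∈ I, g ∣ aeval (ln p q) f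

/-- the generic point of the span of `l` -/
noncomputable def pl {r : ℕ} (l : Fin r → σ → F) : σ → MvPolynomial (Fin r) F :=
  fun i => ∑ a, C (l a i) * X a

/-- the linear form with coefficients `l` -/
noncomputable def lin [Fintype σ] (l : σ → k) : MvPolynomial σ k := ∑ i, C (l i) * X i

/-- the quadratic form `y M y` -/
noncomputable def qf [Fintype σ] (M : Matrix σ σ k) : MvPolynomial σ k :=
  ∑ i, ∑ j, C (M i j) * X i * X j

/-- echelon family -/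
def Ech {r : ℕ} (ι : Fin r → σ) (l : Fin r → σ → F) : Prop :=
  ∀ a b, l a (ι b) = if a = b then 1 else 0

/-- contraction of a 3-tensor -/
def Pv [Fintype σ] (P : σ → Matrix σ σ F) (v : σ → F) : Matrix σ σ F := ∑ a, v a • P a

/-- all coefficients lie in `O` -/
def Int (O : ValuationSubring F) (f : MvPolynomial σ F) : Prop := ∀ m, coeff m f ∈ O

/-- all coefficients lie in `O`, one is a unit -/
def Prim (O : ValuationSubring F) (f : MvPolynomial σ F) : Prop :=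
  Int O f ∧ ∃ m, coeff m f ≠ 0 ∧ (coeff m f)⁻¹ ∈ O

end basic

/-- the common constants of a set of derivations -/
def cst {R F : Type} [Field R] [Field F] [Algebra R F] (A : Set (Derivation R F F)) :
    IntermediateField R F where
  carrier := {y | ∀ D ∈ A, D y = 0}
  mul_mem' := fun {a b} ha hb D hD => by
    rw [D.leibniz, ha D hD, hb D hD]; simp
  add_mem' := fun {a b} ha hb D hD => by rw [map_add, ha D hD, hb D hD, add_zero]
  algebraMap_mem' := fun r D _ => D.map_algebraMap r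
  inv_mem' := fun a ha D hD => by rw [D.leibniz_inv, ha D hD, smul_zero]

/-- the affine cone over a smooth projective variety of codimension two -/
structure Cone (k : Type) [Field k] (n : ℕ) where
  I : Ideal (MvPolynomial (Fin n) k)
  prime : I.IsPrime
  hom : ∀ f ∈ I, ∀ d, homogeneousComponent d f ∈ I
  ne : ∃ i, X i ∉ I
  rk : ∀ (F : Type) [Field F] [Algebra k F] (x : Fin n → F), x ≠ 0 → On I x →
    finrank F (Nm I x) = 2

/-- a section of `O(d)` -/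
structure Sect {k : Type} [Field k] {n : ℕ} (C : Cone k n) (d : ℕ) where
  N : ℕ
  G : Fin n → MvPolynomial (Fin n) k
  hom : ∀ i, (G i).IsHomogeneous (N + d)
  cmp : ∀ i j, X j ^ N * G i - X i ^ N * G j ∈ C.I

section sect
variable {k : Type} [Field k] {n d : ℕ} {C : Cone k n}

/-- the value of `s` at `x` is `t` -/
def Sect.Val (s : Sect C d) {F : Type} [Field F] [Algebra k F] (x : Fin n → F) (t : F) : Prop :=
  ∀ i, x i ^ s.N * t = aeval x (s.G i)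

/-- `s` is a polynomial -/
def Sect.Poly (s : Sect C d) : Prop := ∃ A, ∀ i, X i ^ s.N * A - s.G i ∈ C.I

/-- not in a hyperplane -/
def Cone.Nondeg (C : Cone k n) : Prop := ∀ l : Fin n → k, lin l ∈ C.I → l = 0

end sect

/-- the conclusion -/
def Palat (I : Ideal (MvPolynomial (Fin 6) ℂ)) : Prop :=
  ∃ W : Submodule ℂ (Matrix (Fin 6) (Fin 6) ℂ), (∀ ω ∈ W, ωᵀ = -ω) ∧ finrank ℂ W = 4 ∧
    ∀ x : Fin 6 → ℂ, x ≠ 0 → (On I x ↔ ∃ ω ∈ W, ω ≠ 0 ∧ ω *ᵥ x = 0)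

/-- `k` is algebraic over the field generated by the independent coordinates of `p` -/
structure GenPt {k : Type} [Field k] [Algebra ℂ k] (p : Fin 6 → k) : Prop where
  ex : ∀ v, ∃ D : Derivation ℂ k k, dv D p = v
  uq : ∀ D : Derivation ℂ k k, dv D p = 0 → D = 0

/-- two independent copies of `F` over `k` and `m` more indeterminates -/
structure Copy (k F Ω : Type) [Field k] [Field F] [Field Ω] [Algebra k F] [Algebra k Ω]
    (m : ℕ) where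
  i1 : F →ₐ[k] Ω
  i2 : F →ₐ[k] Ω
  lam : Fin m → Ω
  ex : ∀ (D1 D2 : Derivation k F F) (c : Fin m → Ω), ∃ D : Derivation k Ω Ω,
    (∀ y, D (i1 y) = i1 (D1 y)) ∧ (∀ y, D (i2 y) = i2 (D2 y)) ∧ ∀ a, D (lam a) = c a
  uq : ∀ D : Derivation k Ω Ω, (∀ y, D (i1 y) = 0) → (∀ y, D (i2 y) = 0) →
    (∀ a, D (lam a) = 0) → D = 0

/-- the residue map of a valuation ring, as a total function -/
structure Res (k : Type) {F : Type} [Field k] [Field F] [Algebra k F] (O : ValuationSubring F)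
    (κ : Type) [Field κ] [Algebra k κ] where
  ρ : F → κ
  mem : ∀ c : k, algebraMap k F c ∈ O
  add : ∀ a ∈ O, ∀ b ∈ O, ρ (a + b) = ρ a + ρ b
  mul : ∀ a ∈ O, ∀ b ∈ O, ρ (a * b) = ρ a * ρ b
  alg : ∀ c : k, ρ (algebraMap k F c) = algebraMap k κ c
  zero : ∀ a ∈ O, ρ a = 0 ↔ O.valuation a < 1

/-- a moving trisecant line through the generic point -/
structure Tri (C : Cone ℂ 6) (Ω : Type) [Field Ω] [Algebra ℂ Ω] where
  p : Fin 6 → Ω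
  q : Fin 6 → Ω
  j : Fin 6
  hj : j ≠ 0
  q0 : q 0 = 0
  qj : q j = 1
  u : Fin 3 → Ω
  uinj : Function.Injective u
  on : ∀ i, On C.I (u i • p + q)
  h : Fin 3 → Fin 6 → Ω
  hN : ∀ i, h i ∈ Nm C.I (u i • p + q)
  hp : ∀ i, h i ⬝ᵥ p = 0
  hli : LinearIndependent Ω h
  nt : ∀ i, ¬ Tg C.I (u i • p + q) p
  Dπ : Derivation ℂ Ω Ω
  Dπp : dv Dπ p = 0
  πne : dv Dπ q ≠ 0
  uq : ∀ D : Derivation ℂ Ω Ω, dv D p = 0 → dv D q = 0 → D = 0
  exp : ∀ v, ∃ D : Derivation ℂ Ω Ω, dv D p = v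
  trans : ∀ i i', ∃ g : Ω ≃+* Ω, (∀ y, Dπ y = 0 → g y = y) ∧ (∀ a, g (q a) = q a) ∧
    g (u i) = u i'

section tri
variable {C : Cone ℂ 6} {Ω : Type} [Field Ω] [Algebra ℂ Ω]

/-- the three points -/
def Tri.x (T : Tri C Ω) (i : Fin 3) : Fin 6 → Ω := T.u i • T.p + T.q

/-- osculating frame of the curve of directions -/
def Tri.e (T : Tri C Ω) : ℕ → Fin 6 → Ω
  | 0 => T.q
  | a + 1 => dv T.Dπ (T.e a)

/-- the span of `p, e 0, e 1, e 2` -/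
def Tri.La (T : Tri C Ω) : Submodule Ω (Fin 6 → Ω) :=
  Submodule.span Ω {T.p, T.e 0, T.e 1, T.e 2}

/-- jets of the interpolated value -/
structure Leg (T : Tri C Ω) (s : Sect C 2) where
  c : Ω
  c1 : Ω
  c2 : Ω
  val : ∀ i, s.Val (T.x i) (c * T.u i ^ 2 + c1 * T.u i + c2)
  z : Fin 6 → Ω
  z' : Fin 6 → Ω
  H : Matrix (Fin 6) (Fin 6) Ω
  P : Fin 6 → Matrix (Fin 6) (Fin 6) Ω
  β : Fin 3 → Ω
  dc : ∀ D : Derivation ℂ Ω Ω, D c = z ⬝ᵥ dv D T.p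
  dc1 : ∀ D : Derivation ℂ Ω Ω, D c1 = z ⬝ᵥ dv D T.q + z' ⬝ᵥ dv D T.p
  dc2 : ∀ D : Derivation ℂ Ω Ω, D c2 = z' ⬝ᵥ dv D T.q
  zp : z ⬝ᵥ T.p = 2 * c
  zq : z ⬝ᵥ T.q = c1
  z'p : z' ⬝ᵥ T.p = c1
  z'q : z' ⬝ᵥ T.q = 2 * c2
  Hs : ∀ a b, H a b = H b a
  Ps1 : ∀ a b e, P a b e = P b a e
  Ps2 : ∀ a b e, P a b e = P a e b
  dz : ∀ D : Derivation ℂ Ω Ω, dv D z = H *ᵥ dv D T.p
  dH : ∀ (D : Derivation ℂ Ω Ω) a b, D (H a b) = Pv P (dv D T.p) a b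
  πP : ∀ a b e, T.Dπ (P a b e) = 0
  Hp : H *ᵥ T.p = z
  Hq : H *ᵥ T.q = z'
  Pp : Pv P T.p = 0
  Pq : ∀ a b, Pv P T.q a b = ∑ i, β i * T.h i a * T.h i b

/-- the leaf data of the conic type (C1, C2) -/
structure Leaf {T : Tri C Ω} {s : Sect C 2} (L : Leg T s) where
  n : Fin 6 → Ω
  a0 : Fin 6
  na : n a0 = 1
  ξ : Fin 6 → Ω
  Bt : Matrix (Fin 6) (Fin 6) Ω
  Φ : Matrix (Fin 6) (Fin 6) Ω
  li : LinearIndependent Ω ![T.p, T.e 0, T.e 1, T.e 2, ξ]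
  ker : ∀ v, n ⬝ᵥ v = 0 ↔ v ∈ T.La ⊔ Submodule.span Ω {ξ}
  leaf : ∀ D : Derivation ℂ Ω Ω, dv D n = 0 ↔ dv D T.p ∈ T.La
  dLa : ∀ D : Derivation ℂ Ω Ω, dv D T.p ∈ T.La → ∀ l ∈ T.La,
    dv D l - (dv D T.p ⬝ᵥ Bt *ᵥ l) • ξ ∈ T.La
  Bs : ∀ v ∈ T.La, ∀ w ∈ T.La, v ⬝ᵥ Bt *ᵥ w = w ⬝ᵥ Bt *ᵥ v
  Bp : ∀ w ∈ T.La, T.p ⬝ᵥ Bt *ᵥ w = 0
  B00 : T.e 0 ⬝ᵥ Bt *ᵥ T.e 0 = 0
  B01 : T.e 0 ⬝ᵥ Bt *ᵥ T.e 1 = 0
  B02 : T.e 0 ⬝ᵥ Bt *ᵥ T.e 2 = 1
  B11 : T.e 1 ⬝ᵥ Bt *ᵥ T.e 1 = -1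
  c0 : ∀ G : Matrix (Fin 6) (Fin 6) Ω, (∀ a b, T.Dπ (G a b) = 0) →
    (∀ w ∈ T.La, T.p ⬝ᵥ G *ᵥ w = 0) → (∀ w ∈ T.La, w ⬝ᵥ G *ᵥ T.p = 0) →
    T.e 0 ⬝ᵥ G *ᵥ T.e 0 = 0 → T.e 0 ⬝ᵥ G *ᵥ T.e 1 = 0 →
    ∀ v ∈ T.La, ∀ w ∈ T.La, v ⬝ᵥ G *ᵥ w = (v ⬝ᵥ Bt *ᵥ w) * (T.e 0 ⬝ᵥ G *ᵥ T.e 2)
  Φs : ∀ a b, Φ a b = Φ b a
  dΦ : ∀ D : Derivation ℂ Ω Ω, dv D T.p ∈ T.La → ∀ a b, D (Φ a b) = 0
  Φp : Φ *ᵥ T.p = L.z
  Φq : Φ *ᵥ T.q = L.z'

/-- the endgame data of the conic type (C4), over the field `K` of leaf constants -/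
structure ConEnd (T : Tri C Ω) (K : Type) [Field K] [Algebra ℂ K] [Algebra K Ω] where
  D : Derivation ℂ K K
  D' : Derivation ℂ K K
  n : Fin 6 → K
  l : Fin 6 → K
  l3 : Fin 6 → K
  b : K
  Q : Matrix (Fin 6) (Fin 6) K
  Qs : ∀ a b, Q a b = Q b a
  li : LinearIndependent K ![n, dv D n, dv D' n]
  dQ : cD D (qf Q) = lin (dv D' n) * lin l + lin n * lin l3 + MvPolynomial.C b * qf Q
  nd : ∀ y : Fin 6 → K, n ⬝ᵥ y = 0 → (∀ y', n ⬝ᵥ y' = 0 → y ⬝ᵥ Q *ᵥ y' = 0) → y = 0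
  kill : ∀ E : Derivation ℂ Ω Ω, dv E T.p ∈ T.La → ∀ c : K, E (algebraMap K Ω c) = 0
  liLa : LinearIndependent Ω ![T.p, T.e 0, T.e 1, T.e 2]
  stab : dv T.Dπ (T.e 2) ∈ T.La
  La : ∀ v, v ∈ T.La ↔
    (algebraMap K Ω ∘ n) ⬝ᵥ v = 0 ∧ T.p ⬝ᵥ (Q.map (algebraMap K Ω)) *ᵥ v = 0
  qq : T.q ⬝ᵥ (Q.map (algebraMap K Ω)) *ᵥ T.q = 0
  ψx : ∀ i, aeval (T.x i) (lin l * lin (dv D' n) ^ 2 - lin (dv D n) * cD D' (qf Q)) = 0
  ψp : aeval T.p (lin l * lin (dv D' n) ^ 2 - lin (dv D n) * cD D' (qf Q)) ≠ 0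

/-- the cubic of the conic type -/
noncomputable def ConEnd.Ψ {T : Tri C Ω} {K : Type} [Field K] [Algebra ℂ K] [Algebra K Ω]
    (E : ConEnd T K) : MvPolynomial (Fin 6) K :=
  lin E.l * lin (dv E.D' E.n) ^ 2 - lin (dv E.D E.n) * cD E.D' (qf E.Q)

end tri

/-- a plane of the line type through the generic point -/
structure Plane {C : Cone ℂ 6} (s : Sect C 2) {k : Type} [Field k] [Algebra ℂ k]
    (p : Fin 6 → k) where
  ι : Fin 3 → Fin 6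
  μ : Fin 3 → Fin 6 → k
  ech : Ech ι μ
  pm : p ∈ Submodule.span k (Set.range μ)
  stab : ∀ D : Derivation ℂ k k, dv D p ∈ Submodule.span k (Set.range μ) → ∀ a, dv D (μ a) = 0
  e : MvPolynomial (Fin 3) k
  ehom : e.IsHomogeneous 3
  de : ∀ D : Derivation ℂ k k, dv D p ∈ Submodule.span k (Set.range μ) → cD D e = 0
  ep : eval (p ∘ ι) e ≠ 0
  dvd : ∀ f ∈ C.I, e ∣ aeval (pl μ) f
  Q : MvPolynomial (Fin 3) k
  Qhom : Q.IsHomogeneous 2
  dQ : ∀ D : Derivation ℂ k k, dv D p ∈ Submodule.span k (Set.range μ) → cD D Q = 0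
  cong : ∀ i, e ∣ pl μ i ^ s.N * Q - aeval (pl μ) (s.G i)
  foc : ∀ D : Fin 3 → Derivation ℂ k k, ∃ t : k, ∀ y : Fin 3 → k,
    (Matrix.of ![μ 0, μ 1, μ 2, ∑ a, y a • dv (D 0) (μ a), ∑ a, y a • dv (D 1) (μ a),
      ∑ a, y a • dv (D 2) (μ a)]).det = t * eval y e

/-- the plane as a subspace -/
def Plane.U {C : Cone ℂ 6} {s : Sect C 2} {k : Type} [Field k] [Algebra ℂ k] {p : Fin 6 → k}
    (P : Plane s p) : Submodule k (Fin 6 → k) := Submodule.span k (Set.range P.μ)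

/-- a quadrisecant line through the generic point with its four planes -/
structure Four {C : Cone ℂ 6} (s : Sect C 2) {k : Type} [Field k] [Algebra ℂ k]
    (p : Fin 6 → k) where
  q : Fin 6 → k
  u : Fin 4 → k
  uinj : Function.Injective u
  on : ∀ i, On C.I (u i • p + q)
  π : Fin 4 → Fin 6 → k
  li : LinearIndependent k ![p, q, π 0, π 1, π 2, π 3]
  P : Fin 4 → Plane s p
  U : ∀ i, (P i).U = Submodule.span k {p, q, π i}
  ey : ∀ i, eval ((u i • p + q) ∘ (P i).ι) (P i).e ≠ 0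
  dy : ∀ i (D : Derivation ℂ k k), dv D p ∈ (P i).U → ∃ t : k, dv D (u i • p + q) = t • (u i • p + q)
  sm : ∀ i (y : Fin 3 → k), y ≠ 0 → gr (P i).e y ≠ 0

/-- local structure of the projection along the double surface (A2, A3) -/
structure Dbl {k : Type} [Field k] (Z : Cone k 5) where
  d : ℕ
  Fb : MvPolynomial (Fin 5) k
  Fhom : Fb.IsHomogeneous d
  M : ℕ
  al : Fin 5 → MvPolynomial (Fin 5) k
  be : Fin 5 → MvPolynomial (Fin 5) k
  alh : ∀ j, (al j).IsHomogeneous (M + 2)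
  beh : ∀ j, (be j).IsHomogeneous (M + 1)
  cmp : ∀ i j, X i ^ (2 * M) * (be j ^ 2 + 4 * al j * X j ^ M) -
    X j ^ (2 * M) * (be i ^ 2 + 4 * al i * X i ^ M) ∈ Z.I
  dne : ∀ j, X j ∉ Z.I → be j ^ 2 + 4 * al j * X j ^ M ∉ Z.I
  loc : ∀ (q0 : Fin 5 → k) (j : Fin 5), On Z.I q0 → q0 j ≠ 0 →
    ∃ a ∈ Z.I, ∃ b ∈ Z.I, ∃ e1 e2 : MvPolynomial (Fin 5) k, eval q0 e1 ≠ 0 ∧ eval q0 e2 ≠ 0 ∧
      LinearIndependent k ![gr a q0, gr b q0] ∧
      e1 * Fb = e2 * (X j ^ M * a ^ 2 + be j * a * b - al j * b ^ 2)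

/-- a conic of a two dimensional family on the surface `Z` (A6) -/
structure Conic {k : Type} [Field k] (Z : Cone k 5) (K : Type) [Field K] [Algebra k K] where
  y : Fin 3 → Fin 5 → K
  a : Fin 3 → Fin 5 → K
  b : Fin 3 → Fin 5 → K
  on : ∀ t w : K, On Z.I (w ^ 2 • y 0 + (w * t) • y 1 + t ^ 2 • y 2)
  ta : ∀ t w : K, Tg Z.I (w ^ 2 • y 0 + (w * t) • y 1 + t ^ 2 • y 2)
    (w ^ 2 • a 0 + (w * t) • a 1 + t ^ 2 • a 2)
  tb : ∀ t w : K, Tg Z.I (w ^ 2 • y 0 + (w * t) • y 1 + t ^ 2 • y 2)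
    (w ^ 2 • b 0 + (w * t) • b 1 + t ^ 2 • b 2)
  m : Fin 2 → Fin 5 → K
  li : LinearIndependent K ![y 0, y 1, y 2, m 0, m 1]
  a0 : a 0 - m 0 ∈ Submodule.span K (Set.range y)
  a1 : a 1 - m 1 ∈ Submodule.span K (Set.range y)
  a2 : a 2 ∈ Submodule.span K (Set.range y)
  b0 : b 0 ∈ Submodule.span K (Set.range y)
  b1 : b 1 - m 0 ∈ Submodule.span K (Set.range y)
  b2 : b 2 - m 1 ∈ Submodule.span K (Set.range y)
  gen : ∀ (R : MvPolynomial (Fin 5) k) (d : ℕ), R.IsHomogeneous d →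
    (∀ t : K, aeval (y 0 + t • y 1 + t ^ 2 • y 2) R = 0) → R ∈ Z.I

end PV
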