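import Pool.Agent.Lib.MP_36fb43_ag.Bas

/-! Planes and lines: substitution lemmas. -/

open MvPolynomial Matrix Module

namespace PV

section gen
variable {k F σ : Type} [Field F]

theorem fo_eval_ln [CommRing k] [Algebra k F] (p q : σ → F) (f : MvPolynomial σ k) (w : F) :
    (aeval (ln p q) f).eval w = aeval (w • p + q) f := by
  induction f using MvPolynomial.induction_on with
  | C c => simp [Polynomial.algebraMap_apply]
  | add f g hf hg => simp [hf, hg]
  | mul_X f i hf =>
    rw [map_mul, map_mul, Polynomial.eval_mul, hf, aeval_X, aeval_X]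
    simp only [ln, Polynomial.eval_add, Polynomial.eval_mul, Polynomial.eval_C, Polynomial.eval_X,
      Pi.add_apply, Pi.smul_apply, smul_eq_mul, mul_comm w]

theorem fo_ln_top (a b : σ → F) {e : MvPolynomial σ F} {d : ℕ} (h : e.IsHomogeneous d) :
    (aeval (ln a b) e).natDegree ≤ d ∧ (aeval (ln a b) e).coeff d = eval a e := by
  classical
  have l1 : ∀ i (n : ℕ), (ln a b i ^ n).natDegree ≤ n ∧ (ln a b i ^ n).coeff n = a i ^ n := by
    intro i n
    have h1 : (ln a b i).natDegree ≤ 1 := Polynomial.natDegree_linear_le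
    have h2 := Polynomial.coeff_pow_of_natDegree_le (m := n) h1
    rw [mul_one] at h2
    refine ⟨by simpa using Polynomial.natDegree_pow_le_of_le n h1, ?_⟩
    rw [h2]
    simp [ln]
  have l2 : ∀ (m : σ →₀ ℕ) (t : Finset σ), (∏ i ∈ t, ln a b i ^ m i).natDegree ≤ ∑ i ∈ t, m i ∧
      (∏ i ∈ t, ln a b i ^ m i).coeff (∑ i ∈ t, m i) = ∏ i ∈ t, a i ^ m i := by
    intro m t
    induction t using Finset.induction_on with
    | empty => simp
    | insert i t hi ih =>
      simp only [Finset.prod_insert hi, Finset.sum_insert hi]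
      exact ⟨Polynomial.natDegree_mul_le_of_le (l1 i _).1 ih.1, by
        rw [Polynomial.coeff_mul_add_eq_of_natDegree_le (l1 i _).1 ih.1, (l1 i _).2, ih.2]⟩
  have l3 : ∀ m ∈ e.support, (aeval (ln a b) (monomial m (coeff m e))).natDegree ≤ d ∧
      (aeval (ln a b) (monomial m (coeff m e))).coeff d = eval a (monomial m (coeff m e)) := by
    intro m hm
    have hd : ∑ i ∈ m.support, m i = d := by
      have := h (mem_support_iff.1 hm)
      simpa [Finsupp.weight_apply, Finsupp.sum] using this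
    rw [aeval_monomial, eval_monomial, Polynomial.algebraMap_apply, Algebra.algebraMap_self_apply,
      Polynomial.coeff_C_mul, ← hd]
    exact ⟨(Polynomial.natDegree_C_mul_le _ _).trans (l2 m _).1, congrArg _ (l2 m _).2⟩
  rw [e.as_sum, map_sum, map_sum, Polynomial.finsetSum_coeff]
  exact ⟨Polynomial.natDegree_sum_le_of_forall_le _ _ fun m hm => (l3 m hm).1,
    Finset.sum_congr rfl fun m hm => (l3 m hm).2⟩

theorem fo_eval_smul {e : MvPolynomial σ F} {d : ℕ} (h : e.IsHomogeneous d) (c : F) (y : σ → F) :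
    eval (c • y) e = c ^ d * eval y e := by
  classical
  rw [e.as_sum, map_sum, map_sum, Finset.mul_sum]
  refine Finset.sum_congr rfl fun m hm => ?_
  have hd : ∑ i ∈ m.support, m i = d := by
    have := h (mem_support_iff.1 hm)
    simpa [Finsupp.weight_apply, Finsupp.sum] using this
  rw [eval_monomial, eval_monomial, ← hd]
  simp only [Finsupp.prod, Pi.smul_apply, smul_eq_mul, mul_pow, Finset.prod_mul_distrib,
    Finset.prod_pow_eq_pow_sum]
  ring

theorem fo_eval_pl [CommRing k] [Algebra k F] {r : ℕ} (μ : Fin r → σ → F) (y : Fin r → F)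
    (f : MvPolynomial σ k) : eval y (aeval (pl μ) f) = aeval (∑ a, y a • μ a) f := by
  induction f using MvPolynomial.induction_on with
  | C c => simp [MvPolynomial.algebraMap_apply]
  | add f g hf hg => simp [hf, hg]
  | mul_X f i hf => simp [hf, pl, mul_comm]

theorem fo_gr_pl [Fintype σ] [CommRing k] [Algebra k F] {r : ℕ} (μ : Fin r → σ → F)
    (y w : Fin r → F) (f : MvPolynomial σ k) :
    gr (aeval (pl μ) f) y ⬝ᵥ w = gr f (∑ a, y a • μ a) ⬝ᵥ ∑ a, w a • μ a := by
  induction f using MvPolynomial.induction_on with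
  | C c => rw [aeval_C, MvPolynomial.algebraMap_apply, ka_gr_C, ka_gr_C]; simp
  | add f g hf hg => simp only [map_add, ka_gr_add, add_dotProduct, hf, hg]
  | mul_X f i hf =>
    have e : gr (pl μ i) y ⬝ᵥ w = (∑ a, w a • μ a) i := by
      have : gr (pl μ i) y = fun a => μ a i := by
        funext a
        simp [gr, pl, pderiv_X, Pi.single_apply]
      simp [this, dotProduct, mul_comm]
    rw [map_mul, ka_gr_mul, ka_gr_mul, add_dotProduct, add_dotProduct, smul_dotProduct,
      smul_dotProduct, smul_dotProduct, smul_dotProduct, hf, ka_gr_X_dot, aeval_X, aeval_X, e,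
      aeval_eq_eval, fo_eval_pl]
    simp [pl, mul_comm]

theorem fo_ln_pl [Fintype σ] [CommRing k] [Algebra k F] {r : ℕ} {ι : Fin r → σ}
    {μ : Fin r → σ → F} (h : Ech ι μ) {p q : σ → F} (hp : p ∈ Submodule.span F (Set.range μ))
    (hq : q ∈ Submodule.span F (Set.range μ)) (f : MvPolynomial σ k) :
    aeval (ln p q ∘ ι) (aeval (pl μ) f) = aeval (ln p q) f := by
  induction f using MvPolynomial.induction_on with
  | C c => simp [MvPolynomial.algebraMap_apply, Polynomial.algebraMap_apply]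
  | add f g hf hg => simp only [map_add, hf, hg]
  | mul_X f i hf =>
    rw [map_mul, map_mul, hf, map_mul, aeval_X, aeval_X]
    congr 1
    have a := congrFun (h.repr hp) i
    have b := congrFun (h.repr hq) i
    simp only [Finset.sum_apply, Pi.smul_apply, smul_eq_mul] at a b
    simp only [pl, map_sum, map_mul, aeval_C, aeval_X, Function.comp, ln,
      Polynomial.algebraMap_apply, Algebra.algebraMap_self_apply]
    rw [a, b]
    simp only [map_sum, map_mul, Finset.sum_mul, ← Finset.sum_add_distrib]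
    exact Finset.sum_congr rfl fun a _ => by ring

/-- dual vectors -/
theorem fo_dual [Fintype σ] {r : ℕ} {h : Fin r → σ → F} (hl : LinearIndependent F h) :
    ∃ π : Fin r → σ → F, ∀ a i, h a ⬝ᵥ π i = if a = i then 1 else 0 := by
  have h1 : (Matrix.of h).rank = Fintype.card (Fin r) := LinearIndependent.rank_matrix hl
  have h2 : LinearMap.range (Matrix.of h).mulVecLin = ⊤ :=
    Submodule.eq_top_of_finrank_eq (by rw [finrank_pi]; exact h1)
  choose π hπ using fun i : Fin r =>
    LinearMap.range_eq_top.1 h2 (Pi.single i (1 : F))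
  exact ⟨π, fun a i => (congrFun (hπ i) a).trans (by rw [Pi.single_apply])⟩

end gen

variable {Z : Cone ℂ 6} {s : Sect Z 2} {k : Type} [Field k] [Algebra ℂ k] {p : Fin 6 → k}

theorem fo_li (P : Plane s p) : finrank k P.U = 3 := by
  rw [Plane.U, finrank_span_eq_card P.ech.li, Fintype.card_fin]

/-- at a point of the cubic, conormal vectors restrict to multiples of one covector -/
theorem fo_kill (P : Plane s p) {x : Fin 6 → k} (hx : x ∈ P.U) (he : eval (x ∘ P.ι) P.e = 0)
    {n : Fin 6 → k} (hn : n ∈ Nm Z.I x) :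
    ∃ c : k, ∀ v ∈ P.U, n ⬝ᵥ v = c * (gr P.e (x ∘ P.ι) ⬝ᵥ (v ∘ P.ι)) := by
  induction hn using Submodule.span_induction with
  | mem n hn =>
    obtain ⟨f, hf, rfl⟩ := hn
    obtain ⟨r, hr⟩ := P.dvd f hf
    refine ⟨eval (x ∘ P.ι) r, fun v hv => ?_⟩
    have := fo_gr_pl P.μ (x ∘ P.ι) (v ∘ P.ι) f
    simp only [Function.comp_apply] at this
    rw [← P.ech.repr hx, ← P.ech.repr hv, hr, ka_gr_mul, aeval_eq_eval, he] at this
    rw [← this]
    simp
  | zero => exact ⟨0, by simp⟩
  | add a b _ _ ha hb =>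
    obtain ⟨c, hc⟩ := ha
    obtain ⟨c', hc'⟩ := hb
    exact ⟨c + c', fun v hv => by rw [add_dotProduct, hc v hv, hc' v hv, add_mul]⟩
  | smul t a _ ha =>
    obtain ⟨c, hc⟩ := ha
    exact ⟨t * c, fun v hv => by rw [smul_dotProduct, hc v hv, smul_eq_mul, mul_assoc]⟩

theorem fo_kill' (P : Plane s p) {x : Fin 6 → k} (hx : x ∈ P.U) (he : eval (x ∘ P.ι) P.e = 0)
    (ht : ¬ Tg Z.I x p) {n : Fin 6 → k} (hn : n ∈ Nm Z.I x) (h0 : n ⬝ᵥ p = 0) :
    ∀ v ∈ P.U, n ⬝ᵥ v = 0 := by
  obtain ⟨c, hc⟩ := fo_kill P hx he hn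
  have hne : gr P.e (x ∘ P.ι) ⬝ᵥ (p ∘ P.ι) ≠ 0 := fun h => ht fun f hf => by
    obtain ⟨c, hc⟩ := fo_kill P hx he (gr_mem hf)
    rw [hc p P.pm, h, mul_zero]
  have c0 : c = 0 := (mul_eq_zero.1 ((hc p P.pm).symm.trans h0)).resolve_right hne
  intro v hv
  rw [hc v hv, c0, zero_mul]

theorem fo_stab (P : Plane s p) {D : Derivation ℂ k k} (hD : dv D p ∈ P.U) {v : Fin 6 → k}
    (hv : v ∈ P.U) : dv D v ∈ P.U := by
  rw [P.ech.repr hv, dv_sum]
  refine Submodule.sum_mem _ fun a _ => ?_
  rw [dv_smul, P.stab D hD a, smul_zero, add_zero]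
  exact Submodule.smul_mem _ _ (Submodule.subset_span ⟨a, rfl⟩)

end PV
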