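import Pool.Agent.Lib.MP_36fb43_ag.G2A

open MvPolynomial Matrix Module

namespace PV

variable {Z : Cone ℂ 6} {s : Sect Z 2} {k : Type} [Field k] [IsAlgClosed k] [Algebra ℂ k]
  {p : Fin 6 → k}

/-- a monic polynomial has a root other than `t` unless `t` is in the coefficient ring -/
theorem g2_root {S L : Type} [CommRing S] [Algebra ℂ S] [Field L] [IsAlgClosed L] [Algebra ℂ L]
    (ψ : S →ₐ[ℂ] L) {F : Polynomial S} (hm : F.Monic) (hd : (F.map ψ.toRingHom).natDegree ≠ 0)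
    {t : L} (ht : ∀ a, ψ a ≠ t) : ∃ w, w ≠ t ∧ F.eval₂ ψ.toRingHom w = 0 := by
  by_contra hn
  push Not at hn
  have hm' := hm.map ψ.toRingHom
  have h1 := (IsAlgClosed.splits (F.map ψ.toRingHom)).nextCoeff_eq_neg_sum_roots_of_monic hm'
  have h2 : (F.map ψ.toRingHom).roots = Multiset.replicate (F.map ψ.toRingHom).natDegree t :=
    Multiset.eq_replicate.2 ⟨IsAlgClosed.card_roots_eq_natDegree, fun w hw => by
      by_contra h
      exact hn w h (by rw [Polynomial.eval₂_eq_eval_map]; exact (Polynomial.mem_roots hm'.ne_zero).1 hw)⟩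
  rw [h2, Multiset.sum_replicate, Polynomial.nextCoeff_map_of_leadingCoeff_ne_zero _
    (by rw [hm.leadingCoeff, map_one]; exact one_ne_zero)] at h1
  have : CharZero L := charZero_of_injective_algebraMap (algebraMap ℂ L).injective
  refine ht (algebraMap ℂ S (-((F.map ψ.toRingHom).natDegree : ℂ)⁻¹) * F.nextCoeff) ?_
  rw [map_mul, AlgHom.commutes, show ψ F.nextCoeff = _ from h1, map_neg, map_inv₀, map_natCast,
    nsmul_eq_mul, neg_mul_neg, inv_mul_cancel_left₀ (Nat.cast_ne_zero.2 hd)]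

omit [IsAlgClosed k] in
/-- `p` specialises to the generic point of the cone with a wrong value -/
theorem g2_spec (hs : ¬ s.Poly) (hp : GenPt p) (P : Plane s p) :
    ∃ (O : ValuationSubring k) (κ : Type) (_ : Field κ) (_ : Algebra ℂ κ) (r : Res ℂ O κ) (t : κ),
      (∀ i, p i ∈ O) ∧ (∀ f : MvPolynomial (Fin 6) ℂ, aeval (r.ρ ∘ p) f = 0 ↔ f ∈ Z.I) ∧
      s.Val (r.ρ ∘ p) t ∧ r.ρ (eval (p ∘ P.ι) P.Q) ≠ t := by
  let _ : Algebra (MvPolynomial (Fin 6) ℂ) k :=
    (aeval p : MvPolynomial (Fin 6) ℂ →ₐ[ℂ] k).toRingHom.toAlgebra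
  have ha : ∀ f : MvPolynomial (Fin 6) ℂ, algebraMap _ k f = aeval p f := fun _ => rfl
  have : FaithfulSMul (MvPolynomial (Fin 6) ℂ) k := (faithfulSMul_iff_algebraMap_injective _ _).2
    ((injective_iff_map_eq_zero _).2 fun f hf => by_contra fun h => not_on hp.ex h hf)
  have hint : IsIntegral (MvPolynomial (Fin 6) ℂ) (eval (p ∘ P.ι) P.Q) := g2_int fun V hV => by
    obtain ⟨ι, μ, e, Q, h, t, -, -, -, hQ, -⟩ := g2_reb P V
      (fun z => by simpa [ha] using hV (C z)) V.toSubring fun a h _ => h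
    rw [← hQ p P.pm]
    exact eval₂_mem (fun c _ => (coeff c Q).2) fun i => by simpa [ha] using hV (X (ι i))
  obtain ⟨L, _, _, _, y, hy, -⟩ := genpt_ex Z
  obtain ⟨i0, hi0⟩ := Z.ne
  have hy0 : y i0 ≠ 0 := fun h => hi0 ((hy _).1 (by rw [aeval_X, h]))
  obtain ⟨t, -, ht, -⟩ := val_ex (R := ℂ) s (fun h => hy0 (congrFun h i0)) fun f hf => (hy f).2 hf
  obtain ⟨w, hw, hr⟩ := g2_root (aeval y) (minpoly.monic hint) (by
      rw [(minpoly.monic hint).natDegree_map]
      exact (minpoly.natDegree_pos hint).ne') (t := t) fun a h => hs ⟨a, fun i => (hy _).1 (by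
      rw [map_sub, map_mul, map_pow, aeval_X, h, ht i, sub_self])⟩
  obtain ⟨O, hO, hv⟩ := val_dom
    (Polynomial.aeval (R := MvPolynomial (Fin 6) ℂ) (eval (p ∘ P.ι) P.Q)).toRingHom
    (Polynomial.eval₂RingHom (aeval y : MvPolynomial (Fin 6) ℂ →ₐ[ℂ] L).toRingHom w) fun a h => by
      obtain ⟨b, rfl⟩ := minpoly.isIntegrallyClosed_dvd hint h
      rw [map_mul, Polynomial.coe_eval₂RingHom, hr, zero_mul]
  have h1 : ∀ f : MvPolynomial (Fin 6) ℂ, aeval p f ∈ O := fun f => by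
    simpa [ha] using hO (Polynomial.C f)
  have h2 : eval (p ∘ P.ι) P.Q ∈ O := by simpa using hO Polynomial.X
  have hpO : ∀ i, p i ∈ O := fun i => by simpa using h1 (X i)
  obtain ⟨κ, _, _, _, ⟨r⟩⟩ := res_ex ℂ O fun c => by simpa using h1 (C c)
  have h3 : ∀ f : MvPolynomial (Fin 6) ℂ, aeval (r.ρ ∘ p) f = 0 ↔ f ∈ Z.I := fun f => by
    rw [← (r.aeval hpO f).2, r.zero _ (h1 f), ← hy]
    simpa [ha] using hv (Polynomial.C f)
  obtain ⟨t', -, ht', -⟩ := val_ex (R := ℂ) s (x := r.ρ ∘ p)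
    (fun h => hi0 ((h3 _).1 (by rw [aeval_X, h]; rfl))) fun f hf => (h3 f).2 hf
  refine ⟨O, κ, inferInstance, inferInstance, r, t', hpO, h3, ht', fun h => hw ?_⟩
  have h4 := (hv (Polynomial.C (X i0 ^ s.N) * Polynomial.X + Polynomial.C (-s.G i0))).1 (by
    have e : (Polynomial.aeval (R := MvPolynomial (Fin 6) ℂ) (eval (p ∘ P.ι) P.Q)).toRingHom
        (Polynomial.C (X i0 ^ s.N) * Polynomial.X + Polynomial.C (-s.G i0)) =
        aeval p (X i0 ^ s.N : MvPolynomial (Fin 6) ℂ) * eval (p ∘ P.ι) P.Q +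
          aeval p (-s.G i0) := by simp [ha]
    rw [← r.zero _ (hO _), e, r.add _ (O.mul_mem _ _ (h1 _) h2) _ (h1 _), r.mul _ (h1 _) _ h2,
      (r.aeval hpO _).2, (r.aeval hpO _).2, h, map_pow, aeval_X, ht' i0, map_neg, add_neg_cancel])
  have h5 : y i0 ^ s.N * w = y i0 ^ s.N * t := by
    rw [ht i0, ← sub_eq_zero]
    simpa [sub_eq_add_neg, Polynomial.eval₂_pow] using h4
  exact mul_left_cancel₀ (pow_ne_zero _ hy0) h5

theorem g2 (hs : ¬ s.Poly) (hp : GenPt p) (P : Plane s p) :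
    ∃ y ∈ P.U, On Z.I y ∧ eval (y ∘ P.ι) P.e ≠ 0 := by
  classical
  obtain ⟨O, κ, _, _, r, t, hpO, hy, ht, hne⟩ := g2_spec hs hp P
  let A : Subring k := O.toSubring ⊓ P.g2K.toSubring
  obtain ⟨ι, μ, e, Q, h, t0, hE, hsp, he, hQ, heh, hQh, hid⟩ :=
    g2_reb P O r.mem A fun a h1 h2 => ⟨h1, h2⟩
  let j : A →+* κ := g2H r A fun a h => h.1
  have hres := fun f : MvPolynomial (Fin 3) A =>
    g2_res r A.subtype j (fun a => a.2.1) (fun _ => rfl) (x := p ∘ ι) (fun a => hpO _) f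
  set y : Fin 6 → κ := r.ρ ∘ p with hyd
  have hyι : r.ρ ∘ p ∘ ι = y ∘ ι := rfl
  have hrep : ∀ i, ∑ a, j (μ a i) * (y ∘ ι) a = y i := fun i => by
    have h1 := (hres (∑ a, C (μ a i) * X a)).2
    have h2 := congrFun (hE.repr (v := p) (hsp ▸ P.pm)) i
    simp only [eval₂_sum, eval₂_mul, eval₂_C, eval₂_X, hyι] at h1
    rw [← h1]
    refine congrArg r.ρ ?_
    simpa [Finset.sum_apply, mul_comm] using h2.symm
  have hc : eval₂ j (y ∘ ι) Q - t ≠ 0 := by
    rw [← hyι, ← (hres Q).2, hQ p P.pm]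
    exact sub_ne_zero.2 hne
  have key : ∀ (c : κ) i, (c * y i) ^ s.N * (c ^ 2 * (eval₂ j (y ∘ ι) Q - t)) =
      c ^ 3 * eval₂ j (y ∘ ι) e * eval₂ j (c • (y ∘ ι)) (h i) := fun c i => by
    have h1 := hid κ j (fun c _ => r.alg c) (c • (y ∘ ι)) i
    have h2 : ∀ i, ∑ a, j (μ a i) * (c • (y ∘ ι)) a = (c • y) i := fun i => by
      rw [Pi.smul_apply, smul_eq_mul, ← hrep, Finset.mul_sum]
      exact Finset.sum_congr rfl fun a _ => by rw [Pi.smul_apply, smul_eq_mul]; ring
    simp only [h2] at h1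
    rw [g2_hom j heh, g2_hom j hQh, ← val_smul s ht c i] at h1
    rw [h1, Pi.smul_apply, smul_eq_mul]
    ring
  obtain ⟨i0, hi0⟩ := Z.ne
  have hy0 : y i0 ≠ 0 := fun h => hi0 ((hy _).1 (by rw [aeval_X, h]))
  have hyn : y ≠ 0 := fun h => hy0 (congrFun h i0)
  have he0 : eval₂ j (y ∘ ι) e ≠ 0 := fun h0 => by
    have := key 1 i0
    rw [h0, mul_zero, zero_mul, one_pow, one_mul, one_mul] at this
    exact mul_ne_zero (pow_ne_zero _ hy0) hc this
  obtain ⟨lam, hlam⟩ : ∃ lam, lam = (eval₂ j (y ∘ ι) Q - t) / eval₂ j (y ∘ ι) e := ⟨_, rfl⟩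
  have hl0 : lam ≠ 0 := hlam ▸ div_ne_zero hc he0
  have hYY : ∀ D : Derivation ℂ κ κ, (∀ i m, D (j (coeff m (h i))) = 0) → dv D (lam • y) = 0 := by
    intro D hD
    funext l
    refine val_der {D} (y := lam * y l) (fun w hw => ?_) D rfl
    obtain ⟨m, hm, hmw⟩ := kb_max w y Finset.univ (fun l hl => (hl (Finset.mem_univ l)).elim) hyn
    have h1 := key (y m)⁻¹ m
    have h2 : eval₂ j ((y m)⁻¹ • (y ∘ ι)) (h m) ∈ w :=
      eval₂_mem (fun c _ => hw _ fun E hE => by rw [hE]; exact hD m c) fun a => hmw (ι a)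
    have h3 : lam * y l = eval₂ j ((y m)⁻¹ • (y ∘ ι)) (h m) * ((y m)⁻¹ * y l) := by
      rw [inv_mul_cancel₀ hm, one_pow, one_mul] at h1
      rw [hlam, ← mul_assoc]
      congr 1
      rw [div_eq_iff he0]
      refine mul_left_cancel₀ (pow_ne_zero 2 (inv_ne_zero hm)) (h1.trans ?_)
      ring
    rw [h3]
    exact w.mul_mem _ _ h2 (hmw l)
  have hz : ∀ z : A, j z = 0 → (z : k) = 0 := by
    intro z hz
    let T : Finset A := insert z (Finset.univ.biUnion fun i => (h i).coeffs)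
    have r1 : finrank k (dsp (Set.univ : Set (Derivation ℂ k k)) fun a : T => (a.1 : k)) ≤ 3 := by
      rw [g2_dsp]
      refine (g2_rk (P.U.mkQ ∘ₗ g2L p) _ fun D hD => funext fun a => a.1.2.2 D
        ((Submodule.Quotient.mk_eq_zero _).1 hD)).trans ((Submodule.finrank_le _).trans ?_)
      have h1 := P.U.finrank_quotient_add_finrank
      have h2 : finrank k P.U = 3 := (finrank_span_eq_card P.ech.li).trans (Fintype.card_fin 3)
      rw [h2, finrank_fintype_fun_eq_card, Fintype.card_fin] at h1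
      omega
    have r2 : 3 ≤ finrank κ (dsp (Set.univ : Set (Derivation ℂ κ κ)) fun a : T => j a.1) := by
      rw [g2_dsp]
      refine le_trans ?_ (g2_rk _ (g2L (lam • y)) fun D hD => hYY D fun i m => ?_)
      · have h1 := finrank_tg Z hyn fun f hf => (hy f).2 hf
        have h2 : perp (Nm Z.I y) ≤ Submodule.span κ {lam • y} ⊔
            LinearMap.range (g2L (R := ℂ) (lam • y)) := fun v hv => by
          obtain ⟨D, rfl⟩ := kc_tan (k := ℂ) y v fun f hf => tg_iff.2 hv f ((hy f).1 hf)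
          rw [← inv_smul_smul₀ hl0 y, dv_smul, smul_inv_smul₀ hl0]
          exact Submodule.add_mem_sup (Submodule.smul_mem _ _ (Submodule.mem_span_singleton_self _))
            (Submodule.smul_mem _ _ ⟨D, rfl⟩)
        have h3 := (Submodule.finrank_mono h2).trans
          (Submodule.finrank_add_le_finrank_add_finrank _ _)
        rw [finrank_span_singleton (smul_ne_zero hl0 hyn)] at h3
        omega
      · by_cases h0 : coeff m (h i) = 0
        · rw [h0, map_zero, map_zero]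
        · exact congrFun hD ⟨_, Finset.mem_insert_of_mem (Finset.mem_biUnion.2
            ⟨i, Finset.mem_univ i, coeff_mem_coeffs m h0⟩)⟩
    have := drop (k := ℂ) (fun a : T => (a.1 : k)) (fun a : T => j a.1) (fun f hf => by
        have := (r.aeval (x := fun a : T => (a.1 : k)) (fun a => a.1.2.1) f).2
        rw [hf, show r.ρ 0 = 0 from j.map_zero] at this
        exact this.symm) Set.univ (fun D _ c => D.map_algebraMap c) (r1.trans r2)
      (X ⟨z, Finset.mem_insert_self _ _⟩) (by rw [aeval_X]; exact hz)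
    rwa [aeval_X] at this
  have hKO : ∀ a ∈ P.g2K.toSubring, a ∈ O := fun a ha => by
    by_contra hn
    have h1 : a⁻¹ ∈ O := (O.mem_or_inv_mem a).resolve_left hn
    have h2 := hz ⟨a⁻¹, h1, P.g2K.inv_mem ha⟩ ((r.zero _ h1).2 (by
      rw [map_inv₀]
      exact inv_lt_one_of_one_lt₀ (not_le.1 fun h => hn ((O.valuation_le_one_iff a).1 h))))
    exact hn (by rw [inv_eq_zero.1 h2]; exact O.zero_mem)
  have := cst_algClosed (R := ℂ) {D : Derivation ℂ k k | dv D p ∈ P.U}
  have : IsAlgClosed P.g2K := this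
  let _ : Algebra P.g2K κ := (g2H r P.g2K.toSubring hKO).toAlgebra
  have : IsScalarTower ℂ P.g2K κ := .of_algebraMap_eq fun c => (r.alg c).symm
  let u : A →+* P.g2K := Subring.inclusion inf_le_right
  have hu : ∀ f : MvPolynomial (Fin 3) A,
      aeval (y ∘ ι) (MvPolynomial.map u f) = eval₂ j (y ∘ ι) f := fun f => by
    rw [aeval_def, eval₂_map]
    rfl
  obtain ⟨x, hx, hxe⟩ := spec_pt (k := P.g2K) (y ∘ ι) (g := MvPolynomial.map u e)
    (by rw [hu]; exact he0)
  have hmem : ∑ a, (x a : k) • (fun i => (μ a i : k)) ∈ P.U :=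
    hsp ▸ Submodule.sum_mem _ fun a _ => Submodule.smul_mem _ _ (Submodule.subset_span ⟨a, rfl⟩)
  refine ⟨_, hmem, fun f hf => ?_, fun h0 => hxe ?_⟩
  · have h1 := hx (aeval (pl fun a i => u (μ a i)) f) (by
      refine (comp_aeval_apply _ ((aeval (y ∘ ι) : MvPolynomial (Fin 3) P.g2K →ₐ[P.g2K] κ
        ).restrictScalars ℂ) f).trans ?_
      refine Eq.trans (congrArg (aeval · f) (funext fun i => ?_)) ((hy f).2 hf)
      rw [← hrep]
      simp only [pl, AlgHom.coe_restrictScalars', map_sum, map_mul, aeval_C, aeval_X]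
      rfl)
    have h2 := comp_aeval_apply (pl fun a i => u (μ a i)) (P.g2K.val.comp
      ((aeval x : MvPolynomial (Fin 3) P.g2K →ₐ[P.g2K] P.g2K).restrictScalars ℂ)) f
    rw [AlgHom.comp_apply, AlgHom.coe_restrictScalars', aeval_eq_eval, h1, map_zero] at h2
    refine Eq.trans (congrArg (aeval · f) (funext fun i => ?_)) h2.symm
    simp only [pl, Finset.sum_apply, map_sum, map_mul, AlgHom.comp_apply,
      AlgHom.coe_restrictScalars', aeval_C, aeval_X, Pi.smul_apply, smul_eq_mul]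
    exact Finset.sum_congr rfl fun a _ => mul_comm _ _
  · have h1 := he _ hmem
    have h2 : (∑ a, (x a : k) • fun i => (μ a i : k)) ∘ ι = fun a => (x a : k) := by
      funext b
      have := fun a => hE a b
      simp only at this
      simp [Finset.sum_apply, this]
    rw [h0, mul_zero, h2] at h1
    refine P.g2K.val.injective ?_
    rw [← eval₂_id, eval₂_map, eval₂_comp_left, map_zero]
    exact h1

end PV
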