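import Pool.Agent.Lib.MP_36fb43_ag.LOut
import Pool.Agent.Lib.MP_36fb43_ag.G2
import Pool.Agent.Lib.MP_36fb43_ag.FourA

/-! The quadrisecant line and its four planes. -/

open MvPolynomial Matrix Module

namespace PV

variable {Z : Cone ℂ 6} {s : Sect Z 2} {k : Type} [Field k] [IsAlgClosed k] [Algebra ℂ k]
  {p : Fin 6 → k}

/-- the quartic on the line through the residual point -/
theorem fo_quart (hs : ¬ s.Poly) (hp : GenPt p) (P : Plane s p) :
    ∃ (q : Fin 6 → k) (j : Fin 6) (g : Polynomial k), q 0 = 0 ∧ q j = 1 ∧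
      LinearIndependent k ![p, q] ∧ g.Monic ∧ g.natDegree = 4 ∧ Al Z.I p q g := by
  have : CharZero k := charZero_of_injective_algebraMap (algebraMap ℂ k).injective
  obtain ⟨y, hy, hon, hey⟩ := g2 hs hp P
  have y0 : y ≠ 0 := by
    rintro rfl
    have := fo_eval_smul P.ehom 0 (0 : Fin 3 → k)
    exact hey (by simpa using this)
  have p0 : p 0 ≠ 0 := by simpa using not_on hp.ex (X_ne_zero (0 : Fin 6))
  have np : ¬ On Z.I p := fun h => by
    have hr := Z.rk k y y0 hon
    have : Nm Z.I y = ⊥ := Submodule.span_eq_bot.2 fun w ⟨f, hf, e⟩ => by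
      by_cases f0 : f = 0
      · rw [e, f0, ← C_0, ka_gr_C]
      · exact absurd (h f hf) (not_on hp.ex f0)
    rw [this] at hr
    simp at hr
  let q1 : Fin 6 → k := y - (y 0 / p 0) • p
  have q0 : q1 ≠ 0 := fun h => by
    have e : y = (y 0 / p 0) • p := sub_eq_zero.1 h
    have c0 : y 0 / p 0 ≠ 0 := fun h => y0 (by rw [e, h, zero_smul])
    have := on_smul Z hon (y 0 / p 0)⁻¹
    rw [show (y 0 / p 0)⁻¹ • y = p by
      conv_lhs => rw [show (y 0 / p 0)⁻¹ • y = (y 0 / p 0)⁻¹ • (y 0 / p 0) • p from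
        congrArg _ e]
      rw [inv_smul_smul₀ c0]] at this
    exact np this
  obtain ⟨j, hj⟩ := Function.ne_iff.1 q0
  have hj : q1 j ≠ 0 := hj
  let q : Fin 6 → k := (q1 j)⁻¹ • q1
  let w : k := (q1 j)⁻¹ * (y 0 / p 0)
  have e : w • p + q = (q1 j)⁻¹ • y := by
    simp only [w, q, q1, smul_sub, smul_smul]
    abel
  have a0 : q 0 = 0 := by simp [q, q1, p0]
  have aj : q j = 1 := by simp [q, hj]
  have qU : q ∈ P.U := P.U.smul_mem _ (P.U.sub_mem hy (P.U.smul_mem _ P.pm))
  obtain ⟨d1, d2⟩ := fo_ln_top (p ∘ P.ι) (q ∘ P.ι) P.ehom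
  set g3 := aeval (ln (p ∘ P.ι) (q ∘ P.ι)) P.e with hg3
  have d3 : g3.natDegree = 3 := Polynomial.natDegree_eq_of_le_of_coeff_ne_zero d1 (d2 ▸ P.ep)
  have g0 : g3 ≠ 0 := fun h => by rw [h] at d3; simp at d3
  have gw : g3.eval w ≠ 0 := by
    rw [hg3, fo_eval_ln, show w • p ∘ P.ι + q ∘ P.ι = (q1 j)⁻¹ • y ∘ P.ι from
      congrArg (· ∘ P.ι) e, aeval_eq_eval, fo_eval_smul P.ehom]
    exact mul_ne_zero (pow_ne_zero _ (inv_ne_zero hj)) hey
  have m3 := Polynomial.monic_mul_leadingCoeff_inv g0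
  refine ⟨q, j, (Polynomial.X - Polynomial.C w) * (g3 * Polynomial.C g3.leadingCoeff⁻¹), a0, aj,
    ?_, (Polynomial.monic_X_sub_C w).mul m3, ?_, fun f hf => ?_⟩
  · refine LinearIndependent.pair_iff.2 fun a b h => ?_
    have h0 := congrFun h 0
    have h1 := congrFun h j
    simp only [Pi.add_apply, Pi.smul_apply, smul_eq_mul, a0, aj, mul_zero, add_zero, mul_one,
      Pi.zero_apply, mul_eq_zero, p0, or_false] at h0 h1
    rw [h0, zero_mul, zero_add] at h1
    exact ⟨h0, h1⟩
  · rw [(Polynomial.monic_X_sub_C w).natDegree_mul m3, Polynomial.natDegree_X_sub_C,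
      Polynomial.natDegree_mul_leadingCoeff_inv _ g0, d3]
  · obtain ⟨r, hr⟩ := P.dvd f hf
    have e1 := fo_ln_pl P.ech P.pm qU f
    rw [hr, map_mul] at e1
    have e2 := congrArg (Polynomial.eval w) e1
    rw [fo_eval_ln p q f, e, on_smul Z hon _ f hf, Polynomial.eval_mul] at e2
    obtain ⟨t, ht⟩ := Polynomial.dvd_iff_isRoot.2 ((mul_eq_zero.1 e2).resolve_left gw)
    refine ⟨Polynomial.C g3.leadingCoeff * t, ?_⟩
    have : Polynomial.C g3.leadingCoeff⁻¹ * Polynomial.C g3.leadingCoeff = 1 := by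
      rw [← map_mul, inv_mul_cancel₀ (Polynomial.leadingCoeff_ne_zero.2 g0), map_one]
    rw [← e1, ht]
    change g3 * _ = _
    linear_combination (-g3 * (Polynomial.X - Polynomial.C w) * t) * this

theorem four_ex (hZ : Z.Nondeg) (hs : ¬ s.Poly) (hp : GenPt p) (P : Plane s p) :
    Nonempty (Four s p) := by
  have : CharZero k := charZero_of_injective_algebraMap (algebraMap ℂ k).injective
  obtain ⟨q, j, g, a0, aj, hq, hm, hd, hg⟩ := fo_quart hs hp P
  obtain ⟨u, h, uinj, rfl, hN, h0, hl, nt⟩ := gpc hp.ex hq hm hd hg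
  have on : ∀ i, On Z.I (u i • p + q) := fun i f hf => by
    rw [← fo_eval_ln]
    exact Polynomial.eval_eq_zero_of_dvd_of_eval_eq_zero (hg f hf) (by
      rw [Polynomial.eval_prod]
      exact Finset.prod_eq_zero (Finset.mem_univ i) (by simp))
  have h1 : ∀ i, h i ⬝ᵥ q = 0 := fun i => by
    have := (tg_self Z (on i)).dot (hN i)
    rwa [dotProduct_add, dotProduct_smul, h0, smul_zero, zero_add] at this
  obtain ⟨π, hπ⟩ := fo_dual hl
  have pq := LinearIndependent.pair_iff.1 hq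
  have li : LinearIndependent k ![p, q, π 0, π 1, π 2, π 3] := by
    refine Fintype.linearIndependent_iff.2 fun c hc => ?_
    have e := fun a => congrArg (h a ⬝ᵥ ·) hc
    have e0 := e 0
    have e1 := e 1
    have e2 := e 2
    have e3 := e 3
    simp [Fin.sum_univ_succ, h0, h1, hπ] at e0 e1 e2 e3
    simp only [Fin.sum_univ_six, Matrix.cons_val, e0, e1, e2, e3, zero_smul, add_zero] at hc
    obtain ⟨b0, b1⟩ := pq _ _ hc
    intro i
    fin_cases i <;> assumption
  have sp : ∀ v : Fin 6 → k, ∃ a b : k, v = a • p + b • q + ∑ i, (h i ⬝ᵥ v) • π i := by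
    intro v
    have t := li.span_eq_top_of_card_eq_finrank' (by simp)
    obtain ⟨c, rfl⟩ := (Submodule.mem_span_range_iff_exists_fun k).1
      (t ▸ Submodule.mem_top (x := v))
    refine ⟨c 0, c 1, ?_⟩
    simp [Fin.sum_univ_succ, h0, h1, hπ, add_assoc]
  have key : ∀ i : Fin 4, ∃ Q : Plane s p, q ∈ Q.U ∧ aeval (ln p q ∘ Q.ι) Q.e =
      Polynomial.C (eval (p ∘ Q.ι) Q.e) *
        ∏ a ∈ Finset.univ.erase i, (Polynomial.X - Polynomial.C (u a)) := fun i =>
    line_out hZ hs hp a0 aj (Polynomial.monic_prod_X_sub_C _ _)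
      (by rw [Polynomial.natDegree_finsetProd_X_sub_C_eq_card]; simp)
      fun f hf => (Finset.prod_dvd_prod_of_subset _ _ _ (Finset.subset_univ _)).trans (hg f hf)
  choose Q hQ hQe using key
  have ev : ∀ i (w : k), eval ((w • p + q) ∘ (Q i).ι) (Q i).e =
      eval (p ∘ (Q i).ι) (Q i).e * ∏ a ∈ Finset.univ.erase i, (w - u a) := fun i w => by
    have := congrArg (Polynomial.eval w) (hQe i)
    rw [show ln p q ∘ (Q i).ι = ln (p ∘ (Q i).ι) (q ∘ (Q i).ι) from rfl, fo_eval_ln,
      aeval_eq_eval] at this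
    exact this.trans (by simp [Polynomial.eval_prod])
  have xU : ∀ i a, u a • p + q ∈ (Q i).U := fun i a =>
    (Q i).U.add_mem ((Q i).U.smul_mem _ (Q i).pm) (hQ i)
  have sub : ∀ i, ∀ v ∈ (Q i).U, ∃ a b : k, v = a • p + b • q + (h i ⬝ᵥ v) • π i := by
    intro i v hv
    obtain ⟨a, b, e⟩ := sp v
    refine ⟨a, b, e.trans ?_⟩
    rw [Finset.sum_eq_single i (fun c _ hc => ?_) (by simp)]
    rw [fo_kill' (Q i) (xU i c) ?_ (nt c) (hN c) (h0 c) v hv, zero_smul]
    rw [ev, Finset.prod_eq_zero (i := c) (by simp [hc]) (sub_self _), mul_zero]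
  refine ⟨⟨q, u, uinj, on, π, li, Q, fun i => ?_, fun i => ?_, fun i D hD => ?_,
    fun i y hy => plane_sm hp (Q i) y hy⟩⟩
  · refine Submodule.eq_of_le_of_finrank_le (fun v hv => ?_) ?_
    · obtain ⟨a, b, e⟩ := sub i v hv
      rw [e]
      refine Submodule.add_mem _ (Submodule.add_mem _ ?_ ?_) ?_ <;>
        exact Submodule.smul_mem _ _ (Submodule.subset_span (by simp))
    · rw [fo_li]
      classical
      refine (finrank_span_le_card _).trans ?_
      rw [Set.toFinset_insert, Set.toFinset_insert, Set.toFinset_singleton]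
      exact Finset.card_le_three
  · rw [ev]
    exact mul_ne_zero (Q i).ep (Finset.prod_ne_zero_iff.2 fun a ha =>
      sub_ne_zero.2 fun e => (Finset.ne_of_mem_erase ha) (uinj e).symm)
  · have t := tg_dv (on i) D D.map_algebraMap
    obtain ⟨a, b, e⟩ := sub i _ (fo_stab (Q i) hD (xU i i))
    rw [t.dot (hN i), zero_smul, add_zero] at e
    have e' : dv D (u i • p + q) = (a - b * u i) • p + b • (u i • p + q) := by
      rw [e, smul_add, smul_smul, sub_smul]; abel
    have c0 : a - b * u i = 0 := by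
      by_contra hc
      refine nt i fun f hf => ?_
      have := t f hf
      rw [e', dotProduct_add, dotProduct_smul, dotProduct_smul, tg_self Z (on i) f hf,
        smul_zero, add_zero] at this
      exact (smul_eq_zero.1 this).resolve_left hc
    exact ⟨b, by rw [e', c0, zero_smul, zero_add]⟩

end PV
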