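import Pool.Agent.Lib.MP_36fb43_ag.SDefs
import Pool.Agent.Lib.MP_36fb43_ag.KC

/-! From the classical statement to cones, sections and skew matrices. -/

open MvPolynomial Matrix Module

namespace PV

section fr
variable {k F σ : Type} [Field k] [Field F] [Algebra k F] [Fintype σ]

omit [Fintype σ] in
theorem fr_smul {f : MvPolynomial σ k} {d : ℕ} (hf : f.IsHomogeneous d) (a : k) (x : σ → k) :
    eval (a • x) f = a ^ d * eval x f := aeval_smul_hom hf a x

omit [Fintype σ] in
theorem fr_comp [Infinite k] {A : MvPolynomial σ k} {v : σ → k} {n : ℕ} {c : k}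
    (h : ∀ t : k, t ≠ 0 → eval (t • v) A = t ^ n * c) (d : ℕ) :
    eval v (homogeneousComponent d A) = if d = n then c else 0 := by
  classical
  let P : Polynomial k := ∑ e ∈ Finset.range (A.totalDegree + 1),
    Polynomial.monomial e (eval v (homogeneousComponent e A)) - Polynomial.monomial n c
  have h1 : P = 0 := by
    refine Polynomial.eq_zero_of_infinite_isRoot _ (Set.Infinite.mono (s := {0}ᶜ)
      (fun t ht => ?_) (Set.finite_singleton (0 : k)).infinite_compl)
    have h2 := h t ht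
    rw [← sum_homogeneousComponent A, map_sum] at h2
    simp only [P, Set.mem_ofPred_eq, Polynomial.IsRoot, Polynomial.eval_sub,
      Polynomial.eval_finsetSum, Polynomial.eval_monomial]
    rw [sub_eq_zero, mul_comm c, ← h2]
    refine Finset.sum_congr rfl fun e _ => ?_
    rw [fr_smul (homogeneousComponent_isHomogeneous e A), mul_comm]
  have h2 := congrArg (fun p => Polynomial.coeff p d) h1
  simp only [P, Polynomial.coeff_sub, Polynomial.finsetSum_coeff, Polynomial.coeff_monomial,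
    Polynomial.coeff_zero, Finset.sum_ite_eq', Finset.mem_range, sub_eq_zero] at h2
  by_cases hd : d < A.totalDegree + 1
  · rw [if_pos hd] at h2
    rw [h2]
    simp only [eq_comm]
  · rw [if_neg hd] at h2
    rw [homogeneousComponent_eq_zero _ _ (by omega), map_zero]
    simpa only [eq_comm (a := d)] using h2

theorem fr_minor {r : ℕ} {v : Fin r → σ → F} :
    LinearIndependent F v ↔ ∃ ι : Fin r → σ, (Matrix.of fun a b => v a (ι b)).det ≠ 0 := by
  constructor
  · intro h
    obtain ⟨ι, l, hl, hs⟩ := ech_ex (Submodule.span F (Set.range v))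
      (r := r) (by rw [finrank_span_eq_card h, Fintype.card_fin])
    refine ⟨ι, fun h0 => ?_⟩
    obtain ⟨c, hc, e⟩ := Matrix.exists_vecMul_eq_zero_iff.2 h0
    refine hc (funext (Fintype.linearIndependent_iff.1 h c ?_))
    have hm : ∑ a, c a • v a ∈ Submodule.span F (Set.range l) := hs ▸
      Submodule.sum_mem _ fun a _ => Submodule.smul_mem _ _ (Submodule.subset_span ⟨a, rfl⟩)
    rw [hl.repr hm]
    refine Finset.sum_eq_zero fun b _ => ?_
    have := congrFun e b
    simp only [Matrix.vecMul, dotProduct, Matrix.of_apply, Pi.zero_apply] at this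
    simp [Finset.sum_apply, this]
  · rintro ⟨ι, h⟩
    exact LinearIndependent.of_comp (LinearMap.funLeft F F ι)
      (Matrix.linearIndependent_rows_of_det_ne_zero h)

theorem fr_rank {I : Ideal (MvPolynomial σ k)} {x : σ → F} {r : ℕ} :
    r ≤ finrank F (Nm I x) ↔ ∃ (f : Fin r → MvPolynomial σ k) (ι : Fin r → σ), (∀ a, f a ∈ I) ∧
      aeval x (Matrix.of fun a b => pderiv (ι b) (f a)).det ≠ 0 := by
  have hd : ∀ (f : Fin r → MvPolynomial σ k) (ι : Fin r → σ),
      aeval x (Matrix.of fun a b => pderiv (ι b) (f a)).det =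
        (Matrix.of fun a b => gr (f a) x (ι b)).det := fun f ι => by
    rw [AlgHom.map_det]
    rfl
  simp only [hd]
  constructor
  · intro h
    obtain ⟨w, h1, -, h2⟩ := Submodule.exists_fun_fin_finrank_span_eq F {w | ∃ f ∈ I, w = gr f x}
    choose f hf e using h1
    have h3 := h2.comp (Fin.castLE h) (Fin.castLE_injective h)
    obtain ⟨ι, hι⟩ := fr_minor.1 h3
    refine ⟨fun a => f (Fin.castLE h a), ι, fun a => hf _, ?_⟩
    simpa only [← e, Function.comp_apply] using hι
  · rintro ⟨f, ι, hf, h⟩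
    have h1 : LinearIndependent F fun a => gr (f a) x := fr_minor.2 ⟨ι, h⟩
    have h2 : Submodule.span F (Set.range fun a => gr (f a) x) ≤ Nm I x :=
      Submodule.span_mono (by rintro _ ⟨a, rfl⟩; exact ⟨f a, hf a, rfl⟩)
    have := Submodule.finrank_mono h2
    rwa [finrank_span_eq_card h1, Fintype.card_fin] at this

omit [Fintype σ] in
theorem fr_nm {I : Ideal (MvPolynomial σ k)} (hI : ∀ f ∈ I, ∀ d, homogeneousComponent d f ∈ I)
    (x : σ → F) (t : F) : Nm I (t • x) ≤ Nm I x := by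
  refine Submodule.span_le.2 ?_
  rintro _ ⟨f, hf, rfl⟩
  have : gr f (t • x) = ∑ d ∈ Finset.range (f.totalDegree + 1),
      t ^ (d - 1) • gr (homogeneousComponent d f) x := by
    funext i
    conv_lhs => rw [← sum_homogeneousComponent f]
    simp only [gr, map_sum, Finset.sum_apply, Pi.smul_apply, smul_eq_mul]
    exact Finset.sum_congr rfl fun d _ =>
      aeval_smul_hom (homogeneousComponent_isHomogeneous d f).pderiv t x
  rw [this]
  exact Submodule.sum_mem _ fun d _ => Submodule.smul_mem _ _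
    (Submodule.subset_span ⟨_, hI f hf d, rfl⟩)

end fr

variable {X : Set PVS.P5}

theorem fr_mem {f : MvPolynomial (Fin 6) ℂ} :
    f ∈ PVS.idealOf X ↔ ∀ x ∈ X, ∀ t : ℂ, t ≠ 0 → eval (t • x.rep) f = 0 := by
  constructor
  · intro hf x hx t _
    induction hf using Submodule.span_induction with
    | mem f hf =>
      obtain ⟨⟨d, hd⟩, h0⟩ := hf
      rw [fr_smul hd, h0 x hx, mul_zero]
    | zero => simp
    | add f g _ _ hf hg => rw [map_add, hf, hg, add_zero]
    | smul a f _ hf => rw [smul_eq_mul, map_mul, hf, mul_zero]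
  · intro h
    rw [← sum_homogeneousComponent f]
    refine Ideal.sum_mem _ fun d _ => Ideal.subset_span
      ⟨⟨d, homogeneousComponent_isHomogeneous d f⟩, fun x hx => ?_⟩
    rw [fr_comp (n := 0) (c := 0) (fun t ht => by rw [h x hx t ht, mul_zero]), ite_self]

theorem fr_hom {f : MvPolynomial (Fin 6) ℂ} (hf : f ∈ PVS.idealOf X) (d : ℕ) :
    homogeneousComponent d f ∈ PVS.idealOf X :=
  Ideal.subset_span ⟨⟨d, homogeneousComponent_isHomogeneous d f⟩, fun x hx => by
    rw [fr_comp (n := 0) (c := 0) (fun t ht => by rw [fr_mem.1 hf x hx t ht, mul_zero]), ite_self]⟩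

theorem fr_on (hX : PVS.SmoothThreefold X) {v : Fin 6 → ℂ} (hv : v ≠ 0) :
    On (PVS.idealOf X) v ↔ Projectivization.mk ℂ v hv ∈ X := by
  obtain ⟨a, ha⟩ := Projectivization.exists_smul_eq_mk_rep ℂ v hv
  constructor
  · intro h
    refine hX.closed _ fun f hf => ?_
    rw [← ha, ← sum_homogeneousComponent f, map_sum]
    refine Finset.sum_eq_zero fun d _ => ?_
    have := aeval_smul_hom (homogeneousComponent_isHomogeneous d f) (a : ℂ) v
    rw [h _ (fr_hom hf d), mul_zero] at this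
    exact this
  · intro h f hf
    have := fr_mem.1 hf _ h (a⁻¹ : ℂˣ) (Units.ne_zero _)
    rw [← ha, ← Units.smul_def, inv_smul_smul] at this
    exact this

theorem fr_mem' (hX : PVS.SmoothThreefold X) {f : MvPolynomial (Fin 6) ℂ}
    (h : ∀ v, v ≠ 0 → On (PVS.idealOf X) v → eval v f = 0) : f ∈ PVS.idealOf X :=
  fr_mem.2 fun x hx t ht => h _ (smul_ne_zero ht x.rep_nonzero)
    fun g hg => fr_mem.1 hg x hx t ht

theorem fr_two (hX : PVS.SmoothThreefold X) {v : Fin 6 → ℂ} (hv : v ≠ 0)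
    (h : On (PVS.idealOf X) v) : finrank ℂ (Nm (PVS.idealOf X) v) = 2 := by
  obtain ⟨a, ha⟩ := Projectivization.exists_smul_eq_mk_rep ℂ v hv
  have h1 := hX.smooth _ ((fr_on hX hv).1 h)
  rw [← ha] at h1
  have h2 : Nm (PVS.idealOf X) ((a : ℂ) • v) = Nm (PVS.idealOf X) v := by
    refine le_antisymm (fr_nm (fun f hf => fr_hom hf) _ _) ?_
    have := fr_nm (I := PVS.idealOf X) (fun f hf => fr_hom hf) ((a : ℂ) • v) (a : ℂ)⁻¹
    rwa [inv_smul_smul₀ a.ne_zero] at this
  rw [← h2]
  exact h1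

theorem front_cone {X : Set PVS.P5} (hX : PVS.SmoothThreefold X) :
    ∃ Z : Cone ℂ 6, Z.I = PVS.idealOf X := by
  refine ⟨⟨PVS.idealOf X, hX.irred, fun f hf => fr_hom hf, ?_, fun F _ _ x hx h => ?_⟩, rfl⟩
  · by_contra h
    push Not at h
    refine hX.irred.ne_top ((Ideal.eq_top_iff_one _).2 (fr_mem.2 fun x hx t _ => ?_))
    refine absurd (funext fun i => ?_) x.rep_nonzero
    simpa using fr_mem.1 (h i) x hx 1 one_ne_zero
  · obtain ⟨i, hi⟩ := Function.ne_iff.1 hx
    refine le_antisymm ?_ ?_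
    · by_contra h3
      obtain ⟨f, ι, hf, hd⟩ := (fr_rank (r := 3)).1 (Nat.succ_le_of_lt (not_le.1 h3))
      obtain ⟨y, h1, h2⟩ := spec_pt x
        (g := MvPolynomial.X i * (Matrix.of fun a b => pderiv (ι b) (f a)).det)
        (by rw [map_mul, aeval_X]; exact mul_ne_zero hi hd)
      rw [map_mul, eval_X, mul_ne_zero_iff] at h2
      have h4 := (fr_rank (x := y)).2 ⟨f, ι, hf, h2.2⟩
      rw [fr_two hX (fun e => h2.1 (by simp [e])) (fun g hg => h1 g (h g hg))] at h4
      omega
    · obtain ⟨y, h1, h2⟩ := spec_pt (k := ℂ) x (g := MvPolynomial.X i) (by rwa [aeval_X])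
      rw [eval_X] at h2
      obtain ⟨f, ι, hf, hd⟩ := (fr_rank (r := 2)).1
        (fr_two hX (fun e => h2 (by simp [e])) (fun g hg => h1 g (h g hg))).ge
      exact fr_rank.2 ⟨f, ι, hf, fun e => hd (h1 _ e)⟩

theorem front_sect {X : Set PVS.P5} (hX : PVS.SmoothThreefold X) (h : ¬ PVS.QuadNormal X)
    (Z : Cone ℂ 6) (hZ : Z.I = PVS.idealOf X) : ∃ s : Sect Z 2, ¬ s.Poly := by
  unfold PVS.QuadNormal at h
  push Not at h
  obtain ⟨s, hs, hq⟩ := h
  have loc : ∀ v, v ≠ 0 → On (PVS.idealOf X) v → ∃ (d : ℕ) (G H : MvPolynomial (Fin 6) ℂ),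
      G.IsHomogeneous (d + 2) ∧ H.IsHomogeneous d ∧ eval v H ≠ 0 ∧
      ∀ w, w ≠ 0 → On (PVS.idealOf X) w → eval w H ≠ 0 → s w = eval w G / eval w H := by
    intro v hv ho
    obtain ⟨d, G, H, hG, hH, h0, h1⟩ := hs _ ((fr_on hX hv).1 ho)
    obtain ⟨a, ha⟩ := Projectivization.exists_smul_eq_mk_rep ℂ v hv
    refine ⟨d, G, H, hG, hH, fun e => h0 ?_, fun w hw how => h1 w hw ((fr_on hX hw).1 how)⟩
    rw [← ha, Units.smul_def, fr_smul hH, e, mul_zero]
  have hon : ∀ v (t : ℂ), On (PVS.idealOf X) v → On (PVS.idealOf X) (t • v) := fun v t ho =>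
    hZ ▸ on_smul Z (hZ ▸ ho) t
  have sm : ∀ v, v ≠ 0 → On (PVS.idealOf X) v → ∀ t : ℂ, t ≠ 0 → s (t • v) = t ^ 2 * s v := by
    intro v hv ho t ht
    obtain ⟨d, G, H, hG, hH, h0, h1⟩ := loc v hv ho
    have e1 := fr_smul hH t v
    have e2 := fr_smul hG t v
    rw [h1 v hv ho h0, h1 _ (smul_ne_zero ht hv) (hon v t ho)
      (by rw [e1]; exact mul_ne_zero (pow_ne_zero _ ht) h0), e1, e2]
    field_simp
    ring
  let J : Ideal (MvPolynomial (Fin 6) ℂ) :=
    { carrier := {g | ∃ A, ∀ v, v ≠ 0 → On (PVS.idealOf X) v → eval v g * s v = eval v A}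
      add_mem' := by
        rintro a b ⟨A, hA⟩ ⟨B, hB⟩
        exact ⟨A + B, fun v hv ho => by rw [map_add, map_add, add_mul, hA v hv ho, hB v hv ho]⟩
      zero_mem' := ⟨0, fun v _ _ => by simp⟩
      smul_mem' := by
        rintro c a ⟨A, hA⟩
        exact ⟨c * A, fun v hv ho => by
          rw [smul_eq_mul, map_mul, map_mul, mul_assoc, hA v hv ho]⟩ }
  have hJ : ∀ i, ∃ N : ℕ, MvPolynomial.X i ^ N ∈ J := by
    intro i
    have : MvPolynomial.X i ∈ J.radical := by
      rw [← vanishingIdeal_zeroLocus_eq_radical (K := ℂ), mem_vanishingIdeal_iff]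
      intro v hv
      rw [mem_zeroLocus_iff] at hv
      by_contra h0
      have hv0 : v ≠ 0 := fun e => h0 (by simp [e])
      have ho : On (PVS.idealOf X) v := fun f hf =>
        hv f ⟨0, fun w _ hw => by rw [show eval w f = 0 from hw f hf]; simp⟩
      obtain ⟨d, G, H, -, -, h1, h2⟩ := loc v hv0 ho
      have h3 := hv (H * H) ⟨H * G, fun w hw how => by
        by_cases e : eval w H = 0
        · simp [e]
        · rw [h2 w hw how e, map_mul, map_mul]
          field_simp⟩
      rw [map_mul, mul_self_eq_zero] at h3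
      exact h1 h3
    exact this
  choose N hN using hJ
  have hM : ∀ i, MvPolynomial.X i ^ (∑ j, N j) ∈ J := fun i =>
    Ideal.pow_mem_of_pow_mem J (hN i)
      (Finset.single_le_sum (fun _ _ => Nat.zero_le _) (Finset.mem_univ i))
  generalize ∑ j, N j = M at hM
  choose A hA using hM
  have hG : ∀ i v, v ≠ 0 → On (PVS.idealOf X) v →
      eval v (homogeneousComponent (M + 2) (A i)) = v i ^ M * s v := by
    intro i v hv ho
    rw [fr_comp (n := M + 2) (c := v i ^ M * s v), if_pos rfl]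
    intro t ht
    rw [← hA i _ (smul_ne_zero ht hv) (hon v t ho), sm v hv ho t ht]
    simp only [map_pow, eval_X, Pi.smul_apply, smul_eq_mul]
    ring
  refine ⟨⟨M, fun i => homogeneousComponent (M + 2) (A i),
    fun i => homogeneousComponent_isHomogeneous _ _, fun i j => ?_⟩, ?_⟩
  · rw [hZ]
    refine fr_mem' hX fun v hv ho => ?_
    simp only [map_sub, map_mul, map_pow, eval_X, hG _ v hv ho]
    ring
  · rintro ⟨B, hB⟩
    have hB' : ∀ v, v ≠ 0 → On (PVS.idealOf X) v → eval v B = s v := by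
      intro v hv ho
      obtain ⟨i, hi⟩ := Function.ne_iff.1 hv
      have h0 : MvPolynomial.X i ^ M * B - homogeneousComponent (M + 2) (A i) ∈ Z.I := hB i
      rw [hZ] at h0
      have h1 : eval v _ = 0 := ho _ h0
      simp only [map_sub, map_mul, map_pow, eval_X, hG _ v hv ho, sub_eq_zero] at h1
      exact mul_left_cancel₀ (pow_ne_zero _ hi) h1
    obtain ⟨v, hv, h1, h2⟩ := hq _ (homogeneousComponent_isHomogeneous 2 B)
    have ho := (fr_on hX hv).2 h1
    refine h2 ?_
    rw [fr_comp (n := 2) (c := s v), if_pos rfl]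
    intro t ht
    rw [hB' _ (smul_ne_zero ht hv) (hon v t ho), sm v hv ho t ht]

theorem front_pal {X : Set PVS.P5} (hX : PVS.SmoothThreefold X) (h : Palat (PVS.idealOf X)) :
    ∃ W : Submodule ℂ (LinearMap.BilinForm ℂ (Fin 6 → ℂ)), (∀ ω ∈ W, ω.IsAlt) ∧
      Module.finrank ℂ W = 4 ∧ X = PVS.XW W := by
  obtain ⟨W, h1, h2, h3⟩ := h
  have key : ∀ ω ∈ W, ∀ x v : Fin 6 → ℂ, Matrix.toBilin' ω x v = -(v ⬝ᵥ ω *ᵥ x) := by
    intro ω hω x v
    rw [Matrix.toBilin'_apply', dotProduct_mulVec, ← mulVec_transpose, h1 ω hω, neg_mulVec,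
      neg_dotProduct, dotProduct_comm]
  refine ⟨W.map (Matrix.toBilin' (R₁ := ℂ) (n := Fin 6)).toLinearMap, ?_, ?_, ?_⟩
  · rintro _ ⟨ω, hω, rfl⟩ v
    have h4 := key ω hω v v
    rw [← Matrix.toBilin'_apply'] at h4
    exact self_eq_neg.1 h4
  · rw [LinearEquiv.finrank_map_eq, h2]
  · ext x
    rw [← x.mk_rep, ← fr_on hX x.rep_nonzero, x.mk_rep, h3 _ x.rep_nonzero]
    constructor
    · rintro ⟨ω, hω, h0, e⟩
      refine ⟨_, ⟨ω, hω, rfl⟩, by simpa using h0, fun v => ?_⟩
      have := key ω hω x.rep v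
      rw [e, dotProduct_zero, neg_zero] at this
      exact this
    · rintro ⟨_, ⟨ω, hω, rfl⟩, h0, e⟩
      refine ⟨ω, hω, by simpa using h0, funext fun i => ?_⟩
      have := (key ω hω x.rep (Pi.single i 1)).symm.trans (e _)
      simpa using this

end PV
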