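import Pool.Agent.Lib.MP_36fb43_ag.Bas

/-! Helpers for the residual point. -/

open MvPolynomial Matrix Module

namespace PV

/-- an element of all valuation rings above a ring is integral -/
theorem g2_int {P M : Type} [CommRing P] [Field M] [Algebra P M] {φ : M}
    (H : ∀ V : ValuationSubring M, (∀ a, algebraMap P M a ∈ V) → φ ∈ V) : IsIntegral P φ := by
  have h1 : φ ∈ (integralClosure (Subring.closure (Set.range (algebraMap P M))) M).toSubring := by
    rw [← iInf_valuationSubring_superset, Subring.mem_iInf]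
    exact fun V => H V.1 fun a => V.2 ⟨a, rfl⟩
  have h2 : Subring.closure (Set.range (algebraMap P M)) = (algebraMap P M).range :=
    Subring.closure_eq (algebraMap P M).range
  rw [h2] at h1
  obtain ⟨q, hq, h0⟩ : IsIntegral (algebraMap P M).range φ := h1
  obtain ⟨q', e, -, hq'⟩ := Polynomial.lifts_and_degree_eq_and_monic
    (Polynomial.mem_lifts_of_surjective (algebraMap P M).rangeRestrict_surjective q) hq
  refine ⟨q', hq', ?_⟩
  rw [← e, Polynomial.eval₂_map] at h0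
  exact h0

section der
variable {F R σ : Type} [Field R] [Field F] [Algebra R F] [Fintype σ]

omit [Fintype σ] in
/-- the derivative of `x` as a linear function of the derivation -/
def g2L (x : σ → F) : Derivation R F F →ₗ[F] (σ → F) where
  toFun D := dv D x
  map_add' D E := dvD_add D E x
  map_smul' a D := dvD_smul D a x

omit [Fintype σ] in
theorem g2_dsp (x : σ → F) :
    dsp (Set.univ : Set (Derivation R F F)) x = LinearMap.range (g2L (R := R) x) := by
  refine le_antisymm (Submodule.span_le.2 ?_) ?_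
  · rintro _ ⟨D, -, rfl⟩
    exact ⟨D, rfl⟩
  · rintro _ ⟨D, rfl⟩
    exact Submodule.subset_span ⟨D, trivial, rfl⟩

theorem g2_rk {V W1 W2 : Type} [AddCommGroup V] [AddCommGroup W1] [AddCommGroup W2] [Module F V]
    [Module F W1] [Module F W2] [Module.Finite F W1] (α : V →ₗ[F] W1) (β : V →ₗ[F] W2)
    (h : LinearMap.ker α ≤ LinearMap.ker β) :
    finrank F (LinearMap.range β) ≤ finrank F (LinearMap.range α) := by
  have : Module.Finite F (V ⧸ LinearMap.ker α) := .equiv α.quotKerEquivRange.symm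
  rw [← α.quotKerEquivRange.finrank_eq, ← Submodule.range_liftQ _ β h]
  exact LinearMap.finrank_range_le _

/-- polynomials with constant coefficients -/
def g2R (D : Derivation R F F) : Subring (MvPolynomial σ F) where
  carrier := {f | cD D f = 0}
  mul_mem' := fun {a b} (ha : cD D a = 0) (hb : cD D b = 0) => by
    change cD D (a * b) = 0
    rw [cD_mul, ha, hb, zero_mul, mul_zero, add_zero]
  add_mem' := fun {a b} (ha : cD D a = 0) (hb : cD D b = 0) => by
    change cD D (a + b) = 0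
    rw [ka_cD_add, ha, hb, add_zero]
  one_mem' := by
    change cD D (C 1) = 0
    rw [ka_cD_C, D.map_one_eq_zero, C_0]
  zero_mem' := ka_cD_zero D
  neg_mem' := fun {a} (ha : cD D a = 0) => by
    change cD D (-a) = 0
    rw [ka_cD_neg, ha, neg_zero]

theorem g2R_C {D : Derivation R F F} {c : F} (h : D c = 0) :
    (C c : MvPolynomial σ F) ∈ g2R D := by
  change cD D (C c) = 0
  rw [ka_cD_C, h, C_0]

end der

theorem g2_lift {F σ : Type} [CommRing F] (A : Subring F) {f : MvPolynomial σ F}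
    (h : ∀ m, coeff m f ∈ A) : ∃ f0 : MvPolynomial σ A, MvPolynomial.map A.subtype f0 = f := by
  refine ⟨∑ m ∈ f.support, monomial m ⟨coeff m f, h m⟩, ?_⟩
  simp only [map_sum, map_monomial]
  exact f.as_sum.symm

theorem g2_amem {R S σ : Type} [CommRing R] [CommRing S] [Algebra R S] (T : Subring S)
    {v : σ → S} (hv : ∀ i, v i ∈ T) (f : MvPolynomial σ R)
    (hc : ∀ m, algebraMap R S (coeff m f) ∈ T) : aeval v f ∈ T := by
  rw [aeval_def]
  exact eval₂_mem (fun c _ => hc _) hv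

theorem g2_hom {A B σ : Type} [CommRing A] [CommRing B] (j : A →+* B) {f : MvPolynomial σ A}
    {d : ℕ} (h : f.IsHomogeneous d) (t : B) (x : σ → B) :
    eval₂ j (t • x) f = t ^ d * eval₂ j x f := by
  rw [eval₂_eq, eval₂_eq, Finset.mul_sum]
  refine Finset.sum_congr rfl fun m hm => ?_
  simp only [Pi.smul_apply, smul_eq_mul, mul_pow, Finset.prod_mul_distrib,
    Finset.prod_pow_eq_pow_sum]
  rw [h.degree_eq_sum_deg_support hm]
  ring

theorem g2_res {k F κ A σ : Type} [Field k] [Field F] [Algebra k F] {O : ValuationSubring F}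
    [Field κ] [Algebra k κ] (r : Res k O κ) [CommRing A] (j : A →+* F) (j' : A →+* κ)
    (hj : ∀ a, j a ∈ O) (hj' : ∀ a, r.ρ (j a) = j' a) {x : σ → F} (hx : ∀ i, x i ∈ O)
    (f : MvPolynomial σ A) : eval₂ j x f ∈ O ∧ r.ρ (eval₂ j x f) = eval₂ j' (r.ρ ∘ x) f := by
  induction f using MvPolynomial.induction_on with
  | C c => simpa using ⟨hj c, hj' c⟩
  | add f g hf hg =>
    rw [eval₂_add, eval₂_add]
    exact ⟨O.add_mem _ _ hf.1 hg.1, by rw [r.add _ hf.1 _ hg.1, hf.2, hg.2]⟩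
  | mul_X f i hf =>
    rw [eval₂_mul, eval₂_mul, eval₂_X, eval₂_X]
    exact ⟨O.mul_mem _ _ hf.1 (hx i), by rw [r.mul _ hf.1 _ (hx i), hf.2]; rfl⟩

/-- the residue map on a subring of the valuation ring -/
def g2H {k F κ : Type} [Field k] [Field F] [Algebra k F] {O : ValuationSubring F}
    [Field κ] [Algebra k κ] (r : Res k O κ) (A : Subring F) (h : ∀ a ∈ A, a ∈ O) : A →+* κ where
  toFun a := r.ρ a
  map_one' := by simpa using r.alg 1
  map_zero' := by simpa using r.alg 0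
  map_mul' a b := r.mul _ (h _ a.2) _ (h _ b.2)
  map_add' a b := r.add _ (h _ a.2) _ (h _ b.2)

variable {Z : Cone ℂ 6} {s : Sect Z 2} {k : Type} [Field k] [Algebra ℂ k] {p : Fin 6 → k}

/-- constants along the plane -/
noncomputable def Plane.g2K (P : Plane s p) : IntermediateField ℂ k := cst {D | dv D p ∈ P.U}

/-- the data of the plane in an integral echelon basis -/
theorem g2_reb (P : Plane s p) (O : ValuationSubring k) (hO : ∀ c : ℂ, algebraMap ℂ k c ∈ O)
    (A : Subring k) (hA : ∀ a, a ∈ O → a ∈ P.g2K → a ∈ A) :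
    ∃ (ι : Fin 3 → Fin 6) (μ : Fin 3 → Fin 6 → A) (e Q : MvPolynomial (Fin 3) A)
      (h : Fin 6 → MvPolynomial (Fin 3) A) (t : k),
      Ech ι (fun a i => (μ a i : k)) ∧
      Submodule.span k (Set.range fun a i => (μ a i : k)) = P.U ∧
      (∀ v ∈ P.U, eval₂ A.subtype (v ∘ ι) e = t * eval (v ∘ P.ι) P.e) ∧
      (∀ v ∈ P.U, eval₂ A.subtype (v ∘ ι) Q = eval (v ∘ P.ι) P.Q) ∧
      e.IsHomogeneous 3 ∧ Q.IsHomogeneous 2 ∧
      ∀ (B : Type) [CommRing B] [Algebra ℂ B] (j : A →+* B),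
        (∀ c h, j ⟨algebraMap ℂ k c, h⟩ = algebraMap ℂ B c) → ∀ (Y : Fin 3 → B) (i : Fin 6),
        eval₂ j Y e * eval₂ j Y (h i) = (∑ a, j (μ a i) * Y a) ^ s.N * eval₂ j Y Q -
          aeval (fun i => ∑ a, j (μ a i) * Y a) (s.G i) := by
  obtain ⟨ι, μ, hE, hsp, hμO, hμK⟩ := ech_val O P.μ P.ech.li
  have hμ : ∀ a i, μ a i ∈ P.g2K := hμK P.g2K.toSubfield fun a i D hD =>
    congrFun (P.stab D hD a) i
  let φ : MvPolynomial (Fin 3) k →ₐ[k] MvPolynomial (Fin 3) k := aeval fun a => pl μ (P.ι a)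
  have hφ : ∀ i, φ (pl P.μ i) = pl μ i := fun i => by
    have e1 : ∀ b, μ b i = ∑ a, μ b (P.ι a) * P.μ a i := fun b => by
      have := congrFun (P.ech.repr (v := μ b) (hsp ▸ Submodule.subset_span ⟨b, rfl⟩)) i
      simpa [Finset.sum_apply] using this
    simp only [φ, pl, map_sum, map_mul, aeval_X, algHom_C, algebraMap_eq, Finset.mul_sum, e1 _,
      Finset.sum_mul]
    rw [Finset.sum_comm]
    exact Finset.sum_congr rfl fun _ _ => Finset.sum_congr rfl fun _ _ => by ring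
  have hev : ∀ v ∈ P.U, ∀ f, eval (v ∘ ι) (φ f) = eval (v ∘ P.ι) f := fun v hv f => by
    have e1 : (fun a => aeval (v ∘ ι) (pl μ (P.ι a))) = v ∘ P.ι := by
      funext a
      have := congrFun (hE.repr (v := v) (hsp ▸ hv)) (P.ι a)
      simpa [pl, Finset.sum_apply, mul_comm] using this.symm
    rw [← coe_aeval_eq_eval, ← coe_aeval_eq_eval, ← e1]
    exact comp_aeval_apply (fun a => pl μ (P.ι a))
      (aeval (v ∘ ι) : MvPolynomial (Fin 3) k →ₐ[k] k) f
  have hl : ∀ i, (pl μ i).IsHomogeneous 1 := fun i =>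
    IsHomogeneous.sum _ _ _ fun a _ => isHomogeneous_C_mul_X _ _
  have he0 : φ P.e ≠ 0 := fun h => P.ep (by rw [← hev p P.pm, h, map_zero])
  obtain ⟨m, hm, hpr⟩ := prim_ex O he0
  have heh : (C (coeff m (φ P.e))⁻¹ * φ P.e).IsHomogeneous 3 :=
    (P.ehom.aeval _ fun a => hl _).C_mul _
  have hQh : (φ P.Q).IsHomogeneous 2 := P.Qhom.aeval _ fun a => hl _
  have hdv : ∀ i, C (coeff m (φ P.e))⁻¹ * φ P.e ∣ pl μ i ^ s.N * φ P.Q - aeval (pl μ) (s.G i) := by
    intro i
    have h1 := map_dvd φ (P.cong i)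
    have h2 : φ (aeval (pl P.μ) (s.G i)) = aeval (pl μ) (s.G i) :=
      (comp_aeval_apply _ (φ.restrictScalars ℂ) _).trans (by simp only [AlgHom.coe_restrictScalars', hφ])
    rw [map_sub, map_mul, map_pow, hφ, h2] at h1
    exact ((IsUnit.mk0 _ (inv_ne_zero hm)).map C).mul_left_dvd.2 h1
  have hQO : Int O (φ P.Q) := lemV O hO (by norm_num) s.G hE hμO hpr heh (mu := 1)
    (lt_of_le_of_lt hQh.totalDegree_le (by norm_num))
    ((kb_int_iff O _).2 (one_mem _)) (by simpa using hdv)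
  choose h hh using hdv
  have hplO : ∀ i, pl μ i ∈ (MvPolynomial.map (σ := Fin 3) O.subtype).range := fun i =>
    sum_mem fun a _ => mul_mem ⟨C ⟨_, hμO a i⟩, map_C _ _⟩ ⟨X a, map_X _ _⟩
  have hhO : ∀ i, Int O (h i) := fun i => gauss_div O hpr <| by
    rw [← hh, kb_int_iff]
    exact sub_mem (mul_mem (pow_mem (hplO i) _) ((kb_int_iff O _).1 hQO))
      (g2_amem _ hplO _ fun c => ⟨C ⟨_, hO (coeff c (s.G i))⟩, map_C _ _⟩)
  have hK : ∀ D : Derivation ℂ k k, dv D p ∈ P.U →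
      C (coeff m (φ P.e))⁻¹ * φ P.e ∈ g2R D ∧ φ P.Q ∈ g2R D ∧ ∀ i, h i ∈ g2R D := by
    intro D hD
    have h1 : ∀ i, pl μ i ∈ g2R D := fun i =>
      sum_mem fun a _ => mul_mem (g2R_C (hμ a i D hD)) (ka_cD_X D a)
    have h2 : ∀ f, cD D f = 0 → φ f ∈ g2R D := fun f hf =>
      g2_amem _ (fun a => h1 _) f fun c => g2R_C (ka_cD_eq_zero.1 hf c)
    have h3 := h2 _ (P.de D hD)
    have h4 : C (coeff m (φ P.e))⁻¹ * φ P.e ∈ g2R D := mul_mem (g2R_C (by
      rw [D.leibniz_inv, ka_cD_eq_zero.1 h3 m, smul_zero])) h3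
    refine ⟨h4, h2 _ (P.dQ D hD), fun i => ?_⟩
    have h5 : pl μ i ^ s.N * φ P.Q - aeval (pl μ) (s.G i) ∈ g2R D :=
      sub_mem (mul_mem (pow_mem (h1 i) _) (h2 _ (P.dQ D hD)))
        (g2_amem _ h1 _ fun c => g2R_C (D.map_algebraMap (coeff c (s.G i))))
    rw [hh i] at h5
    have h6 : cD D (C (coeff m (φ P.e))⁻¹ * φ P.e * h i) = 0 := h5
    have h7 : cD D (C (coeff m (φ P.e))⁻¹ * φ P.e) = 0 := h4
    rw [cD_mul, h7, zero_mul, zero_add] at h6
    exact (mul_eq_zero.1 h6).resolve_left (mul_ne_zero (C_ne_zero.2 (inv_ne_zero hm)) he0)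
  obtain ⟨e0, he⟩ := g2_lift A fun n => hA _ (hpr.1 n) fun D hD =>
    ka_cD_eq_zero.1 (hK D hD).1 n
  obtain ⟨Q0, hQ⟩ := g2_lift A fun n => hA _ (hQO n) fun D hD =>
    ka_cD_eq_zero.1 (hK D hD).2.1 n
  choose h0 hh0 using fun i => g2_lift A fun n => hA _ (hhO i n) fun D hD =>
    ka_cD_eq_zero.1 ((hK D hD).2.2 i) n
  have hc : ∀ c : ℂ, algebraMap ℂ k c ∈ A := fun c => hA _ (hO c) (P.g2K.algebraMap_mem c)
  refine ⟨ι, fun a i => ⟨μ a i, hA _ (hμO a i) (hμ a i)⟩, e0, Q0, h0, (coeff m (φ P.e))⁻¹, hE, hsp,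
    fun v hv => ?_, fun v hv => ?_, .of_map A.subtype_injective (he ▸ heh),
    .of_map A.subtype_injective (hQ ▸ hQh), fun B _ _ j hj Y i => ?_⟩
  · rw [eval₂_eq_eval_map, he, map_mul, eval_C, hev v hv]
  · rw [eval₂_eq_eval_map, hQ, hev v hv]
  · let l0 : Fin 6 → MvPolynomial (Fin 3) A := fun i =>
      ∑ a, C ⟨μ a i, hA _ (hμO a i) (hμ a i)⟩ * X a
    have h1 : ∀ i, MvPolynomial.map A.subtype (l0 i) = pl μ i := fun i => by simp [l0, pl]
    have h2 : e0 * h0 i = l0 i ^ s.N * Q0 -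
        eval₂Hom (C.comp ((algebraMap ℂ k).codRestrict A hc)) l0 (s.G i) := by
      refine map_injective _ A.subtype_injective ?_
      have e1 : (MvPolynomial.map (σ := Fin 3) A.subtype).comp
          (C.comp ((algebraMap ℂ k).codRestrict A hc)) = algebraMap ℂ (MvPolynomial (Fin 3) k) :=
        RingHom.ext fun c => map_C _ _
      rw [map_mul, map_sub, map_mul, map_pow, map_eval₂Hom, he, hh0, hQ, ← hh, e1]
      simp only [h1]
      rfl
    have h3 := congrArg (eval₂Hom j Y) h2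
    rw [map_mul, map_sub, map_mul, map_pow, map_eval₂Hom] at h3
    have h4 : ∀ i, eval₂Hom j Y (l0 i) = ∑ a, j ⟨μ a i, hA _ (hμO a i) (hμ a i)⟩ * Y a :=
      fun i => by simp [l0]
    have e1 : (eval₂Hom j Y).comp (C.comp ((algebraMap ℂ k).codRestrict A hc)) = algebraMap ℂ B :=
      RingHom.ext fun c => (eval₂Hom_C _ _ _).trans (hj c (hc c))
    simp only [h4, e1] at h3
    rw [aeval_eq_eval₂Hom]
    exact h3

end PV
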