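import Pool.Agent.Lib.MP_36fb43_ag.Defs

/-! The abstract independence lemma for Taylor functionals along a line. -/

open MvPolynomial Matrix Module

namespace PV

theorem gp_tay_dvd {F : Type} [Field F] (z : F) (m : ℕ) {P : Polynomial F}
    (h : (Polynomial.X - Polynomial.C z) ^ m ∣ P) {t : ℕ} (ht : t < m) :
    (Polynomial.taylor z P).coeff t = 0 := by
  obtain ⟨r, rfl⟩ := h
  rw [Polynomial.taylor_mul, Polynomial.taylor_pow, map_sub, Polynomial.taylor_X,
    Polynomial.taylor_C, add_sub_cancel_right, Polynomial.coeff_X_pow_mul']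
  simp [not_le.2 ht]

theorem gp_tay_top {F : Type} [Field F] (z : F) (m : ℕ) (r : Polynomial F) :
    (Polynomial.taylor z ((Polynomial.X - Polynomial.C z) ^ m * r)).coeff m = r.eval z := by
  rw [Polynomial.taylor_mul, Polynomial.taylor_pow, map_sub, Polynomial.taylor_X,
    Polynomial.taylor_C, add_sub_cancel_right, Polynomial.coeff_X_pow_mul']
  simp

theorem gp0 {R F σ ι : Type} [CommRing R] [Field F] [IsAlgClosed F] [Algebra R F] [Fintype σ]
    [Fintype ι] (p q : σ → F) (hp : ∀ v, ∃ D : Derivation R F F, dv D p = v) (z : ι → F)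
    (m : ι → ℕ) (n : ι → σ → Polynomial F)
    (hn : ∀ (D : Derivation R F F) j, (Polynomial.X - Polynomial.C (z j)) ^ m j ∣
      ∑ i, n j i * ln (dv D p) (dv D q) i)
    (hl : ∀ w, LinearIndependent F fun (j : {j // z j = w ∧ 1 ≤ m j}) i => (n j i).eval w) :
    LinearIndependent F fun (js : Σ j, Fin (m j)) i =>
      (Polynomial.taylor (z js.1) (n js.1 i)).coeff js.2 := by
  classical
  rw [Fintype.linearIndependent_iff]
  intro c hc
  let φ : ι → Polynomial F →ₗ[F] F := fun j =>
    ∑ t : Fin (m j), c ⟨j, t⟩ • ((Polynomial.lcoeff F t).comp (Polynomial.taylor (z j)))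
  have hφ : ∀ j P, φ j P = ∑ t : Fin (m j), c ⟨j, t⟩ * (Polynomial.taylor (z j) P).coeff t := by
    intro j P
    simp [φ, LinearMap.sum_apply]
  have hk : ∀ j P, (Polynomial.X - Polynomial.C (z j)) ^ m j ∣ P → φ j P = 0 := by
    intro j P h
    rw [hφ]
    exact Finset.sum_eq_zero fun t _ => by rw [gp_tay_dvd _ _ h t.2, mul_zero]
  have hlin : ∀ (a : Polynomial F) (v : σ → F), (∀ i, ∑ j, φ j (a * n j i) = 0) →
      ∑ j, φ j (a * ∑ i, n j i * Polynomial.C (v i)) = 0 := by
    intro a v h
    have : ∀ j, φ j (a * ∑ i, n j i * Polynomial.C (v i)) = ∑ i, v i * φ j (a * n j i) := by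
      intro j
      rw [Finset.mul_sum, map_sum]
      refine Finset.sum_congr rfl fun i _ => ?_
      rw [← smul_eq_mul (v i), ← map_smul, Polynomial.smul_eq_C_mul]
      congr 1
      ring
    simp only [this]
    rw [Finset.sum_comm]
    exact Finset.sum_eq_zero fun i _ => by rw [← Finset.mul_sum, h i, mul_zero]
  have hX : ∀ s : ℕ, ∀ i, ∑ j, φ j (Polynomial.X ^ s * n j i) = 0 := by
    intro s
    induction s with
    | zero =>
      intro i
      have := congrFun hc i
      simp only [Finset.sum_apply, Pi.smul_apply, smul_eq_mul, Pi.zero_apply] at this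
      rw [Fintype.sum_sigma] at this
      simpa [hφ] using this
    | succ s ih =>
      intro i
      obtain ⟨D, hD⟩ := hp (Pi.single i 1)
      have h1 := hlin _ (dv D q) ih
      have h2 : ∀ j, φ j (Polynomial.X ^ (s + 1) * n j i) =
          - φ j (Polynomial.X ^ s * ∑ i, n j i * Polynomial.C (dv D q i)) := by
        intro j
        have h3 := hk j _ ((hn D j).mul_left (Polynomial.X ^ s))
        rw [eq_neg_iff_add_eq_zero, ← map_add, ← h3]
        congr 1
        simp only [ln, hD, mul_add, Finset.sum_add_distrib]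
        congr 1
        rw [Finset.sum_eq_single i]
        · simp; ring
        · intro b _ hb
          simp [Pi.single_apply, hb]
        · simp
      simp only [h2, Finset.sum_neg_distrib, h1, neg_zero]
  have hA : ∀ (a : Polynomial F) i, ∑ j, φ j (a * n j i) = 0 := by
    intro a i
    induction a using Polynomial.induction_on' with
    | add a b ha hb => simp only [add_mul, map_add, Finset.sum_add_distrib, ha, hb, add_zero]
    | monomial s r =>
      have : ∀ j, Polynomial.monomial s r * n j i = r • (Polynomial.X ^ s * n j i) := fun j => by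
        rw [← Polynomial.C_mul_X_pow_eq_monomial, mul_assoc, Polynomial.smul_eq_C_mul]
      simp only [this, map_smul, ← Finset.smul_sum, hX, smul_zero]
  have key : ∀ s : ℕ, (∀ j (t : Fin (m j)), s < t → c ⟨j, t⟩ = 0) →
      ∀ j (t : Fin (m j)), (t : ℕ) = s → c ⟨j, t⟩ = 0 := by
    intro s ih j0 t0 ht0
    set w := z j0 with hw
    let b : Polynomial F := ∏ j ∈ Finset.univ.filter (fun j => z j ≠ w),
      (Polynomial.X - Polynomial.C (z j)) ^ m j
    have hb : b.eval w ≠ 0 := by
      simp only [b, Polynomial.eval_prod, Polynomial.eval_pow, Polynomial.eval_sub,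
        Polynomial.eval_X, Polynomial.eval_C]
      refine Finset.prod_ne_zero_iff.2 fun j hj => pow_ne_zero _ (sub_ne_zero.2 ?_)
      exact (Finset.mem_filter.1 hj).2.symm
    let d : ι → F := fun j => if h : s < m j then c ⟨j, ⟨s, h⟩⟩ else 0
    have h1 : ∀ j i, φ j ((Polynomial.X - Polynomial.C w) ^ s * b * n j i) =
        if z j = w ∧ 1 ≤ m j then b.eval w * d j * (n j i).eval w else 0 := by
      intro j i
      by_cases hj : z j = w
      · rw [hφ, hj]
        by_cases hs : s < m j
        · rw [Finset.sum_eq_single ⟨s, hs⟩, mul_assoc, gp_tay_top, if_pos ⟨rfl, by omega⟩]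
          · simp only [d, dif_pos hs, Polynomial.eval_mul]; ring
          · intro t _ ht
            rcases lt_or_gt_of_ne (fun h : (t : ℕ) = s => ht (Fin.ext h)) with h | h
            · rw [mul_assoc, gp_tay_dvd w s (dvd_mul_right _ _) h, mul_zero]
            · rw [ih j t h, zero_mul]
          · simp
        · have : d j = 0 := by simp only [d, dif_neg hs]
          rw [this, mul_zero, zero_mul, ite_self]
          refine Finset.sum_eq_zero fun t _ => ?_
          rw [mul_assoc, gp_tay_dvd w s (dvd_mul_right _ _) (by omega), mul_zero]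
      · rw [if_neg (fun h => hj h.1)]
        refine hk j _ (Dvd.dvd.mul_right (Dvd.dvd.mul_left ?_ _) _)
        exact Finset.dvd_prod_of_mem _ (Finset.mem_filter.2 ⟨Finset.mem_univ _, hj⟩)
    have h2 := Fintype.linearIndependent_iff.1 (hl w) (fun j => b.eval w * d j) (by
      funext i
      have := hA ((Polynomial.X - Polynomial.C w) ^ s * b) i
      simp only [h1] at this
      rw [← Finset.sum_filter,
        Finset.sum_subtype (p := fun j => z j = w ∧ 1 ≤ m j) _ (by simp)] at this
      simpa using this) ⟨j0, rfl, by have := t0.2; omega⟩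
    have hs : s < m j0 := ht0 ▸ t0.2
    have h3 : d j0 = 0 := (mul_eq_zero.1 h2).resolve_left hb
    simp only [d, dif_pos hs] at h3
    have : t0 = ⟨s, hs⟩ := Fin.ext ht0
    rw [this, h3]
  have fin : ∀ e : ℕ, ∀ j (t : Fin (m j)), ∑ j, m j ≤ t + e → c ⟨j, t⟩ = 0 := by
    intro e
    induction e with
    | zero =>
      intro j t h
      have h1 : m j ≤ ∑ j, m j := Finset.single_le_sum (fun _ _ => Nat.zero_le _) (Finset.mem_univ j)
      have := t.2
      omega
    | succ e ih =>
      intro j t h
      exact key t (fun j' t' h' => ih j' t' (by omega)) j t rfl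
  rintro ⟨j, t⟩
  exact fin (∑ j, m j) j t (by omega)

/-- orthogonal independent families -/
theorem gp_orth {F α β σ : Type} [Field F] [Fintype α] [Fintype β] [Fintype σ]
    (L : α → σ → F) (v : β → σ → F) (hL : LinearIndependent F L) (hv : LinearIndependent F v)
    (h : ∀ a b, L a ⬝ᵥ v b = 0) : Fintype.card α + Fintype.card β ≤ Fintype.card σ := by
  classical
  have h1 : (Matrix.of L).rank = Fintype.card α := LinearIndependent.rank_matrix hL
  have h2 : (Matrix.of v).rank = Fintype.card β := LinearIndependent.rank_matrix hv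
  have h3 : Matrix.of L * (Matrix.of v)ᵀ = 0 := by
    ext a b
    simpa [Matrix.mul_apply, dotProduct] using h a b
  have := Matrix.rank_add_rank_le_card_of_mul_eq_zero h3
  rwa [Matrix.rank_transpose, h1, h2] at this

end PV
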