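import Pool.Agent.Lib.MP_36fb43_ag.GPa

/-! Calculus along a line and the general position inequality. -/

open MvPolynomial Matrix Module

namespace PV

section cal
variable {k R F σ : Type} [CommRing k] [CommRing R] [Field F] [Algebra k F] [Algebra R F]

/-- a derivation acts on the coefficients of a polynomial in one variable -/
noncomputable def pD (D : Derivation R F F) : Derivation R (Polynomial F) (Polynomial F) :=
  PolynomialModule.equivPolynomialSelf.compDer D.mapCoeffs

theorem pD_coeff (D : Derivation R F F) (P : Polynomial F) (i : ℕ) :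
    (pD D P).coeff i = D (P.coeff i) := rfl

theorem pD_C (D : Derivation R F F) (a : F) : pD D (Polynomial.C a) = Polynomial.C (D a) := by
  ext i
  rw [pD_coeff, Polynomial.coeff_C, Polynomial.coeff_C]
  split_ifs <;> simp

theorem pD_X (D : Derivation R F F) : pD D Polynomial.X = 0 := by
  ext i
  rw [pD_coeff, Polynomial.coeff_X]
  split_ifs <;> simp

theorem pD_ln (D : Derivation R F F) (p q : σ → F) (i : σ) :
    pD D (ln p q i) = ln (dv D p) (dv D q) i := by
  simp only [ln, dv, map_add, Derivation.leibniz, pD_C, pD_X, smul_eq_mul]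
  ring

theorem gp_chain [Fintype σ] {B : Type} [CommRing B] [Algebra k B] (δ : Derivation k B B)
    (x : σ → B) (f : MvPolynomial σ k) :
    δ (aeval x f) = ∑ i, aeval x (pderiv i f) * δ (x i) := by
  classical
  induction f using MvPolynomial.induction_on with
  | C a => simp
  | add f g hf hg => simp [hf, hg, add_mul, Finset.sum_add_distrib]
  | mul_X f j hf =>
    simp only [map_mul, aeval_X, Derivation.leibniz, smul_eq_mul, hf, map_add, pderiv_X, add_mul,
      Finset.sum_add_distrib, Finset.mul_sum]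
    congr 1
    · rw [Finset.sum_eq_single j]
      · simp
      · intro b _ hb
        simp [Pi.single_apply, hb.symm]
      · simp
    · exact Finset.sum_congr rfl fun i _ => by ring

theorem ln_eval (p q : σ → F) (z : F) (f : MvPolynomial σ k) :
    (aeval (ln p q) f).eval z = aeval (z • p + q) f := by
  induction f using MvPolynomial.induction_on with
  | C a => simp [Polynomial.algebraMap_apply]
  | add f g hf hg => simp [hf, hg]
  | mul_X f j hf => simp [hf, ln, mul_comm z]

theorem grL_eval [Fintype σ] (p q v : σ → F) (z : F) (f : MvPolynomial σ k) :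
    (grL f p q v).eval z = gr f (z • p + q) ⬝ᵥ v := by
  simp [grL, Polynomial.eval_finsetSum, ln_eval, gr, dotProduct]

theorem ln_deriv [Fintype σ] (p q : σ → F) (f : MvPolynomial σ k) :
    Polynomial.derivative (aeval (ln p q) f) = grL f p q p := by
  have := gp_chain ((Polynomial.derivative' (R := F)).restrictScalars k) (ln p q) f
  simpa [grL, ln] using this

theorem ln_pD [Fintype σ] (D : Derivation k F F) (p q : σ → F) (f : MvPolynomial σ k) :
    pD D (aeval (ln p q) f) = ∑ i, aeval (ln p q) (pderiv i f) * ln (dv D p) (dv D q) i := by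
  rw [gp_chain]
  simp only [pD_ln]

theorem al_on {I : Ideal (MvPolynomial σ k)} {p q : σ → F} {g : Polynomial F} (hg : Al I p q g)
    {z : F} (hz : g.IsRoot z) : On I (z • p + q) := by
  intro f hf
  obtain ⟨r, hr⟩ := hg f hf
  rw [← ln_eval, hr, Polynomial.eval_mul, hz.eq_zero, zero_mul]

theorem on_al {I : Ideal (MvPolynomial σ k)} {p q : σ → F} {z : F} (h : On I (z • p + q)) :
    Al I p q (Polynomial.X - Polynomial.C z) := fun f hf =>
  Polynomial.dvd_iff_isRoot.2 (by rw [Polynomial.IsRoot, ln_eval, h f hf])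

theorem gp_le {z : F} {a m : ℕ} {r : Polynomial F} (hr : r.eval z ≠ 0)
    (h : (Polynomial.X - Polynomial.C z) ^ a ∣ (Polynomial.X - Polynomial.C z) ^ m * r) :
    a ≤ m := by
  by_contra hlt
  have h1 : (Polynomial.X - Polynomial.C z) ^ (m + 1) ∣ _ := (pow_dvd_pow _ (by omega)).trans h
  rw [pow_succ, mul_dvd_mul_iff_left (pow_ne_zero _ (Polynomial.X_sub_C_ne_zero z))] at h1
  exact hr (Polynomial.dvd_iff_isRoot.1 h1)

/-- the space `K` of the general position lemma at one point -/
def Kz [Fintype σ] (I : Ideal (MvPolynomial σ k)) (p q : σ → F) (z : F) (m : ℕ) (v : σ → F) :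
    Prop :=
  ∃ ρ : Polynomial F, (Polynomial.X - Polynomial.C z) ^ (m - 1) ∣ ρ ∧ ∀ f ∈ I, ∀ r,
    aeval (ln p q) f = (Polynomial.X - Polynomial.C z) ^ m * r →
      (Polynomial.X - Polynomial.C z) ^ m ∣ grL f p q v - r * ρ

theorem gp_der {A : Type} [CommRing A] [Algebra A (Polynomial F)]
    (δ : Derivation A (Polynomial F) (Polynomial F)) (z : F) (m : ℕ) :
    ∃ ρ, (Polynomial.X - Polynomial.C z) ^ (m - 1) ∣ ρ ∧ ∀ r,
      δ ((Polynomial.X - Polynomial.C z) ^ m * r) =
        (Polynomial.X - Polynomial.C z) ^ m * δ r + r * ρ := by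
  refine ⟨δ ((Polynomial.X - Polynomial.C z) ^ m), ?_, fun r => by simp [Derivation.leibniz]⟩
  rw [Derivation.leibniz_pow, smul_eq_mul, nsmul_eq_mul]
  exact Dvd.dvd.mul_left (dvd_mul_right _ _) _

theorem kz_p [Fintype σ] (I : Ideal (MvPolynomial σ k)) (p q : σ → F) (z : F) (m : ℕ) :
    Kz I p q z m p := by
  obtain ⟨ρ, h1, h2⟩ := gp_der (Polynomial.derivative' (R := F)) z m
  refine ⟨ρ, h1, fun f _ r hr => ?_⟩
  have := h2 r
  rw [← hr, Polynomial.derivative'_apply, ln_deriv] at this
  rw [this, add_sub_cancel_right]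
  exact dvd_mul_right _ _

theorem kz_D [Fintype σ] (I : Ideal (MvPolynomial σ k)) (p q : σ → F) (z : F) (m : ℕ)
    (D : Derivation k F F) (hD : dv D p = 0) : Kz I p q z m (dv D q) := by
  obtain ⟨ρ, h1, h2⟩ := gp_der (pD D) z m
  refine ⟨ρ, h1, fun f _ r hr => ?_⟩
  have := h2 r
  rw [← hr, ln_pD, hD] at this
  have h3 : grL f p q (dv D q) = _ := Eq.trans (by simp [grL, ln]) this
  rw [h3, add_sub_cancel_right]
  exact dvd_mul_right _ _

end cal

theorem gp_euler {k : Type} [Field k] {n : ℕ} (Z : Cone k n) {f} (hf : f ∈ Z.I) :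
    ∑ i, X i * pderiv i f ∈ Z.I := by
  rw [← sum_homogeneousComponent f]
  simp only [map_sum, Finset.mul_sum]
  rw [Finset.sum_comm]
  refine Ideal.sum_mem _ fun d _ => ?_
  rw [(homogeneousComponent_isHomogeneous d f).sum_X_mul_pderiv, nsmul_eq_mul]
  exact Ideal.mul_mem_left _ _ (Z.hom f hf d)

theorem kz_q {k F : Type} [Field k] [Field F] [Algebra k F] {n : ℕ} (Z : Cone k n)
    (p q : Fin n → F) (z : F) (m : ℕ) (h : Al Z.I p q ((Polynomial.X - Polynomial.C z) ^ m)) :
    Kz Z.I p q z m q := by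
  obtain ⟨ρ, h1, h2⟩ := kz_p Z.I p q z m
  refine ⟨-(Polynomial.X * ρ), (h1.mul_left _).neg_right, fun f hf r hr => ?_⟩
  have h3 := h _ (gp_euler Z hf)
  have h4 : aeval (ln p q) (∑ i, X i * pderiv i f) =
      Polynomial.X * grL f p q p + grL f p q q := by
    simp only [map_sum, map_mul, aeval_X, grL, Finset.mul_sum, ← Finset.sum_add_distrib, ln]
    exact Finset.sum_congr rfl fun i _ => by ring
  rw [h4] at h3
  have h5 := dvd_sub h3 ((h2 f hf r hr).mul_left Polynomial.X)
  convert h5 using 1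
  ring

section pt
variable {k F : Type} [Field k] [Field F] [IsAlgClosed F] [Algebra k F] {n : ℕ} {Z : Cone k n}
  {p q : Fin n → F}

theorem gp_two {x : Fin n → F} (h0 : x ≠ 0) (hx : On Z.I x) (a : Fin n → F) :
    ∃ f ∈ Z.I, gr f x ∉ Submodule.span F {a} := by
  by_contra h
  push Not at h
  have h1 : Nm Z.I x ≤ Submodule.span F {a} := by
    refine Submodule.span_le.2 ?_
    rintro _ ⟨f, hf, rfl⟩
    exact h f hf
  have h2 := Submodule.finrank_mono h1
  rw [Z.rk F x h0 hx] at h2
  have h3 := finrank_span_le_card (R := F) ({a} : Set (Fin n → F))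
  simp at h3
  omega

/-- the line through the generic point is not contained in the cone -/
theorem gp_ne (hp : ∀ v, ∃ D : Derivation k F F, dv D p = v) {z : F} (h0 : z • p + q ≠ 0)
    (hz : On Z.I (z • p + q)) : ∃ f ∈ Z.I, aeval (ln p q) f ≠ 0 := by
  by_contra h
  push Not at h
  obtain ⟨f, hf, h1⟩ := gp_two h0 hz 0
  have h2 : gr f (z • p + q) ≠ 0 := fun e => h1 (by rw [e]; exact Submodule.zero_mem _)
  have h3 := gp0 p q hp (fun _ : Unit => z) (fun _ => n + 1)
    (fun _ i => aeval (ln p q) (pderiv i f))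
    (fun D _ => by rw [← ln_pD, h f hf, map_zero]; exact dvd_zero _)
    (fun w => by
      rcases isEmpty_or_nonempty {_j : Unit // z = w ∧ 1 ≤ n + 1} with he | ⟨⟨j⟩⟩
      · exact linearIndependent_empty_type
      · have : Unique {_j : Unit // z = w ∧ 1 ≤ n + 1} := ⟨⟨j⟩, fun a => Subsingleton.elim _ _⟩
        refine linearIndependent_unique_iff.2 fun e => h2 ?_
        funext i
        have := congrFun e i
        rw [← j.2.1, ln_eval] at this
        exact this)
  have h4 := h3.fintype_card_le_finrank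
  simp at h4

/-- the local data at a point of the line -/
structure GPt (Z : Cone k n) (p q : Fin n → F) (z : F) where
  m : ℕ
  pos : 1 ≤ m
  al : Al Z.I p q ((Polynomial.X - Polynomial.C z) ^ m)
  ex : ∃ f ∈ Z.I, ∃ r, aeval (ln p q) f = (Polynomial.X - Polynomial.C z) ^ m * r ∧ r.eval z ≠ 0
  h : Fin 2 → Fin n → Polynomial F
  hD : ∀ (D : Derivation k F F) (b : Fin 2), (Polynomial.X - Polynomial.C z) ^ (m - b) ∣
    ∑ i, h b i * ln (dv D p) (dv D q) i
  li : LinearIndependent F fun b i => (h b i).eval z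
  nm : (fun i => (h 0 i).eval z) ∈ Nm Z.I (z • p + q)
  kill : ∀ v, Kz Z.I p q z m v → ∀ b : Fin 2, (Polynomial.X - Polynomial.C z) ^ (m - b) ∣
    ∑ i, h b i * Polynomial.C (v i)

theorem gpt_ex (hp : ∀ v, ∃ D : Derivation k F F, dv D p = v) {z : F} (h0 : z • p + q ≠ 0)
    (hz : On Z.I (z • p + q)) : Nonempty (GPt Z p q z) := by
  classical
  have hex : ∃ m, ¬ Al Z.I p q ((Polynomial.X - Polynomial.C z) ^ (m + 1)) := by
    obtain ⟨f, hf, h1⟩ := gp_ne hp h0 hz
    refine ⟨(aeval (ln p q) f).natDegree, fun h => ?_⟩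
    have := Polynomial.natDegree_le_of_dvd (h f hf) h1
    simp [Polynomial.natDegree_pow] at this
  set m := Nat.find hex with hm
  have hs : ¬ Al Z.I p q ((Polynomial.X - Polynomial.C z) ^ (m + 1)) := Nat.find_spec hex
  have pos : 1 ≤ m := by
    by_contra h
    have : m = 0 := by omega
    rw [this, zero_add, pow_one] at hs
    exact hs (on_al hz)
  have al : Al Z.I p q ((Polynomial.X - Polynomial.C z) ^ m) := by
    have := Nat.find_min hex (m := m - 1) (by omega)
    rwa [not_not, Nat.sub_add_cancel pos] at this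
  obtain ⟨f1, hf1, h1⟩ : ∃ f ∈ Z.I, ¬ (Polynomial.X - Polynomial.C z) ^ (m + 1) ∣
      aeval (ln p q) f := by
    by_contra h
    push Not at h
    exact hs h
  obtain ⟨r1, hr1⟩ := al f1 hf1
  have hr : r1.eval z ≠ 0 := fun e => h1 (by
    rw [hr1, pow_succ]
    exact mul_dvd_mul_left _ (Polynomial.dvd_iff_isRoot.2 e))
  obtain ⟨f, hf, h2⟩ := gp_two h0 hz (gr f1 (z • p + q))
  obtain ⟨r, hrf⟩ := al f hf
  set a : Fin n → F := r1.eval z • gr f (z • p + q) - r.eval z • gr f1 (z • p + q) with ha
  have ha0 : a ≠ 0 := fun e => h2 (by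
    rw [ha, sub_eq_zero] at e
    rw [← Submodule.smul_mem_iff _ hr, e]
    exact Submodule.smul_mem _ _ (Submodule.mem_span_singleton_self _))
  obtain ⟨f', hf', h3⟩ := gp_two h0 hz a
  obtain ⟨r', hr'⟩ := al f' hf'
  have he : (fun i => (r1 * aeval (ln p q) (pderiv i f) - r * aeval (ln p q) (pderiv i f1)).eval z)
      = a := by
    funext i
    simp [ha, ln_eval, gr]
  refine ⟨⟨m, pos, al, ⟨f1, hf1, r1, hr1, hr⟩,
    ![fun i => r1 * aeval (ln p q) (pderiv i f) - r * aeval (ln p q) (pderiv i f1),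
      fun i => aeval (ln p q) (pderiv i f')], ?_, ?_, ?_, ?_⟩⟩
  · intro D b
    obtain ⟨ρ, d1, d2⟩ := gp_der (pD D) z m
    fin_cases b
    · have e1 := d2 r
      have e2 := d2 r1
      rw [← hrf, ln_pD] at e1
      rw [← hr1, ln_pD] at e2
      refine ⟨r1 * pD D r - r * pD D r1, ?_⟩
      simp only [Fin.zero_eta, Matrix.cons_val_zero, sub_mul, Finset.sum_sub_distrib, mul_assoc,
        ← Finset.mul_sum, e1, e2]
      simp only [Fin.val_zero, Nat.sub_zero]
      ring
    · have e1 := d2 r'
      rw [← hr', ln_pD] at e1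
      simp only [Fin.mk_one, Matrix.cons_val_one, Matrix.cons_val_fin_one, e1]
      exact dvd_add ((pow_dvd_pow _ (Nat.sub_le _ _)).mul_right _) (d1.mul_left _)
  · have : (fun b i => ((![fun i => r1 * aeval (ln p q) (pderiv i f) -
        r * aeval (ln p q) (pderiv i f1), fun i => aeval (ln p q) (pderiv i f')] :
        Fin 2 → Fin n → Polynomial F) b i).eval z) = ![a, gr f' (z • p + q)] := by
      funext b
      fin_cases b
      · exact he
      · funext i
        simp [ln_eval, gr]
    rw [this, LinearIndependent.pair_iff' ha0]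
    intro c e
    exact h3 (e ▸ Submodule.smul_mem _ _ (Submodule.mem_span_singleton_self _))
  · show (fun i => (r1 * aeval (ln p q) (pderiv i f) -
      r * aeval (ln p q) (pderiv i f1)).eval z) ∈ _
    rw [he]
    exact sub_mem (Submodule.smul_mem _ _ (Submodule.subset_span ⟨f, hf, rfl⟩))
      (Submodule.smul_mem _ _ (Submodule.subset_span ⟨f1, hf1, rfl⟩))
  · rintro v ⟨ρ, d1, d2⟩ b
    fin_cases b
    · have e := dvd_sub ((d2 f hf r hrf).mul_left r1) ((d2 f1 hf1 r1 hr1).mul_left r)
      simp only [Fin.zero_eta, Matrix.cons_val_zero, sub_mul, Finset.sum_sub_distrib, mul_assoc,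
        ← Finset.mul_sum]
      rwa [show r1 * (grL f p q v - r * ρ) - r * (grL f1 p q v - r1 * ρ) =
        r1 * grL f p q v - r * grL f1 p q v by ring] at e
    · have e := dvd_add ((pow_dvd_pow _ (Nat.sub_le m 1)).trans (d2 f' hf' r' hr'))
        (d1.mul_left r')
      simpa [grL] using e

end pt

end PV
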