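import Pool.Agent.Lib.MP_36fb43_ag.Defs

/-! Two independent copies, linear disjointness, coefficient functionals. -/

open MvPolynomial Matrix Module

namespace PV

section basis
variable {k F Ω s : Type} [Field k] [CharZero k] [Field F] [Field Ω] [Algebra k F] [Algebra k Ω]

theorem kd_basis {y : s → Ω} (hy : IsTranscendenceBasis k y) :
    ∃ b : Basis s Ω (KaehlerDifferential k Ω), ∀ a, b a = KaehlerDifferential.D k Ω (y a) := by
  let F := IntermediateField.adjoin k (Set.range y)
  have : Algebra.IsAlgebraic F Ω := hy.isAlgebraic_field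
  have : CharZero F := charZero_of_injective_algebraMap (algebraMap k F).injective
  have : Algebra.IsSeparable F Ω := Algebra.IsAlgebraic.isSeparable_of_perfectField
  let P := MvPolynomial s k
  let _ : Algebra P F :=
    ((hy.1.aevalEquivField : FractionRing P →+* F).comp (algebraMap P (FractionRing P))).toAlgebra
  let _ : Algebra P Ω := ((algebraMap F Ω).comp (algebraMap P F)).toAlgebra
  have : IsScalarTower P F Ω := .of_algebraMap_eq fun _ => rfl
  have hP : ∀ a : P, algebraMap P Ω a = MvPolynomial.aeval y a := fun a =>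
    hy.1.aevalEquivField_algebraMap_apply_coe a
  have : IsScalarTower k P Ω := .of_algebraMap_eq fun c => by
    rw [hP]; exact ((MvPolynomial.aeval y).commutes c).symm
  have : IsFractionRing P F := IsLocalization.isLocalization_of_algEquiv (nonZeroDivisors P)
    (AlgEquiv.ofRingEquiv (f := hy.1.aevalEquivField.toRingEquiv) fun _ => rfl)
  have : Algebra.FormallyEtale P F := .of_isLocalization (nonZeroDivisors P)
  have : Algebra.FormallyEtale F Ω := .of_isSeparable F Ω
  have : Algebra.FormallyEtale P Ω := .comp P F Ω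
  refine ⟨((KaehlerDifferential.mvPolynomialBasis k s).baseChange Ω).map
      (KaehlerDifferential.tensorKaehlerEquivOfFormallyEtale k P Ω), fun a => ?_⟩
  rw [Module.Basis.map_apply, Module.Basis.baseChange_apply,
    KaehlerDifferential.mvPolynomialBasis_apply,
    ← KaehlerDifferential.tensorKaehlerEquivOfFormallyEtale_symm_D_algebraMap k P Ω,
    LinearEquiv.apply_symm_apply, hP, MvPolynomial.aeval_X]

/-- prescribed values on a transcendence basis -/
theorem kd_der_ex {y : s → Ω} (hy : IsTranscendenceBasis k y) (de : s → Ω) :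
    ∃ D : Derivation k Ω Ω, ∀ a, D (y a) = de a := by
  obtain ⟨b, hb⟩ := kd_basis hy
  refine ⟨(b.constr Ω de).compDer (KaehlerDifferential.D k Ω), fun a => ?_⟩
  change b.constr Ω de (KaehlerDifferential.D k Ω (y a)) = de a
  rw [← hb, Module.Basis.constr_basis]

theorem kd_der_zero {M : Type} [AddCommGroup M] [Module k M] [Module F M] [IsScalarTower k F M]
    {y : s → F} (hy : IsTranscendenceBasis k y) (D : Derivation k F M) (h : ∀ a, D (y a) = 0) :
    D = 0 := by
  obtain ⟨b, hb⟩ := kd_basis hy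
  have h1 : D.liftKaehlerDifferential = 0 := b.ext fun a => by
    rw [hb, Derivation.liftKaehlerDifferential_comp_D, h, LinearMap.zero_apply]
  ext w
  rw [← Derivation.liftKaehlerDifferential_comp_D, h1]
  rfl

theorem kd_der_comp {y : s → F} (hy : IsTranscendenceBasis k y) (i : F →ₐ[k] Ω)
    (D : Derivation k Ω Ω) (D1 : Derivation k F F) (h : ∀ a, D (i (y a)) = i (D1 (y a))) (w : F) :
    D (i w) = i (D1 w) := by
  let _ : Algebra F Ω := i.toRingHom.toAlgebra
  have : IsScalarTower k F Ω := .of_algebraMap_eq fun c => (i.commutes c).symm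
  have h1 := kd_der_zero hy (D.compAlgebraMap F - (Algebra.linearMap F Ω).compDer D1)
    fun a => sub_eq_zero.mpr (h a)
  exact sub_eq_zero.mp (DFunLike.congr_fun h1 w)

omit [CharZero k] in
theorem kd_emb [IsAlgClosed Ω] {y : s → F} (hy : IsTranscendenceBasis k y) {z : s → Ω}
    (hz : AlgebraicIndependent k z) : ∃ i : F →ₐ[k] Ω, ∀ a, i (y a) = z a := by
  let A := Algebra.adjoin k (Set.range y)
  have : Algebra.IsAlgebraic A F := hy.isAlgebraic
  let φ : A →ₐ[k] Ω := (aeval z).comp hy.1.aevalEquiv.symm.toAlgHom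
  have hφ : Function.Injective φ :=
    Function.Injective.comp (g := aeval z) hz hy.1.aevalEquiv.symm.injective
  let _ : Algebra A Ω := φ.toRingHom.toAlgebra
  have : IsScalarTower k A Ω := .of_algebraMap_eq fun c => (φ.commutes c).symm
  have : FaithfulSMul A Ω := (faithfulSMul_iff_algebraMap_injective A Ω).mpr hφ
  let j : F →ₐ[A] Ω := IsAlgClosed.lift
  refine ⟨j.restrictScalars k, fun a => ?_⟩
  have h1 : y a = algebraMap A F (hy.1.aevalEquiv (X a)) := by
    rw [hy.1.algebraMap_aevalEquiv, aeval_X]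
  change j (y a) = z a
  rw [h1, j.commutes]
  change aeval z (hy.1.aevalEquiv.symm (hy.1.aevalEquiv (X a))) = z a
  rw [AlgEquiv.symm_apply_apply, aeval_X]

end basis

theorem kd_field (k s : Type) [Field k] : ∃ (Ω : Type) (_ : Field Ω) (_ : Algebra k Ω)
    (_ : IsAlgClosed Ω) (x : s → Ω), IsTranscendenceBasis k x := by
  have : Algebra.IsAlgebraic (MvPolynomial s k) (FractionRing (MvPolynomial s k)) :=
    IsLocalization.isAlgebraic _ (nonZeroDivisors _)
  have h1 := (IsTranscendenceBasis.mvPolynomial s k).algebraMap_comp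
    (A := FractionRing (MvPolynomial s k))
  exact ⟨AlgebraicClosure (FractionRing (MvPolynomial s k)), inferInstance, inferInstance,
    inferInstance, _, h1.algebraMap_comp⟩

/-- independent copies of two fields -/
theorem kd_copy (k F1 F2 : Type) [Field k] [CharZero k] [Field F1] [Field F2] [Algebra k F1]
    [Algebra k F2] (m : ℕ) : ∃ (Ω : Type) (_ : Field Ω) (_ : Algebra k Ω) (_ : IsAlgClosed Ω)
    (i1 : F1 →ₐ[k] Ω) (i2 : F2 →ₐ[k] Ω) (lam : Fin m → Ω),
    (∀ (D1 : Derivation k F1 F1) (D2 : Derivation k F2 F2) (c : Fin m → Ω),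
      ∃ D : Derivation k Ω Ω, (∀ y, D (i1 y) = i1 (D1 y)) ∧ (∀ y, D (i2 y) = i2 (D2 y)) ∧
        ∀ a, D (lam a) = c a) ∧
    ∀ D : Derivation k Ω Ω, (∀ y, D (i1 y) = 0) → (∀ y, D (i2 y) = 0) →
      (∀ a, D (lam a) = 0) → D = 0 := by
  obtain ⟨s1, y1, h1⟩ := exists_isTranscendenceBasis' k F1
  obtain ⟨s2, y2, h2⟩ := exists_isTranscendenceBasis' k F2
  obtain ⟨Ω, _, _, _, x, hx⟩ := kd_field k (s1 ⊕ s2 ⊕ Fin m)
  obtain ⟨i1, e1⟩ := kd_emb h1 (hx.1.comp Sum.inl Sum.inl_injective)
  obtain ⟨i2, e2⟩ := kd_emb h2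
    (hx.1.comp (Sum.inr ∘ Sum.inl) (Sum.inr_injective.comp Sum.inl_injective))
  refine ⟨Ω, inferInstance, inferInstance, inferInstance, i1, i2,
    fun a => x (Sum.inr (Sum.inr a)), fun D1 D2 c => ?_, fun D a1 a2 a3 => ?_⟩
  · obtain ⟨D, hD⟩ := kd_der_ex hx
      (Sum.elim (fun a => i1 (D1 (y1 a))) (Sum.elim (fun a => i2 (D2 (y2 a))) c))
    refine ⟨D, kd_der_comp h1 i1 D D1 fun a => ?_, kd_der_comp h2 i2 D D2 fun a => ?_,
      fun a => hD _⟩
    · rw [e1]
      exact hD _
    · rw [e2]
      exact hD _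
  · refine kd_der_zero hx D ?_
    rintro (a | a | a)
    · exact (congrArg D (e1 a)).symm.trans (a1 _)
    · exact (congrArg D (e2 a)).symm.trans (a2 _)
    · exact a3 a

/-- linear disjointness in functional form -/
theorem kd_ld {k F Ω κ : Type} [Field k] [Field F] [Field Ω] [Algebra k F] [Algebra k Ω]
    (hc : ∀ y : F, (∀ D : Derivation k F F, D y = 0) → y ∈ Set.range (algebraMap k F))
    (i : F →ₐ[k] Ω) (ex : Derivation k F F → Derivation k Ω Ω)
    (hex : ∀ D y, ex D (i y) = i (D y)) (s : Finset κ) :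
    ∀ (b : κ → F) (w : κ → Ω), (∀ D j, ex D (w j) = 0) → ∑ j ∈ s, w j * i (b j) = 0 →
      ∀ φ : Ω →ₗ[k] k, ∑ j ∈ s, φ (w j) • b j = 0 := by
  classical
  induction s using Finset.strongInduction with
  | H s ih =>
  intro b w hw h0
  by_cases hind : ∀ g : κ → k, ∑ j ∈ s, g j • b j = 0 → ∀ j ∈ s, g j = 0
  · rcases s.eq_empty_or_nonempty with rfl | ⟨j0, hj0⟩
    · intro φ
      simp
    have hb0 : b j0 ≠ 0 := by
      intro hb
      have := hind (fun j => if j = j0 then 1 else 0) (by simp [hj0, hb]) j0 hj0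
      simp at this
    have hi0 : i (b j0) ≠ 0 := (_root_.map_ne_zero i).mpr hb0
    have h1 : w j0 + ∑ j ∈ s.erase j0, w j * i (b j / b j0) = 0 := by
      apply mul_right_cancel₀ hi0
      rw [zero_mul, add_mul, Finset.sum_mul, ← h0, ← Finset.add_sum_erase s _ hj0]
      refine congrArg _ (Finset.sum_congr rfl fun j _ => ?_)
      rw [map_div₀, mul_assoc, div_mul_cancel₀ _ hi0]
    have h2 : ∀ φ : Ω →ₗ[k] k, ∀ j ∈ s.erase j0, φ (w j) = 0 := by
      intro φ j hj
      obtain ⟨c, hc'⟩ := hc (∑ j ∈ s.erase j0, φ (w j) • (b j / b j0)) fun D => by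
        have h3 := congrArg (ex D) h1
        rw [map_add, hw, zero_add, map_zero, map_sum] at h3
        rw [map_sum]
        simp only [Derivation.map_smul]
        refine ih _ (Finset.erase_ssubset hj0) (fun j => D (b j / b j0)) w hw ?_ φ
        rw [← h3]
        refine Finset.sum_congr rfl fun j _ => ?_
        rw [Derivation.leibniz, hw, hex, smul_zero, add_zero, smul_eq_mul]
      have h4 := hind (fun j => if j = j0 then -c else φ (w j)) (by
        rw [← Finset.add_sum_erase s _ hj0, if_pos rfl]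
        have : ∑ j ∈ s.erase j0, (if j = j0 then -c else φ (w j)) • b j = c • b j0 := by
          rw [Algebra.smul_def c, hc', Finset.sum_mul]
          refine Finset.sum_congr rfl fun j hj => ?_
          rw [if_neg (Finset.ne_of_mem_erase hj), smul_mul_assoc, div_mul_cancel₀ _ hb0]
        rw [this, neg_smul, neg_add_cancel]) j (Finset.mem_of_mem_erase hj)
      simpa [Finset.ne_of_mem_erase hj] using h4
    have h5 : ∀ j ∈ s.erase j0, w j = 0 := fun j hj =>
      (Module.forall_dual_apply_eq_zero_iff k (w j)).mp fun φ => h2 φ j hj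
    rw [Finset.sum_eq_zero fun j hj => by rw [h5 j hj, zero_mul], add_zero] at h1
    intro φ
    refine Finset.sum_eq_zero fun j hj => ?_
    by_cases e : j = j0
    · rw [e, h1, map_zero, zero_smul]
    · rw [h5 j (Finset.mem_erase.mpr ⟨e, hj⟩), map_zero, zero_smul]
  · push Not at hind
    obtain ⟨g, hg, j1, hj1, hg1⟩ := hind
    intro φ
    have e1 : w j1 - (g j1 / g j1) • w j1 = 0 := by rw [div_self hg1, one_smul, sub_self]
    have h1 : ∑ j ∈ s, (w j - (g j / g j1) • w j1) * i (b j) = 0 := by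
      have h2 : ∑ j ∈ s, ((g j / g j1) • w j1) * i (b j) =
          ((g j1)⁻¹ • w j1) * i (∑ j ∈ s, g j • b j) := by
        rw [map_sum, Finset.mul_sum]
        refine Finset.sum_congr rfl fun j _ => ?_
        rw [map_smul, smul_mul_smul_comm, smul_mul_assoc, div_eq_inv_mul]
      simp only [sub_mul]
      rw [Finset.sum_sub_distrib, h0, h2, hg, map_zero, mul_zero, sub_zero]
    rw [← Finset.add_sum_erase s _ hj1, e1, zero_mul, zero_add] at h1
    have h3 := ih _ (Finset.erase_ssubset hj1) b (fun j => w j - (g j / g j1) • w j1)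
      (fun D j => by rw [map_sub, Derivation.map_smul, hw, hw, smul_zero, sub_zero]) h1 φ
    have h4 : ∑ j ∈ s, φ (w j - (g j / g j1) • w j1) • b j = 0 := by
      rw [← Finset.add_sum_erase s _ hj1, e1, map_zero, zero_smul, zero_add, h3]
    have h5 : ∑ j ∈ s, φ ((g j / g j1) • w j1) • b j =
        ((g j1)⁻¹ * φ (w j1)) • ∑ j ∈ s, g j • b j := by
      rw [Finset.smul_sum]
      refine Finset.sum_congr rfl fun j _ => ?_
      rw [map_smul, smul_smul, smul_eq_mul]
      congr 1
      field_simp
    simp only [map_sub, sub_smul] at h4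
    rw [Finset.sum_sub_distrib, h5, hg, smul_zero, sub_zero] at h4
    exact h4

section phi
variable {k K σ : Type} [Field k] [Field K] [Algebra k K]

/-- a functional applied to the coefficients -/
noncomputable def kdPhi (ψ : K →ₗ[k] k) (A : MvPolynomial σ K) : MvPolynomial σ k :=
  ∑ m ∈ A.support, monomial m (ψ (coeff m A))

theorem kdPhi_coeff (ψ : K →ₗ[k] k) (A : MvPolynomial σ K) (m : σ →₀ ℕ) :
    coeff m (kdPhi ψ A) = ψ (coeff m A) := by
  classical
  rw [kdPhi, coeff_sum]
  simp only [coeff_monomial]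
  rw [Finset.sum_ite_eq']
  split_ifs with h
  · rfl
  · rw [notMem_support_iff.mp h, map_zero]

theorem kdPhi_add (ψ : K →ₗ[k] k) (A B : MvPolynomial σ K) :
    kdPhi ψ (A + B) = kdPhi ψ A + kdPhi ψ B := by
  ext m
  simp only [kdPhi_coeff, coeff_add, map_add]

theorem kdPhi_sub (ψ : K →ₗ[k] k) (A B : MvPolynomial σ K) :
    kdPhi ψ (A - B) = kdPhi ψ A - kdPhi ψ B := by
  ext m
  simp only [kdPhi_coeff, coeff_sub, map_sub]

theorem kdPhi_mul (ψ : K →ₗ[k] k) (A : MvPolynomial σ K) (f : MvPolynomial σ k) :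
    kdPhi ψ (A * MvPolynomial.map (algebraMap k K) f) = kdPhi ψ A * f := by
  classical
  ext m
  rw [kdPhi_coeff, coeff_mul, coeff_mul, map_sum]
  refine Finset.sum_congr rfl fun p _ => ?_
  rw [kdPhi_coeff, coeff_map, mul_comm, ← Algebra.smul_def, map_smul, smul_eq_mul, mul_comm]

theorem kdPhi_map {ψ : K →ₗ[k] k} (h : ψ 1 = 1) (f : MvPolynomial σ k) :
    kdPhi ψ (MvPolynomial.map (algebraMap k K) f) = f := by
  ext m
  rw [kdPhi_coeff, coeff_map, Algebra.algebraMap_eq_smul_one, map_smul, h, smul_eq_mul, mul_one]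

theorem kdPhi_mem (ψ : K →ₗ[k] k) {I : Ideal (MvPolynomial σ k)} {A : MvPolynomial σ K}
    (h : A ∈ I.map (MvPolynomial.map (algebraMap k K))) : kdPhi ψ A ∈ I := by
  have : ∀ B, kdPhi ψ (B * A) ∈ I := by
    induction h using Submodule.span_induction with
    | mem x hx =>
      obtain ⟨f, hf, rfl⟩ := hx
      intro B
      rw [kdPhi_mul]
      exact I.mul_mem_left _ hf
    | zero =>
      intro B
      have : kdPhi ψ (B * 0) = 0 := by
        ext m
        simp [kdPhi_coeff]
      rw [this]
      exact I.zero_mem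
    | add x y _ _ hx hy =>
      intro B
      rw [mul_add, kdPhi_add]
      exact I.add_mem (hx B) (hy B)
    | smul a x _ hx =>
      intro B
      rw [smul_eq_mul, ← mul_assoc]
      exact hx _
  simpa using this 1

theorem kdPhi_mem' {I : Ideal (MvPolynomial σ k)} {A : MvPolynomial σ K}
    (h : ∀ ψ : K →ₗ[k] k, kdPhi ψ A ∈ I) : A ∈ I.map (MvPolynomial.map (algebraMap k K)) := by
  classical
  let e := Basis.ofVectorSpace k K
  have : A = ∑ β ∈ A.support.biUnion fun m => (e.repr (coeff m A)).support,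
      C (e β) * MvPolynomial.map (algebraMap k K) (kdPhi (e.coord β) A) := by
    ext m
    rw [coeff_sum]
    simp only [coeff_C_mul, coeff_map, kdPhi_coeff, Basis.coord_apply]
    have h1 : (e.repr (coeff m A)).support ⊆
        A.support.biUnion fun m => (e.repr (coeff m A)).support := by
      by_cases hm : m ∈ A.support
      · exact Finset.subset_biUnion_of_mem (fun m => (e.repr (coeff m A)).support) hm
      · rw [notMem_support_iff.mp hm, map_zero, Finsupp.support_zero]
        exact Finset.empty_subset _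
    conv_lhs => rw [← e.linearCombination_repr (coeff m A)]
    rw [Finsupp.linearCombination_apply, Finsupp.sum_of_support_subset _ h1 _
      (fun β _ => by simp)]
    exact Finset.sum_congr rfl fun β _ => by rw [Algebra.smul_def, mul_comm]
  rw [this]
  exact Ideal.sum_mem _ fun β _ => Ideal.mul_mem_left _ _ (Ideal.mem_map_of_mem _ (h _))

theorem kdPhi_hc (ψ : K →ₗ[k] k) (A : MvPolynomial σ K) (d : ℕ) :
    kdPhi ψ (homogeneousComponent d A) = homogeneousComponent d (kdPhi ψ A) := by
  ext m
  rw [kdPhi_coeff, coeff_homogeneousComponent, coeff_homogeneousComponent, kdPhi_coeff]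
  split_ifs
  · rfl
  · exact map_zero _

theorem kdPhi_deg (ψ : K →ₗ[k] k) (A : MvPolynomial σ K) :
    (kdPhi ψ A).totalDegree ≤ A.totalDegree := by
  refine Finset.sup_mono fun m hm => ?_
  rw [MvPolynomial.mem_support_iff] at hm ⊢
  intro h
  rw [kdPhi_coeff, h, map_zero] at hm
  exact hm rfl

end phi

end PV
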