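import Pool.Agent.Lib.MP_36fb43_ag.KC
import Pool.Agent.Lib.MP_36fb43_ag.KDa

open MvPolynomial Matrix Module

namespace PV

variable {k F R : Type} [Field k] [CharZero k] [Field R] [Field F] [Algebra k F] [Algebra R F]

theorem copy_ex [IsAlgClosed k] (m : ℕ) : ∃ (Ω : Type) (_ : Field Ω) (_ : Algebra k Ω)
    (_ : IsAlgClosed Ω), Nonempty (Copy k F Ω m) := by
  obtain ⟨Ω, _, _, _, i1, i2, lam, h1, h2⟩ := kd_copy k F F m
  exact ⟨Ω, inferInstance, inferInstance, inferInstance, ⟨⟨i1, i2, lam, h1, h2⟩⟩⟩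

theorem Copy.ld2 [IsAlgClosed k] {Ω : Type} [Field Ω] [Algebra k Ω] {m : ℕ} (c : Copy k F Ω m)
    {κ : Type} [Fintype κ] (b : κ → F) (hb : LinearIndependent k b) (w : κ → Ω)
    (hw : ∀ D : Derivation k Ω Ω, (∀ y, D (c.i1 y) = 0) → (∀ a, D (c.lam a) = 0) → ∀ j, D (w j) = 0)
    (h : ∑ j, w j * c.i2 (b j) = 0) : ∀ j, w j = 0 := by
  choose ex h1 h2 h3 using fun D2 : Derivation k F F => c.ex 0 D2 0
  intro j
  refine (Module.forall_dual_apply_eq_zero_iff k (w j)).mp fun φ => ?_
  refine Fintype.linearIndependent_iff.mp hb (fun j => φ (w j)) ?_ j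
  exact kd_ld (fun _ hy => const_mem hy) c.i2 ex h2 Finset.univ b w
    (fun D => hw (ex D) (fun y => by rw [h1]; simp) (h3 D)) h φ

/-- exchange of the two copies -/
def Copy.swap {Ω : Type} [Field Ω] [Algebra k Ω] {m : ℕ} (c : Copy k F Ω m) : Copy k F Ω m :=
  ⟨c.i2, c.i1, c.lam, fun D1 D2 w => (c.ex D2 D1 w).imp fun _ h => ⟨h.2.1, h.1, h.2.2⟩,
    fun D h1 h2 h3 => c.uq D h2 h1 h3⟩

/-- the kernel of a point stays prime after extension of an algebraically closed ground field -/
theorem kd_map_prime [IsAlgClosed k] {σ : Type} {I : Ideal (MvPolynomial σ k)} (x : σ → F)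
    (hx : ∀ f, aeval x f = 0 ↔ f ∈ I) (K : Type) [Field K] [Algebra k K] :
    (I.map (MvPolynomial.map (algebraMap k K))).IsPrime := by
  obtain ⟨Ω, _, _, _, i1, i2, lam, h1, -⟩ := kd_copy k K F 0
  choose ex e1 e2 _ using fun D2 : Derivation k F F => h1 0 D2 0
  let θ : MvPolynomial σ K →+* Ω := eval₂Hom i1.toRingHom fun a => i2 (x a)
  have hθ : ∀ f : MvPolynomial σ k, θ (MvPolynomial.map (algebraMap k K) f) = i2 (aeval x f) := by
    intro f
    induction f using MvPolynomial.induction_on with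
    | C c => simp [θ]
    | add p q hp hq => simp only [map_add, hp, hq]
    | mul_X p a hp => simp only [map_mul, hp]; simp [θ]
  have : I.map (MvPolynomial.map (algebraMap k K)) = RingHom.ker θ := by
    apply le_antisymm
    · rw [Ideal.map_le_iff_le_comap]
      intro f hf
      rw [Ideal.mem_comap, RingHom.mem_ker, hθ, (hx f).mpr hf, map_zero]
    · intro A hA
      refine kdPhi_mem' fun ψ => (hx _).mp ?_
      obtain ⟨r, hr⟩ := LinearMap.exists_leftInverse_of_injective i1.toLinearMap
        (LinearMap.ker_eq_bot.mpr i1.toRingHom.injective)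
      have h0 : ∑ m ∈ A.support, i1 (coeff m A) * i2 (aeval x (monomial m (1 : k))) = 0 := by
        rw [← RingHom.mem_ker.mp hA]
        conv_rhs => rw [A.as_sum, map_sum]
        refine Finset.sum_congr rfl fun m _ => ?_
        rw [← hθ, map_monomial, map_one, ← mul_one (coeff m A), ← C_mul_monomial, map_mul θ,
          mul_one]
        simp [θ]
      have h2 := kd_ld (fun _ hy => const_mem hy) i2 ex e2 A.support
        (fun m => aeval x (monomial m (1 : k))) (fun m => i1 (coeff m A))
        (fun D m => by rw [e1]; simp) h0 (ψ.comp r)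
      rw [kdPhi, map_sum, ← h2]
      refine Finset.sum_congr rfl fun m _ => ?_
      have h3 : r (i1 (coeff m A)) = coeff m A := LinearMap.congr_fun hr _
      rw [LinearMap.comp_apply, h3, ← map_smul, smul_monomial, smul_eq_mul, mul_one]
  rw [this]
  exact RingHom.ker_isPrime θ

omit [CharZero k] in
theorem kd_gr_map {σ K L : Type} [Field K] [Field L] [Algebra k K] [Algebra K L] [Algebra k L]
    [IsScalarTower k K L] (f : MvPolynomial σ k) (x : σ → L) :
    gr (MvPolynomial.map (algebraMap k K) f) x = gr f x := by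
  ext i
  simp only [gr, pderiv_map, aeval_map_algebraMap]

omit [CharZero k] in
theorem kd_on_map {σ K L : Type} [Field K] [Field L] [Algebra k K] [Algebra K L] [Algebra k L]
    [IsScalarTower k K L] {I : Ideal (MvPolynomial σ k)} {x : σ → L} :
    On (I.map (MvPolynomial.map (algebraMap k K))) x ↔ On I x := by
  constructor
  · intro h f hf
    rw [← aeval_map_algebraMap K]
    exact h _ (Ideal.mem_map_of_mem _ hf)
  · intro h A hA
    have : I.map (MvPolynomial.map (algebraMap k K)) ≤ RingHom.ker (aeval (R := K) x) := by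
      rw [Ideal.map_le_iff_le_comap]
      intro f hf
      rw [Ideal.mem_comap, RingHom.mem_ker, aeval_map_algebraMap]
      exact h f hf
    exact this hA

omit [CharZero k] in
theorem kd_Nm_map {σ K L : Type} [Field K] [Field L] [Algebra k K] [Algebra K L] [Algebra k L]
    [IsScalarTower k K L] {I : Ideal (MvPolynomial σ k)} {x : σ → L} (hx : On I x) :
    Nm (I.map (MvPolynomial.map (algebraMap k K))) x = Nm I x := by
  apply le_antisymm
  · rw [Nm, Submodule.span_le]
    rintro _ ⟨A, hA, rfl⟩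
    induction hA using Submodule.span_induction with
    | mem A hA =>
      obtain ⟨f, hf, rfl⟩ := hA
      exact Submodule.subset_span ⟨f, hf, kd_gr_map f x⟩
    | zero =>
      have : gr (0 : MvPolynomial σ K) x = 0 := by
        ext i
        simp [gr]
      rw [this]
      exact Submodule.zero_mem _
    | add A B _ _ hA hB =>
      have : gr (A + B) x = gr A x + gr B x := by
        ext i
        simp [gr]
      rw [this]
      exact Submodule.add_mem _ hA hB
    | smul a A hA' hA =>
      have h0 : aeval x A = 0 := kd_on_map.mpr hx A hA'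
      have : gr (a • A) x = aeval x a • gr A x := by
        ext i
        simp [gr, h0]
      rw [this]
      exact Submodule.smul_mem _ _ hA
  · rw [Nm, Submodule.span_le]
    rintro _ ⟨f, hf, rfl⟩
    exact Submodule.subset_span ⟨_, Ideal.mem_map_of_mem _ hf, (kd_gr_map f x).symm⟩

theorem cone_map [IsAlgClosed k] {n : ℕ} (Z : Cone k n) (K : Type) [Field K] [Algebra k K] :
    ∃ Z' : Cone K n, Z'.I = Z.I.map (MvPolynomial.map (algebraMap k K)) := by
  obtain ⟨L, _, _, _, x, hx, -⟩ := genpt_ex Z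
  obtain ⟨ψ, hψ⟩ := Module.Projective.exists_dual_eq_one k (one_ne_zero (α := K))
  refine ⟨⟨_, kd_map_prime x hx K, fun f hf d => kdPhi_mem' fun φ => ?_, ?_, ?_⟩, rfl⟩
  · rw [kdPhi_hc]
    exact Z.hom _ (kdPhi_mem φ hf) d
  · obtain ⟨i, hi⟩ := Z.ne
    refine ⟨i, fun h => hi ?_⟩
    have := kdPhi_mem ψ h
    rwa [← map_X (algebraMap k K), kdPhi_map hψ] at this
  · intro E _ _ y hy hon
    let _ : Algebra k E := ((algebraMap K E).comp (algebraMap k K)).toAlgebra
    have : IsScalarTower k K E := .of_algebraMap_eq fun _ => rfl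
    rw [kd_Nm_map (kd_on_map.mp hon)]
    exact Z.rk E y hy (kd_on_map.mp hon)

theorem poly_of_ext {n d : ℕ} {Z : Cone k n} (s : Sect Z d) (K : Type) [Field K] [Algebra k K]
    (A : MvPolynomial (Fin n) K) (h : ∀ i, X i ^ s.N * A - MvPolynomial.map (algebraMap k K) (s.G i) ∈
      Z.I.map (MvPolynomial.map (algebraMap k K))) : s.Poly := by
  obtain ⟨ψ, hψ⟩ := Module.Projective.exists_dual_eq_one k (one_ne_zero (α := K))
  refine ⟨kdPhi ψ A, fun i => ?_⟩
  have := kdPhi_mem ψ (h i)
  rwa [kdPhi_sub, kdPhi_map hψ, ← map_X (algebraMap k K), ← map_pow, mul_comm, kdPhi_mul,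
    mul_comm] at this

theorem low_of_ext {n : ℕ} (Z : Cone k n) (K : Type) [Field K] [Algebra k K]
    (A : MvPolynomial (Fin n) K) (h0 : A ≠ 0)
    (h : A ∈ Z.I.map (MvPolynomial.map (algebraMap k K))) :
    ∃ f ∈ Z.I, f ≠ 0 ∧ f.totalDegree ≤ A.totalDegree := by
  obtain ⟨m, hm⟩ := exists_coeff_ne_zero h0
  obtain ⟨ψ, hψ⟩ := Module.Projective.exists_dual_eq_one k hm
  refine ⟨kdPhi ψ A, kdPhi_mem ψ h, fun e => ?_, kdPhi_deg ψ A⟩
  have := kdPhi_coeff ψ A m
  rw [e, hψ, coeff_zero] at this
  exact zero_ne_one this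

end PV
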