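import Pool.Agent.Lib.MP_36fb43_ag.IrrB
import Pool.Agent.Lib.MP_36fb43_ag.KD

/-! No point of a moving aligned triple is rational over the field of the line. -/

open MvPolynomial Matrix Module

namespace PV

/-- the coefficients of a split cubic -/
def irrE {A : Type} [CommRing A] (a b c : A) : Fin 3 → A :=
  ![-(a * b * c), a * b + a * c + b * c, -(a + b + c)]

theorem irrE_eq {A : Type} [CommRing A] (a b c : A) : Polynomial.X ^ 3 + irrP (irrE a b c) =
    (Polynomial.X - Polynomial.C a) * (Polynomial.X - Polynomial.C b) *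
      (Polynomial.X - Polynomial.C c) := by
  simp [irrP, irrE, Fin.sum_univ_three]
  ring

theorem irr_pair {F : Type} [Field F] {p q : Fin 6 → F} {j : Fin 6} (hp : p 0 ≠ 0) (h0 : q 0 = 0)
    (h1 : q j = 1) : LinearIndependent F ![p, q] :=
  LinearIndependent.pair_iff.2 fun s t h => by
    have a : s = 0 := by simpa [h0, hp] using congrFun h 0
    exact ⟨a, by simpa [a, h1] using congrFun h j⟩

theorem irr_span {F : Type} [Field F] {p q v : Fin 6 → F} {j : Fin 6} (hp : p 0 ≠ 0) (h0 : q 0 = 0)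
    (h1 : q j = 1) (v0 : v 0 = 0) (vj : v j = 0) (h : v ∈ Submodule.span F {p, q}) : v = 0 := by
  obtain ⟨s, t, rfl⟩ := Submodule.mem_span_pair.1 h
  have a : s = 0 := by simpa [h0, hp] using v0
  have b : t = 0 := by simpa [a, h1] using vj
  simp [a, b]

variable {Z : Cone ℂ 6} {k : Type} [Field k] [IsAlgClosed k] [Algebra ℂ k] {p : Fin 6 → k}

omit [IsAlgClosed k] in
theorem GenPt.p0 (hp : GenPt p) : p 0 ≠ 0 := fun e => by
  obtain ⟨D, hD⟩ := hp.ex fun _ => 1
  simpa [dv, e] using congrFun hD 0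

variable {Ω : Type} [Field Ω] [Algebra ℂ Ω] [Algebra k Ω] [IsScalarTower ℂ k Ω]

theorem irr_tz (hp : GenPt p) {y : Fin 6 ⊕ Fin 3 → Ω} {x0 τ : Fin 6 ⊕ Fin 3 → k} {m : Fin 6}
    (h0 : y (Sum.inl 0) = 0) (h1 : y (Sum.inl m) = 1)
    (hg : Al Z.I (algebraMap k Ω ∘ p) (y ∘ Sum.inl) (Polynomial.X ^ 3 + irrP (y ∘ Sum.inr)))
    (hx : ∀ Φ : IrrR k, aeval y Φ = 0 → aeval x0 Φ = 0) {z : k}
    (hz : (Polynomial.X - Polynomial.C z) ^ 2 ∣ Polynomial.X ^ 3 + irrP (x0 ∘ Sum.inr))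
    (hτ : ∀ Φ : IrrR k, aeval y Φ = 0 → gr Φ x0 ⬝ᵥ τ = 0) (hρ : (irrP (τ ∘ Sum.inr)).eval z = 0) :
    τ = 0 := by
  have a0 : (x0 ∘ Sum.inl) 0 = 0 := by simpa using hx (X (Sum.inl 0)) (by simp [h0])
  have a1 : (x0 ∘ Sum.inl) m = 1 := by
    have := hx (X (Sum.inl m) - 1) (by simp [h1])
    simpa [sub_eq_zero] using this
  have b0 : (τ ∘ Sum.inl) 0 = 0 := by
    simpa [gr, dotProduct, pderiv_X, Pi.single_apply, apply_ite] using
      hτ (X (Sum.inl 0)) (by simp [h0])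
  have b1 : (τ ∘ Sum.inl) m = 0 := by
    have := hτ (X (Sum.inl m) - 1) (by simp [h1])
    simpa [gr, dotProduct, pderiv_X, Pi.single_apply, apply_ite] using this
  have mo := irrP_monic (x0 ∘ Sum.inr)
  have dg : (Polynomial.X ^ 3 + irrP (x0 ∘ Sum.inr)).degree = ((3 : ℕ) : WithBot ℕ) := by
    rw [Polynomial.degree_add_eq_left_of_degree_lt, Polynomial.degree_X_pow]
    rw [Polynomial.degree_X_pow]
    exact irrP_deg _
  have key : ∀ f ∈ Z.I, ∀ r, aeval (ln p (x0 ∘ Sum.inl)) f =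
      (Polynomial.X ^ 3 + irrP (x0 ∘ Sum.inr)) * r → Polynomial.X ^ 3 + irrP (x0 ∘ Sum.inr) ∣
        grL f p (x0 ∘ Sum.inl) (τ ∘ Sum.inl) - r * irrP (τ ∘ Sum.inr) := fun f hf r e => by
    obtain ⟨r0, r1, e0, e1⟩ := irr_tan hg hx hτ hf
    rw [e1, mul_left_cancel₀ mo.ne_zero (e.symm.trans e0), add_sub_cancel_right]
    exact dvd_mul_right _ _
  obtain ⟨⟨z3, n3, e3⟩, g2, g3⟩ := gpa (Z := Z) hp.ex (irr_pair hp.p0 a0 a1) mo
    (Polynomial.natDegree_eq_of_degree_eq_some dg)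
    (fun f hf => (irr_tan hg hx hτ hf).elim fun r0 h => h.elim fun _ h => ⟨r0, h.1⟩) hz
  have v0 := irr_span hp.p0 a0 a1 b0 b1 (g3 _ _ hρ key)
  have dv1 : ∀ (w : k) (n : ℕ), (Polynomial.X ^ 3 + irrP (x0 ∘ Sum.inr)).IsRoot w →
      (Polynomial.X - Polynomial.C w) ^ n ∣ Polynomial.X ^ 3 + irrP (x0 ∘ Sum.inr) →
      (Polynomial.X - Polynomial.C w) ^ n ∣ irrP (τ ∘ Sum.inr) := fun w n hw hn => by
    obtain ⟨f, hf, r, e, hr⟩ := g2 w hw
    have := hn.trans (key f hf r e)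
    rw [v0] at this
    simp only [grL, Pi.zero_apply, map_zero, mul_zero, Finset.sum_const_zero, zero_sub,
      dvd_neg] at this
    exact (((Polynomial.irreducible_X_sub_C w).coprime_iff_not_dvd.2 fun h =>
      hr (Polynomial.dvd_iff_isRoot.1 h)).pow_left).dvd_of_dvd_mul_left this
  have dv2 : Polynomial.X ^ 3 + irrP (x0 ∘ Sum.inr) ∣ irrP (τ ∘ Sum.inr) := by
    have c1 := dv1 z 2 (by rw [e3]; simp) hz
    have c2 := dv1 z3 1 (by rw [e3]; simp) (by rw [e3]; simp)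
    rw [pow_one] at c2
    rw [e3]
    exact (Polynomial.isCoprime_X_sub_C_of_isUnit_sub
      (sub_ne_zero.2 n3.symm).isUnit).pow_left.mul_dvd c1 c2
  have ρ0 := Polynomial.eq_zero_of_dvd_of_degree_lt dv2 (dg ▸ irrP_deg _)
  funext s
  rcases s with i | l
  · exact congrFun v0 i
  · exact (irrP_coeff (τ ∘ Sum.inr) l).symm.trans (by rw [ρ0]; rfl)

theorem irr_col (hp : GenPt p) {q : Fin 6 → Ω} {m : Fin 6} (h0 : q 0 = 0) (h1 : q m = 1)
    {a b c : Ω} (hg : Al Z.I (algebraMap k Ω ∘ p) q ((Polynomial.X - Polynomial.C a) *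
      (Polynomial.X - Polynomial.C b) * (Polynomial.X - Polynomial.C c)))
    {D : Derivation k Ω Ω} (hD : dv D q ≠ 0) (O : ValuationSubring Ω)
    (hk : ∀ t : k, algebraMap k Ω t ∈ O) (hq : ∀ i, q i ∈ O) (ha : a ∈ O) (hb : b ∈ O) (hc : c ∈ O)
    (hab : O.valuation (a - b) < 1) : a ∉ IntermediateField.adjoin k (Set.range q) := by
  intro hL
  obtain ⟨κ, _, _, _, ⟨r⟩⟩ := res_ex k O hk
  let y1 : Fin 6 ⊕ Fin 3 → Ω := Sum.elim q ![a, b, c]
  have m1 : ∀ s, y1 s ∈ O := by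
    rintro (i | l)
    · exact hq i
    · fin_cases l <;> assumption
  obtain ⟨x1, hx1, -⟩ := spec_pt (k := k) (r.ρ ∘ y1) (g := 1) (by simp)
  have rel : ∀ Φ : IrrR k, O.valuation (aeval y1 Φ) < 1 → eval x1 Φ = 0 := fun Φ h =>
    hx1 Φ ((r.aeval m1 Φ).2.symm.trans ((r.zero _ (r.aeval m1 Φ).1).2 h))
  obtain ⟨O', o1, o2⟩ := val_dom (aeval y1 : IrrR k →ₐ[k] Ω).toRingHom (eval x1)
    fun Φ h => rel Φ (by rw [show aeval y1 Φ = 0 from h]; simp)
  replace o1 : ∀ Φ : IrrR k, aeval y1 Φ ∈ O' := o1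
  replace o2 : ∀ Φ : IrrR k, O'.valuation (aeval y1 Φ) < 1 ↔ aeval x1 Φ = 0 := o2
  set z := x1 (Sum.inr 0) with hz
  have z1 : x1 (Sum.inr 1) = z := by
    have := rel (X (Sum.inr 0) - X (Sum.inr 1)) (by simpa [y1] using hab)
    exact (sub_eq_zero.1 (by simpa using this)).symm
  let s : IrrR k →ₐ[k] IrrR k := aeval
    (Sum.elim (fun i => X (Sum.inl i)) (irrE (X (Sum.inr 0)) (X (Sum.inr 1)) (X (Sum.inr 2))))
  let y : Fin 6 ⊕ Fin 3 → Ω := Sum.elim q (irrE a b c)
  let x0 : Fin 6 ⊕ Fin 3 → k := Sum.elim (x1 ∘ Sum.inl) (irrE z z (x1 (Sum.inr 2)))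
  have sy : ∀ Φ, aeval y1 (s Φ) = aeval y Φ := fun Φ => by
    refine (DFunLike.congr_fun (MvPolynomial.comp_aeval _ (aeval y1)) Φ).trans ?_
    congr 2
    funext t
    rcases t with i | l
    · simp [y, y1]
    · fin_cases l <;> simp [y, y1, irrE]
  have sx : ∀ Φ, aeval x1 (s Φ) = aeval x0 Φ := fun Φ => by
    refine (DFunLike.congr_fun (MvPolynomial.comp_aeval _ (aeval x1)) Φ).trans ?_
    congr 2
    funext t
    rcases t with i | l
    · simp [x0]
    · fin_cases l <;> simp [x0, irrE, z1, ← hz]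
  have hv : ∀ Φ : IrrR k, O'.valuation (aeval y Φ) < 1 ↔ aeval x0 Φ = 0 := fun Φ => by
    rw [← sy, ← sx, o2]
  let α : IrrR k := C (z ^ 3) + ∑ l : Fin 3, X (Sum.inr l) * C (z ^ (l : ℕ))
  have loc := irr_loc y x0 O' (fun Φ => sy Φ ▸ o1 _) hv (α := α)
    (by simp [α, x0, irrE, Fin.sum_univ_three]; ring) fun τ t1 t2 =>
    irr_tz (Z := Z) hp (y := y) (m := m) h0 h1 (z := z)
      (by rw [show y ∘ Sum.inr = irrE a b c from rfl, irrE_eq]; exact hg)
      (fun Φ h => (hv Φ).1 (by rw [h]; simp))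
      (by rw [show x0 ∘ Sum.inr = irrE z z _ from rfl, irrE_eq, ← sq]; exact dvd_mul_right _ _) t1
      (by
        have e : ∀ l : Fin 3, gr (X (Sum.inr l) * C (z ^ (l : ℕ)) : IrrR k) x0 ⬝ᵥ τ =
            τ (Sum.inr l) * z ^ (l : ℕ) := fun l => by
          rw [mul_comm (X _), mul_comm (τ _)]
          simp only [gr, dotProduct, pderiv_C_mul, map_mul, aeval_C, mul_assoc, ← Finset.mul_sum]
          simp [pderiv_X, Pi.single_apply, apply_ite]
        simp only [gr, dotProduct] at e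
        simp only [α, gr, dotProduct, map_add, map_sum, pderiv_C, map_zero, zero_add,
          Finset.sum_mul] at t2
        rw [Finset.sum_comm] at t2
        simpa [irrP, Polynomial.eval_finset_sum, e] using
          (Finset.sum_congr rfl fun l _ => e l).symm.trans t2)
  set w := algebraMap k Ω z with hw
  have eα : aeval y α = -((a - w) * ((b - w) * (c - w))) := by
    simp [α, y, irrE, Fin.sum_univ_three, ← hw]
    ring
  have va : O'.valuation (a - w) < 1 := by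
    have := (o2 (X (Sum.inr 0) - C z)).2 (by simp [← hz])
    simpa [y1, ← hw] using this
  have vb : O'.valuation (b - w) < 1 := by
    have := (o2 (X (Sum.inr 1) - C z)).2 (by simp [z1])
    simpa [y1, ← hw] using this
  have vc : O'.valuation (c - w) ≤ 1 := (O'.valuation_le_one_iff _).2 (by
    have := o1 (X (Sum.inr 2) - C z)
    simpa [y1, ← hw] using this)
  have vbc : O'.valuation ((b - w) * (c - w)) < 1 := by
    rw [map_mul]
    exact (mul_le_of_le_one_right' vc).trans_lt vb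
  by_cases a0 : a - w = 0
  · refine hD (funext fun i => ?_)
    have : q i = algebraMap k Ω (x0 (Sum.inl i)) := by
      by_contra n
      obtain ⟨n, hn⟩ := loc (X (Sum.inl i) - C (x0 (Sum.inl i))) (by simpa [y, sub_eq_zero] using n)
      have lt := (hv (X (Sum.inl i) - C (x0 (Sum.inl i)))).2 (by simp)
      rw [eα, a0] at hn
      rcases n with _ | n
      · exact lt.ne (by simpa using hn)
      · exact ‹¬ _› (by simpa [y, sub_eq_zero] using hn)
    simp [dv, this]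
  have mem : a - w ∈ IntermediateField.adjoin k (Set.range y) := sub_mem
    (IntermediateField.adjoin.mono _ _ _ (by rintro _ ⟨i, rfl⟩; exact ⟨Sum.inl i, rfl⟩) hL)
    (IntermediateField.algebraMap_mem _ z)
  obtain ⟨Φ1, Φ2, e⟩ := (IntermediateField.mem_adjoin_range_iff _ _ _).1 mem
  have n1 : aeval y Φ1 ≠ 0 := fun h => a0 (by rw [e, h, zero_div])
  have n2 : aeval y Φ2 ≠ 0 := fun h => a0 (by rw [e, h, div_zero])
  obtain ⟨i1, e1⟩ := loc Φ1 n1
  obtain ⟨i2, e2⟩ := loc Φ2 n2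
  have e3 : O'.valuation (a - w) * O'.valuation (aeval y α) ^ i2 =
      O'.valuation (aeval y α) ^ i1 := by
    rw [← e1, ← e2, ← map_mul, e, div_mul_cancel₀ _ n2]
  have lt : O'.valuation (aeval y α) < O'.valuation (a - w) := by
    rw [eα, Valuation.map_neg, map_mul]
    exact mul_lt_of_lt_one_right (zero_lt_iff.2 (by simpa using a0)) vbc
  have p2 : 0 < O'.valuation (aeval y α) ^ i2 := by
    rw [← e2]
    exact zero_lt_iff.2 (by simpa using n2)
  rcases le_or_gt i1 i2 with h | h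
  · exact absurd e3 ((mul_lt_of_lt_one_left p2 va).trans_le
      (pow_le_pow_right_of_le_one' (lt.trans va).le h)).ne
  · exact absurd e3 (((pow_le_pow_right_of_le_one' (lt.trans va).le h).trans_eq
      (pow_succ' _ _)).trans_lt (mul_lt_mul_of_pos_right lt p2)).ne'

omit [IsAlgClosed k] in
theorem irr_on {P q : Fin 6 → Ω} {g : Polynomial Ω} (hg : Al Z.I P q g) {w : Ω}
    (hw : g.IsRoot w) : On Z.I (w • P + q) := fun f hf =>
  (irr_ln P q w f).symm.trans (hw.dvd (hg f hf))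

omit [IsAlgClosed k] in
theorem irr_int (hp : GenPt p) (O : ValuationSubring Ω) (hk : ∀ t : k, algebraMap k Ω t ∈ O)
    {q : Fin 6 → Ω} (hq : ∀ i, q i ∈ O) {w : Ω} (hw : On Z.I (w • (algebraMap k Ω ∘ p) + q)) :
    w ∈ O := by
  by_contra hn
  have w0 : w ≠ 0 := fun e => hn (e ▸ zero_mem O)
  have wi : w⁻¹ ∈ O := (O.mem_or_inv_mem w).resolve_left hn
  have wv : O.valuation w⁻¹ < 1 := by
    rw [map_inv₀]
    exact inv_lt_one_of_one_lt₀ (not_le.1 fun h => hn ((O.valuation_le_one_iff _).1 h))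
  obtain ⟨κ, _, _, _, ⟨r⟩⟩ := res_ex k O hk
  have e : w⁻¹ • (w • (algebraMap k Ω ∘ p) + q) = algebraMap k Ω ∘ p + w⁻¹ • q := by
    rw [smul_add, inv_smul_smul₀ w0]
  have on := e ▸ on_smul Z hw w⁻¹
  have mem : ∀ i, (algebraMap k Ω ∘ p + w⁻¹ • q) i ∈ O := fun i =>
    add_mem (hk _) (mul_mem wi (hq i))
  have res : r.ρ ∘ (algebraMap k Ω ∘ p + w⁻¹ • q) = algebraMap k κ ∘ p := funext fun i => by
    change r.ρ (algebraMap k Ω (p i) + w⁻¹ * q i) = algebraMap k κ (p i)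
    rw [r.add _ (hk _) _ (mul_mem wi (hq i)), r.mul _ wi _ (hq i), (r.zero _ wi).2 wv, r.alg]
    simp
  have onp : On Z.I p := fun f hf => by
    have h1 := (r.aeval mem (MvPolynomial.map (algebraMap ℂ k) f)).2
    rw [aeval_map_algebraMap, on f hf, (r.zero 0 (zero_mem O)).2 (by simp), res,
      aeval_algebraMap_apply, aeval_map_algebraMap] at h1
    exact (map_eq_zero _).1 h1.symm
  have p0 : p ≠ 0 := fun e => hp.p0 (congrFun e 0)
  have := Z.rk k p p0 onp
  have b : Nm Z.I p = ⊥ := Submodule.span_eq_bot.2 (by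
    rintro _ ⟨f, hf, rfl⟩
    obtain rfl : f = 0 := by
      by_contra n
      exact not_on hp.ex n (onp f hf)
    funext i
    simp [gr])
  rw [b, finrank_bot] at this
  exact absurd this (by norm_num)

theorem irr_core (hp : GenPt p) {q : Fin 6 → Ω} {j : Fin 6} (h0 : q 0 = 0) (h1 : q j = 1)
    {a b c : Ω} (hg : Al Z.I (algebraMap k Ω ∘ p) q ((Polynomial.X - Polynomial.C a) *
      (Polynomial.X - Polynomial.C b) * (Polynomial.X - Polynomial.C c)))
    {D : Derivation k Ω Ω} (hD : dv D q ≠ 0) (hb : a ≠ b) (hc : a ≠ c) :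
    a ∉ IntermediateField.adjoin k (Set.range q) := by
  intro hL
  have : CharZero k := charZero_of_injective_algebraMap (algebraMap ℂ k).injective
  have d0 : (a - b) * (a - c) ≠ 0 := mul_ne_zero (sub_ne_zero.2 hb) (sub_ne_zero.2 hc)
  have key : ∀ i, q i / ((a - b) * (a - c)) ∈ cst ({D} : Set (Derivation k Ω Ω)) := fun i => by
    refine val_der _ fun O hO => ?_
    have hk : ∀ t : k, algebraMap k Ω t ∈ O := fun t => hO _ (IntermediateField.algebraMap_mem _ t)
    obtain ⟨m, -, hm⟩ := Finset.exists_max_image Finset.univ (fun i => O.valuation (q i))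
      ⟨j, Finset.mem_univ _⟩
    have m0 : q m ≠ 0 := fun e => by simpa [e, h1] using hm j (Finset.mem_univ _)
    set t := (q m)⁻¹ with ht
    have t0 : t ≠ 0 := inv_ne_zero m0
    have hq : ∀ i, (t • q) i ∈ O := fun i => (O.valuation_le_one_iff _).1 (by
      rw [Pi.smul_apply, smul_eq_mul, map_mul, ht, map_inv₀]
      exact inv_mul_le_one_of_le₀ (hm i (Finset.mem_univ _)) zero_le)
    have tj : (t • q) j = t := by simp [h1]
    have hg' := al_scale Z hg t
    simp only [Polynomial.mul_scaleRoots_of_noZeroDivisors, Polynomial.X_sub_C_scaleRoots]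
      at hg'
    have ia : a * t ∈ O := irr_int hp O hk hq (irr_on hg' (by simp))
    have ib : b * t ∈ O := irr_int hp O hk hq (irr_on hg' (by simp))
    have ic : c * t ∈ O := irr_int hp O hk hq (irr_on hg' (by simp))
    have hD' : dv D (t • q) ≠ 0 := fun e => hD (funext fun i => by
      have e1 : D t = 0 := by simpa [dv, h1] using congrFun e j
      simpa [dv, e1, t0] using congrFun e i)
    have tm : t ∈ IntermediateField.adjoin k (Set.range (t • q)) :=
      IntermediateField.subset_adjoin _ _ ⟨j, tj⟩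
    have hL' : a * t ∈ IntermediateField.adjoin k (Set.range (t • q)) :=
      mul_mem (IntermediateField.adjoin_le_iff.2 (by
        rintro _ ⟨i, rfl⟩
        have := mul_mem (inv_mem tm) (IntermediateField.subset_adjoin k _ ⟨i, rfl⟩)
        simpa [t0] using this) hL) tm
    have q0 : (t • q) 0 = 0 := by simp [h0]
    have qm : (t • q) m = 1 := by simp [ht, m0]
    have u : ∀ {x y : Ω}, x ∈ O → y ∈ O → ¬ O.valuation (x - y) < 1 → (x - y)⁻¹ ∈ O :=
      fun hx hy h => (O.valuation_le_one_iff _).1 (by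
        rw [map_inv₀]
        exact inv_le_one_of_one_le₀ (not_lt.1 h))
    have u1 := u ia ib fun h => irr_col hp q0 qm hg' hD' O hk hq ia ib ic h hL'
    have u2 := u ia ic fun h =>
      irr_col hp q0 qm (by rw [mul_right_comm]; exact hg') hD' O hk hq ia ic ib h hL'
    convert mul_mem (mul_mem (hq i) (hq j)) (mul_mem u1 u2) using 1
    rw [tj, Pi.smul_apply, smul_eq_mul, ← sub_mul, ← sub_mul]
    have := sub_ne_zero.2 hb
    have := sub_ne_zero.2 hc
    field_simp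
  have k1 : D ((a - b) * (a - c))⁻¹ = 0 := by simpa only [h1, one_div] using key j D rfl
  refine hD (funext fun i => ?_)
  have := key i D rfl
  rw [div_eq_mul_inv, D.leibniz, k1, smul_zero, zero_add, smul_eq_mul] at this
  exact (mul_eq_zero.1 this).resolve_left (inv_ne_zero d0)

omit [IsAlgClosed k] in
theorem irr_gpb [IsAlgClosed Ω] (hp : GenPt p) {q : Fin 6 → Ω} {j : Fin 6} (h0 : q 0 = 0)
    (h1 : q j = 1) {D : Derivation k Ω Ω} (hD : dv D q ≠ 0) :
    LinearIndependent Ω ![algebraMap k Ω ∘ p, q] ∧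
      dv (D.restrictScalars ℂ) (algebraMap k Ω ∘ p) = 0 ∧
      dv (D.restrictScalars ℂ) q ∉ Submodule.span Ω {algebraMap k Ω ∘ p, q} := by
  have P0 : (algebraMap k Ω ∘ p) 0 ≠ 0 := (map_ne_zero _).2 hp.p0
  exact ⟨irr_pair P0 h0 h1, funext fun i => D.map_algebraMap _,
    fun h => hD (irr_span P0 h0 h1 (by simp [dv, h0]) (by simp [dv, h1]) h)⟩

theorem irr (hp : GenPt p) {Ω : Type} [Field Ω] [IsAlgClosed Ω] [Algebra ℂ Ω] [Algebra k Ω]
    [IsScalarTower ℂ k Ω] {q : Fin 6 → Ω} {j : Fin 6} (h0 : q 0 = 0) (h1 : q j = 1)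
    {g : Polynomial Ω} (hm : g.Monic) (hd : g.natDegree = 3) (hg : Al Z.I (algebraMap k Ω ∘ p) q g)
    (hD : ∃ D : Derivation k Ω Ω, dv D q ≠ 0) (hu : ∀ D : Derivation k Ω Ω, dv D q = 0 → D = 0)
    {w : Ω} (hw : g.IsRoot w) : w ∉ IntermediateField.adjoin k (Set.range q) := by
  have _ := hu
  obtain ⟨D, hD⟩ := hD
  obtain ⟨a1, a2, a3⟩ := irr_gpb hp h0 h1 hD
  obtain ⟨u, h, ui, rfl, -, -, -, -, hon⟩ := gpb (hp.ext (Ω := Ω)) a1 hm hd hg a2 a3
  obtain ⟨i, rfl⟩ := hon w (irr_on hg hw)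
  rw [Fin.prod_univ_three] at hg
  fin_cases i
  · exact irr_core hp h0 h1 hg hD (ui.ne (by decide)) (ui.ne (by decide))
  · exact irr_core hp h0 h1 (mul_comm (Polynomial.X - Polynomial.C (u 0)) _ ▸ hg) hD
      (ui.ne (by decide)) (ui.ne (by decide))
  · exact irr_core hp h0 h1 (b := u 0) (c := u 1) (by rw [mul_assoc, mul_comm]; exact hg) hD
      (ui.ne (by decide)) (ui.ne (by decide))

end PV
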