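import Pool.Agent.Lib.MP_36fb43_ag.Defs

/-! Local algebra for the irreducibility of the cubic. -/

open MvPolynomial Matrix Module

namespace PV

theorem irr_dual {k A σ : Type} [CommRing k] [CommRing A] [Algebra k A] [Fintype σ] (x w : σ → A)
    (f : MvPolynomial σ k) :
    aeval (fun i => (TrivSqZeroExt.inl (x i) + TrivSqZeroExt.inr (w i) : DualNumber A)) f =
      TrivSqZeroExt.inl (aeval x f) + TrivSqZeroExt.inr (∑ i, aeval x (pderiv i f) * w i) := by
  classical
  induction f using MvPolynomial.induction_on with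
  | C a => ext <;> simp [TrivSqZeroExt.algebraMap_eq_inl']
  | add f g hf hg =>
    rw [map_add, hf, hg]
    ext <;> simp [add_mul, Finset.sum_add_distrib]
  | mul_X f j hf =>
    rw [map_mul, hf]
    ext
    · simp
    · simp [pderiv_X, Pi.single_apply, add_mul, Finset.sum_add_distrib, apply_ite, Finset.sum_mul,
        mul_right_comm]
      exact Finset.sum_congr rfl fun _ _ => by ring

variable {k Ω σ : Type} [Field k] [Field Ω] [Algebra k Ω] [Fintype σ]

theorem irr_tay (x0 : σ → k) (f : MvPolynomial σ k) :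
    f - C (aeval x0 f) - ∑ i, C (gr f x0 i) * (X i - C (x0 i)) ∈
      RingHom.ker (aeval x0 : MvPolynomial σ k →ₐ[k] k) • RingHom.ker (aeval x0) := by
  classical
  have m : ∀ i, (X i - C (x0 i) : MvPolynomial σ k) ∈ RingHom.ker (aeval x0) := fun i => by
    simp [RingHom.mem_ker]
  induction f using MvPolynomial.induction_on with
  | C a => simp [gr]
  | add f g hf hg =>
    convert add_mem hf hg using 1
    simp only [gr, map_add, add_mul, Finset.sum_add_distrib]
    ring
  | mul_X f j hf =>
    have := add_mem (Ideal.mul_mem_right (X j) _ hf) (Submodule.smul_mem_smul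
      (Ideal.sum_mem _ fun i (_ : i ∈ Finset.univ) => Ideal.mul_mem_left _ (C (gr f x0 i)) (m i))
      (m j))
    convert this using 1
    have e : ∑ i, C (gr (f * X j) x0 i) * (X i - C (x0 i)) = C (aeval x0 f) * (X j - C (x0 j)) +
        C (x0 j) * ∑ i, C (gr f x0 i) * (X i - C (x0 i) : MvPolynomial σ k) := by
      simp [gr, pderiv_X, Pi.single_apply, add_mul, Finset.sum_add_distrib, apply_ite,
        Finset.mul_sum, mul_assoc]
    rw [e, map_mul, aeval_X, map_mul, smul_eq_mul]
    ring

theorem irr_loc (y : σ → Ω) (x0 : σ → k) (O : ValuationSubring Ω)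
    (hO : ∀ f : MvPolynomial σ k, aeval y f ∈ O)
    (hv : ∀ f : MvPolynomial σ k, O.valuation (aeval y f) < 1 ↔ aeval x0 f = 0)
    {α : MvPolynomial σ k} (hα : aeval x0 α = 0)
    (ht : ∀ τ : σ → k, (∀ f : MvPolynomial σ k, aeval y f = 0 → gr f x0 ⬝ᵥ τ = 0) →
      gr α x0 ⬝ᵥ τ = 0 → τ = 0) (f : MvPolynomial σ k) (hf : aeval y f ≠ 0) :
    ∃ n : ℕ, O.valuation (aeval y f) = O.valuation (aeval y α) ^ n := by
  classical
  set m := RingHom.ker (aeval x0 : MvPolynomial σ k →ₐ[k] k) with hm
  set N := RingHom.ker (aeval y : MvPolynomial σ k →ₐ[k] Ω) ⊔ Ideal.span {α} with hN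
  have Nm : N ≤ m := sup_le (fun g hg => (hv g).1 (by rw [RingHom.mem_ker.1 hg]; simp))
    ((Ideal.span_singleton_le_iff_mem _).2 hα)
  let G : MvPolynomial σ k →ₗ[k] σ → k :=
    LinearMap.pi fun i => (aeval x0).toLinearMap ∘ₗ (pderiv i).toLinearMap
  have top : (N.restrictScalars k).map G = ⊤ := by
    by_contra h
    obtain ⟨φ, h0, h1⟩ := Submodule.exists_le_ker_of_lt_top _ (lt_top_iff_ne_top.2 h)
    have e : ∀ v, φ v = v ⬝ᵥ fun i => φ (Pi.single i 1) := fun v => by
      conv_lhs => rw [pi_eq_sum_univ' v]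
      simp [dotProduct]
    have z := ht (fun i => φ (Pi.single i 1))
      (fun g hg => (e _).symm.trans (h1 ⟨g, Ideal.mem_sup_left hg, rfl⟩))
      ((e _).symm.trans (h1 ⟨α, Ideal.mem_sup_right (Ideal.mem_span_singleton_self α), rfl⟩))
    exact h0 (LinearMap.ext fun v => by rw [e, z]; simp)
  obtain ⟨r, r1, r2⟩ := Submodule.exists_sub_one_mem_and_smul_le_of_fg_of_le_sup (I := m) (N := N)
    (N' := m) (P := m) (IsNoetherian.noetherian _) le_rfl fun g hg => by
      obtain ⟨g', h1, h2⟩ : G g ∈ (N.restrictScalars k).map G := top ▸ Submodule.mem_top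
      have h3 := irr_tay x0 (g - g')
      have h4 : gr (g - g') x0 = 0 := by
        change G (g - g') = 0
        rw [map_sub, h2, sub_self]
      rw [RingHom.mem_ker.1 (sub_mem hg (Nm h1)), h4] at h3
      simp only [map_zero, sub_zero, Pi.zero_apply, zero_mul, Finset.sum_const_zero] at h3
      have h5 : g' + (g - g') ∈ N ⊔ m • m :=
        add_mem (Submodule.mem_sup_left h1) (Submodule.mem_sup_right h3)
      rwa [add_sub_cancel] at h5
  have le1 : ∀ g, O.valuation (aeval y g) ≤ 1 := fun g => (O.valuation_le_one_iff _).2 (hO g)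
  have r3 : O.valuation (aeval y r) = 1 := (le1 r).antisymm (not_lt.1 fun h => by
    have := RingHom.mem_ker.1 r1
    rw [map_sub, (hv r).1 h] at this
    simp at this)
  let J : MvPolynomial σ k → Ideal (MvPolynomial σ k) := fun g =>
    { carrier := {g' | O.valuation (aeval y g') ≤ O.valuation (aeval y g)}
      add_mem' := fun {a b} ha hb => by
        simp only [Set.mem_setOf_eq, map_add] at *
        exact Valuation.map_add_le _ ha hb
      zero_mem' := by simp
      smul_mem' := fun c a ha => by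
        simp only [Set.mem_setOf_eq, smul_eq_mul, map_mul] at *
        exact (mul_le_of_le_one_left' (le1 c)).trans ha }
  by_contra hc
  obtain ⟨_, ⟨g, ⟨g0, g1⟩, rfl⟩, hmax⟩ := set_has_maximal_iff_noetherian.2
    (inferInstance : IsNoetherian (MvPolynomial σ k) (MvPolynomial σ k))
    (J '' {g | aeval y g ≠ 0 ∧
      ¬ ∃ n : ℕ, O.valuation (aeval y g) = O.valuation (aeval y α) ^ n}) ⟨_, f, ⟨hf, hc⟩, rfl⟩
  have g2 : g ∈ m := (hv g).1 (lt_of_le_of_ne (le1 g) fun e => g1 ⟨0, by rw [e, pow_zero]⟩)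
  obtain ⟨a, ha, b, hb, e⟩ := Submodule.mem_sup.1 (r2 (Submodule.smul_mem_pointwise_smul g r m g2))
  obtain ⟨c, rfl⟩ := Ideal.mem_span_singleton'.1 hb
  have e1 : O.valuation (aeval y g) = O.valuation (aeval y c) * O.valuation (aeval y α) := by
    have := congrArg (fun t => O.valuation (aeval y t)) e
    simp only [map_add, RingHom.mem_ker.1 ha, zero_add, smul_eq_mul, map_mul, r3, one_mul] at this
    exact this.symm
  have c0 : aeval y c ≠ 0 := fun z => g0 (by simpa [z] using e1)
  have lt : O.valuation (aeval y g) < O.valuation (aeval y c) := by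
    rw [e1]
    exact mul_lt_of_lt_one_right (zero_lt_iff.2 (by simpa using c0)) ((hv α).2 hα)
  refine hmax (J c) ⟨c, ⟨c0, fun ⟨n, hn⟩ => g1 ⟨n + 1, by rw [e1, hn, pow_succ]⟩⟩, rfl⟩
    (lt_of_le_of_ne (fun a (ha : O.valuation (aeval y a) ≤ _) => ha.trans lt.le) fun e => ?_)
  have : c ∈ J g := e ▸ (le_rfl : O.valuation (aeval y c) ≤ _)
  exact not_le.2 lt this

theorem irr_perp {F : Type} [Field F] {n r s : ℕ} {g : Fin r → Fin n → F} {l : Fin s → Fin n → F}
    (hg : LinearIndependent F g) (hl : LinearIndependent F l) (h : ∀ a b, g a ⬝ᵥ l b = 0) :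
    r + s ≤ n := by
  have := Matrix.rank_add_rank_le_card_of_mul_eq_zero (A := Matrix.of g) (B := (Matrix.of l)ᵀ)
    (Matrix.ext fun a b => h a b)
  rwa [Matrix.rank_transpose, LinearIndependent.rank_matrix (M := Matrix.of g) hg,
    LinearIndependent.rank_matrix (M := Matrix.of l) hl, Fintype.card_fin, Fintype.card_fin,
    Fintype.card_fin] at this

theorem irr_ln {k F σ : Type} [CommRing k] [Field F] [Algebra k F] (p q : σ → F) (t : F)
    (f : MvPolynomial σ k) : (aeval (ln p q) f).eval t = aeval (t • p + q) f := by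
  have := MvPolynomial.comp_aeval (R := k) (f := ln p q)
    ((Polynomial.aeval t : Polynomial F →ₐ[F] F).restrictScalars k)
  have e := DFunLike.congr_fun this f
  simp only [AlgHom.comp_apply, AlgHom.restrictScalars_apply, Polynomial.coe_aeval_eq_eval] at e
  rw [e]
  congr 2
  funext i
  simp only [ln, Polynomial.eval_add, Polynomial.eval_mul, Polynomial.eval_C, Polynomial.eval_X,
    Pi.add_apply, Pi.smul_apply, smul_eq_mul, mul_comm]

end PV
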