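import Pool.Agent.Lib.MP_36fb43_ag.IrrA
import Pool.Agent.Lib.MP_36fb43_ag.GP

/-! The tangent space of the family of aligned triples at a triple with a double point. -/

open MvPolynomial Matrix Module

namespace PV

/-- the polynomial of degree less than three with given coefficients -/
noncomputable def irrP {A : Type} [CommRing A] (c : Fin 3 → A) : Polynomial A :=
  ∑ l : Fin 3, Polynomial.C (c l) * Polynomial.X ^ (l : ℕ)

theorem irrP_deg {A : Type} [CommRing A] (c : Fin 3 → A) : (irrP c).degree < (3 : ℕ) :=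
  Polynomial.degree_sum_fin_lt c

theorem irrP_monic {A : Type} [CommRing A] (c : Fin 3 → A) :
    (Polynomial.X ^ 3 + irrP c).Monic := Polynomial.monic_X_pow_add (irrP_deg c)

theorem irrP_map {A B : Type} [CommRing A] [CommRing B] (φ : A →+* B) (c : Fin 3 → A) :
    (irrP c).map φ = irrP (φ ∘ c) := by
  simp [irrP, Polynomial.map_sum]

theorem irrP_coeff {A : Type} [CommRing A] (c : Fin 3 → A) (l : Fin 3) :
    (irrP c).coeff l = c l := by
  fin_cases l <;> simp [irrP, Fin.sum_univ_three, Polynomial.coeff_X, Polynomial.coeff_one,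
    Polynomial.coeff_C]

theorem irrP_eq {A : Type} [CommRing A] {g : Polynomial A} (hm : g.Monic) (hd : g.natDegree = 3) :
    Polynomial.X ^ 3 + irrP (fun l : Fin 3 => g.coeff l) = g := by
  conv_rhs => rw [hm.as_sum, hd, Finset.sum_range]
  rfl

/-- the coordinate ring of pairs -/
abbrev IrrR (k : Type) [Field k] : Type := MvPolynomial (Fin 6 ⊕ Fin 3) k

variable {Z : Cone ℂ 6} {k : Type} [Field k] [Algebra ℂ k] {p : Fin 6 → k}
  {Ω : Type} [Field Ω] [Algebra ℂ Ω] [Algebra k Ω] [IsScalarTower ℂ k Ω]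

theorem irr_tan {y : Fin 6 ⊕ Fin 3 → Ω} {x0 τ : Fin 6 ⊕ Fin 3 → k}
    (hg : Al Z.I (algebraMap k Ω ∘ p) (y ∘ Sum.inl) (Polynomial.X ^ 3 + irrP (y ∘ Sum.inr)))
    (hx : ∀ Φ : IrrR k, aeval y Φ = 0 → aeval x0 Φ = 0)
    (hτ : ∀ Φ : IrrR k, aeval y Φ = 0 → gr Φ x0 ⬝ᵥ τ = 0)
    {f : MvPolynomial (Fin 6) ℂ} (hf : f ∈ Z.I) : ∃ r0 r1,
      aeval (ln p (x0 ∘ Sum.inl)) f = (Polynomial.X ^ 3 + irrP (x0 ∘ Sum.inr)) * r0 ∧
      grL f p (x0 ∘ Sum.inl) (τ ∘ Sum.inl) =
        (Polynomial.X ^ 3 + irrP (x0 ∘ Sum.inr)) * r1 + r0 * irrP (τ ∘ Sum.inr) := by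
  let G : Polynomial (IrrR k) := Polynomial.X ^ 3 + irrP fun l => X (Sum.inr l)
  let L : Fin 6 → Polynomial (IrrR k) := fun i =>
    Polynomial.C (C (p i)) * Polynomial.X + Polynomial.C (X (Sum.inl i))
  let F : Polynomial (IrrR k) := aeval L f
  let φ : IrrR k →ₐ[k] Ω := aeval y
  have hG : G.map (φ : IrrR k →+* Ω) = Polynomial.X ^ 3 + irrP (y ∘ Sum.inr) := by
    simp only [G, Polynomial.map_add, Polynomial.map_pow, Polynomial.map_X, irrP_map]
    congr 2
    funext l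
    simp [φ]
  have hF : F.map (φ : IrrR k →+* Ω) = aeval (ln (algebraMap k Ω ∘ p) (y ∘ Sum.inl)) f := by
    have := DFunLike.congr_fun (MvPolynomial.comp_aeval (R := ℂ) (f := L)
      (Polynomial.mapAlgHom (φ.restrictScalars ℂ))) f
    refine Eq.trans this ?_
    congr 2
    funext i
    simp [L, ln, φ]
  have hR : ∀ n, aeval y ((F %ₘ G).coeff n) = 0 := fun n => by
    have e := Polynomial.map_modByMonic (p := F) (φ : IrrR k →+* Ω) (irrP_monic fun l => X (Sum.inr l))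
    rw [hG, hF, (Polynomial.modByMonic_eq_zero_iff_dvd (irrP_monic _)).2 (hg f hf)] at e
    simpa using congrArg (fun t => t.coeff n) e
  let θ : IrrR k →ₐ[k] DualNumber (Polynomial k) := aeval fun s =>
    TrivSqZeroExt.inl (Polynomial.C (x0 s)) + TrivSqZeroExt.inr (Polynomial.C (τ s))
  have hθ : ∀ Φ : IrrR k, aeval y Φ = 0 → θ Φ = 0 := fun Φ h => by
    have c : ∀ Ψ : IrrR k, aeval (fun s => Polynomial.C (x0 s)) Ψ = Polynomial.C (aeval x0 Ψ) :=
      fun Ψ => (DFunLike.congr_fun (MvPolynomial.comp_aeval (R := k) (f := x0)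
        (Algebra.ofId k (Polynomial k))) Ψ).symm
    have := hτ Φ h
    simp only [dotProduct, gr] at this
    simp only [θ, irr_dual, c, hx Φ h, ← map_mul, ← map_sum, this, map_zero, TrivSqZeroExt.inl_zero,
      TrivSqZeroExt.inr_zero, add_zero]
  let Θ : Polynomial (IrrR k) →ₐ[ℂ] DualNumber (Polynomial k) :=
    Polynomial.eval₂AlgHom (θ.restrictScalars ℂ) (TrivSqZeroExt.inl Polynomial.X)
      fun _ => Commute.all _ _
  have ΘR : Θ (F %ₘ G) = 0 := by
    change Polynomial.eval₂ _ _ _ = 0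
    rw [Polynomial.eval₂_eq_sum_range]
    exact Finset.sum_eq_zero fun n _ => mul_eq_zero_of_left (hθ _ (hR n)) _
  have ΘG : Θ G = TrivSqZeroExt.inl (Polynomial.X ^ 3 + irrP (x0 ∘ Sum.inr)) +
      TrivSqZeroExt.inr (irrP (τ ∘ Sum.inr)) := by
    apply TrivSqZeroExt.ext <;> simp [Θ, G, θ, irrP, Fin.sum_univ_three]
  have ΘF : Θ F = TrivSqZeroExt.inl (aeval (ln p (x0 ∘ Sum.inl)) f) +
      TrivSqZeroExt.inr (grL f p (x0 ∘ Sum.inl) (τ ∘ Sum.inl)) := by
    refine (DFunLike.congr_fun (MvPolynomial.comp_aeval (R := ℂ) (f := L) Θ) f).trans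
      (Eq.trans ?_ (irr_dual _ _ f))
    congr 2
    funext i
    apply TrivSqZeroExt.ext <;> simp [Θ, L, θ, ln, TrivSqZeroExt.algebraMap_eq_inl']
  have e := congrArg Θ (Polynomial.modByMonic_add_div F G)
  rw [map_add, map_mul, ΘR, ΘG, ΘF, zero_add] at e
  refine ⟨(Θ (F /ₘ G)).fst, (Θ (F /ₘ G)).snd, ?_, ?_⟩
  · simpa using (congrArg TrivSqZeroExt.fst e).symm
  · simpa [mul_comm] using (congrArg TrivSqZeroExt.snd e).symm

end PV
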