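import Pool.Agent.Lib.MP_36fb43_ag.KAa

/-! Independence and Taylor lemmas for derivations, foliations. -/

open MvPolynomial Matrix Module

namespace PV

variable {k F R σ : Type} [Field R] [Field F] [Algebra R F] [Fintype σ]

theorem val_der [CharZero R] (A : Set (Derivation R F F)) {y : F}
    (h : ∀ O : ValuationSubring F, (∀ z ∈ cst A, z ∈ O) → y ∈ O) : y ∈ cst A := by
  by_contra hy
  have : IsIntegrallyClosedIn (cst A).toSubfield.toSubring F :=
    Subring.isIntegrallyClosedIn_iff.2 fun {x} hx => ka_cst_alg A (IsIntegral.isAlgebraic hx)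
  obtain ⟨V, hV, hn⟩ := Subring.exists_le_valuationSubring_of_isIntegrallyClosedIn
    (R := (cst A).toSubfield.toSubring) hy
  exact hn (h V fun z hz => hV hz)

omit [Fintype σ] in
theorem ka_dv_mem {A : Set (Derivation R F F)} {D : Derivation R F F} (hD : D ∈ A) (x : σ → F) :
    dv D x ∈ dsp A x := Submodule.subset_span ⟨D, hD, rfl⟩

/-- a covector killing all derivatives kills their span -/
theorem ka_dot_dsp {A : Set (Derivation R F F)} {x w : σ → F} (h : ∀ D ∈ A, w ⬝ᵥ dv D x = 0)
    {v : σ → F} (hv : v ∈ dsp A x) : w ⬝ᵥ v = 0 := by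
  induction hv using Submodule.span_induction with
  | mem v hv => obtain ⟨D, hD, rfl⟩ := hv; exact h D hD
  | zero => simp
  | add a b _ _ ha hb => rw [dotProduct_add, ha, hb, add_zero]
  | smul c a _ ha => rw [dotProduct_smul, ha, smul_zero]

theorem ind_der [CharZero R] (A : Set (Derivation R F F)) (x : σ → F) (hx : dsp A x = ⊤)
    (f : MvPolynomial σ F) (hf : ∀ D ∈ A, cD D f = 0) (h0 : eval x f = 0) : f = 0 := by
  classical
  have : CharZero F := charZero_of_injective_algebraMap (algebraMap R F).injective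
  have key : ∀ (d : ℕ) (f : MvPolynomial σ F), (∀ m : σ →₀ ℕ, d ≤ m.degree → coeff m f = 0) →
      (∀ D ∈ A, cD D f = 0) → eval x f = 0 → f = 0 := by
    intro d
    induction d with
    | zero => intro f h _ _; ext m; exact h m (Nat.zero_le _)
    | succ d ih =>
      intro f h hf h0
      have g0 : ∀ i, eval x (pderiv i f) = 0 := fun i => by
        have := ka_dot_dsp (A := A) (x := x) (w := gr f x) (fun D hD => by
          have := D_eval D f x
          rw [h0, hf D hD, map_zero, map_zero, zero_add] at this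
          exact this.symm) (v := Pi.single i 1) (hx ▸ Submodule.mem_top)
        rwa [dotProduct_single, mul_one] at this
      have p0 : ∀ i, pderiv i f = 0 := fun i => ih _ (fun m hm => by
        rw [coeff_pderiv, h _ (by simpa using hm), zero_mul])
        (fun D hD => by rw [ka_cD_pderiv, hf D hD, map_zero]) (g0 i)
      have c : f = C (coeff 0 f) := by
        ext m
        rw [coeff_C]
        split_ifs with hm
        · rw [hm]
        · obtain ⟨i, hi⟩ := Finsupp.ne_iff.1 (Ne.symm hm)
          have hi' : Finsupp.single i 1 ≤ m := by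
            rw [Finsupp.single_le_iff]; exact Nat.one_le_iff_ne_zero.2 hi
          have := congrArg (coeff (m - Finsupp.single i 1)) (p0 i)
          rw [coeff_pderiv, tsub_add_cancel_of_le hi', coeff_zero] at this
          exact (mul_eq_zero.1 this).resolve_right (Nat.cast_add_one_ne_zero _)
      rw [c, eval_C] at h0
      rw [c, h0, map_zero]
  exact key (f.totalDegree + 1) f (fun m hm => coeff_eq_zero_of_totalDegree_lt
    (by rw [← Finsupp.degree_apply]; omega)) hf h0

/-- Euler -/
theorem ka_euler [CommRing k] [Algebra k F] {f : MvPolynomial σ k} {d : ℕ}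
    (hd : f.IsHomogeneous d) (x : σ → F) : gr f x ⬝ᵥ x = d * aeval x f := by
  have := congrArg (aeval x) hd.sum_X_mul_pderiv
  simp only [map_sum, map_mul, aeval_X, map_nsmul, nsmul_eq_mul, map_natCast] at this
  rw [← this]
  exact Finset.sum_congr rfl fun i _ => mul_comm _ _

/-- directional derivative -/
noncomputable def kaDir (v : σ → F) (g : MvPolynomial σ F) : MvPolynomial σ F :=
  ∑ i, C (v i) * pderiv i g

theorem ka_eval_dir (v x : σ → F) (g : MvPolynomial σ F) : eval x (kaDir v g) = gr g x ⬝ᵥ v := by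
  simp only [kaDir, map_sum, map_mul, eval_C]
  exact Finset.sum_congr rfl fun i _ => mul_comm _ _

theorem ka_cD_dir (D : Derivation R F F) (v : σ → F) (g : MvPolynomial σ F) :
    cD D (kaDir v g) = kaDir (dv D v) g + kaDir v (cD D g) := by
  simp only [kaDir, ka_cD_sum, cD_mul, ka_cD_C, ka_cD_pderiv, Finset.sum_add_distrib, dv]

theorem ka_dir_hom (v : σ → F) {g : MvPolynomial σ F} {d : ℕ} (h : g.IsHomogeneous (d + 1)) :
    (kaDir v g).IsHomogeneous d :=
  IsHomogeneous.sum _ _ _ fun i _ => by simpa using (h.pderiv (i := i)).C_mul (v i)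

/-- Taylor lemma for a class of forms that is stable under the derivations -/
theorem ka_tay [CharZero R] (A : Set (Derivation R F F)) (U : Submodule F (σ → F))
    (hU : ∀ D ∈ A, ∀ v ∈ U, dv D v ∈ U) {x : σ → F}
    (hs : U ≤ Submodule.span F {x} ⊔ dsp A x) (d : ℕ) :
    ∀ S : AddSubmonoid (MvPolynomial σ F), (∀ g ∈ S, g.IsHomogeneous d) →
      (∀ D ∈ A, ∀ g ∈ S, cD D g ∈ S) → (∀ g ∈ S, eval x g = 0) →
      ∀ g ∈ S, ∀ v ∈ U, eval v g = 0 := by
  have : CharZero F := charZero_of_injective_algebraMap (algebraMap R F).injective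
  induction d with
  | zero =>
    intro S h1 _ h3 g hg v _
    have c := totalDegree_eq_zero_iff_eq_C.1 (Nat.le_zero.1 (h1 g hg).totalDegree_le)
    have := h3 g hg
    rw [c, eval_C] at this ⊢
    exact this
  | succ d ih =>
    intro S h1 h2 h3 g hg v hv
    let T : Set (MvPolynomial σ F) := {t | ∃ g ∈ S, ∃ v ∈ U, t = kaDir v g}
    have := ih (AddSubmonoid.closure T) (fun t ht => by
      induction ht using AddSubmonoid.closure_induction with
      | mem t ht => obtain ⟨g, hg, v, _, rfl⟩ := ht; exact ka_dir_hom v (h1 g hg)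
      | zero => exact isHomogeneous_zero _ _ _
      | add a b _ _ ha hb => exact ha.add hb) (fun D hD t ht => by
      induction ht using AddSubmonoid.closure_induction with
      | mem t ht =>
        obtain ⟨g, hg, v, hv, rfl⟩ := ht
        rw [ka_cD_dir]
        exact add_mem (AddSubmonoid.subset_closure ⟨g, hg, _, hU D hD v hv, rfl⟩)
          (AddSubmonoid.subset_closure ⟨_, h2 D hD g hg, v, hv, rfl⟩)
      | zero => rw [ka_cD_zero]; exact zero_mem _
      | add a b _ _ ha hb => rw [ka_cD_add]; exact add_mem ha hb) (fun t ht => by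
      induction ht using AddSubmonoid.closure_induction with
      | mem t ht =>
        obtain ⟨g, hg, v, hv, rfl⟩ := ht
        obtain ⟨a, ha, b, hb, rfl⟩ := Submodule.mem_sup.1 (hs hv)
        obtain ⟨c, rfl⟩ := Submodule.mem_span_singleton.1 ha
        rw [ka_eval_dir, dotProduct_add, dotProduct_smul, ka_euler (h1 g hg), aeval_eq_eval,
          h3 g hg, ka_dot_dsp (fun D hD => by
            have := D_eval D g x
            rw [h3 g hg, h3 _ (h2 D hD g hg), map_zero, zero_add] at this
            exact this.symm) hb]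
        simp
      | zero => simp
      | add a b _ _ ha hb => rw [map_add, ha, hb, add_zero]) (kaDir v g)
      (AddSubmonoid.subset_closure ⟨g, hg, v, hv, rfl⟩) v hv
    rw [ka_eval_dir, ka_euler (h1 g hg), aeval_eq_eval] at this
    exact (mul_eq_zero.1 this).resolve_left (Nat.cast_ne_zero.2 d.succ_ne_zero)

theorem tay [CharZero R] (A : Set (Derivation R F F)) (U : Submodule F (σ → F))
    (hU : ∀ D ∈ A, ∀ v ∈ U, dv D v ∈ U) {x : σ → F} (hx : x ∈ U)
    (hs : U ≤ Submodule.span F {x} ⊔ dsp A x) (f : MvPolynomial σ F) {d : ℕ}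
    (hd : f.IsHomogeneous d) (hf : ∀ D ∈ A, cD D f = 0) (h0 : eval x f = 0) :
    ∀ v ∈ U, eval v f = 0 := by
  have _ := hx
  let S : AddSubmonoid (MvPolynomial σ F) :=
    { carrier := {g | g.IsHomogeneous d ∧ (∀ D ∈ A, cD D g = 0) ∧ eval x g = 0}
      add_mem' := fun ha hb => ⟨ha.1.add hb.1, fun D hD => by
        rw [ka_cD_add, ha.2.1 D hD, hb.2.1 D hD, add_zero], by
        rw [map_add, ha.2.2, hb.2.2, add_zero]⟩
      zero_mem' := ⟨isHomogeneous_zero _ _ _, fun D _ => ka_cD_zero D, map_zero _⟩ }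
  exact ka_tay A U hU hs d S (fun _ h => h.1)
    (fun D hD g hg => by rw [hg.2.1 D hD]; exact zero_mem S) (fun _ h => h.2.2) f ⟨hd, hf, h0⟩

theorem ind_hom [CharZero R] (A : Set (Derivation R F F)) (x : σ → F)
    (hx : Submodule.span F {x} ⊔ dsp A x = ⊤) (f : MvPolynomial σ F) {d : ℕ}
    (hd : f.IsHomogeneous d) (hf : ∀ D ∈ A, cD D f = 0) (h0 : eval x f = 0) : f = 0 := by
  have : CharZero F := charZero_of_injective_algebraMap (algebraMap R F).injective
  refine MvPolynomial.funext fun v => ?_
  rw [map_zero]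
  exact tay A ⊤ (fun _ _ _ _ => trivial) trivial hx.ge f hd hf h0 v trivial

/-- echelon basis of a subspace -/
theorem ka_ech (r : ℕ) : ∀ U : Submodule F (σ → F), finrank F U = r →
    ∃ (ι : Fin r → σ) (l : Fin r → σ → F), Ech ι l ∧ (∀ a, l a ∈ U) ∧
      ∀ v ∈ U, (∀ b, v (ι b) = 0) → v = 0 := by
  induction r with
  | zero =>
    intro U h
    rw [Submodule.finrank_eq_zero] at h
    exact ⟨Fin.elim0, Fin.elim0, fun a => a.elim0, fun a => a.elim0,
      fun v hv _ => by simpa [h] using hv⟩
  | succ r ih =>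
    intro U h
    obtain ⟨w, hw, w0⟩ := Submodule.exists_mem_ne_zero_of_ne_bot
      (p := U) (by rintro rfl; simp at h)
    obtain ⟨j, hj⟩ := Function.ne_iff.1 w0
    have hj : w j ≠ 0 := hj
    let U' : Submodule F (σ → F) := U ⊓ LinearMap.ker (LinearMap.proj j)
    have e1 : U' ⊔ Submodule.span F {w} = U := by
      refine le_antisymm (sup_le inf_le_left (by simpa using hw)) fun v hv => ?_
      refine Submodule.mem_sup.2 ⟨v - (v j / w j) • w, ⟨U.sub_mem hv (U.smul_mem _ hw), ?_⟩,
        (v j / w j) • w, Submodule.smul_mem _ _ (Submodule.mem_span_singleton_self w), by simp⟩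
      simp [hj]
    have e2 : finrank F U' = r := by
      have := Submodule.finrank_sup_span_singleton (p := U') (v := w) fun hh => hj hh.2
      rw [e1, h] at this
      omega
    obtain ⟨ι, l, h1, h2, h3⟩ := ih U' e2
    let u : σ → F := w - ∑ a, w (ι a) • l a
    have lj : ∀ a, l a j = 0 := fun a => (h2 a).2
    have uj : u j = w j := by simp [u, lj]
    have uι : ∀ b, u (ι b) = 0 := fun b => by simp [u, h1 _ b]
    have uU : u ∈ U := U.sub_mem hw (U.sum_mem fun a _ => U.smul_mem _ (h2 a).1)
    refine ⟨Fin.cons j ι, Fin.cons ((w j)⁻¹ • u) l, fun a b => ?_, fun a => ?_, fun v hv h0 => ?_⟩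
    · refine Fin.cases ?_ (fun a => ?_) a <;> refine Fin.cases ?_ (fun b => ?_) b
      · simp [uj, hj]
      · simp [uι, (Fin.succ_ne_zero b).symm]
      · simp [lj]
      · simp [h1 a b]
    · refine Fin.cases ?_ (fun a => ?_) a
      · exact U.smul_mem _ uU
      · exact (h2 a).1
    · exact h3 v ⟨hv, h0 0⟩ fun b => h0 b.succ

omit [Fintype σ] in
theorem ka_mem_dsp_univ {n v : σ → F} (hv : v ∈ dsp (Set.univ : Set (Derivation R F F)) n) :
    ∃ D : Derivation R F F, dv D n = v := by
  induction hv using Submodule.span_induction with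
  | mem v hv => obtain ⟨D, -, rfl⟩ := hv; exact ⟨D, rfl⟩
  | zero => exact ⟨0, rfl⟩
  | add a b _ _ ha hb =>
    obtain ⟨D, rfl⟩ := ha
    obtain ⟨E, rfl⟩ := hb
    exact ⟨D + E, rfl⟩
  | smul c a _ ha =>
    obtain ⟨D, rfl⟩ := ha
    exact ⟨c • D, rfl⟩

theorem fol (n : σ → F) {r : ℕ} (hr : finrank F (dsp (Set.univ : Set (Derivation R F F)) n) = r) :
    ∃ (y : Fin r → σ) (D : Fin r → Derivation R F F),
      (∀ a b, D a (n (y b)) = if a = b then 1 else 0) ∧
      (∀ E : Derivation R F F, (∀ b, E (n (y b)) = 0) → dv E n = 0) ∧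
      (∀ a, ∀ w ∈ cst {E : Derivation R F F | dv E n = 0},
        D a w ∈ cst {E : Derivation R F F | dv E n = 0}) ∧
      (∀ a b, ∀ w ∈ cst {E : Derivation R F F | dv E n = 0}, D a (D b w) = D b (D a w)) := by
  obtain ⟨y, l, h1, h2, h3⟩ := ka_ech r _ hr
  choose D hD using fun a => ka_mem_dsp_univ (h2 a)
  have e1 : ∀ a b, D a (n (y b)) = if a = b then 1 else 0 := fun a b => by
    rw [← h1 a b, ← hD]; rfl
  have e2 : ∀ E : Derivation R F F, (∀ b, E (n (y b)) = 0) → dv E n = 0 := fun E hE =>
    h3 _ (ka_dv_mem (Set.mem_univ E) n) hE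
  have e3 : ∀ (E : Derivation R F F) a b, E (D a (n (y b))) = 0 := fun E a b => by
    rw [e1]; split_ifs <;> simp
  refine ⟨y, D, e1, e2, fun a w hw E hE => ?_, fun a b w hw => ?_⟩
  · have := hw ⁅E, D a⁆ (e2 _ fun b => by
      have : E (n (y b)) = 0 := congrFun hE (y b)
      rw [Derivation.commutator_apply, e3, this, map_zero, sub_zero])
    rwa [Derivation.commutator_apply, hw E hE, map_zero, sub_zero] at this
  · have := hw ⁅D a, D b⁆ (e2 _ fun c => by
      rw [Derivation.commutator_apply, e3, e3, sub_zero])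
    rwa [Derivation.commutator_apply, sub_eq_zero] at this

end PV
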