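import Pool.Agent.Lib.MP_36fb43_ag.Defs

/-! Derivations of fields: chain rule, extension, constants. -/

open MvPolynomial Matrix Module

namespace PV

section KA
variable {k F R σ : Type} [Field R] [Field F] [Algebra R F] [Fintype σ]

omit [Fintype σ] in
theorem ka_coeff_cD0 (D : Derivation R F F) (f : MvPolynomial σ F) (m) :
    coeff m (cD D f) = D (coeff m f) := by
  classical
  unfold cD
  rw [coeff_sum]
  simp only [coeff_monomial]
  rw [Finset.sum_ite_eq' f.support m]
  split_ifs with h
  · rfl
  · rw [notMem_support_iff.1 h, map_zero]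

theorem coeff_cD (D : Derivation R F F) (f : MvPolynomial σ F) (m) :
    coeff m (cD D f) = D (coeff m f) := ka_coeff_cD0 D f m

theorem ka_cD_add (D : Derivation R F F) (f g : MvPolynomial σ F) :
    cD D (f + g) = cD D f + cD D g := by
  ext m; simp [coeff_cD]

theorem ka_cD_sub (D : Derivation R F F) (f g : MvPolynomial σ F) :
    cD D (f - g) = cD D f - cD D g := by
  ext m; simp [coeff_cD]

theorem ka_cD_neg (D : Derivation R F F) (f : MvPolynomial σ F) : cD D (-f) = -cD D f := by
  ext m; simp [coeff_cD]

theorem ka_cD_zero (D : Derivation R F F) : cD D (0 : MvPolynomial σ F) = 0 := by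
  ext m; simp [coeff_cD]

theorem ka_cD_sum {ι : Type} (D : Derivation R F F) (s : Finset ι) (f : ι → MvPolynomial σ F) :
    cD D (∑ i ∈ s, f i) = ∑ i ∈ s, cD D (f i) := by
  ext m; simp [coeff_cD, coeff_sum]

theorem ka_cD_C (D : Derivation R F F) (c : F) : cD D (C c : MvPolynomial σ F) = C (D c) := by
  classical
  ext m
  rw [coeff_cD, coeff_C, coeff_C]
  split_ifs <;> simp

theorem ka_cD_X (D : Derivation R F F) (i : σ) : cD D (X i : MvPolynomial σ F) = 0 := by
  classical
  ext m
  rw [coeff_cD, coeff_X]
  split_ifs <;> simp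

theorem cD_mul (D : Derivation R F F) (f g : MvPolynomial σ F) :
    cD D (f * g) = cD D f * g + f * cD D g := by
  classical
  ext m
  simp only [coeff_cD, coeff_add, coeff_mul, map_sum, Derivation.leibniz, smul_eq_mul,
    ← Finset.sum_add_distrib]
  exact Finset.sum_congr rfl fun x _ => by ring

theorem ka_cD_pderiv (D : Derivation R F F) (f : MvPolynomial σ F) (i : σ) :
    cD D (pderiv i f) = pderiv i (cD D f) := by
  ext m
  rw [coeff_cD, coeff_pderiv, coeff_pderiv, coeff_cD, D.leibniz]
  have : D ((m i : F) + 1) = 0 := by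
    rw [map_add, D.map_natCast, D.map_one_eq_zero, add_zero]
  rw [this]
  simp [mul_comm]

theorem ka_cD_eq_zero {D : Derivation R F F} {f : MvPolynomial σ F} :
    cD D f = 0 ↔ ∀ m, D (coeff m f) = 0 :=
  ⟨fun h m => by rw [← coeff_cD, h, coeff_zero], fun h => by ext m; rw [coeff_cD, h, coeff_zero]⟩

theorem ka_gr_C [CommRing k] [Algebra k F] (c : k) (x : σ → F) : gr (C c) x = 0 := by
  funext i; simp [gr]

theorem ka_gr_add [CommRing k] [Algebra k F] (f g : MvPolynomial σ k) (x : σ → F) :
    gr (f + g) x = gr f x + gr g x := by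
  funext i; simp [gr]

theorem ka_gr_mul [CommRing k] [Algebra k F] (f g : MvPolynomial σ k) (x : σ → F) :
    gr (f * g) x = aeval x f • gr g x + aeval x g • gr f x := by
  funext i; simp [gr]

theorem ka_gr_X_dot [CommRing k] [Algebra k F] (i : σ) (x v : σ → F) :
    gr (X i : MvPolynomial σ k) x ⬝ᵥ v = v i := by
  classical
  have : gr (X i : MvPolynomial σ k) x = Pi.single i 1 := by
    funext j
    simp only [gr, pderiv_X, Pi.single_apply]
    by_cases h : i = j
    · subst h; simp
    · rw [if_neg h, if_neg (Ne.symm h), map_zero]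
  rw [this, single_dotProduct, one_mul]

theorem D_eval (D : Derivation R F F) (f : MvPolynomial σ F) (x : σ → F) :
    D (eval x f) = eval x (cD D f) + gr f x ⬝ᵥ dv D x := by
  induction f using MvPolynomial.induction_on with
  | C c => simp [ka_cD_C, ka_gr_C]
  | add f g hf hg => simp only [map_add, hf, hg, ka_cD_add, ka_gr_add, add_dotProduct]; ring
  | mul_X f i hf =>
    rw [map_mul, D.leibniz, hf, cD_mul, ka_cD_X, ka_gr_mul, add_dotProduct, smul_dotProduct,
      smul_dotProduct, ka_gr_X_dot]
    simp only [eval_X, smul_eq_mul, mul_zero, add_zero, map_mul, aeval_X, dv,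
      aeval_eq_eval]
    ring

theorem D_aeval [CommRing k] [Algebra k F] (D : Derivation R F F)
    (hD : ∀ c : k, D (algebraMap k F c) = 0) (f : MvPolynomial σ k) (x : σ → F) :
    D (aeval x f) = gr f x ⬝ᵥ dv D x := by
  induction f using MvPolynomial.induction_on with
  | C c => simp [ka_gr_C, hD]
  | add f g hf hg => simp only [map_add, hf, hg, ka_gr_add, add_dotProduct]
  | mul_X f i hf =>
    rw [map_mul, D.leibniz, hf, ka_gr_mul, add_dotProduct, smul_dotProduct,
      smul_dotProduct, ka_gr_X_dot]
    simp only [smul_eq_mul, aeval_X, dv]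

omit [Fintype σ] in
theorem ka_pderiv_comm [CommRing k] (i j : σ) (f : MvPolynomial σ k) :
    pderiv i (pderiv j f) = pderiv j (pderiv i f) := by
  classical
  induction f using MvPolynomial.induction_on with
  | C c => simp
  | add f g hf hg => simp only [map_add, hf, hg]
  | mul_X f a hf =>
    have e : ∀ i j : σ, pderiv i (pderiv j (X a : MvPolynomial σ k)) = 0 := fun i j => by
      rw [pderiv_X, Pi.single_apply]
      split_ifs <;> simp
    simp only [Derivation.leibniz, map_add, smul_eq_mul, hf, e]
    ring

theorem dv_gr [CommRing k] [Algebra k F] (D : Derivation R F F)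
    (hD : ∀ c : k, D (algebraMap k F c) = 0) (f : MvPolynomial σ k) (x : σ → F) :
    dv D (gr f x) = hs f x *ᵥ dv D x := by
  funext i
  change D (aeval x (pderiv i f)) = _
  rw [D_aeval D hD]
  simp only [mulVec, dotProduct, gr, hs]
  refine Finset.sum_congr rfl fun j _ => ?_
  rw [ka_pderiv_comm]

/-- every field extension in characteristic zero is formally smooth -/
theorem ka_fsmooth (K L : Type) [Field K] [CharZero K] [Field L] [Algebra K L] :
    Algebra.FormallySmooth K L := by
  obtain ⟨s, hs⟩ := exists_isTranscendenceBasis K L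
  have : Algebra.IsAlgebraic (IntermediateField.adjoin K (Set.range ((↑) : s → L))) L :=
    hs.isAlgebraic_field
  exact .of_algebraicIndependent_of_isSeparable hs.1

open TrivSqZeroExt in
/-- extension of a derivation with values in the big field -/
theorem ka_der_ext0 [CharZero R] {F Ω : Type} [CommRing F] [Algebra R F] [Field Ω] [Algebra R Ω]
    (i : F →ₐ[R] Ω) (hi : Function.Injective i)
    (d : F → Ω) (ha : ∀ y z, d (y + z) = d y + d z)
    (hm : ∀ y z, d (y * z) = i y * d z + i z * d y) (hr : ∀ r, d (algebraMap R F r) = 0) :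
    ∃ E : Derivation R Ω Ω, ∀ y, E (i y) = d y := by
  have : IsDomain F := hi.isDomain i.toRingHom
  have : CharZero F := charZero_of_injective_algebraMap (algebraMap R F).injective
  have d1 : d 1 = 0 := by simpa using hr 1
  have d0 : d 0 = 0 := by simpa using hr 0
  let ψ : F →+* DualNumber Ω :=
    { toFun := fun y => inl (i y) + inr (d y)
      map_one' := by ext <;> simp [d1]
      map_mul' := fun y z => by ext <;> simp [hm, mul_comm]
      map_zero' := by ext <;> simp [d0]
      map_add' := fun y z => by ext <;> simp [ha] }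
  let _ : Algebra F Ω := i.toRingHom.toAlgebra
  have : Algebra.FormallySmooth F Ω := by
    have : FaithfulSMul F Ω := (faithfulSMul_iff_algebraMap_injective F Ω).2 hi
    let _ := FractionRing.liftAlgebra F Ω
    have := FractionRing.isScalarTower_liftAlgebra F Ω
    have := ka_fsmooth (FractionRing F) Ω
    have : Algebra.FormallySmooth F (FractionRing F) := .of_isLocalization (nonZeroDivisors F)
    exact .comp F (FractionRing F) Ω
  let _ : Algebra F (DualNumber Ω) := ψ.toAlgebra
  let g : DualNumber Ω →ₐ[F] Ω :=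
    { (fstHom Ω Ω Ω).toRingHom with
      commutes' := fun y => by
        change (inl (i y) + inr (d y) : DualNumber Ω).fst = i y
        simp }
  have n : IsNilpotent (RingHom.ker (g : DualNumber Ω →+* Ω)) := ⟨2, by
    rw [Ideal.zero_eq_bot, eq_bot_iff, Submodule.pow_succ, Submodule.pow_one]
    refine Ideal.mul_le.2 ?_
    intro r hr s hs
    have hr : r.fst = 0 := hr
    have hs : s.fst = 0 := hs
    rw [Ideal.mem_bot]
    ext <;> simp [hr, hs]⟩
  let l := Algebra.FormallySmooth.liftOfSurjective (AlgHom.id F Ω) g (fun z => ⟨inl z, rfl⟩) n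
  have e : ∀ z, (l z).fst = z := fun z =>
    Algebra.FormallySmooth.liftOfSurjective_apply (AlgHom.id F Ω) g _ n z
  have li : ∀ y, (l (i y)).snd = d y := fun y => by
    have := l.commutes y
    change l (i y) = inl (i y) + inr (d y) at this
    rw [this]; simp
  have lm : ∀ z w, (l (z * w)).snd = z * (l w).snd + w * (l z).snd := fun z w => by
    simp [e, mul_comm]
  refine ⟨Derivation.mk' ⟨⟨fun z => (l z).snd, fun z w => by simp⟩, fun r z => ?_⟩
    fun z w => lm z w, li⟩
  simp only [RingHom.id_apply, Algebra.smul_def]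
  rw [lm, ← i.commutes r, li, hr, mul_zero, add_zero]

/-- a derivation extends to any bigger field -/
theorem der_ext [CharZero R] {Ω : Type} [Field Ω] [Algebra R Ω] (i : F →ₐ[R] Ω)
    (D : Derivation R F F) : ∃ E : Derivation R Ω Ω, ∀ y, E (i y) = i (D y) :=
  ka_der_ext0 i i.injective (fun y => i (D y)) (fun y z => by simp) (fun y z => by simp)
    fun r => by simp

theorem der_over (K : IntermediateField R F) (D : Derivation R F F) (h : ∀ c ∈ K, D c = 0) :
    ∃ E : Derivation K F F, ∀ y, E y = D y := by
  refine ⟨Derivation.mk' ⟨⟨D, fun a b => map_add D a b⟩, fun r z => ?_⟩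
    fun a b => D.leibniz a b, fun _ => rfl⟩
  change D ((r : F) * z) = (r : F) * D z
  rw [D.leibniz, h r r.2]
  simp

/-- prescribed values on an algebraically independent family -/
theorem ka_der_indep [CharZero R] {ι : Type} {v : ι → F} (hv : AlgebraicIndependent R v)
    (δ : ι → F) : ∃ D : Derivation R F F, ∀ a, D (v a) = δ a := by
  let _ : Algebra (MvPolynomial ι R) F := (aeval v : MvPolynomial ι R →ₐ[R] F).toRingHom.toAlgebra
  have : IsScalarTower R (MvPolynomial ι R) F :=
    .of_algebraMap_eq fun r => ((aeval v : MvPolynomial ι R →ₐ[R] F).commutes r).symm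
  let d0 : Derivation R (MvPolynomial ι R) F := MvPolynomial.mkDerivation R δ
  obtain ⟨E, hE⟩ := ka_der_ext0 (aeval v : MvPolynomial ι R →ₐ[R] F) hv d0 (map_add d0)
    (fun y z => d0.leibniz y z) d0.map_algebraMap
  exact ⟨E, fun a => by simpa [d0] using hE (X a)⟩

/-- not algebraic over a subfield: some derivation moves it -/
theorem der_of_trans [CharZero R] (K : IntermediateField R F) {y : F} (hy : ¬ IsAlgebraic K y) :
    ∃ D : Derivation R F F, (∀ c ∈ K, D c = 0) ∧ D y = 1 := by
  have : CharZero K := charZero_of_injective_algebraMap (algebraMap R K).injective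
  have h : AlgebraicIndependent K (fun _ : Unit => y) :=
    algebraicIndependent_unique_type_iff.2 hy
  obtain ⟨D, hD⟩ := ka_der_indep h fun _ => 1
  exact ⟨D.restrictScalars R, fun c hc => D.map_algebraMap ⟨c, hc⟩, hD ()⟩

/-- a derivation kills algebraic elements -/
theorem ka_der_alg0 [CharZero R] (D : Derivation R F F) {y : F} (hy : IsAlgebraic R y) :
    D y = 0 := by
  have hi := hy.isIntegral
  have h := D.map_aeval (minpoly R y) y
  rw [minpoly.aeval, map_zero] at h
  have hs := (minpoly.irreducible hi).separable.aeval_derivative_ne_zero (minpoly.aeval R y)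
  exact (smul_eq_zero.1 h.symm).resolve_left hs

theorem der_alg [CharZero R] (D : Derivation R F F) (K : IntermediateField R F)
    (hK : ∀ c ∈ K, D c = 0) {y : F} (hy : IsAlgebraic K y) : D y = 0 := by
  have : CharZero K := charZero_of_injective_algebraMap (algebraMap R K).injective
  obtain ⟨E, hE⟩ := der_over K D hK
  rw [← hE, ka_der_alg0 E hy]

/-- killed by all derivations means algebraic -/
theorem ka_alg_of_der [CharZero R] {y : F} (hy : ∀ D : Derivation R F F, D y = 0) :
    IsAlgebraic R y := by
  by_contra h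
  obtain ⟨D, hD⟩ := ka_der_indep (algebraicIndependent_unique_type_iff.2 h :
    AlgebraicIndependent R (fun _ : Unit => y)) fun _ => 1
  exact one_ne_zero ((hD ()).symm.trans (hy D))

theorem const_mem [CharZero R] [IsAlgClosed R] {y : F} (hy : ∀ D : Derivation R F F, D y = 0) :
    y ∈ Set.range (algebraMap R F) :=
  minpoly.mem_range_of_degree_eq_one R y
    (IsAlgClosed.degree_eq_one_of_irreducible R (minpoly.irreducible (ka_alg_of_der hy).isIntegral))

theorem ka_mem_cst {A : Set (Derivation R F F)} {y : F} : y ∈ cst A ↔ ∀ D ∈ A, D y = 0 := Iff.rfl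

theorem ka_cst_alg [CharZero R] (A : Set (Derivation R F F)) {y : F} (hy : IsAlgebraic (cst A) y) :
    y ∈ cst A := fun D hD => der_alg D (cst A) (fun _ hc => hc D hD) hy

theorem cst_algClosed [CharZero R] [IsAlgClosed F] (A : Set (Derivation R F F)) :
    IsAlgClosed (cst A) := by
  refine IsAlgClosed.of_exists_root _ fun p hm hp => ?_
  obtain ⟨y, hy⟩ := IsAlgClosed.exists_aeval_eq_zero F p (Polynomial.degree_pos_of_irreducible hp).ne'
  refine ⟨⟨y, ka_cst_alg A ⟨p, hm.ne_zero, hy⟩⟩, ?_⟩
  apply (algebraMap (cst A) F).injective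
  rw [map_zero, ← Polynomial.aeval_algebraMap_apply_eq_algebraMap_eval]
  exact hy

/-- restriction to a stable subfield -/
theorem der_res (K : IntermediateField R F) (D : Derivation R F F) (h : ∀ c ∈ K, D c ∈ K) :
    ∃ E : Derivation R K K, ∀ c : K, (E c : F) = D c := by
  refine ⟨Derivation.mk' ⟨⟨fun c => ⟨D c, h c c.2⟩, fun a b => Subtype.ext (map_add D _ _)⟩,
    fun r z => Subtype.ext (D.map_smul r z)⟩ fun a b => Subtype.ext (D.leibniz _ _), fun _ => rfl⟩

end KA

end PV
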