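import Pool.Agent.Lib.MP_36fb43_ag.Defs

/-! Echelon bases, valuation rings, residues, forms. -/

open MvPolynomial Matrix Module

namespace PV

section KB
variable {F σ : Type} [Field F] [Fintype σ]

omit [Fintype σ] in
/-- a finitely supported nonzero vector has a coordinate of largest value -/
theorem kb_max (O : ValuationSubring F) (t : σ → F) (S : Finset σ)
    (hS : ∀ l, l ∉ S → t l = 0) (ht : t ≠ 0) : ∃ l0, t l0 ≠ 0 ∧ ∀ l, (t l0)⁻¹ * t l ∈ O := by
  classical
  obtain ⟨l1, hl1⟩ := Function.ne_iff.1 ht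
  have h1 : l1 ∈ S := by
    by_contra h
    exact hl1 (hS l1 h)
  obtain ⟨l0, -, hm⟩ := S.exists_max_image (fun l => O.valuation (t l)) ⟨l1, h1⟩
  have hne : t l0 ≠ 0 := by
    intro h
    have := hm l1 h1
    rw [h, map_zero, le_zero_iff, map_eq_zero] at this
    exact hl1 this
  refine ⟨l0, hne, fun l => ?_⟩
  by_cases hl : l ∈ S
  · rw [← div_eq_inv_mul, ← O.valuation_le_one_iff, map_div₀]
    exact div_le_one_of_le₀ (hm l hl) zero_le
  · rw [hS l hl, mul_zero]
    exact O.zero_mem

set_option linter.unusedSectionVars false in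
theorem Ech.repr {r : ℕ} {ι : Fin r → σ} {l : Fin r → σ → F} (h : Ech ι l) {v : σ → F}
    (hv : v ∈ Submodule.span F (Set.range l)) : v = ∑ a, v (ι a) • l a := by
  obtain ⟨c, rfl⟩ := (Submodule.mem_span_range_iff_exists_fun _).1 hv
  refine Finset.sum_congr rfl fun a _ => ?_
  simp [Finset.sum_apply, h _ a]

set_option linter.unusedSectionVars false in
theorem Ech.li {r : ℕ} {ι : Fin r → σ} {l : Fin r → σ → F} (h : Ech ι l) :
    LinearIndependent F l := by
  rw [Fintype.linearIndependent_iff]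
  intro c hc a
  simpa [Finset.sum_apply, h _ a] using congrFun hc (ι a)

theorem Ech.dv {R : Type} [CommRing R] [Algebra R F] {r : ℕ} {ι : Fin r → σ} {l : Fin r → σ → F}
    (h : Ech ι l) (D : Derivation R F F)
    (hD : ∀ a, dv D (l a) ∈ Submodule.span F (Set.range l)) (a : Fin r) : dv D (l a) = 0 := by
  rw [h.repr (hD a)]
  refine Finset.sum_eq_zero fun b _ => ?_
  have : PV.dv D (l a) (ι b) = 0 := by
    rw [PV.dv, h a b]
    split_ifs <;> simp
  rw [this, zero_smul]

/-- integral echelon basis, with entries in any subfield containing the given basis -/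
theorem ech_val (O : ValuationSubring F) {r : ℕ} (l : Fin r → σ → F) (hl : LinearIndependent F l) :
    ∃ (ι : Fin r → σ) (l' : Fin r → σ → F), Ech ι l' ∧
      Submodule.span F (Set.range l') = Submodule.span F (Set.range l) ∧ (∀ a i, l' a i ∈ O) ∧
      ∀ K : Subfield F, (∀ a i, l a i ∈ K) → ∀ a i, l' a i ∈ K := by
  classical
  induction r with
  | zero => exact ⟨Fin.elim0, l, fun i => i.elim0, rfl, fun i => i.elim0, fun _ h => h⟩
  | succ n ih =>
    have hs' := hl
    rw [← Fin.cons_self_tail l, linearIndependent_finCons] at hs'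
    obtain ⟨π, u, hu, hsp, huO, huK⟩ := ih (Fin.tail l) hs'.1
    have humem : ∀ i, u i ∈ Submodule.span F (Set.range u) := fun i =>
      Submodule.subset_span ⟨i, rfl⟩
    set w : σ → F := ∑ i, l 0 (π i) • u i with hw
    have hwm : w ∈ Submodule.span F (Set.range u) :=
      Submodule.sum_mem _ fun i _ => Submodule.smul_mem _ _ (humem i)
    set t : σ → F := l 0 - w with ht
    have ht0 : t ≠ 0 := by
      intro h
      refine hs'.2 ?_
      rw [← hsp, sub_eq_zero.1 h]
      exact hwm
    have htπ : ∀ j, t (π j) = 0 := fun j => by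
      simp [ht, hw, Finset.sum_apply, hu _ j]
    obtain ⟨l0, hne, hO⟩ := kb_max O t Finset.univ (fun l h => (h (Finset.mem_univ _)).elim) ht0
    set t' : σ → F := (t l0)⁻¹ • t with ht'
    have ht'0 : t' l0 = 1 := by simp [ht', hne]
    have ht'π : ∀ j, t' (π j) = 0 := fun j => by simp [ht', htπ]
    refine ⟨Fin.cons l0 π, Fin.cons t' fun i => u i - u i l0 • t', ?_, ?_, ?_, ?_⟩
    · intro i j
      refine Fin.cases ?_ (fun i => ?_) i <;> refine Fin.cases ?_ (fun j => ?_) j
      · simpa using ht'0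
      · simpa [(Fin.succ_ne_zero j).symm] using ht'π j
      · simp [ht'0]
      · simp [ht'π, hu i j]
    · set T := Submodule.span F (Set.range (Fin.cons t' fun i => u i - u i l0 • t' :
        Fin (n + 1) → σ → F)) with hT
      have h1 : t' ∈ T := Submodule.subset_span ⟨0, by simp⟩
      have h2 : ∀ i, u i ∈ T := fun i => by
        have : u i - u i l0 • t' ∈ T := Submodule.subset_span ⟨i.succ, by simp⟩
        simpa using T.add_mem this (T.smul_mem (u i l0) h1)
      have h3 : Submodule.span F (Set.range u) ≤ T :=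
        Submodule.span_le.2 (by rintro _ ⟨i, rfl⟩; exact h2 i)
      have h4 : Submodule.span F (Set.range u) ≤ Submodule.span F (Set.range l) := by
        rw [hsp]
        exact Submodule.span_mono (by rintro _ ⟨i, rfl⟩; exact ⟨i.succ, rfl⟩)
      have h5 : t' ∈ Submodule.span F (Set.range l) :=
        Submodule.smul_mem _ _ (Submodule.sub_mem _ (Submodule.subset_span ⟨0, rfl⟩) (h4 hwm))
      refine le_antisymm (Submodule.span_le.2 ?_) (Submodule.span_le.2 ?_)
      · rintro _ ⟨i, rfl⟩
        refine Fin.cases ?_ (fun i => ?_) i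
        · simpa using h5
        · simpa using Submodule.sub_mem _ (h4 (humem i)) (Submodule.smul_mem _ (u i l0) h5)
      · rintro _ ⟨i, rfl⟩
        refine Fin.cases ?_ (fun i => ?_) i
        · have e : l 0 = t l0 • t' + w := by
            rw [ht', smul_smul, mul_inv_cancel₀ hne, one_smul, ht, sub_add_cancel]
          rw [e]
          exact T.add_mem (T.smul_mem _ h1) (h3 hwm)
        · refine h3 ?_
          rw [hsp]
          exact Submodule.subset_span ⟨i, rfl⟩
    · intro i j
      refine Fin.cases ?_ (fun i => ?_) i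
      · simpa [ht'] using hO j
      · simpa [ht'] using O.toSubring.sub_mem (huO i j) (O.toSubring.mul_mem (huO i l0) (hO j))
    · intro K hK i j
      have k1 := huK K fun a i => hK a.succ i
      have k2 : ∀ j, t j ∈ K := fun j => by
        simp only [ht, hw, Pi.sub_apply, Finset.sum_apply, Pi.smul_apply, smul_eq_mul]
        exact K.sub_mem (hK 0 j) (K.sum_mem fun i _ => K.mul_mem (hK 0 _) (k1 i j))
      have k3 : ∀ j, t' j ∈ K := fun j => K.mul_mem (K.inv_mem (k2 l0)) (k2 j)
      refine Fin.cases ?_ (fun i => ?_) i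
      · simpa using k3 j
      · simpa using K.sub_mem (k1 i j) (K.mul_mem (k1 i l0) (k3 j))

theorem ech_ex (U : Submodule F (σ → F)) {r : ℕ} (hr : finrank F U = r) :
    ∃ (ι : Fin r → σ) (l : Fin r → σ → F), Ech ι l ∧ Submodule.span F (Set.range l) = U := by
  let b := finBasisOfFinrankEq F U hr
  obtain ⟨ι, l, h1, h2, -⟩ := ech_val ⊤ (fun a => (b a : σ → F))
    (b.linearIndependent.map' U.subtype U.ker_subtype)
  refine ⟨ι, l, h1, h2.trans ?_⟩
  have := congrArg (Submodule.map U.subtype) b.span_eq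
  rwa [Submodule.map_top, Submodule.range_subtype, Submodule.map_span, ← Set.range_comp] at this

set_option linter.unusedSectionVars false in
theorem prim_ex (O : ValuationSubring F) {f : MvPolynomial σ F} (hf : f ≠ 0) :
    ∃ m, coeff m f ≠ 0 ∧ Prim O (C (coeff m f)⁻¹ * f) := by
  obtain ⟨m, h0, h1⟩ := kb_max O (fun m => coeff m f) f.support
    (fun _ h => notMem_support_iff.1 h) fun h => hf (MvPolynomial.ext _ _ fun m => congrFun h m)
  refine ⟨m, h0, fun m' => by simpa using h1 m', m, ?_⟩
  rw [coeff_C_mul, inv_mul_cancel₀ h0, inv_one]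
  exact ⟨one_ne_zero, O.one_mem⟩

omit [Fintype σ] in
theorem kb_int_iff (O : ValuationSubring F) (f : MvPolynomial σ F) :
    Int O f ↔ f ∈ (MvPolynomial.map (σ := σ) O.subtype).range := by
  refine ⟨fun h => ?_, ?_⟩
  · refine ⟨∑ m ∈ f.support, monomial m ⟨coeff m f, h m⟩, ?_⟩
    simp only [map_sum, map_monomial]
    exact f.as_sum.symm
  · rintro ⟨p, rfl⟩ m
    rw [coeff_map]
    exact (coeff m p).2

omit [Fintype σ] in
theorem kb_prim {O : ValuationSubring F} {p : MvPolynomial σ O}
    (h : Prim O (MvPolynomial.map O.subtype p)) :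
    MvPolynomial.map (IsLocalRing.residue O) p ≠ 0 := by
  obtain ⟨-, m, h0, h1⟩ := h
  intro e
  have := congrArg (coeff m) e
  rw [coeff_map, coeff_zero, IsLocalRing.residue_eq_zero_iff] at this
  rw [coeff_map] at h0 h1
  exact this (IsUnit.of_mul_eq_one ⟨_, h1⟩ (Subtype.ext (mul_inv_cancel₀ h0)))

omit [Fintype σ] in
theorem kb_small {O : ValuationSubring F} {c : F} (hc : c ∉ O) :
    ∃ c' : O, (c' : F) = c⁻¹ ∧ IsLocalRing.residue O c' = 0 := by
  have h1 : c⁻¹ ∈ O := (O.mem_or_inv_mem c).resolve_left hc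
  refine ⟨⟨_, h1⟩, rfl, (IsLocalRing.residue_eq_zero_iff _).2 fun hu => hc ?_⟩
  obtain ⟨b, hb⟩ := hu.exists_right_inv
  have h2 : c⁻¹ * b = 1 := congrArg Subtype.val hb
  have h0 : c ≠ 0 := fun h => hc (h ▸ O.zero_mem)
  have : c = b := by
    rw [inv_mul_eq_one₀ h0] at h2
    exact h2
  exact this ▸ b.2

omit [Fintype σ] in
theorem kb_unscale {O : ValuationSubring F} {c : F} (h0 : c ≠ 0) (hc : c ∈ O)
    {f : MvPolynomial σ F} (h : Int O (C c⁻¹ * f)) : Int O f := fun m => by
  have := O.mul_mem _ _ hc (h m)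
  rwa [coeff_C_mul, ← mul_assoc, mul_inv_cancel₀ h0, one_mul] at this

theorem gauss_div (O : ValuationSubring F) {e t : MvPolynomial σ F} (he : Prim O e)
    (h : Int O (e * t)) : Int O t := by
  by_cases h0 : t = 0
  · exact h0 ▸ fun _ => O.zero_mem
  obtain ⟨m, c0, hp⟩ := prim_ex O h0
  refine kb_unscale c0 ?_ hp.1
  by_contra hc
  obtain ⟨c', h1, h2⟩ := kb_small hc
  obtain ⟨e', he'⟩ := (kb_int_iff O _).1 he.1
  obtain ⟨t', ht'⟩ := (kb_int_iff O _).1 hp.1
  obtain ⟨s', hs'⟩ := (kb_int_iff O _).1 h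
  have key : e' * t' = C c' * s' := by
    apply map_injective O.subtype Subtype.val_injective
    rw [map_mul, map_mul, he', ht', hs', map_C, ← h1]
    exact mul_left_comm _ _ _
  have := congrArg (MvPolynomial.map (IsLocalRing.residue O)) key
  rw [map_mul, map_mul, map_C, h2, C_0, zero_mul] at this
  exact mul_ne_zero (kb_prim (he' ▸ he)) (kb_prim (ht' ▸ hp)) this

omit [Fintype σ] in
theorem kb_pl {r : ℕ} {ι : Fin r → σ} {l : Fin r → σ → F} (hl : Ech ι l) (a : Fin r) :
    pl l (ι a) = X a := by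
  simp [pl, hl _ a, apply_ite C]

omit [Fintype σ] in
theorem kb_two {a b : σ} (hab : a ≠ b) {N : ℕ} {e Q : MvPolynomial σ F} (he : e ≠ 0)
    (h1 : e ∣ X a ^ N * Q) (h2 : e ∣ X b ^ N * Q) : e ∣ Q := by
  obtain ⟨s, hs⟩ := h1
  obtain ⟨t, ht⟩ := h2
  have e1 : X b ^ N * s = X a ^ N * t := by
    apply mul_left_cancel₀ he
    rw [mul_left_comm, ← hs, mul_left_comm e, ← ht, mul_left_comm]
  have nd : ¬ (X a : MvPolynomial σ F) ∣ X b ^ N := fun h => by
    have := X_prime.dvd_of_dvd_pow h
    rw [X_dvd_X] at this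
    exact hab this
  obtain ⟨u, hu⟩ := X_prime.pow_dvd_of_dvd_mul_left N nd ⟨t, e1⟩
  refine ⟨u, mul_left_cancel₀ (pow_ne_zero N (X_ne_zero a)) ?_⟩
  rw [hs, hu, mul_left_comm]

theorem lemV {k : Type} [Field k] [Algebra k F] (O : ValuationSubring F)
    (hk : ∀ c : k, algebraMap k F c ∈ O) {n r N m : ℕ} (hr : 2 ≤ r) (G : Fin n → MvPolynomial (Fin n) k)
    {ι : Fin r → Fin n} {l : Fin r → Fin n → F} (hl : Ech ι l) (hO : ∀ a i, l a i ∈ O)
    {e Q mu : MvPolynomial (Fin r) F} (he : Prim O e) (hm : e.IsHomogeneous m)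
    (hQ : Q.totalDegree < m) (hmu : Int O mu)
    (h : ∀ i, e ∣ pl l i ^ N * Q - mu * aeval (pl l) (G i)) : Int O Q := by
  by_cases h0 : Q = 0
  · exact h0 ▸ fun _ => O.zero_mem
  obtain ⟨m0, c0, hp⟩ := prim_ex O h0
  refine kb_unscale c0 ?_ hp.1
  by_contra hc
  obtain ⟨c', h1, h2⟩ := kb_small hc
  obtain ⟨e', he'⟩ := (kb_int_iff O _).1 he.1
  obtain ⟨Q', hQ'⟩ := (kb_int_iff O _).1 hp.1
  have hC : ∀ c ∈ O, C c ∈ (MvPolynomial.map (σ := Fin r) O.subtype).range := fun c hc =>
    ⟨C ⟨c, hc⟩, map_C _ _⟩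
  have hX : ∀ a, X a ∈ (MvPolynomial.map (σ := Fin r) O.subtype).range := fun a =>
    ⟨X a, map_X _ _⟩
  have hG : ∀ g : MvPolynomial (Fin n) k,
      aeval (pl l) g ∈ (MvPolynomial.map (σ := Fin r) O.subtype).range := fun g => by
    induction g using MvPolynomial.induction_on with
    | C c => simpa using hC _ (hk c)
    | add p q hp hq => simpa using Subring.add_mem _ hp hq
    | mul_X p i hp =>
      rw [map_mul, aeval_X]
      exact Subring.mul_mem _ hp
        (Subring.sum_mem _ fun a _ => Subring.mul_mem _ (hC _ (hO a i)) (hX a))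
  have e0 := kb_prim (he' ▸ he)
  have q0 := kb_prim (hQ' ▸ hp)
  have key : ∀ a, MvPolynomial.map (IsLocalRing.residue O) e' ∣
      X a ^ N * MvPolynomial.map (IsLocalRing.residue O) Q' := fun a => by
    obtain ⟨t, ht⟩ := h (ι a)
    obtain ⟨R', hR'⟩ := Subring.mul_mem _ ((kb_int_iff O _).1 hmu) (hG (G (ι a)))
    have e1 : MvPolynomial.map O.subtype (X a ^ N * Q' - C c' * R') =
        e * (C (coeff m0 Q)⁻¹ * t) := by
      rw [map_sub, map_mul, map_mul, map_pow, map_X, map_C, hQ', hR', mul_left_comm e, ← ht,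
        kb_pl hl, ← h1]
      simp only [ValuationSubring.coe_subtype]
      ring
    obtain ⟨t', ht'⟩ := (kb_int_iff O _).1 (gauss_div O he ((kb_int_iff O _).2 ⟨_, e1⟩))
    have e2 : X a ^ N * Q' - C c' * R' = e' * t' := by
      apply map_injective O.subtype Subtype.val_injective
      rw [e1, map_mul, he', ht']
    have := congrArg (MvPolynomial.map (IsLocalRing.residue O)) e2
    rw [map_sub, map_mul, map_mul, map_mul, map_pow, map_X, map_C, h2, C_0, zero_mul,
      sub_zero] at this
    exact ⟨_, this⟩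
  have d1 := totalDegree_le_of_dvd_of_isDomain (kb_two (a := ⟨0, by omega⟩) (b := ⟨1, by omega⟩)
    (fun h => absurd (congrArg Fin.val h) Nat.zero_ne_one) e0 (key _) (key _)) q0
  have d2 : (MvPolynomial.map (IsLocalRing.residue O) e').totalDegree = m :=
    ((IsHomogeneous.of_map Subtype.val_injective (he' ▸ hm)).map _).totalDegree e0
  have d3 : (MvPolynomial.map (IsLocalRing.residue O) Q').totalDegree ≤ Q.totalDegree := by
    refine Finset.sup_mono fun s hs => ?_
    rw [MvPolynomial.mem_support_iff] at hs ⊢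
    intro z
    have : coeff s Q' = 0 := Subtype.ext (by
      have := congrArg (coeff s) hQ'
      rw [coeff_map, coeff_C_mul, z, mul_zero] at this
      exact this)
    exact hs (by rw [coeff_map, this, map_zero])
  omega

/-- a ring map to a field comes from a valuation ring -/
theorem val_dom {A κ : Type} [CommRing A] [Field κ] (φ : A →+* F) (ψ : A →+* κ)
    (h : ∀ a, φ a = 0 → ψ a = 0) :
    ∃ O : ValuationSubring F, (∀ a, φ a ∈ O) ∧ ∀ a, O.valuation (φ a) < 1 ↔ ψ a = 0 := by
  have : (RingHom.ker ψ).IsPrime := RingHom.ker_isPrime _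
  have hu : ∀ y : (RingHom.ker ψ).primeCompl, IsUnit (φ y) := fun y =>
    IsUnit.mk0 _ fun e => y.2 (h _ e)
  obtain ⟨O, h1, hl⟩ := IsLocalRing.exists_factor_valuationRing
    (IsLocalization.lift (S := Localization.AtPrime (RingHom.ker ψ)) hu)
  let G : Localization.AtPrime (RingHom.ker ψ) →+* O :=
    (IsLocalization.lift (S := Localization.AtPrime (RingHom.ker ψ)) hu).codRestrict O.toSubring h1
  have : IsLocalHom G := hl
  have e : ∀ a, (G (algebraMap A _ a) : F) = φ a := fun a => IsLocalization.lift_eq hu a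
  refine ⟨O, fun a => e a ▸ (G _).2, fun a => ?_⟩
  rw [← e, ← O.valuation_lt_one_iff, ← RingHom.mem_ker,
    ← IsLocalization.AtPrime.to_map_mem_maximal_iff (Localization.AtPrime (RingHom.ker ψ))
      (RingHom.ker ψ) a]
  simp only [IsLocalRing.mem_maximalIdeal, mem_nonunits_iff, isUnit_map_iff]

theorem res_ex (k : Type) [Field k] [Algebra k F] (O : ValuationSubring F)
    (hk : ∀ c : k, algebraMap k F c ∈ O) : ∃ (κ : Type) (_ : Field κ) (_ : IsAlgClosed κ)
      (_ : Algebra k κ), Nonempty (Res k O κ) := by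
  classical
  let κ := AlgebraicClosure (IsLocalRing.ResidueField O)
  let r : O →+* κ := (algebraMap _ κ).comp (IsLocalRing.residue O)
  let i : k →+* O := (algebraMap k F).codRestrict O.toSubring hk
  let A : Algebra k κ := (r.comp i).toAlgebra
  refine ⟨κ, inferInstance, inferInstance, A,
    ⟨⟨fun a => if h : a ∈ O then r ⟨a, h⟩ else 0, hk, fun a ha b hb => ?_, fun a ha b hb => ?_,
      fun c => ?_, fun a ha => ?_⟩⟩⟩
  · rw [dif_pos ha, dif_pos hb, dif_pos (O.add_mem _ _ ha hb), ← map_add]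
    rfl
  · rw [dif_pos ha, dif_pos hb, dif_pos (O.mul_mem _ _ ha hb), ← map_mul]
    rfl
  · rw [dif_pos (hk c)]
    rfl
  · rw [dif_pos ha, ← O.valuation_lt_one_iff ⟨a, ha⟩, ← IsLocalRing.residue_eq_zero_iff]
    exact map_eq_zero_iff _ (algebraMap (IsLocalRing.ResidueField O) κ).injective

set_option linter.unusedSectionVars false in
theorem Res.aeval {k κ : Type} [Field k] [Algebra k F] {O : ValuationSubring F} [Field κ]
    [Algebra k κ] (r : Res k O κ) {x : σ → F} (hx : ∀ i, x i ∈ O) (f : MvPolynomial σ k) :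
    aeval x f ∈ O ∧ r.ρ (aeval x f) = aeval (r.ρ ∘ x) f := by
  induction f using MvPolynomial.induction_on with
  | C c => simpa using ⟨r.mem c, r.alg c⟩
  | add p q hp hq =>
    rw [map_add, map_add, r.add _ hp.1 _ hq.1, hp.2, hq.2]
    exact ⟨O.add_mem _ _ hp.1 hq.1, rfl⟩
  | mul_X p i hp =>
    rw [map_mul, map_mul, aeval_X, aeval_X, r.mul _ hp.1 _ (hx i), hp.2]
    exact ⟨O.mul_mem _ _ hp.1 (hx i), rfl⟩

theorem spec_pt {k : Type} [Field k] [IsAlgClosed k] [Algebra k F] (y : σ → F)
    {g : MvPolynomial σ k} (hg : aeval y g ≠ 0) :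
    ∃ x : σ → k, (∀ f : MvPolynomial σ k, aeval y f = 0 → eval x f = 0) ∧ eval x g ≠ 0 := by
  by_contra hn
  push Not at hn
  have : (RingHom.ker (aeval y : MvPolynomial σ k →ₐ[k] F)).IsPrime := RingHom.ker_isPrime _
  have e := IsPrime.vanishingIdeal_zeroLocus (K := k)
    (RingHom.ker (aeval y : MvPolynomial σ k →ₐ[k] F))
  refine hg ((RingHom.mem_ker).1 (e ▸ fun x hx => ?_))
  exact hn x fun f hf => hx f hf

/-- the grading as a map to polynomials in one variable -/
noncomputable def kbG : MvPolynomial σ F →ₐ[F] Polynomial (MvPolynomial σ F) :=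
  aeval fun i => Polynomial.C (X i) * Polynomial.X

omit [Fintype σ] in
theorem kbG_hom {f : MvPolynomial σ F} {d : ℕ} (h : f.IsHomogeneous d) :
    kbG f = Polynomial.monomial d f := by
  conv_lhs => rw [f.as_sum]
  conv_rhs => rw [f.as_sum]
  rw [map_sum, map_sum]
  refine Finset.sum_congr rfl fun s hs => ?_
  rw [h.degree_eq_sum_deg_support hs, kbG, aeval_monomial, monomial_eq,
    ← Polynomial.C_mul_X_pow_eq_monomial]
  simp only [Finsupp.prod, mul_pow, Finset.prod_mul_distrib, Finset.prod_pow_eq_pow_sum, mul_assoc,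
    Polynomial.algebraMap_apply, map_mul, map_prod, map_pow, algebraMap_eq]

omit [Fintype σ] in
theorem kbG_coeff (f : MvPolynomial σ F) (n : ℕ) :
    (kbG f).coeff n = homogeneousComponent n f := by
  conv_lhs => rw [← f.sum_homogeneousComponent]
  rw [map_sum, Polynomial.finsetSum_coeff]
  simp only [kbG_hom (homogeneousComponent_isHomogeneous _ f), Polynomial.coeff_monomial,
    Finset.sum_ite_eq', Finset.mem_range]
  split_ifs with h
  · rfl
  · exact (homogeneousComponent_eq_zero _ _ (by omega)).symm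

omit [Fintype σ] in
theorem kb_homfac {f g : MvPolynomial σ F} {d : ℕ} (h : (f * g).IsHomogeneous d)
    (h0 : f * g ≠ 0) : f.IsHomogeneous f.totalDegree := by
  have e := kbG_hom h
  rw [map_mul] at e
  have n0 : kbG f * kbG g ≠ 0 := by
    rw [e]
    simpa using h0
  have a := Polynomial.natDegree_mul (left_ne_zero_of_mul n0) (right_ne_zero_of_mul n0)
  have b := Polynomial.natTrailingDegree_mul (left_ne_zero_of_mul n0) (right_ne_zero_of_mul n0)
  rw [e, Polynomial.natDegree_monomial_eq _ h0] at a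
  rw [e, Polynomial.natTrailingDegree_monomial h0] at b
  have c1 := Polynomial.natTrailingDegree_le_natDegree (kbG f)
  have c2 := Polynomial.natTrailingDegree_le_natDegree (kbG g)
  have hf : f.IsHomogeneous (kbG f).natDegree := by
    intro s hs
    by_contra hne
    have z : homogeneousComponent s.degree f = 0 := by
      rw [← kbG_coeff]
      have hne' : s.degree ≠ (kbG f).natDegree := fun e => hne (by
        rw [← e, Finsupp.degree_eq_weight_one]
        rfl)
      rcases lt_or_gt_of_ne hne' with h | h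
      · exact Polynomial.coeff_eq_zero_of_lt_natTrailingDegree (by omega)
      · exact Polynomial.coeff_eq_zero_of_natDegree_lt h
    have := congrArg (coeff s) z
    rw [coeff_homogeneousComponent, if_pos rfl] at this
    exact hs this
  rwa [hf.totalDegree (left_ne_zero_of_mul h0)]

set_option linter.unusedSectionVars false in
theorem homfac {f g : MvPolynomial σ F} {d : ℕ} (h : (f * g).IsHomogeneous d) (h0 : f * g ≠ 0) :
    f.IsHomogeneous f.totalDegree ∧ g.IsHomogeneous g.totalDegree :=
  ⟨kb_homfac h h0, kb_homfac (mul_comm f g ▸ h) (mul_comm f g ▸ h0)⟩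

/-- the ideal of the coordinate subspace `x_i = 0`, `i < j` -/
noncomputable def kbP (F : Type) [Field F] (n j : ℕ) : Ideal (MvPolynomial (Fin n) F) :=
  RingHom.ker (aeval (fun i : Fin n => if i.1 < j then 0 else X i) :
    MvPolynomial (Fin n) F →ₐ[F] MvPolynomial (Fin n) F)

instance (n j : ℕ) : (kbP F n j).IsPrime := RingHom.ker_isPrime _

theorem kbP_lt {n j : ℕ} (h : j < n) : kbP F n j < kbP F n (j + 1) := by
  refine lt_of_le_of_ne (fun f hf => ?_) fun e => ?_
  · have e : (aeval (fun i : Fin n => if i.1 < j + 1 then 0 else X i) :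
        MvPolynomial (Fin n) F →ₐ[F] MvPolynomial (Fin n) F) =
        (aeval (fun i : Fin n => if i.1 < j + 1 then 0 else X i)).comp
          (aeval (fun i : Fin n => if i.1 < j then 0 else X i)) := by
      ext1 i
      by_cases hi : i.1 < j
      · simp [hi, hi.le]
      · simp [hi]
    rw [kbP, RingHom.mem_ker] at hf ⊢
    rw [e, AlgHom.comp_apply, hf, map_zero]
  · have : (X ⟨j, h⟩ : MvPolynomial (Fin n) F) ∈ kbP F n (j + 1) := by simp [kbP]
    rw [← e] at this
    simp [kbP] at this

theorem kbP_height {n j : ℕ} (h : j ≤ n) : (j : ℕ∞) ≤ (kbP F n j).height := by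
  induction j with
  | zero => simp
  | succ j ih =>
    refine le_trans ?_ (Ideal.height_add_one_le_of_lt_of_isPrime (kbP_lt (F := F) h))
    push_cast
    exact add_le_add_left (ih (by omega)) 1

theorem kbP_le {n j : ℕ} {z : Fin n → F} (hz : ∀ i : Fin n, i.1 < j → z i = 0)
    {f : MvPolynomial (Fin n) F} (hf : f ∈ kbP F n j) : aeval z f = 0 := by
  have e : (aeval z : MvPolynomial (Fin n) F →ₐ[F] F) =
      (aeval z).comp (aeval (fun i : Fin n => if i.1 < j then 0 else X i)) := by
    ext1 i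
    by_cases hi : i.1 < j
    · simp [hi, hz i hi]
    · simp [hi]
  rw [kbP, RingHom.mem_ker] at hf
  rw [e, AlgHom.comp_apply, hf, map_zero]

/-- fewer forms of positive degree than variables have a common nontrivial zero -/
theorem kb_forms [IsAlgClosed F] {n : ℕ} (s : Finset (MvPolynomial (Fin n) F)) (hn : s.card < n)
    (hs : ∀ f ∈ s, eval 0 f = 0) : ∃ z : Fin n → F, z ≠ 0 ∧ ∀ f ∈ s, eval z f = 0 := by
  by_contra hc
  push Not at hc
  have hz : zeroLocus F (Ideal.span (s : Set (MvPolynomial (Fin n) F))) = {0} := by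
    ext z
    refine ⟨fun h => ?_, ?_⟩
    · by_contra h0
      obtain ⟨f, hf, h1⟩ := hc z h0
      exact h1 (h f (Ideal.subset_span hf))
    · rintro rfl p hp
      exact (Ideal.span_le.2 fun f hf => hs f hf :
        Ideal.span (s : Set (MvPolynomial (Fin n) F)) ≤ RingHom.ker (eval 0)) hp
  have hr := vanishingIdeal_zeroLocus_eq_radical (K := F)
    (Ideal.span (s : Set (MvPolynomial (Fin n) F)))
  rw [hz] at hr
  have hm : vanishingIdeal F {(0 : Fin n → F)} ∈
      (Ideal.span (s : Set (MvPolynomial (Fin n) F))).minimalPrimes := by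
    rw [← Ideal.radical_minimalPrimes, ← hr, Ideal.minimalPrimes_eq_subsingleton_self]
    rfl
  have h1 := Ideal.height_le_card_of_mem_minimalPrimes_span_finset hm
  have h2 : kbP F n n ≤ vanishingIdeal F {(0 : Fin n → F)} := fun f hf =>
    (mem_vanishingIdeal_singleton_iff _ _).2 (kbP_le (fun _ _ => rfl) hf)
  have := (kbP_height (F := F) le_rfl).trans ((Ideal.height_mono h2).trans h1)
  exact absurd (by exact_mod_cast this) (not_le.2 hn)

omit [Fintype σ] in
theorem kb_eval_zero {f : MvPolynomial σ F} {d : ℕ} (hf : f.IsHomogeneous d) (hd : 1 ≤ d) :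
    eval 0 f = 0 := by
  rw [eval_zero, constantCoeff_eq]
  exact hf.coeff_eq_zero (by simp; omega)

/-- fewer forms of positive degree than variables have a common nontrivial zero -/
theorem forms_zero [IsAlgClosed F] {n : ℕ} (f g : MvPolynomial (Fin n) F) (hn : 3 ≤ n) {d e : ℕ}
    (hf : f.IsHomogeneous d) (hg : g.IsHomogeneous e) (hd : 1 ≤ d) (he : 1 ≤ e) :
    ∃ z : Fin n → F, z ≠ 0 ∧ eval z f = 0 ∧ eval z g = 0 := by
  classical
  obtain ⟨z, h0, h⟩ := kb_forms {f, g} (lt_of_le_of_lt Finset.card_le_two (by omega)) (by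
    simp only [Finset.mem_insert, Finset.mem_singleton, forall_eq_or_imp, forall_eq]
    exact ⟨kb_eval_zero hf hd, kb_eval_zero hg he⟩)
  exact ⟨z, h0, h f (by simp), h g (by simp)⟩

end KB

end PV
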