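import Pool.Agent.Lib.MP_36fb43_ag.KA
import Pool.Agent.Lib.MP_36fb43_ag.KB

open MvPolynomial Matrix Module

namespace PV

/-- a form of degree `d` scales with the `d`-th power -/
theorem aeval_smul_hom {k S σ : Type} [CommRing k] [CommRing S] [Algebra k S]
    {f : MvPolynomial σ k} {d : ℕ} (hf : f.IsHomogeneous d) (a : S) (x : σ → S) :
    aeval (a • x) f = a ^ d * aeval x f := by
  rw [aeval_def, aeval_def, eval₂_eq, eval₂_eq, Finset.mul_sum]
  refine Finset.sum_congr rfl fun m hm => ?_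
  simp only [Pi.smul_apply, smul_eq_mul, mul_pow, Finset.prod_mul_distrib,
    Finset.prod_pow_eq_pow_sum]
  rw [← hf.degree_eq_sum_deg_support hm]
  ring

/-- Euler's identity at a point -/
theorem gr_dot_self {k F σ : Type} [CommRing k] [Field F] [Algebra k F] [Fintype σ]
    (f : MvPolynomial σ k) (x : σ → F) : gr f x ⬝ᵥ x = aeval x (∑ i, X i * pderiv i f) := by
  simp only [map_sum, map_mul, aeval_X, dotProduct, gr, mul_comm]

theorem gr_dot_hom {k F σ : Type} [CommRing k] [Field F] [Algebra k F] [Fintype σ]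
    {f : MvPolynomial σ k} {d : ℕ} (hf : f.IsHomogeneous d) (x : σ → F) :
    gr f x ⬝ᵥ x = d * aeval x f := by
  rw [gr_dot_self, hf.sum_X_mul_pderiv, map_nsmul, nsmul_eq_mul]

theorem der_sum_apply {R F ι : Type} [CommRing R] [Field F] [Algebra R F] (s : Finset ι)
    (D : ι → Derivation R F F) (y : F) : (∑ i ∈ s, D i) y = ∑ i ∈ s, D i y := by
  classical
  induction s using Finset.induction_on with
  | empty => simp
  | insert i s hi ih => rw [Finset.sum_insert hi, Finset.sum_insert hi, Derivation.add_apply, ih]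

variable {k F R : Type} [Field k] [CharZero k] [Field R] [Field F] [Algebra k F] [Algebra R F]

omit [CharZero k] in
theorem val_ex {n d : ℕ} {Z : Cone k n} (s : Sect Z d) {x : Fin n → F} (h0 : x ≠ 0)
    (hx : On Z.I x) : ∃ (t : F) (w : Fin n → F), s.Val x t ∧ w ⬝ᵥ x = d * t ∧
      ∀ D : Derivation R F F, (∀ c : k, D (algebraMap k F c) = 0) → D t = w ⬝ᵥ dv D x := by
  obtain ⟨j, hj⟩ := Function.ne_iff.1 h0
  have hj : x j ≠ 0 := hj
  have hN : x j ^ s.N ≠ 0 := pow_ne_zero _ hj
  obtain ⟨t, ht⟩ : ∃ t, x j ^ s.N * t = aeval x (s.G j) :=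
    ⟨_, mul_div_cancel₀ _ hN⟩
  refine ⟨t, (x j ^ s.N)⁻¹ • gr (s.G j) x - (s.N * t * (x j)⁻¹) • Pi.single j 1, fun i => ?_, ?_,
    fun D hD => ?_⟩
  · have := hx _ (s.cmp i j)
    simp only [map_sub, map_mul, map_pow, aeval_X] at this
    apply mul_left_cancel₀ hN
    linear_combination x i ^ s.N * ht - this
  · rw [sub_dotProduct, smul_dotProduct, smul_dotProduct, gr_dot_hom (s.hom j), single_one_dotProduct,
      ← ht]
    simp only [smul_eq_mul]
    push_cast
    field_simp
    ring
  · rw [sub_dotProduct, smul_dotProduct, smul_dotProduct, ← D_aeval D hD, single_one_dotProduct,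
      ← ht, D.leibniz, D.leibniz_pow]
    simp only [smul_eq_mul, dv, nsmul_eq_mul]
    rcases Nat.eq_zero_or_pos s.N with e | e
    · simp [e]
    · obtain ⟨m, hm⟩ : ∃ m, s.N = m + 1 := ⟨s.N - 1, by omega⟩
      rw [hm, Nat.add_sub_cancel]
      field_simp
      ring

omit [CharZero k] in
theorem val_uq {n d : ℕ} {Z : Cone k n} (s : Sect Z d) {x : Fin n → F} (h0 : x ≠ 0) {t t' : F}
    (h : s.Val x t) (h' : s.Val x t') : t = t' := by
  obtain ⟨j, hj⟩ := Function.ne_iff.1 h0
  exact mul_left_cancel₀ (pow_ne_zero _ hj) ((h j).trans (h' j).symm)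

omit [CharZero k] in
theorem val_smul {n d : ℕ} {Z : Cone k n} (s : Sect Z d) {x : Fin n → F} {t : F} (h : s.Val x t)
    (a : F) : s.Val (a • x) (a ^ d * t) := by
  intro i
  rw [aeval_smul_hom (s.hom i), ← h i, Pi.smul_apply, smul_eq_mul]
  ring

omit [CharZero k] in
theorem on_smul {n : ℕ} (Z : Cone k n) {x : Fin n → F} (h : On Z.I x) (a : F) :
    On Z.I (a • x) := by
  intro f hf
  rw [← sum_homogeneousComponent f, map_sum]
  refine Finset.sum_eq_zero fun d _ => ?_
  rw [aeval_smul_hom (homogeneousComponent_isHomogeneous d f), h _ (Z.hom f hf d), mul_zero]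

omit [CharZero k] in
theorem euler_mem {n : ℕ} (Z : Cone k n) {f} (hf : f ∈ Z.I) : ∑ i, X i * pderiv i f ∈ Z.I := by
  rw [← sum_homogeneousComponent f]
  simp only [map_sum, Finset.mul_sum]
  rw [Finset.sum_comm]
  refine Ideal.sum_mem _ fun d _ => ?_
  rw [(homogeneousComponent_isHomogeneous d f).sum_X_mul_pderiv]
  exact nsmul_mem (Z.hom f hf d) _

omit [CharZero k] in
theorem tg_self {n : ℕ} (Z : Cone k n) {x : Fin n → F} (h : On Z.I x) : Tg Z.I x x :=
  fun f hf => by rw [gr_dot_self, h _ (euler_mem Z hf)]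

theorem GenPt.ext {L Ω : Type} [Field L] [Algebra ℂ L] {p : Fin 6 → L} (hp : GenPt p) [Field Ω]
    [Algebra ℂ Ω] [Algebra L Ω] [IsScalarTower ℂ L Ω] (v : Fin 6 → Ω) :
    ∃ D : Derivation ℂ Ω Ω, dv D (algebraMap L Ω ∘ p) = v := by
  choose D hD using fun i => hp.ex (Pi.single i 1)
  choose E hE using fun i => der_ext (IsScalarTower.toAlgHom ℂ L Ω) (D i)
  refine ⟨∑ i, v i • E i, funext fun j => ?_⟩
  have : ∀ i, E i (algebraMap L Ω (p j)) = if j = i then 1 else 0 := fun i => by
    have h1 := hE i (p j)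
    have h2 : D i (p j) = (Pi.single i 1 : Fin 6 → L) j := congrFun (hD i) j
    rw [h2, Pi.single_apply] at h1
    simp only [IsScalarTower.coe_toAlgHom', apply_ite (algebraMap L Ω), map_one, map_zero] at h1
    exact h1
  simp [dv, der_sum_apply, this]

theorem not_on {L : Type} [Field L] [Algebra ℂ L] {p : Fin 6 → L}
    (hp : ∀ v, ∃ D : Derivation ℂ L L, dv D p = v) {f : MvPolynomial (Fin 6) ℂ} (hf : f ≠ 0) :
    aeval p f ≠ 0 := by
  intro h
  refine hf (map_injective _ (algebraMap ℂ L).injective ?_)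
  rw [map_zero]
  refine ind_der (R := ℂ) Set.univ p ?_ _ (fun D _ => ?_) (by rwa [eval_map, ← aeval_def])
  · refine eq_top_iff.2 fun v _ => Submodule.subset_span ?_
    obtain ⟨D, hD⟩ := hp v
    exact ⟨D, trivial, hD.symm⟩
  · ext m
    rw [coeff_cD, coeff_map, D.map_algebraMap, coeff_zero]

/-- `b` is the polynomial `a` made homogeneous of degree `d` with second variable `c` -/
def Scl (c : F) (d : ℕ) (a b : Polynomial F) : Prop :=
  a.natDegree ≤ d ∧ ∀ i, b.coeff i = a.coeff i * c ^ (d - i)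

theorem Scl.mul {c : F} {d e : ℕ} {a b a' b' : Polynomial F} (h : Scl c d a b)
    (h' : Scl c e a' b') : Scl c (d + e) (a * a') (b * b') := by
  refine ⟨Polynomial.natDegree_mul_le.trans (add_le_add h.1 h'.1), fun i => ?_⟩
  rw [Polynomial.coeff_mul, Polynomial.coeff_mul, Finset.sum_mul]
  refine Finset.sum_congr rfl fun x hx => ?_
  rw [h.2, h'.2]
  have hs : x.1 + x.2 = i := by simpa using hx
  by_cases h1 : d < x.1
  · simp [Polynomial.coeff_eq_zero_of_natDegree_lt (h.1.trans_lt h1)]
  by_cases h2 : e < x.2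
  · simp [Polynomial.coeff_eq_zero_of_natDegree_lt (h'.1.trans_lt h2)]
  rw [show d + e - i = (d - x.1) + (e - x.2) by omega, pow_add]
  ring

theorem Scl.C (c a : F) : Scl c 0 (Polynomial.C a) (Polynomial.C a) :=
  ⟨by simp, fun i => by simp⟩

theorem Scl.pow {c : F} {a b : Polynomial F} (h : Scl c 1 a b) (m : ℕ) :
    Scl c m (a ^ m) (b ^ m) := by
  induction m with
  | zero => simpa using Scl.C c 1
  | succ m ih => rw [pow_succ, pow_succ]; exact ih.mul h

theorem Scl.prod {σ : Type} {c : F} {a b : σ → Polynomial F} {m : σ → ℕ} (s : Finset σ)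
    (h : ∀ i, Scl c (m i) (a i) (b i)) : Scl c (∑ i ∈ s, m i) (∏ i ∈ s, a i) (∏ i ∈ s, b i) := by
  classical
  induction s using Finset.induction_on with
  | empty => simpa using Scl.C c 1
  | insert i s hi ih =>
    rw [Finset.sum_insert hi, Finset.prod_insert hi, Finset.prod_insert hi]
    exact (h i).mul ih

omit [CharZero k] in
theorem scl_ln {σ : Type} {f : MvPolynomial σ k} {d : ℕ} (hf : f.IsHomogeneous d) (p q : σ → F)
    (c : F) : Scl c d (aeval (ln p q) f) (aeval (ln p (c • q)) f) := by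
  rw [aeval_def, aeval_def, eval₂_eq, eval₂_eq]
  have key : ∀ m ∈ f.support, Scl c d
      (algebraMap k (Polynomial F) (coeff m f) * ∏ i ∈ m.support, ln p q i ^ m i)
      (algebraMap k (Polynomial F) (coeff m f) * ∏ i ∈ m.support, ln p (c • q) i ^ m i) := by
    intro m hm
    have := (Scl.C c (algebraMap k F (coeff m f))).mul (Scl.prod (c := c) m.support
      (a := fun i => ln p q i ^ m i) (b := fun i => ln p (c • q) i ^ m i) (m := m) fun i =>
        Scl.pow ⟨Polynomial.natDegree_linear_le, fun j => ?_⟩ _)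
    · rwa [zero_add, ← hf.degree_eq_sum_deg_support hm] at this
    · rcases j with _ | _ | j <;> simp [ln, Polynomial.coeff_X, Polynomial.coeff_C]
      ring
  refine ⟨Polynomial.natDegree_sum_le_of_forall_le _ _ fun m hm => (key m hm).1, fun i => ?_⟩
  rw [Polynomial.finsetSum_coeff, Polynomial.finsetSum_coeff, Finset.sum_mul]
  exact Finset.sum_congr rfl fun m hm => (key m hm).2 i

omit [CharZero k] in
theorem al_scale {n : ℕ} (Z : Cone k n) {p q : Fin n → F} {g : Polynomial F} (h : Al Z.I p q g)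
    (c : F) : Al Z.I p (c • q) (g.scaleRoots c) := by
  intro f hf
  rw [← sum_homogeneousComponent f, map_sum]
  refine Finset.dvd_sum fun d _ => ?_
  obtain ⟨r, hr⟩ := h _ (Z.hom f hf d)
  obtain ⟨h1, h2⟩ := scl_ln (homogeneousComponent_isHomogeneous d f) p q c
  have : aeval (ln p (c • q)) (homogeneousComponent d f) =
      Polynomial.C (c ^ (d - (g * r).natDegree)) * (g * r).scaleRoots c := by
    ext i
    rw [h2, hr, Polynomial.coeff_C_mul, Polynomial.coeff_scaleRoots]
    rw [hr] at h1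
    by_cases e : (g * r).natDegree < i
    · simp [Polynomial.coeff_eq_zero_of_natDegree_lt e]
    · rw [show d - i = (d - (g * r).natDegree) + ((g * r).natDegree - i) by omega, pow_add]
      ring
  rw [this, Polynomial.mul_scaleRoots_of_noZeroDivisors]
  exact Dvd.dvd.mul_left (dvd_mul_right _ _) _

end PV
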