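import Pool.Agent.Lib.MP_36fb43_ag.KC1

open MvPolynomial Matrix Module

namespace PV

variable {k F R : Type} [Field k] [Field R] [Field F] [Algebra k F] [Algebra R F]

/-- a derivation that kills `k` is a `k`-derivation -/
theorem kc_toK (D : Derivation R F F) (hD : ∀ c : k, D (algebraMap k F c) = 0) :
    ∃ E : Derivation k F F, ∀ y, E y = D y :=
  ⟨Derivation.mk' ⟨⟨D, map_add D⟩, fun c y => by
      simp only [Algebra.smul_def, D.leibniz, hD, RingHom.id_apply]; simp⟩
    fun a b => D.leibniz a b, fun _ => rfl⟩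

theorem kc_dsp_le {σ : Type} (x : σ → F) (A : Set (Derivation R F F))
    (hA : ∀ D ∈ A, ∀ c : k, D (algebraMap k F c) = 0) :
    dsp A x ≤ dsp (Set.univ : Set (Derivation k F F)) x := by
  refine Submodule.span_mono ?_
  rintro _ ⟨D, hD, rfl⟩
  obtain ⟨E, hE⟩ := kc_toK D (hA D hD)
  exact ⟨E, trivial, funext fun i => (hE _).symm⟩

/-- the derivatives of a vector form a subspace -/
theorem mem_dsp_univ {σ : Type} {x v : σ → F} :
    v ∈ dsp (Set.univ : Set (Derivation k F F)) x ↔ ∃ D : Derivation k F F, dv D x = v := by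
  refine ⟨fun h => ?_, fun ⟨D, hD⟩ => Submodule.subset_span ⟨D, trivial, hD.symm⟩⟩
  induction h using Submodule.span_induction with
  | mem v hv => obtain ⟨D, -, rfl⟩ := hv; exact ⟨D, rfl⟩
  | zero => exact ⟨0, rfl⟩
  | add a b _ _ ha hb =>
    obtain ⟨D, rfl⟩ := ha
    obtain ⟨E, rfl⟩ := hb
    exact ⟨D + E, rfl⟩
  | smul c a _ ha =>
    obtain ⟨D, rfl⟩ := ha
    exact ⟨c • D, rfl⟩

variable [CharZero k]

/-- if the derivatives span everything, the coordinates are algebraically independent -/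
theorem kc_ind {σ : Type} [Fintype σ] (x : σ → F)
    (hx : dsp (Set.univ : Set (Derivation k F F)) x = ⊤) : AlgebraicIndependent k x := by
  rw [algebraicIndependent_iff]
  intro f h
  refine map_injective _ (algebraMap k F).injective ?_
  rw [map_zero]
  refine ind_der (R := k) Set.univ x hx _ (fun D _ => ?_) (by rwa [eval_map, ← aeval_def])
  ext m
  rw [coeff_cD, coeff_map, D.map_algebraMap, coeff_zero]

/-- dual derivations of an algebraically independent family -/
theorem kc_dual {τ : Type} [DecidableEq τ] {z : τ → F} (h : AlgebraicIndependent k z) (a : τ) :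
    ∃ D : Derivation k F F, ∀ b, D (z b) = if a = b then 1 else 0 := by
  obtain ⟨D, h1, h2⟩ := der_of_trans (IntermediateField.adjoin k (z '' {a}ᶜ)) (y := z a)
    (fun e => h.transcendental_adjoin (s := {a}ᶜ) (i := a) (by simp)
      (IntermediateField.isAlgebraic_adjoin_iff.1 e))
  refine ⟨D, fun b => ?_⟩
  split_ifs with e
  · rw [← e, h2]
  · exact h1 _ (IntermediateField.subset_adjoin _ _ ⟨b, Ne.symm e, rfl⟩)

/-- what is killed by all derivations that kill `z` is algebraic over `z` -/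
theorem kc_alg {τ : Type} (z : τ → F) {y : F}
    (h : ∀ D : Derivation k F F, (∀ a, D (z a) = 0) → D y = 0) :
    IsAlgebraic (Algebra.adjoin k (Set.range z)) y := by
  rw [← IntermediateField.isAlgebraic_adjoin_iff]
  by_contra e
  obtain ⟨D, h1, h2⟩ := der_of_trans _ e
  rw [h D fun a => h1 _ (IntermediateField.subset_adjoin _ _ ⟨a, rfl⟩)] at h2
  exact zero_ne_one h2

/-- independent coordinates that control all derivatives -/
theorem kc_base {σ : Type} [Fintype σ] (x : σ → F) {r : ℕ}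
    (hr : finrank F (dsp (Set.univ : Set (Derivation k F F)) x) = r) :
    ∃ ι : Fin r → σ, AlgebraicIndependent k (x ∘ ι) ∧
      ∀ D : Derivation k F F, (∀ a, D (x (ι a)) = 0) → dv D x = 0 := by
  obtain ⟨ι, l, h1, h2⟩ := ech_ex _ hr
  refine ⟨ι, kc_ind _ (eq_top_iff.2 fun v _ => ?_), fun D hD => ?_⟩
  · obtain ⟨D, hD⟩ := mem_dsp_univ.1 (show ∑ a, v a • l a ∈ _ from h2.le (Submodule.sum_mem _
      fun a _ => Submodule.smul_mem _ _ (Submodule.subset_span (Set.mem_range_self a))))
    refine mem_dsp_univ.2 ⟨D, funext fun b => ?_⟩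
    have := congrFun hD (ι b)
    simp only [Finset.sum_apply, Pi.smul_apply, h1 _ b, smul_eq_mul, mul_ite, mul_one, mul_zero,
      Finset.sum_ite_eq', Finset.mem_univ, if_true] at this
    exact this
  · rw [h1.repr (h2 ▸ mem_dsp_univ.2 ⟨D, rfl⟩ : dv D x ∈ _)]
    simp [dv, hD]

omit [CharZero k] in
/-- lift of a polynomial over the ring generated by `z` -/
theorem kc_lift {τ : Type} (z : τ → F) (q : Polynomial (Algebra.adjoin k (Set.range z))) :
    ∃ Q : Polynomial (MvPolynomial τ k), Q.map (aeval z).toRingHom = q.map (algebraMap _ F) := by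
  have : (q.map (algebraMap _ F)) ∈ Polynomial.lifts (aeval (R := k) z).toRingHom := by
    rw [Polynomial.lifts_iff_coeff_lifts]
    intro i
    rw [Polynomial.coeff_map]
    exact (Algebra.adjoin_range_eq_range_aeval k z).le (q.coeff i).2
  exact this

theorem drop {σ F' : Type} [Fintype σ] [Field F'] [Algebra k F'] (y : σ → F') (x : σ → F)
    (h : ∀ f : MvPolynomial σ k, aeval y f = 0 → aeval x f = 0) (A : Set (Derivation R F F))
    (hA : ∀ D ∈ A, ∀ c : k, D (algebraMap k F c) = 0)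
    (hr : finrank F' (dsp (Set.univ : Set (Derivation k F' F')) y) ≤ finrank F (dsp A x))
    (f : MvPolynomial σ k) (hf : aeval x f = 0) : aeval y f = 0 := by
  replace hr := hr.trans (Submodule.finrank_mono (kc_dsp_le x A hA))
  obtain ⟨ι, h1, -⟩ := kc_base (k := k) x rfl
  have h2 : AlgebraicIndependent k (y ∘ ι) := by
    rw [algebraicIndependent_iff] at h1 ⊢
    exact fun g hg => h1 g (by rw [← aeval_rename] at hg ⊢; exact h _ hg)
  choose D hD using kc_dual h2
  have e : Ech ι fun a => dv (D a) y := fun a b => hD a b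
  have h3 : Submodule.span F' (Set.range fun a => dv (D a) y) =
      dsp (Set.univ : Set (Derivation k F' F')) y := by
    refine Submodule.eq_of_le_of_finrank_le (Submodule.span_le.2 ?_) ?_
    · rintro _ ⟨a, rfl⟩
      exact mem_dsp_univ.2 ⟨_, rfl⟩
    · rwa [finrank_span_eq_card e.li, Fintype.card_fin]
  by_contra hw
  obtain ⟨q, q0, q1⟩ := (kc_alg (k := k) (y ∘ ι) (y := aeval y f) fun E hE => by
    rw [D_aeval E E.map_algebraMap, e.repr (h3 ▸ mem_dsp_univ.2 ⟨E, rfl⟩ : dv E y ∈ _)]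
    simp [dv, show ∀ a, E (y (ι a)) = 0 from hE]).exists_nonzero_coeff_and_aeval_eq_zero
      (mem_nonZeroDivisors_of_ne_zero hw)
  obtain ⟨Q, hQ⟩ := kc_lift _ q
  have key : ∀ {S : Type} [Field S] [Algebra k S] (w : σ → S),
      aeval w (Q.eval₂ (rename ι).toRingHom f) =
        (Q.map (aeval (w ∘ ι)).toRingHom).eval (aeval w f) := fun w => by
    rw [Polynomial.eval_map]
    refine (Polynomial.hom_eval₂ Q _ (aeval w).toRingHom f).trans ?_
    congr 1
    ext <;> simp
  have h4 := h _ ((key y).trans (by rw [hQ, Polynomial.eval_map_algebraMap, q1]))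
  rw [key, hf, ← Polynomial.coeff_zero_eq_eval_zero, Polynomial.coeff_map] at h4
  have h5 := congrArg (fun p => p.coeff 0) hQ
  simp only [Polynomial.coeff_map, algebraicIndependent_iff.1 h1 _ h4, map_zero] at h5
  exact q0 (Subtype.ext h5.symm)

/-- a tangent vector of the locus of `x` is a derivative of `x` -/
theorem kc_tan {σ : Type} [Fintype σ] (x v : σ → F)
    (hv : ∀ f : MvPolynomial σ k, aeval x f = 0 → gr f x ⬝ᵥ v = 0) :
    ∃ D : Derivation k F F, dv D x = v := by
  classical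
  obtain ⟨ι, h1, h2⟩ := kc_base (k := k) x rfl
  choose D hD using kc_dual h1
  refine ⟨∑ a, v (ι a) • D a, ?_⟩
  rw [← sub_eq_zero]
  set u := dv (∑ a, v (ι a) • D a) x - v with hu
  have u1 : ∀ a, u (ι a) = 0 := fun a => by
    simp [hu, dv, der_sum_apply, show ∀ a b, D a (x (ι b)) = if a = b then 1 else 0 from hD]
  have u2 : ∀ f : MvPolynomial σ k, aeval x f = 0 → gr f x ⬝ᵥ u = 0 := fun f hf => by
    rw [hu, dotProduct_sub, ← D_aeval _ (Derivation.map_algebraMap _), hf, hv f hf, map_zero,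
      sub_zero]
  have g1 : ∀ f g : MvPolynomial σ k, gr (f * g) x = aeval x f • gr g x + aeval x g • gr f x :=
    fun f g => funext fun i => by simp [gr]
  have g2 : ∀ c : MvPolynomial _ k, gr (rename ι c) x ⬝ᵥ u = 0 := fun c => by
    induction c using MvPolynomial.induction_on with
    | C a => simp [gr, dotProduct]
    | add p q hp hq =>
      have : gr (rename ι (p + q)) x = gr (rename ι p) x + gr (rename ι q) x :=
        funext fun i => by simp [gr]
      rw [this, add_dotProduct, hp, hq, add_zero]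
    | mul_X p a hp =>
      rw [map_mul, g1, add_dotProduct, smul_dotProduct, smul_dotProduct, hp, rename_X]
      simp [gr, dotProduct, Pi.single_apply, apply_ite (aeval x), u1]
  funext i
  have g3 : ∀ Q : Polynomial (MvPolynomial _ k), gr (Q.eval₂ (rename ι).toRingHom (X i)) x ⬝ᵥ u =
      (Q.map (aeval (x ∘ ι)).toRingHom).derivative.eval (x i) * u i ∧
      aeval x (Q.eval₂ (rename ι).toRingHom (X i)) =
        (Q.map (aeval (x ∘ ι)).toRingHom).eval (x i) := fun Q => by
    induction Q using Polynomial.recOnHorner with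
    | M0 => simp [gr, dotProduct]
    | MC p a _ _ hp =>
      have : ∀ f g : MvPolynomial σ k, gr (f + g) x = gr f x + gr g x :=
        fun f g => funext fun i => by simp [gr]
      rw [Polynomial.eval₂_add, Polynomial.eval₂_C, this, add_dotProduct, hp.1, map_add, hp.2]
      rw [Polynomial.map_add, Polynomial.map_C, Polynomial.derivative_add, Polynomial.derivative_C,
        add_zero, Polynomial.eval_add, Polynomial.eval_C]
      exact ⟨by rw [show gr ((rename ι).toRingHom a) x ⬝ᵥ u = 0 from g2 a, add_zero],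
        congrArg _ (aeval_rename _ _ _)⟩
    | MX p _ hp =>
      rw [Polynomial.eval₂_mul_X, g1, add_dotProduct, smul_dotProduct, smul_dotProduct, hp.1,
        map_mul, hp.2]
      simp [gr, dotProduct, Pi.single_apply, apply_ite (aeval x)]
      ring
  have : CharZero F := charZero_of_injective_algebraMap (algebraMap k F).injective
  have al := kc_alg (k := k) (x ∘ ι) (y := x i) fun E hE => congrFun (h2 E hE) i
  have ex : ∃ d, ∃ q : Polynomial (Algebra.adjoin k (Set.range (x ∘ ι))), q ≠ 0 ∧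
      Polynomial.aeval (x i) q = 0 ∧ q.natDegree = d := by
    obtain ⟨q, q0, q1⟩ := al
    exact ⟨_, q, q0, q1, rfl⟩
  obtain ⟨q, q0, q1, q2⟩ := Nat.find_spec ex
  obtain ⟨Q, hQ⟩ := kc_lift _ q
  obtain ⟨a1, a2⟩ := g3 Q
  rw [hQ, Polynomial.eval_map_algebraMap, q1] at a2
  rw [u2 _ a2, hQ, Polynomial.derivative_map, Polynomial.eval_map_algebraMap] at a1
  refine (mul_eq_zero.1 a1.symm).resolve_left fun e => ?_
  have q3 : q.natDegree ≠ 0 := fun e0 => by
    rw [Polynomial.eq_C_of_natDegree_eq_zero e0, Polynomial.aeval_C] at q1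
    rw [Polynomial.eq_C_of_natDegree_eq_zero e0, show q.coeff 0 = 0 from Subtype.ext q1] at q0
    exact q0 (map_zero _)
  exact Nat.find_min ex (q2 ▸ Polynomial.natDegree_derivative_lt q3)
    ⟨_, fun e0 => q3 (Polynomial.derivative_eq_zero.1 e0), e, rfl⟩

/-- the generic point of a prime ideal -/
theorem genpt_prime {σ : Type} [Fintype σ] (P : Ideal (MvPolynomial σ k)) [P.IsPrime] :
    ∃ (L : Type) (_ : Field L) (_ : Algebra k L) (_ : IsAlgClosed L) (x : σ → L),
      (∀ f, aeval x f = 0 ↔ f ∈ P) ∧ ∀ D : Derivation k L L, dv D x = 0 → D = 0 := by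
  let A := MvPolynomial σ k ⧸ P
  let L := AlgebraicClosure (FractionRing A)
  let φ : A →ₐ[k] L := IsScalarTower.toAlgHom k A L
  have e0 : ∀ a, φ a = algebraMap (FractionRing A) L (algebraMap A _ a) :=
    IsScalarTower.algebraMap_apply A (FractionRing A) L
  have inj : Function.Injective φ := fun a b h =>
    IsFractionRing.injective A (FractionRing A) ((algebraMap _ L).injective (by rwa [← e0, ← e0]))
  have e : ∀ f, aeval (fun i => φ (Ideal.Quotient.mk P (X i))) f = φ (Ideal.Quotient.mk P f) :=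
    fun f => by
      have : aeval (fun i => φ (Ideal.Quotient.mk P (X i))) = φ.comp (Ideal.Quotient.mkₐ k P) := by
        ext i; rw [aeval_X]; rfl
      rw [this]; rfl
  refine ⟨L, inferInstance, inferInstance, inferInstance, fun i => φ (Ideal.Quotient.mk P (X i)),
    fun f => by rw [e, map_eq_zero_iff _ inj, Ideal.Quotient.eq_zero_iff_mem], fun D hD => ?_⟩
  have h1 : ∀ a, φ a ∈ cst {D} := fun a => by
    obtain ⟨f, rfl⟩ := Ideal.Quotient.mk_surjective a
    rintro _ rfl
    rw [← e, D_aeval _ (Derivation.map_algebraMap _), hD, dotProduct_zero]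
  have h2 : ∀ a, algebraMap (FractionRing A) L a ∈ cst {D} := fun a => by
    obtain ⟨b, c, -, rfl⟩ := IsFractionRing.div_surjective (A := A) a
    rw [map_div₀, ← e0, ← e0]
    exact div_mem (h1 b) (h1 c)
  ext y
  obtain ⟨p, p0, p1⟩ := Algebra.IsAlgebraic.isAlgebraic (R := FractionRing A) y
  let ψ : FractionRing A →+* cst {D} := (algebraMap (FractionRing A) L).codRestrict _ h2
  exact der_alg D (cst {D}) (fun c hc => hc D rfl) ⟨p.map ψ,
    (Polynomial.map_ne_zero_iff ψ.injective).2 p0, by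
      rw [Polynomial.aeval_def, Polynomial.eval₂_map]; exact p1⟩

/-- the generic point, in an algebraically closed field -/
theorem genpt_ex {n : ℕ} (Z : Cone k n) : ∃ (L : Type) (_ : Field L) (_ : Algebra k L)
    (_ : IsAlgClosed L) (x : Fin n → L), (∀ f, aeval x f = 0 ↔ f ∈ Z.I) ∧
    (∀ v, Tg Z.I x v → ∃ D : Derivation k L L, dv D x = v) ∧
    ∀ D : Derivation k L L, dv D x = 0 → D = 0 := by
  have := Z.prime
  obtain ⟨L, _, _, _, x, h1, h2⟩ := genpt_prime Z.I
  exact ⟨L, _, _, ‹_›, x, h1, fun v hv => kc_tan x v fun f hf => hv f ((h1 f).1 hf), h2⟩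

theorem genPt_ex : ∃ (L : Type) (_ : Field L) (_ : Algebra ℂ L) (_ : IsAlgClosed L)
    (p : Fin 6 → L), GenPt p := by
  obtain ⟨L, _, _, _, x, h1, h2⟩ := genpt_prime (⊥ : Ideal (MvPolynomial (Fin 6) ℂ))
  refine ⟨L, _, _, ‹_›, x, fun v => kc_tan x v fun f hf => ?_, h2⟩
  rw [Ideal.mem_bot.1 ((h1 f).1 hf)]
  simp [gr, dotProduct]

theorem ht1 {σ : Type} [Fintype σ] (x : σ → F) (A : Set (Derivation R F F))
    (hA : ∀ D ∈ A, ∀ c : k, D (algebraMap k F c) = 0)
    (hr : Fintype.card σ ≤ finrank F (dsp A x) + 1) {ψ : MvPolynomial σ k} (hψ : Irreducible ψ)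
    (h0 : aeval x ψ = 0) (f : MvPolynomial σ k) (hf : aeval x f = 0) : ψ ∣ f := by
  have : (Ideal.span {ψ}).IsPrime := (Ideal.span_singleton_prime hψ.ne_zero).2 hψ.prime
  obtain ⟨L, _, _, _, y, h1, -⟩ := genpt_prime (Ideal.span {ψ})
  simp only [Ideal.mem_span_singleton] at h1
  refine (h1 f).1 (drop y x (fun g hg => ?_) A hA ?_ f hf)
  · obtain ⟨c, rfl⟩ := (h1 g).1 hg
    rw [map_mul, h0, zero_mul]
  · have := Submodule.finrank_lt (s := dsp (Set.univ : Set (Derivation k L L)) y) fun e =>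
      hψ.ne_zero (algebraicIndependent_iff.1 (kc_ind y e) ψ ((h1 ψ).2 dvd_rfl))
    rw [finrank_fintype_fun_eq_card] at this
    omega

/-- scaling by an indeterminate -/
theorem kc_cone {σ : Type} [Fintype σ] (x : σ → F) (A : Set (Derivation R F F))
    (hA : ∀ D ∈ A, ∀ c : k, D (algebraMap k F c) = 0) :
    ∃ (Ω : Type) (_ : Field Ω) (_ : Algebra k Ω) (i : F →ₐ[k] Ω) (t : Ω), t ≠ 0 ∧
      finrank F (Submodule.span F {x} ⊔ dsp A x : Submodule F (σ → F)) ≤
        finrank Ω (dsp (Set.univ : Set (Derivation k Ω Ω)) (t • (i ∘ x))) := by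
  let Ω := RatFunc F
  let i : F →ₐ[k] Ω := IsScalarTower.toAlgHom k F Ω
  have : CharZero F := charZero_of_injective_algebraMap (algebraMap k F).injective
  refine ⟨Ω, inferInstance, inferInstance, i, RatFunc.X, RatFunc.X_ne_zero, ?_⟩
  obtain ⟨D, d2⟩ := kc_dual (k := F) (z := fun _ : Unit => (RatFunc.X : Ω))
    ((algebraicIndependent_unique_type_iff).2 RatFunc.transcendental_X) ()
  replace d2 : D RatFunc.X = 1 := d2 ()
  obtain ⟨D', hD'⟩ := kc_toK (k := k) D fun c => by
    rw [IsScalarTower.algebraMap_apply k F Ω, D.map_algebraMap]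
  have m1 : i ∘ x ∈ dsp (Set.univ : Set (Derivation k Ω Ω)) ((RatFunc.X : Ω) • (i ∘ x)) :=
    mem_dsp_univ.2 ⟨D', funext fun a => by
      have : D (i (x a)) = 0 := D.map_algebraMap _
      simp [dv, hD', d2, this]⟩
  have m2 : ∀ v ∈ (Submodule.span F {x} ⊔ dsp A x : Submodule F (σ → F)),
      i ∘ v ∈ dsp (Set.univ : Set (Derivation k Ω Ω)) ((RatFunc.X : Ω) • (i ∘ x)) := by
    intro v hv
    obtain ⟨a, ha, b, hb, rfl⟩ := Submodule.mem_sup.1 hv
    obtain ⟨c, rfl⟩ := Submodule.mem_span_singleton.1 ha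
    obtain ⟨E, rfl⟩ := mem_dsp_univ.1 (kc_dsp_le x A hA hb)
    obtain ⟨E', hE⟩ := der_ext i E
    have : i ∘ (c • x + dv E x) = (i c - (RatFunc.X : Ω)⁻¹ * E' RatFunc.X) • (i ∘ x) +
        (RatFunc.X : Ω)⁻¹ • dv E' ((RatFunc.X : Ω) • (i ∘ x)) := by
      funext a
      have : (RatFunc.X : Ω) ≠ 0 := RatFunc.X_ne_zero
      simp only [dv, Function.comp_apply, Pi.add_apply, Pi.smul_apply, smul_eq_mul, map_add,
        map_mul, E'.leibniz, hE]
      linear_combination (- i (E (x a))) * inv_mul_cancel₀ this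
    rw [this]
    exact add_mem (Submodule.smul_mem _ _ m1)
      (Submodule.smul_mem _ _ (mem_dsp_univ.2 ⟨E', rfl⟩))
  obtain ⟨ι, l, h1, h2⟩ := ech_ex (Submodule.span F {x} ⊔ dsp A x : Submodule F (σ → F)) rfl
  have h3 : Ech ι fun a => i ∘ l a := fun a b => by
    simp only [Function.comp_apply, h1 a b, apply_ite i, map_one, map_zero]
  refine (Fintype.card_fin _).ge.trans ((finrank_span_eq_card h3.li).ge.trans
    (Submodule.finrank_mono (Submodule.span_le.2 ?_)))
  rintro _ ⟨a, rfl⟩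
  exact m2 _ (h2.le (Submodule.subset_span (Set.mem_range_self a)))

omit [CharZero k] in
theorem kc_aeval_comp {σ Ω : Type} [Field Ω] [Algebra k Ω] (i : F →ₐ[k] Ω) (x : σ → F)
    (f : MvPolynomial σ k) : aeval (i ∘ x) f = i (aeval x f) := by
  rw [← AlgHom.comp_apply, comp_aeval]; rfl

theorem ht1h {σ : Type} [Fintype σ] (x : σ → F) (A : Set (Derivation R F F))
    (hA : ∀ D ∈ A, ∀ c : k, D (algebraMap k F c) = 0)
    (hr : Fintype.card σ ≤ finrank F (Submodule.span F {x} ⊔ dsp A x : Submodule F (σ → F)) + 1)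
    {ψ : MvPolynomial σ k} (hψ : Irreducible ψ) {d e : ℕ} (hd : ψ.IsHomogeneous d)
    (h0 : aeval x ψ = 0) (f : MvPolynomial σ k) (he : f.IsHomogeneous e) (hf : aeval x f = 0) :
    ψ ∣ f := by
  obtain ⟨Ω, _, _, i, t, -, h⟩ := kc_cone x A hA
  exact ht1 (R := k) (t • (i ∘ x)) Set.univ (fun D _ => D.map_algebraMap) (by omega) hψ
    (by rw [aeval_smul_hom hd, kc_aeval_comp, h0, map_zero, mul_zero]) f
    (by rw [aeval_smul_hom he, kc_aeval_comp, hf, map_zero, mul_zero])

theorem kc_perp {σ : Type} [Fintype σ] (U W : Submodule F (σ → F))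
    (h : ∀ w ∈ U, ∀ v ∈ W, w ⬝ᵥ v = 0) : finrank F U + finrank F W ≤ Fintype.card σ := by
  classical
  let B : LinearMap.BilinForm F (σ → F) := dotProductBilin F F
  have hB : B.Nondegenerate := by
    refine ⟨fun v hv => ?_, fun v hv => ?_⟩ <;> ext i <;> simpa [B] using hv (Pi.single i 1)
  have h1 := Submodule.finrank_mono (show W ≤ B.orthogonal U from fun v hv w hw => h w hw v hv)
  have h2 := Submodule.finrank_le U
  rw [LinearMap.BilinForm.finrank_orthogonal hB U] at h1
  simp only [finrank_fintype_fun_eq_card] at *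
  omega

theorem gen {n : ℕ} (Z : Cone k n) {x : Fin n → F} (hx : On Z.I x) (A : Set (Derivation R F F))
    (hA : ∀ D ∈ A, ∀ c : k, D (algebraMap k F c) = 0)
    (hr : n ≤ finrank F (Submodule.span F {x} ⊔ dsp A x : Submodule F (Fin n → F)) + 2)
    (f : MvPolynomial (Fin n) k) {d : ℕ} (hd : f.IsHomogeneous d) (hf : aeval x f = 0) :
    f ∈ Z.I := by
  obtain ⟨Ω, _, _, i, t, -, h⟩ := kc_cone x A hA
  obtain ⟨L, _, _, _, y, h1, -⟩ := genpt_ex Z
  have y0 : y ≠ 0 := fun e => by
    obtain ⟨j, hj⟩ := Z.ne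
    exact hj ((h1 _).1 (by simp [e]))
  have h2 := kc_perp (Nm Z.I y) (dsp (Set.univ : Set (Derivation k L L)) y) fun w hw v hv => by
    obtain ⟨D, rfl⟩ := mem_dsp_univ.1 hv
    induction hw using Submodule.span_induction with
    | mem w hw =>
      obtain ⟨g, hg, rfl⟩ := hw
      rw [← D_aeval D D.map_algebraMap, (h1 g).2 hg, map_zero]
    | zero => exact zero_dotProduct _
    | add a b _ _ ha hb => rw [add_dotProduct, ha, hb, add_zero]
    | smul c a _ ha => rw [smul_dotProduct, ha, smul_zero]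
  rw [Z.rk L y y0 fun g hg => (h1 g).2 hg, Fintype.card_fin] at h2
  refine (h1 f).1 (drop (R := k) y (t • (i ∘ x)) (fun g hg => ?_) Set.univ
    (fun D _ => D.map_algebraMap) (by omega) f ?_)
  · exact on_smul Z (fun g hg => by rw [kc_aeval_comp, hx g hg, map_zero]) t g ((h1 g).1 hg)
  · rw [aeval_smul_hom hd, kc_aeval_comp, hf, map_zero, mul_zero]

end PV
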