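import Pool.Agent.Lib.MP_36fb43_ag.Defs
import Pool.Agent.Lib.MP_a966df_ag.Reg

/-! Regular points: the local prime, and the depth lemma for hypersurfaces. -/

open MvPolynomial Matrix Module

namespace PV

namespace KE

theorem li_pair {F σ : Type} [Field F] (v w : σ → F) :
    LinearIndependent F ![v, w] ↔ ∃ i j, v i * w j - v j * w i ≠ 0 := by
  rw [LinearIndependent.pair_iff]
  constructor
  · intro h
    by_contra hc
    push Not at hc
    have hv : v ≠ 0 := fun e => one_ne_zero (h 1 0 (by simp [e])).1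
    obtain ⟨i, hi⟩ := Function.ne_iff.1 hv
    refine hi (neg_eq_zero.1 (h (w i) (-v i) (funext fun j => ?_)).2)
    have := hc i j
    simp only [Pi.add_apply, Pi.smul_apply, smul_eq_mul, Pi.zero_apply]
    linear_combination -this
  · rintro ⟨i, j, h⟩ s t e
    have e1 := congrFun e i
    have e2 := congrFun e j
    simp only [Pi.add_apply, Pi.smul_apply, smul_eq_mul, Pi.zero_apply] at e1 e2
    exact ⟨(mul_eq_zero.1 (show s * (v i * w j - v j * w i) = 0 by
        linear_combination w j * e1 - w i * e2)).resolve_right h,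
      (mul_eq_zero.1 (show t * (v i * w j - v j * w i) = 0 by
        linear_combination v i * e2 - v j * e1)).resolve_right h⟩

section gr
variable {k F σ : Type} [CommRing k] [Field F] [Algebra k F] (x : σ → F)

theorem gr_add (f g : MvPolynomial σ k) : gr (f + g) x = gr f x + gr g x := by
  funext i; simp [gr]

theorem gr_sub (f g : MvPolynomial σ k) : gr (f - g) x = gr f x - gr g x := by
  funext i; simp [gr]

theorem gr_mul (f g : MvPolynomial σ k) :
    gr (f * g) x = aeval x f • gr g x + aeval x g • gr f x := by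
  funext i; simp [gr]

theorem gr_C (c : k) : gr (C c : MvPolynomial σ k) x = 0 := by
  funext i; simp [gr]

theorem gr_X [DecidableEq σ] (j : σ) : gr (X j : MvPolynomial σ k) x = Pi.single j 1 := by
  funext i
  by_cases h : i = j
  · subst h; simp [gr]
  · simp [gr, pderiv_X_of_ne (Ne.symm h), h]

theorem gr_pow_mul {f : MvPolynomial σ k} (hf : aeval x f = 0) (g : MvPolynomial σ k) :
    gr (g * f) x = aeval x g • gr f x := by
  rw [gr_mul, hf, zero_smul, add_zero]

end gr

/-- independence of two gradients passes to generisations -/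
theorem li_gen {k F σ : Type} [Field k] [Field F] [Algebra k F] {a b : MvPolynomial σ k}
    {q : σ → k} {y : σ → F} (h : ∀ g : MvPolynomial σ k, aeval y g = 0 → eval q g = 0)
    (hl : LinearIndependent k ![gr a q, gr b q]) : LinearIndependent F ![gr a y, gr b y] := by
  obtain ⟨i, j, hij⟩ := (li_pair _ _).1 hl
  refine (li_pair _ _).2 ⟨i, j, fun e => hij ?_⟩
  have := h (pderiv i a * pderiv j b - pderiv j a * pderiv i b) (by simpa [gr] using e)
  simpa [gr, coe_aeval_eq_eval] using this

section la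
variable {F : Type} [Field F] {n : ℕ}

/-- the pairing with two covectors -/
def pr2 (v w : Fin n → F) : (Fin n → F) →ₗ[F] F × F where
  toFun y := (v ⬝ᵥ y, w ⬝ᵥ y)
  map_add' a b := by simp [dotProduct_add]
  map_smul' c a := by simp [dotProduct_smul]

theorem ker_ge (v w : Fin n → F) : n ≤ finrank F (LinearMap.ker (pr2 v w)) + 2 := by
  have h1 := LinearMap.finrank_range_add_finrank_ker (pr2 v w)
  have h2 := Submodule.finrank_le (LinearMap.range (pr2 v w))
  simp only [finrank_fintype_fun_eq_card, Fintype.card_fin, finrank_prod, finrank_self] at h1 h2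
  omega

theorem ker_le {v w : Fin n → F} (h : LinearIndependent F ![v, w]) :
    finrank F (LinearMap.ker (pr2 v w)) + 2 ≤ n := by
  classical
  obtain ⟨i, j, hij⟩ := (li_pair _ _).1 h
  have h1 := LinearMap.finrank_range_add_finrank_ker (pr2 v w)
  have h2 : LinearMap.range (pr2 v w) = ⊤ := by
    obtain ⟨d, hd⟩ := (IsUnit.mk0 _ hij).exists_right_inv
    refine eq_top_iff.2 fun z _ => ⟨((z.1 * w j - z.2 * v j) * d) •
      Pi.single i 1 + ((z.2 * v i - z.1 * w i) * d) • Pi.single j 1, ?_⟩
    refine Prod.ext ?_ ?_ <;>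
      simp only [pr2, LinearMap.coe_mk, AddHom.coe_mk, dotProduct_add, dotProduct_smul,
        dotProduct_single, smul_eq_mul, mul_one]
    · linear_combination z.1 * hd
    · linear_combination z.2 * hd
  rw [h2] at h1
  simp only [finrank_top, finrank_fintype_fun_eq_card, Fintype.card_fin, finrank_prod,
    finrank_self] at h1
  omega

theorem ex_pair (W : Submodule F (Fin n → F)) (h : finrank F W = 2) :
    ∃ v w, v ∈ W ∧ w ∈ W ∧ LinearIndependent F ![v, w] ∧ W = Submodule.span F {v, w} := by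
  let b := finBasisOfFinrankEq F W h
  have e : ![(b 0 : Fin n → F), b 1] = W.subtype ∘ b := by
    funext i; fin_cases i <;> rfl
  refine ⟨b 0, b 1, (b 0).2, (b 1).2, ?_, ?_⟩
  · rw [e]; exact b.linearIndependent.map' _ (Submodule.ker_subtype W)
  · have := congrArg (Submodule.map W.subtype) b.span_eq
    rw [Submodule.map_span, Submodule.map_top, Submodule.range_subtype, ← Set.range_comp, ← e] at this
    refine this.symm.trans ?_
    simp [Matrix.range_cons, Set.pair_comm]

end la

/-- the tangent space of a cone at a nonzero point has codimension at most two -/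
theorem tg_ge {k F : Type} [Field k] [Field F] [Algebra k F] {n : ℕ}
    {I : Ideal (MvPolynomial (Fin n) k)} {x : Fin n → F} (h : finrank F (Nm I x) = 2) :
    ∃ T : Submodule F (Fin n → F), n ≤ finrank F T + 2 ∧ ∀ v ∈ T, Tg I x v := by
  obtain ⟨v, w, -, -, -, e⟩ := ex_pair _ h
  refine ⟨_, ker_ge v w, fun y hy f hf => ?_⟩
  have h1 : gr f x ∈ Nm I x := Submodule.subset_span ⟨f, hf, rfl⟩
  rw [e] at h1
  obtain ⟨a, b, e1⟩ := Submodule.mem_span_pair.1 h1
  have h2 : (v ⬝ᵥ y, w ⬝ᵥ y) = 0 := hy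
  rw [Prod.mk_eq_zero] at h2
  rw [← e1, add_dotProduct, smul_dotProduct, smul_dotProduct, h2.1, h2.2]
  simp

section sub
variable {k σ : Type} [CommRing k]

theorem sub_aeval_mem (s : σ → MvPolynomial σ k) (J : Ideal (MvPolynomial σ k))
    (h : ∀ i, X i - s i ∈ J) (g : MvPolynomial σ k) : g - aeval s g ∈ J := by
  induction g using MvPolynomial.induction_on with
  | C a => simp
  | add p q hp hq =>
    have := J.add_mem hp hq
    rw [map_add]; convert this using 1; ring
  | mul_X p i hp =>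
    have := J.add_mem (J.mul_mem_right (X i) hp) (J.mul_mem_left (aeval s p) (h i))
    rw [map_mul, aeval_X]; convert this using 1; ring

theorem prime_of_sub [IsDomain k] (s : σ → MvPolynomial σ k) (J : Ideal (MvPolynomial σ k))
    (h : ∀ i, X i - s i ∈ J) (h2 : ∀ g ∈ J, aeval s g = 0) : J.IsPrime := by
  have : J = RingHom.ker (aeval s : MvPolynomial σ k →ₐ[k] MvPolynomial σ k) := by
    ext g
    refine ⟨h2 g, fun hg => ?_⟩
    have := sub_aeval_mem s J h g
    rwa [show aeval s g = 0 from hg, sub_zero] at this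
  rw [this]
  exact RingHom.ker_isPrime _

end sub

section reg
variable {k : Type} [Field k] {n : ℕ} (x0 : Fin n → k)

theorem taylor (g : MvPolynomial (Fin n) k) :
    g - C (eval x0 g) - ∑ i, C (gr g x0 i) * (X i - C (x0 i)) ∈
      RingHom.ker (eval x0) * RingHom.ker (eval x0) := by
  have hy : ∀ i, (X i - C (x0 i) : MvPolynomial (Fin n) k) ∈ RingHom.ker (eval x0) := fun i => by
    simp [RingHom.mem_ker]
  induction g using MvPolynomial.induction_on with
  | C a => simp [gr_C]
  | add p q hp hq =>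
    have := Ideal.add_mem _ hp hq
    convert this using 1
    simp only [gr_add, map_add, Pi.add_apply, add_mul, Finset.sum_add_distrib]; ring
  | mul_X p j hp =>
    have h1 : ∑ i, C (gr p x0 i) * (X i - C (x0 i)) ∈ RingHom.ker (eval x0) :=
      Ideal.sum_mem _ fun i _ => Ideal.mul_mem_left _ _ (hy i)
    have := Ideal.add_mem _ (Ideal.mul_mem_right (X j) _ hp) (Ideal.mul_mem_mul h1 (hy j))
    convert this using 1
    have e : ∑ i, C (gr (p * X j) x0 i) * (X i - C (x0 i) : MvPolynomial (Fin n) k) =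
        C (eval x0 p) * (X j - C (x0 j)) + C (x0 j) * ∑ i, C (gr p x0 i) * (X i - C (x0 i)) := by
      rw [gr_mul, gr_X, Finset.mul_sum, aeval_X]
      simp only [Pi.add_apply, Pi.smul_apply, smul_eq_mul, map_add, map_mul, add_mul,
        Finset.sum_add_distrib, mul_assoc]
      congr 1
      rw [Finset.sum_eq_single j (fun i _ hi => by simp [hi]) (by simp)]
      simp
    rw [e, map_mul, eval_X, map_mul]; ring

theorem le_height : (n : ℕ∞) ≤ (RingHom.ker (eval x0 : MvPolynomial (Fin n) k →+* k)).height := by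
  let s : ℕ → Fin n → MvPolynomial (Fin n) k := fun m j => if j.1 < m then C (x0 j) else X j
  let P : ℕ → Ideal (MvPolynomial (Fin n) k) := fun m =>
    RingHom.ker (aeval (s m) : MvPolynomial (Fin n) k →ₐ[k] MvPolynomial (Fin n) k)
  have hP : ∀ m, (P m).IsPrime := fun m => RingHom.ker_isPrime _
  have hle : ∀ m, P m ≤ P (m + 1) := fun m g hg => by
    have e : (aeval (s (m + 1))).comp (aeval (s m)) =
        (aeval (s (m + 1)) : MvPolynomial (Fin n) k →ₐ[k] MvPolynomial (Fin n) k) := by
      ext1 j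
      by_cases h : j.1 < m
      · simp [s, h, h.le]
      · simp [s, h]
    have := DFunLike.congr_fun e g
    rw [AlgHom.comp_apply, show aeval (s m) g = 0 from hg, map_zero] at this
    exact this.symm
  have h1 : ∀ m ≤ n, (m : ℕ∞) ≤ (P m).height := by
    intro m
    induction m with
    | zero => simp
    | succ m ih =>
      intro hm
      have := hP m
      have := hP (m + 1)
      have hlt : P m < P (m + 1) := by
        refine lt_of_le_of_ne (hle m) fun e => ?_
        have h2 : (X ⟨m, hm⟩ - C (x0 ⟨m, hm⟩) : MvPolynomial (Fin n) k) ∈ P (m + 1) := by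
          simp [P, s, RingHom.mem_ker]
        rw [← e] at h2
        have h3 : (X ⟨m, hm⟩ - C (x0 ⟨m, hm⟩) : MvPolynomial (Fin n) k) = 0 := by
          simpa [P, s, RingHom.mem_ker] using h2
        have := congrArg (eval fun _ => x0 ⟨m, hm⟩ + 1) h3
        simp at this
      push_cast
      exact (add_le_add (ih (by omega)) le_rfl).trans (Ideal.height_add_one_le_of_lt_of_isPrime hlt)
  refine (h1 n le_rfl).trans (Ideal.height_mono fun g hg => ?_)
  have e : (aeval x0).comp (aeval (s n)) = (aeval x0 : MvPolynomial (Fin n) k →ₐ[k] k) := by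
    ext1 j; simp [s]
  have := DFunLike.congr_fun e g
  rw [AlgHom.comp_apply, show aeval (s n) g = 0 from hg, map_zero] at this
  exact this.symm

theorem gens {r : ℕ} (f : Fin r → MvPolynomial (Fin n) k) (h0 : ∀ a, eval x0 (f a) = 0)
    (hl : LinearIndependent k fun a => gr (f a) x0) :
    ∃ (m : ℕ) (l : Fin m → MvPolynomial (Fin n) k) (e : MvPolynomial (Fin n) k), r + m = n ∧
      (∀ b, eval x0 (l b) = 0) ∧ eval x0 e = 1 ∧ ∀ g, eval x0 g = 0 →
        e * g ∈ Ideal.span (Set.range f) ⊔ Ideal.span (Set.range l) := by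
  obtain ⟨W, hW⟩ := (Submodule.span k (Set.range fun a => gr (f a) x0)).exists_isCompl
  have hd := Submodule.finrank_add_eq_of_isCompl hW
  rw [finrank_span_eq_card hl, Fintype.card_fin, finrank_fintype_fun_eq_card,
    Fintype.card_fin] at hd
  let b := finBasis k W
  let T : (Fin n → k) →ₗ[k] MvPolynomial (Fin n) k :=
    { toFun := fun v => ∑ i, C (v i) * (X i - C (x0 i))
      map_add' := fun v w => by simp [add_mul, Finset.sum_add_distrib]
      map_smul' := fun c v => by simp [Finset.mul_sum, smul_eq_C_mul, mul_assoc] }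
  set 𝔪 := RingHom.ker (eval x0 : MvPolynomial (Fin n) k →+* k) with h𝔪
  set N := Ideal.span (Set.range f) ⊔ Ideal.span (Set.range fun j => T (b j)) with hN
  have hT : ∀ v, T v ∈ N ⊔ 𝔪 * 𝔪 := fun v => by
    have hv : v ∈ Submodule.span k (Set.range fun a => gr (f a) x0) ⊔ W := by
      rw [hW.sup_eq_top]; trivial
    have : Submodule.span k (Set.range fun a => gr (f a) x0) ⊔ W ≤
        ((N ⊔ 𝔪 * 𝔪).restrictScalars k).comap T := by
      refine sup_le (Submodule.span_le.2 ?_) fun w hw => ?_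
      · rintro _ ⟨a, rfl⟩
        have h1 := taylor x0 (f a)
        rw [h0, map_zero, sub_zero] at h1
        have h2 : f a ∈ N := Ideal.mem_sup_left (Ideal.subset_span ⟨a, rfl⟩)
        have := Ideal.sub_mem (N ⊔ 𝔪 * 𝔪) (Ideal.mem_sup_left h2) (Ideal.mem_sup_right h1)
        rw [sub_sub_cancel] at this
        exact this
      · have e := congrArg (fun y : W => T y) (b.sum_repr ⟨w, hw⟩)
        simp only [Submodule.coe_sum, Submodule.coe_smul, map_sum, map_smul] at e
        show T w ∈ N ⊔ 𝔪 * 𝔪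
        rw [← e]
        refine Ideal.mem_sup_left (Ideal.sum_mem _ fun j _ => ?_)
        rw [smul_eq_C_mul]
        exact Ideal.mul_mem_left _ _ (Ideal.mem_sup_right (Ideal.subset_span ⟨j, rfl⟩))
    exact this hv
  obtain ⟨e, he, hle⟩ := Submodule.exists_sub_one_mem_and_smul_le_of_fg_of_le_sup (I := 𝔪)
    (N := N) (N' := 𝔪) (P := 𝔪) (IsNoetherian.noetherian _) le_rfl (fun g hg => by
      have h1 := taylor x0 g
      rw [show eval x0 g = 0 from hg, map_zero, sub_zero] at h1
      have := Ideal.add_mem (N ⊔ 𝔪 * 𝔪) (Ideal.mem_sup_right h1) (hT (gr g x0))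
      rw [show T (gr g x0) = ∑ i, C (gr g x0 i) * (X i - C (x0 i)) from rfl, sub_add_cancel] at this
      exact this)
  refine ⟨_, fun j => T (b j), e, hd, fun j => by simp [T], ?_, fun g hg =>
    hle (Submodule.smul_mem_pointwise_smul g e 𝔪 hg)⟩
  have : eval x0 (e - 1) = 0 := he
  rwa [map_sub, map_one, sub_eq_zero] at this

end reg

end KE

theorem reg_prime {k : Type} [Field k] {n r : ℕ} (x0 : Fin n → k)
    (f : Fin r → MvPolynomial (Fin n) k)
    (h0 : ∀ a, eval x0 (f a) = 0) (hl : LinearIndependent k fun a => gr (f a) x0) :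
    ∃ P : Ideal (MvPolynomial (Fin n) k), P.IsPrime ∧
      ∀ g, g ∈ P ↔ ∃ e, eval x0 e ≠ 0 ∧ e * g ∈ Ideal.span (Set.range f) := by
  classical
  obtain ⟨m, l, e, hm, hl0, he, hg⟩ := KE.gens x0 f h0 hl
  set 𝔪 := RingHom.ker (eval x0 : MvPolynomial (Fin n) k →+* k) with h𝔪
  have : 𝔪.IsPrime := RingHom.ker_isPrime _
  let R := Localization.AtPrime 𝔪
  let J : Ideal R := (Ideal.span (Set.range f)).map (algebraMap _ R)
  have hmax : 𝔪.map (algebraMap _ R) = IsLocalRing.maximalIdeal R :=
    Localization.AtPrime.map_eq_maximalIdeal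
  have hle : J ≤ IsLocalRing.maximalIdeal R := by
    rw [← hmax]
    exact Ideal.map_mono (Ideal.span_le.2 (by rintro _ ⟨a, rfl⟩; exact h0 a))
  have hne : J ≠ ⊤ := fun h => (IsLocalRing.maximalIdeal.isMaximal R).ne_top (top_le_iff.1 (h ▸ hle))
  have := Ideal.Quotient.nontrivial_iff.mpr hne
  have hloc : IsLocalRing (R ⧸ J) :=
    IsLocalRing.of_surjective' (Ideal.Quotient.mk _) Ideal.Quotient.mk_surjective
  let π : MvPolynomial (Fin n) k →+* R ⧸ J := (Ideal.Quotient.mk J).comp (algebraMap _ R)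
  have hm2 : 𝔪.map π = IsLocalRing.maximalIdeal (R ⧸ J) := by
    rw [← Ideal.map_map, hmax]
    exact IsLocalRing.map_maximalIdeal_of_surjective _ Ideal.Quotient.mk_surjective
  have hu : IsUnit (π e) := (IsLocalization.map_units R
    (⟨e, fun h => one_ne_zero (he.symm.trans h)⟩ : 𝔪.primeCompl)).map (Ideal.Quotient.mk J)
  have hgen : Ideal.ofList (List.ofFn fun b => π (l b)) = IsLocalRing.maximalIdeal (R ⧸ J) := by
    rw [← hm2, Ideal.ofList]
    refine le_antisymm (Ideal.span_le.2 fun z hz => ?_) (Ideal.map_le_iff_le_comap.2 fun g hg' => ?_)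
    · obtain ⟨b, rfl⟩ := (List.mem_ofFn' _ _).1 hz
      exact Ideal.mem_map_of_mem _ (hl0 b)
    · obtain ⟨a, ha, b, hb, e1⟩ := Submodule.mem_sup.1 (hg g hg')
      have h1 : π a = 0 := Ideal.Quotient.eq_zero_iff_mem.2 (Ideal.mem_map_of_mem _ ha)
      have h2 := Ideal.mem_map_of_mem π hb
      rw [Ideal.map_span] at h2
      refine Ideal.mem_comap.2 ((Ideal.unit_mul_mem_iff_mem _ hu).1 ?_)
      rw [← map_mul, ← e1, map_add, h1, zero_add]
      refine Ideal.span_mono ?_ h2
      rintro _ ⟨_, ⟨b, rfl⟩, rfl⟩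
      exact (List.mem_ofFn' _ _).2 ⟨b, rfl⟩
  have hdim : (m : WithBot ℕ∞) ≤ ringKrullDim (R ⧸ J) := by
    have h1 := ringKrullDim_le_ringKrullDim_quotient_add_spanFinrank J
      (hle.trans (by rw [← Ideal.jacobson_bot]; exact IsLocalRing.maximalIdeal_le_jacobson _))
    have h2 : J.spanFinrank ≤ r := by
      simp only [J]
      rw [Ideal.map_span, ← Set.range_comp]
      refine (Submodule.spanFinrank_span_le_ncard_of_finite (Set.finite_range _)).trans ?_
      rw [← Set.image_univ]
      exact (Set.ncard_image_le Set.finite_univ).trans (by simp [Set.ncard_univ])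
    rw [IsLocalization.AtPrime.ringKrullDim_eq_height 𝔪 R] at h1
    have h3 : ((m + r : ℕ) : WithBot ℕ∞) ≤ ringKrullDim (R ⧸ J) + (r : ℕ) := by
      rw [add_comm m, hm]
      refine le_trans ?_ (h1.trans (add_le_add le_rfl (by exact_mod_cast h2)))
      exact WithBot.coe_le_coe.2 (KE.le_height x0)
    push_cast at h3
    exact ENat.WithBot.add_le_add_natCast_right_iff.1 h3
  have hdom := (Pool.Agent.Lib.MP_a966df_ag.reg_aux m (R ⧸ J) _ List.length_ofFn hgen hdim).1
  have : J.IsPrime := (Ideal.Quotient.isDomain_iff_prime _).1 hdom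
  exact ⟨J.comap (algebraMap _ R), inferInstance, fun g =>
    IsLocalization.algebraMap_mem_map_algebraMap_iff 𝔪.primeCompl R _ g⟩

namespace KE

theorem depth {R ι : Type} [CommRing R] [Fintype ι] (x G : ι → R) (N : ℕ)
    (h : ∀ i j, x j ^ N * G i = x i ^ N * G j) {y z : R} (hy : y ∈ Ideal.span (Set.range x))
    (hz : z ∈ Ideal.span (Set.range x)) (h1 : ∀ a, y * a = 0 → a = 0)
    (h2 : ∀ a, y ∣ z * a → y ∣ a) : ∃ A, ∀ i, x i ^ N * A = G i := by
  have key : ∀ w ∈ Ideal.span (Set.range x), ∃ (M : ℕ) (c : ι → R), ∑ i, c i * x i ^ N = w ^ M := by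
    intro w hw
    have : Ideal.span (Set.range x) ≤ (Ideal.span (Set.range fun i => x i ^ N)).radical :=
      Ideal.span_le.2 (by rintro _ ⟨i, rfl⟩; exact ⟨N, Ideal.subset_span ⟨i, rfl⟩⟩)
    obtain ⟨M, hM⟩ := this hw
    exact ⟨M, Ideal.mem_span_range_iff_exists_fun.1 hM⟩
  obtain ⟨M, a, ha⟩ := key y hy
  obtain ⟨K, b, hb⟩ := key z hz
  have e1 : ∀ j, x j ^ N * ∑ i, a i * G i = y ^ M * G j := fun j => by
    rw [← ha, Finset.mul_sum, Finset.sum_mul]
    exact Finset.sum_congr rfl fun i _ => by linear_combination a i * h i j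
  have e2 : z ^ K * ∑ i, a i * G i = y ^ M * ∑ j, b j * G j := by
    rw [← hb, Finset.sum_mul, Finset.mul_sum]
    exact Finset.sum_congr rfl fun j _ => by linear_combination b j * e1 j
  have p1 : ∀ (M : ℕ) a, y ^ M * a = 0 → a = 0 := fun M => by
    induction M with
    | zero => simp
    | succ M ih => exact fun a e => ih a (h1 _ (by linear_combination e))
  have p2 : ∀ (K : ℕ) a, y ∣ z ^ K * a → y ∣ a := fun K => by
    induction K with
    | zero => simp
    | succ K ih => exact fun a e => ih a (h2 _ (by rwa [← mul_assoc, ← pow_succ']))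
  have p3 : ∀ (M : ℕ) a, y ^ M ∣ z ^ K * a → y ^ M ∣ a := fun M => by
    induction M with
    | zero => simp
    | succ M ih =>
      rintro a ⟨c, e⟩
      obtain ⟨a', rfl⟩ := p2 K a ⟨y ^ M * c, by linear_combination e⟩
      rw [pow_succ']
      exact mul_dvd_mul_left y (ih a' ⟨c, sub_eq_zero.1 (h1 _ (by linear_combination e))⟩)
  obtain ⟨A, hA⟩ := p3 M _ ⟨_, e2⟩
  exact ⟨A, fun i => sub_eq_zero.1 (p1 M _ (by linear_combination e1 i - x i ^ N * hA))⟩

end KE

theorem hyp {k : Type} [Field k] [CharZero k] {n : ℕ} (hn : 3 ≤ n) {φ : MvPolynomial (Fin n) k}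
    (hφ : Irreducible φ) (N : ℕ)
    (G : Fin n → MvPolynomial (Fin n) k) (h : ∀ i j, φ ∣ X j ^ N * G i - X i ^ N * G j) :
    ∃ A, ∀ i, φ ∣ X i ^ N * A - G i := by
  classical
  obtain ⟨m, rfl⟩ : ∃ m, n = m + 3 := ⟨n - 3, by omega⟩
  have : Infinite k := Infinite.of_injective _ Nat.cast_injective
  obtain ⟨v, hv⟩ : ∃ v : Fin (m + 3) → k, eval v (φ * X 0) ≠ 0 := by
    by_contra hc
    push Not at hc
    exact mul_ne_zero hφ.ne_zero (X_ne_zero 0) (MvPolynomial.funext (q := 0) (by simpa using hc))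
  rw [map_mul, eval_X, mul_ne_zero_iff] at hv
  set y : MvPolynomial (Fin (m + 3)) k := X 1 - C (v 1 / v 0) * X 0 with hy
  set z : MvPolynomial (Fin (m + 3)) k := X 2 - C (v 2 / v 0) * X 0 with hz
  have n01 : (0 : Fin (m + 3)) ≠ 1 := Fin.zero_ne_one
  have n02 : (0 : Fin (m + 3)) ≠ 2 := fun e => by
    have : (0 : ℕ) = 2 := congrArg Fin.val e
    omega
  have n12 : (1 : Fin (m + 3)) ≠ 2 := fun e => by
    have : (1 : ℕ) = 2 := congrArg Fin.val e
    omega
  have py : (Ideal.span {y}).IsPrime := by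
    refine KE.prime_of_sub (fun i => if i = 1 then C (v 1 / v 0) * X 0 else X i) _ (fun i => ?_)
      fun g hg => ?_
    · split_ifs with e
      · subst e; exact Ideal.subset_span rfl
      · simp
    · obtain ⟨c, rfl⟩ := Ideal.mem_span_singleton.1 hg
      simp [hy, n01]
  have pyz : (Ideal.span {y, z}).IsPrime := by
    refine KE.prime_of_sub (fun i => if i = 1 then C (v 1 / v 0) * X 0 else
      if i = 2 then C (v 2 / v 0) * X 0 else X i) _ (fun i => ?_) fun g hg => ?_
    · split_ifs with e e'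
      · subst e; exact Ideal.subset_span (by simp [hy])
      · subst e'; exact Ideal.subset_span (by simp [hz])
      · simp
    · obtain ⟨c, d, rfl⟩ := Ideal.mem_span_pair.1 hg
      simp [hy, hz, n01, n02, n12.symm]
  have ey : eval v y = 0 := by simp [hy, hv.2]
  have ez : eval v z = 0 := by simp [hz, hv.2]
  have hφn : φ ∉ Ideal.span {y, z} := fun hc => by
    obtain ⟨c, d, e⟩ := Ideal.mem_span_pair.1 hc
    exact hv.1 (by rw [← e]; simp [ey, ez])
  have y0 : y ≠ 0 := fun e => by
    have := congrArg (eval (Pi.single 1 1)) e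
    simp [hy, n01] at this
  have pr : Prime y := (Ideal.span_singleton_prime y0).1 py
  have yz : ¬ y ∣ z := by
    rintro ⟨c, e⟩
    have := congrArg (eval (Pi.single 2 1)) e
    simp [hy, hz, n02, n12] at this
  have φy : ¬ φ ∣ y := fun hc => hφn (by
    obtain ⟨c, e⟩ := (hφ.associated_of_dvd pr.irreducible hc).symm.dvd
    exact Ideal.mem_span_pair.2 ⟨c, 0, by rw [e]; ring⟩)
  let π := Ideal.Quotient.mk (Ideal.span {φ})
  have hπ : ∀ a, π a = 0 ↔ φ ∣ a := fun a =>
    Ideal.Quotient.eq_zero_iff_mem.trans Ideal.mem_span_singleton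
  have hX : ∀ i, π (X i) ∈ Ideal.span (Set.range fun i => π (X i)) := fun i =>
    Ideal.subset_span ⟨i, rfl⟩
  obtain ⟨A, hA⟩ := KE.depth (fun i => π (X i)) (fun i => π (G i)) N
    (fun i j => sub_eq_zero.1 (by simpa using (hπ _).2 (h i j))) (y := π y) (z := π z)
    (by rw [hy, map_sub, map_mul]; exact Ideal.sub_mem _ (hX 1) (Ideal.mul_mem_left _ _ (hX 0)))
    (by rw [hz, map_sub, map_mul]; exact Ideal.sub_mem _ (hX 2) (Ideal.mul_mem_left _ _ (hX 0)))
    (fun a ha => by
      obtain ⟨a, rfl⟩ := Ideal.Quotient.mk_surjective a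
      exact (hπ a).2 ((hφ.prime.dvd_or_dvd ((hπ _).1 (by rwa [map_mul]))).resolve_left φy))
    (fun a ha => by
      obtain ⟨a, rfl⟩ := Ideal.Quotient.mk_surjective a
      obtain ⟨b, hb⟩ := ha
      obtain ⟨b, rfl⟩ := Ideal.Quotient.mk_surjective b
      obtain ⟨c, hc⟩ := (hπ (z * a - y * b)).1 (by rw [map_sub, map_mul, map_mul, hb, sub_self])
      have h1 : φ * c ∈ Ideal.span {y, z} := Ideal.mem_span_pair.2 ⟨-b, a, by rw [← hc]; ring⟩
      obtain ⟨c1, c2, e⟩ := Ideal.mem_span_pair.1 ((pyz.mem_or_mem h1).resolve_left hφn)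
      obtain ⟨a1, e1⟩ := (pr.dvd_or_dvd (show y ∣ z * (a - φ * c2) from
        ⟨b + φ * c1, by rw [← e] at hc; linear_combination hc⟩)).resolve_left yz
      exact ⟨π a1, sub_eq_zero.1 (by
        rw [← map_mul, ← map_sub]; exact (hπ _).2 ⟨c2, by linear_combination e1⟩)⟩)
  obtain ⟨A, rfl⟩ := Ideal.Quotient.mk_surjective A
  exact ⟨A, fun i => (hπ _).1 (by rw [map_sub, map_mul, map_pow]; exact sub_eq_zero.2 (hA i))⟩

end PV
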