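import Pool.Agent.Lib.MP_36fb43_ag.KC
import Pool.Agent.Lib.MP_36fb43_ag.KEA

/-! Local complete intersection, degenerate cones. -/

open MvPolynomial Matrix Module

namespace PV

variable {k F R : Type} [Field k] [CharZero k] [Field R] [Field F] [Algebra k F] [Algebra R F]

namespace KE

omit [CharZero k] in
/-- the generic point of a prime ideal -/
theorem gen_prime {σ : Type} (P : Ideal (MvPolynomial σ k)) (hP : P.IsPrime) :
    ∃ (L : Type) (_ : Field L) (_ : Algebra k L) (y : σ → L), ∀ f, aeval y f = 0 ↔ f ∈ P := by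
  refine ⟨FractionRing (MvPolynomial σ k ⧸ P), inferInstance, inferInstance, fun i =>
    algebraMap (MvPolynomial σ k ⧸ P) _ (Ideal.Quotient.mk P (X i)), fun f => ?_⟩
  have e : (aeval fun i => algebraMap (MvPolynomial σ k ⧸ P) (FractionRing (MvPolynomial σ k ⧸ P))
      (Ideal.Quotient.mk P (X i))) = (IsScalarTower.toAlgHom k (MvPolynomial σ k ⧸ P) _).comp
      (Ideal.Quotient.mkₐ k P) := by
    ext i; simp
  rw [e]
  simp [Ideal.Quotient.eq_zero_iff_mem]

omit [CharZero k] in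
theorem ne_zero_of_gen {n : ℕ} (Z : Cone k n) {x : Fin n → F}
    (hx : ∀ f, aeval x f = 0 ↔ f ∈ Z.I) : x ≠ 0 := by
  obtain ⟨i, hi⟩ := Z.ne
  exact fun e => hi ((hx _).1 (by simp [e]))

/-- the ideal of a projection with injective differential is principal -/
theorem prin {m : ℕ} (Z : Cone k (m + 1)) (e : Fin m → Fin (m + 1))
    (hT : ∀ (L : Type) [Field L] [Algebra k L] (x : Fin (m + 1) → L),
      (∀ f, aeval x f = 0 ↔ f ∈ Z.I) → ∀ v, Tg Z.I x v → v ∘ e = 0 → v = 0)
    (hJ : ∃ g, g ≠ 0 ∧ rename e g ∈ Z.I) :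
    ∃ φ, Irreducible φ ∧ ∀ g, rename e g ∈ Z.I ↔ φ ∣ g := by
  obtain ⟨L, _, _, _, x, h1, h2, -⟩ := genpt_ex Z
  have hP := Z.prime
  obtain ⟨φ, hφ, hm⟩ : ∃ φ, Irreducible φ ∧ rename e φ ∈ Z.I := by
    obtain ⟨g, g0, hg⟩ := hJ
    induction g using WfDvdMonoid.induction_on_irreducible with
    | zero => exact absurd rfl g0
    | unit u hu => exact absurd (Ideal.eq_top_of_isUnit_mem _ hg (hu.map _)) hP.ne_top
    | mul a i ha hi ih =>
      rw [map_mul] at hg
      exact (hP.mem_or_mem hg).elim (fun h => ⟨i, hi, h⟩) (ih ha)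
  have ev : ∀ g : MvPolynomial (Fin m) k, aeval (x ∘ e) g = 0 ↔ rename e g ∈ Z.I := fun g => by
    rw [← h1, aeval_rename]
  refine ⟨φ, hφ, fun g => ⟨fun hg => ?_, ?_⟩⟩
  · refine ht1 (x ∘ e) (Set.univ : Set (Derivation k L L)) (fun D _ c => D.map_algebraMap c) ?_ hφ
      ((ev _).2 hm) g ((ev _).2 hg)
    obtain ⟨T, t1, t2⟩ := tg_ge (Z.rk L x (ne_zero_of_gen Z h1) fun f hf => (h1 f).2 hf)
    let π : T →ₗ[L] dsp (Set.univ : Set (Derivation k L L)) (x ∘ e) :=
      LinearMap.codRestrict _ ((LinearMap.funLeft L L e).comp T.subtype) fun v => by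
        obtain ⟨D, hD⟩ := h2 v (t2 v v.2)
        exact Submodule.subset_span ⟨D, trivial, funext fun i => (congrFun hD (e i)).symm⟩
    have := LinearMap.finrank_le_finrank_of_injective (f := π)
      ((injective_iff_map_eq_zero π).2 fun v hv =>
        Subtype.ext (hT L x h1 v (t2 v v.2) (congrArg Subtype.val hv)))
    rw [Fintype.card_fin]
    omega
  · rintro ⟨c, rfl⟩
    rw [map_mul]
    exact Ideal.mul_mem_right _ _ hm

end KE

theorem lci {n : ℕ} (Z : Cone k n) {x0 : Fin n → k} (hx : On Z.I x0) {f1 f2} (h1 : f1 ∈ Z.I)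
    (h2 : f2 ∈ Z.I) (hl : LinearIndependent k ![gr f1 x0, gr f2 x0]) :
    ∃ e, eval x0 e ≠ 0 ∧ ∀ f ∈ Z.I, e * f ∈ Ideal.span {f1, f2} := by
  classical
  have hx' : ∀ f ∈ Z.I, eval x0 f = 0 := fun f hf => by simpa [coe_aeval_eq_eval] using hx f hf
  have hr : Set.range ![f1, f2] = {f1, f2} := by simp [Matrix.range_cons, Set.pair_comm]
  obtain ⟨P, hP, hm⟩ := reg_prime x0 ![f1, f2]
    (fun a => by fin_cases a; exacts [hx' _ h1, hx' _ h2])
    (by convert hl using 1; funext a; fin_cases a <;> rfl)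
  rw [hr] at hm
  have hs : Ideal.span {f1, f2} ≤ Z.I := Ideal.span_le.2 (by rintro _ (rfl | rfl) <;> assumption)
  have hPI : P ≤ Z.I := fun g hg => by
    obtain ⟨e, e0, he⟩ := (hm g).1 hg
    exact (Z.prime.mem_or_mem (hs he)).resolve_left fun h => e0 (hx' e h)
  obtain ⟨L', _, _, y, hy⟩ := KE.gen_prime P hP
  obtain ⟨L, _, _, _, x, g1, g2, -⟩ := genpt_ex Z
  have hIP : Z.I ≤ P := fun f hf => by
    refine (hy f).1 (drop y x (fun g hg => (g1 g).2 (hPI ((hy g).1 hg)))
      (Set.univ : Set (Derivation k L L)) (fun D _ c => D.map_algebraMap c) ?_ f ((g1 f).2 hf))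
    obtain ⟨T, t1, t2⟩ := KE.tg_ge (Z.rk L x (KE.ne_zero_of_gen Z g1) fun f hf => (g1 f).2 hf)
    have a1 : T ≤ dsp (Set.univ : Set (Derivation k L L)) x := fun v hv => by
      obtain ⟨D, hD⟩ := g2 v (t2 v hv)
      exact Submodule.subset_span ⟨D, trivial, hD.symm⟩
    have a2 := KE.ker_le (KE.li_gen (y := y) (fun g hg => hx' g (hPI ((hy g).1 hg))) hl)
    have a3 : dsp (Set.univ : Set (Derivation k L' L')) y ≤
        LinearMap.ker (KE.pr2 (gr f1 y) (gr f2 y)) := by
      refine Submodule.span_le.2 ?_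
      rintro _ ⟨D, -, rfl⟩
      have z : ∀ f ∈ Ideal.span {f1, f2}, gr f y ⬝ᵥ dv D y = 0 := fun f hf => by
        rw [← D_aeval D (fun c => D.map_algebraMap c), (hy f).2 ((hm f).2 ⟨1, by simp, by simpa⟩),
          map_zero]
      exact Prod.ext (z f1 (Ideal.subset_span (by simp))) (z f2 (Ideal.subset_span (by simp)))
    have := Submodule.finrank_mono a1
    have := Submodule.finrank_mono a3
    omega
  obtain ⟨s, hs'⟩ := IsNoetherian.noetherian Z.I
  choose! e he using fun g (hg : g ∈ s) =>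
    (hm g).1 (hIP (hs' ▸ Submodule.subset_span hg : g ∈ Z.I))
  refine ⟨∏ g ∈ s, e g, ?_, fun f hf => ?_⟩
  · rw [map_prod]; exact Finset.prod_ne_zero_iff.2 fun g hg => (he g hg).1
  · rw [← hs'] at hf
    induction hf using Submodule.span_induction with
    | mem g hg =>
      rw [← Finset.prod_erase_mul s e hg, mul_assoc]
      exact Ideal.mul_mem_left _ _ (he g hg).2
    | zero => simp
    | add a b _ _ ha hb => rw [mul_add]; exact Ideal.add_mem _ ha hb
    | smul c a _ ha => rw [smul_eq_mul, mul_left_comm]; exact Ideal.mul_mem_left _ _ ha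

theorem deg_poly {n d : ℕ} (hn : 4 ≤ n) {Z : Cone k n} (s : Sect Z d) (h : ¬ Z.Nondeg) :
    s.Poly := by
  classical
  obtain ⟨m, rfl⟩ : ∃ m, n = m + 1 := ⟨n - 1, by omega⟩
  simp only [Cone.Nondeg, not_forall] at h
  obtain ⟨l, hl, l0⟩ := h
  obtain ⟨i0, hi⟩ := Function.ne_iff.1 l0
  have hi' : l i0 ≠ 0 := hi
  have hP := Z.prime
  let w : MvPolynomial (Fin m) k := -∑ j, C (l (i0.succAbove j) / l i0) * X j
  let t : Fin (m + 1) → MvPolynomial (Fin m) k := i0.insertNth w X
  have e0 : X i0 - rename i0.succAbove w = C (l i0)⁻¹ * lin l := by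
    rw [lin, Fin.sum_univ_succAbove _ i0, mul_add, ← mul_assoc, ← map_mul, inv_mul_cancel₀ hi',
      Finset.mul_sum]
    simp [w, div_eq_inv_mul, mul_assoc]
  have e1 : ∀ g, g - rename i0.succAbove (aeval t g) ∈ Ideal.span {lin l} := fun g => by
    have := KE.sub_aeval_mem (fun i => rename i0.succAbove (t i)) (Ideal.span {lin l})
      (i0.forall_iff_succAbove.2 ⟨by
        simp only [t, Fin.insertNth_apply_same, e0]
        exact Ideal.mul_mem_left _ _ (Ideal.subset_span rfl), fun j => by simp [t]⟩) g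
    rwa [← comp_aeval_apply] at this
  have e2 : Ideal.span {lin l} ≤ Z.I := (Ideal.span_singleton_le_iff_mem _).2 hl
  have gl : ∀ (L : Type) [Field L] [Algebra k L] (x : Fin (m + 1) → L),
      gr (lin l) x = algebraMap k L ∘ l := fun L _ _ x => by
    funext i
    simp [gr, lin, pderiv_X, Pi.single_apply]
  obtain ⟨φ, hφ, hm⟩ := KE.prin Z i0.succAbove (fun L _ _ x _ v hv h0 => by
      have h1 := hv _ hl
      rw [gl, dotProduct, Fin.sum_univ_succAbove _ i0] at h1
      have h2 : ∀ j, v (i0.succAbove j) = 0 := congrFun h0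
      simp only [h2, mul_zero, Finset.sum_const_zero, add_zero, Function.comp, mul_eq_zero,
        map_eq_zero, hi', false_or] at h1
      exact funext (i0.forall_iff_succAbove.2 ⟨h1, h2⟩)) (by
      by_contra hc
      push Not at hc
      obtain ⟨L, _, _, _, x, g1, -⟩ := genpt_ex Z
      have h1 := Z.rk L x (KE.ne_zero_of_gen Z g1) fun f hf => (g1 f).2 hf
      have h2 : Nm Z.I x ≤ Submodule.span L {gr (lin l) x} := by
        refine Submodule.span_le.2 ?_
        rintro _ ⟨f, hf, rfl⟩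
        have h3 := e1 f
        have h4 : aeval t f = 0 := by
          by_contra h5
          exact hc _ h5 (by simpa using Z.I.sub_mem hf (e2 h3))
        rw [h4, map_zero, sub_zero] at h3
        obtain ⟨c, rfl⟩ := Ideal.mem_span_singleton'.1 h3
        rw [KE.gr_pow_mul x ((g1 _).2 hl)]
        exact Submodule.smul_mem _ _ (Submodule.subset_span rfl)
      have h3 := (Submodule.finrank_mono h2).trans (finrank_span_le_card _)
      simp [h1] at h3)
  obtain ⟨A, hA⟩ := hyp (by omega) hφ s.N (fun j => aeval t (s.G (i0.succAbove j))) fun i j => by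
    refine (hm _).1 ?_
    have := Z.I.add_mem (Z.I.sub_mem (s.cmp (i0.succAbove i) (i0.succAbove j))
      (Z.I.mul_mem_left (X (i0.succAbove j) ^ s.N) (e2 (e1 (s.G (i0.succAbove i))))))
      (Z.I.mul_mem_left (X (i0.succAbove i) ^ s.N) (e2 (e1 (s.G (i0.succAbove j)))))
    convert this using 1
    simp only [map_sub, map_mul, map_pow, rename_X]; ring
  have hA' : ∀ j, X (i0.succAbove j) ^ s.N * rename i0.succAbove A - s.G (i0.succAbove j) ∈ Z.I :=
    fun j => by
    have := Z.I.sub_mem ((hm _).2 (hA j)) (e2 (e1 (s.G (i0.succAbove j))))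
    convert this using 1
    simp only [map_sub, map_mul, map_pow, rename_X]; ring
  obtain ⟨j, hj⟩ : ∃ j, X (i0.succAbove j) ∉ Z.I := by
    by_contra hc
    push Not at hc
    obtain ⟨i, hi⟩ := Z.ne
    refine hi ((i0.forall_iff_succAbove (P := fun i => X i ∈ Z.I)).2 ⟨?_, hc⟩ i)
    have h1 : rename i0.succAbove w ∈ Z.I := by
      simp only [w, map_neg, map_sum, map_mul, rename_X]
      exact Z.I.neg_mem (Z.I.sum_mem fun j _ => Z.I.mul_mem_left _ (hc j))
    simpa using Z.I.add_mem (e0 ▸ Z.I.mul_mem_left _ hl : X i0 - rename i0.succAbove w ∈ Z.I) h1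
  refine ⟨rename i0.succAbove A, i0.forall_iff_succAbove.2 ⟨?_, hA'⟩⟩
  refine (hP.mem_or_mem (x := X (i0.succAbove j) ^ s.N) ?_).resolve_left
    fun h => hj (hP.mem_of_pow_mem _ h)
  have := Z.I.add_mem (Z.I.mul_mem_left (X i0 ^ s.N) (hA' j)) (s.cmp (i0.succAbove j) i0)
  convert this using 1
  ring

end PV
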