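import Pool.Agent.Lib.MP_36fb43_ag.KE
import Pool.Agent.Lib.MP_36fb43_ag.KD
import Pool.Agent.Lib.MP_36fb43_ag.GP

open MvPolynomial Matrix Module

namespace PV

/-- the height of the ideal of a rational point -/
theorem krull_ht {k σ : Type} [Field k] [Fintype σ] (a : σ → k) :
    (Fintype.card σ : ℕ∞) ≤ (RingHom.ker (aeval a : MvPolynomial σ k →ₐ[k] k)).height := by
  classical
  let s : Finset σ → MvPolynomial σ k →ₐ[k] MvPolynomial σ k := fun t =>
    aeval fun i => if i ∈ t then C (a i) else X i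
  have key : ∀ t : Finset σ, (t.card : ℕ∞) ≤ (RingHom.ker (s t)).height := fun t => by
    induction t using Finset.induction_on with
    | empty => simp
    | insert i t hi ih =>
      have := RingHom.ker_isPrime (s t)
      have := RingHom.ker_isPrime (s (insert i t))
      have e : (s (insert i t)).comp (s t) = s (insert i t) := by
        ext j : 1
        by_cases hj : j ∈ t <;> simp [s, hj]
      have lt : RingHom.ker (s t) < RingHom.ker (s (insert i t)) := by
        refine lt_of_le_of_ne (fun f hf => ?_) fun h => ?_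
        · rw [RingHom.mem_ker] at hf ⊢
          rw [← e, AlgHom.comp_apply, hf, map_zero]
        · have h1 : X i - C (a i) ∈ RingHom.ker (s (insert i t)) := by simp [RingHom.mem_ker, s]
          rw [← h, RingHom.mem_ker] at h1
          have h2 : (X i - C (a i) : MvPolynomial σ k) = 0 := by simpa [s, hi] using h1
          have := congrArg (eval fun _ => a i + 1) h2
          simp at this
      rw [Finset.card_insert_of_notMem hi, Nat.cast_add, Nat.cast_one]
      exact (add_le_add_left ih 1).trans (Ideal.height_add_one_le_of_lt_of_isPrime lt)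
  have e : RingHom.ker (s Finset.univ) = RingHom.ker (aeval a : MvPolynomial σ k →ₐ[k] k) := by
    have : s Finset.univ = (Algebra.ofId k _).comp (aeval a) := by
      ext j : 1
      simp [s]
    ext f
    simp [RingHom.mem_ker, this]
  simpa [e] using key Finset.univ

/-- two equations with independent gradients at finitely many points -/
theorem krull_pair {k ι : Type} [Field k] [CharZero k] [Finite ι] {n : ℕ} (Z : Cone k n)
    (x : ι → Fin n → k) (h0 : ∀ i, x i ≠ 0) (hx : ∀ i, On Z.I (x i)) :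
    ∃ f1 ∈ Z.I, ∃ f2 ∈ Z.I, ∃ e, (∀ i, eval (x i) e ≠ 0) ∧
      ∀ f ∈ Z.I, e * f ∈ Ideal.span {f1, f2} := by
  let I : Submodule k (MvPolynomial (Fin n) k) := Z.I.restrictScalars k
  let G : ι → I →ₗ[k] Fin n → k := fun i =>
    { toFun := fun f => gr f.1 (x i)
      map_add' := fun f g => by ext j; simp [gr]
      map_smul' := fun c f => by ext j; simp [gr] }
  have H : ∀ (i) (U : Submodule k (Fin n → k)), finrank k U ≤ 1 → U.comap (G i) ≠ ⊤ :=
    fun i U hU h => by
      have : Nm Z.I (x i) ≤ U := Submodule.span_le.2 (by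
        rintro _ ⟨f, hf, rfl⟩
        exact (h ▸ Submodule.mem_top : (⟨f, hf⟩ : I) ∈ U.comap (G i)))
      have := Submodule.finrank_mono this
      rw [Z.rk k (x i) (h0 i) (hx i)] at this
      omega
  obtain ⟨f1, a1⟩ := Submodule.exists_forall_notMem_of_forall_ne_top
    (fun i => (⊥ : Submodule k (Fin n → k)).comap (G i)) fun i => H i _ (by simp)
  obtain ⟨f2, a2⟩ := Submodule.exists_forall_notMem_of_forall_ne_top
    (fun i => (Submodule.span k {G i f1}).comap (G i)) fun i => H i _ (by
      simpa using finrank_span_le_card (R := k) ({G i f1} : Set (Fin n → k)))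
  have li : ∀ i, LinearIndependent k ![gr f1.1 (x i), gr f2.1 (x i)] := fun i => by
    have b1 : gr f1.1 (x i) ≠ 0 := by simpa [G] using a1 i
    refine (LinearIndependent.pair_iff' b1).2 fun c hc => a2 i ?_
    exact Submodule.mem_span_singleton.2 ⟨c, hc⟩
  let E : Submodule k (MvPolynomial (Fin n) k) :=
    { carrier := {e | ∀ f ∈ Z.I, e * f ∈ Ideal.span {f1.1, f2.1}}
      add_mem' := fun ha hb f hf => by rw [add_mul]; exact add_mem (ha f hf) (hb f hf)
      zero_mem' := fun f _ => by simp
      smul_mem' := fun c e he f hf => by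
        rw [smul_mul_assoc, smul_eq_C_mul]; exact Ideal.mul_mem_left _ _ (he f hf) }
  obtain ⟨e, he⟩ := Submodule.exists_forall_notMem_of_forall_ne_top
    (fun i => LinearMap.ker ((aeval (x i) : MvPolynomial (Fin n) k →ₐ[k] k).toLinearMap.domRestrict E))
    fun i h => by
      obtain ⟨e, e0, e1⟩ := lci Z (hx i) f1.2 f2.2 (li i)
      have : (⟨e, e1⟩ : E) ∈ LinearMap.ker
        ((aeval (x i) : MvPolynomial (Fin n) k →ₐ[k] k).toLinearMap.domRestrict E) :=
        h ▸ Submodule.mem_top
      exact e0 (by simpa [coe_aeval_eq_eval] using this)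
  exact ⟨f1.1, f1.2, f2.1, f2.2, e.1, fun i => by simpa [coe_aeval_eq_eval] using he i, e.2⟩

theorem krull_eval {k F σ : Type} [CommRing k] [Field F] [Algebra k F] (p q : σ → F)
    (f : MvPolynomial σ k) (w : F) : (aeval (ln p q) f).eval w = aeval (w • p + q) f := by
  have : ((Polynomial.aeval w : Polynomial F →ₐ[F] F).restrictScalars k).comp (aeval (ln p q)) =
      aeval (w • p + q) := by
    ext i
    simp [ln]
    ring
  simpa [Polynomial.coe_aeval_eq_eval] using congrArg (fun φ => φ f) this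

/-- the universal line and the universal cubic -/
noncomputable def krull_ln {k : Type} [Field k] (p : Fin 6 → k) :
    Fin 6 → Polynomial (MvPolynomial (Fin 6 ⊕ Fin 3) k) :=
  fun i => Polynomial.C (C (p i)) * Polynomial.X + Polynomial.C (X (Sum.inl i))

noncomputable def krull_g (k : Type) [Field k] : Polynomial (MvPolynomial (Fin 6 ⊕ Fin 3) k) :=
  Polynomial.X ^ 3 + ∑ i : Fin 3, Polynomial.C (X (Sum.inr i)) * Polynomial.X ^ (i : ℕ)

theorem krull_g_monic (k : Type) [Field k] : (krull_g k).Monic ∧ (krull_g k).natDegree = 3 := by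
  have h := Polynomial.degree_sum_fin_lt
    (fun i : Fin 3 => (X (Sum.inr i) : MvPolynomial (Fin 6 ⊕ Fin 3) k))
  have hm : (krull_g k).Monic := Polynomial.monic_X_pow_add h
  refine ⟨hm, ?_⟩
  rw [krull_g, Polynomial.natDegree_add_eq_left_of_degree_lt (by simpa using h)]
  simp

theorem krull_g_coeff (k : Type) [Field k] (i : Fin 3) : (krull_g k).coeff i = X (Sum.inr i) := by
  fin_cases i <;> simp [krull_g, Fin.sum_univ_three, Polynomial.coeff_X,
    Polynomial.coeff_X_pow]

theorem krull_map {k F : Type} [Field k] [Field F] [Algebra k F] (p : Fin 6 → k)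
    (φ : MvPolynomial (Fin 6 ⊕ Fin 3) k →ₐ[k] F) (f : MvPolynomial (Fin 6) k) :
    (aeval (krull_ln p) f).map φ.toRingHom =
      aeval (ln (algebraMap k F ∘ p) fun i => φ (X (Sum.inl i))) f := by
  have : (Polynomial.mapAlgHom φ).comp (aeval (krull_ln p)) =
      aeval (ln (algebraMap k F ∘ p) fun i => φ (X (Sum.inl i))) := by
    ext i : 1
    simp [ln, krull_ln]
  exact congrArg (fun ψ => ψ f) this

variable {Z : Cone ℂ 6} {k : Type} [Field k] [IsAlgClosed k] [Algebra ℂ k] {p : Fin 6 → k}

omit [IsAlgClosed k] in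
/-- a line through the generic point is not on the cone -/
theorem krull_ne (hp : GenPt p) {Ω : Type} [Field Ω] [Algebra ℂ Ω] [Algebra k Ω]
    [IsScalarTower ℂ k Ω] (q : Fin 6 → Ω) (hI : Z.I ≠ ⊥) :
    ∃ f ∈ Z.I, aeval (ln (algebraMap k Ω ∘ p) q) f ≠ 0 := by
  have : CharZero Ω := charZero_of_injective_algebraMap (algebraMap ℂ Ω).injective
  by_contra hc
  push Not at hc
  obtain ⟨f, hf, f0⟩ := (Submodule.ne_bot_iff _).1 hI
  have h1 : aeval (ln q (algebraMap k Ω ∘ p)) f = 0 := by
    refine Polynomial.eq_zero_of_infinite_isRoot _ ((Set.Finite.infinite_compl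
      (Set.finite_singleton (0 : Ω))).mono fun s hs => ?_)
    have hs' : s ≠ 0 := hs
    have on : On Z.I (s⁻¹ • (algebraMap k Ω ∘ p) + q) := fun g hg => by
      rw [← krull_eval, hc g hg, Polynomial.eval_zero]
    have := on_smul Z on s f hf
    rw [smul_add, smul_smul, mul_inv_cancel₀ hs', one_smul, add_comm] at this
    exact (krull_eval _ _ _ _).trans this
  have h2 := krull_eval q (algebraMap k Ω ∘ p) f 0
  rw [h1, Polynomial.eval_zero, zero_smul, zero_add, aeval_algebraMap_apply] at h2
  exact not_on hp.ex f0 ((algebraMap k Ω).injective (by rw [← h2, map_zero]))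

theorem krull (hp : GenPt p) {q0 : Fin 6 → k} {j : Fin 6} (h0 : q0 0 = 0) (h1 : q0 j = 1)
    {g0 : Polynomial k} (hm : g0.Monic) (hd : g0.natDegree = 3) (hg : Al Z.I p q0 g0) :
    ∃ (Ω : Type) (_ : Field Ω) (_ : IsAlgClosed Ω) (_ : Algebra ℂ Ω) (_ : Algebra k Ω)
      (_ : IsScalarTower ℂ k Ω) (q : Fin 6 → Ω) (g : Polynomial Ω), q 0 = 0 ∧ q j = 1 ∧ g.Monic ∧
      g.natDegree = 3 ∧ Al Z.I (algebraMap k Ω ∘ p) q g ∧
      (∃ D : Derivation k Ω Ω, dv D q ≠ 0) ∧ (∀ D : Derivation k Ω Ω, dv D q = 0 → D = 0) ∧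
      ∀ Φ : MvPolynomial (Fin 6 ⊕ Fin 3) k, aeval (Sum.elim q fun i : Fin 3 => g.coeff i) Φ = 0 →
        aeval (Sum.elim q0 fun i : Fin 3 => g0.coeff i) Φ = 0 := by
  classical
  have : CharZero k := charZero_of_injective_algebraMap (algebraMap ℂ k).injective
  obtain ⟨Z', hZ'⟩ := cone_map Z k
  obtain ⟨gm, gd⟩ := krull_g_monic k
  have p0 : p 0 ≠ 0 := by simpa using not_on hp.ex (X_ne_zero (R := ℂ) (0 : Fin 6))
  have hg' : ∀ f ∈ Z'.I, g0 ∣ aeval (ln p q0) f := fun f hf => by
    rw [hZ'] at hf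
    induction hf using Submodule.span_induction with
    | mem x hx =>
      obtain ⟨f, hf, rfl⟩ := hx
      rw [aeval_map_algebraMap]
      exact hg f hf
    | zero => simp
    | add x y _ _ hx hy => rw [map_add]; exact dvd_add hx hy
    | smul c x _ hx => rw [smul_eq_mul, map_mul]; exact hx.mul_left _
  -- the points of `g0`
  let x : g0.rootSet k → Fin 6 → k := fun w => w.1 • p + q0
  have rt : ∀ w : g0.rootSet k, g0.eval w.1 = 0 := fun w => by
    simpa [Polynomial.coe_aeval_eq_eval] using Polynomial.aeval_eq_zero_of_mem_rootSet w.2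
  have x0 : ∀ w, x w ≠ 0 := fun w h => by
    have a0 : w.1 * p 0 + q0 0 = 0 := congrFun h 0
    have aj : w.1 * p j + q0 j = 0 := congrFun h j
    rw [h0, add_zero, mul_eq_zero, or_iff_left p0] at a0
    rw [a0, h1] at aj
    simp at aj
  have xo : ∀ w, On Z'.I (x w) := fun w f hf => by
    obtain ⟨r, hr⟩ := hg' f hf
    rw [← krull_eval, hr, Polynomial.eval_mul, rt, zero_mul]
  obtain ⟨f1, m1, f2, m2, e, e0, e1⟩ := krull_pair Z' x x0 xo
  have hI : Z.I ≠ ⊥ := fun h => by
    obtain ⟨w, hw⟩ := IsAlgClosed.exists_root g0 (by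
      rw [Polynomial.degree_eq_natDegree hm.ne_zero, hd]; simp)
    have hw' : w ∈ g0.rootSet k := (Polynomial.mem_rootSet_of_ne hm.ne_zero).2 (by
      simpa [Polynomial.coe_aeval_eq_eval] using hw)
    have := Z'.rk k _ (x0 ⟨w, hw'⟩) (xo ⟨w, hw'⟩)
    have e : Nm Z'.I (x ⟨w, hw'⟩) = ⊥ := by
      refine Submodule.span_eq_bot.2 ?_
      rintro _ ⟨f, hf, rfl⟩
      rw [hZ', h, Ideal.map_bot, Ideal.mem_bot] at hf
      ext i
      simp [gr, hf]
    rw [e] at this
    simp at this
  -- the prime
  let a : Fin 6 ⊕ Fin 3 → k := Sum.elim q0 fun i : Fin 3 => g0.coeff i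
  let ψ : MvPolynomial (Fin 6 ⊕ Fin 3) k →ₐ[k] k := aeval a
  have ψg : (krull_g k).map ψ.toRingHom = g0 := by
    ext n
    rw [Polynomial.coeff_map]
    rcases lt_trichotomy n 3 with h | rfl | h
    · rw [krull_g_coeff k ⟨n, h⟩]
      simp [ψ, a]
    · have a1 := gm.coeff_natDegree
      have a2 := hm.coeff_natDegree
      rw [gd] at a1
      rw [hd] at a2
      rw [a1, a2, map_one]
    · rw [Polynomial.coeff_eq_zero_of_natDegree_lt (gd.trans_lt h),
        Polynomial.coeff_eq_zero_of_natDegree_lt (hd.trans_lt h), map_zero]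
  have ψl : ∀ f, (aeval (krull_ln p) f).map ψ.toRingHom = aeval (ln p q0) f := fun f => by
    rw [krull_map]
    simp [ψ, a]
  let r : Fin 2 × Fin 3 → MvPolynomial (Fin 6 ⊕ Fin 3) k := fun i =>
    (aeval (krull_ln p) (![f1, f2] i.1) %ₘ krull_g k).coeff i.2
  let S : Finset (MvPolynomial (Fin 6 ⊕ Fin 3) k) :=
    insert (X (Sum.inl 0)) (insert (X (Sum.inl j) - 1) (Finset.univ.image r))
  have Sc : S.card ≤ 8 := by
    have a1 := Finset.card_insert_le (X (Sum.inl 0)) (insert (X (Sum.inl j) - 1) (Finset.univ.image r))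
    have a2 := Finset.card_insert_le (X (Sum.inl j) - 1) (Finset.univ.image r)
    have a3 := Finset.card_image_le (s := Finset.univ) (f := r)
    simp only [Finset.card_univ, Fintype.card_prod, Fintype.card_fin] at a3
    change (insert _ _ : Finset _).card ≤ 8
    omega
  have := RingHom.ker_isPrime ψ
  have Sm : Ideal.span (S : Set (MvPolynomial (Fin 6 ⊕ Fin 3) k)) ≤ RingHom.ker ψ := by
    refine Ideal.span_le.2 fun y hy => ?_
    simp only [S, Finset.coe_insert, Finset.coe_image, Set.mem_insert_iff] at hy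
    rcases hy with rfl | rfl | ⟨i, -, rfl⟩
    · simp [RingHom.mem_ker, ψ, a, h0]
    · simp [RingHom.mem_ker, ψ, a, h1]
    · have : (aeval (krull_ln p) (![f1, f2] i.1) %ₘ krull_g k).map ψ.toRingHom = 0 := by
        rw [Polynomial.map_modByMonic _ gm, ψg, ψl, Polynomial.modByMonic_eq_zero_iff_dvd hm]
        refine hg' _ ?_
        rcases i with ⟨i, _⟩
        fin_cases i
        exacts [m1, m2]
      have := congrArg (fun t => t.coeff i.2) this
      simpa [Polynomial.coeff_map, RingHom.mem_ker, r] using this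
  obtain ⟨P, hP, Pm⟩ := Ideal.exists_minimalPrimes_le Sm
  have : P.IsPrime := hP.1.1
  have Pne : P ≠ RingHom.ker ψ := fun h => by
    have b1 := Ideal.height_le_card_of_mem_minimalPrimes_span_finset hP
    have b2 := krull_ht a
    rw [← show RingHom.ker ψ = RingHom.ker (aeval a : _ →ₐ[k] k) from rfl, ← h] at b2
    have b3 : ((Fintype.card (Fin 6 ⊕ Fin 3) : ℕ) : ℕ∞) ≤ (S.card : ℕ) := b2.trans b1
    have b4 : Fintype.card (Fin 6 ⊕ Fin 3) ≤ S.card := by exact_mod_cast b3
    simp at b4
    omega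
  let B := MvPolynomial (Fin 6 ⊕ Fin 3) k ⧸ P
  let L := FractionRing B
  let Ω := AlgebraicClosure L
  let φ : MvPolynomial (Fin 6 ⊕ Fin 3) k →ₐ[k] Ω :=
    (IsScalarTower.toAlgHom k B Ω).comp (Ideal.Quotient.mkₐ k P)
  have φk : ∀ y, φ y = 0 ↔ y ∈ P := fun y => by
    have inj : Function.Injective (algebraMap B Ω) := by
      rw [IsScalarTower.algebraMap_eq B L Ω]
      exact (algebraMap L Ω).injective.comp (IsFractionRing.injective B L)
    change algebraMap B Ω (Ideal.Quotient.mk P y) = 0 ↔ _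
    rw [map_eq_zero_iff _ inj, Ideal.Quotient.eq_zero_iff_mem]
  have φS : ∀ y ∈ S, φ y = 0 := fun y hy => (φk y).2 (hP.1.2 (Ideal.subset_span hy))
  let q : Fin 6 → Ω := fun i => φ (X (Sum.inl i))
  let g : Polynomial Ω := (krull_g k).map φ.toRingHom
  have gm' : g.Monic := gm.map _
  have gc : ∀ i : Fin 3, g.coeff i = φ (X (Sum.inr i)) := fun i => by
    rw [Polynomial.coeff_map, krull_g_coeff]; rfl
  have φe : φ = aeval (Sum.elim q fun i : Fin 3 => g.coeff i) := by
    ext (i | i) : 1
    · simp [q]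
    · simp [gc]
  have dv12 : ∀ i : Fin 2, g ∣ aeval (ln (algebraMap k Ω ∘ p) q) (![f1, f2] i) := fun i => by
    rw [← krull_map, ← Polynomial.modByMonic_eq_zero_iff_dvd gm', ← Polynomial.map_modByMonic _ gm]
    ext n
    rw [Polynomial.coeff_map, Polynomial.coeff_zero]
    by_cases h : n < 3
    · exact φS (r (i, ⟨n, h⟩)) (by simp [S])
    · rw [Polynomial.coeff_eq_zero_of_degree_lt, map_zero]
      refine (Polynomial.degree_modByMonic_lt _ gm).trans_le ?_
      rw [Polynomial.degree_eq_natDegree gm.ne_zero, gd]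
      exact_mod_cast not_lt.1 h
  have cop : IsCoprime g (aeval (ln (algebraMap k Ω ∘ p) q) e) := by
    set E := aeval (krull_ln p) e with hE
    have c0 : IsCoprime g0 (aeval (ln p q0) e) := by
      refine (Polynomial.isCoprime_iff_aeval_ne_zero_of_isAlgClosed (K := k) k _ _).2 fun w => ?_
      by_cases hw : Polynomial.aeval w g0 = 0
      · refine Or.inr ?_
        rw [Polynomial.coe_aeval_eq_eval, krull_eval]
        simpa [coe_aeval_eq_eval] using e0 ⟨w, (Polynomial.mem_rootSet_of_ne hm.ne_zero).2 hw⟩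
      · exact Or.inl hw
    have c1 : ψ ((krull_g k).resultant E 3 E.natDegree) ≠ 0 := by
      have := Polynomial.resultant_map_map (krull_g k) E 3 E.natDegree ψ.toRingHom
      rw [ψg, hE, ψl, ← hE] at this
      obtain ⟨t, ht⟩ := Nat.exists_eq_add_of_le
        (show (aeval (ln p q0) e).natDegree ≤ E.natDegree from ψl e ▸ Polynomial.natDegree_map_le)
      change ψ.toRingHom _ ≠ 0
      rw [← this, ht, Polynomial.resultant_add_right_deg _ _ _ _ _ le_rfl, ← hd, hm.coeff_natDegree,
        one_pow, one_mul]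
      exact Polynomial.resultant_ne_zero _ _ c0
    have c2 : φ ((krull_g k).resultant E 3 E.natDegree) ≠ 0 := fun h => c1 (Pm ((φk _).1 h))
    obtain ⟨u, v, -, -, huv⟩ := Polynomial.exists_mul_add_mul_eq_C_resultant (krull_g k) E
      (m := 3) (n := E.natDegree) gd.le le_rfl (Or.inl (by norm_num))
    have := congrArg (Polynomial.map φ.toRingHom) huv
    rw [Polynomial.map_add, Polynomial.map_mul, Polynomial.map_mul, Polynomial.map_C, hE,
      krull_map, ← hE] at this
    refine ⟨Polynomial.C (φ ((krull_g k).resultant E 3 E.natDegree))⁻¹ * u.map φ.toRingHom,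
      Polynomial.C (φ ((krull_g k).resultant E 3 E.natDegree))⁻¹ * v.map φ.toRingHom, ?_⟩
    rw [mul_assoc, mul_assoc, ← mul_add, mul_comm (u.map _), mul_comm (v.map _)]
    exact (congrArg _ this).trans (by rw [← Polynomial.C_mul]; simp [c2])
  have al : Al Z.I (algebraMap k Ω ∘ p) q g := fun f hf => by
    obtain ⟨u, v, huv⟩ := Ideal.mem_span_pair.1
      (e1 (MvPolynomial.map (algebraMap ℂ k) f) (hZ' ▸ Ideal.mem_map_of_mem _ hf))
    have := congrArg (aeval (ln (algebraMap k Ω ∘ p) q)) huv
    rw [map_add, map_mul, map_mul, map_mul, aeval_map_algebraMap] at this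
    refine cop.dvd_of_dvd_mul_left ?_
    rw [← this]
    exact dvd_add ((dv12 0).mul_left _) ((dv12 1).mul_left _)
  have uq : ∀ D : Derivation k Ω Ω, dv D q = 0 → D = 0 := fun D hD => by
    let K := cst ({D} : Set (Derivation k Ω Ω))
    have hK : ∀ c, c ∈ K ↔ D c = 0 := fun c => ⟨fun h => h D rfl, fun h E hE => hE ▸ h⟩
    have alg : ∀ y, IsAlgebraic K y → y ∈ K := fun y hy =>
      (hK y).2 (der_alg D K (fun c hc => (hK c).1 hc) hy)
    obtain ⟨f, hf, f0⟩ := krull_ne hp q hI
    let q' : Fin 6 → K := fun i => ⟨q i, (hK _).2 (congrFun hD i)⟩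
    have hl : (aeval (ln (algebraMap k K ∘ p) q') (MvPolynomial.map (algebraMap ℂ k) f)).map
        (algebraMap K Ω) = aeval (ln (algebraMap k Ω ∘ p) q) f := by
      have : (Polynomial.mapAlgHom (IsScalarTower.toAlgHom k K Ω)).comp
          (aeval (ln (algebraMap k K ∘ p) q')) = aeval (ln (algebraMap k Ω ∘ p) q) := by
        ext i : 1
        simp [ln, q']
      have := congrArg (fun ψ => ψ (MvPolynomial.map (algebraMap ℂ k) f)) this
      exact this.trans (aeval_map_algebraMap _ _ _)
    have rts : ∀ w ∈ g.roots, w ∈ K := fun w hw => by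
      refine alg w ⟨aeval (ln (algebraMap k K ∘ p) q') (MvPolynomial.map (algebraMap ℂ k) f),
        fun h => f0 (by rw [← hl, h, Polynomial.map_zero]), ?_⟩
      obtain ⟨t, ht⟩ := al f hf
      rw [Polynomial.aeval_def, Polynomial.eval₂_eq_eval_map, hl, ht, Polynomial.eval_mul,
        ((Polynomial.mem_roots gm'.ne_zero).1 hw).eq_zero, zero_mul]
    have cf : ∀ n, g.coeff n ∈ K := fun n => by
      have : g ∈ Polynomial.lifts (algebraMap K Ω) := by
        rw [(IsAlgClosed.splits g).eq_prod_roots_of_monic gm']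
        refine Subsemiring.multiset_prod_mem _ _ fun t ht => ?_
        obtain ⟨w, hw, rfl⟩ := Multiset.mem_map.1 ht
        exact ⟨Polynomial.X - Polynomial.C ⟨w, rts w hw⟩, by simp⟩
      obtain ⟨c, hc⟩ := (Polynomial.lifts_iff_coeff_lifts _).1 this n
      exact hc ▸ c.2
    have φK : ∀ y, φ y ∈ K := fun y => by
      induction y using MvPolynomial.induction_on with
      | C c => rw [algHom_C]; exact K.algebraMap_mem c
      | add _ _ h1 h2 => rw [map_add]; exact add_mem h1 h2
      | mul_X _ i h =>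
        rw [map_mul]
        refine mul_mem h ?_
        rcases i with i | i
        exacts [(q' i).2, gc i ▸ cf i]
    have LK : ∀ y : L, algebraMap L Ω y ∈ K := fun y => by
      obtain ⟨u, v, -, rfl⟩ := IsFractionRing.div_surjective (A := B) y
      obtain ⟨u, rfl⟩ := Ideal.Quotient.mk_surjective u
      obtain ⟨v, rfl⟩ := Ideal.Quotient.mk_surjective v
      rw [map_div₀, ← IsScalarTower.algebraMap_apply, ← IsScalarTower.algebraMap_apply]
      exact div_mem (φK u) (φK v)
    ext y
    let : Algebra L K := ((algebraMap L Ω).codRestrict K LK).toAlgebra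
    have : IsScalarTower L K Ω := IsScalarTower.of_algebraMap_eq fun _ => rfl
    exact (hK y).1 (alg y ((Algebra.IsAlgebraic.isAlgebraic (R := L) y).tower_top K))
  refine ⟨Ω, inferInstance, inferInstance, inferInstance, inferInstance, inferInstance, q, g,
    φS _ (by simp [S]), ?_, gm', by rw [gm.natDegree_map, gd], al, ?_, uq, fun Φ h => ?_⟩
  · have := φS (X (Sum.inl j) - 1) (by simp [S])
    rwa [map_sub, map_one, sub_eq_zero] at this
  · by_contra hc
    push Not at hc
    refine Pne (le_antisymm Pm fun y hy => ?_)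
    obtain ⟨c, hc⟩ := const_mem (R := k) (y := φ y) fun D => by rw [uq D (hc D)]; rfl
    have b1 : y - C c ∈ P := (φk _).1 (by rw [map_sub, algHom_C, hc, sub_self])
    have b2 : ψ (y - C c) = 0 := Pm b1
    rw [map_sub, show ψ y = 0 from hy, algHom_C, zero_sub, neg_eq_zero] at b2
    have b3 : c = 0 := b2
    simpa [b3] using b1
  · exact Pm ((φk Φ).1 (by rw [φe]; exact h))

end PV
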