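import Pool.Agent.Lib.MP_36fb43_ag.LeafA

open MvPolynomial Matrix Module

namespace PV

variable {Z : Cone ℂ 6} {Ω : Type} [Field Ω] [IsAlgClosed Ω] [Algebra ℂ Ω]

namespace Tri
variable (T : Tri Z Ω)

/-- lemma C0 on the whole of `La` -/
theorem lf_c0' {b1 b2 : Ω} (h3 : T.e 3 = b1 • T.e 1 + b2 • T.e 2)
    (B : Matrix (Fin 6) (Fin 6) Ω) (c : Ω) (hB : ∀ a b, T.Dπ (B a b) = 0)
    (bp : ∀ w ∈ T.La, T.p ⬝ᵥ B *ᵥ w = 0) (bq : ∀ w ∈ T.La, w ⬝ᵥ B *ᵥ T.p = 0)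
    (b00 : T.e 0 ⬝ᵥ B *ᵥ T.e 0 = 0) (b01 : T.e 0 ⬝ᵥ B *ᵥ T.e 1 = 0)
    (b02 : c * (T.e 0 ⬝ᵥ B *ᵥ T.e 2) = 1)
    (G : Matrix (Fin 6) (Fin 6) Ω) (hG : ∀ a b, T.Dπ (G a b) = 0)
    (gp : ∀ w ∈ T.La, T.p ⬝ᵥ G *ᵥ w = 0) (gq : ∀ w ∈ T.La, w ⬝ᵥ G *ᵥ T.p = 0)
    (g00 : T.e 0 ⬝ᵥ G *ᵥ T.e 0 = 0) (g01 : T.e 0 ⬝ᵥ G *ᵥ T.e 1 = 0) :
    ∀ v ∈ T.La, ∀ w ∈ T.La,
      v ⬝ᵥ G *ᵥ w = (v ⬝ᵥ (c • B) *ᵥ w) * (T.e 0 ⬝ᵥ G *ᵥ T.e 2) := by
  obtain ⟨g10, g11, g20, g12, g21, g22, -⟩ := T.lf_c0 h3 G hG g00 g01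
  obtain ⟨b10, b11, b20, b12, b21, b22, -⟩ := T.lf_c0 h3 B hB b00 b01
  intro v hv w hw
  obtain ⟨a, b, e, d, rfl⟩ := (T.lf_mem _).1 hv
  obtain ⟨a', b', e', d', rfl⟩ := (T.lf_mem _).1 hw
  simp only [smul_mulVec, mulVec_add, mulVec_smul, add_dotProduct, dotProduct_add,
    smul_dotProduct, dotProduct_smul, smul_eq_mul, gp _ T.lf_pm, gp _ T.lf_m0, gp _ T.lf_m1,
    gp _ T.lf_m2, gq _ T.lf_m0, gq _ T.lf_m1, gq _ T.lf_m2, bp _ T.lf_pm, bp _ T.lf_m0,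
    bp _ T.lf_m1, bp _ T.lf_m2, bq _ T.lf_m0, bq _ T.lf_m1, bq _ T.lf_m2, g00, g01, g10, g11, g20,
    g12, g21, g22, b00, b01, b10, b11, b20, b12, b21, b22]
  linear_combination (-(T.e 0 ⬝ᵥ G *ᵥ T.e 2) * (b * d' + d * b' - e * e' - b2 / 3 * (e * d' + d * e')
    + d * d' * (b1 + b2 ^ 2 / 9 - T.Dπ b2 / 3))) * b02

/-- membership in `La` through the covectors `h` -/
theorem lf_La (hθ : ∀ i, T.h i ⬝ᵥ T.e 2 ≠ 0) (v : Fin 6 → Ω) :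
    v ∈ T.La ↔ ∃ d : Ω, ∀ i, T.h i ⬝ᵥ v = d * T.h i ⬝ᵥ T.e 2 := by
  constructor
  · intro hv
    obtain ⟨a, b, e, d, rfl⟩ := (T.lf_mem _).1 hv
    exact ⟨d, fun i => by simp [T.hp, T.lf_h0, T.lf_h1]⟩
  · rintro ⟨d, hd⟩
    have : v - d • T.e 2 ∈ T.La := T.lf_kerLa fun i => by simp [hd i]
    simpa using T.La.add_mem this (T.La.smul_mem d T.lf_m2)

/-- the leaf is a Lie algebra, and Cartan's lemma -/
theorem lf_cart (Bt : Matrix (Fin 6) (Fin 6) Ω) (ξ : Fin 6 → Ω)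
    (dLa : ∀ D : Derivation ℂ Ω Ω, dv D T.p ∈ T.La → ∀ l ∈ T.La,
      dv D l - (dv D T.p ⬝ᵥ Bt *ᵥ l) • ξ ∈ T.La)
    (Bs : ∀ v ∈ T.La, ∀ w ∈ T.La, v ⬝ᵥ Bt *ᵥ w = w ⬝ᵥ Bt *ᵥ v)
    (B01 : T.e 0 ⬝ᵥ Bt *ᵥ T.e 1 = 0) (B02 : T.e 0 ⬝ᵥ Bt *ᵥ T.e 2 = 1)
    (B11 : T.e 1 ⬝ᵥ Bt *ᵥ T.e 1 = -1) (y : Fin 6 → Ω)
    (hy : ∀ D : Derivation ℂ Ω Ω, dv D T.p ∈ T.La → ∀ l ∈ T.La, dv D y ⬝ᵥ l = 0)
    (D : Derivation ℂ Ω Ω) (hD : dv D T.p ∈ T.La) : dv D y ⬝ᵥ ξ = 0 := by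
  have key : ∀ E : Derivation ℂ Ω Ω, dv E T.p ∈ T.La → ∀ l ∈ T.La,
      (dv E T.p ⬝ᵥ Bt *ᵥ l) * (dv D y ⬝ᵥ ξ) = (dv D T.p ⬝ᵥ Bt *ᵥ l) * (dv E y ⬝ᵥ ξ) := by
    intro E hE l hl
    have hb : dv ⁅D, E⁆ T.p ∈ T.La := by
      have := T.La.sub_mem (dLa D hD _ hE) (dLa E hE _ hD)
      rw [Bs _ hD _ hE] at this
      rw [lf_dv_br]
      convert this using 1
      abel
    have h1 := congrArg E (hy D hD l hl)
    have h2 := congrArg D (hy E hE l hl)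
    have h3 := hy _ hb l hl
    have h4 := hy D hD _ (dLa E hE l hl)
    have h5 := hy E hE _ (dLa D hD l hl)
    rw [lf_dot, map_zero] at h1 h2
    rw [lf_dv_br, sub_dotProduct] at h3
    rw [dotProduct_sub, dotProduct_smul, smul_eq_mul] at h4 h5
    linear_combination h1 - h2 + h3 - h4 + h5
  by_cases h : dv D T.p ⬝ᵥ Bt *ᵥ T.e 0 = 0
  · obtain ⟨E, hE⟩ := T.exp (T.e 2)
    have := key E (hE ▸ T.lf_m2) _ T.lf_m0
    rwa [h, hE, Bs _ T.lf_m2 _ T.lf_m0, B02, one_mul, zero_mul] at this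
  · obtain ⟨E, hE⟩ := T.exp (T.e 1)
    have a0 := key E (hE ▸ T.lf_m1) _ T.lf_m0
    have a1 := key E (hE ▸ T.lf_m1) _ T.lf_m1
    rw [hE, Bs _ T.lf_m1 _ T.lf_m0, B01, zero_mul] at a0
    rw [hE, B11, (mul_eq_zero.1 a0.symm).resolve_left h] at a1
    linear_combination -a1

end Tri

theorem lf_Ps {P : Fin 6 → Matrix (Fin 6) (Fin 6) Ω} (v w : Fin 6 → Ω) (c : Fin 6) :
    v ⬝ᵥ (Matrix.of fun a b => P a b c) *ᵥ w = (w ᵥ* Pv P v) c := by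
  simp only [dotProduct, mulVec, vecMul, Pv, Matrix.of_apply, Matrix.sum_apply, Matrix.smul_apply,
    smul_eq_mul, Finset.mul_sum]
  rw [Finset.sum_comm]
  exact Finset.sum_congr rfl fun a _ => Finset.sum_congr rfl fun b _ => by ring

theorem leaf_ex {T : Tri Z Ω} {s : Sect Z 2} (L : Leg T s) (hβ : ∀ i, L.β i ≠ 0)
    (hθ : ∀ i, T.h i ⬝ᵥ T.e 2 ≠ 0) (h3 : T.e 3 ∈ T.La) : Nonempty (Leaf L) := by
  obtain ⟨b1, b2, e3⟩ := T.lf_e3 h3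
  -- the slices of `P`
  set S : Fin 6 → Matrix (Fin 6) (Fin 6) Ω := fun c => Matrix.of fun a b => L.P a b c with hS
  have Sπ : ∀ c a b, T.Dπ (S c a b) = 0 := fun c a b => L.πP a b c
  have Ss : ∀ c v w, v ⬝ᵥ S c *ᵥ w = w ⬝ᵥ S c *ᵥ v := fun c v w => by
    simp only [dotProduct, mulVec, hS, Matrix.of_apply, Finset.mul_sum]
    rw [Finset.sum_comm]
    exact Finset.sum_congr rfl fun a _ => Finset.sum_congr rfl fun b _ => by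
      rw [L.Ps1]; ring
  have Sp : ∀ c w, T.p ⬝ᵥ S c *ᵥ w = 0 := fun c w => by rw [hS, lf_Ps, L.Pp]; simp
  have Sq : ∀ c w, T.e 0 ⬝ᵥ S c *ᵥ w = ∑ i, L.β i * (T.h i ⬝ᵥ w) * T.h i c := fun c w => by
    rw [hS, lf_Ps]
    simp only [vecMul, dotProduct, Tri.e, L.Pq, Finset.mul_sum, Finset.sum_mul]
    rw [Finset.sum_comm]
    exact Finset.sum_congr rfl fun a _ => Finset.sum_congr rfl fun b _ => by ring
  have S00 : ∀ c, T.e 0 ⬝ᵥ S c *ᵥ T.e 0 = 0 := fun c => by simp [Sq, T.lf_h0]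
  have S01 : ∀ c, T.e 0 ⬝ᵥ S c *ᵥ T.e 1 = 0 := fun c => by simp [Sq, T.lf_h1]
  set τ : Fin 6 → Ω := fun c => T.e 0 ⬝ᵥ S c *ᵥ T.e 2 with hτ
  obtain ⟨c0, hc0⟩ : ∃ c, τ c ≠ 0 := by
    by_contra h
    push Not at h
    have := Fintype.linearIndependent_iff.1 T.hli (fun i => L.β i * (T.h i ⬝ᵥ T.e 2)) (by
      funext c
      have := h c
      simp only [hτ, Sq] at this
      simpa [Finset.sum_apply] using this) 0
    exact mul_ne_zero (hβ 0) (hθ 0) this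
  set Bt : Matrix (Fin 6) (Fin 6) Ω := (τ c0)⁻¹ • S c0 with hBt
  have C0 := T.lf_c0' e3 (S c0) (τ c0)⁻¹ (Sπ c0) (fun w _ => Sp c0 w)
    (fun w _ => (Ss c0 _ _).trans (Sp c0 w)) (S00 c0) (S01 c0) (inv_mul_cancel₀ hc0)
  rw [← hBt] at C0
  have Bv : ∀ v w, v ⬝ᵥ Bt *ᵥ w = (τ c0)⁻¹ * (v ⬝ᵥ S c0 *ᵥ w) := fun v w => by
    rw [hBt, smul_mulVec, dotProduct_smul, smul_eq_mul]
  have Bs : ∀ v ∈ T.La, ∀ w ∈ T.La, v ⬝ᵥ Bt *ᵥ w = w ⬝ᵥ Bt *ᵥ v := fun v _ w _ => by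
    rw [Bv, Bv, Ss]
  have B01 : T.e 0 ⬝ᵥ Bt *ᵥ T.e 1 = 0 := by rw [Bv, S01, mul_zero]
  have B02 : T.e 0 ⬝ᵥ Bt *ᵥ T.e 2 = 1 := by rw [Bv]; exact inv_mul_cancel₀ hc0
  have B11 : T.e 1 ⬝ᵥ Bt *ᵥ T.e 1 = -1 := by
    rw [Bv, (T.lf_c0 e3 (S c0) (Sπ c0) (S00 c0) (S01 c0)).2.1, mul_neg]
    exact congrArg Neg.neg (inv_mul_cancel₀ hc0)
  have SB : ∀ c, ∀ v ∈ T.La, ∀ w ∈ T.La, v ⬝ᵥ S c *ᵥ w = (v ⬝ᵥ Bt *ᵥ w) * τ c := fun c =>
    C0 (S c) (Sπ c) (fun w _ => Sp c w) (fun w _ => (Ss c _ _).trans (Sp c w)) (S00 c) (S01 c)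
  -- the vector `ξ`
  obtain ⟨D2, hD2⟩ := T.exp (T.e 2)
  set ξ := dv D2 T.q with hξ
  have hξi : ∀ i, T.h i ⬝ᵥ ξ = -T.u i * T.h i ⬝ᵥ T.e 2 := fun i => by rw [hξ, T.lf_hD, hD2]
  have u01 : T.u 0 - T.u 1 ≠ 0 := sub_ne_zero.2 fun h => by simpa using T.uinj h
  have u02 : T.u 0 - T.u 2 ≠ 0 := sub_ne_zero.2 fun h => by simpa using T.uinj h
  have u12 : T.u 1 - T.u 2 ≠ 0 := sub_ne_zero.2 fun h => by simpa using T.uinj h
  have ξn : ξ ∉ T.La := fun h => by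
    obtain ⟨d, hd⟩ := (T.lf_La hθ ξ).1 h
    have a0 := mul_right_cancel₀ (hθ 0) ((hξi 0).symm.trans (hd 0))
    have a1 := mul_right_cancel₀ (hθ 1) ((hξi 1).symm.trans (hd 1))
    exact u01 (by linear_combination a1 - a0)
  -- constant covectors killing `La`
  have Gm : ∀ m : Fin 6 → Ω, dv T.Dπ m = 0 → (∀ l ∈ T.La, m ⬝ᵥ l = 0) →
      (∀ D : Derivation ℂ Ω Ω, dv D T.p ∈ T.La → ∀ l ∈ T.La,
        m ⬝ᵥ dv D l = (dv D T.p ⬝ᵥ Bt *ᵥ l) * (m ⬝ᵥ ξ)) ∧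
      T.Dπ (m ⬝ᵥ ξ) = 2 * b2 / 3 * (m ⬝ᵥ ξ) := by
    intro m hm hk
    choose η hη hη' using fun b => T.lf_grad (y := m b) (congrFun hm b)
    set G : Matrix (Fin 6) (Fin 6) Ω := Matrix.of fun a b => -η b a with hG
    have Gπ : ∀ a b, T.Dπ (G a b) = 0 := fun a b => by
      have := congrFun (hη b) a
      simp only [dv, Pi.zero_apply] at this
      simp [hG, this]
    have GD : ∀ (D : Derivation ℂ Ω Ω), ∀ l ∈ T.La, dv D T.p ⬝ᵥ G *ᵥ l = m ⬝ᵥ dv D l := by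
      intro D l hl
      have h1 := congrArg D (hk l hl)
      rw [lf_dot, map_zero] at h1
      have h2 : dv D T.p ⬝ᵥ G *ᵥ l = -(dv D m ⬝ᵥ l) := by
        simp only [dotProduct, mulVec, hG, Matrix.of_apply, Finset.mul_sum, dv, hη' _ D,
          Finset.sum_mul, ← Finset.sum_neg_distrib]
        rw [Finset.sum_comm]
        exact Finset.sum_congr rfl fun a _ => Finset.sum_congr rfl fun b _ => by ring
      linear_combination h2 - h1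
    have Gq : ∀ v, (∀ i, T.h i ⬝ᵥ v = 0) → v ⬝ᵥ G *ᵥ T.e 0 = 0 := fun v hv => by
      obtain ⟨D, rfl⟩ := T.exp v
      rw [GD D _ T.lf_m0]
      exact hk _ (T.lf_kerLa fun i => by
        show T.h i ⬝ᵥ dv D T.q = 0
        rw [T.lf_hD, hv, mul_zero])
    have Gp : ∀ v ∈ T.La, v ⬝ᵥ G *ᵥ T.p = 0 := fun v hv => by
      obtain ⟨D, rfl⟩ := T.exp v
      rw [GD D _ T.lf_pm]
      exact hk _ hv
    have pe : ∀ a, T.p ⬝ᵥ G *ᵥ T.e a = 0 := fun a => by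
      induction a with
      | zero => exact Gq _ T.hp
      | succ a ih =>
        have := congrArg T.Dπ ih
        rwa [lf_bil _ G Gπ, T.Dπp, zero_dotProduct, zero_add, map_zero] at this
    have g00 := Gq _ T.lf_h0
    have g01 : T.e 0 ⬝ᵥ G *ᵥ T.e 1 = 0 := by
      have := congrArg T.Dπ g00
      rw [lf_bil _ G Gπ, map_zero] at this
      have g10 : dv T.Dπ (T.e 0) ⬝ᵥ G *ᵥ T.e 0 = 0 := Gq _ T.lf_h1
      rwa [g10, zero_add] at this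
    obtain ⟨-, -, g20, -, -, -, dg⟩ := T.lf_c0 e3 G Gπ g00 g01
    have g02 : T.e 0 ⬝ᵥ G *ᵥ T.e 2 = m ⬝ᵥ ξ := by
      rw [← g20, ← hD2, GD D2 _ T.lf_m0]; rfl
    have := C0 G Gπ (fun w hw => by
      obtain ⟨a, b, c, d, rfl⟩ := (T.lf_mem _).1 hw
      simp [mulVec_add, mulVec_smul, pe, Gp _ T.lf_pm]) Gp g00 g01
    rw [g02] at this dg
    exact ⟨fun D hD l hl => by rw [← GD D l hl, this _ hD _ hl], dg⟩
  let U : Submodule Ω (Fin 6 → Ω) :=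
    { carrier := {m | ∀ l ∈ T.La, m ⬝ᵥ l = 0}
      add_mem' := fun ha hb l hl => by rw [add_dotProduct, ha l hl, hb l hl, add_zero]
      zero_mem' := fun l _ => zero_dotProduct l
      smul_mem' := fun c _ ha l hl => by rw [smul_dotProduct, ha l hl, smul_zero] }
  obtain ⟨ι, mm, hE, hU⟩ := ech_ex U rfl
  have mU : ∀ a, ∀ l ∈ T.La, mm a ⬝ᵥ l = 0 := fun a =>
    (show mm a ∈ U from hU ▸ Submodule.subset_span ⟨a, rfl⟩)
  have mπ : ∀ a, dv T.Dπ (mm a) = 0 := hE.dv T.Dπ fun a => by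
    rw [hU]
    intro l hl
    have := congrArg T.Dπ (mU a l hl)
    rwa [lf_dot, mU a _ (T.lf_stab h3 hl), add_zero, map_zero] at this
  have mLa : ∀ v, (∀ a, mm a ⬝ᵥ v = 0) → v ∈ T.La := by
    intro v hv
    have : ∀ m ∈ U, m ⬝ᵥ v = 0 := fun m hm => by
      rw [← hU] at hm
      rw [hE.repr hm, sum_dotProduct]
      exact Finset.sum_eq_zero fun a _ => by rw [smul_dotProduct, hv, smul_zero]
    refine (T.lf_La hθ v).2 ⟨T.h 0 ⬝ᵥ v / T.h 0 ⬝ᵥ T.e 2, fun i => ?_⟩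
    have h := this ((T.h 0 ⬝ᵥ T.e 2) • T.h i - (T.h i ⬝ᵥ T.e 2) • T.h 0) fun l hl => by
      obtain ⟨d, hd⟩ := (T.lf_La hθ l).1 hl
      simp only [sub_dotProduct, smul_dotProduct, hd, smul_eq_mul]; ring
    simp only [sub_dotProduct, smul_dotProduct, smul_eq_mul] at h
    have := hθ 0
    field_simp
    linear_combination h
  have dLa : ∀ D : Derivation ℂ Ω Ω, dv D T.p ∈ T.La → ∀ l ∈ T.La,
      dv D l - (dv D T.p ⬝ᵥ Bt *ᵥ l) • ξ ∈ T.La := fun D hD l hl => mLa _ fun a => by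
    rw [dotProduct_sub, dotProduct_smul, (Gm _ (mπ a) (mU a)).1 D hD l hl, smul_eq_mul, sub_self]
  have cart := T.lf_cart Bt ξ dLa Bs B01 B02 B11
  -- the covector `n`
  set n0 : Fin 6 → Ω := ((T.u 1 - T.u 2) / T.h 0 ⬝ᵥ T.e 2) • T.h 0 +
    ((T.u 2 - T.u 0) / T.h 1 ⬝ᵥ T.e 2) • T.h 1 + ((T.u 0 - T.u 1) / T.h 2 ⬝ᵥ T.e 2) • T.h 2 with hn0
  have n0v : ∀ v, n0 ⬝ᵥ v = (T.u 1 - T.u 2) * (T.h 0 ⬝ᵥ v / T.h 0 ⬝ᵥ T.e 2) +
      (T.u 2 - T.u 0) * (T.h 1 ⬝ᵥ v / T.h 1 ⬝ᵥ T.e 2) +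
      (T.u 0 - T.u 1) * (T.h 2 ⬝ᵥ v / T.h 2 ⬝ᵥ T.e 2) := fun v => by
    simp only [hn0, add_dotProduct, smul_dotProduct, smul_eq_mul]; ring
  obtain ⟨a0, ha0⟩ : ∃ a, n0 a ≠ 0 := by
    by_contra h
    push Not at h
    have := Fintype.linearIndependent_iff.1 T.hli ![(T.u 1 - T.u 2) / T.h 0 ⬝ᵥ T.e 2,
      (T.u 2 - T.u 0) / T.h 1 ⬝ᵥ T.e 2, (T.u 0 - T.u 1) / T.h 2 ⬝ᵥ T.e 2] (by
        rw [Fin.sum_univ_three]; exact funext h) 0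
    exact div_ne_zero u12 (hθ 0) this
  set n : Fin 6 → Ω := (n0 a0)⁻¹ • n0 with hn
  have na : n a0 = 1 := by simp [hn, ha0]
  have nv : ∀ v, n ⬝ᵥ v = 0 ↔ n0 ⬝ᵥ v = 0 := fun v => by simp [hn, ha0]
  have t0 := hθ 0
  have t1 := hθ 1
  have t2 := hθ 2
  have nLa : ∀ l ∈ T.La, n ⬝ᵥ l = 0 := fun l hl => by
    obtain ⟨d, hd⟩ := (T.lf_La hθ l).1 hl
    rw [nv, n0v, hd, hd, hd]; field_simp; ring
  have nξ : n ⬝ᵥ ξ = 0 := by rw [nv, n0v, hξi, hξi, hξi]; field_simp; ring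
  have nk : ∀ v, n ⬝ᵥ v = 0 → ∃ c : Ω, v - c • ξ ∈ T.La := fun v hv => by
    rw [nv, n0v] at hv
    set y0 := T.h 0 ⬝ᵥ v / T.h 0 ⬝ᵥ T.e 2 with hy0
    set y1 := T.h 1 ⬝ᵥ v / T.h 1 ⬝ᵥ T.e 2 with hy1
    set y2 := T.h 2 ⬝ᵥ v / T.h 2 ⬝ᵥ T.e 2 with hy2
    have e0 : T.h 0 ⬝ᵥ v = y0 * T.h 0 ⬝ᵥ T.e 2 := by rw [hy0]; field_simp
    have e1 : T.h 1 ⬝ᵥ v = y1 * T.h 1 ⬝ᵥ T.e 2 := by rw [hy1]; field_simp
    have e2 : T.h 2 ⬝ᵥ v = y2 * T.h 2 ⬝ᵥ T.e 2 := by rw [hy2]; field_simp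
    obtain ⟨c, hc⟩ : ∃ c, c * (T.u 0 - T.u 1) = y1 - y0 := ⟨(y1 - y0) / (T.u 0 - T.u 1), by
      field_simp⟩
    refine ⟨c, (T.lf_La hθ _).2 ⟨y0 + c * T.u 0, fun i => ?_⟩⟩
    rw [dotProduct_sub, dotProduct_smul, hξi, smul_eq_mul]
    fin_cases i
    · show T.h 0 ⬝ᵥ v - c * (-T.u 0 * T.h 0 ⬝ᵥ T.e 2) = _ * T.h 0 ⬝ᵥ T.e 2
      rw [e0]; ring
    · show T.h 1 ⬝ᵥ v - c * (-T.u 1 * T.h 1 ⬝ᵥ T.e 2) = _ * T.h 1 ⬝ᵥ T.e 2
      rw [e1]; linear_combination -(T.h 1 ⬝ᵥ T.e 2) * hc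
    · show T.h 2 ⬝ᵥ v - c * (-T.u 2 * T.h 2 ⬝ᵥ T.e 2) = _ * T.h 2 ⬝ᵥ T.e 2
      rw [e2]
      have : y2 + c * T.u 2 = y0 + c * T.u 0 := mul_left_cancel₀ u01 (by
        linear_combination hv + (T.u 2 - T.u 0) * hc)
      linear_combination (T.h 2 ⬝ᵥ T.e 2) * this
  have ya : ∀ a, n ⬝ᵥ (Pi.single a 1 - n a • Pi.single a0 1 : Fin 6 → Ω) = 0 := fun a => by
    simp [dotProduct_sub, na]
  have mul : ∀ y : Fin 6 → Ω, (∀ l ∈ T.La, y ⬝ᵥ l = 0) → ∀ a, ∃ c : Ω,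
      (∀ y' : Fin 6 → Ω, (∀ l ∈ T.La, y' ⬝ᵥ l = 0) → y' a - n a * y' a0 = c * (y' ⬝ᵥ ξ)) :=
    fun _ _ a => by
    obtain ⟨c, hc⟩ := nk _ (ya a)
    refine ⟨c, fun y' hy' => ?_⟩
    have := hy' _ hc
    simp only [dotProduct_sub, dotProduct_smul, dotProduct_single, mul_one, smul_eq_mul] at this
    linear_combination this
  choose cc hcc using mul 0 fun l _ => zero_dotProduct l
  have dk : ∀ y : Fin 6 → Ω,
      (∀ D : Derivation ℂ Ω Ω, dv D T.p ∈ T.La → ∀ l ∈ T.La, dv D y ⬝ᵥ l = 0) →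
      ∀ D : Derivation ℂ Ω Ω, dv D T.p ∈ T.La → ∀ a, D (y a) = n a * D (y a0) := by
    intro y hy D hD a
    have := hcc a _ (hy D hD)
    rw [cart y hy D hD, mul_zero, sub_eq_zero] at this
    exact this
  have dn : ∀ D : Derivation ℂ Ω Ω, dv D T.p ∈ T.La → ∀ a, D (n a) = 0 := fun D hD a => by
    rw [dk n (fun D hD l hl => ?_) D hD a, na, D.map_one_eq_zero, mul_zero]
    have h1 := congrArg D (nLa l hl)
    have h2 := nLa _ (dLa D hD l hl)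
    rw [lf_dot, map_zero] at h1
    rw [dotProduct_sub, dotProduct_smul, nξ, smul_zero, sub_zero] at h2
    rwa [h2, add_zero] at h1
  -- the form `Φ`
  obtain ⟨am, ham⟩ : ∃ a, mm a ⬝ᵥ ξ ≠ 0 := by
    by_contra h
    push Not at h
    exact ξn (mLa _ h)
  set m := mm am with hm
  obtain ⟨m1, m2⟩ := Gm m (mπ am) (mU am)
  set Φ0 : Matrix (Fin 6) (Fin 6) Ω :=
    Matrix.of fun a b => L.H a b + m a * (τ b / m ⬝ᵥ ξ) with hΦ0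
  have τLa : ∀ l ∈ T.La, τ ⬝ᵥ l = 0 := by
    have sw : ∀ v w x : Fin 6 → Ω, (fun c => v ⬝ᵥ S c *ᵥ w) ⬝ᵥ x = (fun c => v ⬝ᵥ S c *ᵥ x) ⬝ᵥ w :=
      fun v w x => by
      simp only [hS, lf_Ps]
      refine (dotProduct_mulVec _ _ _).symm.trans (Eq.trans ?_ (dotProduct_mulVec _ _ _))
      simp only [dotProduct, mulVec, Pv, Matrix.sum_apply, Matrix.smul_apply, smul_eq_mul,
        Finset.mul_sum, Finset.sum_mul]
      rw [Finset.sum_comm]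
      exact Finset.sum_congr rfl fun a _ => Finset.sum_congr rfl fun b _ =>
        Finset.sum_congr rfl fun c _ => by rw [L.Ps2]; ring
    have z0 : τ ⬝ᵥ T.e 0 = 0 := by rw [hτ, sw]; simp [S00]
    intro l hl
    have : τ ⬝ᵥ l = (fun c => T.e 2 ⬝ᵥ S c *ᵥ l) ⬝ᵥ T.e 0 := by
      rw [show τ = fun c => T.e 2 ⬝ᵥ S c *ᵥ T.e 0 from funext fun c => Ss c _ _, sw]
    rw [this]
    simp only [SB _ _ T.lf_m2 _ hl]
    have := smul_dotProduct (T.e 2 ⬝ᵥ Bt *ᵥ l) τ (T.e 0)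
    rw [z0, smul_zero] at this
    exact this
  have dΦ0 : ∀ b, ∀ D : Derivation ℂ Ω Ω, dv D T.p ∈ T.La → ∀ a,
      D (Φ0 a b) = n a * D (Φ0 a0 b) := fun b => dk (fun a => Φ0 a b) fun D hD l hl => by
    have e : dv D (fun a => Φ0 a b) = (fun a => Pv L.P (dv D T.p) a b) +
        ((τ b / m ⬝ᵥ ξ) • dv D m + D (τ b / m ⬝ᵥ ξ) • m) := by
      funext a
      simp only [dv, hΦ0, Matrix.of_apply, map_add, Derivation.leibniz, L.dH, Pi.add_apply,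
        Pi.smul_apply, smul_eq_mul]
      ring
    have h1 := congrArg D (mU am l hl)
    rw [lf_dot, map_zero, ← hm, m1 D hD l hl] at h1
    have h2 : (fun a => Pv L.P (dv D T.p) a b) ⬝ᵥ l = (dv D T.p ⬝ᵥ Bt *ᵥ l) * τ b := by
      rw [← SB b _ hD _ hl, hS, lf_Ps, dotProduct_comm]; rfl
    rw [e, add_dotProduct, add_dotProduct, smul_dotProduct, smul_dotProduct, mU am l hl, h2,
      smul_zero, add_zero, smul_eq_mul, eq_neg_of_add_eq_zero_left h1]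
    field_simp
    ring
  set Φ : Matrix (Fin 6) (Fin 6) Ω := Matrix.of fun a b =>
    Φ0 a b - n a * Φ0 a0 b + n a * (Φ0 b a0 - n b * Φ0 a0 a0) with hΦ
  have Φs : ∀ a b, Φ a b = Φ b a := fun a b => by
    have a1 := hcc a m (mU am)
    have a2 := hcc b m (mU am)
    have a3 := hcc a τ τLa
    have a4 := hcc b τ τLa
    simp only [hΦ, hΦ0, Matrix.of_apply]
    rw [L.Hs b a, L.Hs b a0, L.Hs a a0]
    have e : (m a - n a * m a0) * (τ b - n b * τ a0) = (m b - n b * m a0) * (τ a - n a * τ a0) := by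
      rw [a1, a2, a3, a4]; ring
    linear_combination (m ⬝ᵥ ξ)⁻¹ * e
  have Φv : ∀ v ∈ T.La, Φ *ᵥ v = L.H *ᵥ v := fun v hv => by
    funext a
    have h1 := nLa v hv
    have h2 := mU am v hv
    rw [← hm] at h2
    have : (Φ *ᵥ v) a = (L.H *ᵥ v) a + (m ⬝ᵥ v) * (τ a / m ⬝ᵥ ξ) +
        (n ⬝ᵥ v) * (Φ0 a a0 - n a * Φ0 a0 a0 - Φ0 a0 a) := by
      simp only [mulVec, dotProduct, Finset.sum_mul, ← Finset.sum_add_distrib]
      refine Finset.sum_congr rfl fun b _ => ?_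
      rw [Φs a b, L.Hs a b]
      simp only [hΦ, Matrix.of_apply]
      rw [show Φ0 b a = L.H b a + m b * (τ a / m ⬝ᵥ ξ) from rfl]
      simp only [dotProduct]
      ring
    rw [this, h1, h2]; ring
  refine ⟨⟨n, a0, na, ξ, Bt, Φ, ?_, fun v => ⟨fun hv => ?_, fun hv => ?_⟩,
    fun D => ⟨fun hD => ?_, fun hD => funext (dn D hD)⟩, dLa, Bs,
    fun w _ => by rw [Bv, Sp, mul_zero], by rw [Bv, S00, mul_zero], B01, B02, B11, C0, Φs,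
    fun D hD a b => ?_, (Φv _ T.lf_pm).trans L.Hp, (Φv _ T.lf_m0).trans L.Hq⟩⟩
  · rw [Fintype.linearIndependent_iff]
    intro g hg
    simp only [Fin.sum_univ_five, Matrix.cons_val] at hg
    have k : ∀ i, g 3 = g 4 * T.u i := fun i => by
      have := congrArg (T.h i ⬝ᵥ ·) hg
      simp only [dotProduct_add, dotProduct_smul, T.hp, T.lf_h0, T.lf_h1, hξi, smul_eq_mul,
        mul_zero, zero_add, dotProduct_zero] at this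
      exact mul_right_cancel₀ (hθ i) (by linear_combination this)
    have g4 : g 4 = 0 := mul_right_cancel₀ u01 (by linear_combination k 1 - k 0)
    have g3 : g 3 = 0 := by rw [k 0, g4, zero_mul]
    rw [g3, g4, zero_smul, zero_smul, add_zero, add_zero] at hg
    have h0 := congrFun hg 0
    have hj := congrFun hg T.j
    have ej : T.e 0 T.j = 1 := T.qj
    simp only [Pi.add_apply, Pi.smul_apply, smul_eq_mul, T.lf_e0, mul_zero, add_zero,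
      Pi.zero_apply] at h0
    have g0 : g 0 = 0 := (mul_eq_zero.1 h0).resolve_right T.lf_p0
    simp only [Pi.add_apply, Pi.smul_apply, smul_eq_mul, g0, ej, T.lf_ej 0, mul_zero, add_zero,
      zero_mul, zero_add, mul_one, Pi.zero_apply] at hj
    rw [g0, hj, zero_smul, zero_smul, zero_add, zero_add] at hg
    have g2 : g 2 = 0 := (smul_eq_zero.1 hg).resolve_right T.πne
    intro i
    fin_cases i <;> assumption
  · obtain ⟨c, hc⟩ := nk v hv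
    have := Submodule.add_mem_sup hc (Submodule.smul_mem _ c (Submodule.mem_span_singleton_self ξ))
    rwa [sub_add_cancel] at this
  · obtain ⟨l, hl, w, hw, rfl⟩ := Submodule.mem_sup.1 hv
    obtain ⟨c, rfl⟩ := Submodule.mem_span_singleton.1 hw
    rw [dotProduct_add, dotProduct_smul, nLa l hl, nξ, smul_zero, add_zero]
  · have h1 := congrArg D (nLa _ T.lf_pm)
    have h2 := congrArg D (nLa _ T.lf_m0)
    rw [lf_dot, hD, zero_dotProduct, zero_add, map_zero] at h1 h2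
    obtain ⟨c, hc⟩ := nk _ h1
    obtain ⟨d, hd⟩ := (T.lf_La hθ _).1 hc
    have hy : ∀ i, T.h i ⬝ᵥ dv D T.p = (d - c * T.u i) * T.h i ⬝ᵥ T.e 2 := fun i => by
      have := hd i
      rw [dotProduct_sub, dotProduct_smul, hξi, smul_eq_mul] at this
      linear_combination this
    have h2' : n0 ⬝ᵥ dv D T.q = 0 := (nv _).1 h2
    rw [n0v, T.lf_hD, T.lf_hD, T.lf_hD, hy, hy, hy] at h2'
    have : c = 0 := by
      field_simp at h2'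
      exact mul_right_cancel₀ (mul_ne_zero (mul_ne_zero u01 u02) u12) (by linear_combination h2')
    simpa [this] using hc
  · simp only [hΦ, Matrix.of_apply, map_add, map_sub, Derivation.leibniz, dn D hD, smul_zero,
      add_zero, smul_eq_mul]
    rw [dΦ0 b D hD a, dΦ0 a0 D hD b]
    ring

end PV
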