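import Pool.Agent.Lib.MP_36fb43_ag.TriB

open MvPolynomial Matrix Module

namespace PV

variable {Z : Cone ℂ 6} {Ω : Type} [Field Ω] [Algebra ℂ Ω]

/-- second and third order jets.
Route: `d a` from `T.exp (Pi.single a 1)`. For `y` with `Dπ y = 0`: `D y = ∑ a, dv D p a * d a y`
(`Tri.eq_smul`, also `Tri.lf_grad`), `Dπ (d a y) = 0`, `d a (d b y) = d b (d a y)` (the brackets kill
`p`, so they are multiples of `Dπ`). `dc` gives `Dπ c = 0`, `z a = d a c`. `H a b = d b (z a)`,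
`P e a b = d e (H a b)`. Differentiate `zp` (gives `Hp`), `zq` with `dc1` (gives `Hq`), `Hp` (gives
`Pp`), `z'q` with `dc2` (gives `P(.,q,q) = 0`), that by `Dπ` (gives `P(.,q,e 1) = 0`).
`B = Pv P q`: `dc2` for `D, D', [D,D']` gives `dv D z' . dv D' q` symmetric, and
`dv D z' = B (dv D p) + H (dv D q)`, so `B (dv D p, dv D' q)` is symmetric in `D, D'`. `Tri.ex` with
`(π i, - u i • π i)` (`Tri.pi_ex`) gives `B (π i, π j) = 0` for `i ≠ j`; `v - ∑ (h i . v) π i` lies in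
the span of `p, q, e 1` (`Tri.ker'`); `β i = B (π i, π i)`. -/
theorem leg_two (T : Tri Z Ω) {c c1 c2 : Ω} {z z' : Fin 6 → Ω}
    (dc : ∀ D : Derivation ℂ Ω Ω, D c = z ⬝ᵥ dv D T.p)
    (dc1 : ∀ D : Derivation ℂ Ω Ω, D c1 = z ⬝ᵥ dv D T.q + z' ⬝ᵥ dv D T.p)
    (dc2 : ∀ D : Derivation ℂ Ω Ω, D c2 = z' ⬝ᵥ dv D T.q)
    (zp : z ⬝ᵥ T.p = 2 * c) (zq : z ⬝ᵥ T.q = c1) (z'q : z' ⬝ᵥ T.q = 2 * c2) :
    ∃ (H : Matrix (Fin 6) (Fin 6) Ω) (P : Fin 6 → Matrix (Fin 6) (Fin 6) Ω) (β : Fin 3 → Ω),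
      (∀ a b, H a b = H b a) ∧ (∀ a b e, P a b e = P b a e) ∧ (∀ a b e, P a b e = P a e b) ∧
      (∀ D : Derivation ℂ Ω Ω, dv D z = H *ᵥ dv D T.p) ∧
      (∀ (D : Derivation ℂ Ω Ω) a b, D (H a b) = Pv P (dv D T.p) a b) ∧
      (∀ a b e, T.Dπ (P a b e) = 0) ∧ H *ᵥ T.p = z ∧ H *ᵥ T.q = z' ∧ Pv P T.p = 0 ∧
      ∀ a b, Pv P T.q a b = ∑ i, β i * T.h i a * T.h i b := by
  have := cz Ω
  choose d hd using fun a : Fin 6 => T.exp (Pi.single a 1)
  have kill : ∀ D : Derivation ℂ Ω Ω, dv D T.p = 0 → ∀ y, T.Dπ y = 0 → D y = 0 := fun D hD y hy => by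
    obtain ⟨t, rfl⟩ := T.eq_smul hD
    simp [hy]
  have G : ∀ y, T.Dπ y = 0 → ∀ D : Derivation ℂ Ω Ω, D y = ∑ a, dv D T.p a * d a y := by
    intro y hy D
    have := kill (D - ∑ a, dv D T.p a • d a) (by
      rw [dvD_sub, dvD_sum]
      funext i
      simp [dvD_smul, hd, Finset.sum_apply, Pi.single_apply]) y hy
    simpa [der_sum, sub_eq_zero] using this
  have πd : ∀ y, T.Dπ y = 0 → ∀ a, T.Dπ (d a y) = 0 := fun y hy a => by
    have := kill ⁅T.Dπ, d a⁆ (by rw [dv_lie, hd, dv_single, T.Dπp, dv_zero, sub_zero]) y hy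
    rwa [Derivation.commutator_apply, hy, map_zero, sub_zero] at this
  have cm : ∀ y, T.Dπ y = 0 → ∀ a b, d a (d b y) = d b (d a y) := fun y hy a b => by
    have := kill ⁅d a, d b⁆ (by rw [dv_lie, hd, hd, dv_single, dv_single, sub_zero]) y hy
    rwa [Derivation.commutator_apply, sub_eq_zero] at this
  have πc : T.Dπ c = 0 := by rw [dc, T.Dπp, dotProduct_zero]
  have za : ∀ a, z a = d a c := fun a => by rw [dc, hd]; simp
  have πz : ∀ a, T.Dπ (z a) = 0 := fun a => by rw [za]; exact πd c πc a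
  obtain ⟨H, hH⟩ : ∃ H : Matrix (Fin 6) (Fin 6) Ω, ∀ a b, H a b = d b (z a) :=
    ⟨Matrix.of fun a b => d b (z a), fun _ _ => rfl⟩
  obtain ⟨P, hP⟩ : ∃ P : Fin 6 → Matrix (Fin 6) (Fin 6) Ω, ∀ e a b, P e a b = d e (H a b) :=
    ⟨fun e => Matrix.of fun a b => d e (H a b), fun _ _ _ => rfl⟩
  have πH : ∀ a b, T.Dπ (H a b) = 0 := fun a b => by rw [hH]; exact πd _ (πz a) b
  have Hs : ∀ a b, H a b = H b a := fun a b => by rw [hH, hH, za, za, cm c πc]
  have s2 : ∀ a b e, P a b e = P a e b := fun a b e => by rw [hP, hP, Hs]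
  have s1 : ∀ a b e, P a b e = P b a e := fun a b e => by
    rw [hP, hP, Hs b e, Hs a e, hH, hH, cm _ (πz e)]
  have dz : ∀ D : Derivation ℂ Ω Ω, dv D z = H *ᵥ dv D T.p := fun D => by
    funext a
    show D (z a) = ∑ b, H a b * dv D T.p b
    rw [G _ (πz a) D]
    exact Finset.sum_congr rfl fun b _ => by rw [hH, mul_comm]
  have dH : ∀ (D : Derivation ℂ Ω Ω) a b, D (H a b) = Pv P (dv D T.p) a b := fun D a b => by
    rw [G _ (πH a b) D, Pv_apply]
    exact Finset.sum_congr rfl fun e _ => by rw [hP]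
  have dH' : ∀ D : Derivation ℂ Ω Ω, H.map D = Pv P (dv D T.p) := fun D => by
    ext a b; exact dH D a b
  have πP : ∀ a b e, T.Dπ (P a b e) = 0 := fun a b e => by rw [hP]; exact πd _ (πH b e) a
  have two : ∀ (D : Derivation ℂ Ω Ω) (y : Ω), D (2 * y) = 2 * D y := fun D y => by
    rw [two_mul, two_mul, map_add]
  have sw : ∀ {M : Matrix (Fin 6) (Fin 6) Ω}, (∀ a b, M a b = M b a) → ∀ v w,
      (M *ᵥ v) ⬝ᵥ w = (M *ᵥ w) ⬝ᵥ v := fun h v w => by
    rw [dotProduct_comm, bil_symm h, dotProduct_comm]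
  have Hp : H *ᵥ T.p = z := by
    funext a
    have h := congrArg (d a) zp
    rw [D_dot, two, dc, dz, hd, sw Hs] at h
    simp only [dotProduct_single, mul_one] at h
    linear_combination h
  have Hq : H *ᵥ T.q = z' := by
    funext a
    have h := congrArg (d a) zq
    rw [D_dot, dc1, dz, hd, sw Hs] at h
    simp only [dotProduct_single, mul_one] at h
    linear_combination h
  have Pp : Pv P T.p = 0 := by
    ext b a
    have h := congrArg (dv (d a)) Hp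
    rw [dv_mulVec, dz, dH', add_eq_right, Pv_swap s1 s2, hd] at h
    simpa using congrFun h b
  set B := Pv P T.q with hB
  have Bs : ∀ a b, B a b = B b a := Pv_symm s2 _
  have dz' : ∀ D : Derivation ℂ Ω Ω, dv D z' = B *ᵥ dv D T.p + H *ᵥ dv D T.q := fun D => by
    rw [← Hq, dv_mulVec, dH', Pv_swap s1 s2]
  have Bq : B *ᵥ T.q = 0 := by
    funext a
    have h := congrArg (d a) z'q
    rw [D_dot, two, dc2, dz', add_dotProduct, sw Hs, Hq, hd, sw Bs] at h
    simp only [dotProduct_single, mul_one] at h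
    show _ = (0 : Ω)
    linear_combination h
  have B1 : B *ᵥ T.e 1 = 0 := by
    have h := congrArg (dv T.Dπ) Bq
    have e : (fun a => (P a).map T.Dπ) = fun _ => 0 := by
      funext a; ext b e; exact πP a b e
    rw [dv_mulVec, hB, Pv_map, e, dv_zero, add_mulVec, Pv_swap s1 s2 (dv T.Dπ T.q), ← hB] at h
    have e0 : Pv (fun _ : Fin 6 => (0 : Matrix (Fin 6) (Fin 6) Ω)) T.q = 0 := by simp [Pv]
    rw [e0, zero_mulVec, zero_add, ← two_smul Ω] at h
    exact (smul_eq_zero.1 h).resolve_left two_ne_zero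
  have Bp : B *ᵥ T.p = 0 := by rw [hB, Pv_swap s1 s2, Pp, zero_mulVec]
  have sym : ∀ D E : Derivation ℂ Ω Ω,
      (B *ᵥ dv D T.p) ⬝ᵥ dv E T.q = (B *ᵥ dv E T.p) ⬝ᵥ dv D T.q := fun D E => by
    have h1 := congrArg D (dc2 E)
    have h2 := congrArg E (dc2 D)
    have h3 := dc2 ⁅D, E⁆
    rw [D_dot, dz', add_dotProduct] at h1 h2
    rw [Derivation.commutator_apply, dv_lie, dotProduct_sub] at h3
    rw [sw Hs] at h2
    linear_combination h2 - h1 + h3
  obtain ⟨π, π0, πj, hπ⟩ := T.pi_ex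
  have off : ∀ i j, i ≠ j → (B *ᵥ π i) ⬝ᵥ π j = 0 := by
    have ex : ∀ i, ∃ D : Derivation ℂ Ω Ω, dv D T.p = π i ∧ dv D T.q = -T.u i • π i := fun i =>
      T.ex _ _ (by simp [π0]) (by simp [πj]) fun a => by
        rw [dotProduct_add, dotProduct_smul, dotProduct_smul, hπ]
        by_cases h : a = i <;> simp [h]
    intro i j hij
    obtain ⟨D, a1, a2⟩ := ex i
    obtain ⟨E, b1, b2⟩ := ex j
    have h := sym D E
    rw [a1, a2, b1, b2, dotProduct_smul, dotProduct_smul, sw Bs (π j)] at h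
    simp only [smul_eq_mul] at h
    exact mul_left_cancel₀ (sub_ne_zero.2 (T.uinj.ne hij)) (by linear_combination h)
  have dec : ∀ v, B *ᵥ v = ∑ i, (T.h i ⬝ᵥ v) • B *ᵥ π i := fun v => by
    obtain ⟨a, b, e, h⟩ := T.ker' (v := v - ∑ i, (T.h i ⬝ᵥ v) • π i) fun i => by
      rw [dotProduct_sub, T.dec hπ, sub_self]
    have := congrArg (B *ᵥ ·) h
    simp only [mulVec_sub, mulVec_add, mulVec_smul, mulVec_sum, Bp, Bq, B1, smul_zero, add_zero,
      sub_eq_zero] at this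
    exact this
  refine ⟨H, P, fun i => (B *ᵥ π i) ⬝ᵥ π i, Hs, s1, s2, dz, dH, πP, Hp, Hq, Pp, fun a b => ?_⟩
  have e : B a b = (B *ᵥ Pi.single b 1) ⬝ᵥ Pi.single a 1 := by simp
  rw [← hB, e, dec, sum_dotProduct]
  refine Finset.sum_congr rfl fun i _ => ?_
  rw [smul_dotProduct, sw Bs, dec, sum_dotProduct, Finset.sum_eq_single i]
  · simp only [smul_dotProduct, dotProduct_single, mul_one, smul_eq_mul]; ring
  · intro j _ hj
    rw [smul_dotProduct, off j i hj, smul_zero]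
  · simp

end PV
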