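import Pool.Agent.Lib.MP_36fb43_ag.TriB

open MvPolynomial Matrix Module

namespace PV

variable {Z : Cone ℂ 6} {Ω : Type} [Field Ω] [Algebra ℂ Ω]

/-- conjugate of a derivation by an automorphism over `ℂ` -/
noncomputable def lt_conj (g : Ω ≃ₐ[ℂ] Ω) (D : Derivation ℂ Ω Ω) : Derivation ℂ Ω Ω where
  toLinearMap := g.toLinearMap ∘ₗ D.toLinearMap ∘ₗ g.symm.toLinearMap
  map_one_eq_zero' := by simp
  leibniz' := fun a b => by simp

theorem lt_conj_apply (g : Ω ≃ₐ[ℂ] Ω) (D : Derivation ℂ Ω Ω) (y : Ω) :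
    lt_conj g D (g y) = g (D y) := by
  change g (D (g.symm (g y))) = _
  rw [g.symm_apply_apply]

theorem lt_dot (g : Ω ≃ₐ[ℂ] Ω) (v w : Fin 6 → Ω) : g (v ⬝ᵥ w) = (g ∘ v) ⬝ᵥ (g ∘ w) := by
  simp [dotProduct]

theorem lt_Nm (g : Ω ≃ₐ[ℂ] Ω) {x w : Fin 6 → Ω} (hw : w ∈ Nm Z.I x) : g ∘ w ∈ Nm Z.I (g ∘ x) := by
  induction hw using Submodule.span_induction with
  | mem w h =>
    obtain ⟨f, hf, rfl⟩ := h
    have : g ∘ gr f x = gr f (g ∘ x) := by
      ext i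
      exact (comp_aeval_apply x (g : Ω →ₐ[ℂ] Ω) (pderiv i f))
    rw [this]; exact gr_mem hf
  | zero =>
    have : g ∘ (0 : Fin 6 → Ω) = 0 := by ext i; simp
    rw [this]; exact Submodule.zero_mem _
  | add a b _ _ ha hb =>
    have : g ∘ (a + b) = g ∘ a + g ∘ b := by ext i; simp
    rw [this]; exact Submodule.add_mem _ ha hb
  | smul t a _ ha =>
    have : g ∘ (t • a) = g t • (g ∘ a) := by ext i; simp
    rw [this]; exact Submodule.smul_mem _ _ ha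

/-- transport by `trans` -/
theorem Tri.conj (T : Tri Z Ω) (i i' : Fin 3) : ∃ (g : Ω ≃ₐ[ℂ] Ω) (t c : Ω),
    (∀ y, T.Dπ y = 0 → g y = y) ∧ g ∘ T.p = T.p ∧ g ∘ T.q = T.q ∧ g (T.u i) = T.u i' ∧ t ≠ 0 ∧
      g ∘ T.h i = t • T.h i' ∧ ∀ y, g (T.Dπ y) = c * T.Dπ (g y) := by
  obtain ⟨g0, h1, h2, h3⟩ := T.trans i i'
  let g : Ω ≃ₐ[ℂ] Ω := { g0 with commutes' := fun r => h1 _ (T.Dπ.map_algebraMap r) }
  have gp : g ∘ T.p = T.p := funext fun a => h1 _ (congrFun T.Dπp a)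
  have gq : g ∘ T.q = T.q := funext h2
  have gx : g ∘ T.x i = T.x i' := by
    ext a
    have a1 : g (T.p a) = T.p a := congrFun gp a
    have a2 : g (T.q a) = T.q a := congrFun gq a
    have a3 : g (T.u i) = T.u i' := h3
    simp [Tri.x, a1, a2, a3]
  obtain ⟨t, ht⟩ := T.hline i' (w := g ∘ T.h i) (gx ▸ lt_Nm g (T.hN i))
    (by rw [← gp, ← lt_dot, T.hp, map_zero])
  obtain ⟨c, hc⟩ := T.eq_smul (D := lt_conj g T.Dπ) (by
    ext a
    have a1 : g (T.p a) = T.p a := congrFun gp a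
    have a2 : T.Dπ (T.p a) = 0 := congrFun T.Dπp a
    rw [dv_apply, ← a1, lt_conj_apply, a2, map_zero]; rfl)
  refine ⟨g, t, c, h1, gp, gq, h3, fun e => T.hli.ne_zero i ?_, ht, fun y => ?_⟩
  · rw [e, zero_smul] at ht
    ext a
    exact g.injective ((congrFun ht a).trans (map_zero g).symm)
  · rw [← lt_conj_apply, hc]; rfl

theorem Tri.theta_all (T : Tri Z Ω) {i' : Fin 3} (h : T.h i' ⬝ᵥ T.e 2 = 0) (i : Fin 3) :
    T.h i ⬝ᵥ T.e 2 = 0 := by
  obtain ⟨g, t, c, -, -, gq, -, -, ht, hc⟩ := T.conj i i'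
  have e1 : g ∘ T.e 1 = c • T.e 1 := by
    ext a
    have a2 : g (T.q a) = T.q a := congrFun gq a
    change g (T.Dπ (T.q a)) = c * T.Dπ (T.q a)
    rw [hc, a2]
  have e2 : g ∘ T.e 2 = c • (T.Dπ c • T.e 1 + c • T.e 2) := by
    rw [T.e_succ 1, ← dv_smul, ← e1]
    ext a
    exact hc _
  refine g.injective ?_
  rw [lt_dot, ht, e2, map_zero]
  simp [dotProduct_add, T.he1, h]

theorem Leg.beta_all {T : Tri Z Ω} {s : Sect Z 2} (L : Leg T s) {i' : Fin 3} (h : L.β i' = 0)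
    (i : Fin 3) : L.β i = 0 := by
  obtain ⟨g, t, c, h1, -, gq, -, t0, ht, -⟩ := T.conj i i'
  obtain ⟨π, -, -, hπ⟩ := T.pi_ex
  have B : ∀ v w, v ⬝ᵥ Pv L.P T.q *ᵥ w = ∑ a, L.β a * (T.h a ⬝ᵥ v) * (T.h a ⬝ᵥ w) := by
    intro v w
    simp only [dotProduct, mulVec, L.Pq, Fin.sum_univ_three, Fin.sum_univ_six]
    ring
  have gB : ∀ a b, g (Pv L.P T.q a b) = Pv L.P T.q a b := by
    intro a b
    simp only [Pv_apply, map_sum, map_mul]
    exact Finset.sum_congr rfl fun e _ => by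
      rw [h1 _ (L.πP e a b), show g (T.q e) = T.q e from congrFun gq e]
  have key : ∀ w, g ((g.symm ∘ π i') ⬝ᵥ Pv L.P T.q *ᵥ w) = π i' ⬝ᵥ Pv L.P T.q *ᵥ (g ∘ w) := by
    intro w
    simp [dotProduct, mulVec, gB]
  have k := key (π i)
  rw [B, B] at k
  have l1 : ∑ a, L.β a * (T.h a ⬝ᵥ (g.symm ∘ π i')) * (T.h a ⬝ᵥ π i) =
      L.β i * (T.h i ⬝ᵥ (g.symm ∘ π i')) := by simp [hπ]
  have l2 : ∑ a, L.β a * (T.h a ⬝ᵥ π i') * (T.h a ⬝ᵥ (g ∘ π i)) = 0 := by simp [hπ, h]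
  have l3 : g ∘ g.symm ∘ π i' = π i' := by ext a; simp
  rw [l1, l2, map_mul, lt_dot, ht, l3, smul_dotProduct, hπ, if_pos rfl] at k
  simpa [t0] using k

theorem Leg.sym {T : Tri Z Ω} {s : Sect Z 2} (L : Leg T s) (h : Pv L.P T.q = 0)
    (D E : Derivation ℂ Ω Ω) :
    Pv L.P (dv D T.q) *ᵥ dv E T.p = Pv L.P (dv E T.q) *ᵥ dv D T.p := by
  have s1 : ∀ (D : Derivation ℂ Ω Ω) a b e, (L.P a).map D b e = (L.P b).map D a e :=
    fun D a b e => congrArg D (L.Ps1 a b e)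
  have s2 : ∀ (D : Derivation ℂ Ω Ω) a b e, (L.P a).map D b e = (L.P a).map D e b :=
    fun D a b e => congrArg D (L.Ps2 a b e)
  have a1 : ∀ D : Derivation ℂ Ω Ω, Pv L.P (dv D T.q) = -Pv (fun a => (L.P a).map D) T.q := by
    intro D
    have := Pv_map D L.P T.q
    rw [h, Matrix.map_zero _ (map_zero D)] at this
    exact eq_neg_of_add_eq_zero_right this.symm
  have a2 : Pv (fun a => (L.P a).map D) (dv E T.p) = Pv (fun a => (L.P a).map E) (dv D T.p) := by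
    ext a b
    have b1 := congrFun (congrFun (Pv_map D L.P (dv E T.p)) a) b
    have b2 := congrFun (congrFun (Pv_map E L.P (dv D T.p)) a) b
    have b3 := L.dH ⁅D, E⁆ a b
    rw [dv_lie, Pv_sub, Derivation.commutator_apply, L.dH, L.dH] at b3
    simp only [Matrix.map_apply, Matrix.add_apply, Matrix.sub_apply] at b1 b2 b3
    linear_combination b3 - b1 + b2
  rw [a1, a1, neg_mulVec, neg_mulVec, Pv_swap (s1 D) (s2 D), Pv_swap (s1 E) (s2 E), a2]

theorem tricho {T : Tri Z Ω} {s : Sect Z 2} (L : Leg T s) (hs : ¬ s.Poly) :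
    (∀ i, T.h i ⬝ᵥ T.e 2 = 0) ∨ ((∀ i, L.β i ≠ 0) ∧ ∀ i, T.h i ⬝ᵥ T.e 2 ≠ 0) := by
  by_cases h0 : ∀ i, T.h i ⬝ᵥ T.e 2 = 0
  · exact Or.inl h0
  have hθ : ∀ i, T.h i ⬝ᵥ T.e 2 ≠ 0 := fun i h => h0 (T.theta_all h)
  refine Or.inr ⟨fun i' hb => hs ?_, hθ⟩
  have := cz Ω
  have hq : Pv L.P T.q = 0 := by
    ext a b
    simp [L.Pq, L.beta_all hb]
  have step : ∀ v, Pv L.P v = 0 → Pv L.P (dv T.Dπ v) = 0 := by
    intro v hv
    have := Pv_map T.Dπ L.P v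
    rw [hv, Matrix.map_zero _ (map_zero T.Dπ)] at this
    have z : Pv (fun a => (L.P a).map T.Dπ) v = 0 := by
      ext a b
      simp [Pv_apply, L.πP]
    rw [z, zero_add] at this
    exact this.symm
  have h1 : Pv L.P (T.e 1) = 0 := step _ hq
  have h2 : Pv L.P (T.e 2) = 0 := step _ h1
  obtain ⟨π, π0, πj, hπ⟩ := T.pi_ex
  have dec : ∀ v, Pv L.P v = ∑ i, (T.h i ⬝ᵥ v) • Pv L.P (π i) := by
    intro v
    obtain ⟨a, b, c, e⟩ := T.ker' (v := v - ∑ i, (T.h i ⬝ᵥ v) • π i) fun i => by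
      rw [dotProduct_sub, T.dec hπ, sub_self]
    have := congrArg (Pv L.P) e
    rw [Pv_sub, Pv_add, Pv_add, Pv_smul, Pv_smul, Pv_smul, L.Pp, hq, h1] at this
    simp only [smul_zero, add_zero, Fin.sum_univ_three, Pv_add, Pv_smul] at this
    rw [Fin.sum_univ_three]
    exact sub_eq_zero.1 this
  choose D Dp Dq using fun i => T.ex (π i) (-T.u i • π i) (by simp [π0]) (by simp [πj]) fun a => by
    rw [← add_smul, dotProduct_smul, hπ]
    split_ifs with e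
    · simp [e]
    · simp
  have off : ∀ i j, i ≠ j → Pv L.P (π i) *ᵥ π j = 0 := by
    intro i j hij
    have := L.sym hq (D i) (D j)
    rw [Dp, Dp, Dq, Dq, Pv_smul, Pv_smul, smul_mulVec, smul_mulVec,
      Pv_swap L.Ps1 L.Ps2 (π j), ← sub_eq_zero, ← sub_smul, smul_eq_zero] at this
    exact this.resolve_left fun e => hij (T.uinj (by linear_combination -e))
  have all : ∀ i j, Pv L.P (π i) *ᵥ π j = 0 := by
    intro i j
    by_cases hij : i = j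
    · subst hij
      have := congrArg (· *ᵥ π i) (dec (T.e 2))
      simp only [h2, zero_mulVec, Matrix.sum_mulVec, smul_mulVec] at this
      rw [Finset.sum_eq_single i (fun b _ hb => by rw [off b i hb, smul_zero]) (by simp)] at this
      exact (smul_eq_zero.1 this.symm).resolve_left (hθ i)
    · exact off i j hij
  have z1 : ∀ v j, Pv L.P v *ᵥ π j = 0 := fun v j => by
    rw [dec]; simp [Matrix.sum_mulVec, smul_mulVec, all]
  have z2 : ∀ v, Pv L.P v = 0 := fun v => by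
    ext a b
    have : Pv L.P v *ᵥ Pi.single b 1 = 0 := by
      rw [Pv_swap L.Ps1 L.Ps2, dec, Matrix.sum_mulVec]
      exact Finset.sum_eq_zero fun j _ => by
        rw [smul_mulVec, Pv_swap L.Ps1 L.Ps2, z1, smul_zero]
    simpa using congrFun this a
  refine T.poly ((2 : Ω)⁻¹ • L.H) (fun E a b => ?_) ?_
  · rw [Matrix.smul_apply, smul_eq_mul, E.leibniz, L.dH, z2, E.leibniz_inv,
      show (2 : Ω) = ((2 : ℕ) : Ω) by simp, E.map_natCast]
    simp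
  · have e : T.x 0 ⬝ᵥ ((2 : Ω)⁻¹ • L.H) *ᵥ T.x 0 = L.c * T.u 0 ^ 2 + L.c1 * T.u 0 + L.c2 := by
      rw [smul_mulVec, Tri.x, mulVec_add, mulVec_smul, L.Hp, L.Hq, dotProduct_comm]
      simp only [smul_dotProduct, add_dotProduct, dotProduct_add, dotProduct_smul, L.zp, L.zq,
        L.z'p, L.z'q, smul_eq_mul]
      field_simp
      ring
    rw [e]; exact L.val 0

end PV
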