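import Pool.Agent.Lib.MP_36fb43_ag.LegA
import Pool.Agent.Lib.MP_36fb43_ag.LegB
import Pool.Agent.Lib.MP_36fb43_ag.LegT

open MvPolynomial Matrix Module

namespace PV

variable {Z : Cone ℂ 6} {Ω : Type} [Field Ω] [Algebra ℂ Ω]

theorem leg_ex (T : Tri Z Ω) (s : Sect Z 2) : Nonempty (Leg T s) := by
  obtain ⟨c, c1, c2, z, z', val, dc, dc1, dc2, zp, zq, z'p, z'q⟩ := leg_one T s
  obtain ⟨H, P, β, a1, a2, a3, a4, a5, a6, a7, a8, a9, a10⟩ := leg_two T dc dc1 dc2 zp zq z'q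
  exact ⟨⟨c, c1, c2, val, z, z', H, P, β, dc, dc1, dc2, zp, zq, z'p, z'q, a1, a2, a3, a4, a5, a6,
    a7, a8, a9, a10⟩⟩

end PV
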