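import Pool.Agent.Lib.MP_36fb43_ag.QuaBA

open MvPolynomial Matrix Module

namespace PV

variable {Z : Cone ℂ 6} {Ω : Type} [Field Ω] [IsAlgClosed Ω] [Algebra ℂ Ω]

variable {K : Type} [Field K] [IsAlgClosed K] [Algebra ℂ K] [Algebra K Ω] [IsScalarTower ℂ K Ω]

omit [IsAlgClosed Ω] in
theorem qb_val (D : Derivation ℂ Ω Ω) {τ : Ω} (hτ : D τ ≠ 0) :
    ∃ O : ValuationSubring Ω, (∀ y, D y = 0 → y ∈ O) ∧ τ ∈ O ∧ O.valuation τ < 1 ∧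
      ∀ y, D y = 0 → O.valuation y < 1 → y = 0 := by
  have hm : ∀ y, D y = 0 → y ∈ cst ({D} : Set (Derivation ℂ Ω Ω)) := fun y hy E hE => by
    rw [Set.mem_singleton_iff.1 hE, hy]
  obtain ⟨O, h1, h2⟩ := val_dom (A := Polynomial (cst ({D} : Set (Derivation ℂ Ω Ω))))
    (Polynomial.aeval τ : Polynomial (cst ({D} : Set (Derivation ℂ Ω Ω))) →ₐ[_] Ω).toRingHom
    (Polynomial.evalRingHom 0) (fun a ha => by
      by_contra h0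
      have h3 : a ≠ 0 := fun h => h0 (by rw [h, map_zero])
      exact hτ (der_alg D (cst {D}) (fun c hc => hc D rfl) ⟨a, h3, ha⟩))
  refine ⟨O, fun y hy => ?_, ?_, ?_, fun y hy hv => ?_⟩
  · simpa using h1 (Polynomial.C ⟨y, hm y hy⟩)
  · simpa using h1 Polynomial.X
  · simpa using (h2 Polynomial.X).2 (by simp)
  · have := (h2 (Polynomial.C ⟨y, hm y hy⟩)).1 (by simpa using hv)
    have h3 : (⟨y, hm y hy⟩ : cst ({D} : Set (Derivation ℂ Ω Ω))) = 0 := by simpa using this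
    exact congrArg Subtype.val h3

omit [IsAlgClosed Ω] [Algebra ℂ Ω] in
theorem qb_det (O : ValuationSubring Ω) {τ : Ω} (hτ : τ ∈ O) (hv : O.valuation τ < 1)
    (M N : Matrix (Fin 3) (Fin 3) Ω) (hN : ∀ a b, N a b ∈ O)
    (hM : ∀ a b, ∃ o ∈ O, M a b = N a b + τ * o) (h : M.det = 0) : O.valuation N.det < 1 := by
  choose o ho hMo using hM
  let N' : Matrix (Fin 3) (Fin 3) O := Matrix.of fun a b => ⟨N a b, hN a b⟩
  let M' : Matrix (Fin 3) (Fin 3) O := Matrix.of fun a b =>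
    ⟨N a b, hN a b⟩ + ⟨τ, hτ⟩ * ⟨o a b, ho a b⟩
  have h1 : O.subtype M'.det = M.det := by
    rw [RingHom.map_det]
    congr 1
    ext a b
    rw [hMo]
    rfl
  have h2 : O.subtype N'.det = N.det := by
    rw [RingHom.map_det]
    rfl
  have h3 : M'.det = 0 := Subtype.ext (h1.trans h)
  have h4 : IsLocalRing.residue O ⟨τ, hτ⟩ = 0 :=
    (IsLocalRing.residue_eq_zero_iff _).2 ((O.valuation_lt_one_iff ⟨τ, hτ⟩).2 hv)
  have h5 : IsLocalRing.residue O N'.det = IsLocalRing.residue O M'.det := by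
    rw [RingHom.map_det, RingHom.map_det]
    congr 1
    ext a b
    simp only [RingHom.mapMatrix_apply, Matrix.map_apply, N', M', Matrix.of_apply, map_add,
      map_mul, h4, zero_mul, add_zero]
  rw [h3, map_zero] at h5
  rw [← h2]
  exact (O.valuation_lt_one_iff N'.det).1 ((IsLocalRing.residue_eq_zero_iff _).1 h5)

section fr
variable {T : Tri Z Ω} (A : QFr T)

omit [IsAlgClosed Ω] in
theorem QFr.ds (i : Fin 3) : A.D0 (T.u i)⁻¹ = -1 := by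
  rw [A.D0.leibniz_inv, A.D0u, smul_eq_mul]
  have := T.qb_u i
  field_simp

omit [IsAlgClosed Ω] in
theorem QFr.dt : A.D0 (T.p T.j) = 1 := (congrFun A.D0p T.j).trans T.qj

omit [IsAlgClosed Ω] in
theorem QFr.comm (D : Derivation ℂ Ω Ω) (h1 : dv A.D0 (dv D T.p) = dv D T.q)
    (h2 : dv A.D0 (dv D T.q) = 0) {y : Ω} (hy : A.D0 y = 0) : A.D0 (D y) = 0 := by
  have h3 : ⁅A.D0, D⁆ = 0 := by
    refine T.uq _ (funext fun a => ?_) (funext fun a => ?_)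
    · have a1 : A.D0 (D (T.p a)) = D (T.q a) := congrFun h1 a
      have a2 : A.D0 (T.p a) = T.q a := congrFun A.D0p a
      change ⁅A.D0, D⁆ (T.p a) = 0
      rw [Derivation.commutator_apply, a1, a2, sub_self]
    · have a1 : A.D0 (D (T.q a)) = 0 := congrFun h2 a
      have a2 : A.D0 (T.q a) = 0 := congrFun A.D0q a
      change ⁅A.D0, D⁆ (T.q a) = 0
      rw [Derivation.commutator_apply, a1, a2, map_zero, sub_self]
  have h4 : ⁅A.D0, D⁆ y = 0 := by rw [h3]; rfl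
  rwa [Derivation.commutator_apply, hy, map_zero, sub_zero] at h4

theorem QFr.exa : ∃ D : Derivation ℂ Ω Ω, dv D T.p = A.w ∧ dv D T.q = 0 ∧
    ∀ y, A.D0 y = 0 → A.D0 (D y) = 0 := by
  obtain ⟨D, h1, h2⟩ := T.ex A.w 0 rfl rfl fun i => by
    rw [add_zero, A.hg, smul_dotProduct, dotProduct_smul, A.gw, smul_zero, smul_zero]
  exact ⟨D, h1, h2, fun y => A.comm D (by rw [h1, h2, A.D0w]) (by rw [h2, qb_zero])⟩

theorem QFr.exi (i : Fin 3) : ∃ D : Derivation ℂ Ω Ω, dv D T.p = -(T.u i)⁻¹ • A.π i ∧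
    dv D T.q = A.π i ∧ D (T.u i) = 0 ∧ ∀ y, A.D0 y = 0 → A.D0 (D y) = 0 := by
  obtain ⟨D, h1, h2⟩ := T.ex (-(T.u i)⁻¹ • A.π i) (A.π i) (A.π0 i) (A.πj i) fun a => by
    rw [A.hg, smul_dotProduct, dotProduct_add, dotProduct_smul, dotProduct_smul, A.gπ]
    split_ifs with h
    · have := T.qb_u i
      rw [h]
      simp only [smul_eq_mul]
      field_simp
      ring
    · simp
  refine ⟨D, h1, h2, ?_, fun y => A.comm D ?_ (by rw [h2, A.D0π])⟩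
  · have h3 := qb_tg (T.on i) D
    have h4 : dv D (T.u i • T.p + T.q) = D (T.u i) • T.p := by
      rw [qb_add, qb_smul, h1, h2, smul_smul, mul_neg, mul_inv_cancel₀ (T.qb_u i)]
      module
    rw [h4] at h3
    exact qb_tg_zero (T.nt i) h3
  · rw [h1, h2, qb_smul, A.D0π, map_neg, A.ds, smul_zero, add_zero, neg_neg, one_smul]

omit [IsAlgClosed Ω] in
theorem QFr.dotk {v w : Fin 6 → Ω} (hv : dv A.D0 v = 0) (hw : dv A.D0 w = 0) :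
    A.D0 (v ⬝ᵥ w) = 0 := by
  rw [qb_dot, hv, hw, zero_dotProduct, dotProduct_zero, add_zero]

variable {s : Sect Z 2} (L : Leg T s)

omit [IsAlgClosed Ω] in
theorem QFr.pq (v : Fin 6 → Ω) :
    Pv L.P T.q *ᵥ v = ∑ i, (L.β i * A.c i ^ 2 * (A.g i ⬝ᵥ v)) • A.g i := by
  funext a
  simp only [Matrix.mulVec, dotProduct, L.Pq, Finset.sum_apply, Pi.smul_apply, smul_eq_mul,
    Finset.sum_mul, Finset.mul_sum]
  rw [Finset.sum_comm]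
  refine Finset.sum_congr rfl fun i _ => Finset.sum_congr rfl fun b _ => ?_
  rw [A.hg i]
  simp only [Pi.smul_apply, smul_eq_mul]
  ring

omit [IsAlgClosed Ω] in
theorem QFr.pqπ (i : Fin 3) : Pv L.P T.q *ᵥ A.π i = (L.β i * A.c i ^ 2) • A.g i := by
  rw [A.pq L, Finset.sum_eq_single i]
  · rw [A.gπ, if_pos rfl, mul_one]
  · intro a _ ha
    rw [A.gπ, if_neg ha, mul_zero, zero_smul]
  · simp

omit [IsAlgClosed Ω] in
theorem QFr.pq0 {v : Fin 6 → Ω} (hv : ∀ i, A.g i ⬝ᵥ v = 0) : Pv L.P T.q *ᵥ v = 0 := by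
  rw [A.pq L]
  exact Finset.sum_eq_zero fun i _ => by rw [hv, mul_zero, zero_smul]

omit [IsAlgClosed Ω] in
theorem QFr.Hw : dv A.D0 (L.H *ᵥ A.w) = 0 := by
  rw [qb_mulVec A.D0 _ _ (L.dH A.D0), A.D0p, A.D0w, A.pq0 L A.gw, Matrix.mulVec_zero, add_zero]

theorem QFr.Hπ (i : Fin 3) : ∃ (ψ : Fin 6 → Ω) (b : Ω), dv A.D0 ψ = 0 ∧ A.D0 b = 0 ∧
    L.β i * A.c i ^ 2 = b * T.u i ^ 2 ∧ L.H *ᵥ A.π i = ψ + (b * T.u i) • A.g i := by
  obtain ⟨D, h1, h2, -, hk⟩ := A.exi i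
  have hkv : ∀ v : Fin 6 → Ω, dv A.D0 v = 0 → dv A.D0 (dv D v) = 0 := fun v hv =>
    funext fun a => hk _ (congrFun hv a)
  have hu := T.qb_u i
  obtain ⟨b, hb⟩ : ∃ b, L.β i * A.c i ^ 2 = b * T.u i ^ 2 :=
    ⟨L.β i * A.c i ^ 2 / T.u i ^ 2, by field_simp⟩
  have z1 : dv A.D0 L.z' = 0 := by
    rw [← L.Hq, qb_mulVec A.D0 _ _ (L.dH A.D0), A.D0p, A.D0q, A.pq0 L A.gq, Matrix.mulVec_zero,
      add_zero]
  have z2 : dv A.D0 (L.z - T.p T.j • L.z') = 0 := by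
    rw [qb_sub, qb_smul, A.dt, z1, L.dz, A.D0p, L.Hq, smul_zero, add_zero, one_smul, sub_self]
  have z3 : L.H *ᵥ A.π i = dv D L.z' + (b * T.u i) • A.g i := by
    rw [← L.Hq, qb_mulVec D _ _ (L.dH D), qb_Pv_swap L.Ps1 L.Ps2, h1, h2, Matrix.mulVec_smul,
      A.pqπ L, hb, smul_smul, show -(T.u i)⁻¹ * (b * T.u i ^ 2) = -(b * T.u i) by field_simp]
    module
  have z4 : D (T.p T.j) = 0 := by
    have : D (T.p T.j) = (-(T.u i)⁻¹ • A.π i) T.j := congrFun h1 T.j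
    rw [this, Pi.smul_apply, A.πj, smul_zero]
  have z5 : b • A.g i = -dv D (L.z - T.p T.j • L.z') - (T.p T.j + (T.u i)⁻¹) • dv D L.z' := by
    rw [qb_sub, qb_smul, z4, L.dz, h1, Matrix.mulVec_smul, z3, smul_add, smul_smul,
      show -(T.u i)⁻¹ * (b * T.u i) = -b by field_simp]
    module
  have z6 : dv A.D0 (b • A.g i) = 0 := by
    rw [z5, ← neg_one_smul Ω (dv D _), qb_sub, qb_smul, qb_smul, hkv _ z2, hkv _ z1, map_add, A.dt,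
      A.ds, map_neg, A.D0.map_one_eq_zero]
    simp
  obtain ⟨a, ha⟩ := A.gone i
  rw [qb_smul, A.D0g, smul_zero, add_zero] at z6
  have z7 : A.D0 b * A.g i a = 0 := congrFun z6 a
  rw [ha, mul_one] at z7
  exact ⟨dv D L.z', b, hkv _ z1, z7, hb, z3⟩

omit [IsAlgClosed Ω] in
theorem QFr.tr (D : Derivation ℂ Ω Ω) {ψ : Fin 6 → Ω} {e : Ω}
    (h : L.H *ᵥ A.π 0 = ψ + e • A.g 0) (v : Fin 6 → Ω) :
    v ⬝ᵥ Pv L.P (A.π 0) *ᵥ dv D T.p = v ⬝ᵥ dv D ψ + D e * (A.g 0 ⬝ᵥ v) +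
      e * (v ⬝ᵥ dv D (A.g 0)) - (L.H *ᵥ v) ⬝ᵥ dv D (A.π 0) := by
  have h1 := qb_mulVec D _ _ (L.dH D) (A.π 0)
  rw [h, qb_add, qb_smul, qb_Pv_swap L.Ps1 L.Ps2] at h1
  have h2 := congrArg (fun y => v ⬝ᵥ y) h1
  simp only [dotProduct_add, dotProduct_smul, smul_eq_mul] at h2
  rw [qb_sym L.Hs v, dotProduct_comm v (A.g 0), dotProduct_comm (dv D (A.π 0))] at h2
  linear_combination -h2

omit [IsAlgClosed Ω] in
theorem QFr.dec (v : Fin 6 → Ω) : ∃ a b e : Ω, v = a • T.p + b • T.q + e • A.w +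
    (A.g 0 ⬝ᵥ v) • A.π 0 + (A.g 1 ⬝ᵥ v) • A.π 1 + (A.g 2 ⬝ᵥ v) • A.π 2 := by
  obtain ⟨a, b, e, h⟩ := A.ker
    (v - (A.g 0 ⬝ᵥ v) • A.π 0 - (A.g 1 ⬝ᵥ v) • A.π 1 - (A.g 2 ⬝ᵥ v) • A.π 2) fun i => by
      simp only [dotProduct_sub, dotProduct_smul, A.gπ]
      fin_cases i <;> simp
  exact ⟨a, b, e, by rw [← h]; module⟩

end fr

theorem QFr.deg {T : Tri Z Ω} (A : QFr T) {s : Sect Z 2} (L : Leg T s) (hβ : ∀ i, L.β i ≠ 0)
    (hker : ∀ y : Fin 6 → Ω, y ⬝ᵥ Pv L.P y *ᵥ y = 0 →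
      ∃ v, v ∉ Submodule.span Ω {T.p} ∧ Pv L.P y *ᵥ v = 0)
    (R : Fin 3 → Derivation ℂ Ω Ω) (hRk : ∀ r y, A.D0 y = 0 → A.D0 (R r y) = 0)
    (R0 : dv (R 0) T.p = A.w) (R1 : dv (R 1) T.p = -(T.u 1)⁻¹ • A.π 1)
    (R2 : dv (R 2) T.p = -(T.u 2)⁻¹ • A.π 2) :
    (Matrix.of fun r c => ![A.w, A.π 1, A.π 2] c ⬝ᵥ dv (R r) (A.g 0)).det = 0 := by
  have : CharZero Ω := charZero_of_injective_algebraMap (algebraMap ℂ Ω).injective
  choose ψ b hψ hb hβb hH using A.Hπ L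
  have hu := T.qb_u
  have b0 : b 0 ≠ 0 := fun h => by
    have := hβb 0
    rw [h, zero_mul] at this
    exact mul_ne_zero (hβ 0) (pow_ne_zero 2 (A.hc 0)) this
  obtain ⟨O, hO, hτ, hv, hz⟩ := qb_val A.D0 (τ := (T.u 0)⁻¹) (by rw [A.ds]; simp)
  have huO : ∀ i, i ≠ 0 → T.u i ∈ O := fun i hi => by
    by_contra h
    have h1 : O.valuation (T.u i)⁻¹ < 1 := by
      rw [map_inv₀]
      exact inv_lt_one_of_one_lt₀ (not_le.1 fun h2 => h ((O.valuation_le_one_iff _).1 h2))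
    have h2 := hz ((T.u i)⁻¹ - (T.u 0)⁻¹) (by rw [map_sub, A.ds, A.ds, sub_self])
      (O.valuation.map_sub_lt h1 hv)
    exact hi (T.uinj (inv_injective (sub_eq_zero.1 h2)))
  have hkv : ∀ (D : Derivation ℂ Ω Ω), (∀ y, A.D0 y = 0 → A.D0 (D y) = 0) →
      ∀ v : Fin 6 → Ω, dv A.D0 v = 0 → dv A.D0 (dv D v) = 0 := fun D hk v hv =>
    funext fun a => hk _ (congrFun hv a)
  have dO : ∀ v w : Fin 6 → Ω, dv A.D0 v = 0 → dv A.D0 w = 0 → v ⬝ᵥ w ∈ O := fun v w h1 h2 =>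
    hO _ (A.dotk h1 h2)
  have HπO : ∀ i, i ≠ 0 → ∀ y, dv A.D0 y = 0 → (L.H *ᵥ A.π i) ⬝ᵥ y ∈ O := fun i hi y hy => by
    rw [hH, add_dotProduct, smul_dotProduct]
    exact add_mem (dO _ _ (hψ i) hy)
      (mul_mem (mul_mem (hO _ (hb i)) (huO i hi)) (dO _ _ (A.D0g i) hy))
  have BO : ∀ i, i ≠ 0 → ∀ y, dv A.D0 y = 0 →
      y ⬝ᵥ Pv L.P T.q *ᵥ (-(T.u i)⁻¹ • A.π i) ∈ O := fun i hi y hy => by
    have := hu i
    rw [Matrix.mulVec_smul, A.pqπ L, hβb, smul_smul,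
      show -(T.u i)⁻¹ * (b i * T.u i ^ 2) = -(b i * T.u i) by field_simp, dotProduct_smul]
    exact mul_mem (neg_mem (mul_mem (hO _ (hb i)) (huO i hi))) (dO _ _ hy (A.D0g i))
  have g01 : A.g 0 ⬝ᵥ A.π 1 = 0 := by rw [A.gπ]; simp
  have g02 : A.g 0 ⬝ᵥ A.π 2 = 0 := by rw [A.gπ]; simp
  have g00 : A.g 0 ⬝ᵥ A.π 0 = 1 := by rw [A.gπ]; simp
  have hW : ∀ c : Fin 3, dv A.D0 (![A.w, A.π 1, A.π 2] c) = 0 ∧
      A.g 0 ⬝ᵥ ![A.w, A.π 1, A.π 2] c = 0 ∧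
      ∀ y, dv A.D0 y = 0 → (L.H *ᵥ ![A.w, A.π 1, A.π 2] c) ⬝ᵥ y ∈ O := fun c => by
    fin_cases c
    · exact ⟨A.D0w, A.gw 0, fun y hy => dO _ _ (A.Hw L) hy⟩
    · exact ⟨A.D0π 1, g01, HπO 1 (by decide)⟩
    · exact ⟨A.D0π 2, g02, HπO 2 (by decide)⟩
  generalize ![A.w, A.π 1, A.π 2] = W at hW ⊢
  have hB : ∀ r y, dv A.D0 y = 0 → y ⬝ᵥ Pv L.P T.q *ᵥ dv (R r) T.p ∈ O := fun r y hy => by
    fin_cases r
    · change y ⬝ᵥ Pv L.P T.q *ᵥ dv (R 0) T.p ∈ O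
      rw [R0, A.pq0 L A.gw, dotProduct_zero]
      exact zero_mem O
    · change y ⬝ᵥ Pv L.P T.q *ᵥ dv (R 1) T.p ∈ O
      rw [R1]
      exact BO 1 (by decide) y hy
    · change y ⬝ᵥ Pv L.P T.q *ᵥ dv (R 2) T.p ∈ O
      rw [R2]
      exact BO 2 (by decide) y hy
  obtain ⟨E, E1, -, E3, Ek⟩ := A.exi 0
  have u0 := hu 0
  have t1 := A.tr L E (hH 0) (A.π 0)
  have t2 : (T.u 0)⁻¹ * (A.π 0 ⬝ᵥ Pv L.P (A.π 0) *ᵥ dv E T.p) ∈ O := by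
    have e1 : (T.u 0)⁻¹ * (A.π 0 ⬝ᵥ Pv L.P (A.π 0) *ᵥ dv E T.p) =
        (T.u 0)⁻¹ * (A.π 0 ⬝ᵥ dv E (ψ 0) - ψ 0 ⬝ᵥ dv E (A.π 0)) + (E (b 0) +
          b 0 * (A.π 0 ⬝ᵥ dv E (A.g 0) - A.g 0 ⬝ᵥ dv E (A.π 0))) := by
      rw [t1, hH 0, E.leibniz, E3, g00, add_dotProduct, smul_dotProduct]
      simp only [smul_eq_mul]
      field_simp
      ring
    rw [e1]
    exact add_mem (mul_mem hτ (sub_mem (dO _ _ (A.D0π 0) (hkv E Ek _ (hψ 0)))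
      (dO _ _ (hψ 0) (hkv E Ek _ (A.D0π 0))))) (add_mem (hO _ (Ek _ (hb 0)))
        (mul_mem (hO _ (hb 0)) (sub_mem (dO _ _ (A.D0π 0) (hkv E Ek _ (A.D0g 0)))
          (dO _ _ (A.D0g 0) (hkv E Ek _ (A.D0π 0))))))
  obtain ⟨ε, hε, hεO⟩ : ∃ ε : Ω,
      A.π 0 ⬝ᵥ Pv L.P (A.π 0) *ᵥ A.π 0 + 3 * ε * (b 0 * T.u 0 ^ 2) = 0 ∧ ε ∈ O := by
    refine ⟨(T.u 0)⁻¹ * (A.π 0 ⬝ᵥ Pv L.P (A.π 0) *ᵥ dv E T.p) * (3 * b 0)⁻¹, ?_,
      mul_mem t2 (hO _ ?_)⟩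
    · rw [E1, Matrix.mulVec_smul, dotProduct_smul, smul_eq_mul]
      field_simp
      ring
    · have h3 : A.D0 (3 : Ω) = 0 := A.D0.map_natCast 3
      rw [A.D0.leibniz_inv, A.D0.leibniz, hb, h3]
      simp
  have qq : Pv L.P T.q *ᵥ T.q = 0 := A.pq0 L A.gq
  have qπ : Pv L.P T.q *ᵥ A.π 0 = (b 0 * T.u 0 ^ 2) • A.g 0 := by rw [A.pqπ L, hβb]
  have πq : Pv L.P (A.π 0) *ᵥ T.q = (b 0 * T.u 0 ^ 2) • A.g 0 := by
    rw [qb_Pv_swap L.Ps1 L.Ps2, qπ]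
  have hPy : Pv L.P (A.π 0 + ε • T.q) = Pv L.P (A.π 0) + ε • Pv L.P T.q := by
    rw [qb_Pv_add, qb_Pv_smul]
  have yq : Pv L.P (A.π 0 + ε • T.q) *ᵥ T.q = (b 0 * T.u 0 ^ 2) • A.g 0 := by
    rw [hPy, Matrix.add_mulVec, Matrix.smul_mulVec, qq, πq, smul_zero, add_zero]
  have yp : Pv L.P (A.π 0 + ε • T.q) *ᵥ T.p = 0 := by
    rw [qb_Pv_swap L.Ps1 L.Ps2, L.Pp, Matrix.zero_mulVec]
  obtain ⟨v, hv1, hv2⟩ := hker (A.π 0 + ε • T.q) (by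
    have e1 : T.q ⬝ᵥ Pv L.P (A.π 0) *ᵥ A.π 0 = b 0 * T.u 0 ^ 2 := by
      rw [qb_Pv_sym L.Ps2, πq, dotProduct_smul, dotProduct_comm, g00, smul_eq_mul, mul_one]
    rw [Matrix.mulVec_add, Matrix.mulVec_smul, yq, hPy, Matrix.add_mulVec, Matrix.smul_mulVec, qπ]
    simp only [dotProduct_add, add_dotProduct, dotProduct_smul, smul_dotProduct, smul_eq_mul,
      dotProduct_comm (A.π 0) (A.g 0), dotProduct_comm T.q (A.g 0), g00, A.gq, e1]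
    linear_combination hε)
  have bu : b 0 * T.u 0 ^ 2 ≠ 0 := mul_ne_zero b0 (pow_ne_zero 2 u0)
  have gv : A.g 0 ⬝ᵥ v = 0 := by
    have e1 := qb_Pv_sym L.Ps2 (A.π 0 + ε • T.q) v T.q
    rw [hv2, yq, dotProduct_zero, dotProduct_smul, dotProduct_comm] at e1
    exact (mul_eq_zero.1 e1).resolve_left bu
  obtain ⟨a, b', e, hd⟩ := A.dec v
  rw [gv, zero_smul, add_zero] at hd
  generalize A.g 1 ⬝ᵥ v = c1 at hd
  generalize A.g 2 ⬝ᵥ v = c2 at hd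
  have hv3 : Pv L.P (A.π 0 + ε • T.q) *ᵥ (e • A.w + c1 • A.π 1 + c2 • A.π 2) =
      -(b' * (b 0 * T.u 0 ^ 2)) • A.g 0 := by
    rw [show e • A.w + c1 • A.π 1 + c2 • A.π 2 = v - a • T.p - b' • T.q by rw [hd]; module,
      Matrix.mulVec_sub, Matrix.mulVec_sub, Matrix.mulVec_smul, Matrix.mulVec_smul, hv2, yp, yq]
    module
  have u1 := hu 1
  have u2 := hu 2
  have hκ : ![e, -(c1 * T.u 1), -(c2 * T.u 2)] ≠ 0 := fun h => by
    have e0 : e = 0 := congrFun h 0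
    have e1 : -(c1 * T.u 1) = 0 := congrFun h 1
    have e2 : -(c2 * T.u 2) = 0 := congrFun h 2
    have e1' : c1 = 0 := (mul_eq_zero.1 (neg_eq_zero.1 e1)).resolve_right u1
    have e2' : c2 = 0 := (mul_eq_zero.1 (neg_eq_zero.1 e2)).resolve_right u2
    rw [e0, e1', e2'] at hv3 hd
    have e3 := congrArg (fun y => y ⬝ᵥ A.π 0) hv3
    simp only [zero_smul, add_zero, Matrix.mulVec_zero, zero_dotProduct, smul_dotProduct, g00,
      smul_eq_mul, mul_one] at e3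
    have e4 : b' = 0 := (mul_eq_zero.1 (neg_eq_zero.1 e3.symm)).resolve_right bu
    refine hv1 (Submodule.mem_span_singleton.2 ⟨a, ?_⟩)
    rw [hd, e4]
    module
  have hM : (Matrix.of fun r c : Fin 3 =>
      (T.u 0)⁻¹ * (W c ⬝ᵥ Pv L.P (A.π 0 + ε • T.q) *ᵥ dv (R r) T.p)).det = 0 := by
    refine Matrix.exists_vecMul_eq_zero_iff.1 ⟨_, hκ, funext fun c => ?_⟩
    have e1 := congrArg (fun y => W c ⬝ᵥ y) hv3
    simp only [Matrix.mulVec_add, Matrix.mulVec_smul, dotProduct_add, dotProduct_smul, smul_eq_mul,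
      dotProduct_comm (W c) (A.g 0), (hW c).2.1, mul_zero] at e1
    simp only [Matrix.vecMul, dotProduct, Fin.sum_univ_three, Matrix.of_apply, R0, R1, R2,
      Matrix.cons_val_zero, Matrix.cons_val_one, Matrix.cons_val, Pi.zero_apply]
    change e * ((T.u 0)⁻¹ * (W c ⬝ᵥ _)) + _ * ((T.u 0)⁻¹ * (W c ⬝ᵥ _)) +
      _ * ((T.u 0)⁻¹ * (W c ⬝ᵥ _)) = 0
    rw [Matrix.mulVec_smul, Matrix.mulVec_smul, dotProduct_smul, dotProduct_smul, smul_eq_mul,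
      smul_eq_mul]
    field_simp
    linear_combination e1
  have hN : ∀ r c, A.D0 (W c ⬝ᵥ dv (R r) (A.g 0)) = 0 := fun r c =>
    A.dotk (hW c).1 (hkv _ (hRk r) _ (A.D0g 0))
  have hdet := qb_det O hτ hv _ (b 0 • Matrix.of fun r c => W c ⬝ᵥ dv (R r) (A.g 0))
    (fun r c => mul_mem (hO _ (hb 0)) (hO _ (hN r c))) (fun r c => ⟨W c ⬝ᵥ dv (R r) (ψ 0) -
      (L.H *ᵥ W c) ⬝ᵥ dv (R r) (A.π 0) + ε * (W c ⬝ᵥ Pv L.P T.q *ᵥ dv (R r) T.p),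
      add_mem (sub_mem (dO _ _ (hW c).1 (hkv _ (hRk r) _ (hψ 0)))
        ((hW c).2.2 _ (hkv _ (hRk r) _ (A.D0π 0)))) (mul_mem hεO (hB r _ (hW c).1)), by
      rw [Matrix.of_apply, Matrix.smul_apply, Matrix.of_apply, hPy, Matrix.add_mulVec,
        Matrix.smul_mulVec, dotProduct_add, dotProduct_smul, A.tr L (R r) (hH 0), (hW c).2.1]
      simp only [smul_eq_mul]
      field_simp
      ring⟩) hM
  rw [Matrix.det_smul] at hdet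
  have hz2 := hz _ (by
    rw [A.D0.leibniz, A.D0.leibniz_pow, hb, Matrix.det_fin_three]
    simp [hN]) hdet
  exact (mul_eq_zero.1 hz2).resolve_left (pow_ne_zero _ b0)

theorem quart_dd {T : Tri Z Ω} {s : Sect Z 2} (L : Leg T s) (hβ : ∀ i, L.β i ≠ 0)
    (hker : ∀ y : Fin 6 → Ω, y ⬝ᵥ Pv L.P y *ᵥ y = 0 →
      ∃ v, v ∉ Submodule.span Ω {T.p} ∧ Pv L.P y *ᵥ v = 0) :
    ∃ (x h : Fin 6 → Ω) (D1 D2 : Derivation ℂ Ω Ω), x ≠ 0 ∧ On Z.I x ∧ h ∈ Nm Z.I x ∧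
      (∀ v, Tg Z.I x v → ∃ (D : Derivation ℂ Ω Ω) (t : Ω), v = dv D x + t • x) ∧
      dv D1 x = 0 ∧ dv D1 h ∉ Submodule.span Ω {h} ∧
      dv D2 h ∈ Submodule.span Ω {h} ∧ dv D2 x ∉ Submodule.span Ω {x} := by
  obtain ⟨A⟩ := T.qb_fr
  obtain ⟨Da, a1, a2, ak⟩ := A.exa
  choose Di i1 i2 i3 ik using A.exi
  have hdet := A.deg L hβ hker ![Da, Di 1, Di 2] (fun r => by
    fin_cases r
    · exact ak
    · exact ik 1
    · exact ik 2) a1 (i1 1) (i1 2)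
  obtain ⟨d, hd0, hd⟩ := Matrix.exists_vecMul_eq_zero_iff.2 hdet
  have hu := T.qb_u
  have u0 := hu 0
  have u1 := hu 1
  have u2 := hu 2
  have hn : ∀ i, i ≠ 0 → 1 - T.u 0 * (T.u i)⁻¹ ≠ 0 := fun i hi h => by
    have := hu i
    refine hi (T.uinj ?_)
    field_simp at h
    linear_combination h
  have n1 := hn 1 (by decide)
  have n2 := hn 2 (by decide)
  have lin : ∀ (a b c : Ω) (v : Fin 6 → Ω), dv (a • Da + b • Di 1 + c • Di 2) v =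
      a • dv Da v + b • dv (Di 1) v + c • dv (Di 2) v := fun a b c v => funext fun i => by
    simp [dv]
  have lx : ∀ a b c : Ω, ∃ t : Ω, dv (a • Da + b • Di 1 + c • Di 2) (T.x 0) = t • T.p +
      (a * T.u 0) • A.w + (b * (1 - T.u 0 * (T.u 1)⁻¹)) • A.π 1 +
        (c * (1 - T.u 0 * (T.u 2)⁻¹)) • A.π 2 := fun a b c =>
    ⟨(a • Da + b • Di 1 + c • Di 2) (T.u 0), by
      rw [T.qb_dx, lin, lin, a1, a2, i1, i1, i2, i2]
      module⟩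
  have hgN : A.g 0 ∈ Nm Z.I (T.x 0) := by
    have h1 := Submodule.smul_mem _ (A.c 0)⁻¹ (T.hN 0)
    rwa [A.hg 0, smul_smul, inv_mul_cancel₀ (A.hc 0), one_smul] at h1
  have g00 : A.g 0 ⬝ᵥ A.π 0 = 1 := by rw [A.gπ]; simp
  have g01 : A.g 0 ⬝ᵥ A.π 1 = 0 := by rw [A.gπ]; simp
  have g02 : A.g 0 ⬝ᵥ A.π 2 = 0 := by rw [A.gπ]; simp
  have hx0 : T.x 0 0 = T.u 0 * T.p 0 := by simp [Tri.x, T.q0]
  have dg : ∀ (D : Derivation ℂ Ω Ω) (v : Fin 6 → Ω), A.g 0 ⬝ᵥ v = 0 →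
      dv D (A.g 0) ⬝ᵥ v = -(A.g 0 ⬝ᵥ dv D v) := fun D v hv => by
    have := qb_dot D (A.g 0) v
    rw [hv, map_zero] at this
    linear_combination -this
  refine ⟨T.x 0, A.g 0, Di 0, d 0 • Da + d 1 • Di 1 + d 2 • Di 2, fun h => ?_, T.on 0, hgN,
    fun v hv => ?_, ?_, fun h => ?_, ?_, fun h => ?_⟩
  · rw [h] at hx0
    exact mul_ne_zero u0 T.qb_p0 hx0.symm
  · obtain ⟨a, b, e, hd⟩ := A.dec v
    rw [qb_nm hgN hv, zero_smul, add_zero] at hd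
    generalize A.g 1 ⬝ᵥ v = c1 at hd
    generalize A.g 2 ⬝ᵥ v = c2 at hd
    obtain ⟨t, ht⟩ := lx (e / T.u 0) (c1 / (1 - T.u 0 * (T.u 1)⁻¹)) (c2 / (1 - T.u 0 * (T.u 2)⁻¹))
    rw [div_mul_cancel₀ _ u0, div_mul_cancel₀ _ n1, div_mul_cancel₀ _ n2] at ht
    generalize (e / T.u 0) • Da + (c1 / (1 - T.u 0 * (T.u 1)⁻¹)) • Di 1 +
      (c2 / (1 - T.u 0 * (T.u 2)⁻¹)) • Di 2 = D at ht
    have h1 : v - dv D (T.x 0) - b • T.x 0 = (a - t - b * T.u 0) • T.p := by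
      rw [ht, hd, Tri.x]
      module
    have h2 : Tg Z.I (T.x 0) (v - dv D (T.x 0) - b • T.x 0) :=
      qb_tg_sub (qb_tg_sub hv (qb_tg (T.on 0) D)) (qb_tg_smul (tg_self Z (T.on 0)) b)
    rw [h1] at h2
    rw [qb_tg_zero (T.nt 0) h2, zero_smul, sub_sub, sub_eq_zero] at h1
    exact ⟨D, b, h1⟩
  · rw [T.qb_dx, i1, i2, i3, smul_smul, mul_neg, mul_inv_cancel₀ u0]
    module
  · obtain ⟨t, ht⟩ := Submodule.mem_span_singleton.1 h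
    have h1 := dg (Di 0) T.q (A.gq 0)
    rw [← ht, i2, g00, smul_dotProduct, A.gq, smul_zero] at h1
    exact one_ne_zero (neg_eq_zero.1 h1.symm)
  · have hW : ∀ c : Fin 3, dv (d 0 • Da + d 1 • Di 1 + d 2 • Di 2) (A.g 0) ⬝ᵥ
        ![A.w, A.π 1, A.π 2] c = 0 := fun c => by
      have h1 := congrFun hd c
      rw [Matrix.vecMul, dotProduct, Fin.sum_univ_three] at h1
      rw [lin, dotProduct_comm, dotProduct_add, dotProduct_add, dotProduct_smul, dotProduct_smul,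
        dotProduct_smul]
      exact h1
    have w0 : dv (d 0 • Da + d 1 • Di 1 + d 2 • Di 2) (A.g 0) ⬝ᵥ A.w = 0 := hW 0
    have w1 : dv (d 0 • Da + d 1 • Di 1 + d 2 • Di 2) (A.g 0) ⬝ᵥ A.π 1 = 0 := hW 1
    have w2 : dv (d 0 • Da + d 1 • Di 1 + d 2 • Di 2) (A.g 0) ⬝ᵥ A.π 2 = 0 := hW 2
    have wp : dv (d 0 • Da + d 1 • Di 1 + d 2 • Di 2) (A.g 0) ⬝ᵥ T.p = 0 := by
      rw [dg _ _ (A.gp 0), lin, a1, i1, i1]
      simp [A.gw, g01, g02]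
    have wq : dv (d 0 • Da + d 1 • Di 1 + d 2 • Di 2) (A.g 0) ⬝ᵥ T.q = 0 := by
      rw [dg _ _ (A.gq 0), lin, a2, i2, i2]
      simp [g01, g02]
    generalize dv (d 0 • Da + d 1 • Di 1 + d 2 • Di 2) (A.g 0) = η at w0 w1 w2 wp wq ⊢
    refine Submodule.mem_span_singleton.2 ⟨η ⬝ᵥ A.π 0, ?_⟩
    refine dotProduct_eq _ _ fun v => ?_
    obtain ⟨a, b, e, hd⟩ := A.dec v
    rw [smul_dotProduct]
    conv_rhs => rw [hd]
    simp only [dotProduct_add, dotProduct_smul, w0, w1, w2, wp, wq, smul_eq_mul]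
    ring
  · obtain ⟨l, hl⟩ := Submodule.mem_span_singleton.1 h
    obtain ⟨t, ht⟩ := lx (d 0) (d 1) (d 2)
    rw [ht, Tri.x] at hl
    have h1 := congrArg (fun y => A.g 1 ⬝ᵥ y) hl
    have h2 := congrArg (fun y => A.g 2 ⬝ᵥ y) hl
    have h3 := congrFun hl 0
    have h4 := congrFun hl T.j
    simp [A.gp, A.gq, A.gw, A.gπ, n1] at h1
    simp [A.gp, A.gq, A.gw, A.gπ, n2] at h2
    simp only [Pi.add_apply, Pi.smul_apply, smul_eq_mul, T.q0, T.qj, A.w0, A.wj, A.π0, A.πj,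
      mul_zero, add_zero] at h3 h4
    have h5 : t = l * T.u 0 := mul_right_cancel₀ T.qb_p0 (by linear_combination -h3)
    have h6 : l = 0 := by
      rw [h5] at h4
      linear_combination h4
    rw [h5, h6, h1, h2] at hl
    simp only [zero_smul, zero_mul, zero_add, add_zero] at hl
    have h7 : d 0 = 0 :=
      (mul_eq_zero.1 ((smul_eq_zero.1 hl.symm).resolve_right A.wne)).resolve_right u0
    refine hd0 (funext fun r => ?_)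
    fin_cases r
    · exact h7
    · exact h1
    · exact h2

end PV
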