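import Pool.Agent.Lib.MP_36fb43_ag.QuaA
import Pool.Agent.Lib.MP_36fb43_ag.QuaB
import Pool.Agent.Lib.MP_36fb43_ag.DD2

open MvPolynomial Matrix Module

namespace PV

variable {Z : Cone ℂ 6} {Ω : Type} [Field Ω] [IsAlgClosed Ω] [Algebra ℂ Ω]

variable {K : Type} [Field K] [IsAlgClosed K] [Algebra ℂ K] [Algebra K Ω] [IsScalarTower ℂ K Ω]

omit [IsAlgClosed Ω] in
theorem Tri.qf_low (T : Tri Z Ω) {f : MvPolynomial (Fin 6) ℂ} (hf : f ∈ Z.I)
    (hd : f.totalDegree ≤ 2) : f = 0 := by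
  by_contra h0
  have hev : ∀ t : Ω, (aeval (ln T.q T.p) (map (algebraMap ℂ Ω) f)).eval t =
      aeval (t • T.q + T.p) f := fun t => by
    rw [← Polynomial.coe_aeval_eq_eval, MvPolynomial.comp_aeval_apply, aeval_map_algebraMap]
    congr 2
    funext i
    simp only [ln, map_add, map_mul, Polynomial.aeval_C, Polynomial.aeval_X, Pi.add_apply,
      Pi.smul_apply, smul_eq_mul, Algebra.algebraMap_self, RingHom.id_apply]
    ring
  have hdeg : (aeval (ln T.q T.p) (map (algebraMap ℂ Ω) f)).natDegree ≤ 2 * 1 :=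
    MvPolynomial.aeval_natDegree_le _ (le_trans (Finset.sup_mono (support_map_subset _ _)) hd) _ fun i =>
      Polynomial.natDegree_linear_le
  have hz : aeval (ln T.q T.p) (map (algebraMap ℂ Ω) f) = 0 := by
    refine Polynomial.eq_zero_of_natDegree_lt_card_of_eval_eq_zero _
      (f := fun i : Fin 3 => (T.u i)⁻¹) (fun a b h => T.uinj (inv_injective h)) (fun i => ?_) ?_
    · rw [hev, show (T.u i)⁻¹ • T.q + T.p = (T.u i)⁻¹ • (T.u i • T.p + T.q) by
        rw [smul_add, smul_smul, inv_mul_cancel₀ (T.qb_u i), one_smul, add_comm]]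
      exact on_smul Z (T.on i) _ f hf
    · rw [Fintype.card_fin]
      omega
  have h1 := hev 0
  rw [hz, Polynomial.eval_zero, zero_smul, zero_add] at h1
  exact not_on T.exp h0 h1.symm

omit [IsAlgClosed Ω] in
theorem Tri.qf_e0 (T : Tri Z Ω) (a : ℕ) : T.e a 0 = 0 := by
  induction a with
  | zero => exact T.q0
  | succ a ih =>
    change T.Dπ (T.e a 0) = 0
    rw [ih, map_zero]

omit [IsAlgClosed Ω] [Algebra ℂ Ω] in
theorem qf_res (P : Fin 6 → Matrix (Fin 6) (Fin 6) Ω) {y v : Fin 6 → Ω} (hy : y 0 = 0)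
    (hv : v 0 = 0) (b : Fin 5) :
    (Pv (fun a : Fin 5 => Matrix.of fun b e : Fin 5 => P a.succ b.succ e.succ)
      (fun a => y a.succ) *ᵥ fun a => v a.succ) b = (Pv P y *ᵥ v) b.succ := by
  simp only [Matrix.mulVec, dotProduct, qb_Pv_apply, Matrix.of_apply]
  rw [Fin.sum_univ_succ (n := 5), hv, mul_zero, zero_add]
  refine Finset.sum_congr rfl fun e _ => ?_
  rw [Fin.sum_univ_succ (n := 5), hy, zero_mul, zero_add]

theorem qf_ker {T : Tri Z Ω} {s : Sect Z 2} (L : Leg T s)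
    (hl : LinearIndependent Ω ![T.p, T.e 0, T.e 1, T.e 2, T.e 3, T.e 4]) (y : Fin 6 → Ω)
    (hy : y ⬝ᵥ Pv L.P y *ᵥ y = 0) :
    ∃ v, v ∉ Submodule.span Ω {T.p} ∧ Pv L.P y *ᵥ v = 0 := by
  obtain ⟨A⟩ := T.qb_fr
  have : CharZero Ω := charZero_of_injective_algebraMap (algebraMap ℂ Ω).injective
  have := cst_algClosed ({T.Dπ} : Set (Derivation ℂ Ω Ω))
  have hm : ∀ a b e, L.P a b e ∈ cst ({T.Dπ} : Set (Derivation ℂ Ω Ω)) := fun a b e E hE => by
    rw [Set.mem_singleton_iff.1 hE, L.πP]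
  obtain ⟨D, hD⟩ := der_over (cst ({T.Dπ} : Set (Derivation ℂ Ω Ω))) T.Dπ
    (fun c hc => hc T.Dπ rfl)
  have p0 := T.qb_p0
  obtain ⟨y', y0, hyp⟩ : ∃ y' : Fin 6 → Ω, y' 0 = 0 ∧ y = y' + (y 0 / T.p 0) • T.p :=
    ⟨y - (y 0 / T.p 0) • T.p, by simp [div_mul_cancel₀ _ p0], by module⟩
  have hP : Pv L.P y = Pv L.P y' := by
    rw [hyp, qb_Pv_add, qb_Pv_smul, L.Pp, smul_zero, add_zero]
  have yp : Pv L.P y' *ᵥ T.p = 0 := by rw [qb_Pv_swap L.Ps1 L.Ps2, L.Pp, Matrix.zero_mulVec]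
  have pp : ∀ v, T.p ⬝ᵥ Pv L.P y' *ᵥ v = 0 := fun v => by
    rw [qb_Pv_sym L.Ps2, yp, dotProduct_zero]
  have hy' : y' ⬝ᵥ Pv L.P y' *ᵥ y' = 0 := by
    rw [hP] at hy
    generalize y 0 / T.p 0 = t at hyp
    rw [hyp, Matrix.mulVec_add, Matrix.mulVec_smul, yp, smul_zero, add_zero, add_dotProduct,
      smul_dotProduct, pp, smul_zero, add_zero] at hy
    exact hy
  have hmap : (fun a : Fin 5 => (Matrix.of fun b e : Fin 5 =>
      (⟨L.P a.succ b.succ e.succ, hm _ _ _⟩ : cst ({T.Dπ} : Set (Derivation ℂ Ω Ω)))).map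
        (algebraMap _ Ω)) =
      fun a : Fin 5 => Matrix.of fun b e : Fin 5 => L.P a.succ b.succ e.succ := rfl
  have hdet := sec_hess (fun a : Fin 5 => Matrix.of fun b e : Fin 5 =>
      (⟨L.P a.succ b.succ e.succ, hm _ _ _⟩ : cst ({T.Dπ} : Set (Derivation ℂ Ω Ω))))
    (fun a b e => Subtype.ext (L.Ps1 _ _ _)) (fun a b e => Subtype.ext (L.Ps2 _ _ _)) D
    (fun n a => T.e n a.succ) (fun n => funext fun a => (hD _).symm) ?_ ?_
    (fun a => y' a.succ) ?_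
  · rw [hmap] at hdet
    obtain ⟨v, hv0, hv⟩ := Matrix.exists_mulVec_eq_zero_iff.2 hdet
    have hc : ∀ b : Fin 5, (Pv L.P y' *ᵥ (Fin.cons 0 v : Fin 6 → Ω)) b.succ = 0 := fun b => by
      rw [← qf_res L.P y0 (Fin.cons_zero _ _)]
      exact congrFun hv b
    refine ⟨Fin.cons 0 v, fun h => ?_, ?_⟩
    · obtain ⟨t, ht⟩ := Submodule.mem_span_singleton.1 h
      have h1 : t * T.p 0 = 0 := congrFun ht 0
      rw [(mul_eq_zero.1 h1).resolve_right p0, zero_smul] at ht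
      exact hv0 (funext fun b => (congrFun ht b.succ).symm)
    · rw [hP]
      have h1 := pp (Fin.cons 0 v)
      generalize Pv L.P y' *ᵥ (Fin.cons 0 v : Fin 6 → Ω) = w at hc h1
      rw [dotProduct, Fin.sum_univ_succ (n := 5)] at h1
      simp only [hc, mul_zero, Finset.sum_const_zero, add_zero] at h1
      funext b
      refine Fin.cases ?_ hc b
      exact (mul_eq_zero.1 h1).resolve_left p0
  · rw [Fintype.linearIndependent_iff] at hl ⊢
    intro c hc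
    have h1 := hl (Fin.cons 0 c) (funext fun b => ?_)
    · exact fun a => h1 a.succ
    · refine Fin.cases ?_ (fun b => ?_) b
      · simp [Fin.sum_univ_succ, T.qf_e0]
      · have h2 := congrFun hc b
        simpa [Fin.sum_univ_succ] using h2
  · rw [hmap]
    funext b
    rw [qf_res L.P (T.qf_e0 0) (T.qf_e0 0)]
    exact congrFun (A.pq0 L A.gq) b.succ
  · rw [hmap]
    rw [dotProduct, Fin.sum_univ_succ (n := 5), y0, zero_mul, zero_add] at hy'
    rw [dotProduct, ← hy']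
    exact Finset.sum_congr rfl fun b _ => by rw [qf_res L.P y0 y0]

theorem quart_false (hZ : Z.Nondeg) {T : Tri Z Ω} {s : Sect Z 2} (L : Leg T s)
    (hβ : ∀ i, L.β i ≠ 0) (hθ : ∀ i, T.h i ⬝ᵥ T.e 2 ≠ 0) (h3 : T.e 3 ∉ T.La) : False := by
  obtain ⟨x, h, D1, D2, h0, hx, hh, hT, a1, a2, a3, a4⟩ :=
    quart_dd L hβ (qf_ker L (quart_span L hβ hθ h3))
  obtain ⟨l, hl, hxl, hon⟩ := dd_plane hZ h0 hx hh hT a1 a2 a3 a4
  obtain ⟨f, hf, hf0, hd⟩ := dd_quad hZ h0 hT l hl hxl hon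
  exact hf0 (T.qf_low hf hd)

end PV
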