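import Pool.Agent.Lib.MP_36fb43_ag.Krull
import Pool.Agent.Lib.MP_36fb43_ag.Irr
import Pool.Agent.Lib.MP_36fb43_ag.Bas

open MvPolynomial Matrix Module

namespace PV

variable {Z : Cone ℂ 6} {k : Type} [Field k] [IsAlgClosed k] [Algebra ℂ k] {p : Fin 6 → k}

omit [IsAlgClosed k] in
/-- a derivation that kills the generic point kills its field -/
theorem te_kill (hp : GenPt p) {Ω : Type} [Field Ω] [Algebra ℂ Ω] [Algebra k Ω]
    [IsScalarTower ℂ k Ω] (E : Derivation ℂ Ω Ω) (h : dv E (algebraMap k Ω ∘ p) = 0) (y : k) :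
    E (algebraMap k Ω y) = 0 := by
  have ha : IsAlgebraic (Algebra.adjoin ℂ (Set.range p)) y :=
    kc_alg p fun D hD => by rw [hp.uq D (funext hD)]; rfl
  have hle : Algebra.adjoin ℂ (Set.range p) ≤
      (cst {E}).toSubalgebra.comap (IsScalarTower.toAlgHom ℂ k Ω) := by
    refine Algebra.adjoin_le ?_
    rintro _ ⟨i, rfl⟩ _ rfl
    exact congrFun h i
  let φ : Algebra.adjoin ℂ (Set.range p) →+* cst {E} :=
    RingHom.codRestrict ((algebraMap k Ω).comp (algebraMap _ k)) (cst {E}) fun a => hle a.2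
  refine der_alg E (cst {E}) (fun c hc => hc E rfl)
    (ha.ringHom_of_comp_eq φ (algebraMap k Ω) (fun a b e => ?_) rfl)
  exact Subtype.ext ((algebraMap k Ω).injective (congrArg Subtype.val e))

theorem te_three {r : Fin 3 → Fin 3 → Prop} (h0 : ∀ i, r i i) (h1 : ∀ i j, r i j → r j i)
    (h2 : ∀ i j l, r i j → r j l → r i l) (h3 : ∀ i, ∃ j, i ≠ j ∧ r i j) (i j : Fin 3) : r i j := by
  obtain ⟨a, ha, ra⟩ := h3 i
  obtain ⟨b, hb, rb⟩ := h3 j
  have : i = j ∨ a = j ∨ b = i ∨ a = b := by omega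
  rcases this with rfl | rfl | rfl | rfl
  exacts [h0 _, ra, h1 _ _ rb, h2 _ _ _ ra (h1 _ _ rb)]

theorem tri_ex (hp : GenPt p) {q0 : Fin 6 → k} {j : Fin 6} (h0 : q0 0 = 0) (h1 : q0 j = 1)
    {g0 : Polynomial k} (hm : g0.Monic) (hd : g0.natDegree = 3) (hg : Al Z.I p q0 g0) :
    ∃ (Ω : Type) (_ : Field Ω) (_ : IsAlgClosed Ω) (_ : Algebra ℂ Ω) (_ : Algebra k Ω)
      (_ : IsScalarTower ℂ k Ω) (T : Tri Z Ω), T.p = algebraMap k Ω ∘ p ∧
      (∀ y, T.Dπ y = 0 ↔ y ∈ Set.range (algebraMap k Ω)) ∧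
      ∀ Φ : MvPolynomial (Fin 6 ⊕ Fin 3) k,
        aeval (Sum.elim T.q fun i : Fin 3 => (∏ a, (Polynomial.X - Polynomial.C (T.u a))).coeff i) Φ = 0 →
        aeval (Sum.elim q0 fun i : Fin 3 => g0.coeff i) Φ = 0 := by
  obtain ⟨Ω, _, _, _, _, _, q, g, e0, e1, gm, gd, ga, ⟨D, hD⟩, hu, hΦ⟩ := krull hp h0 h1 hm hd hg
  have : CharZero k := charZero_of_injective_algebraMap (algebraMap ℂ k).injective
  have : CharZero Ω := charZero_of_injective_algebraMap (algebraMap ℂ Ω).injective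
  have hirr := fun w => irr hp e0 e1 gm gd ga ⟨D, hD⟩ hu (w := w)
  have hex := hp.ext (Ω := Ω)
  have hkill := te_kill hp (Ω := Ω)
  have dp : ∀ E : Derivation k Ω Ω, dv (E.restrictScalars ℂ) (algebraMap k Ω ∘ p) = 0 :=
    fun E => funext fun i => E.map_algebraMap _
  have pk : ∀ i, (algebraMap k Ω ∘ p) i ∈ Set.range (algebraMap k Ω) := fun i => ⟨_, rfl⟩
  generalize hP : algebraMap k Ω ∘ p = P at *
  have p0 : P 0 ≠ 0 := fun h => by
    obtain ⟨E, hE⟩ := hex fun _ => 1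
    simpa [h] using congrFun hE 0
  have rel : ∀ {a b : Ω} {w : Fin 6 → Ω}, w 0 = 0 → w j = 0 → a • P + b • q = w →
      a = 0 ∧ b = 0 := fun {a b w} w0 wj h => by
    have a0 : a = 0 := by simpa [e0, w0, p0] using congrFun h 0
    exact ⟨a0, by simpa [a0, e1, wj] using congrFun h j⟩
  have d0 : ∀ E : Derivation k Ω Ω, dv E q 0 = 0 := fun E => by simp [e0]
  have dj : ∀ E : Derivation k Ω Ω, dv E q j = 0 := fun E => by simp [e1]
  have l2 : LinearIndependent Ω ![P, q] :=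
    LinearIndependent.pair_iff.2 fun a b h => rel rfl rfl h
  have n2 : dv D q ∉ Submodule.span Ω {P, q} := fun h => by
    obtain ⟨a, b, e⟩ := Submodule.mem_span_pair.1 h
    obtain ⟨rfl, rfl⟩ := rel (d0 D) (dj D) e
    exact hD (by simpa using e.symm)
  obtain ⟨u, h, ui, gp, hN, hp', hl, nt, all⟩ :=
    gpb hex l2 gm gd ga (D := D.restrictScalars ℂ) (dp D) n2
  have rt : ∀ i, g.IsRoot (u i) := fun i => by
    rw [gp, Polynomial.IsRoot, Polynomial.eval_prod]
    exact Finset.prod_eq_zero (Finset.mem_univ i) (by simp)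
  have on : ∀ i, On Z.I (u i • P + q) := fun i => al_on ga (rt i)
  have hq : ∀ i, h i ⬝ᵥ q = 0 := fun i => by
    have := (tg_self Z (on i)).dot (hN i)
    rwa [dotProduct_add, dotProduct_smul, hp', smul_zero, zero_add] at this
  have hE : ∀ (E : Derivation k Ω Ω) i, h i ⬝ᵥ dv E q = 0 := fun E i => by
    have := (tg_dv (on i) (E.restrictScalars ℂ) (E.restrictScalars ℂ).map_algebraMap).dot (hN i)
    rwa [dv_add, dv_smul, dp, smul_zero, add_zero, dotProduct_add, dotProduct_smul, hp', smul_zero,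
      zero_add] at this
  have ker : ∀ y, D y = 0 ↔ y ∈ Set.range (algebraMap k Ω) := fun y => by
    refine ⟨fun hy => const_mem fun E => ?_, fun ⟨c, hc⟩ => hc ▸ D.map_algebraMap c⟩
    have l3 := gp_li3 l2 n2
    have m : dv E q ∈ Submodule.span Ω (Set.range ![dv D q, P, q]) := by
      by_contra hn
      have := gp_orth h _ hl (l3.finCons hn) fun a b => by
        fin_cases b
        exacts [hE E a, hE D a, hp' a, hq a]
      simp at this
    obtain ⟨c, hc⟩ := (Submodule.mem_span_range_iff_exists_fun _).1 m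
    simp only [Fin.sum_univ_three, cons_val_zero, cons_val_one, cons_val] at hc
    obtain ⟨c1, c2⟩ := rel (a := c 1) (b := c 2) (w := dv E q - c 0 • dv D q)
      (by rw [Pi.sub_apply, Pi.smul_apply, d0, d0, smul_zero, sub_zero])
      (by rw [Pi.sub_apply, Pi.smul_apply, dj, dj, smul_zero, sub_zero]) (by rw [← hc]; abel)
    have := hu (E - c 0 • D) (by rw [dvD_sub, dvD_smul, ← hc, c1, c2]; simp)
    rw [sub_eq_zero.1 this]
    simp [hy]
  obtain ⟨L, hL⟩ : ∃ L, L = IntermediateField.adjoin k (Set.range q) := ⟨_, rfl⟩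
  have qL : ∀ a, q a ∈ L := fun a => hL ▸ IntermediateField.subset_adjoin _ _ ⟨a, rfl⟩
  have : Algebra.IsAlgebraic L Ω := ⟨fun y => by
    by_contra e
    obtain ⟨E, a1, a2⟩ := der_of_trans L e
    rw [hu E (funext fun a => a1 _ (qL a))] at a2
    exact zero_ne_one a2⟩
  have : IsAlgClosure L Ω := ⟨inferInstance, inferInstance⟩
  have fix : ∀ (σ : Ω ≃ₐ[L] Ω) y, y ∈ L → σ y = y := fun σ y hy => σ.commutes ⟨y, hy⟩
  have fk : ∀ (σ : Ω ≃ₐ[L] Ω) y, y ∈ Set.range (algebraMap k Ω) → σ y = y :=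
    fun σ y ⟨c, hc⟩ => fix σ y (hc ▸ L.algebraMap_mem c)
  have conj : ∀ i i', IsConjRoot L (u i) (u i') := by
    refine te_three (fun _ => rfl) (fun _ _ => IsConjRoot.symm) (fun _ _ _ => IsConjRoot.trans)
      fun i => ?_
    obtain ⟨w, w1, w2⟩ := (notMem_iff_exists_ne_and_isConjRoot (K := L) (x := u i)
      (Algebra.IsSeparable.isSeparable L _) (IsAlgClosed.splits _)).1 (by
        rintro ⟨c, hc⟩
        exact hirr _ (rt i) (hL ▸ (show (c : Ω) = u i from hc) ▸ c.2))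
    obtain ⟨σ, hσ⟩ := w2.symm.exists_algEquiv
    let τ : Ω →ₐ[ℂ] Ω := ⟨(σ : Ω →+* Ω), fun c => fk σ _
      ⟨algebraMap ℂ k c, (IsScalarTower.algebraMap_apply ℂ k Ω c).symm⟩⟩
    obtain ⟨i', rfl⟩ := all w fun f hf => by
      have e : w • P + q = fun a => τ ((u i • P + q) a) := by
        funext a
        change _ = σ (u i * P a + q a)
        rw [map_add, map_mul, hσ, fk σ _ (pk a), fix σ _ (qL a)]; rfl
      rw [e, ← comp_aeval_apply, on i f hf, map_zero]
    exact ⟨i', fun e => w1 (congrArg u e), w2⟩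
  refine ⟨Ω, _, inferInstance, _, _, inferInstance, ⟨P, q, j, fun e => ?_, e0, e1, u, ui, on, h, hN,
    hp', hl, nt, D.restrictScalars ℂ, dp D, hD, fun E a1 a2 => ?_, hex, fun i i' => ?_⟩, hP.symm, ker,
    fun Φ hh => hΦ Φ (gp ▸ hh)⟩
  · rw [e, e0] at e1
    exact zero_ne_one e1
  · obtain ⟨E', hE'⟩ := kc_toK E (hkill E a1)
    have := hu E' (funext fun a => (hE' _).trans (congrFun a2 a))
    ext y
    rw [← hE', this]; rfl
  · obtain ⟨σ, hσ⟩ := (conj i' i).exists_algEquiv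
    exact ⟨σ, fun y hy => fk σ y ((ker y).1 hy), fun a => fix σ _ (qL a), hσ⟩

end PV
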