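import Pool.Agent.Lib.MP_36fb43_ag.Pla
import Pool.Agent.Lib.MP_36fb43_ag.TriE
import Pool.Agent.Lib.MP_36fb43_ag.Leg
import Pool.Agent.Lib.MP_36fb43_ag.Leaf
import Pool.Agent.Lib.MP_36fb43_ag.ConE
import Pool.Agent.Lib.MP_36fb43_ag.ConF
import Pool.Agent.Lib.MP_36fb43_ag.QuaF
import Pool.Agent.Lib.MP_36fb43_ag.FourA

/-! An aligned triple through the generic point lies in a plane of the line type. -/

open MvPolynomial Matrix Module

namespace PV

theorem lo_ev {F : Type} [Field F] {g : Polynomial F} (hm : g.Monic) (hd : g.natDegree = 3)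
    (w : F) : g.eval w = w ^ 3 + ∑ i : Fin 3, g.coeff i * w ^ (i : ℕ) := by
  conv_lhs => rw [hm.as_sum, hd]
  simp [Finset.sum_range_succ, Fin.sum_univ_three]

theorem lo_phi {k F : Type} [Field k] [Field F] [Algebra k F] (ι : Fin 3 → Fin 6) (p : Fin 6 → k)
    (e : MvPolynomial (Fin 3) k) (t w : k) (x : Fin 6 → F) (c : Fin 3 → F) :
    aeval (Sum.elim x c) (aeval (fun a => C (w * p (ι a)) + X (Sum.inl (ι a))) e -
      C t * (C (w ^ 3) + ∑ i : Fin 3, X (Sum.inr i) * C (w ^ (i : ℕ))) :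
        MvPolynomial (Fin 6 ⊕ Fin 3) k) =
    aeval (algebraMap k F w • (algebraMap k F ∘ p) ∘ ι + x ∘ ι) e -
      algebraMap k F t * (algebraMap k F w ^ 3 + ∑ i : Fin 3, c i * algebraMap k F w ^ (i : ℕ)) := by
  rw [map_sub, ← AlgHom.comp_apply, comp_aeval]
  congr 2
  · congr 1
    funext a
    simp [Algebra.smul_def]
  · simp

variable {Z : Cone ℂ 6} {s : Sect Z 2} {k : Type} [Field k] [IsAlgClosed k] [Algebra ℂ k]
  {p : Fin 6 → k}

theorem line_out (hZ : Z.Nondeg) (hs : ¬ s.Poly) (hp : GenPt p) {q0 : Fin 6 → k} {j : Fin 6}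
    (h0 : q0 0 = 0) (h1 : q0 j = 1) {g0 : Polynomial k} (hm : g0.Monic) (hd : g0.natDegree = 3)
    (hg : Al Z.I p q0 g0) : ∃ P : Plane s p, q0 ∈ P.U ∧
      aeval (ln p q0 ∘ P.ι) P.e = Polynomial.C (eval (p ∘ P.ι) P.e) * g0 := by
  obtain ⟨Ω, _, _, _, _, _, T, hT, hc, hΦ⟩ := tri_ex hp h0 h1 hm hd hg
  obtain ⟨L⟩ := leg_ex T s
  rcases tricho L hs with hθ | ⟨hβ, hθ⟩
  swap
  · by_cases h3 : T.e 3 ∈ T.La
    · obtain ⟨A⟩ := leaf_ex L hβ hθ h3
      obtain ⟨K, _, _, _, _, _, ⟨E⟩⟩ := conend_ex A h3 hs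
      exact (con_false E hθ).elim
    · exact (quart_false hZ L hβ hθ h3).elim
  obtain ⟨P, a1, a2⟩ := plane_ex hp L hT hc hθ
  refine ⟨P, ?_, Polynomial.funext fun w => ?_⟩
  · have : q0 = ∑ a, q0 (P.ι a) • P.μ a := by
      funext i
      have := hΦ (X (Sum.inl i) - ∑ a, X (Sum.inl (P.ι a)) * C (P.μ a i)) (by
        have := congrFun a1 i
        simpa [sub_eq_zero] using this)
      simpa [sub_eq_zero] using this
    rw [this]
    exact Submodule.sum_mem _ fun a _ =>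
      Submodule.smul_mem _ _ (Submodule.subset_span ⟨a, rfl⟩)
  · have := hΦ _ ((lo_phi P.ι p P.e (eval (p ∘ P.ι) P.e) w _ _).trans (by
      rw [← lo_ev (Polynomial.monic_prod_X_sub_C _ _)
        (by rw [Polynomial.natDegree_finsetProd_X_sub_C_eq_card]; simp), ← hT, ← fo_eval_ln]
      change (aeval (ln T.p T.q ∘ P.ι) P.e).eval _ - _ = 0
      rw [a2, Polynomial.eval_mul, Polynomial.eval_C, sub_self]))
    rw [lo_phi, ← lo_ev hm hd, sub_eq_zero, ← fo_eval_ln] at this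
    rw [Polynomial.eval_mul, Polynomial.eval_C]
    exact this

end PV
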