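import Pool.Agent.Lib.MP_36fb43_ag.TriB

open MvPolynomial Matrix Module

namespace PV

section dvk
variable {R F σ : Type} [CommRing R] [Field F] [Algebra R F]

theorem lf_dv_add (D : Derivation R F F) (v w : σ → F) : dv D (v + w) = dv D v + dv D w := by
  funext i; simp [dv]

theorem lf_dv_smul (D : Derivation R F F) (c : F) (v : σ → F) :
    dv D (c • v) = D c • v + c • dv D v := by
  funext i; simp [dv]; ring

theorem lf_dv_br (D E : Derivation R F F) (v : σ → F) :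
    dv ⁅D, E⁆ v = dv D (dv E v) - dv E (dv D v) := by
  funext i; simp [dv, Derivation.commutator_apply]

theorem lf_sum {ι : Type} (s : Finset ι) (d : ι → Derivation R F F) (y : F) :
    (∑ a ∈ s, d a) y = ∑ a ∈ s, d a y := by
  classical
  induction s using Finset.induction_on with
  | empty => simp
  | insert a s ha ih => rw [Finset.sum_insert ha, Finset.sum_insert ha, Derivation.add_apply, ih]

theorem lf_dot [Fintype σ] (D : Derivation R F F) (v w : σ → F) :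
    D (v ⬝ᵥ w) = dv D v ⬝ᵥ w + v ⬝ᵥ dv D w := by
  simp only [dotProduct, map_sum, Derivation.leibniz, dv, smul_eq_mul, ← Finset.sum_add_distrib]
  exact Finset.sum_congr rfl fun i _ => by ring

theorem lf_mulVec [Fintype σ] (D : Derivation R F F) (G : Matrix σ σ F)
    (hG : ∀ a b, D (G a b) = 0) (w : σ → F) : dv D (G *ᵥ w) = G *ᵥ dv D w := by
  funext a
  have : dv D (G a) = 0 := funext fun b => hG a b
  have h := lf_dot D (G a) w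
  rw [this, zero_dotProduct, zero_add] at h
  exact h

theorem lf_bil [Fintype σ] (D : Derivation R F F) (G : Matrix σ σ F)
    (hG : ∀ a b, D (G a b) = 0) (v w : σ → F) :
    D (v ⬝ᵥ G *ᵥ w) = dv D v ⬝ᵥ G *ᵥ w + v ⬝ᵥ G *ᵥ dv D w := by
  rw [lf_dot, lf_mulVec D G hG]

end dvk

variable {Z : Cone ℂ 6} {Ω : Type} [Field Ω] [IsAlgClosed Ω] [Algebra ℂ Ω]

theorem lf_nm {I : Ideal (MvPolynomial (Fin 6) ℂ)} {x h v : Fin 6 → Ω} (hh : h ∈ Nm I x)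
    (hv : Tg I x v) : h ⬝ᵥ v = 0 := by
  refine Submodule.span_induction (p := fun h _ => h ⬝ᵥ v = 0) ?_ ?_ ?_ ?_ hh
  · rintro _ ⟨f, hf, rfl⟩; exact hv f hf
  · simp
  · intro a b _ _ ha hb; rw [add_dotProduct, ha, hb, add_zero]
  · intro c a _ ha; rw [smul_dotProduct, ha, smul_zero]

theorem lf_tg {I : Ideal (MvPolynomial (Fin 6) ℂ)} {x : Fin 6 → Ω} (hx : On I x)
    (D : Derivation ℂ Ω Ω) : Tg I x (dv D x) := fun f hf => by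
  rw [← D_aeval D (fun c => D.map_algebraMap c) f x, hx f hf, map_zero]

namespace Tri
variable (T : Tri Z Ω)

theorem lf_hD (D : Derivation ℂ Ω Ω) (i : Fin 3) :
    T.h i ⬝ᵥ dv D T.q = - T.u i * T.h i ⬝ᵥ dv D T.p := by
  have h := lf_nm (T.hN i) (lf_tg (T.on i) D)
  rw [lf_dv_add, lf_dv_smul, dotProduct_add, dotProduct_add, dotProduct_smul, dotProduct_smul,
    T.hp i] at h
  simp only [smul_eq_mul] at h
  linear_combination h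

theorem lf_p0 : T.p 0 ≠ 0 := by
  obtain ⟨D, hD⟩ := T.exp (fun _ => 1)
  intro h
  have := congrFun hD 0
  simp [dv, h] at this

theorem lf_e0 (a : ℕ) : T.e a 0 = 0 := by
  induction a with
  | zero => exact T.q0
  | succ a ih => simp [Tri.e, dv, ih]

theorem lf_ej (a : ℕ) : T.e (a + 1) T.j = 0 := by
  induction a with
  | zero => simp [Tri.e, dv, T.qj]
  | succ a ih => rw [Tri.e, dv, ih, map_zero]

theorem lf_mem (v : Fin 6 → Ω) : v ∈ T.La ↔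
    ∃ a b c d : Ω, v = a • T.p + b • T.e 0 + c • T.e 1 + d • T.e 2 := by
  simp only [Tri.La, Submodule.mem_span_insert, Submodule.mem_span_singleton]
  constructor
  · rintro ⟨a, _, ⟨b, _, ⟨c, _, ⟨d, rfl⟩, rfl⟩, rfl⟩, rfl⟩
    exact ⟨a, b, c, d, by abel⟩
  · rintro ⟨a, b, c, d, rfl⟩
    exact ⟨a, _, ⟨b, _, ⟨c, _, ⟨d, rfl⟩, rfl⟩, rfl⟩, by abel⟩

theorem lf_ker (v : Fin 6 → Ω) : (∀ i, T.h i ⬝ᵥ v = 0) ↔
    ∃ a b c : Ω, v = a • T.p + b • T.e 0 + c • T.e 1 := by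
  rw [T.ker]
  simp only [Submodule.mem_span_insert, Submodule.mem_span_singleton]
  constructor
  · rintro ⟨a, _, ⟨b, _, ⟨c, rfl⟩, rfl⟩, rfl⟩
    exact ⟨a, b, c, by abel⟩
  · rintro ⟨a, b, c, rfl⟩
    exact ⟨a, _, ⟨b, _, ⟨c, rfl⟩, rfl⟩, by abel⟩

theorem lf_h0 (i : Fin 3) : T.h i ⬝ᵥ T.e 0 = 0 :=
  (T.lf_ker _).2 ⟨0, 1, 0, by simp⟩ i

theorem lf_h1 (i : Fin 3) : T.h i ⬝ᵥ T.e 1 = 0 :=
  (T.lf_ker _).2 ⟨0, 0, 1, by simp⟩ i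

theorem lf_pm : T.p ∈ T.La := (T.lf_mem _).2 ⟨1, 0, 0, 0, by simp⟩
theorem lf_m0 : T.e 0 ∈ T.La := (T.lf_mem _).2 ⟨0, 1, 0, 0, by simp⟩
theorem lf_m1 : T.e 1 ∈ T.La := (T.lf_mem _).2 ⟨0, 0, 1, 0, by simp⟩
theorem lf_m2 : T.e 2 ∈ T.La := (T.lf_mem _).2 ⟨0, 0, 0, 1, by simp⟩

theorem lf_kerLa {v : Fin 6 → Ω} (h : ∀ i, T.h i ⬝ᵥ v = 0) : v ∈ T.La := by
  obtain ⟨a, b, c, rfl⟩ := (T.lf_ker v).1 h
  exact (T.lf_mem _).2 ⟨a, b, c, 0, by simp⟩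

/-- a derivation killing `p` is a multiple of `Dπ` -/
theorem lf_mult (D : Derivation ℂ Ω Ω) (hD : dv D T.p = 0) : ∃ c : Ω, ∀ y, D y = c * T.Dπ y := by
  obtain ⟨a, b, c, h⟩ := (T.lf_ker (dv D T.q)).1 fun i => by rw [T.lf_hD, hD]; simp
  have h0 := congrFun h 0
  have hj := congrFun h T.j
  have ej : T.e 0 T.j = 1 := T.qj
  simp only [dv, T.q0, map_zero, Pi.add_apply, Pi.smul_apply, smul_eq_mul, T.lf_e0, mul_zero,
    add_zero] at h0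
  have ha : a = 0 := (mul_eq_zero.1 h0.symm).resolve_right T.lf_p0
  simp only [dv, T.qj, Derivation.map_one_eq_zero, Pi.add_apply, Pi.smul_apply, smul_eq_mul, ha,
    ej, T.lf_ej 0, mul_zero, add_zero, zero_mul, zero_add, mul_one] at hj
  have hE : D - c • T.Dπ = 0 := by
    refine T.uq _ ?_ ?_
    · funext i
      have h1 := congrFun hD i
      have h2 := congrFun T.Dπp i
      simp only [dv, Pi.zero_apply] at h1 h2
      simp [dv, h1, h2]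
    · funext i
      have h1 := congrFun h i
      simp only [dv, ha, ← hj, Tri.e, Pi.add_apply, Pi.smul_apply, smul_eq_mul, zero_mul,
        zero_add] at h1
      simp [dv, h1]
  refine ⟨c, fun y => ?_⟩
  have := congrArg (fun E : Derivation ℂ Ω Ω => E y) hE
  simpa [sub_eq_zero] using this

/-- gradient of a `Dπ`-constant -/
theorem lf_grad {y : Ω} (hy : T.Dπ y = 0) : ∃ η : Fin 6 → Ω, dv T.Dπ η = 0 ∧
    ∀ D : Derivation ℂ Ω Ω, D y = η ⬝ᵥ dv D T.p := by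
  choose d hd using fun a : Fin 6 => T.exp (Pi.single a 1)
  refine ⟨fun a => d a y, ?_, fun D => ?_⟩
  · funext a
    obtain ⟨c, hc⟩ := T.lf_mult ⁅T.Dπ, d a⁆ (by
      rw [lf_dv_br, hd, T.Dπp]
      funext i
      by_cases h : i = a
      · subst h; simp [dv]
      · simp [dv, h])
    have := hc y
    rw [Derivation.commutator_apply, hy] at this
    simpa [dv] using this
  · obtain ⟨c, hc⟩ := T.lf_mult (D - ∑ a, D (T.p a) • d a) (by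
      funext i
      have : ∀ a, d a (T.p i) = (Pi.single a 1 : Fin 6 → Ω) i := fun a => congrFun (hd a) i
      simp [dv, lf_sum, this, Pi.single_apply])
    have := hc y
    rw [hy, mul_zero] at this
    simp only [Derivation.coe_sub, Pi.sub_apply, lf_sum,
      Derivation.coe_smul, Pi.smul_apply, smul_eq_mul, sub_eq_zero] at this
    rw [this]
    exact Finset.sum_congr rfl fun a _ => by simp [dv, mul_comm]

theorem lf_e3 (h3 : T.e 3 ∈ T.La) : ∃ b1 b2 : Ω, T.e 3 = b1 • T.e 1 + b2 • T.e 2 := by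
  obtain ⟨a, b, c, d, h⟩ := (T.lf_mem _).1 h3
  have h0 := congrFun h 0
  have hj := congrFun h T.j
  have ej : T.e 0 T.j = 1 := T.qj
  simp only [Pi.add_apply, Pi.smul_apply, smul_eq_mul, T.lf_e0, mul_zero, add_zero] at h0
  have ha : a = 0 := (mul_eq_zero.1 h0.symm).resolve_right T.lf_p0
  simp only [Pi.add_apply, Pi.smul_apply, smul_eq_mul, ha, ej, T.lf_ej 0, T.lf_ej 1, T.lf_ej 2,
    mul_zero, add_zero, zero_mul, zero_add, mul_one] at hj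
  exact ⟨c, d, by rw [h, ha, ← hj]; simp⟩

theorem lf_stab (h3 : T.e 3 ∈ T.La) {v : Fin 6 → Ω} (hv : v ∈ T.La) : dv T.Dπ v ∈ T.La := by
  obtain ⟨a, b, c, d, rfl⟩ := (T.lf_mem _).1 hv
  simp only [lf_dv_add, lf_dv_smul, T.Dπp, smul_zero, add_zero]
  have e1 : dv T.Dπ (T.e 0) ∈ T.La := T.lf_m1
  have e2 : dv T.Dπ (T.e 1) ∈ T.La := T.lf_m2
  have e3 : dv T.Dπ (T.e 2) ∈ T.La := h3
  have := T.lf_pm
  have := T.lf_m0
  have := T.lf_m1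
  have := T.lf_m2
  repeat' first | assumption | apply Submodule.smul_mem | apply Submodule.add_mem

/-- lemma C0 -/
theorem lf_c0 {b1 b2 : Ω} (h3 : T.e 3 = b1 • T.e 1 + b2 • T.e 2) (G : Matrix (Fin 6) (Fin 6) Ω)
    (hG : ∀ a b, T.Dπ (G a b) = 0) (g00 : T.e 0 ⬝ᵥ G *ᵥ T.e 0 = 0)
    (g01 : T.e 0 ⬝ᵥ G *ᵥ T.e 1 = 0) :
    T.e 1 ⬝ᵥ G *ᵥ T.e 0 = 0 ∧ T.e 1 ⬝ᵥ G *ᵥ T.e 1 = -(T.e 0 ⬝ᵥ G *ᵥ T.e 2) ∧
    T.e 2 ⬝ᵥ G *ᵥ T.e 0 = T.e 0 ⬝ᵥ G *ᵥ T.e 2 ∧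
    T.e 1 ⬝ᵥ G *ᵥ T.e 2 = -(b2 / 3) * (T.e 0 ⬝ᵥ G *ᵥ T.e 2) ∧
    T.e 2 ⬝ᵥ G *ᵥ T.e 1 = -(b2 / 3) * (T.e 0 ⬝ᵥ G *ᵥ T.e 2) ∧
    T.e 2 ⬝ᵥ G *ᵥ T.e 2 = (b1 + b2 ^ 2 / 9 - T.Dπ b2 / 3) * (T.e 0 ⬝ᵥ G *ᵥ T.e 2) ∧
    T.Dπ (T.e 0 ⬝ᵥ G *ᵥ T.e 2) = 2 * b2 / 3 * (T.e 0 ⬝ᵥ G *ᵥ T.e 2) := by
  have : CharZero Ω := charZero_of_injective_algebraMap (algebraMap ℂ Ω).injective
  have d : ∀ a b, T.Dπ (T.e a ⬝ᵥ G *ᵥ T.e b) =
      T.e (a + 1) ⬝ᵥ G *ᵥ T.e b + T.e a ⬝ᵥ G *ᵥ T.e (b + 1) := fun a b => lf_bil _ G hG _ _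
  have r3 : ∀ a, T.e a ⬝ᵥ G *ᵥ T.e 3 = b1 * (T.e a ⬝ᵥ G *ᵥ T.e 1) + b2 * (T.e a ⬝ᵥ G *ᵥ T.e 2) :=
    fun a => by rw [h3]; simp [mulVec_add, mulVec_smul]
  have l3 : ∀ a, T.e 3 ⬝ᵥ G *ᵥ T.e a = b1 * (T.e 1 ⬝ᵥ G *ᵥ T.e a) + b2 * (T.e 2 ⬝ᵥ G *ᵥ T.e a) :=
    fun a => by rw [h3]; simp
  have d00 := d 0 0
  have d01 := d 0 1
  have d10 := d 1 0
  have d02 := d 0 2
  have d20 := d 2 0
  have d11 := d 1 1
  have d12 := d 1 2
  simp only [Nat.reduceAdd, r3, l3] at d00 d01 d10 d02 d20 d11 d12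
  rw [g00, map_zero] at d00
  have g10 : T.e 1 ⬝ᵥ G *ᵥ T.e 0 = 0 := by linear_combination -d00 - g01
  rw [g01, map_zero] at d01
  rw [g10, map_zero] at d10
  have g11 : T.e 1 ⬝ᵥ G *ᵥ T.e 1 = -(T.e 0 ⬝ᵥ G *ᵥ T.e 2) := by linear_combination -d01
  have g20 : T.e 2 ⬝ᵥ G *ᵥ T.e 0 = T.e 0 ⬝ᵥ G *ᵥ T.e 2 := by linear_combination d01 - d10
  rw [g11, map_neg] at d11
  rw [g20, g10] at d20
  rw [g01] at d02
  have g12 : T.e 1 ⬝ᵥ G *ᵥ T.e 2 = -(b2 / 3) * (T.e 0 ⬝ᵥ G *ᵥ T.e 2) := by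
    linear_combination (-1 / 3 : Ω) * d11 - (2 / 3 : Ω) * d02 + (1 / 3 : Ω) * d20
  have g21 : T.e 2 ⬝ᵥ G *ᵥ T.e 1 = -(b2 / 3) * (T.e 0 ⬝ᵥ G *ᵥ T.e 2) := by
    linear_combination (-1 / 3 : Ω) * d11 + (1 / 3 : Ω) * d02 - (2 / 3 : Ω) * d20
  have dg : T.Dπ (T.e 0 ⬝ᵥ G *ᵥ T.e 2) = 2 * b2 / 3 * (T.e 0 ⬝ᵥ G *ᵥ T.e 2) := by
    linear_combination d02 + g12
  refine ⟨g10, g11, g20, g12, g21, ?_, dg⟩
  have e : (3 : Ω) * (T.e 1 ⬝ᵥ G *ᵥ T.e 2) = -(b2 * (T.e 0 ⬝ᵥ G *ᵥ T.e 2)) := by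
    linear_combination 3 * g12
  have e' := congrArg T.Dπ e
  have n3 : T.Dπ 3 = 0 := by exact_mod_cast T.Dπ.map_natCast 3
  rw [map_neg, Derivation.leibniz, Derivation.leibniz, n3, d12, dg, g11, g12] at e'
  simp only [smul_eq_mul] at e'
  linear_combination (1 / 3 : Ω) * e'

end Tri

end PV
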