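import Pool.Agent.Lib.MP_36fb43_ag.TriB

open MvPolynomial Matrix Module

namespace PV

section interp
variable {F : Type} [Field F] {u : Fin 3 → F}

theorem la_uq (hu : Function.Injective u) {a b c : F} (h : ∀ i, a * u i ^ 2 + b * u i + c = 0) :
    a = 0 ∧ b = 0 ∧ c = 0 := by
  have h01 : u 0 - u 1 ≠ 0 := sub_ne_zero.2 (hu.ne (by decide))
  have h02 : u 0 - u 2 ≠ 0 := sub_ne_zero.2 (hu.ne (by decide))
  have h12 : u 1 - u 2 ≠ 0 := sub_ne_zero.2 (hu.ne (by decide))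
  have e1 : a * (u 0 + u 1) + b = 0 :=
    (mul_eq_zero.1 (by linear_combination h 0 - h 1)).resolve_left h01
  have e2 : a * (u 0 + u 2) + b = 0 :=
    (mul_eq_zero.1 (by linear_combination h 0 - h 2)).resolve_left h02
  have ha : a = 0 := (mul_eq_zero.1 (by linear_combination e1 - e2)).resolve_left h12
  have hb : b = 0 := by simpa [ha] using e1
  exact ⟨ha, hb, by simpa [ha, hb] using h 0⟩

theorem la_ex (hu : Function.Injective u) (y : Fin 3 → F) :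
    ∃ a b c : F, ∀ i, a * u i ^ 2 + b * u i + c = y i := by
  have h01 : u 0 - u 1 ≠ 0 := sub_ne_zero.2 (hu.ne (by decide))
  have h02 : u 0 - u 2 ≠ 0 := sub_ne_zero.2 (hu.ne (by decide))
  have h12 : u 1 - u 2 ≠ 0 := sub_ne_zero.2 (hu.ne (by decide))
  obtain ⟨b1, hb1⟩ : ∃ b, b * (u 0 - u 1) = y 0 - y 1 := ⟨_, div_mul_cancel₀ _ h01⟩
  obtain ⟨b2, hb2⟩ : ∃ b, b * (u 0 - u 2) = y 0 - y 2 := ⟨_, div_mul_cancel₀ _ h02⟩
  obtain ⟨a, ha⟩ : ∃ a, a * (u 1 - u 2) = b1 - b2 := ⟨_, div_mul_cancel₀ _ h12⟩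
  refine ⟨a, b1 - a * (u 0 + u 1), y 0 - a * u 0 ^ 2 - (b1 - a * (u 0 + u 1)) * u 0, fun i => ?_⟩
  fin_cases i
  · simp
  · simp only [Fin.mk_one]; linear_combination -hb1
  · simp only [Fin.reduceFinMk]; linear_combination -hb2 + (u 0 - u 2) * ha

theorem la_lin {f : MvPolynomial (Fin 2) F} {d : ℕ} (hf : f.IsHomogeneous d) {w : F}
    (h : eval ![w, 1] f = 0) : X 0 - C w * X 1 ∣ f := by
  rw [← Ideal.mem_span_singleton, ← Ideal.Quotient.eq_zero_iff_mem]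
  set J : Ideal (MvPolynomial (Fin 2) F) := Ideal.span {X 0 - C w * X 1}
  have e : Ideal.Quotient.mkₐ F J = aeval ((Ideal.Quotient.mk J (X 1)) •
      (algebraMap F (MvPolynomial (Fin 2) F ⧸ J) ∘ ![w, 1])) := by
    refine MvPolynomial.algHom_ext fun i => ?_
    fin_cases i
    · simp only [Ideal.Quotient.mkₐ_eq_mk, aeval_X, Pi.smul_apply, smul_eq_mul, Fin.zero_eta,
        Function.comp_apply, cons_val_zero]
      rw [← Ideal.Quotient.mk_algebraMap, ← map_mul, Ideal.Quotient.eq]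
      refine Ideal.subset_span ?_
      rw [mul_comm]; rfl
    · simp
  have := DFunLike.congr_fun e f
  rw [aeval_smul_hom hf, aeval_algebraMap_apply, show aeval ![w, 1] f = 0 from h] at this
  simpa using this

theorem la_dvd (hu : Function.Injective u) {f : MvPolynomial (Fin 2) F} {d : ℕ}
    (hf : f.IsHomogeneous d) (h : ∀ i, eval ![u i, 1] f = 0) :
    (X 0 - C (u 0) * X 1) * ((X 0 - C (u 1) * X 1) * (X 0 - C (u 2) * X 1)) ∣ f := by
  have step : ∀ {f : MvPolynomial (Fin 2) F} {d : ℕ} (i : Fin 3), f.IsHomogeneous d →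
      eval ![u i, 1] f = 0 → ∃ g d', f = (X 0 - C (u i) * X 1) * g ∧ g.IsHomogeneous d' ∧
        ∀ j, j ≠ i → eval ![u j, 1] f = 0 → eval ![u j, 1] g = 0 := by
    intro f d i hf h
    obtain ⟨g, rfl⟩ := la_lin hf h
    have hz : ∀ j, j ≠ i → eval ![u j, 1] ((X 0 - C (u i) * X 1) * g) = 0 →
        eval ![u j, 1] g = 0 := fun j hj e => by
      rw [map_mul] at e
      exact (mul_eq_zero.1 e).resolve_left (by simpa using sub_ne_zero.2 (hu.ne hj))
    by_cases h0 : (X 0 - C (u i) * X 1) * g = 0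
    · refine ⟨0, 0, by rw [h0, mul_zero], isHomogeneous_zero _ _ _, fun _ _ _ => map_zero _⟩
    · exact ⟨g, _, rfl, (homfac hf h0).2, hz⟩
  obtain ⟨g0, d0, rfl, a0, b0⟩ := step 0 hf (h 0)
  obtain ⟨g1, d1, rfl, a1, b1⟩ := step 1 a0 (b0 1 (by decide) (h 1))
  obtain ⟨g2, d2, rfl, -, -⟩ := step 2 a1 (b1 2 (by decide) (b0 2 (by decide) (h 2)))
  exact ⟨g2, by ring⟩

end interp

variable {Z : Cone ℂ 6} {Ω : Type} [Field Ω] [Algebra ℂ Ω]

theorem la_pi (T : Tri Z Ω) (s : Sect Z 2) {c c1 c2 : Ω}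
    (val : ∀ i, s.Val (T.x i) (c * T.u i ^ 2 + c1 * T.u i + c2)) : T.Dπ c = 0 := by
  refine val_der (R := ℂ) {T.Dπ} (fun O hO => ?_) T.Dπ rfl
  have hp : ∀ a, T.p a ∈ O := fun a => hO _ fun D hD => by
    rw [hD]; exact congrFun T.Dπp a
  obtain ⟨ι, l, hl, hsp, hlO, -⟩ := ech_val O ![T.p, T.q] T.li2
  have hpm : T.p ∈ Submodule.span Ω (Set.range l) := hsp ▸ Submodule.subset_span ⟨0, rfl⟩
  have hex : ∀ a, ∃ m : Fin 2 → Ω, l a = m 0 • T.p + m 1 • T.q := fun a => by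
    have : l a ∈ Submodule.span Ω (Set.range ![T.p, T.q]) := hsp ▸ Submodule.subset_span ⟨a, rfl⟩
    obtain ⟨m, hm⟩ := (Submodule.mem_span_range_iff_exists_fun Ω).1 this
    exact ⟨m, by rw [← hm, Fin.sum_univ_two]; rfl⟩
  choose m hm using hex
  let AB : Fin 2 → MvPolynomial (Fin 2) Ω := fun b => lin fun a => m a b
  let ψ : MvPolynomial (Fin 2) Ω →ₐ[Ω] MvPolynomial (Fin 2) Ω := aeval AB
  have hψ : ∀ i, ψ (pl ![T.p, T.q] i) = pl l i := fun i => by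
    simp only [ψ, AB, pl, lin, Fin.sum_univ_two, hm, map_add, map_mul, aeval_X, aeval_C,
      cons_val_zero, cons_val_one, Pi.add_apply, Pi.smul_apply, smul_eq_mul, algebraMap_eq]
    ring
  have hψh : ∀ {f : MvPolynomial (Fin 2) Ω} {d : ℕ}, f.IsHomogeneous d → (ψ f).IsHomogeneous d :=
    fun hf => by simpa only [one_mul] using hf.aeval AB fun b => lin_hom _
  have hev : ∀ f, eval (T.p ∘ ι) (ψ f) = eval ![1, 0] f := fun f => by
    have e := hl.repr hpm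
    rw [Fin.sum_univ_two, hm, hm] at e
    obtain ⟨e1, e2, -⟩ := T.rel (a := T.p (ι 0) * m 0 0 + T.p (ι 1) * m 1 0 - 1)
      (b := T.p (ι 0) * m 0 1 + T.p (ι 1) * m 1 1) (w := 0) rfl rfl (by
        linear_combination (norm := module) -e)
    have : (aeval (T.p ∘ ι) : MvPolynomial (Fin 2) Ω →ₐ[Ω] Ω).comp ψ = aeval ![1, 0] := by
      refine MvPolynomial.algHom_ext fun b => ?_
      fin_cases b
      · simp [ψ, AB, lin, Fin.sum_univ_two]; linear_combination e1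
      · simp [ψ, AB, lin, Fin.sum_univ_two]; linear_combination e2
    exact DFunLike.congr_fun this f
  have hL : ∀ w : Ω, (X 0 - C w * X 1 : MvPolynomial (Fin 2) Ω).IsHomogeneous 1 := fun w =>
    (isHomogeneous_X _ _).sub ((isHomogeneous_C _ _).mul (isHomogeneous_X _ _))
  set e' : MvPolynomial (Fin 2) Ω := (X 0 - C (T.u 0) * X 1) *
    ((X 0 - C (T.u 1) * X 1) * (X 0 - C (T.u 2) * X 1)) with he'
  set Q' : MvPolynomial (Fin 2) Ω := C c * X 0 ^ 2 + C c1 * (X 0 * X 1) + C c2 * X 1 ^ 2 with hQ'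
  have hQh : Q'.IsHomogeneous 2 :=
    (((isHomogeneous_C _ _).mul ((isHomogeneous_X _ _).pow 2)).add
      ((isHomogeneous_C _ _).mul ((isHomogeneous_X _ _).mul (isHomogeneous_X _ _)))).add
      ((isHomogeneous_C _ _).mul ((isHomogeneous_X _ _).pow 2))
  have he0 : ψ e' ≠ 0 := fun h => by
    have := hev e'
    rw [h] at this
    simp [he'] at this
  obtain ⟨mm, hmm, hprim⟩ := prim_ex O he0
  have hplh : ∀ i, (pl ![T.p, T.q] i).IsHomogeneous 1 := fun i => lin_hom fun a => ![T.p, T.q] a i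
  have hint : Int O (ψ Q') := by
    refine lemV (k := ℂ) O (fun z => hO _ fun D _ => D.map_algebraMap z) (N := s.N) (m := 3) le_rfl
      s.G hl hlO hprim ((isHomogeneous_C _ _).mul (hψh ((hL _).mul ((hL _).mul (hL _)))))
      ((hψh hQh).totalDegree_le.trans_lt (by norm_num)) (mu := 1) (fun z => ?_) fun i => ?_
    · rw [coeff_one]; split_ifs; exacts [one_mem _, zero_mem _]
    · rw [IsUnit.mul_left_dvd ((isUnit_iff_ne_zero.2 (inv_ne_zero hmm)).map C), one_mul]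
      have hd : e' ∣ pl ![T.p, T.q] i ^ s.N * Q' - aeval (pl ![T.p, T.q]) (s.G i) := by
        refine la_dvd T.uinj (d := s.N + 2) (IsHomogeneous.sub ?_ ?_) fun a => ?_
        · simpa using ((hplh i).pow s.N).mul hQh
        · simpa using (s.hom i).aeval _ hplh
        · have hx : (fun i => eval ![T.u a, 1] (pl ![T.p, T.q] i)) = T.x a := by
            ext i; simp [pl, Tri.x, Fin.sum_univ_two, mul_comm]
          have h2 : eval ![T.u a, 1] (aeval (pl ![T.p, T.q]) (s.G i)) = aeval (T.x a) (s.G i) := by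
            rw [← hx]
            exact DFunLike.congr_fun (comp_aeval (pl ![T.p, T.q])
              ((aeval ![T.u a, 1] : MvPolynomial (Fin 2) Ω →ₐ[Ω] Ω).restrictScalars ℂ)) (s.G i)
          rw [map_sub, map_mul, map_pow, h2, ← val a i, congrFun hx i]
          simp [hQ']
      have := map_dvd ψ hd
      rw [map_sub, map_mul ψ (pl _ i ^ _), map_pow, hψ] at this
      have h3 : ψ (aeval (pl ![T.p, T.q]) (s.G i)) = aeval (pl l) (s.G i) := by
        rw [← funext hψ]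
        exact DFunLike.congr_fun (comp_aeval (pl ![T.p, T.q]) (ψ.restrictScalars ℂ)) (s.G i)
      rwa [h3] at this
  have : c = eval (T.p ∘ ι) (ψ Q') := by rw [hev]; simp [hQ']
  rw [this, eval_eq']
  exact sum_mem fun d _ => mul_mem (hint d) (prod_mem fun a _ => pow_mem (hp _) _)

theorem leg_one (T : Tri Z Ω) (s : Sect Z 2) : ∃ (c c1 c2 : Ω) (z z' : Fin 6 → Ω),
    (∀ i, s.Val (T.x i) (c * T.u i ^ 2 + c1 * T.u i + c2)) ∧
    (∀ D : Derivation ℂ Ω Ω, D c = z ⬝ᵥ dv D T.p) ∧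
    (∀ D : Derivation ℂ Ω Ω, D c1 = z ⬝ᵥ dv D T.q + z' ⬝ᵥ dv D T.p) ∧
    (∀ D : Derivation ℂ Ω Ω, D c2 = z' ⬝ᵥ dv D T.q) ∧ z ⬝ᵥ T.p = 2 * c ∧ z ⬝ᵥ T.q = c1 ∧
    z' ⬝ᵥ T.p = c1 ∧ z' ⬝ᵥ T.q = 2 * c2 := by
  choose t w hv hw hD using fun i => val_ex (R := ℂ) s (T.x_ne i) (T.on i)
  obtain ⟨c, c1, c2, hc⟩ := la_ex T.uinj t
  have val : ∀ i, s.Val (T.x i) (c * T.u i ^ 2 + c1 * T.u i + c2) := fun i => (hc i).symm ▸ hv i
  have hπ := la_pi T s val
  have h1 : ∀ i, ∃ σ : Fin 6 → Ω, σ ⬝ᵥ T.p = 2 * c * T.u i + c1 ∧ σ ⬝ᵥ T.q = c1 * T.u i + 2 * c2 ∧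
      ∀ D : Derivation ℂ Ω Ω, T.u i * (σ ⬝ᵥ dv D T.p) + σ ⬝ᵥ dv D T.q =
        D c * T.u i ^ 2 + D c1 * T.u i + D c2 := fun i => by
    obtain ⟨f, hf⟩ := not_forall.1 (T.nt i)
    obtain ⟨hf, hν⟩ := Classical.not_imp.1 hf
    obtain ⟨κ, hκ⟩ : ∃ κ, κ * (gr f (T.x i) ⬝ᵥ T.p) = 2 * c * T.u i + c1 - w i ⬝ᵥ T.p :=
      ⟨_, div_mul_cancel₀ _ hν⟩
    have a1 : gr f (T.x i) ⬝ᵥ T.x i = 0 := tg_self Z (T.on i) f hf
    have a2 := hw i
    have a3 := hc i
    refine ⟨w i + κ • gr f (T.x i), ?_, ?_, fun D => ?_⟩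
    · rw [add_dotProduct, smul_dotProduct, smul_eq_mul]; linear_combination hκ
    · rw [add_dotProduct, smul_dotProduct, smul_eq_mul]
      generalize gr f (T.x i) = ν at *
      rw [Tri.x, dotProduct_add, dotProduct_smul, smul_eq_mul] at a1 a2
      push_cast at a2
      linear_combination a2 + κ * a1 - T.u i * hκ - 2 * a3
    · have b1 := T.tgx D i f hf
      have b2 := hD i D D.map_algebraMap
      have b3 := congrArg D a3
      simp only [map_add, D.leibniz, D.leibniz_pow, smul_eq_mul, nsmul_eq_mul] at b3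
      simp only [T.dx, dotProduct_add, dotProduct_smul, smul_eq_mul] at b1 b2
      simp only [add_dotProduct, smul_dotProduct, smul_eq_mul]
      push_cast at b3
      linear_combination -b2 - b3 + κ * b1 - D (T.u i) * hκ
  choose σ σp σq σD using h1
  choose a b e he using fun l => la_ex T.uinj fun i => σ i l
  have hσ : ∀ i, σ i = T.u i ^ 2 • a + T.u i • b + e := fun i => by
    ext l; simp only [Pi.add_apply, Pi.smul_apply, smul_eq_mul]; linear_combination -he l i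
  have hσv : ∀ i v, σ i ⬝ᵥ v = (a ⬝ᵥ v) * T.u i ^ 2 + (b ⬝ᵥ v) * T.u i + e ⬝ᵥ v := fun i v => by
    simp only [hσ, add_dotProduct, smul_dotProduct, smul_eq_mul]; ring
  have ap : a ⬝ᵥ T.p = 0 := (la_uq T.uinj (b := b ⬝ᵥ T.p - 2 * c) (c := e ⬝ᵥ T.p - c1)
    fun i => by linear_combination σp i - hσv i T.p).1
  have aq : a ⬝ᵥ T.q = 0 := (la_uq T.uinj (b := b ⬝ᵥ T.q - c1) (c := e ⬝ᵥ T.q - 2 * c2)
    fun i => by linear_combination σq i - hσv i T.q).1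
  have ae : a ⬝ᵥ T.e 1 = 0 := (la_uq T.uinj (b := b ⬝ᵥ T.e 1 - T.Dπ c1)
    (c := e ⬝ᵥ T.e 1 - T.Dπ c2) fun i => by
      have := σD i T.Dπ
      rw [T.Dπp, dotProduct_zero, hπ, show dv T.Dπ T.q = T.e 1 from rfl] at this
      linear_combination this - hσv i (T.e 1)).1
  have ha : a ∈ Submodule.span Ω (Set.range T.h) := by
    rw [← perp_perp (Submodule.span Ω (Set.range T.h))]
    refine mem_perp.2 fun v hv => ?_
    obtain ⟨x, y, r, rfl⟩ := T.ker' fun i => mem_perp_span.1 hv _ ⟨i, rfl⟩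
    rw [dotProduct_comm]
    simp only [dotProduct_add, dotProduct_smul, ap, aq, ae, smul_zero, add_zero]
  obtain ⟨γ, hγ⟩ := (Submodule.mem_span_range_iff_exists_fun Ω).1 ha
  rw [Fin.sum_univ_three] at hγ
  obtain ⟨z, z', hz⟩ : ∃ z z' : Fin 6 → Ω, ∀ i, ∃ δ : Ω, σ i = T.u i • z + z' + δ • T.h i := by
    refine ⟨b + ((T.u 1 + T.u 2) * γ 0) • T.h 0 + ((T.u 0 + T.u 2) * γ 1) • T.h 1 +
      ((T.u 0 + T.u 1) * γ 2) • T.h 2, e - (T.u 1 * T.u 2 * γ 0) • T.h 0 -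
      (T.u 0 * T.u 2 * γ 1) • T.h 1 - (T.u 0 * T.u 1 * γ 2) • T.h 2, fun i => ?_⟩
    rw [hσ, ← hγ]
    fin_cases i
    · exact ⟨(T.u 0 - T.u 1) * (T.u 0 - T.u 2) * γ 0, by simp only [Fin.zero_eta]; module⟩
    · exact ⟨(T.u 1 - T.u 0) * (T.u 1 - T.u 2) * γ 1, by simp only [Fin.mk_one]; module⟩
    · exact ⟨(T.u 2 - T.u 0) * (T.u 2 - T.u 1) * γ 2, by simp only [Fin.reduceFinMk]; module⟩
  choose δ hδ using hz
  have hzv : ∀ i v, σ i ⬝ᵥ v = T.u i * (z ⬝ᵥ v) + z' ⬝ᵥ v + δ i * (T.h i ⬝ᵥ v) := fun i v => by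
    simp only [hδ i, add_dotProduct, smul_dotProduct, smul_eq_mul]
  obtain ⟨-, p1, p2⟩ := la_uq T.uinj (a := 0) (b := z ⬝ᵥ T.p - 2 * c) (c := z' ⬝ᵥ T.p - c1)
    fun i => by linear_combination σp i - hzv i T.p - δ i * T.hp i
  obtain ⟨-, q1, q2⟩ := la_uq T.uinj (a := 0) (b := z ⬝ᵥ T.q - c1) (c := z' ⬝ᵥ T.q - 2 * c2)
    fun i => by linear_combination σq i - hzv i T.q - δ i * T.hq i
  have hd := fun D : Derivation ℂ Ω Ω => la_uq T.uinj (a := D c - z ⬝ᵥ dv D T.p)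
    (b := D c1 - (z ⬝ᵥ dv D T.q + z' ⬝ᵥ dv D T.p)) (c := D c2 - z' ⬝ᵥ dv D T.q) fun i => by
      have := T.hD D i
      rw [dotProduct_add, dotProduct_smul, smul_eq_mul] at this
      linear_combination -σD i D + T.u i * hzv i (dv D T.p) + hzv i (dv D T.q) + δ i * this
  exact ⟨c, c1, c2, z, z', val, fun D => sub_eq_zero.1 (hd D).1, fun D => sub_eq_zero.1 (hd D).2.1,
    fun D => sub_eq_zero.1 (hd D).2.2, sub_eq_zero.1 p1, sub_eq_zero.1 q1, sub_eq_zero.1 p2,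
    sub_eq_zero.1 q2⟩

end PV
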