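import Pool.Agent.Lib.MP_36fb43_ag.OscD

open MvPolynomial Matrix Module

namespace PV.O7

variable {Z : Cone ℂ 6} {s : Sect Z 2} {k : Type} [Field k] [Algebra ℂ k] {p : Fin 6 → k}

theorem four_yU (A : Four s p) (i : Fin 4) : A.u i • p + A.q ∈ (A.P i).U := by
  rw [A.U]
  exact Submodule.add_mem _ (Submodule.smul_mem _ _ (Submodule.subset_span (by simp)))
    (Submodule.subset_span (by simp))

theorem four_wg (A : Four s p) (i : Fin 4) : wg p A.q = wg p (A.u i • p + A.q) := by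
  ext e; simp [wg]; ring

theorem four_rep (A : Four s p) (v : Fin 6 → k) :
    ∃ (a b : k) (c : Fin 4 → k), v = a • p + b • A.q + ∑ i, c i • A.π i := by
  have h : v ∈ Submodule.span k (Set.range ![p, A.q, A.π 0, A.π 1, A.π 2, A.π 3]) := by
    rw [A.li.span_eq_top_of_card_eq_finrank (by simp)]; trivial
  obtain ⟨g, rfl⟩ := (Submodule.mem_span_range_iff_exists_fun k).1 h
  refine ⟨g 0, g 1, ![g 2, g 3, g 4, g 5], ?_⟩
  simp [Fin.sum_univ_six, Fin.sum_univ_four, add_assoc]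

theorem four_line (A : Four s p) {D : Derivation ℂ k k} {a b : k} (h : dv D p = a • p + b • A.q) :
    ∃ t : k, dv D (wg p A.q) = t • wg p A.q := by
  obtain ⟨t, ht⟩ := A.dy 0 D (by
    rw [h, A.U]
    exact Submodule.add_mem _ (Submodule.smul_mem _ _ (Submodule.subset_span (by simp)))
      (Submodule.smul_mem _ _ (Submodule.subset_span (by simp))))
  refine ⟨a - b * A.u 0 + t, ?_⟩
  conv_lhs => rw [four_wg A 0]
  rw [dv_wg, ht, h]
  ext e; simp [wg]; ring

/-- every derivation is a combination of four given ones and one that fixes the line -/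
theorem four_split (A : Four s p) (E : Fin 4 → Derivation ℂ k k)
    (hE : ∀ i, ∃ a b c : k, c ≠ 0 ∧ dv (E i) p = a • p + b • A.q + c • A.π i)
    (D : Derivation ℂ k k) : ∃ (D0 : Derivation ℂ k k) (c : Fin 4 → k) (t : k),
      dv D0 (wg p A.q) = t • wg p A.q ∧
      ∀ v : Fin 6 × Fin 6 → k, dv D v = dv D0 v + ∑ i, c i • dv (E i) v := by
  choose a b c hc hE using hE
  obtain ⟨a', b', c', h⟩ := four_rep A (dv D p)
  obtain ⟨t, ht⟩ := four_line A (D := D - ∑ i, (c' i / c i) • E i)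
    (a := a' - ∑ i, c' i / c i * a i) (b := b' - ∑ i, c' i / c i * b i) (by
      rw [← dvL_apply]
      simp only [map_sub, map_sum, map_smul, dvL_apply, h, hE, smul_add, smul_smul,
        div_mul_cancel₀ _ (hc _), Finset.sum_add_distrib, sub_smul, Finset.sum_smul]
      abel)
  refine ⟨_, fun i => c' i / c i, t, ht, fun v => ?_⟩
  rw [← dvL_apply v (_ - _)]
  simp only [map_sub, map_sum, map_smul, dvL_apply]
  abel

theorem four_dim (hp : GenPt p) (A : Four s p) :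
    4 ≤ finrank k (Sk k ⊓ O2 (wg p A.q) : Submodule k _) := by
  choose E hE using fun i => hp.ex (A.π i)
  have sp := four_split A E fun i => ⟨0, 0, 1, one_ne_zero, by simp [hE]⟩
  refine four_le (ι := Unit ⊕ Fin 4 ⊕ {e : Fin 4 × Fin 4 // e.1 < e.2}) (by decide)
    (Sum.elim (fun _ => wg p A.q) (Sum.elim (fun i => dv (E i) (wg p A.q))
      fun e => dv (E e.1.1) (dv (E e.1.2) (wg p A.q)))) _ fun w hw h => ?_
  have h0 : w ⬝ᵥ wg p A.q = 0 := h (Sum.inl ())
  have h1 : ∀ i, w ⬝ᵥ dv (E i) (wg p A.q) = 0 := fun i => h (Sum.inr (Sum.inl i))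
  have h2 : ∀ i j, i < j → β (wg p A.q) w (E i) (E j) = 0 := fun i j hij =>
    h (Sum.inr (Sum.inr ⟨(i, j), hij⟩))
  have o1 : w ∈ O1 (wg p A.q) := ⟨h0, fun D => by
    obtain ⟨D0, c, t, ht, hD⟩ := sp D
    simp [hD, ht, dotProduct_sum, h0, h1]⟩
  have h3 : ∀ i, β (wg p A.q) w (E i) (E i) = 0 := fun i => by
    have hz : ∀ z ∈ (A.P i).U, w ⬝ᵥ wg z (A.u i • p + A.q) = 0 := fun z hz => by
      obtain ⟨D, rfl⟩ := hp.ex z
      obtain ⟨t, ht⟩ := A.dy i D hz
      have := o1.2 D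
      rw [four_wg A i, dv_wg, ht, wg_smul', ← four_wg, dotProduct_add, dotProduct_smul, h0] at this
      simpa using this
    have hπ : A.π i ∈ (A.P i).U := by rw [A.U]; exact Submodule.subset_span (by simp)
    have hπ' : dv (E i) (A.π i) ∈ (A.P i).U := by
      obtain ⟨c, hc⟩ := (Submodule.mem_span_range_iff_exists_fun k).1 hπ
      rw [← hc, dv_sum]
      simp only [dv_smul, (A.P i).stab (E i) (hE i ▸ hπ), smul_zero, add_zero]
      exact mem_mu _ _
    obtain ⟨t, ht⟩ := A.dy i (E i) (hE i ▸ hπ)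
    have e : dv (E i) (wg p A.q) = wg (A.π i) (A.u i • p + A.q) + t • wg p A.q := by
      conv_lhs => rw [four_wg A i]
      rw [dv_wg, ht, hE, wg_smul', ← four_wg]
    rw [β_apply, e, dv_add, dv_wg, ht, wg_smul', dotProduct_add, dotProduct_add, dotProduct_smul,
      hz _ hπ, hz _ hπ', (O1_smul o1 t).2]
    simp
  have h4 : ∀ i j, β (wg p A.q) w (E i) (E j) = 0 := fun i j => by
    rcases lt_trichotomy i j with hij | rfl | hij
    exacts [h2 i j hij, h3 i, (β_symm o1 _ _).trans (h2 j i hij)]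
  have h5 : ∀ D' : Derivation ℂ k k, (∀ i, β (wg p A.q) w (E i) D' = 0) →
      ∀ D, β (wg p A.q) w D D' = 0 := fun D' hD' D => by
    obtain ⟨D0, c, t, ht, hD⟩ := sp D
    have e0 : β (wg p A.q) w D0 D' = 0 := by
      rw [β_symm o1, β_apply, ht]; exact (O1_smul o1 t).2 D'
    simp only [β_apply] at hD' e0 ⊢
    simp [hD, dotProduct_sum, hD', e0]
  refine ⟨hw, o1, ?_⟩
  rw [SetLike.mem_coe, LinearMap.mem_ker]
  ext D D'
  exact h5 D' (fun i => (β_symm o1 _ _).trans (h5 (E i) (fun j => h4 j i) D')) D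

theorem four_loc (hp : GenPt p) (A : Four s p) (i : Fin 4) :
    ∃ c : k, c ≠ 0 ∧ Nonempty (Loc p (A.P i).μ (c • (A.u i • p + A.q))) := by
  have hy := four_yU A i
  have li := Fintype.linearIndependent_iff.1 A.li
  have y0 : A.u i • p + A.q ≠ 0 := fun e => by
    have := li ![A.u i, 1, 0, 0, 0, 0] (by simpa [Fin.sum_univ_six] using e) 1
    simp at this
  have ry := ((A.P i).ech.repr hy).symm
  obtain ⟨a0, ha0⟩ : ∃ a, (A.u i • p + A.q) ((A.P i).ι a) ≠ 0 := by
    by_contra h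
    push Not at h
    exact y0 (by rw [← ry]; exact Finset.sum_eq_zero fun a _ => by rw [h, zero_smul])
  set c := ((A.u i • p + A.q) ((A.P i).ι a0))⁻¹ with hc
  have c0 : c ≠ 0 := inv_ne_zero ha0
  have hy' := (A.P i).U.smul_mem c hy
  obtain ⟨f⟩ := fr_ex hp (A.P i) hy' (by
    have := aeval_smul_hom (A.P i).ehom c ((A.u i • p + A.q) ∘ (A.P i).ι)
    rw [aeval_eq_eval, aeval_eq_eval] at this
    exact ne_of_eq_of_ne this (mul_ne_zero (pow_ne_zero _ c0) (A.ey i))) (A.sm i)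
  refine ⟨c, c0, ⟨⟨f, hp.ex, (A.P i).ech.li, _, ((A.P i).ech.repr hy').symm, a0,
    mul_ne_zero c0 ha0, _, ((A.P i).ech.repr (A.P i).pm).symm, fun t e => ?_,
    fun D hD => ⟨(A.P i).stab D hD, ?_⟩⟩⟩⟩
  · have h := li ![1 - t * c * A.u i, -(t * c), 0, 0, 0, 0] (by
      simp only [Fin.sum_univ_six, cons_val_zero, cons_val_one, cons_val, zero_smul, add_zero]
      rw [sub_smul, one_smul]
      nth_rewrite 1 [e]
      module)
    have h0 : 1 - t * c * A.u i = 0 := h 0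
    have h1 : -(t * c) = 0 := h 1
    exact one_ne_zero (by linear_combination h0 - A.u i * h1)
  · obtain ⟨t, ht⟩ := A.dy i D hD
    have h1 : D ((A.u i • p + A.q) ((A.P i).ι a0)) = t * (A.u i • p + A.q) ((A.P i).ι a0) :=
      congrFun ht _
    have h2 : D c = -(c * t) := by
      rw [hc, D.leibniz_inv, h1, smul_eq_mul]; field_simp
    rw [dv_smul, ht, h2]
    module

theorem four_O2 (A : Four s p) (i : Fin 4) {c : k} (hc : c ≠ 0) :
    O2 (wg (c • (A.u i • p + A.q)) p) = O2 (wg p A.q) := by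
  rw [← O2_smul_eq (wg p A.q) (neg_ne_zero.2 hc)]
  congr 1
  ext e; simp [wg]; ring

theorem four_stable [IsAlgClosed k] (hp : GenPt p) (A : Four s p) (D : Derivation ℂ k k)
    {w : Fin 6 × Fin 6 → k} (hw : w ∈ Sk k ⊓ O2 (wg p A.q)) : dv D w ∈ Sk k ⊓ O2 (wg p A.q) := by
  have h : ∀ i, ∃ E : Derivation ℂ k k, dv E w ∈ Sk k ⊓ O2 (wg p A.q) ∧
      ∃ a b c : k, c ≠ 0 ∧ dv E p = a • p + b • A.q + c • A.π i := fun i => by
    obtain ⟨c, c0, ⟨L⟩⟩ := four_loc hp A i
    have li := Fintype.linearIndependent_iff.1 A.li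
    have hπ : ∀ a b : k, A.π i ≠ a • p + b • A.q := fun a b e => by
      fin_cases i
      · simpa using li ![a, b, -1, 0, 0, 0]
          (by simpa [Fin.sum_univ_six, ← sub_eq_add_neg, sub_eq_zero] using e.symm) 2
      · simpa using li ![a, b, 0, -1, 0, 0]
          (by simpa [Fin.sum_univ_six, ← sub_eq_add_neg, sub_eq_zero] using e.symm) 3
      · simpa using li ![a, b, 0, 0, -1, 0]
          (by simpa [Fin.sum_univ_six, ← sub_eq_add_neg, sub_eq_zero] using e.symm) 4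
      · simpa using li ![a, b, 0, 0, 0, -1]
          (by simpa [Fin.sum_univ_six, ← sub_eq_add_neg, sub_eq_zero] using e.symm) 5
    obtain ⟨b, hb⟩ : ∃ b, (A.P i).μ b ∉ Submodule.span k {p, A.q} := by
      by_contra hn
      push Not at hn
      have h1 : (A.P i).U ≤ Submodule.span k {p, A.q} :=
        Submodule.span_le.2 (by rintro _ ⟨b, rfl⟩; exact hn b)
      obtain ⟨a, b, e⟩ := Submodule.mem_span_pair.1
        (h1 (show A.π i ∈ _ by rw [A.U]; exact Submodule.subset_span (by simp)))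
      exact hπ a b e.symm
    obtain ⟨E, hE⟩ := hp.ex ((A.P i).μ b)
    have hm : (A.P i).μ b ∈ Submodule.span k {p, A.q, A.π i} := by
      rw [← A.U]; exact Submodule.subset_span ⟨b, rfl⟩
    obtain ⟨a1, a2, a3, e⟩ := Submodule.mem_span_triple.1 hm
    refine ⟨E, ?_, a1, a2, a3, ?_, hE.trans e.symm⟩
    · rw [← four_O2 A i c0] at hw ⊢
      refine L.stable (by rw [four_O2 A i c0]; exact four_dim hp A) hE (fun s t e => hb ?_) hw
      exact Submodule.mem_span_pair.2 ⟨s + t * c * A.u i, t * c, by rw [e]; module⟩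
    · rintro rfl
      exact hb (Submodule.mem_span_pair.2 ⟨a1, a2, by simpa using e⟩)
  choose E h1 h2 using h
  obtain ⟨D0, c, t, ht, hD⟩ := four_split A E h2 D
  rw [hD]
  exact Submodule.add_mem _ ⟨Sk_dv D0 hw.1, O2_dv D0 hw.2 (ht ▸ O2_smul hw.2 t)⟩
    (Submodule.sum_mem _ fun i _ => Submodule.smul_mem _ _ (h1 i))

end PV.O7

namespace PV

variable {Z : Cone ℂ 6} {s : Sect Z 2} {k : Type} [Field k] [IsAlgClosed k] [Algebra ℂ k]
  {p : Fin 6 → k}

theorem osc (hp : GenPt p) (A : Four s p) :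
    ∃ ω : Fin 4 → Matrix (Fin 6) (Fin 6) ℂ, (∀ a, (ω a)ᵀ = -ω a) ∧
      (∀ a, ∀ z ∈ (A.P 0).U, (A.u 0 • p + A.q) ⬝ᵥ (ω a).map (algebraMap ℂ k) *ᵥ z = 0) ∧
      ∀ c : Fin 4 → k, (∀ v, ∀ z ∈ (A.P 0).U,
        v ⬝ᵥ (∑ a, c a • (ω a).map (algebraMap ℂ k)) *ᵥ z = 0) → c = 0 := by
  have : CharZero k := charZero_of_injective_algebraMap (algebraMap ℂ k).injective
  obtain ⟨n, hn, h4⟩ : ∃ n, finrank k (O7.Sk k ⊓ O7.O2 (O7.wg p A.q) : Submodule k _) = n ∧ 4 ≤ n :=
    ⟨_, rfl, O7.four_dim hp A⟩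
  obtain ⟨ι, l, hl, hs⟩ := ech_ex (O7.Sk k ⊓ O7.O2 (O7.wg p A.q)) hn
  have hm : ∀ a, l a ∈ O7.Sk k ⊓ O7.O2 (O7.wg p A.q) := fun a =>
    hs.le (Submodule.subset_span ⟨a, rfl⟩)
  have hc : ∀ a e, ∃ r : ℂ, algebraMap ℂ k r = l a e := fun a e =>
    const_mem fun D => congrFun (hl.dv D (fun b => hs.ge (O7.four_stable hp A D (hm b))) a) e
  choose r hr using hc
  obtain ⟨c, c0, ⟨L⟩⟩ := O7.four_loc hp A 0
  have hmap : ∀ a, (O7.mt (r a)).map (algebraMap ℂ k) = O7.mt (l a) := fun a => by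
    ext i j; exact hr a (i, j)
  refine ⟨fun a => O7.mt (r (Fin.castLE h4 a)), fun a => ?_, fun a z hz => ?_, fun g hg => ?_⟩
  · ext i j
    apply (algebraMap ℂ k).injective
    change algebraMap ℂ k (r _ (j, i)) = algebraMap ℂ k (-r _ (i, j))
    rw [map_neg, hr, hr]
    exact (hm _).1 i j
  · have h1 := hm (Fin.castLE h4 a)
    rw [← O7.four_O2 A 0 c0] at h1
    obtain ⟨h2, h3⟩ := O7.mem_W1.1 (L.iff.1 h1).1
    obtain ⟨d, rfl⟩ := (Submodule.mem_span_range_iff_exists_fun k).1 hz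
    have h5 := (O7.O1_sum h3 d).1
    rw [← O7.wg_sum, O7.dot_wg h2, smul_dotProduct, smul_eq_mul] at h5
    rw [hmap]
    exact (mul_eq_zero.1 ((mul_eq_zero.1 h5).resolve_left two_ne_zero)).resolve_left c0
  · have h1 : ∑ a, g a • l (Fin.castLE h4 a) ∈ O7.Sk k ⊓ O7.O2 (O7.wg p A.q) :=
      Submodule.sum_mem _ fun a _ => Submodule.smul_mem _ _ (hm _)
    have h2 : O7.mt (∑ a, g a • l (Fin.castLE h4 a)) =
        ∑ a, g a • (O7.mt (r (Fin.castLE h4 a))).map (algebraMap ℂ k) := by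
      simp only [hmap, Fin.sum_univ_four]; rfl
    have h3 := L.cap (by rwa [O7.four_O2 A 0 c0]) ⟨h1.1, fun a => O7.eq_zero_of_dot fun v => by
      rw [h2]; exact hg v _ (Submodule.subset_span ⟨a, rfl⟩)⟩
    ext a
    exact Fintype.linearIndependent_iff.1 (hl.li.comp _ (Fin.castLE_injective h4)) g h3 a

end PV
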