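import Pool.Agent.Lib.MP_36fb43_ag.PalC

open MvPolynomial Matrix Module

namespace PV.O7

variable {k : Type} [Field k] [Algebra ℂ k] {μ : Fin 3 → Fin 6 → k} {y : Fin 6 → k}
  {ω : Fin 4 → Matrix (Fin 6) (Fin 6) ℂ} {Z : Cone ℂ 6}

/-- the generic member of the linear system -/
noncomputable def OmX (ω : Fin 4 → Matrix (Fin 6) (Fin 6) ℂ) :
    Matrix (Fin 6) (Fin 6) (MvPolynomial (Fin 4) ℂ) := fun i j => lin fun a => ω a i j

theorem OmX_map (ω : Fin 4 → Matrix (Fin 6) (Fin 6) ℂ) (c : Fin 4 → k) :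
    (OmX ω).map (aeval c : MvPolynomial (Fin 4) ℂ →ₐ[ℂ] k).toRingHom = Om ω c := by
  ext i j
  simp [OmX, aeval_lin, Om_entry, dotProduct, mul_comm]

theorem aeval_pf (ω : Fin 4 → Matrix (Fin 6) (Fin 6) ℂ) (c : Fin 4 → k) :
    aeval c (pf (OmX ω)) = pf (Om ω c) := by
  rw [← OmX_map, ← map_pf]; rfl

theorem det_skew {M : Matrix (Fin 6) (Fin 6) k} (h : Mᵀ = -M) : M.det = pf M ^ 2 := by
  have : CharZero k := charZero_of_injective_algebraMap (algebraMap ℂ k).injective
  have e : ∀ i j, M j i = -M i j := fun i j => congrFun (congrFun h i) j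
  exact det_eq_pf M e fun i => by linear_combination (1 / 2 : k) * e i i

theorem Sys.sub1 (S : Sys μ y ω) (hy : On Z.I y) {x : Fin 6 → ℂ} (hx : On Z.I x) :
    ∃ c : Fin 4 → ℂ, c ≠ 0 ∧ (∑ a, c a • ω a) *ᵥ x = 0 := by
  by_contra h
  push Not at h
  have li : LinearIndependent ℂ fun a => ω a *ᵥ x := by
    refine Fintype.linearIndependent_iff.2 fun g hg i => ?_
    by_contra g0
    refine h g (fun e => g0 (congrFun e i)) ?_
    rw [Matrix.sum_mulVec, ← hg]
    simp [Matrix.smul_mulVec]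
  obtain ⟨B, hB⟩ := left_inv li
  let M : Matrix (Fin 4) (Fin 4) (MvPolynomial (Fin 6) ℂ) := fun b a => lin ((B * ω a) b)
  have hM : M.det ∈ Z.I := by
    refine S.vanish hy (det_hom M fun _ _ => lin_hom _) ?_
    obtain ⟨c, c0, hc⟩ := S.cy
    rw [AlgHom.map_det]
    refine exists_mulVec_eq_zero_iff.1 ⟨c, c0, ?_⟩
    ext b
    have e : ∀ a, (aeval y).mapMatrix M b a =
        (B.map (algebraMap ℂ k) *ᵥ ((ω a).map (algebraMap ℂ k) *ᵥ y)) b := fun a => by
      rw [mulVec_mulVec, ← Matrix.map_mul]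
      exact aeval_lin _ _
    have := congrFun (congrArg (B.map (algebraMap ℂ k) *ᵥ ·) hc) b
    simp only [Om_apply, Matrix.sum_mulVec, mulVec_sum, Matrix.smul_mulVec, mulVec_smul, mulVec_zero,
      Finset.sum_apply, Pi.smul_apply, smul_eq_mul] at this
    rw [← this]
    simp only [mulVec, dotProduct] at e ⊢
    exact Finset.sum_congr rfl fun a _ => by rw [e a, mul_comm]
  have h1 := hx _ hM
  rw [AlgHom.map_det] at h1
  have e : (aeval x).mapMatrix M = 1 := by
    ext b a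
    have := congrFun (hB a) b
    rw [mulVec_mulVec] at this
    change aeval x (lin ((B * ω a) b)) = _
    rw [aeval_lin, one_apply]
    exact this.trans (by simp [Pi.single_apply])
  rw [e, det_one] at h1
  exact one_ne_zero h1

variable [IsAlgClosed k]

theorem Sys.irr (S : Sys μ y ω) : Irreducible (pf (OmX ω)) := by
  have h3 : (pf (OmX ω)).IsHomogeneous 3 := pf_hom _ fun _ _ => lin_hom _
  have nl : ∀ g h : MvPolynomial (Fin 4) ℂ, g.IsHomogeneous 1 → pf (OmX ω) ≠ g * h := by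
    intro g h hg e
    obtain ⟨l, hl⟩ := hom_one (F := k) hg
    refine S.nolin l fun c hc => ?_
    rw [det_skew (S.skm c), ← aeval_pf, e, map_mul, hl, hc]; simp
  have h0 : pf (OmX ω) ≠ 0 := fun e => nl 0 0 (isHomogeneous_zero _ _ _) (by simpa using e)
  refine ⟨fun hu => ?_, fun g h e => ?_⟩
  · have := hu.map (aeval (0 : Fin 4 → k))
    rw [aeval_pf, map_zero] at this
    simp [pf] at this
  · obtain ⟨hg, hh⟩ := homfac (e ▸ h3) (e ▸ h0)
    have hd : g.totalDegree + h.totalDegree = 3 := (hg.mul hh).inj_right (e ▸ h3) (e ▸ h0)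
    have un : ∀ f : MvPolynomial (Fin 4) ℂ, f ≠ 0 → f.totalDegree = 0 → IsUnit f := by
      intro f f0 hf
      rw [totalDegree_eq_zero_iff_eq_C] at hf
      rw [hf] at f0 ⊢
      exact (isUnit_iff_ne_zero.2 fun e => f0 (by rw [e, map_zero])).map C
    by_cases a : g.totalDegree = 0
    · exact Or.inl (un g (left_ne_zero_of_mul (e ▸ h0)) a)
    by_cases b : h.totalDegree = 0
    · exact Or.inr (un h (right_ne_zero_of_mul (e ▸ h0)) b)
    exfalso
    by_cases c : g.totalDegree = 1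
    · exact nl g h (c ▸ hg) e
    · exact nl h g ((show h.totalDegree = 1 by omega) ▸ hh) (by rw [e, mul_comm])

theorem Sys.block (S : Sys μ y ω) (hZ : Z.Nondeg) (hy : On Z.I y) {c : Fin 4 → ℂ} (c0 : c ≠ 0) :
    ∃ (B : Matrix (Fin 4) (Fin 6) ℂ) (E : Matrix (Fin 6) (Fin 4) ℂ),
      B * (∑ a, c a • ω a) * E = 1 := by
  set M := ∑ a, c a • ω a with hM
  have h2 : finrank ℂ (LinearMap.ker M.mulVecLin) ≤ 2 := by
    by_contra h
    obtain ⟨f, hf⟩ := exists_linearIndependent_of_le_finrank (n := 3) (not_le.1 h)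
    have hf1 := hf.map' _ (Submodule.ker_subtype (LinearMap.ker M.mulVecLin))
    have hf2 := (linearIndependent_algebraMap_comp_iff (S := k)).2 hf1
    have := S.rank (c := algebraMap ℂ k ∘ c) (fun e => c0 (S.nd hZ hy e))
      (LinearMap.ker (Om ω (algebraMap ℂ k ∘ c)).mulVecLin) fun v hv => hv
    have h3 := le_finrank hf2 (LinearMap.ker (Om ω (algebraMap ℂ k ∘ c)).mulVecLin) fun a => by
      have h4 : M *ᵥ (f a : Fin 6 → ℂ) = 0 := (f a).2
      change Om ω (algebraMap ℂ k ∘ c) *ᵥ (algebraMap ℂ k ∘ (f a : Fin 6 → ℂ)) = 0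
      rw [Om_alg, ← hM]
      ext i
      rw [← RingHom.map_mulVec, h4]; simp
    omega
  have h4 : 4 ≤ finrank ℂ (LinearMap.range M.mulVecLin) := by
    have := LinearMap.finrank_range_add_finrank_ker M.mulVecLin
    simp only [finrank_fintype_fun_eq_card, Fintype.card_fin] at this
    omega
  obtain ⟨f, hf⟩ := exists_linearIndependent_of_le_finrank h4
  obtain ⟨B, hB⟩ := left_inv (hf.map' _ (Submodule.ker_subtype (LinearMap.range M.mulVecLin)))
  choose e he using fun a => (f a).2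
  refine ⟨B, Matrix.of fun i a => e a i, ?_⟩
  ext b a
  have h5 : M *ᵥ e a = f a := he a
  have := congrFun (hB a) b
  simp only [Function.comp_apply, Submodule.subtype_apply, ← h5, mulVec_mulVec] at this
  rw [one_apply]
  exact this.trans (by simp [Pi.single_apply])

theorem Sys.sub2 (S : Sys μ y ω) (hZ : Z.Nondeg) (hy : On Z.I y) {c : Fin 4 → ℂ} (c0 : c ≠ 0)
    {x : Fin 6 → ℂ} (x0 : x ≠ 0) (hx : (∑ a, c a • ω a) *ᵥ x = 0) : On Z.I x := by
  obtain ⟨B, E, hBE⟩ := S.block hZ hy c0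
  obtain ⟨cy, cy0, hcy⟩ := S.cy
  have h3 : (pf (OmX ω)).IsHomogeneous 3 := pf_hom _ fun _ _ => lin_hom _
  have oc : Om ω c = ∑ a, c a • ω a := by
    ext i j; simp [Om_entry, Matrix.sum_apply]
  have pz : ∀ {F : Type} [Field F] [Algebra ℂ F] (d : Fin 4 → F) (v : Fin 6 → F), v ≠ 0 →
      Om ω d *ᵥ v = 0 → aeval d (pf (OmX ω)) = 0 := by
    intro F _ _ d v v0 hv
    have sk : (Om ω d)ᵀ = -Om ω d := by
      ext i j
      have : ∀ a, ω a j i = -ω a i j := fun a => congrFun (congrFun (S.sk a) i) j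
      simp [Om_entry, this]
    have := exists_mulVec_eq_zero_iff.1 ⟨v, v0, hv⟩
    rw [det_skew sk] at this
    rw [aeval_pf]
    exact pow_eq_zero_iff two_ne_zero |>.1 this
  have spec : ∀ (g : MvPolynomial (Fin 4) ℂ) (d : ℕ), g.IsHomogeneous d → aeval cy g = 0 →
      aeval c g = 0 := by
    intro g d hg h0
    obtain ⟨r, rfl⟩ := ht1h cy (Set.univ : Set (Derivation ℂ k k))
      (fun D _ c => D.map_algebraMap c) (by have := S.three hZ hy cy0 hcy; simp; omega) S.irr h3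
      (pz cy y S.y0 hcy) g hg h0
    rw [map_mul, pz c x x0 (oc ▸ hx), zero_mul]
  let M : Matrix (Fin 4) (Fin 4) (MvPolynomial (Fin 4) ℂ) := fun i j => lin fun a => (B * ω a * E) i j
  let b : Fin 4 → MvPolynomial (Fin 4) ℂ := fun i => lin fun a => ((B * ω a) *ᵥ x) i
  let ξ : Fin 6 → MvPolynomial (Fin 4) ℂ := fun i =>
    C (x i) * M.det - ∑ j, C (E i j) * (M.updateCol j b).det
  have hMd : M.det.IsHomogeneous 4 := det_hom M fun _ _ => lin_hom _
  have hξ : ∀ i, (ξ i).IsHomogeneous 4 := fun i =>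
    (hMd.C_mul _).sub (IsHomogeneous.sum _ _ _ fun j _ => (det_hom _ fun a e => by
      rw [updateCol_apply]
      split_ifs
      exacts [lin_hom _, lin_hom _]).C_mul _)
  have ev : ∀ {F : Type} [Field F] [Algebra ℂ F] (d : Fin 4 → F),
      aeval d M.det = (B.map (algebraMap ℂ F) * Om ω d * E.map (algebraMap ℂ F)).det ∧
      (fun i => aeval d (ξ i)) =
        (B.map (algebraMap ℂ F) * Om ω d * E.map (algebraMap ℂ F)).det • (algebraMap ℂ F ∘ x) -
        E.map (algebraMap ℂ F) *ᵥ cramer (B.map (algebraMap ℂ F) * Om ω d * E.map (algebraMap ℂ F))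
          ((B.map (algebraMap ℂ F) * Om ω d) *ᵥ (algebraMap ℂ F ∘ x)) := by
    intro F _ _ d
    have e1 : M.map (aeval d) = B.map (algebraMap ℂ F) * Om ω d * E.map (algebraMap ℂ F) := by
      ext i j
      rw [Om_apply, Matrix.mul_sum, Matrix.sum_mul, Matrix.sum_apply]
      simp only [Matrix.mul_smul, Matrix.smul_mul, ← Matrix.map_mul]
      refine (aeval_lin _ d).trans ?_
      exact Finset.sum_congr rfl fun a _ => mul_comm _ (d a)
    have e2 : (aeval d) ∘ b = (B.map (algebraMap ℂ F) * Om ω d) *ᵥ (algebraMap ℂ F ∘ x) := by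
      ext i
      rw [Om_apply, Matrix.mul_sum, Matrix.sum_mulVec, Finset.sum_apply]
      simp only [Matrix.mul_smul, Matrix.smul_mulVec, ← Matrix.map_mul, Function.comp_apply, b,
        aeval_lin, Pi.smul_apply, smul_eq_mul, ← RingHom.map_mulVec]
      exact Finset.sum_congr rfl fun a _ => mul_comm _ _
    have e3 : aeval d M.det =
        (B.map (algebraMap ℂ F) * Om ω d * E.map (algebraMap ℂ F)).det := by
      rw [AlgHom.map_det, ← e1]; rfl
    refine ⟨e3, ?_⟩
    ext i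
    simp only [ξ, map_sub, map_mul, map_sum, aeval_C, e3, Pi.sub_apply, Pi.smul_apply, smul_eq_mul,
      Function.comp_apply]
    rw [mul_comm]
    congr 1
    rw [← e2, ← e1, mulVec, dotProduct]
    refine Finset.sum_congr rfl fun j _ => ?_
    rw [cramer_apply, AlgHom.map_det, AlgHom.mapMatrix_apply, map_updateCol]
    rfl
  have ec : B.map (algebraMap ℂ ℂ) * Om ω c * E.map (algebraMap ℂ ℂ) = 1 := by
    rw [oc, ← hBE]; rfl
  have hdet : (B.map (algebraMap ℂ k) * Om ω cy * E.map (algebraMap ℂ k)).det ≠ 0 := by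
    intro e
    have := spec _ _ hMd ((ev cy).1.trans e)
    rw [(ev c).1, ec, det_one] at this
    exact one_ne_zero this
  let K := LinearMap.ker (B.map (algebraMap ℂ k) * Om ω cy).mulVecLin
  have hK : finrank k K ≤ 2 := by
    have h1 := LinearMap.finrank_range_add_finrank_ker (B.map (algebraMap ℂ k) * Om ω cy).mulVecLin
    have h2 : LinearMap.range (B.map (algebraMap ℂ k) * Om ω cy).mulVecLin = ⊤ := by
      refine LinearMap.range_eq_top.2 fun w => ⟨E.map (algebraMap ℂ k) *ᵥ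
        ((B.map (algebraMap ℂ k) * Om ω cy * E.map (algebraMap ℂ k))⁻¹ *ᵥ w), ?_⟩
      rw [mulVecLin_apply, mulVec_mulVec, mulVec_mulVec,
        mul_nonsing_inv _ (isUnit_iff_ne_zero.2 hdet), one_mulVec]
    rw [h2] at h1
    simp only [finrank_top, finrank_fintype_fun_eq_card, Fintype.card_fin] at h1
    change 4 + finrank k K = 6 at h1
    omega
  have hmem : (fun i => aeval cy (ξ i)) ∈ K := by
    rw [(ev cy).2]
    rw [LinearMap.mem_ker, mulVecLin_apply, mulVec_sub, mulVec_smul, mulVec_mulVec, mulVec_cramer, sub_self]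
  have hxc : (fun i => aeval c (ξ i)) = x := by
    rw [(ev c).2, ec, ← mulVec_mulVec, oc]
    change _ • x - _ *ᵥ cramer _ (_ *ᵥ (_ *ᵥ x)) = x
    rw [hx]; simp
  intro f hf
  rw [← sum_homogeneousComponent f, map_sum]
  refine Finset.sum_eq_zero fun d _ => ?_
  have hd := homogeneousComponent_isHomogeneous d f
  have h1 := S.line hy cy0 hcy K hK (fun v hv => by
    rw [LinearMap.mem_ker, mulVecLin_apply, ← mulVec_mulVec, hv, mulVec_zero]) (Z.hom f hf d) hd _ hmem
  have h2 := spec _ _ (hd.aeval ξ hξ) (by rw [← h1, ← AlgHom.comp_apply, comp_aeval])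
  rwa [← AlgHom.comp_apply, comp_aeval, hxc] at h2

theorem Sys.pal (S : Sys μ y ω) (hZ : Z.Nondeg) (hy : On Z.I y) : Palat Z.I := by
  have li : LinearIndependent ℂ ω :=
    Fintype.linearIndependent_iff.2 fun g hg i => congrFun (S.ne hg) i
  refine ⟨Submodule.span ℂ (Set.range ω), fun w hw => ?_, by rw [finrank_span_eq_card li]; simp,
    fun x x0 => ⟨fun hx => ?_, ?_⟩⟩
  · obtain ⟨c, rfl⟩ := (Submodule.mem_span_range_iff_exists_fun ℂ).1 hw
    rw [transpose_sum, ← Finset.sum_neg_distrib]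
    exact Finset.sum_congr rfl fun a _ => by rw [transpose_smul, S.sk, smul_neg]
  · obtain ⟨c, c0, hc⟩ := S.sub1 hy hx
    exact ⟨_, (Submodule.mem_span_range_iff_exists_fun ℂ).2 ⟨c, rfl⟩, fun e => c0 (S.ne e), hc⟩
  · rintro ⟨w, hw, w0, hx⟩
    obtain ⟨c, rfl⟩ := (Submodule.mem_span_range_iff_exists_fun ℂ).1 hw
    exact S.sub2 hZ hy (by rintro rfl; exact w0 (by simp)) x0 hx

end PV.O7

namespace PV

variable {Z : Cone ℂ 6} {s : Sect Z 2} {k : Type} [Field k] [IsAlgClosed k] [Algebra ℂ k]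
  {p : Fin 6 → k}

theorem pal (hZ : Z.Nondeg) (hp : GenPt p) (A : Four s p) (ω : Fin 4 → Matrix (Fin 6) (Fin 6) ℂ)
    (h1 : ∀ a, (ω a)ᵀ = -ω a)
    (h2 : ∀ a, ∀ z ∈ (A.P 0).U, (A.u 0 • p + A.q) ⬝ᵥ (ω a).map (algebraMap ℂ k) *ᵥ z = 0)
    (h3 : ∀ c : Fin 4 → k, (∀ v, ∀ z ∈ (A.P 0).U,
        v ⬝ᵥ (∑ a, c a • (ω a).map (algebraMap ℂ k)) *ᵥ z = 0) → c = 0) : Palat Z.I := by
  have hy : A.u 0 • p + A.q ∈ (A.P 0).U := by
    rw [A.U]
    exact Submodule.add_mem _ (Submodule.smul_mem _ _ (Submodule.subset_span (by simp)))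
      (Submodule.subset_span (by simp))
  have y0 : A.u 0 • p + A.q ≠ 0 := fun e => by
    have := Fintype.linearIndependent_iff.1 A.li ![A.u 0, 1, 0, 0, 0, 0]
      (by simpa [Fin.sum_univ_six] using e) 1
    simp at this
  have ry := ((A.P 0).ech.repr hy).symm
  obtain ⟨a0, ha0⟩ : ∃ a, (A.u 0 • p + A.q) ((A.P 0).ι a) ≠ 0 := by
    by_contra h
    push Not at h
    exact y0 (by rw [← ry]; exact Finset.sum_eq_zero fun a _ => by rw [h, zero_smul])
  obtain ⟨f⟩ := O7.fr_ex hp (A.P 0) hy (A.ey 0) (A.sm 0)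
  exact O7.Sys.pal ⟨f, _, ry, a0, ha0, y0, h1, h2, h3⟩ hZ (A.on 0)

end PV
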