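import Pool.Agent.Lib.MP_36fb43_ag.KB

/-! Parity on a conic of the double surface. -/

open MvPolynomial Matrix Module

namespace PV

namespace Par

section fn
variable {K : Type} [Field K]

/-- polynomial functions of one variable -/
def PF (φ : K → K) : Prop := ∃ p : Polynomial K, ∀ t, φ t = p.eval t

theorem PF.const (c : K) : PF fun _ : K => c := ⟨Polynomial.C c, by simp⟩
theorem PF.id : PF fun t : K => t := ⟨Polynomial.X, by simp⟩
theorem PF.add {φ ψ : K → K} (h : PF φ) (h' : PF ψ) : PF fun t => φ t + ψ t := by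
  obtain ⟨p, hp⟩ := h
  obtain ⟨q, hq⟩ := h'
  exact ⟨p + q, fun t => by simp [hp, hq]⟩
theorem PF.mul {φ ψ : K → K} (h : PF φ) (h' : PF ψ) : PF fun t => φ t * ψ t := by
  obtain ⟨p, hp⟩ := h
  obtain ⟨q, hq⟩ := h'
  exact ⟨p * q, fun t => by simp [hp, hq]⟩
theorem PF.neg {φ : K → K} (h : PF φ) : PF fun t => -φ t := by
  obtain ⟨p, hp⟩ := h
  exact ⟨-p, fun t => by simp [hp]⟩
theorem PF.sub {φ ψ : K → K} (h : PF φ) (h' : PF ψ) : PF fun t => φ t - ψ t := by
  simpa [sub_eq_add_neg] using h.add h'.neg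
theorem PF.pow {φ : K → K} (h : PF φ) (n : ℕ) : PF fun t => φ t ^ n := by
  obtain ⟨p, hp⟩ := h
  exact ⟨p ^ n, fun t => by simp [hp]⟩
theorem PF.sum {ι : Type} [Fintype ι] {φ : ι → K → K} (h : ∀ i, PF (φ i)) :
    PF fun t => ∑ i, φ i t := by
  choose p hp using h
  exact ⟨∑ i, p i, fun t => by simp [hp, Polynomial.eval_finsetSum]⟩
theorem PF.aeval {k σ : Type} [CommRing k] [Algebra k K] {y : K → σ → K}
    (h : ∀ i, PF fun t => y t i) (f : MvPolynomial σ k) : PF fun t => aeval (y t) f := by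
  induction f using MvPolynomial.induction_on with
  | C a => simpa using PF.const _
  | add p q hp hq => simpa using hp.add hq
  | mul_X p i hp => simpa using hp.mul (h i)

/-- two polynomial functions that agree locally up to units are proportional -/
theorem PF.prop [IsAlgClosed K] {φ ψ : K → K} (h : PF φ) (h' : PF ψ) (h0 : ∃ t, ψ t ≠ 0)
    (hl : ∀ t0, ∃ f g : K → K, PF f ∧ PF g ∧ f t0 ≠ 0 ∧ g t0 ≠ 0 ∧ ∀ t, f t * φ t = g t * ψ t) :
    ∃ ρ : K, ρ ≠ 0 ∧ ∀ t, φ t = ρ * ψ t := by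
  classical
  obtain ⟨p, hp⟩ := h
  obtain ⟨q, hq⟩ := h'
  have q0 : q ≠ 0 := by
    rintro rfl
    obtain ⟨t, ht⟩ := h0
    exact ht (by simp [hq])
  obtain ⟨p', hp'⟩ := EuclideanDomain.gcd_dvd_left p q
  obtain ⟨q', hq'⟩ := EuclideanDomain.gcd_dvd_right p q
  set g0 := EuclideanDomain.gcd p q with hg0
  have g00 : g0 ≠ 0 := by
    intro h
    exact q0 (by rw [hq', h, zero_mul])
  have hb : p' * EuclideanDomain.gcdA p q + q' * EuclideanDomain.gcdB p q = 1 := by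
    apply mul_left_cancel₀ g00
    have := EuclideanDomain.gcd_eq_gcd_ab p q
    rw [← hg0] at this
    rw [mul_add, ← mul_assoc, ← mul_assoc, ← hp', ← hq', ← this, mul_one]
  have key : ∀ t0, p'.eval t0 ≠ 0 ∧ q'.eval t0 ≠ 0 := by
    intro t0
    obtain ⟨f, g, ⟨pf, hf⟩, ⟨pg, hg⟩, f0, g0', e⟩ := hl t0
    have e1 : pf * p = pg * q := by
      apply Polynomial.funext
      intro t
      simpa [hf, hg, hp, hq] using e t
    have e2 : pf * p' = pg * q' := by
      apply mul_left_cancel₀ g00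
      rw [mul_left_comm, ← hp', mul_left_comm, ← hq', e1]
    have e3 := congrArg (Polynomial.eval t0) e2
    have e4 := congrArg (Polynomial.eval t0) hb
    simp only [Polynomial.eval_mul, Polynomial.eval_add, Polynomial.eval_one, ← hf, ← hg] at e3 e4
    constructor
    · intro h
      rw [h, mul_zero] at e3
      have := (mul_eq_zero.1 e3.symm).resolve_left g0'
      simp [h, this] at e4
    · intro h
      rw [h, mul_zero] at e3
      have := (mul_eq_zero.1 e3).resolve_left f0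
      simp [h, this] at e4
  have cs : ∀ r : Polynomial K, (∀ t, r.eval t ≠ 0) → ∃ c : K, c ≠ 0 ∧ r = Polynomial.C c := by
    intro r hr
    have : r.degree = 0 := by
      by_contra hd
      obtain ⟨t, ht⟩ := IsAlgClosed.exists_root r hd
      exact hr t ht
    refine ⟨r.coeff 0, ?_, Polynomial.eq_C_of_degree_eq_zero this⟩
    rw [Polynomial.coeff_zero_eq_eval_zero]
    exact hr 0
  obtain ⟨c1, c10, e1⟩ := cs p' fun t => (key t).1
  obtain ⟨c2, c20, e2⟩ := cs q' fun t => (key t).2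
  refine ⟨c1 / c2, div_ne_zero c10 c20, fun t => ?_⟩
  rw [hp, hq, hp', hq', e1, e2]
  simp only [Polynomial.eval_mul, Polynomial.eval_C]
  field_simp

theorem der_aeval {k σ : Type} [CommRing k] [Algebra k K] [Fintype σ] (Y : σ → Polynomial K)
    (f : MvPolynomial σ k) : Polynomial.derivative (aeval Y f) =
      ∑ i, aeval Y (pderiv i f) * Polynomial.derivative (Y i) := by
  classical
  induction f using MvPolynomial.induction_on with
  | C a => simp [Polynomial.algebraMap_apply]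
  | add p q hp hq => simp [hp, hq, add_mul, Finset.sum_add_distrib]
  | mul_X p j hp =>
    have e : ∀ i, aeval Y (pderiv i (p * X j)) * Polynomial.derivative (Y i) =
        aeval Y (pderiv i p) * Polynomial.derivative (Y i) * Y j +
          if i = j then aeval Y p * Polynomial.derivative (Y j) else 0 := by
      intro i
      rw [pderiv_mul, map_add, map_mul, map_mul, aeval_X, pderiv_X]
      by_cases h : i = j
      · subst h
        rw [Pi.single_eq_same, map_one, if_pos rfl]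
        ring
      · rw [Pi.single_eq_of_ne (Ne.symm h), map_zero, if_neg h]
        ring
    rw [Finset.sum_congr rfl fun i _ => e i, Finset.sum_add_distrib, ← Finset.sum_mul, ← hp,
      Finset.sum_ite_eq' Finset.univ j, if_pos (Finset.mem_univ j), map_mul, aeval_X,
      Polynomial.derivative_mul]

/-- the velocity of a parabola on the cone is tangent -/
theorem vel [Infinite K] {k σ : Type} [CommRing k] [Algebra k K] [Fintype σ] (p q r : σ → K)
    (f : MvPolynomial σ k) (h : ∀ s : K, aeval (p + s • q + s ^ 2 • r) f = 0) (s : K) :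
    gr f (p + s • q + s ^ 2 • r) ⬝ᵥ (q + (2 * s) • r) = 0 := by
  obtain ⟨Y, hY⟩ : ∃ Y : σ → Polynomial K, ∀ i, Y i = Polynomial.C (p i) +
      Polynomial.X * Polynomial.C (q i) + Polynomial.X ^ 2 * Polynomial.C (r i) :=
    ⟨_, fun _ => rfl⟩
  have ev : ∀ (s : K) (g : MvPolynomial σ k),
      (aeval Y g).eval s = aeval (p + s • q + s ^ 2 • r) g := by
    intro s g
    induction g using MvPolynomial.induction_on with
    | C a => simp [Polynomial.algebraMap_apply]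
    | add p q hp hq => simp [hp, hq]
    | mul_X g j hg =>
      rw [map_mul, map_mul, Polynomial.eval_mul, hg, aeval_X, aeval_X, hY]
      congr 1
      simp
      ring
  have h0 : aeval Y f = 0 := by
    apply Polynomial.funext
    intro s
    simp [ev, h]
  have h1 := congrArg (Polynomial.eval s) (der_aeval Y f)
  rw [h0] at h1
  simp only [map_zero, Polynomial.eval_zero, Polynomial.eval_finsetSum, Polynomial.eval_mul,
    ev] at h1
  rw [h1]
  refine Finset.sum_congr rfl fun i _ => ?_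
  rw [hY]
  simp only [gr]
  congr 1
  simp
  ring

theorem hom_smul {k σ : Type} [CommRing k] [Algebra k K] {f : MvPolynomial σ k} {d : ℕ}
    (h : f.IsHomogeneous d) (c : K) (x : σ → K) : aeval (c • x) f = c ^ d * aeval x f := by
  rw [aeval_def, aeval_def, eval₂_eq, eval₂_eq, Finset.mul_sum]
  refine Finset.sum_congr rfl fun m hm => ?_
  have hd : ∑ i ∈ m.support, m i = d := by
    have := h (mem_support_iff.1 hm)
    simpa [Finsupp.weight_apply, Finsupp.sum] using this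
  simp only [Pi.smul_apply, smul_eq_mul, mul_pow, Finset.prod_mul_distrib,
    Finset.prod_pow_eq_pow_sum, hd]
  ring

end fn

section main
variable {k : Type} [Field k] [IsAlgClosed k] {Y : Cone k 5} (A : Dbl Y)
  {K : Type} [Field K] [Algebra k K]

/-- the discriminant in the chart `j` -/
noncomputable def dl (j : Fin 5) : MvPolynomial (Fin 5) k := A.be j ^ 2 + 4 * A.al j * X j ^ A.M

theorem locK {y : Fin 5 → K} (hy : On Y.I y) {j : Fin 5} (hj : y j ≠ 0) :
    ∃ a ∈ Y.I, ∃ b ∈ Y.I, ∃ e1 e2 : MvPolynomial (Fin 5) k, aeval y e1 ≠ 0 ∧ aeval y e2 ≠ 0 ∧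
      (∃ i l, gr a y i * gr b y l - gr a y l * gr b y i ≠ 0) ∧
      e1 * A.Fb = e2 * (X j ^ A.M * a ^ 2 + A.be j * a * b - A.al j * b ^ 2) := by
  obtain ⟨x, hx, hx'⟩ := spec_pt (k := k) y (g := X j) (by simpa using hj)
  obtain ⟨a, ha, b, hb, e1, e2, h1, h2, hl, e⟩ := A.loc x j
    (fun f hf => by simpa [aeval_eq_eval] using hx f (hy f hf)) (by simpa using hx')
  refine ⟨a, ha, b, hb, e1, e2, fun h => h1 (hx _ h), fun h => h2 (hx _ h), ?_, e⟩
  by_contra hc
  push Not at hc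
  have hm : ∀ i l, gr a x i * gr b x l - gr a x l * gr b x i = 0 := by
    intro i l
    have := hx (pderiv i a * pderiv l b - pderiv l a * pderiv i b) (by simpa [gr] using hc i l)
    simpa [gr, aeval_eq_eval] using this
  rw [LinearIndependent.pair_iff] at hl
  have a0 : ∀ l, gr a x l = 0 := by
    intro l
    have := (hl (gr b x l) (-gr a x l) (by
      funext i
      simp only [Pi.add_apply, Pi.smul_apply, smul_eq_mul, Pi.zero_apply]
      linear_combination hm i l)).2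
    simpa using this
  have := (hl 1 0 (by funext i; simp [a0])).1
  exact one_ne_zero this

theorem sing {y : Fin 5 → K} (hy : On Y.I y) {j : Fin 5} (hj : y j ≠ 0) :
    aeval y A.Fb = 0 ∧ ∀ i, aeval y (pderiv i A.Fb) = 0 := by
  obtain ⟨a, ha, b, hb, e1, e2, h1, -, -, e⟩ := locK A hy hj
  have a0 := hy a ha
  have b0 := hy b hb
  have f0 : aeval y A.Fb = 0 := by
    have := congrArg (aeval y) e
    simp only [map_mul, map_sub, map_add, map_pow, a0, b0] at this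
    exact (mul_eq_zero.1 (by linear_combination this)).resolve_left h1
  refine ⟨f0, fun i => ?_⟩
  have := congrArg (fun f => aeval y (pderiv i f)) e
  simp only [pow_two, pderiv_mul, map_mul, map_sub, map_add, a0, b0, f0] at this
  exact (mul_eq_zero.1 (by linear_combination this)).resolve_left h1

/-- the Hessian form of `Fb` -/
noncomputable def bb (y u v : Fin 5 → K) : K := ∑ i, ∑ l, u i * v l * hs A.Fb y i l

/-- its Gram determinant -/
noncomputable def gm (y u v : Fin 5 → K) : K :=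
  bb A y u u * bb A y v v - bb A y u v * bb A y v u

theorem gm_eq {y : Fin 5 → K} (hy : On Y.I y) {j' : Fin 5} (hj : y j' ≠ 0) {j : Fin 5}
    {a b e1 e2 : MvPolynomial (Fin 5) k} (ha : a ∈ Y.I) (hb : b ∈ Y.I)
    (e : e1 * A.Fb = e2 * (X j ^ A.M * a ^ 2 + A.be j * a * b - A.al j * b ^ 2))
    (u v : Fin 5 → K) :
    aeval y e1 ^ 2 * gm A y u v = -(aeval y e2 ^ 2 * aeval y (dl A j) *
      ((gr a y ⬝ᵥ u) * (gr b y ⬝ᵥ v) - (gr a y ⬝ᵥ v) * (gr b y ⬝ᵥ u)) ^ 2) := by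
  obtain ⟨f0, f1⟩ := sing A hy hj
  have a0 := hy a ha
  have b0 := hy b hb
  generalize hP : (X j ^ A.M : MvPolynomial (Fin 5) k) = P at e
  have H : ∀ i l, aeval y e1 * hs A.Fb y i l = aeval y e2 *
      (2 * aeval y P * (gr a y i * gr a y l) + aeval y (A.be j) * (gr a y i * gr b y l) +
        aeval y (A.be j) * (gr b y i * gr a y l) -
        2 * aeval y (A.al j) * (gr b y i * gr b y l)) := by
    intro i l
    have := congrArg (fun f => aeval y (pderiv i (pderiv l f))) e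
    simp only [pow_two, pderiv_mul, map_mul, map_sub, map_add, a0, b0, f0, f1] at this
    simp only [hs, gr]
    linear_combination this
  have B : ∀ u v : Fin 5 → K, aeval y e1 * bb A y u v = aeval y e2 *
      (2 * aeval y P * ((gr a y ⬝ᵥ u) * (gr a y ⬝ᵥ v)) +
        aeval y (A.be j) * ((gr a y ⬝ᵥ u) * (gr b y ⬝ᵥ v)) +
        aeval y (A.be j) * ((gr b y ⬝ᵥ u) * (gr a y ⬝ᵥ v)) -
        2 * aeval y (A.al j) * ((gr b y ⬝ᵥ u) * (gr b y ⬝ᵥ v))) := by
    intro u v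
    simp only [bb, dotProduct, Finset.sum_mul_sum]
    simp only [Finset.mul_sum, ← Finset.sum_add_distrib, ← Finset.sum_sub_distrib]
    refine Finset.sum_congr rfl fun i _ => Finset.sum_congr rfl fun l _ => ?_
    linear_combination u i * v l * H i l
  have hd : aeval y (dl A j) = aeval y (A.be j) ^ 2 + 4 * aeval y (A.al j) * aeval y P := by
    rw [dl, hP]
    simp only [map_add, map_mul, map_pow, map_ofNat]
  have e3 : aeval y e1 ^ 2 * gm A y u v = (aeval y e1 * bb A y u u) * (aeval y e1 * bb A y v v) -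
      (aeval y e1 * bb A y u v) * (aeval y e1 * bb A y v u) := by
    rw [gm]
    ring
  rw [e3, B, B, B, B, hd]
  ring

omit [IsAlgClosed k] in
theorem gm_smul (c : K) (y u v : Fin 5 → K) :
    gm A (c • y) u v = c ^ (2 * (A.d - 1 - 1)) * gm A y u v := by
  have : ∀ u v, bb A (c • y) u v = c ^ (A.d - 1 - 1) * bb A y u v := by
    intro u v
    simp only [bb, Finset.mul_sum, hs]
    refine Finset.sum_congr rfl fun i _ => Finset.sum_congr rfl fun l _ => ?_
    rw [hom_smul (A.Fhom.pderiv.pderiv)]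
    ring
  simp only [gm, this]
  ring

omit [IsAlgClosed k] in
theorem dl_hom (j : Fin 5) : (dl A j).IsHomogeneous (2 * A.M + 2) := by
  refine IsHomogeneous.add ?_ ?_
  · have := (A.beh j).pow 2
    rwa [show (A.M + 1) * 2 = 2 * A.M + 2 by ring] at this
  · have h4 : (4 : MvPolynomial (Fin 5) k).IsHomogeneous 0 := by
      have := isHomogeneous_C (Fin 5) (4 : k)
      rwa [map_ofNat] at this
    have := (h4.mul (A.alh j)).mul (isHomogeneous_X_pow j A.M)
    rwa [show 0 + (A.M + 2) + A.M = 2 * A.M + 2 by ring] at this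

/-- the linear relations between the values of a conormal vector along the conic -/
def Rl (I : Ideal (MvPolynomial (Fin 5) k)) (y0 y1 y2 m0 m1 : Fin 5 → K) : Prop :=
  ∀ t : K, On I (y0 + t • y1 + t ^ 2 • y2) ∧ ∃ lam : K, ∀ f ∈ I, ∀ α,
    α = gr f (y0 + t • y1 + t ^ 2 • y2) → α ⬝ᵥ y0 = t ^ 2 * (α ⬝ᵥ y2) ∧
      α ⬝ᵥ y1 = -(2 * t) * (α ⬝ᵥ y2) ∧ α ⬝ᵥ m0 = -t * (α ⬝ᵥ m1) + lam * (α ⬝ᵥ y2)

omit [IsAlgClosed k] in
theorem rl_of [CharZero K] {I : Ideal (MvPolynomial (Fin 5) k)} {y0 y1 y2 m0 m1 : Fin 5 → K}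
    (on : ∀ t w : K, On I (w ^ 2 • y0 + (w * t) • y1 + t ^ 2 • y2))
    (ta : ∀ t : K, ∃ c0 c1 c2 : K, Tg I (y0 + t • y1 + t ^ 2 • y2)
      (m0 + t • m1 + (c0 • y0 + c1 • y1 + c2 • y2))) : Rl I y0 y1 y2 m0 m1 := by
  intro t
  have o1 : ∀ s : K, On I (y0 + s • y1 + s ^ 2 • y2) := fun s => by simpa using on s 1
  obtain ⟨c0, c1, c2, hc⟩ := ta t
  refine ⟨o1 t, -(c0 * t ^ 2 - 2 * t * c1 + c2), fun f hf α hα => ?_⟩
  have v1 := vel y0 y1 y2 f (fun s => o1 s f hf) t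
  have v2 := vel (t ^ 2 • y2) (t • y1) y0 f (fun s => by
    have := on t s f hf
    rwa [show t ^ 2 • y2 + s • t • y1 + s ^ 2 • y0 = s ^ 2 • y0 + (s * t) • y1 + t ^ 2 • y2 by
      module]) 1
  have e : t ^ 2 • y2 + (1 : K) • t • y1 + (1 : K) ^ 2 • y0 = y0 + t • y1 + t ^ 2 • y2 := by
    module
  rw [e] at v2
  have v3 := hc f hf
  rw [← hα] at v1 v2 v3
  simp only [dotProduct_add, dotProduct_smul, smul_eq_mul] at v1 v2 v3
  have h0 : α ⬝ᵥ y0 = t ^ 2 * (α ⬝ᵥ y2) := by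
    have : (2 : K) * (α ⬝ᵥ y0 - t ^ 2 * (α ⬝ᵥ y2)) = 0 := by linear_combination v2 - t * v1
    exact sub_eq_zero.1 ((mul_eq_zero.1 this).resolve_left two_ne_zero)
  refine ⟨h0, by linear_combination v1, ?_⟩
  linear_combination v3 - c0 * h0 - c1 * v1

omit [IsAlgClosed k] in
theorem pf_y (y0 y1 y2 : Fin 5 → K) (i : Fin 5) :
    PF fun t : K => (y0 + t • y1 + t ^ 2 • y2) i :=
  ((PF.const _).add (PF.id.mul (PF.const _))).add ((PF.id.pow 2).mul (PF.const _))

omit [IsAlgClosed k] in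
theorem pf_gr (y0 y1 y2 u : Fin 5 → K) (f : MvPolynomial (Fin 5) k) :
    PF fun t : K => gr f (y0 + t • y1 + t ^ 2 • y2) ⬝ᵥ u :=
  PF.sum fun _ => (PF.aeval (pf_y y0 y1 y2) _).mul (PF.const _)

omit [IsAlgClosed k] in
theorem pf_gm (y0 y1 y2 u v : Fin 5 → K) :
    PF fun t : K => gm A (y0 + t • y1 + t ^ 2 • y2) u v := by
  have : ∀ u v, PF fun t : K => bb A (y0 + t • y1 + t ^ 2 • y2) u v := fun u v =>
    PF.sum fun _ => PF.sum fun _ => (PF.const _).mul (PF.aeval (pf_y y0 y1 y2) _)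
  exact ((this u u).mul (this v v)).sub ((this u v).mul (this v u))

theorem chart [IsAlgClosed K] {y0 y1 y2 m0 m1 : Fin 5 → K} (hr : Rl Y.I y0 y1 y2 m0 m1)
    (ne : ∀ t : K, y0 + t • y1 + t ^ 2 • y2 ≠ 0)
    (sp : ∀ α : Fin 5 → K, α ⬝ᵥ y0 = 0 → α ⬝ᵥ y1 = 0 → α ⬝ᵥ y2 = 0 → α ⬝ᵥ m0 = 0 →
      α ⬝ᵥ m1 = 0 → α = 0) {j0 : Fin 5}
    (h0 : ∃ t : K, aeval (y0 + t • y1 + t ^ 2 • y2) (dl A j0) ≠ 0) :
    ∃ ρ : K, ρ ≠ 0 ∧ ∀ t : K, (y0 + t • y1 + t ^ 2 • y2) j0 ^ (2 * A.M) *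
      gm A (y0 + t • y1 + t ^ 2 • y2) y2 m1 = ρ * aeval (y0 + t • y1 + t ^ 2 • y2) (dl A j0) := by
  refine PF.prop (((pf_y y0 y1 y2 j0).pow _).mul (pf_gm A y0 y1 y2 y2 m1))
    (PF.aeval (pf_y y0 y1 y2) _) h0 fun t0 => ?_
  obtain ⟨j, hj⟩ := Function.ne_iff.1 (ne t0)
  have hj : (y0 + t0 • y1 + t0 ^ 2 • y2) j ≠ 0 := hj
  obtain ⟨a, ha, b, hb, e1, e2, h1, h2, ⟨i, l, hil⟩, e⟩ := locK A (hr t0).1 hj
  refine ⟨fun t => aeval (y0 + t • y1 + t ^ 2 • y2) e1 ^ 2,
    fun t => -(aeval (y0 + t • y1 + t ^ 2 • y2) e2 ^ 2 *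
      (y0 + t • y1 + t ^ 2 • y2) j ^ (2 * A.M) *
      ((gr a (y0 + t • y1 + t ^ 2 • y2) ⬝ᵥ y2) * (gr b (y0 + t • y1 + t ^ 2 • y2) ⬝ᵥ m1) -
        (gr a (y0 + t • y1 + t ^ 2 • y2) ⬝ᵥ m1) * (gr b (y0 + t • y1 + t ^ 2 • y2) ⬝ᵥ y2)) ^ 2),
    (PF.aeval (pf_y y0 y1 y2) _).pow 2,
    ((((PF.aeval (pf_y y0 y1 y2) _).pow 2).mul ((pf_y y0 y1 y2 j).pow _)).mul
      ((((pf_gr y0 y1 y2 _ _).mul (pf_gr y0 y1 y2 _ _)).sub
        ((pf_gr y0 y1 y2 _ _).mul (pf_gr y0 y1 y2 _ _))).pow 2)).neg,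
    pow_ne_zero _ h1, ?_, fun t => ?_⟩
  · refine neg_ne_zero.2 (mul_ne_zero (mul_ne_zero (pow_ne_zero _ h2) (pow_ne_zero _ hj))
      (pow_ne_zero _ fun hW => hil ?_))
    obtain ⟨lam, hl⟩ := (hr t0).2
    obtain ⟨a0, a1, a2⟩ := hl a ha _ rfl
    obtain ⟨b0, b1, b2⟩ := hl b hb _ rfl
    generalize gr a (y0 + t0 • y1 + t0 ^ 2 • y2) = α at *
    generalize gr b (y0 + t0 • y1 + t0 ^ 2 • y2) = β at *
    have k1 : ∀ s r : K, s * (α ⬝ᵥ y2) + r * (β ⬝ᵥ y2) = 0 → s * (α ⬝ᵥ m1) + r * (β ⬝ᵥ m1) = 0 →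
        s * (α i * β l - α l * β i) = 0 ∧ r * (α i * β l - α l * β i) = 0 := by
      intro s r p1 p2
      have := sp (s • α + r • β) ?_ ?_ ?_ ?_ ?_
      · have qi := congrFun this i
        have ql := congrFun this l
        simp only [Pi.add_apply, Pi.smul_apply, smul_eq_mul, Pi.zero_apply] at qi ql
        exact ⟨by linear_combination β l * qi - β i * ql,
          by linear_combination α i * ql - α l * qi⟩
      all_goals simp only [add_dotProduct, smul_dotProduct, smul_eq_mul]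
      · linear_combination s * a0 + r * b0 + t0 ^ 2 * p1
      · linear_combination s * a1 + r * b1 - 2 * t0 * p1
      · exact p1
      · linear_combination s * a2 + r * b2 - t0 * p2 + lam * p1
      · exact p2
    by_contra hm
    have n1 := k1 (β ⬝ᵥ y2) (-(α ⬝ᵥ y2)) (by ring) (by linear_combination -hW)
    have n2 := k1 (β ⬝ᵥ m1) (-(α ⬝ᵥ m1)) (by linear_combination hW) (by ring)
    have z1 := (mul_eq_zero.1 n1.2).resolve_right hm
    have z2 := (mul_eq_zero.1 n2.2).resolve_right hm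
    have n3 := k1 1 0 (by linear_combination -z1) (by linear_combination -z2)
    exact hm (by linear_combination n3.1)
  · obtain ⟨j', hj'⟩ := Function.ne_iff.1 (ne t)
    have g1 := gm_eq A (hr t).1 hj' ha hb e y2 m1
    have g2 := (hr t).1 _ (A.cmp j0 j)
    rw [← dl, ← dl] at g2
    simp only [map_sub, map_mul, map_pow, aeval_X] at g2
    beta_reduce
    generalize y0 + t • y1 + t ^ 2 • y2 = y at *
    linear_combination y j0 ^ (2 * A.M) * g1 - aeval y e2 ^ 2 *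
      ((gr a y ⬝ᵥ y2) * (gr b y ⬝ᵥ m1) - (gr a y ⬝ᵥ m1) * (gr b y ⬝ᵥ y2)) ^ 2 * g2

theorem gm_swap {y0 y1 y2 m0 m1 : Fin 5 → K} (hr : Rl Y.I y0 y1 y2 m0 m1) (t : K)
    (ne : y0 + t • y1 + t ^ 2 • y2 ≠ 0) :
    gm A (y0 + t • y1 + t ^ 2 • y2) y0 m0 = t ^ 6 * gm A (y0 + t • y1 + t ^ 2 • y2) y2 m1 := by
  obtain ⟨j, hj⟩ := Function.ne_iff.1 ne
  have hj : (y0 + t • y1 + t ^ 2 • y2) j ≠ 0 := hj
  obtain ⟨a, ha, b, hb, e1, e2, h1, -, -, e⟩ := locK A (hr t).1 hj
  have g1 := gm_eq A (hr t).1 hj ha hb e y2 m1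
  have g2 := gm_eq A (hr t).1 hj ha hb e y0 m0
  obtain ⟨lam, hl⟩ := (hr t).2
  obtain ⟨a0, -, a2⟩ := hl a ha _ rfl
  obtain ⟨b0, -, b2⟩ := hl b hb _ rfl
  rw [a0, a2, b0, b2] at g2
  apply mul_left_cancel₀ (pow_ne_zero 2 h1)
  linear_combination g2 - t ^ 6 * g1

end main

end Par

open Par in
theorem parity {k : Type} [Field k] [CharZero k] [IsAlgClosed k] {Y : Cone k 5} (A : Dbl Y)
    {K : Type} [Field K] [IsAlgClosed K] [Algebra k K] (c : Conic Y K) : False := by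
  have : CharZero K := charZero_of_injective_algebraMap (algebraMap k K).injective
  have ms : ∀ v ∈ Submodule.span K (Set.range c.y), ∃ c0 c1 c2 : K,
      v = c0 • c.y 0 + c1 • c.y 1 + c2 • c.y 2 := by
    intro v hv
    obtain ⟨w, hw⟩ := (Submodule.mem_span_range_iff_exists_fun K).1 hv
    exact ⟨w 0, w 1, w 2, by rw [← hw, Fin.sum_univ_three]⟩
  have r1 : Rl Y.I (c.y 0) (c.y 1) (c.y 2) (c.m 0) (c.m 1) := by
    refine rl_of c.on fun t => ?_
    obtain ⟨c0, c1, c2, hc⟩ := ms _ (add_mem (add_mem c.a0 (Submodule.smul_mem _ t c.a1))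
      (Submodule.smul_mem _ (t ^ 2) c.a2))
    refine ⟨c0, c1, c2, ?_⟩
    have := c.ta t 1
    rw [← hc]
    convert this using 1 <;> module
  have r2 : Rl Y.I (c.y 2) (c.y 1) (c.y 0) (c.m 1) (c.m 0) := by
    refine rl_of (fun t w => ?_) fun t => ?_
    · have := c.on w t
      convert this using 1
      module
    obtain ⟨c0, c1, c2, hc⟩ := ms _ (add_mem (add_mem c.b2 (Submodule.smul_mem _ t c.b1))
      (Submodule.smul_mem _ (t ^ 2) c.b0))
    refine ⟨c2, c1, c0, ?_⟩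
    have := c.tb 1 t
    rw [show c2 • c.y 2 + c1 • c.y 1 + c0 • c.y 0 = c0 • c.y 0 + c1 • c.y 1 + c2 • c.y 2 by module,
      ← hc]
    convert this using 1 <;> module
  have li := Fintype.linearIndependent_iff.1 c.li
  have ne : ∀ s t r : K, s • c.y 0 + t • c.y 1 + r • c.y 2 = 0 → s = 0 ∧ r = 0 := by
    intro s t r h
    have := li ![s, t, r, 0, 0] (by simpa [Fin.sum_univ_five] using h)
    exact ⟨this 0, this 2⟩
  have sp : ∀ α : Fin 5 → K, α ⬝ᵥ c.y 0 = 0 → α ⬝ᵥ c.y 1 = 0 → α ⬝ᵥ c.y 2 = 0 →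
      α ⬝ᵥ c.m 0 = 0 → α ⬝ᵥ c.m 1 = 0 → α = 0 := by
    intro α h0 h1 h2 h3 h4
    have ht := c.li.span_eq_top_of_card_eq_finrank' (by simp)
    have : ∀ v, α ⬝ᵥ v = 0 := by
      intro v
      obtain ⟨w, hw⟩ := (Submodule.mem_span_range_iff_exists_fun K).1
        (ht ▸ Submodule.mem_top (x := v))
      rw [← hw]
      simp [Fin.sum_univ_five, h0, h1, h2, h3, h4]
    funext i
    simpa using this (Pi.single i 1)
  have n1 : ∀ t : K, c.y 0 + t • c.y 1 + t ^ 2 • c.y 2 ≠ 0 := fun t h =>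
    one_ne_zero (ne 1 t (t ^ 2) (by simpa using h)).1
  have n2 : ∀ t : K, c.y 2 + t • c.y 1 + t ^ 2 • c.y 0 ≠ 0 := fun t h =>
    one_ne_zero (ne (t ^ 2) t 1 (by rw [← h]; module)).2
  obtain ⟨j, hj⟩ := Y.ne
  have sw : ∀ t : K, t ≠ 0 → c.y 2 + t⁻¹ • c.y 1 + t⁻¹ ^ 2 • c.y 0 =
      (t⁻¹ ^ 2) • (c.y 0 + t • c.y 1 + t ^ 2 • c.y 2) := by
    intro t ht
    match_scalars <;> field_simp
  obtain ⟨p, hp⟩ := PF.aeval (pf_y (c.y 0) (c.y 1) (c.y 2)) (dl A j)
  have p0 : p ≠ 0 := by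
    rintro rfl
    exact A.dne j hj (c.gen _ _ (dl_hom A j) fun t => (hp t).trans Polynomial.eval_zero)
  obtain ⟨t1, ht1⟩ : ∃ t : K, (Polynomial.X * p).eval t ≠ 0 := by
    by_contra h
    push Not at h
    exact mul_ne_zero Polynomial.X_ne_zero p0 (Polynomial.funext (by simpa using h))
  rw [Polynomial.eval_mul, Polynomial.eval_X, ← hp] at ht1
  obtain ⟨ρ, ρ0, hρ⟩ := chart A r1 n1 sp ⟨t1, right_ne_zero_of_mul ht1⟩
  obtain ⟨ρ', ρ0', hρ'⟩ := chart A r2 n2 (fun α h0 h1 h2 h3 h4 => sp α h2 h1 h0 h4 h3) (j0 := j)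
    ⟨t1⁻¹, by
      rw [sw t1 (left_ne_zero_of_mul ht1), hom_smul (dl_hom A j)]
      exact mul_ne_zero (pow_ne_zero _ (pow_ne_zero _ (inv_ne_zero (left_ne_zero_of_mul ht1))))
        (right_ne_zero_of_mul ht1)⟩
  set e := A.d - 1 - 1 with he
  have key : Polynomial.X * p * (Polynomial.C ρ * Polynomial.X ^ 10 -
      Polynomial.C ρ' * Polynomial.X ^ (4 * e)) = 0 := by
    apply Polynomial.funext
    intro t
    simp only [Polynomial.eval_mul, Polynomial.eval_sub, Polynomial.eval_X, Polynomial.eval_C,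
      Polynomial.eval_pow, Polynomial.eval_zero, ← hp]
    by_cases ht : t = 0
    · simp [ht]
    have q1 := hρ t
    have q2 := hρ' t⁻¹
    rw [sw t ht, hom_smul (dl_hom A j), gm_smul, gm_swap A r1 t (n1 t), ← he, Pi.smul_apply,
      smul_eq_mul, mul_pow] at q2
    generalize gm A (c.y 0 + t • c.y 1 + t ^ 2 • c.y 2) (c.y 2) (c.m 1) = G at *
    generalize aeval (c.y 0 + t • c.y 1 + t ^ 2 • c.y 2) (dl A j) = D at *
    generalize (c.y 0 + t • c.y 1 + t ^ 2 • c.y 2) j ^ (2 * A.M) = Z at *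
    have i1 : (t⁻¹ ^ 2) ^ (2 * A.M) ≠ 0 := pow_ne_zero _ (pow_ne_zero _ (inv_ne_zero ht))
    have q3 : Z * ((t⁻¹ ^ 2) ^ (2 * e) * (t ^ 6 * G)) = ρ' * ((t⁻¹ ^ 2) ^ 2 * D) := by
      apply mul_left_cancel₀ i1
      rw [pow_add] at q2
      linear_combination q2
    have i2 : (t⁻¹ ^ 2) ^ (2 * e) * t ^ (4 * e) = 1 := by
      rw [← pow_mul, show 2 * (2 * e) = 4 * e by ring, ← mul_pow, inv_mul_cancel₀ ht, one_pow]
    have i3 : (t⁻¹ ^ 2) ^ 2 * t ^ 4 = 1 := by field_simp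
    linear_combination t * (t ^ (4 * e) * t ^ 4 * q3 - t ^ 10 * q1 - Z * G * t ^ 10 * i2 +
      ρ' * D * t ^ (4 * e) * i3)
  have k2 := (mul_eq_zero.1 key).resolve_left (mul_ne_zero Polynomial.X_ne_zero p0)
  have k3 := congrArg Polynomial.natDegree (sub_eq_zero.1 k2)
  rw [Polynomial.natDegree_C_mul_X_pow _ _ ρ0, Polynomial.natDegree_C_mul_X_pow _ _ ρ0'] at k3
  omega

end PV
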