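import Pool.Agent.Lib.MP_36fb43_ag.SevC

/-! The conics on a surface with a section that is not linear (A6, first half). -/

open MvPolynomial Matrix Module

namespace PV

section
variable {k : Type} [Field k] [CharZero k] {Y : Cone k 5} {b : Sect Y 1} {Ω : Type} [Field Ω]
  [Algebra k Ω]

theorem sev_on {y v u : Fin 5 → Ω} {E : Derivation k Ω Ω} (hy : dv E y = 0) (hv : dv E v = 0)
    (hu : dv E u = 0) {τ : Ω} (hτ : E τ ≠ 0) (h : On Y.I (y + τ • v + τ ^ 2 • u)) (t w : Ω) :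
    On Y.I (w ^ 2 • y + (w * t) • v + t ^ 2 • u) := by
  have h1 : ∀ t : Ω, On Y.I (y + t • v + t ^ 2 • u) := fun t f hf => by
    rw [← sevCv_eval, sev_poly E hτ _ (aeval (sevCv y v u) f) le_rfl ?_ (by
      rw [sevCv_eval]; exact h f hf), Polynomial.eval_zero]
    rw [gp_chain]
    refine Finset.sum_eq_zero fun i _ => mul_eq_zero_of_right _ ?_
    have e1 : E (y i) = 0 := congrFun hy i
    have e2 : E (v i) = 0 := congrFun hv i
    have e3 : E (u i) = 0 := congrFun hu i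
    simp [sevCv, pD_C, pD_X, e1, e2, e3]
  have h2 : ∀ w : Ω, w ≠ 0 → On Y.I (t ^ 2 • u + w • t • v + w ^ 2 • y) := fun w hw => by
    convert on_smul Y (h1 (t / w)) (w ^ 2) using 1
    match_scalars <;> field_simp
  intro f hf
  have h3 := congrArg (Polynomial.eval w) (sevCv_zero fun s hs => h2 s hs f hf)
  rw [sevCv_eval, Polynomial.eval_zero] at h3
  rw [← h3]
  congr 2
  module

theorem sev_ta {y v u : Fin 5 → Ω} (h : ∀ t w : Ω, On Y.I (w ^ 2 • y + (w * t) • v + t ^ 2 • u))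
    (D : Derivation k Ω Ω) (t w : Ω) : Tg Y.I (w ^ 2 • y + (w * t) • v + t ^ 2 • u)
      (w ^ 2 • dv D y + (w * t) • dv D v + t ^ 2 • dv D u) := fun f hf => by
  have h1 := tg_dv (h t w) D D.map_algebraMap f hf
  have h2 := sev_tan (Y := Y) (y := w ^ 2 • y + (w * t) • v + t ^ 2 • u)
    (v := (2 * w * D w) • y + (w * D t + t * D w) • v + (2 * t * D t) • u)
    (u := D w ^ 2 • y + (D w * D t) • v + D t ^ 2 • u) (fun s => by
      convert h (t + s * D t) (w + s * D w) using 1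
      module) f hf
  have e : dv D (w ^ 2 • y + (w * t) • v + t ^ 2 • u) =
      (w ^ 2 • dv D y + (w * t) • dv D v + t ^ 2 • dv D u) +
      ((2 * w * D w) • y + (w * D t + t * D w) • v + (2 * t * D t) • u) := by
    simp only [dv_add, dv_smul, D.leibniz, D.leibniz_pow, smul_eq_mul, nsmul_eq_mul]
    module
  rwa [e, dotProduct_add, h2, add_zero] at h1

namespace Two.Fr

variable {W : Two b Ω} (A : W.Fr)

theorem rk2 : finrank Ω (dsp (Set.univ : Set (Derivation k Ω Ω)) A.η) = 2 := by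
  obtain ⟨E, e1, e2⟩ := W.ex _ A.tT
  obtain ⟨E', g1, g2⟩ := W.ex' _ A.tT'
  have hl : LinearIndependent Ω ![dv E A.η, dv E' A.η] := LinearIndependent.pair_iff.2
    fun s s' h => by
      have h1 := congrArg (· ⬝ᵥ A.t) h
      have h2 := congrArg (· ⬝ᵥ A.t') h
      simp only [add_dotProduct, smul_dotProduct, A.kil g2 A.tT, A.kil' e2 A.tT', smul_eq_mul,
        mul_zero, add_zero, zero_add, zero_dotProduct] at h1 h2
      exact ⟨(mul_eq_zero.1 h1).resolve_right (A.xi e1 e2),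
        (mul_eq_zero.1 h2).resolve_right (A.swap.xi g1 g2)⟩
  have : dsp (Set.univ : Set (Derivation k Ω Ω)) A.η =
      Submodule.span Ω (Set.range ![dv E A.η, dv E' A.η]) := by
    refine le_antisymm (Submodule.span_le.2 ?_) (Submodule.span_le.2 ?_)
    · rintro _ ⟨D, -, rfl⟩
      obtain ⟨s, s', h⟩ := A.two e1 e2 g1 g2 D
      exact (Submodule.mem_span_range_iff_exists_fun Ω).2 ⟨![s, s'], by simp [h]⟩
    · rintro _ ⟨a, rfl⟩
      fin_cases a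
      exacts [Submodule.subset_span ⟨E, trivial, rfl⟩, Submodule.subset_span ⟨E', trivial, rfl⟩]
  rw [this, finrank_span_eq_card hl, Fintype.card_fin]

theorem fo : ∃ (D0 D1 : Derivation k Ω Ω) (n0 n1 S0 S1 S2 : Fin 5 → Ω),
    (∀ E : Derivation k Ω Ω, dv E A.η = 0 → (Matrix.of ![n0, n1, S0, S1, S2]).map E = 0) ∧
    n0 = dv D0 A.η ∧ n1 = dv D1 A.η ∧ dv D0 n0 = -S0 ∧ dv D1 n0 = -S1 ∧ dv D0 n1 = -S1 ∧
    dv D1 n1 = -S2 ∧ ∀ E : Derivation k Ω Ω, ∃ c0 c1 : Ω, dv (E - c0 • D0 - c1 • D1) A.η = 0 := by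
  obtain ⟨y, D, h1, h2, h3, h4⟩ := fol A.η A.rk2
  have hη : ∀ i, A.η i ∈ cst {E : Derivation k Ω Ω | dv E A.η = 0} := fun i E hE => congrFun hE i
  refine ⟨D 0, D 1, dv (D 0) A.η, dv (D 1) A.η, -dv (D 0) (dv (D 0) A.η),
    -dv (D 1) (dv (D 0) A.η), -dv (D 1) (dv (D 1) A.η), fun E hE => ?_, rfl, rfl,
    (neg_neg _).symm, (neg_neg _).symm, ?_, (neg_neg _).symm, fun E => ?_⟩
  · ext i j
    have a1 := fun a => h3 a _ (hη j) E hE
    have a2 := fun a a' => h3 a' _ (h3 a _ (hη j)) E hE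
    fin_cases i <;> simp [a1, a2]
  · ext j
    simp [h4 0 1 _ (hη j)]
  · refine ⟨E (A.η (y 0)), E (A.η (y 1)), h2 _ fun a => ?_⟩
    fin_cases a <;> simp [h1]

include A in
theorem conic : Nonempty (Conic Y Ω) := by
  obtain ⟨D0, D1, n0, n1, S0, S1, S2, hc, rfl, rfl, d00, d10, d01, d11, dec⟩ := A.fo
  set n0 := dv D0 A.η with hn0
  set n1 := dv D1 A.η with hn1
  set M := Matrix.of ![n0, n1, S0, S1, S2] with hM
  have r0 : ∀ v, (M *ᵥ v) 0 = n0 ⬝ᵥ v := fun _ => rfl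
  have r1 : ∀ v, (M *ᵥ v) 1 = n1 ⬝ᵥ v := fun _ => rfl
  have r2 : ∀ v, (M *ᵥ v) 2 = S0 ⬝ᵥ v := fun _ => rfl
  have r3 : ∀ v, (M *ᵥ v) 3 = S1 ⬝ᵥ v := fun _ => rfl
  have r4 : ∀ v, (M *ᵥ v) 4 = S2 ⬝ᵥ v := fun _ => rfl
  have dec' : ∀ E : Derivation k Ω Ω, ∃ c0 c1 : Ω, dv E A.η = c0 • n0 + c1 • n1 ∧
      dv E n0 = -(c0 • S0 + c1 • S1) ∧ dv E n1 = -(c0 • S1 + c1 • S2) := fun E => by
    obtain ⟨c0, c1, h⟩ := dec E
    have a0 : dv (E - c0 • D0 - c1 • D1) n0 = 0 := funext fun j => congrFun (congrFun (hc _ h) 0) j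
    have a1 : dv (E - c0 • D0 - c1 • D1) n1 = 0 := funext fun j => congrFun (congrFun (hc _ h) 1) j
    simp only [dvD_sub, dvD_smul, d00, d10, d01, d11] at h a0 a1
    refine ⟨c0, c1, ?_, ?_, ?_⟩
    · linear_combination (exp := 1) h
    · linear_combination (norm := module) a0
    · linear_combination (norm := module) a1
  have hin : ∀ v, n0 ⬝ᵥ v = 0 → n1 ⬝ᵥ v = 0 → A.In v := fun v a0 a1 E => by
    obtain ⟨c0, c1, h, -⟩ := dec' E
    rw [h, add_dotProduct, smul_dotProduct, smul_dotProduct, a0, a1]; simp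
  have hd : ∀ (n S v : Fin 5 → Ω) (E : Derivation k Ω Ω), n ⬝ᵥ v = 0 → dv E n = -S →
      n ⬝ᵥ dv E v = S ⬝ᵥ v := fun n S v E a0 a1 => by
    have := congrArg E a0
    rw [D_dot, a1, neg_dotProduct, map_zero] at this
    linear_combination this
  have hinj : ∀ v, M *ᵥ v = 0 → v = 0 := fun v hv => by
    have a0 : n0 ⬝ᵥ v = 0 := congrFun hv 0
    have a1 : n1 ⬝ᵥ v = 0 := congrFun hv 1
    have a2 : S0 ⬝ᵥ v = 0 := congrFun hv 2
    have a3 : S1 ⬝ᵥ v = 0 := congrFun hv 3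
    have a4 : S2 ⬝ᵥ v = 0 := congrFun hv 4
    refine A.inj (hin v a0 a1) fun E => ?_
    obtain ⟨c0, c1, -, h0, h1⟩ := dec' E
    refine hin _ ?_ ?_
    · rw [hd _ _ _ _ a0 h0]; simp [a2, a3]
    · rw [hd _ _ _ _ a1 h1]; simp [a3, a4]
  have hsurj : Function.Surjective M.mulVecLin :=
    LinearMap.injective_iff_surjective.1 ((injective_iff_map_eq_zero _).2 hinj)
  choose z hz using fun i : Fin 5 => hsurj (Pi.single i 1)
  replace hz : ∀ i, M *ᵥ z i = Pi.single i 1 := hz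
  have n0z : ∀ i, n0 ⬝ᵥ z i = (Pi.single i 1 : Fin 5 → Ω) 0 := fun i => congrFun (hz i) 0
  have n1z : ∀ i, n1 ⬝ᵥ z i = (Pi.single i 1 : Fin 5 → Ω) 1 := fun i => congrFun (hz i) 1
  have S0z : ∀ i, S0 ⬝ᵥ z i = (Pi.single i 1 : Fin 5 → Ω) 2 := fun i => congrFun (hz i) 2
  have S1z : ∀ i, S1 ⬝ᵥ z i = (Pi.single i 1 : Fin 5 → Ω) 3 := fun i => congrFun (hz i) 3
  have S2z : ∀ i, S2 ⬝ᵥ z i = (Pi.single i 1 : Fin 5 → Ω) 4 := fun i => congrFun (hz i) 4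
  have hrep : ∀ v, n0 ⬝ᵥ v = 0 → n1 ⬝ᵥ v = 0 →
      v = (S0 ⬝ᵥ v) • z 2 + (S1 ⬝ᵥ v) • z 3 + (S2 ⬝ᵥ v) • z 4 := fun v a0 a1 => by
    refine sub_eq_zero.1 (hinj _ ?_)
    rw [mulVec_sub, mulVec_add, mulVec_add, mulVec_smul, mulVec_smul, mulVec_smul, hz, hz, hz]
    ext i
    fin_cases i <;> simp [r0, r1, r2, r3, r4, a0, a1]
  have hsp : ∀ v, n0 ⬝ᵥ v = 0 → n1 ⬝ᵥ v = 0 → v ∈ Submodule.span Ω (Set.range ![z 2, z 3, z 4]) :=
    fun v a0 a1 => (Submodule.mem_span_range_iff_exists_fun Ω).2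
      ⟨![S0 ⬝ᵥ v, S1 ⬝ᵥ v, S2 ⬝ᵥ v], by
        rw [Fin.sum_univ_three]
        exact (hrep v a0 a1).symm⟩
  obtain ⟨E, e1, e2⟩ := W.ex _ A.πT
  have hE : dv E A.η = 0 := A.zero_of e2 (e1 ▸ A.in_pi)
  have hEz : ∀ i, dv E (z i) = 0 := fun i => hinj _ (by
    have := dv_mulVec E M (z i)
    rw [hc E hE, hz, dv_single, zero_mulVec, zero_add] at this
    exact this.symm)
  have hq := hrep W.q (A.in_q D0) (A.in_q D1)
  obtain ⟨E', g1, g2⟩ := W.ex' _ A.tT'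
  obtain ⟨c0, c1, k0, k1, k2⟩ := dec' E'
  have k3 := hd _ _ _ _ (A.in_q D0) k1
  have k4 := hd _ _ _ _ (A.in_q D1) k2
  simp only [g2, dotProduct_zero, add_dotProduct, smul_dotProduct, smul_eq_mul] at k3 k4
  set α := S0 ⬝ᵥ W.q
  set β := S1 ⬝ᵥ W.q
  set γ := S2 ⬝ᵥ W.q
  have hdet : α * γ = β ^ 2 := by
    by_contra hne
    have hne' := sub_ne_zero.2 hne
    have z0 : c0 = 0 := (mul_eq_zero.1 (by linear_combination β * k4 - γ * k3 :
      c0 * (α * γ - β ^ 2) = 0)).resolve_right hne'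
    have z1 : c1 = 0 := (mul_eq_zero.1 (by linear_combination β * k3 - α * k4 :
      c1 * (α * γ - β ^ 2) = 0)).resolve_right hne'
    refine A.swap.xi g1 g2 ?_
    change dv E' A.η ⬝ᵥ A.t' = 0
    rw [k0, z0, z1]; simp
  have hprop : ∀ (a : Ω) (u : Fin 5 → Ω), W.q = a • u → dv E u ≠ 0 := fun a u h hu => by
    have h1 := e1
    rw [h, dv_smul, hu, smul_zero, add_zero] at h1
    have := (W.qpi A.π0 A.πT' (a := E a) (e := -a) (by rw [← h1, h]; module)).2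
    exact W.ne (by rw [h, neg_eq_zero.1 this, zero_smul])
  have hα : α ≠ 0 := fun h => by
    have hβ : β = 0 := by simpa [h] using hdet.symm
    exact hprop γ (z 4) (by simpa [h, hβ] using hq) (hEz 4)
  have hq' : W.q = α • (z 2 + (β / α) • z 3 + (β / α) ^ 2 • z 4) := by
    refine hq.trans ?_
    match_scalars
    · ring
    · field_simp
    · field_simp
      linear_combination hdet
  have hτ : E (β / α) ≠ 0 := fun h => hprop _ _ hq' (by
    simp [dv_add, dv_smul, hEz, h])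
  have hon := sev_on (Y := Y) (hEz 2) (hEz 3) (hEz 4) hτ (by
    have := on_smul Y W.on α⁻¹
    rwa [hq', smul_smul, inv_mul_cancel₀ hα, one_smul] at this)
  have p0 : ∀ i, n0 ⬝ᵥ z i = 0 → n0 ⬝ᵥ dv D0 (z i) = S0 ⬝ᵥ z i := fun i h => hd _ _ _ _ h d00
  have p1 : ∀ i, n0 ⬝ᵥ z i = 0 → n0 ⬝ᵥ dv D1 (z i) = S1 ⬝ᵥ z i := fun i h => hd _ _ _ _ h d10
  have p2 : ∀ i, n1 ⬝ᵥ z i = 0 → n1 ⬝ᵥ dv D0 (z i) = S1 ⬝ᵥ z i := fun i h => hd _ _ _ _ h d01
  have p3 : ∀ i, n1 ⬝ᵥ z i = 0 → n1 ⬝ᵥ dv D1 (z i) = S2 ⬝ᵥ z i := fun i h => hd _ _ _ _ h d11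
  refine ⟨⟨![z 2, z 3, z 4], ![dv D0 (z 2), dv D0 (z 3), dv D0 (z 4)],
    ![dv D1 (z 2), dv D1 (z 3), dv D1 (z 4)], hon, sev_ta hon D0, sev_ta hon D1, ![z 0, z 1],
    ?_, hsp _ ?_ ?_, hsp _ ?_ ?_, hsp _ ?_ ?_, hsp _ ?_ ?_, hsp _ ?_ ?_, hsp _ ?_ ?_, ?_⟩⟩
  · rw [Fintype.linearIndependent_iff]
    intro g hg
    have := congrArg (M *ᵥ ·) hg
    simp only [Fin.sum_univ_five, Matrix.cons_val, mulVec_add, mulVec_smul, hz,
      mulVec_zero] at this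
    intro i
    fin_cases i
    · simpa using congrFun this 2
    · simpa using congrFun this 3
    · simpa using congrFun this 4
    · simpa using congrFun this 0
    · simpa using congrFun this 1
  rotate_right
  · intro R d hR h
    refine W.gen R ?_
    rw [hq', aeval_smul_hom hR]
    exact mul_eq_zero_of_right _ (h _)
  all_goals simp [p0, p1, p2, p3, n0z, n1z, S0z, S1z, S2z]

end Two.Fr

end

theorem severi {k : Type} [Field k] [CharZero k] [IsAlgClosed k] {Y : Cone k 5} (hY : Y.Nondeg)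
    (b : Sect Y 1) (hb : ¬ b.Poly) :
    ∃ (K : Type) (_ : Field K) (_ : IsAlgClosed K) (_ : Algebra k K), Nonempty (Conic Y K) := by
  obtain ⟨K, _, _, _, ⟨W⟩⟩ := two_ex hY b hb
  obtain ⟨A⟩ := W.fr_ex
  exact ⟨K, inferInstance, inferInstance, inferInstance, A.conic⟩

end PV
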