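import Pool.Agent.Lib.MP_36fb43_ag.SdA
import Pool.Agent.Lib.MP_36fb43_ag.Bas

/-! Reduction to degree one along the projection, and the equation of the image. -/

open MvPolynomial Matrix Module

namespace PV
namespace Sd

variable {k : Type} [Field k]

theorem sc_factor [IsAlgClosed k] {G : Polynomial k} (hG : G ≠ 0) (n : ℕ) (hn : n ≤ G.natDegree) :
    ∃ g : Polynomial k, g.Monic ∧ g.natDegree = n ∧ g ∣ G := by
  induction n with
  | zero => exact ⟨1, Polynomial.monic_one, Polynomial.natDegree_one, one_dvd _⟩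
  | succ n ih =>
    obtain ⟨g, h1, h2, h, rfl⟩ := ih (by omega)
    have h0 : h ≠ 0 := right_ne_zero_of_mul hG
    rw [Polynomial.natDegree_mul h1.ne_zero h0, h2] at hn
    obtain ⟨a, ha⟩ := IsAlgClosed.exists_root h
      (Polynomial.natDegree_pos_iff_degree_pos.1 (by omega)).ne'
    refine ⟨g * (Polynomial.X - Polynomial.C a), h1.mul (Polynomial.monic_X_sub_C a), ?_,
      mul_dvd_mul_left g (Polynomial.dvd_iff_isRoot.2 ha)⟩
    rw [h1.natDegree_mul (Polynomial.monic_X_sub_C a), h2, Polynomial.natDegree_X_sub_C]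

variable [Algebra ℂ k]

theorem sc_loc [IsAlgClosed k] (T : Pj k) (q : Fin 5 → k) (hq : q ≠ 0) :
    ∃ r, eval q r = 1 ∧ ∀ F, ∃ a b, io r * F - red a b ∈ T.J.I := by
  obtain ⟨μ, hμ, mμ⟩ := T.mon
  let E := finSuccEquiv k 5
  let J' : Ideal (Polynomial (MvPolynomial (Fin 5) k)) := T.J.I.comap E.symm
  have hJ' : ∀ f, E f ∈ J' ↔ f ∈ T.J.I := fun f => by simp [J', Ideal.mem_comap]
  let φ := Polynomial.mapRingHom (eval q : MvPolynomial (Fin 5) k →+* k)
  have hφ : Function.Surjective φ :=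
    Polynomial.map_surjective _ fun c => ⟨C c, eval_C _⟩
  obtain ⟨g, hg⟩ := (IsPrincipalIdealRing.principal (J'.map φ)).principal
  have hd : ∀ f ∈ T.J.I, g ∣ lq q f := fun f hf => by
    rw [lq_E, ← Ideal.mem_span_singleton]
    exact hg.le (Ideal.mem_map_of_mem φ ((hJ' f).2 hf))
  have g0 : g ≠ 0 := by
    rintro rfl
    have := hd μ hμ
    rw [zero_dvd_iff, lq_E] at this
    exact (mμ.map _).ne_zero this
  have g2 : g.natDegree ≤ 2 := by
    by_contra h
    obtain ⟨c, h1, h2, h3⟩ := sc_factor g0 3 (by omega)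
    exact T.no3 q c hq h1 h2 fun f hf => h3.trans (hd f hf)
  obtain ⟨G, hG, e⟩ := (Ideal.mem_map_iff_of_surjective φ hφ).1
    (show g * Polynomial.C g.leadingCoeff⁻¹ ∈ J'.map φ from
      Ideal.mul_mem_right _ _ (hg.ge (Ideal.mem_span_singleton_self g)))
  have e' : G.map (eval q) = g * Polynomial.C g.leadingCoeff⁻¹ := e
  obtain ⟨r, hr, h⟩ := nak (eval q) C (fun c => eval_C c) J' ((hJ' μ).2 hμ) mμ hG
    (by rw [e']; exact Polynomial.monic_mul_leadingCoeff_inv g0) (n := 2)
    (by rw [e', Polynomial.natDegree_mul_leadingCoeff_inv _ g0]; exact g2)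
  refine ⟨r, hr, fun F => ?_⟩
  obtain ⟨H, h1, h2⟩ := h (E F)
  refine ⟨H.coeff 0, H.coeff 1, (hJ' _).1 ?_⟩
  have h3 : H.degree ≤ 1 := Order.le_of_lt_succ h1
  rw [map_sub, map_mul, E_io, E_red, add_comm (Polynomial.C _), ← Polynomial.eq_X_add_C_of_degree_le_one h3]
  exact h2

theorem sc_glob [IsAlgClosed k] (T : Pj k) :
    ∃ M, ∀ j (F : MvPolynomial (Fin 6) k), ∃ a b, io (X j ^ M) * F - red a b ∈ T.J.I := by
  let A : Ideal (MvPolynomial (Fin 5) k) :=
    { carrier := {r | ∀ F, ∃ a b, io r * F - red a b ∈ T.J.I}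
      add_mem' := fun {r r'} h h' F => by
        obtain ⟨a, b, e⟩ := h F
        obtain ⟨a', b', e'⟩ := h' F
        refine ⟨a + a', b + b', ?_⟩
        convert T.J.I.add_mem e e' using 1
        rw [red_add, map_add]; ring
      zero_mem' := fun F => ⟨0, 0, by simp [red]⟩
      smul_mem' := fun c r h F => by
        obtain ⟨a, b, e⟩ := h F
        refine ⟨c * a, c * b, ?_⟩
        convert T.J.I.mul_mem_left (io c) e using 1
        rw [red_mul, smul_eq_mul, map_mul]; ring }
  exact ns A fun q hq => by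
    obtain ⟨r, h1, h2⟩ := sc_loc T q hq
    exact ⟨r, h2, by rw [h1]; exact one_ne_zero⟩

theorem sc_hom (T : Pj k) {c : MvPolynomial (Fin 5) k} {M d : ℕ} (hc : c.IsHomogeneous M)
    {F : MvPolynomial (Fin 6) k} (hF : F.IsHomogeneous (d + 1))
    (h : ∃ a b, io c * F - red a b ∈ T.J.I) :
    ∃ a b : MvPolynomial (Fin 5) k, a.IsHomogeneous (M + d + 1) ∧ b.IsHomogeneous (M + d) ∧
      io c * F - red a b ∈ T.J.I := by
  obtain ⟨a, b, e⟩ := h
  refine ⟨_, _, homogeneousComponent_isHomogeneous _ a, homogeneousComponent_isHomogeneous _ b, ?_⟩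
  have := T.J.hom _ e (M + d + 1)
  rwa [map_sub, hc_red, homogeneousComponent_eq_self
    (show (io c * F).IsHomogeneous (M + d + 1) from hc.rename_isHomogeneous.mul hF)] at this

theorem sc_fb (T : Pj k) {M : ℕ} {al be : Fin 5 → MvPolynomial (Fin 5) k}
    (qm : ∀ j, qd (X j ^ M) (al j) (be j) ∈ T.J.I) :
    ∃ (d : ℕ) (Fb : MvPolynomial (Fin 5) k), Fb.IsHomogeneous d ∧ Irreducible Fb ∧
      ∀ g, io g ∈ T.J.I ↔ Fb ∣ g := by
  have : CharZero k := charZero_of_injective_algebraMap (algebraMap ℂ k).injective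
  have ne : ∀ {L : Type} [Field L] [Algebra k L] (x : Fin 6 → L),
      (∀ f, aeval x f = 0 ↔ f ∈ T.J.I) → x ≠ 0 := by
    intro L _ _ x hx e
    obtain ⟨i, hi⟩ := T.J.ne
    exact hi ((hx _).1 (by simp [e]))
  obtain ⟨Fb, h1, h2⟩ := KE.prin T.J Fin.succ (fun L _ _ x hx v hv h0 => by
    by_contra v0
    have h3 : v 0 ≠ 0 := fun e => v0 (funext fun i => Fin.cases e (fun j => congrFun h0 j) i)
    have h4 : ∀ f ∈ T.J.I, pderiv 0 f ∈ T.J.I := fun f hf => by
      have := hv f hf
      have h00 : ∀ j : Fin 5, v j.succ = 0 := congrFun h0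
      rw [dotProduct, Fin.sum_univ_succ] at this
      simp only [h00, mul_zero, Finset.sum_const_zero, add_zero] at this
      exact (hx _).1 ((mul_eq_zero.1 this).resolve_right h3)
    have h5 : ∀ j : Fin 5, X j.succ ∈ T.J.I := fun j => by
      have := h4 _ (h4 _ (qm j))
      have e : pderiv 0 (pderiv 0 (qd (X j ^ M) (al j) (be j))) = C 2 * X j.succ ^ M := by
        rw [qd, map_sub, pd0_red, map_sub, pd0_io, pderiv_mul, pd0_io, zero_mul, zero_add,
          pderiv_mul, pd0_io]
        have e2 : pderiv 0 (2 : MvPolynomial (Fin 6) k) = 0 := by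
          rw [← map_ofNat (C : k →+* MvPolynomial (Fin 6) k) 2, pderiv_C]
        simp [map_ofNat, mul_comm, e2]
      rw [e] at this
      exact T.J.prime.mem_of_pow_mem M ((T.J.I.unit_mul_mem_iff_mem
        ((isUnit_iff_ne_zero.2 (two_ne_zero (α := k))).map C)).1 this)
    have h6 := T.J.rk L x (ne x hx) fun f hf => (hx f).2 hf
    have h7 : LinearIndependent L fun j : Fin 5 =>
        (⟨gr (X j.succ) x, gr_mem (h5 j)⟩ : Nm T.J.I x) := by
      refine LinearIndependent.of_comp ((LinearMap.funLeft L L Fin.succ).comp (Nm T.J.I x).subtype) ?_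
      convert (Pi.basisFun L (Fin 5)).linearIndependent using 1
      ext j i
      simp [gr, LinearMap.funLeft_apply, pderiv_X, Pi.single_apply, eq_comm]
    have := h7.fintype_card_le_finrank
    simp [h6] at this) (by
    by_contra hn
    push Not at hn
    obtain ⟨L, _, _, _, x, hx, -⟩ := genpt_ex T.J
    have hi : AlgebraicIndependent k (x ∘ Fin.succ) := by
      rw [algebraicIndependent_iff]
      intro g hg
      by_contra g0
      exact hn g g0 ((hx _).1 (by rwa [aeval_rename]))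
    choose D hD using fun j : Fin 5 => ka_der_indep hi (Pi.single j 1)
    have on : On T.J.I x := fun f hf => (hx f).2 hf
    have h6 := finrank_tg T.J (ne x hx) on
    have h7 : LinearIndependent L fun j : Fin 5 =>
        (⟨dv (D j) x, tg_iff.1 (tg_dv on (D j) (D j).map_algebraMap)⟩ : perp (Nm T.J.I x)) := by
      refine LinearIndependent.of_comp
        ((LinearMap.funLeft L L Fin.succ).comp (perp (Nm T.J.I x)).subtype) ?_
      convert (Pi.basisFun L (Fin 5)).linearIndependent using 1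
      ext j i
      simpa [LinearMap.funLeft_apply] using hD j i
    have := h7.fintype_card_le_finrank
    simp only [Fintype.card_fin] at this
    omega)
  obtain ⟨e, he⟩ : ∃ e, homogeneousComponent e Fb ≠ 0 := by
    by_contra h
    push Not at h
    exact h1.ne_zero (by rw [← sum_homogeneousComponent Fb]; simp [h])
  obtain ⟨w, hw⟩ := (h2 (homogeneousComponent e Fb)).1 (by
    rw [rename_homogeneousComponent]; exact T.J.hom _ ((h2 Fb).2 dvd_rfl) e)
  exact ⟨_, Fb, (homfac (hw ▸ homogeneousComponent_isHomogeneous e Fb) (hw ▸ he)).1, h1, h2⟩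

theorem rd_ex {k : Type} [Field k] [IsAlgClosed k] [Algebra ℂ k] (T : Pj k) (s : Sect T.J 2) :
    Nonempty (Rd T s) := by
  obtain ⟨M, hM⟩ := sc_glob T
  choose al be h1 h2 h3 using fun j =>
    sc_hom T (d := 1) (isHomogeneous_X_pow j M) (isHomogeneous_X_pow 0 2) (hM j _)
  choose sa sb _ h5 h6 using fun j : Fin 5 =>
    sc_hom T (d := s.N + 1) (isHomogeneous_X_pow j M) (s.hom j.succ) (hM j _)
  obtain ⟨d, Fb, f1, f2, f3⟩ := sc_fb T (al := al) (be := be) h3
  refine ⟨⟨M, al, be, h1, h2, h3, M + s.N, sa, sb, h5, fun j i => ?_, d, Fb, f1, f2, f3⟩⟩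
  have := T.J.I.sub_mem (T.J.I.mul_mem_left (io (X j ^ M)) (s.cmp j.succ i))
    (T.J.I.mul_mem_left (X i ^ s.N) (h6 j))
  convert this using 1
  simp only [map_pow, rename_X]
  ring

end Sd
end PV
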