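import Pool.Agent.Lib.MP_36fb43_ag.KD

open MvPolynomial Matrix Module

namespace PV

/-- zeros of a homogeneous ideal can be scaled -/
theorem mt_smul {k F σ : Type} [Field k] [Field F] [Algebra k F] {P : Ideal (MvPolynomial σ k)}
    (hP : ∀ f ∈ P, ∀ d, homogeneousComponent d f ∈ P) {x : σ → F} (h : On P x) (a : F) :
    On P (a • x) := by
  intro f hf
  rw [← sum_homogeneousComponent f, map_sum]
  refine Finset.sum_eq_zero fun d _ => ?_
  rw [aeval_smul_hom (homogeneousComponent_isHomogeneous d f), h _ (hP f hf d), mul_zero]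

/-- the dimension does not drop under a field map -/
theorem mt_rank {F Ω σ : Type} [Field F] [Field Ω] [Fintype σ] (i : F →+* Ω)
    (U : Submodule F (σ → F)) (W : Submodule Ω (σ → Ω)) (h : ∀ v ∈ U, i ∘ v ∈ W) :
    finrank F U ≤ finrank Ω W := by
  obtain ⟨ι, l, h1, h2⟩ := ech_ex U rfl
  have h3 : Ech ι fun a => i ∘ l a := fun a b => by
    simp only [Function.comp_apply, h1 a b, apply_ite i, map_one, map_zero]
  refine (Fintype.card_fin _).ge.trans ((finrank_span_eq_card h3.li).ge.trans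
    (Submodule.finrank_mono (Submodule.span_le.2 ?_)))
  rintro _ ⟨a, rfl⟩
  exact h _ (h2.le (Submodule.subset_span (Set.mem_range_self a)))

/-- derivatives along the derivations that kill a set -/
theorem mt_mem {k F σ : Type} [Field k] [Field F] [Algebra k F] {S : Set F} {x v : σ → F}
    (h : v ∈ dsp {E : Derivation k F F | ∀ y ∈ S, E y = 0} x) :
    ∃ D : Derivation k F F, (∀ y ∈ S, D y = 0) ∧ dv D x = v := by
  induction h using Submodule.span_induction with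
  | mem v hv => obtain ⟨D, hD, rfl⟩ := hv; exact ⟨D, hD, rfl⟩
  | zero => exact ⟨0, fun _ _ => rfl, rfl⟩
  | add a b _ _ ha hb =>
    obtain ⟨D, hD, rfl⟩ := ha
    obtain ⟨E, hE, rfl⟩ := hb
    exact ⟨D + E, fun y hy => by simp [hD y hy, hE y hy], rfl⟩
  | smul c a _ ha =>
    obtain ⟨D, hD, rfl⟩ := ha
    exact ⟨c • D, fun y hy => by simp [hD y hy], rfl⟩

/-- two fields over `k` lie in a common field -/
theorem mt_comp (k F1 F2 : Type) [Field k] [Field F1] [Field F2] [Algebra k F1] [Algebra k F2] :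
    ∃ (F : Type) (_ : Field F) (_ : Algebra k F), Nonempty (F1 →ₐ[k] F) ∧ Nonempty (F2 →ₐ[k] F) := by
  obtain ⟨M, hM⟩ := Ideal.exists_maximal (TensorProduct k F1 F2)
  exact ⟨TensorProduct k F1 F2 ⧸ M, Ideal.Quotient.field M, inferInstance,
    ⟨(Ideal.Quotient.mkₐ k M).comp Algebra.TensorProduct.includeLeft⟩,
    ⟨(Ideal.Quotient.mkₐ k M).comp Algebra.TensorProduct.includeRight⟩⟩

theorem mt_copy {k F Ω F1 σ : Type} [Field k] [CharZero k] [Field F] [Field Ω] [Field F1]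
    [Algebra k F] [Algebra k Ω] [Algebra k F1] [Fintype σ] {m : ℕ} (c : Copy k F Ω m)
    (j : F1 →ₐ[k] F) (x : σ → F1) :
    finrank F1 (dsp (Set.univ : Set (Derivation k F1 F1)) x) ≤
      finrank Ω (dsp {E : Derivation k Ω Ω | ∀ y ∈ Set.range c.i2, E y = 0}
        (c.i1.comp j ∘ x)) := by
  refine mt_rank (c.i1.comp j).toRingHom _ _ fun v hv => ?_
  obtain ⟨D, rfl⟩ := mem_dsp_univ.1 hv
  obtain ⟨E, hE⟩ := der_ext j D
  obtain ⟨E', h1, h2, -⟩ := c.ex E 0 0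
  refine Submodule.subset_span ⟨E', ?_, funext fun a => ?_⟩
  · rintro _ ⟨y, rfl⟩
    simpa using h2 y
  · exact ((h1 _).trans (congrArg _ (hE _))).symm

theorem meet {k : Type} [Field k] [CharZero k] [IsAlgClosed k] (P1 P2 : Ideal (MvPolynomial (Fin 5) k))
    (h1 : ∀ f ∈ P1, ∀ d, homogeneousComponent d f ∈ P1)
    (h2 : ∀ f ∈ P2, ∀ d, homogeneousComponent d f ∈ P2)
    {F1 F2 : Type} [Field F1] [Field F2] [Algebra k F1] [Algebra k F2] (x1 : Fin 5 → F1)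
    (x2 : Fin 5 → F2) (o1 : On P1 x1) (o2 : On P2 x2)
    (r1 : 3 ≤ finrank F1 (dsp (Set.univ : Set (Derivation k F1 F1)) x1))
    (r2 : 3 ≤ finrank F2 (dsp (Set.univ : Set (Derivation k F2 F2)) x2)) :
    ∃ z : Fin 5 → k, z ≠ 0 ∧ On P1 z ∧ On P2 z := by
  obtain ⟨F, _, _, ⟨j1⟩, ⟨j2⟩⟩ := mt_comp k F1 F2
  obtain ⟨Ω, _, _, _, ⟨c⟩⟩ := copy_ex (k := k) (F := F) 0
  have a1 := r1.trans (mt_copy c j1 x1)
  have a2 := r2.trans (mt_copy c.swap j2 x2)
  set q := c.i1.comp j1 ∘ x1 with hq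
  set q' := c.swap.i1.comp j2 ∘ x2 with hq'
  have p1 : On P1 q := fun f hf => by rw [hq, kc_aeval_comp, o1 f hf, map_zero]
  have p2 : On P2 q' := fun f hf => by rw [hq', kc_aeval_comp, o2 f hf, map_zero]
  obtain ⟨v, ⟨v1, v2⟩, v0⟩ : ∃ v ∈ dsp {E : Derivation k Ω Ω | ∀ y ∈ Set.range c.i2, E y = 0} q ⊓
      dsp {E : Derivation k Ω Ω | ∀ y ∈ Set.range c.swap.i2, E y = 0} q', v ≠ 0 := by
    refine Submodule.exists_mem_ne_zero_of_ne_bot fun e => ?_
    have := Submodule.finrank_sup_add_finrank_inf_eq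
      (dsp {E : Derivation k Ω Ω | ∀ y ∈ Set.range c.i2, E y = 0} q)
      (dsp {E : Derivation k Ω Ω | ∀ y ∈ Set.range c.swap.i2, E y = 0} q')
    have b := Submodule.finrank_le (dsp {E : Derivation k Ω Ω | ∀ y ∈ Set.range c.i2, E y = 0} q ⊔
      dsp {E : Derivation k Ω Ω | ∀ y ∈ Set.range c.swap.i2, E y = 0} q')
    rw [e, finrank_bot] at this
    rw [finrank_fintype_fun_eq_card, Fintype.card_fin] at b
    omega
  obtain ⟨D1, d1, e1⟩ := mt_mem v1
  obtain ⟨D2, d2, e2⟩ := mt_mem v2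
  have e3 : ∀ a, (D1 + D2) (q a) = v a := fun a => by
    rw [Derivation.add_apply, d2 (q a) ⟨_, rfl⟩, add_zero]; exact congrFun e1 a
  have e4 : ∀ a, (D1 + D2) (q' a) = v a := fun a => by
    rw [Derivation.add_apply, d1 (q' a) ⟨_, rfl⟩, zero_add]; exact congrFun e2 a
  obtain ⟨a, ha⟩ := Function.ne_iff.1 v0
  obtain ⟨O, hO, hn⟩ : ∃ O : ValuationSubring Ω, (∀ z ∈ cst {D1 + D2}, z ∈ O) ∧ q a ∉ O := by
    by_contra h
    push Not at h
    exact ha ((e3 a).symm.trans (val_der _ h _ rfl))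
  obtain ⟨m, m0, hm⟩ := kb_max O q Finset.univ (by simp) fun e => hn (e ▸ O.zero_mem)
  have w : ∀ b, q b - q' b ∈ O := fun b => hO _ (by
    rintro _ rfl
    rw [map_sub, e3, e4, sub_self])
  have s0 : q m ∉ O := fun h => hn (by
    have := O.mul_mem _ _ h (hm a)
    rwa [mul_inv_cancel_left₀ m0] at this)
  have s1 : (q m)⁻¹ ∈ O := (O.mem_or_inv_mem _).resolve_left s0
  obtain ⟨κ, _, _, _, ⟨r⟩⟩ := res_ex k O fun t => hO _ (IntermediateField.algebraMap_mem _ t)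
  have s2 : r.ρ (q m)⁻¹ = 0 := (r.zero _ s1).2 (by
    rw [map_inv₀]
    exact inv_lt_one_of_one_lt₀ (not_le.1 fun h => s0 ((O.valuation_le_one_iff _).1 h)))
  have s3 : ∀ b, (q m)⁻¹ * q' b = (q m)⁻¹ * q b + (q m)⁻¹ * -(q b - q' b) := fun b => by ring
  have s4 : ∀ b, (q m)⁻¹ * q' b ∈ O := fun b =>
    s3 b ▸ O.add_mem _ _ (hm b) (O.mul_mem _ _ s1 (O.neg_mem _ (w b)))
  have s5 : r.ρ ∘ ((q m)⁻¹ • q') = r.ρ ∘ ((q m)⁻¹ • q) := funext fun b => by
    simp only [Function.comp_apply, Pi.smul_apply, smul_eq_mul]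
    rw [s3, r.add _ (hm b) _ (O.mul_mem _ _ s1 (O.neg_mem _ (w b))),
      r.mul _ s1 _ (O.neg_mem _ (w b)), s2, zero_mul, add_zero]
  have r0 : r.ρ 0 = 0 := by simpa using r.alg 0
  obtain ⟨z, z1, z2⟩ := spec_pt (k := k) (r.ρ ∘ ((q m)⁻¹ • q)) (g := X m) (by
    have := r.alg 1
    simp only [map_one] at this
    simp [inv_mul_cancel₀ m0, this])
  refine ⟨z, fun e => z2 (by simp [e]), fun f hf => z1 f ?_, fun f hf => z1 f ?_⟩
  · rw [← (r.aeval (x := (q m)⁻¹ • q) hm f).2, mt_smul h1 p1 _ f hf, r0]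
  · rw [← s5, ← (r.aeval (x := (q m)⁻¹ • q') s4 f).2, mt_smul h2 p2 _ f hf, r0]

end PV
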