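import Pool.Agent.Lib.MP_36fb43_ag.SdE
import Pool.Agent.Lib.MP_36fb43_ag.Meet

/-! The section of degree one on the double surface. -/

open MvPolynomial Matrix Module

namespace PV

namespace Sd

theorem ex_out {F V : Type} [Field F] [AddCommGroup V] [Module F V] (W : Submodule F V) {m : ℕ}
    (v : Fin m → V) (h : m < finrank F W) : ∃ w ∈ W, w ∉ Submodule.span F (Set.range v) := by
  by_contra hc
  push Not at hc
  have := Module.Finite.span_of_finite F (Set.finite_range v)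
  have h1 := Submodule.finrank_mono (show W ≤ Submodule.span F (Set.range v) from hc)
  have h2 : finrank F (Submodule.span F (Set.range v)) ≤ m :=
    (finrank_range_le_card (R := F) v).trans_eq (Fintype.card_fin m)
  omega

theorem ex_three {F V : Type} [Field F] [AddCommGroup V] [Module F V] (W : Submodule F V) {y : V}
    (hy : y ≠ 0) (h : 3 ≤ finrank F W) : ∃ v ∈ W, ∃ w ∈ W, LinearIndependent F ![y, v, w] := by
  obtain ⟨v, hv, n1⟩ := ex_out W ![y] (by omega)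
  obtain ⟨w, hw, n2⟩ := ex_out W ![v, y] (by omega)
  have l1 : LinearIndependent F ![y] := linearIndependent_unique_iff.2 hy
  have l2 : LinearIndependent F ![v, y] := linearIndependent_finCons.2 ⟨l1, n1⟩
  have l3 : LinearIndependent F ![w, v, y] := linearIndependent_finCons.2 ⟨l2, n2⟩
  refine ⟨v, hv, w, hw, ?_⟩
  convert l3.comp ![2, 1, 0] (by decide) using 1
  funext i
  fin_cases i <;> rfl

variable {k : Type} [Field k] [CharZero k] [IsAlgClosed k] [Algebra ℂ k] {T : Pj k}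
  {s : Sect T.J 2} {q : Fin 5 → k}

theorem Rd.uniq (R : Rd T s) (h0 : q ≠ 0) (hV : On (aa T.J.I) q) {q1 : Fin 5 → k} (h1 : q1 ≠ 0)
    (hV1 : On (aa T.J.I) q1) : lp (aa T.J.I) q1 = lp (aa T.J.I) q := by
  obtain ⟨L, _, _, _, y, hy, hr⟩ := gen3 (R.cn h0 hV)
  obtain ⟨L1, _, _, _, y1, hy1, hr1⟩ := gen3 (R.cn h1 hV1)
  obtain ⟨z, z0, o, o1⟩ := meet _ _ (R.cn h0 hV).hom (R.cn h1 hV1).hom y y1
    (fun f hf => (hy f).2 hf) (fun f hf => (hy1 f).2 hf) hr hr1
  have pz := R.prime z0 fun f hf => o f (le_lp hf)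
  exact (lp_eq (R.prime h1 hV1) pz hV1 o1).symm.trans (lp_eq (R.prime h0 hV) pz hV o)

omit [CharZero k] [IsAlgClosed k] in
theorem Rd.exX (R : Rd T s) : ∃ i : Fin 5, io (X i) ∉ T.J.I := by
  by_contra h
  push Not at h
  have h0 := R.Firr.associated_of_dvd X_prime.irreducible ((R.Fdvd _).1 (h 0))
  exact absurd (X_dvd_X.1 (h0.symm.dvd.trans ((R.Fdvd _).1 (h 1)))) (by decide)

omit [CharZero k] [IsAlgClosed k] [Algebra ℂ k] in
theorem canc {n : ℕ} (J : Cone k n) {N : ℕ} {f} (h : ∀ l, X l ^ N * f ∈ J.I) : f ∈ J.I := by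
  obtain ⟨l, hl⟩ := J.ne
  exact (J.prime.mem_or_mem (h l)).resolve_left fun h => hl (J.prime.mem_of_pow_mem _ h)

theorem Rd.poly (R : Rd T s) (A : MvPolynomial (Fin 5) k) (h : ∀ q : Fin 5 → k, q ≠ 0 → ∀ i,
    ∃ e, eval q e ≠ 0 ∧ e * (X i ^ R.K * A - R.sb i) ∈ aa T.J.I) : s.Poly := by
  obtain ⟨M, hM⟩ := ns ((aa T.J.I).colon (Set.range fun i => X i ^ R.K * A - R.sb i))
    fun q h0 => by
      choose e he m using h q h0
      refine ⟨∏ i, e i, Submodule.mem_colon.2 ?_, by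
        rw [map_prod]; exact Finset.prod_ne_zero_iff.2 fun i _ => he i⟩
      rintro _ ⟨i, rfl⟩
      rw [← Finset.prod_erase_mul _ _ (Finset.mem_univ i), smul_eq_mul, mul_assoc]
      exact Ideal.mul_mem_left _ _ (m i)
  choose γ hγ using fun i => Submodule.mem_colon.1 (hM i) _ ⟨i, rfl⟩
  have h1 : ∀ i l, X l ^ s.N * (io (X i ^ M * R.sa i + γ i) + io (X i) ^ (M + R.K) * red 0 A) -
      io (X i) ^ (M + R.K) * s.G l ∈ T.J.I := fun i l => by
    convert T.J.I.add_mem (T.J.I.mul_mem_left (io (X i) ^ M) (R.rep i l))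
      (T.J.I.mul_mem_left (X l ^ s.N) (hγ i)) using 1
    simp only [red, smul_eq_mul, map_add, map_sub, map_mul, map_pow, map_zero]; ring
  obtain ⟨B, hB⟩ := hyp (by norm_num) R.Firr (M + R.K) (fun i => X i ^ M * R.sa i + γ i)
    fun i j => (R.Fdvd _).1 (canc T.J (N := s.N) fun l => by
      convert T.J.I.sub_mem (T.J.I.mul_mem_left (io (X j) ^ (M + R.K)) (h1 i l))
        (T.J.I.mul_mem_left (io (X i) ^ (M + R.K)) (h1 j l)) using 1
      simp only [map_sub, map_mul, map_pow]; ring)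
  obtain ⟨i, hi⟩ := R.exX
  refine ⟨red B A, fun l => (T.J.prime.mem_or_mem (x := io (X i) ^ (M + R.K)) ?_).resolve_left
    fun h => hi (T.J.prime.mem_of_pow_mem _ h)⟩
  convert T.J.I.add_mem (h1 i l) (T.J.I.mul_mem_left (X l ^ s.N) ((R.Fdvd _).2 (hB i))) using 1
  simp only [red, map_sub, map_mul, map_pow, map_zero]; ring

theorem Rd.both (R : Rd T s) (h0 : q ≠ 0) (hV : On (aa T.J.I) q) {a b : MvPolynomial (Fin 5) k}
    (h : red a b ∈ T.J.I) : a ∈ (R.cn h0 hV).I ∧ b ∈ (R.cn h0 hV).I :=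
  ⟨canc _ fun l => le_lp (red_shift (R.qm l) h), le_lp (mem_aa h)⟩

/-- the section of degree one -/
def Rd.sec (R : Rd T s) (h0 : q ≠ 0) (hV : On (aa T.J.I) q) : Sect (R.cn h0 hV) 1 where
  N := R.K
  G := R.sb
  hom := R.sbh
  cmp := fun i j => le_lp (mem_aa (a := X j ^ R.K * R.sa i - X i ^ R.K * R.sa j)
    (canc T.J (N := s.N) fun l => by
      convert T.J.I.sub_mem (T.J.I.mul_mem_left (io (X j ^ R.K)) (R.rep i l))
        (T.J.I.mul_mem_left (io (X i ^ R.K)) (R.rep j l)) using 1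
      simp only [red, map_sub, map_mul]; ring))

/-- the local structure along the double surface -/
def Rd.dbl (R : Rd T s) (h0 : q ≠ 0) (hV : On (aa T.J.I) q) : Dbl (R.cn h0 hV) where
  d := R.d
  Fb := R.Fb
  Fhom := R.Fhom
  M := R.M
  al := R.al
  be := R.be
  alh := R.alh
  beh := R.beh
  cmp := fun i j => by
    obtain ⟨h1, h2⟩ := R.both h0 hV (a := X i ^ R.M * R.al j - X j ^ R.M * R.al i)
      (b := X i ^ R.M * R.be j - X j ^ R.M * R.be i) (by
        convert T.J.I.sub_mem (T.J.I.mul_mem_left (io (X j ^ R.M)) (R.qm i))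
          (T.J.I.mul_mem_left (io (X i ^ R.M)) (R.qm j)) using 1
        simp only [qd, red, map_sub, map_mul]; ring)
    convert Ideal.add_mem _ (Ideal.mul_mem_left _ (4 * X i ^ R.M * X j ^ R.M) h1)
      (Ideal.mul_mem_left _ (X i ^ R.M * R.be j + X j ^ R.M * R.be i) h2) using 1
    ring
  dne := fun j hj hd => by
    obtain ⟨L, _, _, _, y, hy, hr⟩ := gen3 (R.cn h0 hV)
    have : CharZero L := charZero_of_injective_algebraMap (algebraMap k L).injective
    obtain ⟨v, hv, w, hw, li⟩ := ex_three _ (KE.ne_zero_of_gen _ hy) hr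
    obtain ⟨D1, rfl⟩ := mem_dsp_univ.1 hv
    obtain ⟨D2, rfl⟩ := mem_dsp_univ.1 hw
    have hc : aeval y (X j ^ R.M : MvPolynomial (Fin 5) k) ≠ 0 := by
      rw [map_pow]; exact pow_ne_zero _ (mt (hy _).1 hj)
    have h1 := (hy _).2 hd
    simp only [map_add, map_mul, map_ofNat, map_pow (aeval y) (R.be j)] at h1
    refine T.dd L y D1 D2 li (aeval y (R.be j) / (2 * aeval y (X j ^ R.M : MvPolynomial (Fin 5) k)))
      fun f hf => Dvd.dvd.trans ?_ (qd_dvd (R.qm j) hc (fun g hg => (hy g).2 (le_lp hg)) hf)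
    rw [lq_fac (z1 := aeval y (R.be j) / (2 * aeval y (X j ^ R.M : MvPolynomial (Fin 5) k)))
      (z2 := aeval y (R.be j) / (2 * aeval y (X j ^ R.M : MvPolynomial (Fin 5) k)))
      (by field_simp; ring) (by field_simp; linear_combination h1), sq]
    exact Dvd.intro_left _ rfl
  loc := fun q1 j o hj => by
    obtain ⟨a, b, m, li, -, n, hn, e⟩ := R.a3 hj fun f hf => o f (le_lp hf)
    exact ⟨a, (R.both h0 hV m).1, b, (R.both h0 hV m).2, n, 1, hn, by simp, li, by rw [e, one_mul]⟩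

theorem Rd.main (R : Rd T s) :
    s.Poly ∨ ∃ (Y : Cone k 5) (b : Sect Y 1), (b.Poly → s.Poly) ∧ Nonempty (Dbl Y) := by
  have off : ∀ q : Fin 5 → k, ¬ On (aa T.J.I) q → ∀ g, ∃ e, eval q e ≠ 0 ∧ e * g ∈ aa T.J.I :=
    fun q h g => by
      obtain ⟨e, he⟩ := not_forall.1 h
      obtain ⟨h1, h2⟩ := Classical.not_imp.1 he
      exact ⟨e, h2, Ideal.mul_mem_right _ _ h1⟩
  by_cases h : ∃ q : Fin 5 → k, q ≠ 0 ∧ On (aa T.J.I) q
  · obtain ⟨q, h0, hV⟩ := h
    refine Or.inr ⟨R.cn h0 hV, R.sec h0 hV, fun ⟨A, hA⟩ => R.poly A fun q1 h1 i => ?_,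
      ⟨R.dbl h0 hV⟩⟩
    by_cases hV1 : On (aa T.J.I) q1
    · exact mem_lp.1 (by rw [R.uniq h0 hV h1 hV1]; exact hA i)
    · exact off q1 hV1 _
  · exact Or.inl (R.poly 0 fun q h0 i => off q (fun hV => h ⟨q, h0, hV⟩) _)

end Sd

end PV
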