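import Pool.Agent.Lib.MP_36fb43_ag.SdB
import Pool.Agent.Lib.MP_36fb43_ag.SdC
import Pool.Agent.Lib.MP_36fb43_ag.SdF

/-! No aligned triple through the generic point: the double surface of the projection. -/

open MvPolynomial Matrix Module

namespace PV

theorem side_a {Z : Cone ℂ 6} (s : Sect Z 2) {k : Type} [Field k] [IsAlgClosed k] [Algebra ℂ k]
    {p : Fin 6 → k} (hp : GenPt p)
    (hno : ∀ (q0 : Fin 6 → k) (g0 : Polynomial k), q0 0 = 0 → q0 ≠ 0 → g0.Monic →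
      g0.natDegree = 3 → ¬ Al Z.I p q0 g0) :
    s.Poly ∨ ∃ (Y : Cone k 5) (b : Sect Y 1), (b.Poly → s.Poly) ∧ Nonempty (Dbl Y) := by
  have : CharZero k := charZero_of_injective_algebraMap (algebraMap ℂ k).injective
  obtain ⟨T, s', h⟩ := Sd.pj_ex s hp hno
  obtain ⟨R⟩ := Sd.rd_ex T s'
  rcases R.main with h1 | ⟨Y, b, h1, h2⟩
  · exact Or.inl (h h1)
  · exact Or.inr ⟨Y, b, fun hb => h (h1 hb), h2⟩

end PV
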