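import Pool.Agent.Lib.MP_36fb43_ag.Four
import Pool.Agent.Lib.MP_36fb43_ag.Osc
import Pool.Agent.Lib.MP_36fb43_ag.Pal
import Pool.Agent.Lib.MP_36fb43_ag.SideA
import Pool.Agent.Lib.MP_36fb43_ag.Sev
import Pool.Agent.Lib.MP_36fb43_ag.Par

open MvPolynomial Matrix Module

namespace PV

/-! ## assembly -/
theorem main {Z : Cone ℂ 6} (s : Sect Z 2) (hs : ¬ s.Poly) : Palat Z.I := by
  have hZ : Z.Nondeg := by
    by_contra h
    exact hs (deg_poly (by norm_num) s h)
  obtain ⟨k, _, _, _, p, hp⟩ := genPt_ex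
  have : CharZero k := charZero_of_injective_algebraMap (algebraMap ℂ k).injective
  by_cases hno : ∀ (q0 : Fin 6 → k) (g0 : Polynomial k), q0 0 = 0 → q0 ≠ 0 → g0.Monic →
      g0.natDegree = 3 → ¬ Al Z.I p q0 g0
  · rcases side_a s hp hno with h | ⟨Y, b, hb, ⟨A⟩⟩
    · exact absurd h hs
    · have hb' : ¬ b.Poly := fun h => hs (hb h)
      have hY : Y.Nondeg := by
        by_contra h
        exact hb' (deg_poly (by norm_num) b h)
      obtain ⟨K, _, _, _, ⟨c⟩⟩ := severi hY b hb'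
      exact (parity A c).elim
  · push Not at hno
    obtain ⟨q0, g0, h0, h1, hm, hd, hg⟩ := hno
    obtain ⟨j, hj⟩ := Function.ne_iff.1 h1
    have hj' : q0 j ≠ 0 := hj
    obtain ⟨P, -⟩ := line_out (j := j) hZ hs hp (q0 := (q0 j)⁻¹ • q0) (by simp [h0])
      (by simp [hj']) ((Polynomial.monic_scaleRoots_iff _).2 hm)
      (by rw [Polynomial.natDegree_scaleRoots, hd]) (al_scale Z hg _)
    obtain ⟨A⟩ := four_ex hZ hs hp P
    obtain ⟨ω, a1, a2, a3⟩ := osc hp A
    exact pal hZ hp A ω a1 a2 a3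

end PV
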