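import Pool.Agent.Lib.MP_36fb43_ag.Defs

open Matrix Module

namespace PV.O7

variable {k : Type} [Field k]

/-- the gradient of `z ↦ det (∑ z a • T a)` -/
def gd (T : Fin 3 → Matrix (Fin 3) (Fin 3) k) (z : Fin 3 → k) : Fin 3 → k :=
  fun a => trace (adjugate (Pv T z) * T a)

/-- the determinant cubic is nonsingular -/
def NS (T : Fin 3 → Matrix (Fin 3) (Fin 3) k) : Prop := ∀ z ≠ 0, gd T z ≠ 0

/-- the second slicing of a tensor -/
def sw (T : Fin 3 → Matrix (Fin 3) (Fin 3) k) : Fin 3 → Matrix (Fin 3) (Fin 3) k :=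
  fun l => Matrix.of fun a m => T a l m

theorem Pv_apply (T : Fin 3 → Matrix (Fin 3) (Fin 3) k) (z : Fin 3 → k) (i j : Fin 3) :
    Pv T z i j = z 0 * T 0 i j + z 1 * T 1 i j + z 2 * T 2 i j := by
  simp [Pv, Fin.sum_univ_three]

theorem par {g n : Fin 3 → k} (h : g ⨯₃ n = 0) {i : Fin 3} (hi : n i ≠ 0) :
    g = (g i / n i) • n := by
  have h0 := congrFun h 0
  have h1 := congrFun h 1
  have h2 := congrFun h 2
  simp only [cross_apply, cons_val_zero, cons_val_one, cons_val, Pi.zero_apply] at h0 h1 h2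
  ext j
  simp only [Pi.smul_apply, smul_eq_mul]
  field_simp
  fin_cases i <;> fin_cases j <;> simp only [Fin.reduceFinMk, Fin.zero_eta, Fin.mk_one, Fin.isValue] <;>
    first | ring1 | linear_combination h0 | linear_combination -h0 | linear_combination h1 |
      linear_combination -h1 | linear_combination h2 | linear_combination -h2

theorem adj_col (A : Matrix (Fin 3) (Fin 3) k) {u : Fin 3 → k} (h : A *ᵥ u = 0) (j : Fin 3) :
    (fun i => adjugate A i j) ⨯₃ u = 0 := by
  have e : ∀ a b : Fin 3, (A a ⨯₃ A b) ⨯₃ u = 0 := fun a b => by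
    have ha : A a ⬝ᵥ u = 0 := congrFun h a
    have hb : A b ⬝ᵥ u = 0 := congrFun h b
    rw [cross_cross_eq_smul_sub_smul, ha, hb]; simp
  have c : (fun i => adjugate A i j) = A (j + 1) ⨯₃ A (j + 2) := by
    ext i
    fin_cases j <;> fin_cases i <;> simp [adjugate_fin_three, cross_apply] <;> ring1
  rw [c, e]

theorem adj_rk (A : Matrix (Fin 3) (Fin 3) k) {u v : Fin 3 → k} (hu : A *ᵥ u = 0) (hv : v ᵥ* A = 0)
    (u0 : u ≠ 0) (v0 : v ≠ 0) : ∃ c : k, ∀ i j, adjugate A i j = c * u i * v j := by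
  obtain ⟨a, ha⟩ := Function.ne_iff.1 u0
  obtain ⟨b, hb⟩ := Function.ne_iff.1 v0
  have ha' : u a ≠ 0 := ha
  have hb' : v b ≠ 0 := hb
  refine ⟨adjugate A a b / (u a * v b), fun i j => ?_⟩
  have h1 := congrFun (par (adj_col A hu j) ha') i
  have hv' : Aᵀ *ᵥ v = 0 := by rw [mulVec_transpose, hv]
  have h2 := congrFun (par (adj_col Aᵀ hv' a) hb') j
  simp only [← adjugate_transpose, transpose_apply, Pi.smul_apply, smul_eq_mul] at h1 h2
  rw [h1, h2]; field_simp

theorem gd_dot (T : Fin 3 → Matrix (Fin 3) (Fin 3) k) (z w : Fin 3 → k) :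
    gd T z ⬝ᵥ w = trace (adjugate (Pv T z) * Pv T w) := by
  simp only [gd, dotProduct, Pv, Finset.mul_sum, trace_sum, Matrix.mul_smul, trace_smul, smul_eq_mul]
  exact Finset.sum_congr rfl fun a _ => mul_comm _ _

theorem tr_adj {R : Type} [CommRing R] (A B : Matrix (Fin 3) (Fin 3) R) : trace (adjugate A * B) =
    (A 1 1 * A 2 2 - A 1 2 * A 2 1) * B 0 0 + (A 0 2 * A 2 1 - A 0 1 * A 2 2) * B 1 0 +
    (A 0 1 * A 1 2 - A 0 2 * A 1 1) * B 2 0 + (A 1 2 * A 2 0 - A 1 0 * A 2 2) * B 0 1 +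
    (A 0 0 * A 2 2 - A 0 2 * A 2 0) * B 1 1 + (A 0 2 * A 1 0 - A 0 0 * A 1 2) * B 2 1 +
    (A 1 0 * A 2 1 - A 1 1 * A 2 0) * B 0 2 + (A 0 1 * A 2 0 - A 0 0 * A 2 1) * B 1 2 +
    (A 0 0 * A 1 1 - A 0 1 * A 1 0) * B 2 2 := by
  simp only [trace_fin_three, Matrix.mul_apply, Fin.sum_univ_three]
  simp [adjugate_fin_three]
  ring

theorem det_pm (A B : Matrix (Fin 3) (Fin 3) k) :
    (A + B).det - (A - B).det = 2 * trace (adjugate A * B) + 2 * B.det := by
  simp only [det_fin_three, tr_adj, Matrix.add_apply, Matrix.sub_apply]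
  ring

theorem adj_rows (A : Matrix (Fin 3) (Fin 3) k) (n t : Fin 3 → k) (h : ∀ a, A a = t a • n) :
    adjugate A = 0 := by
  have g : ∀ a b, A a b = t a * n b := fun a b => congrFun (h a) b
  ext a b
  fin_cases a <;> fin_cases b <;> simp [adjugate_fin_three, g] <;> ring1

theorem Pv_add (T : Fin 3 → Matrix (Fin 3) (Fin 3) k) (z w : Fin 3 → k) :
    Pv T (z + w) = Pv T z + Pv T w := by
  simp [Pv, add_smul, Finset.sum_add_distrib]

theorem Pv_sub (T : Fin 3 → Matrix (Fin 3) (Fin 3) k) (z w : Fin 3 → k) :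
    Pv T (z - w) = Pv T z - Pv T w := by
  simp [Pv, sub_smul, Finset.sum_sub_distrib]

theorem Pv_smul (T : Fin 3 → Matrix (Fin 3) (Fin 3) k) (c : k) (z : Fin 3 → k) :
    Pv T (c • z) = c • Pv T z := by
  simp [Pv, Finset.smul_sum, smul_smul]

theorem gd_quad (T : Fin 3 → Matrix (Fin 3) (Fin 3) k) (z w : Fin 3 → k) (i : Fin 3) :
    ∃ b : k, ∀ t : k, gd T (z + t • w) i = gd T w i * (t * t) + b * t + gd T z i := by
  refine ⟨gd T (z + w) i - gd T z i - gd T w i, fun t => ?_⟩
  simp only [gd, Pv_add, Pv_smul]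
  generalize Pv T z = A
  generalize Pv T w = B
  simp only [tr_adj, Matrix.add_apply, Matrix.smul_apply, smul_eq_mul]
  ring

/-- a nonsingular cubic contains no line -/
theorem NS.line [CharZero k] [IsAlgClosed k] {T : Fin 3 → Matrix (Fin 3) (Fin 3) k} (h : NS T)
    (S : Submodule k (Fin 3 → k)) (hS : 2 ≤ finrank k S) (h0 : ∀ z ∈ S, (Pv T z).det = 0) :
    False := by
  obtain ⟨f, hf⟩ := exists_linearIndependent_of_le_finrank hS
  have hf' : LinearIndependent k ![(f 0 : Fin 3 → k), (f 1 : Fin 3 → k)] := by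
    have := hf.map' S.subtype (Submodule.ker_subtype S)
    have e : ![(f 0 : Fin 3 → k), (f 1 : Fin 3 → k)] = S.subtype ∘ f := by
      ext1 i; fin_cases i <;> rfl
    rw [e]; exact this
  have hn := crossProduct_ne_zero_iff_linearIndependent.2 hf'
  obtain ⟨i, hi⟩ := Function.ne_iff.1 hn
  have hi' : ((f 0 : Fin 3 → k) ⨯₃ (f 1 : Fin 3 → k)) i ≠ 0 := hi
  have key : ∀ z ∈ S, gd T z i = 0 → z = 0 := by
    intro z hz hg
    by_contra hz0
    apply h z hz0
    have hd : ∀ w ∈ S, gd T z ⬝ᵥ w = 0 := fun w hw => by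
      have := det_pm (Pv T z) (Pv T w)
      rw [← Pv_add, ← Pv_sub, h0 _ (S.add_mem hz hw), h0 _ (S.sub_mem hz hw), h0 _ hw,
        ← gd_dot] at this
      linear_combination (-1 / 2 : k) * this
    have hc : gd T z ⨯₃ ((f 0 : Fin 3 → k) ⨯₃ (f 1 : Fin 3 → k)) = 0 := by
      rw [cross_cross_eq_smul_sub_smul', hd _ (f 1).2, dotProduct_comm, hd _ (f 0).2]; simp
    rw [par hc hi', hg]; simp
  by_cases h1 : gd T (f 1) i = 0
  · exact hf'.ne_zero 1 (key _ (f 1).2 h1)
  · obtain ⟨b, hb⟩ := gd_quad T (f 0) (f 1) i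
    obtain ⟨t, ht⟩ := exists_quadratic_eq_zero h1
      (IsAlgClosed.exists_eq_mul_self (discrim (gd T (f 1) i) b (gd T (f 0) i)))
    have := key _ (S.add_mem (f 0).2 (S.smul_mem t (f 1).2)) ((hb t).trans ht)
    have h2 := (LinearIndependent.pair_iff.1 hf' 1 t (by simpa using this)).1
    exact one_ne_zero h2

theorem finrank_perp (n : Fin 3 → k) :
    ∃ S : Submodule k (Fin 3 → k), 2 ≤ finrank k S ∧ ∀ z ∈ S, z ⬝ᵥ n = 0 := by
  refine ⟨LinearMap.ker ((dotProductBilin k k).flip n), ?_, fun z hz => by simpa using hz⟩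
  have h1 := LinearMap.finrank_range_add_finrank_ker ((dotProductBilin k k).flip n)
  have h2 : finrank k (LinearMap.range ((dotProductBilin k k (m := Fin 3)).flip n)) ≤ 1 := by
    simpa using Submodule.finrank_le (LinearMap.range ((dotProductBilin k k (m := Fin 3)).flip n))
  simp only [finrank_fintype_fun_eq_card, Fintype.card_fin] at h1
  omega

theorem vecMul_sw (T : Fin 3 → Matrix (Fin 3) (Fin 3) k) (z χ : Fin 3 → k) :
    z ᵥ* Pv (sw T) χ = χ ᵥ* Pv T z := by
  ext m
  simp only [vecMul, dotProduct, Pv_apply, sw, of_apply, Fin.sum_univ_three]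
  ring

/-- a matrix with zero adjugate has a two dimensional left kernel -/
theorem adj_zero (A : Matrix (Fin 3) (Fin 3) k) (h : adjugate A = 0) :
    ∃ S : Submodule k (Fin 3 → k), 2 ≤ finrank k S ∧ ∀ z ∈ S, z ᵥ* A = 0 := by
  by_cases h0 : A = 0
  · exact ⟨⊤, by simp, fun z _ => by simp [h0]⟩
  · obtain ⟨i, j, hij⟩ : ∃ i j, A i j ≠ 0 := by
      by_contra hc
      push Not at hc
      exact h0 (Matrix.ext hc)
    obtain ⟨S, h1, h2⟩ := finrank_perp (fun a => A a j)
    refine ⟨S, h1, fun z hz => ?_⟩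
    ext m
    have hc : (fun a => A a m) ⨯₃ (fun a => A a j) = 0 := by
      have e := fun a b => congrFun (congrFun h a) b
      have e0 := e 0; have e1 := e 1; have e2 := e 2
      have f00 := e0 0; have f01 := e0 1; have f02 := e0 2
      have f10 := e1 0; have f11 := e1 1; have f12 := e1 2
      have f20 := e2 0; have f21 := e2 1; have f22 := e2 2
      simp [adjugate_fin_three] at f00 f01 f02 f10 f11 f12 f20 f21 f22
      ext l
      fin_cases m <;> fin_cases j <;> fin_cases l <;> simp [cross_apply] <;>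
        first | ring1 | linear_combination f00 | linear_combination -f00 | linear_combination f01 |
          linear_combination -f01 | linear_combination f02 | linear_combination -f02 |
          linear_combination f10 | linear_combination -f10 | linear_combination f11 |
          linear_combination -f11 | linear_combination f12 | linear_combination -f12 |
          linear_combination f20 | linear_combination -f20 | linear_combination f21 |
          linear_combination -f21 | linear_combination f22 | linear_combination -f22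
    have hp := par hc (i := i) hij
    change z ⬝ᵥ (fun a => A a m) = 0
    rw [hp, dotProduct_smul, h2 z hz, smul_zero]

/-- the left kernel of a member of the second slicing has dimension at most one -/
theorem NS.left [CharZero k] [IsAlgClosed k] {T : Fin 3 → Matrix (Fin 3) (Fin 3) k} (h : NS T)
    {χ : Fin 3 → k} (hχ : χ ≠ 0) (S : Submodule k (Fin 3 → k)) (hS : 2 ≤ finrank k S)
    (h0 : ∀ z ∈ S, z ᵥ* Pv (sw T) χ = 0) : False :=
  h.line S hS fun z hz => exists_vecMul_eq_zero_iff.1 ⟨χ, hχ, by rw [← vecMul_sw, h0 z hz]⟩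

theorem NS.swap [CharZero k] [IsAlgClosed k] {T : Fin 3 → Matrix (Fin 3) (Fin 3) k} (h : NS T) :
    NS (sw T) := by
  intro χ hχ hg
  have hd : (Pv (sw T) χ).det = 0 := by
    have := gd_dot (sw T) χ χ
    rw [hg, zero_dotProduct, adjugate_mul, trace_smul, trace_one] at this
    simpa using this.symm
  obtain ⟨u, u0, hu⟩ := exists_mulVec_eq_zero_iff.2 hd
  obtain ⟨z, z0, hz⟩ := exists_vecMul_eq_zero_iff.2 hd
  obtain ⟨c, hc⟩ := adj_rk _ hu hz u0 z0
  by_cases c0 : c = 0
  · obtain ⟨S, h1, h2⟩ := adj_zero (Pv (sw T) χ) (by ext i j; simp [hc, c0])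
    exact h.left hχ S h1 h2
  · have hM : Pv T z *ᵥ u = 0 := by
      ext l
      have := congrFun hg l
      simp only [gd, trace_fin_three, Matrix.mul_apply, hc, Fin.sum_univ_three, sw, of_apply,
        Pi.zero_apply] at this
      apply mul_left_cancel₀ c0
      simp only [mulVec, dotProduct, Fin.sum_univ_three, Pv_apply, Pi.zero_apply]
      linear_combination this
    obtain ⟨c', hc'⟩ := adj_rk _ hM (by rw [← vecMul_sw, hz]) u0 hχ
    apply h z z0
    ext a
    have := congrFun hu a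
    simp only [mulVec, dotProduct, Fin.sum_univ_three, Pv_apply, sw, of_apply, Pi.zero_apply] at this
    simp only [gd, trace_fin_three, Matrix.mul_apply, hc', Fin.sum_univ_three, Pi.zero_apply]
    linear_combination c' * this

/-- the right kernel of a member of the second slicing has dimension at most one -/
theorem NS.right [CharZero k] [IsAlgClosed k] {T : Fin 3 → Matrix (Fin 3) (Fin 3) k} (h : NS T)
    {z : Fin 3 → k} (hz : z ≠ 0) {u v : Fin 3 → k} (hu : Pv T z *ᵥ u = 0) (hv : Pv T z *ᵥ v = 0) :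
    u ⨯₃ v = 0 := by
  by_contra hn
  obtain ⟨i, hi⟩ := Function.ne_iff.1 hn
  have hi' : (u ⨯₃ v) i ≠ 0 := hi
  have hr : ∀ a, Pv T z a = (Pv T z a i / (u ⨯₃ v) i) • (u ⨯₃ v) := fun a => by
    refine par ?_ hi'
    have h1 : Pv T z a ⬝ᵥ u = 0 := congrFun hu a
    have h2 : Pv T z a ⬝ᵥ v = 0 := congrFun hv a
    rw [cross_cross_eq_smul_sub_smul', h2, dotProduct_comm, h1]; simp
  apply h z hz
  have : adjugate (Pv T z) = 0 := adj_rows _ _ _ hr
  ext a
  simp [gd, this]

/-- the symmetrisation map is injective -/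
theorem NS.inj [CharZero k] {T : Fin 3 → Matrix (Fin 3) (Fin 3) k} (h : NS T) {η z : Fin 3 → k}
    (hη : Pv T η = 1) (hz : ∀ t : k, z ≠ t • η) (W : Matrix (Fin 3) (Fin 3) k)
    (hW : ∀ i j, W j i = -W i j) (h0 : ∀ i j, (W * Pv T z) i j + (W * Pv T z) j i = 0) : W = 0 := by
  have d : ∀ i, W i i = 0 := fun i => by linear_combination (1 / 2 : k) * hW i i
  set u : Fin 3 → k := ![W 1 2, W 2 0, W 0 1] with hu
  by_cases u0 : u = 0
  · have a0 : W 1 2 = 0 := congrFun u0 0
    have a1 : W 2 0 = 0 := congrFun u0 1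
    have a2 : W 0 1 = 0 := congrFun u0 2
    ext i j
    fin_cases i <;> fin_cases j <;>
      simp [d, a0, a1, a2, hW 0 1, hW 1 2, hW 2 0]
  exfalso
  obtain ⟨i, hi⟩ := Function.ne_iff.1 u0
  have hi' : u i ≠ 0 := hi
  have e10 := hW 0 1; have e21 := hW 1 2; have e02 := hW 2 0
  have hWv : ∀ (M : Matrix (Fin 3) (Fin 3) k) j,
      (fun a => (W * M) a j) = (fun a => M a j) ⨯₃ u := fun M j => by
    ext a
    fin_cases a <;>
      simp [hu, cross_apply, Matrix.mul_apply, Fin.sum_univ_three, d, e10, e21, e02] <;> ring1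
  set N := W * Pv T z with hN
  have hn : ∀ j, u 0 * N 0 j + u 1 * N 1 j + u 2 * N 2 j = 0 := fun j => by
    have := dot_cross_self (fun a => Pv T z a j) u
    rw [← hWv] at this
    simpa [dotProduct, Fin.sum_univ_three] using this
  set w : Fin 3 → k := ![N 1 2, N 2 0, N 0 1] with hw
  have hc : w ⨯₃ u = 0 := by
    ext l
    fin_cases l <;> simp [hw, cross_apply]
    · linear_combination hn 0 - (u 0 / 2) * h0 0 0 - u 1 * h0 0 1
    · linear_combination hn 1 - (u 1 / 2) * h0 1 1 - u 2 * h0 1 2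
    · linear_combination hn 2 - (u 2 / 2) * h0 2 2 - u 0 * h0 2 0
  have hp := par hc hi'
  generalize w i / u i = t at hp
  have p0 : N 1 2 = t * W 1 2 := congrFun hp 0
  have p1 : N 2 0 = t * W 2 0 := congrFun hp 1
  have p2 : N 0 1 = t * W 0 1 := congrFun hp 2
  have hNW : N = t • W := by
    ext a b
    fin_cases a <;> fin_cases b <;> simp [d, e10, e21, e02]
    · linear_combination (1 / 2 : k) * h0 0 0
    · exact p2
    · linear_combination h0 0 2 - p1
    · linear_combination h0 0 1 - p2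
    · linear_combination (1 / 2 : k) * h0 1 1
    · exact p0
    · exact p1
    · linear_combination h0 1 2 - p0
    · linear_combination (1 / 2 : k) * h0 2 2
  have hz0 : W * Pv T (z - t • η) = 0 := by
    rw [Pv_sub, Pv_smul, hη, Matrix.mul_sub, ← hN, hNW]; simp
  apply h (z - t • η) (sub_ne_zero.2 (hz t))
  have hadj : adjugate (Pv T (z - t • η))ᵀ = 0 := by
    refine adj_rows _ u (fun j => Pv T (z - t • η) i j / u i) fun j => par ?_ hi'
    have := hWv (Pv T (z - t • η)) j
    rw [hz0] at this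
    exact this.symm
  rw [← adjugate_transpose, transpose_eq_zero] at hadj
  ext a
  simp [gd, hadj]

end PV.O7
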