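import Pool.Agent.Lib.MP_36fb43_ag.KC
import Pool.Agent.Lib.MP_36fb43_ag.OscA

open MvPolynomial Matrix Module

namespace PV.O7

section dv
variable {R F σ : Type} [CommRing R] [Field F] [Algebra R F]

theorem dv_add (D : Derivation R F F) (v w : σ → F) : dv D (v + w) = dv D v + dv D w := by
  ext i; simp [dv]

theorem dv_sub (D : Derivation R F F) (v w : σ → F) : dv D (v - w) = dv D v - dv D w := by
  ext i; simp [dv]

theorem dv_smul (D : Derivation R F F) (c : F) (v : σ → F) :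
    dv D (c • v) = D c • v + c • dv D v := by
  ext i; simp [dv]; ring

theorem dv_zero (D : Derivation R F F) : dv D (0 : σ → F) = 0 := by
  ext i; simp [dv]

theorem dv_sum {ι : Type} (s : Finset ι) (D : Derivation R F F) (v : ι → σ → F) :
    dv D (∑ a ∈ s, v a) = ∑ a ∈ s, dv D (v a) := by
  ext i; simp [dv]

/-- `D ↦ D v` is linear -/
def dvL (R : Type) [CommRing R] [Algebra R F] (v : σ → F) : Derivation R F F →ₗ[F] (σ → F) where
  toFun D := dv D v
  map_add' D E := by ext i; simp [dv]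
  map_smul' c D := by ext i; simp [dv]

theorem dvL_apply (v : σ → F) (D : Derivation R F F) : dvL R v D = dv D v := rfl

theorem dv_dot [Fintype σ] (D : Derivation R F F) (v w : σ → F) :
    D (v ⬝ᵥ w) = dv D v ⬝ᵥ w + v ⬝ᵥ dv D w := by
  simp only [dotProduct, map_sum, Derivation.leibniz, dv, smul_eq_mul, ← Finset.sum_add_distrib]
  exact Finset.sum_congr rfl fun i _ => by ring

theorem dv_mulVec [Fintype σ] (D : Derivation R F F) (M : Matrix σ σ F) (w : σ → F) :
    dv D (M *ᵥ w) = M.map D *ᵥ w + M *ᵥ dv D w := by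
  ext i
  exact dv_dot D (M i) w

end dv

variable {k : Type} [Field k]

theorem det_blk (a q : Fin 3 → Fin 3 → k) :
    Matrix.det !![1, 0, 0, 0, 0, 0; 0, 1, 0, 0, 0, 0; 0, 0, 1, 0, 0, 0;
      a 0 0, a 0 1, a 0 2, q 0 0, q 0 1, q 0 2; a 1 0, a 1 1, a 1 2, q 1 0, q 1 1, q 1 2;
      a 2 0, a 2 1, a 2 2, q 2 0, q 2 1, q 2 2] = (Matrix.of q).det := by
  rw [det_fin_three]
  simp [det_succ_row_zero, Fin.sum_univ_succ, Fin.succAbove]
  ring

theorem quot_ex (μ : Fin 3 → Fin 6 → k) (h : LinearIndependent k μ) :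
    ∃ (Q : (Fin 6 → k) →ₗ[k] (Fin 3 → k)) (δ : k), δ ≠ 0 ∧
      (∀ v, Q v = 0 ↔ v ∈ Submodule.span k (Set.range μ)) ∧ Function.Surjective Q ∧
      ∀ v : Fin 3 → Fin 6 → k, (Matrix.of ![μ 0, μ 1, μ 2, v 0, v 1, v 2]).det =
        δ * (Matrix.of fun m => Q (v m)).det := by
  set U := Submodule.span k (Set.range μ) with hU
  have hr : finrank k ((Fin 6 → k) ⧸ U) = 3 := by
    have h1 := U.finrank_quotient_add_finrank
    have h2 : finrank k U = 3 := by rw [hU, finrank_span_eq_card h]; simp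
    simp only [finrank_fintype_fun_eq_card, Fintype.card_fin] at h1
    omega
  let b := finBasisOfFinrankEq k _ hr
  let Q : (Fin 6 → k) →ₗ[k] (Fin 3 → k) := b.equivFun.toLinearMap ∘ₗ U.mkQ
  have hk : ∀ v, Q v = 0 ↔ v ∈ U := fun v => by simp [Q]
  have hs : Function.Surjective Q := b.equivFun.surjective.comp U.mkQ_surjective
  choose c hc using fun m : Fin 3 => hs (Pi.single m 1)
  have hμ : ∀ a, Q (μ a) = 0 := fun a => (hk _).2 (Submodule.subset_span ⟨a, rfl⟩)
  refine ⟨Q, (Matrix.of ![μ 0, μ 1, μ 2, c 0, c 1, c 2]).det, ?_, hk, hs, fun v => ?_⟩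
  · intro h0
    obtain ⟨g, g0, hg⟩ := exists_vecMul_eq_zero_iff.2 h0
    have e : g 0 • μ 0 + g 1 • μ 1 + g 2 • μ 2 + g 3 • c 0 + g 4 • c 1 + g 5 • c 2 = 0 := by
      rw [← hg]; ext i; simp [vecMul, dotProduct, Fin.sum_univ_six]
    have e1 := congrArg Q e
    simp only [map_add, map_smul, hμ, hc, map_zero] at e1
    have g3 : g 3 = 0 := by simpa using congrFun e1 0
    have g4 : g 4 = 0 := by simpa using congrFun e1 1
    have g5 : g 5 = 0 := by simpa using congrFun e1 2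
    have e2 := Fintype.linearIndependent_iff.1 h ![g 0, g 1, g 2]
      (by simpa [g3, g4, g5, Fin.sum_univ_three] using e)
    apply g0
    ext i
    fin_cases i
    exacts [e2 0, e2 1, e2 2, g3, g4, g5]
  · have hm : ∀ m, ∃ a : Fin 3 → k, ∑ i, a i • μ i = v m - ∑ l, Q (v m) l • c l := fun m => by
      refine (Submodule.mem_span_range_iff_exists_fun k).1 ((hk _).1 ?_)
      rw [map_sub, map_sum]
      ext l
      simp [hc, Pi.single_apply]
    choose a ha using hm
    rw [← det_blk a (fun m => Q (v m)), mul_comm, ← det_mul]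
    congr 1
    have hv : ∀ m i, v m i = a m 0 * μ 0 i + a m 1 * μ 1 i + a m 2 * μ 2 i +
        Q (v m) 0 * c 0 i + Q (v m) 1 * c 1 i + Q (v m) 2 * c 2 i := fun m i => by
      have := congrFun (ha m) i
      simp only [Fin.sum_univ_three, Pi.add_apply, Pi.smul_apply, smul_eq_mul, Pi.sub_apply] at this
      linear_combination -this
    ext i j
    rw [Matrix.mul_apply, Fin.sum_univ_six]
    fin_cases i <;> simp
    exacts [hv 0 j, hv 1 j, hv 2 j]

theorem ns_of [Infinite k] (T : Fin 3 → Matrix (Fin 3) (Fin 3) k) (e : MvPolynomial (Fin 3) k) (c : k)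
    (hc : c ≠ 0) (h : ∀ z, (Pv T z).det = c * eval z e) (hs : ∀ z : Fin 3 → k, z ≠ 0 → gr e z ≠ 0) :
    NS T := by
  intro z hz hg
  apply hs z hz
  let L : Matrix (Fin 3) (Fin 3) (MvPolynomial (Fin 3) k) := fun i j => ∑ a, C (T a i j) * X a
  have hL : ∀ w i j, eval w (L i j) = Pv T w i j := fun w i j => by
    simp only [L, Pv_apply, Fin.sum_univ_three, map_add, map_mul, eval_C, eval_X]; ring
  have h1 : L.det = C c * e := by
    apply MvPolynomial.funext
    intro w
    rw [map_mul, eval_C, ← h, det_fin_three, det_fin_three]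
    simp only [map_add, map_sub, map_mul, hL]
  ext a
  have hd : ∀ i j, pderiv a (L i j) = C (T a i j) := fun i j => by
    simp [L, pderiv_X, Pi.single_apply]
  have h2 := congrArg (fun f => eval z (pderiv a f)) h1
  simp only [det_fin_three, map_add, map_sub, Derivation.leibniz, smul_eq_mul, map_mul, hd, hL,
    eval_C, pderiv_C, mul_zero, add_zero] at h2
  have h3 := congrFun hg a
  simp only [gd, tr_adj, Pi.zero_apply] at h3
  apply mul_left_cancel₀ hc
  simp only [gr, aeval_eq_eval, Pi.zero_apply, mul_zero]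
  linear_combination h3 - h2

variable [Algebra ℂ k]

/-- a frame of the focal tensor of a plane, normalised at a non focal point -/
structure Fr (μ : Fin 3 → Fin 6 → k) (y : Fin 6 → k) where
  Q : (Fin 6 → k) →ₗ[k] (Fin 3 → k)
  ker : ∀ v, Q v = 0 ↔ v ∈ Submodule.span k (Set.range μ)
  D : Fin 3 → Derivation ℂ k k
  hD : ∀ m, Q (dv (D m) y) = Pi.single m 1
  ns : NS fun a => Matrix.of fun l m => Q (dv (D m) (μ a)) l

/-- the focal tensor -/
def Fr.T {μ : Fin 3 → Fin 6 → k} {y : Fin 6 → k} (f : Fr μ y) : Fin 3 → Matrix (Fin 3) (Fin 3) k :=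
  fun a => Matrix.of fun l m => f.Q (dv (f.D m) (μ a)) l

theorem Q_dv {μ : Fin 3 → Fin 6 → k} (Q : (Fin 6 → k) →ₗ[k] (Fin 3 → k))
    (hk : ∀ v, Q v = 0 ↔ v ∈ Submodule.span k (Set.range μ)) (D : Derivation ℂ k k)
    (z : Fin 3 → k) : Q (dv D (∑ a, z a • μ a)) = Q (∑ a, z a • dv D (μ a)) := by
  have hμ : ∀ a, Q (μ a) = 0 := fun a => (hk _).2 (Submodule.subset_span ⟨a, rfl⟩)
  simp [dv_sum, dv_smul, hμ]

theorem fr_ex {Z : Cone ℂ 6} {s : Sect Z 2} {p : Fin 6 → k} (hp : GenPt p) (P : Plane s p)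
    {y : Fin 6 → k} (hy : y ∈ P.U) (ey : eval (y ∘ P.ι) P.e ≠ 0)
    (sm : ∀ z : Fin 3 → k, z ≠ 0 → gr P.e z ≠ 0) : Nonempty (Fr P.μ y) := by
  have : CharZero k := charZero_of_injective_algebraMap (algebraMap ℂ k).injective
  obtain ⟨Q, δ, hδ, hk, hs, hdet⟩ := quot_ex P.μ P.ech.li
  have foc : ∀ D : Fin 3 → Derivation ℂ k k, ∃ t : k, ∀ z : Fin 3 → k,
      δ * (Matrix.of fun m => Q (dv (D m) (∑ a, z a • P.μ a))).det = t * eval z P.e := fun D => by
    obtain ⟨t, ht⟩ := P.foc D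
    refine ⟨t, fun z => ?_⟩
    rw [← ht z, hdet fun m => ∑ a, z a • dv (D m) (P.μ a)]
    simp only [Q_dv Q hk]
  have rp : ∑ a, (p ∘ P.ι) a • P.μ a = p := (P.ech.repr P.pm).symm
  have ry : ∑ a, (y ∘ P.ι) a • P.μ a = y := (P.ech.repr hy).symm
  choose c hc using fun m : Fin 3 => hs (Pi.single m 1)
  choose E hE using fun m => hp.ex (c m)
  have one : ∀ v : Fin 3 → Fin 3 → k, (∀ m, v m = Pi.single m 1) → (Matrix.of v).det = 1 := by
    intro v hv
    have : Matrix.of v = 1 := by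
      ext i j; simp [hv, Pi.single_apply, one_apply, eq_comm]
    rw [this, det_one]
  obtain ⟨t, ht⟩ := foc E
  have t0 : t ≠ 0 := by
    have := ht (p ∘ P.ι)
    rw [rp, one _ (fun m => by rw [hE, hc]), mul_one] at this
    rintro rfl
    exact hδ (by simpa using this)
  have hB := ht (y ∘ P.ι)
  rw [ry] at hB
  set B : Matrix (Fin 3) (Fin 3) k := Matrix.of fun m => Q (dv (E m) y) with hBd
  have B0 : IsUnit B.det := by
    refine isUnit_iff_ne_zero.2 fun h0 => ?_
    rw [h0, mul_zero] at hB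
    exact mul_ne_zero t0 ey hB.symm
  let D : Fin 3 → Derivation ℂ k k := fun m => ∑ n, B⁻¹ m n • E n
  have hD : ∀ m, Q (dv (D m) y) = Pi.single m 1 := fun m => by
    rw [← dvL_apply]
    simp only [D, map_sum, map_smul, dvL_apply]
    ext l
    have := congrFun (congrFun (nonsing_inv_mul B B0) m) l
    simpa [Matrix.mul_apply, hBd, one_apply, Pi.single_apply, eq_comm] using this
  obtain ⟨t', ht'⟩ := foc D
  have t1 : t' ≠ 0 := by
    have := ht' (y ∘ P.ι)
    rw [ry, one _ hD, mul_one] at this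
    rintro rfl
    exact hδ (by simpa using this)
  refine ⟨⟨Q, hk, D, hD, ns_of _ P.e (t' / δ) (div_ne_zero t1 hδ) (fun z => ?_) sm⟩⟩
  rw [div_mul_eq_mul_div, ← ht' z, mul_div_cancel_left₀ _ hδ, ← det_transpose]
  congr 1
  ext m l
  simp [Q_dv Q hk, Pv, Matrix.sum_apply]

section fr
variable {μ : Fin 3 → Fin 6 → k} {y : Fin 6 → k}

theorem Fr.Pv_eq (f : Fr μ y) (z : Fin 3 → k) (l m : Fin 3) :
    Pv f.T z l m = f.Q (dv (f.D m) (∑ a, z a • μ a)) l := by
  simp [Q_dv f.Q f.ker, Pv, Matrix.sum_apply, Fr.T]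

theorem Fr.one (f : Fr μ y) {η : Fin 3 → k} (h : ∑ a, η a • μ a = y) : Pv f.T η = 1 := by
  ext l m
  rw [f.Pv_eq, h, f.hD]
  simp [one_apply, Pi.single_apply]

theorem Fr.dec (f : Fr μ y) (v : Fin 6 → k) :
    v - ∑ l, f.Q v l • dv (f.D l) y ∈ Submodule.span k (Set.range μ) := by
  rw [← f.ker, map_sub, map_sum]
  ext l
  simp [f.hD, Pi.single_apply]

/-- a vector killed by the plane pairs through the quotient -/
theorem Fr.dot (f : Fr μ y) (w : Fin 6 → k) (hw : ∀ z ∈ Submodule.span k (Set.range μ), w ⬝ᵥ z = 0)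
    (v : Fin 6 → k) : w ⬝ᵥ v = ∑ l, f.Q v l * (w ⬝ᵥ dv (f.D l) y) := by
  have := hw _ (f.dec v)
  rw [dotProduct_sub, sub_eq_zero] at this
  rw [this, dotProduct_sum]
  simp

end fr

end PV.O7
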