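import Pool.Agent.Lib.MP_36fb43_ag.PalB

open Matrix Module

namespace PV.O7

variable {k : Type} [Field k]

theorem pencil [IsAlgClosed k] {V W : Type} [AddCommGroup V] [Module k V] [AddCommGroup W]
    [Module k W] [FiniteDimensional k V] (N : Submodule k V) (S1 S2 : V →ₗ[k] W)
    (h1 : ∀ x ∈ N, S1 x = 0 → x = 0) (h2 : ∀ x ∈ N, ∃ x' ∈ N, S2 x = S1 x')
    (h3 : ∀ (t : k), ∀ x ∈ N, S2 x = t • S1 x → x = 0) : N = ⊥ := by
  by_contra h0
  have : Nontrivial N := Submodule.nontrivial_iff_ne_bot.2 h0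
  have hi : Function.Injective (S1.domRestrict N) :=
    (injective_iff_map_eq_zero _).2 fun x hx => Subtype.ext (h1 x x.2 hx)
  let e := LinearEquiv.ofInjective _ hi
  let g : N →ₗ[k] LinearMap.range (S1.domRestrict N) :=
    (S2.domRestrict N).codRestrict _ fun x => by
      obtain ⟨x', hx', e⟩ := h2 x x.2
      exact ⟨⟨x', hx'⟩, e.symm⟩
  obtain ⟨t, ht⟩ := Module.End.exists_eigenvalue (e.symm.toLinearMap ∘ₗ g)
  obtain ⟨x, hx⟩ := ht.exists_hasEigenvector
  have h4 : e.symm (g x) = t • x := hx.apply_eq_smul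
  have h5 : g x = t • e x := by rw [← map_smul, ← h4]; simp
  exact hx.2 (Subtype.ext (h3 t x x.2 (congrArg Subtype.val h5)))

variable [Algebra ℂ k]

section jets
variable {σ : Type} [Fintype σ]

omit [Fintype σ] in
theorem dv_lie (D E : Derivation ℂ k k) (v : σ → k) :
    dv ⁅D, E⁆ v = dv D (dv E v) - dv E (dv D v) := rfl

/-- annihilator of the first order jets of `G` -/
def O1 (G : σ → k) : Submodule k (σ → k) where
  carrier := {w | w ⬝ᵥ G = 0 ∧ ∀ D : Derivation ℂ k k, w ⬝ᵥ dv D G = 0}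
  add_mem' := fun ha hb => ⟨by simp [ha.1, hb.1], fun D => by simp [ha.2 D, hb.2 D]⟩
  zero_mem' := ⟨by simp, fun D => by simp⟩
  smul_mem' := fun c _ ha => ⟨by simp [ha.1], fun D => by simp [ha.2 D]⟩

/-- the second order pairing -/
def β (G : σ → k) : (σ → k) →ₗ[k] (Derivation ℂ k k → Derivation ℂ k k → k) where
  toFun w D D' := w ⬝ᵥ dv D (dv D' G)
  map_add' a b := by ext D D'; simp
  map_smul' c a := by ext D D'; simp

theorem β_apply (G w : σ → k) (D D' : Derivation ℂ k k) : β G w D D' = w ⬝ᵥ dv D (dv D' G) := rfl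

/-- annihilator of the second order jets of `G` -/
def O2 (G : σ → k) : Submodule k (σ → k) := O1 G ⊓ LinearMap.ker (β G)

theorem β_symm {G w : σ → k} (h : w ∈ O1 G) (D D' : Derivation ℂ k k) :
    β G w D D' = β G w D' D := by
  have := h.2 ⁅D, D'⁆
  rwa [dv_lie, dotProduct_sub, sub_eq_zero] at this

theorem O1_smul {G w : σ → k} (h : w ∈ O1 G) (c : k) : w ∈ O1 (c • G) :=
  ⟨by simp [h.1], fun D => by simp [dv_smul, h.1, h.2 D]⟩

theorem β_smul {G w : σ → k} (h : w ∈ O1 G) (c : k) : β (c • G) w = c • β G w := by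
  ext D D'
  simp [β_apply, dv_smul, dv_add, h.1, h.2]

theorem O2_smul {G w : σ → k} (h : w ∈ O2 G) (c : k) : w ∈ O2 (c • G) :=
  ⟨O1_smul h.1 c, by rw [SetLike.mem_coe, LinearMap.mem_ker, β_smul h.1, h.2, smul_zero]⟩

theorem O2_smul_eq (G : σ → k) {c : k} (hc : c ≠ 0) : O2 (c • G) = O2 G := by
  refine le_antisymm (fun w h => ?_) fun w h => O2_smul h c
  have := O2_smul h c⁻¹
  rwa [smul_smul, inv_mul_cancel₀ hc, one_smul] at this

theorem O1_sum {ι : Type} [Fintype ι] {G : ι → σ → k} {w : σ → k} (h : ∀ a, w ∈ O1 (G a))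
    (z : ι → k) : w ∈ O1 (∑ a, z a • G a) :=
  ⟨by simp [dotProduct_sum, fun a => (h a).1], fun D => by
    rw [dv_sum, dotProduct_sum]
    exact Finset.sum_eq_zero fun a _ => (O1_smul (h a) (z a)).2 D⟩

theorem β_sum {ι : Type} [Fintype ι] {G : ι → σ → k} {w : σ → k} (h : ∀ a, w ∈ O1 (G a))
    (z : ι → k) : β (∑ a, z a • G a) w = ∑ a, z a • β (G a) w := by
  ext D D'
  rw [β_apply, dv_sum, dv_sum, dotProduct_sum, Finset.sum_apply, Finset.sum_apply]
  exact Finset.sum_congr rfl fun a _ => by rw [← β_smul (h a)]; rfl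

/-- the derivative of a bilinear expression in two derivations -/
def δ (E : Derivation ℂ k k) (Φ : Derivation ℂ k k → Derivation ℂ k k → k) :
    Derivation ℂ k k → Derivation ℂ k k → k :=
  fun D D' => E (Φ D D') - Φ ⁅E, D⁆ D' - Φ D ⁅E, D'⁆

theorem δ_zero (E : Derivation ℂ k k) : δ E 0 = 0 := by
  ext D D'; simp [δ]

theorem δ_smul (E : Derivation ℂ k k) (c : k) (Φ : Derivation ℂ k k → Derivation ℂ k k → k) :
    δ E (c • Φ) = E c • Φ + c • δ E Φ := by
  ext D D'; simp [δ]; ring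

theorem δ_sum {ι : Type} [Fintype ι] (E : Derivation ℂ k k)
    (Φ : ι → Derivation ℂ k k → Derivation ℂ k k → k) : δ E (∑ a, Φ a) = ∑ a, δ E (Φ a) := by
  ext D D'; simp [δ, Finset.sum_apply]

theorem β_dv (E : Derivation ℂ k k) (G w : σ → k) :
    β G (dv E w) = δ E (β G w) - β (dv E G) w := by
  ext D D'
  simp only [δ, β_apply, Pi.sub_apply, dv_dot, dv_lie, dv_sub, dotProduct_sub]
  ring

theorem O1_dv (E : Derivation ℂ k k) {G w : σ → k} (h : w ∈ O1 G) (h' : w ∈ O1 (dv E G)) :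
    dv E w ∈ O1 G := by
  refine ⟨?_, fun D => ?_⟩
  · have := dv_dot E w G
    rw [h.1, h.2 E, map_zero, add_zero] at this
    exact this.symm
  · have := dv_dot E w (dv D G)
    have h1 := h.2 ⁅E, D⁆
    rw [dv_lie, dotProduct_sub, h'.2 D] at h1
    rw [h.2 D, map_zero] at this
    linear_combination -this - h1

theorem O2_dv (E : Derivation ℂ k k) {G w : σ → k} (h : w ∈ O2 G) (h' : w ∈ O2 (dv E G)) :
    dv E w ∈ O2 G :=
  ⟨O1_dv E h.1 h'.1, by
    rw [SetLike.mem_coe, LinearMap.mem_ker, β_dv, h.2, h'.2, δ_zero, sub_zero]⟩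

theorem O2_O1 (E : Derivation ℂ k k) {G w : σ → k} (h : w ∈ O2 G) : w ∈ O1 (dv E G) :=
  ⟨h.1.2 E, fun D => congrFun (congrFun (LinearMap.mem_ker.1 h.2) D) E⟩

end jets

/-- a vector indexed by pairs, seen as a matrix -/
def mt (w : Fin 6 × Fin 6 → k) : Matrix (Fin 6) (Fin 6) k := Matrix.of fun i j => w (i, j)

/-- the wedge of two vectors -/
def wg (a b : Fin 6 → k) : Fin 6 × Fin 6 → k := fun e => a e.1 * b e.2 - b e.1 * a e.2

/-- skew forms -/
def Sk (k : Type) [Field k] : Submodule k (Fin 6 × Fin 6 → k) where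
  carrier := {w | ∀ i j, w (j, i) = -w (i, j)}
  add_mem' := fun ha hb i j => by simp [ha i j, hb i j, add_comm]
  zero_mem' := fun i j => by simp
  smul_mem' := fun c _ ha i j => by simp [ha i j]

theorem Sk_dv (E : Derivation ℂ k k) {w : Fin 6 × Fin 6 → k} (h : w ∈ Sk k) : dv E w ∈ Sk k :=
  fun i j => by simp [dv, h i j]

theorem dv_wg (E : Derivation ℂ k k) (a b : Fin 6 → k) :
    dv E (wg a b) = wg (dv E a) b + wg a (dv E b) := by
  ext e; simp [dv, wg]; ring

omit [Algebra ℂ k]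

theorem Sk_mt {w : Fin 6 × Fin 6 → k} (h : w ∈ Sk k) : (mt w)ᵀ = -mt w := by
  ext i j; exact h i j

theorem mt_add (v w : Fin 6 × Fin 6 → k) : mt (v + w) = mt v + mt w := rfl
theorem mt_smul (c : k) (w : Fin 6 × Fin 6 → k) : mt (c • w) = c • mt w := rfl

theorem dot_wg {w : Fin 6 × Fin 6 → k} (h : w ∈ Sk k) (a b : Fin 6 → k) :
    w ⬝ᵥ wg a b = 2 * (a ⬝ᵥ mt w *ᵥ b) := by
  have e : ∀ a b : Fin 6 → k, a ⬝ᵥ mt w *ᵥ b = ∑ e : Fin 6 × Fin 6, w e * (a e.1 * b e.2) := by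
    intro a b
    simp only [dotProduct, mulVec, mt, of_apply, Fintype.sum_prod_type, Finset.mul_sum]
    exact Finset.sum_congr rfl fun i _ => Finset.sum_congr rfl fun j _ => by ring
  have h1 := skew_dot (Sk_mt h) b a
  have h2 : w ⬝ᵥ wg a b = a ⬝ᵥ mt w *ᵥ b - b ⬝ᵥ mt w *ᵥ a := by
    rw [e, e, ← Finset.sum_sub_distrib]
    exact Finset.sum_congr rfl fun i _ => mul_sub _ _ _
  rw [h2, h1]; ring

theorem wg_add (a b c : Fin 6 → k) : wg (a + b) c = wg a c + wg b c := by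
  ext e; simp [wg]; ring

theorem wg_smul (t : k) (a c : Fin 6 → k) : wg (t • a) c = t • wg a c := by
  ext e; simp [wg]; ring

theorem wg_smul' (t : k) (a c : Fin 6 → k) : wg a (t • c) = t • wg a c := by
  ext e; simp [wg]; ring

theorem wg_zero (a : Fin 6 → k) : wg 0 a = 0 := by
  ext e; simp [wg]

theorem wg_zero' (a : Fin 6 → k) : wg a 0 = 0 := by
  ext e; simp [wg]

theorem wg_sum (a : Fin 6 → k) (z : Fin 3 → k) (μ : Fin 3 → Fin 6 → k) :
    wg a (∑ i, z i • μ i) = ∑ i, z i • wg a (μ i) := by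
  ext e; simp [wg, Fin.sum_univ_three]; ring

/-- the skew form with given entries above the diagonal -/
def sk : ({e : Fin 6 × Fin 6 // e.1 < e.2} → k) →ₗ[k] (Fin 6 × Fin 6 → k) where
  toFun a e := if h : e.1 < e.2 then a ⟨e, h⟩ else if h : e.2 < e.1 then -a ⟨(e.2, e.1), h⟩ else 0
  map_add' a b := by ext e; simp only [Pi.add_apply]; split_ifs <;> ring
  map_smul' c a := by
    ext e; simp only [Pi.smul_apply, smul_eq_mul, RingHom.id_apply]; split_ifs <;> ring

theorem sk_mem (a : {e : Fin 6 × Fin 6 // e.1 < e.2} → k) : sk a ∈ Sk k := fun i j => by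
  simp only [sk, LinearMap.coe_mk, AddHom.coe_mk]
  rcases lt_trichotomy i j with h | rfl | h
  · simp [h, h.not_gt]
  · simp
  · simp [h, h.not_gt]

theorem sk_inj {a : {e : Fin 6 × Fin 6 // e.1 < e.2} → k} (h : sk a = 0) : a = 0 := by
  ext e
  simpa [sk, e.2] using congrFun h e.1

/-- eleven linear conditions on skew forms leave four dimensions -/
theorem four_le {ι : Type} [Fintype ι] (hι : Fintype.card ι = 11) (G : ι → Fin 6 × Fin 6 → k)
    (S : Submodule k (Fin 6 × Fin 6 → k)) (h : ∀ w ∈ Sk k, (∀ i, w ⬝ᵥ G i = 0) → w ∈ S) :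
    4 ≤ finrank k S := by
  let φ : ({e : Fin 6 × Fin 6 // e.1 < e.2} → k) →ₗ[k] (ι → k) :=
    LinearMap.pi fun i => ((dotProductBilin k k).flip (G i)).comp sk
  have h1 := LinearMap.finrank_range_add_finrank_ker φ
  have h2 := Submodule.finrank_le (LinearMap.range φ)
  have h3 : Fintype.card {e : Fin 6 × Fin 6 // e.1 < e.2} = 15 := by decide
  simp only [finrank_fintype_fun_eq_card, hι, h3] at h1 h2
  have h4 : (LinearMap.ker φ).map sk ≤ S := by
    rintro _ ⟨a, ha, rfl⟩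
    exact h _ (sk_mem a) fun i => congrFun (LinearMap.mem_ker.1 ha) i
  have h5 := Submodule.finrank_mono h4
  rw [fin_map _ _ fun a _ => sk_inj] at h5
  omega

end PV.O7
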