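import Pool.Agent.Lib.MP_36fb43_ag.OscC

open Matrix Module

namespace PV.O7

variable {k : Type} [Field k] [Algebra ℂ k]

/-- one plane with its residual point, normalised -/
structure Loc (p : Fin 6 → k) (μ : Fin 3 → Fin 6 → k) (y : Fin 6 → k) extends Fr μ y where
  ex : ∀ v, ∃ D : Derivation ℂ k k, dv D p = v
  li : LinearIndependent k μ
  η : Fin 3 → k
  hη : ∑ a, η a • μ a = y
  a0 : Fin 3
  ha0 : η a0 ≠ 0
  ζ : Fin 3 → k
  hζ : ∑ a, ζ a • μ a = p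
  np : ∀ t : k, p ≠ t • y
  stab : ∀ D : Derivation ℂ k k, dv D p ∈ Submodule.span k (Set.range μ) →
    (∀ a, dv D (μ a) = 0) ∧ dv D y = 0

variable {p y : Fin 6 → k} {μ : Fin 3 → Fin 6 → k}

/-- forms killing the first order jets of the lines of the plane through the point -/
def W1 (μ : Fin 3 → Fin 6 → k) (y : Fin 6 → k) : Submodule k (Fin 6 × Fin 6 → k) :=
  Sk k ⊓ ⨅ a, O1 (wg y (μ a))

/-- forms with the plane in the kernel -/
def La (μ : Fin 3 → Fin 6 → k) : Submodule k (Fin 6 × Fin 6 → k) where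
  carrier := {w | w ∈ Sk k ∧ ∀ a, mt w *ᵥ μ a = 0}
  add_mem' := fun ha hb => ⟨(Sk k).add_mem ha.1 hb.1, fun a => by
    rw [mt_add, add_mulVec, ha.2, hb.2, add_zero]⟩
  zero_mem' := ⟨(Sk k).zero_mem, fun a => zero_mulVec _⟩
  smul_mem' := fun c _ ha => ⟨(Sk k).smul_mem c ha.1, fun a => by
    rw [mt_smul, Matrix.smul_mulVec, ha.2, smul_zero]⟩

/-- the second order obstruction in the direction `z` -/
noncomputable def Th (μ : Fin 3 → Fin 6 → k) (y : Fin 6 → k) (z : Fin 3 → k) :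
    (Fin 6 × Fin 6 → k) →ₗ[k] (Derivation ℂ k k → Derivation ℂ k k → k) :=
  ∑ a, z a • β (wg y (μ a))

theorem Th_apply (z : Fin 3 → k) (w : Fin 6 × Fin 6 → k) :
    Th μ y z w = ∑ a, z a • β (wg y (μ a)) w := by
  simp [Th]

theorem mem_W1 {w : Fin 6 × Fin 6 → k} :
    w ∈ W1 μ y ↔ w ∈ Sk k ∧ ∀ a, w ∈ O1 (wg y (μ a)) := by
  simp [W1]

omit [Algebra ℂ k] in
theorem La_U {w : Fin 6 × Fin 6 → k} (h : w ∈ La μ) {z : Fin 6 → k}
    (hz : z ∈ Submodule.span k (Set.range μ)) : mt w *ᵥ z = 0 := by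
  obtain ⟨c, rfl⟩ := (Submodule.mem_span_range_iff_exists_fun k).1 hz
  simp [mulVec_sum, mulVec_smul, h.2]

theorem Loc.yU (L : Loc p μ y) : y ∈ Submodule.span k (Set.range μ) := L.hη ▸ mem_mu μ L.η

theorem Loc.iff (L : Loc p μ y) {w : Fin 6 × Fin 6 → k} :
    w ∈ Sk k ⊓ O2 (wg y p) ↔ w ∈ W1 μ y ∧ Th μ y L.ζ w = 0 := by
  have e : wg y p = ∑ a, L.ζ a • wg y (μ a) := by rw [← wg_sum, L.hζ]
  constructor
  · rintro ⟨h1, h2⟩
    have h3 : ∀ a, w ∈ O1 (wg y (μ a)) := fun a => by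
      obtain ⟨E, hE⟩ := L.ex (μ a)
      have := O2_O1 E h2
      rwa [dv_wg, (L.stab E (hE ▸ Submodule.subset_span ⟨a, rfl⟩)).2, hE, wg_zero, zero_add] at this
    refine ⟨mem_W1.2 ⟨h1, h3⟩, ?_⟩
    rw [Th_apply, ← β_sum h3, ← e]
    exact h2.2
  · rintro ⟨h1, h2⟩
    obtain ⟨h1, h3⟩ := mem_W1.1 h1
    refine ⟨h1, e ▸ O1_sum h3 _, ?_⟩
    rw [SetLike.mem_coe, LinearMap.mem_ker, e, β_sum h3, ← Th_apply, h2]

theorem Fr.bil (f : Fr μ y) (M : Matrix (Fin 6) (Fin 6) k) (w : Fin 6 → k)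
    (hw : ∀ z ∈ Submodule.span k (Set.range μ), w ⬝ᵥ M *ᵥ z = 0) (v : Fin 6 → k) :
    w ⬝ᵥ M *ᵥ v = ∑ l, f.Q v l * (w ⬝ᵥ M *ᵥ dv (f.D l) y) := by
  simp only [dotProduct_mulVec] at hw ⊢
  exact f.dot _ hw v

theorem Loc.inj (L : Loc p μ y) {w : Fin 6 × Fin 6 → k} (hw : w ∈ La μ) {z : Fin 3 → k}
    (hz : ∀ t : k, z ≠ t • L.η) (h : Th μ y z w = 0) : w = 0 := by
  have : CharZero k := charZero_of_injective_algebraMap (algebraMap ℂ k).injective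
  have sk := skew_dot (Sk_mt hw.1)
  have bil : ∀ u v, u ⬝ᵥ mt w *ᵥ v = ∑ l, L.Q v l * (u ⬝ᵥ mt w *ᵥ dv (L.D l) y) := fun u v =>
    L.toFr.bil _ u (fun z hz => by rw [La_U hw hz, dotProduct_zero]) v
  have hy : ∀ v, y ⬝ᵥ mt w *ᵥ v = 0 := fun v => by rw [sk, La_U hw L.yU]; simp
  let W : Matrix (Fin 3) (Fin 3) k := fun l n => dv (L.D l) y ⬝ᵥ mt w *ᵥ dv (L.D n) y
  have hb : ∀ a m l, β (wg y (μ a)) w (L.D m) (L.D l) =
      2 * ((W * L.toFr.T a) l m + (W * L.toFr.T a) m l) := fun a m l => by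
    simp only [β_apply, dv_wg, dv_add, dotProduct_add, dot_wg hw.1, hw.2, hy, dotProduct_zero]
    rw [bil _ (dv (L.D m) (μ a)), bil _ (dv (L.D l) (μ a))]
    rw [Matrix.mul_apply, Matrix.mul_apply]
    simp only [W, Fr.T, of_apply, Fin.sum_univ_three]
    ring
  have hW : W = 0 := by
    refine NS.inj L.ns (L.toFr.one L.hη) hz W (fun i j => sk _ _) fun i j => ?_
    have := congrFun (congrFun h (L.D j)) (L.D i)
    rw [Th_apply] at this
    simp only [Fin.sum_univ_three, Pi.add_apply, Pi.smul_apply, hb, smul_eq_mul, Pi.zero_apply,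
      Matrix.mul_apply] at this
    change (W * Pv L.toFr.T z) i j + (W * Pv L.toFr.T z) j i = 0
    simp only [Matrix.mul_apply, Pv_apply, Fin.sum_univ_three]
    linear_combination (1 / 2 : k) * this
  have h0 : ∀ u v, u ⬝ᵥ mt w *ᵥ v = 0 := fun u v => by
    rw [bil]
    refine Finset.sum_eq_zero fun l _ => ?_
    have hl : ∀ n, dv (L.D l) y ⬝ᵥ mt w *ᵥ dv (L.D n) y = 0 := fun n => congrFun (congrFun hW l) n
    rw [sk, bil]
    simp [hl]
  ext e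
  simpa [mt] using h0 (Pi.single e.1 1) (Pi.single e.2 1)

/-- the four first order invariants of a form -/
noncomputable def Loc.φ (L : Loc p μ y) : (Fin 6 × Fin 6 → k) →ₗ[k] k × (Fin 3 → k) where
  toFun w := (![μ 1 ⬝ᵥ mt w *ᵥ μ 2, μ 2 ⬝ᵥ mt w *ᵥ μ 0, μ 0 ⬝ᵥ mt w *ᵥ μ 1] L.a0,
    fun l => y ⬝ᵥ mt w *ᵥ dv (L.D l) y)
  map_add' v w := by
    ext l
    · generalize L.a0 = a; fin_cases a <;> simp [mt_add, add_mulVec]
    · simp [mt_add, add_mulVec]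
  map_smul' c w := by
    ext l
    · generalize L.a0 = a; fin_cases a <;> simp [mt_smul, Matrix.smul_mulVec]
    · simp [mt_smul, Matrix.smul_mulVec]

theorem Loc.kerφ (L : Loc p μ y) {w : Fin 6 × Fin 6 → k} (hw : w ∈ W1 μ y) (h : L.φ w = 0) :
    w ∈ La μ := by
  have : CharZero k := charZero_of_injective_algebraMap (algebraMap ℂ k).injective
  obtain ⟨h1, h3⟩ := mem_W1.1 hw
  have sk := skew_dot (Sk_mt h1)
  have self : ∀ v, v ⬝ᵥ mt w *ᵥ v = 0 := fun v => by linear_combination (1 / 2 : k) * sk v v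
  have ya : ∀ a, y ⬝ᵥ mt w *ᵥ μ a = 0 := fun a => by
    have := (h3 a).1
    rw [dot_wg h1] at this
    linear_combination (1 / 2 : k) * this
  have hU : ∀ u, (∀ a, u ⬝ᵥ mt w *ᵥ μ a = 0) → ∀ z ∈ Submodule.span k (Set.range μ),
      u ⬝ᵥ mt w *ᵥ z = 0 := fun u hu z hz => by
    obtain ⟨c, rfl⟩ := (Submodule.mem_span_range_iff_exists_fun k).1 hz
    simp [mulVec_sum, mulVec_smul, dotProduct_sum, hu]
  have hχ : ∀ l, y ⬝ᵥ mt w *ᵥ dv (L.D l) y = 0 := congrFun (congrArg Prod.snd h)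
  have yv : ∀ v, y ⬝ᵥ mt w *ᵥ v = 0 := fun v => by
    rw [L.toFr.bil _ y (hU y ya)]; simp [hχ]
  have da : ∀ (D : Derivation ℂ k k) a, dv D y ⬝ᵥ mt w *ᵥ μ a = 0 := fun D a => by
    have := (h3 a).2 D
    rw [dv_wg, dotProduct_add, dot_wg h1, dot_wg h1, yv] at this
    linear_combination (1 / 2 : k) * this
  have hθ := congrArg Prod.fst h
  change ![μ 1 ⬝ᵥ mt w *ᵥ μ 2, μ 2 ⬝ᵥ mt w *ᵥ μ 0, μ 0 ⬝ᵥ mt w *ᵥ μ 1] L.a0 = 0 at hθ
  have hc : ![μ 1 ⬝ᵥ mt w *ᵥ μ 2, μ 2 ⬝ᵥ mt w *ᵥ μ 0, μ 0 ⬝ᵥ mt w *ᵥ μ 1] ⨯₃ L.η = 0 := by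
    have e : ∀ a, ∑ b, L.η b * (μ b ⬝ᵥ mt w *ᵥ μ a) = 0 := fun a => by
      have := ya a
      rw [← L.hη, sum_dotProduct] at this
      simpa using this
    have e0 := e 0; have e1 := e 1; have e2 := e 2
    simp only [Fin.sum_univ_three, self, sk (μ 1) (μ 0), sk (μ 2) (μ 1), sk (μ 0) (μ 2)] at e0 e1 e2
    ext l
    fin_cases l <;> simp [cross_apply]
    · linear_combination e0
    · linear_combination e1
    · linear_combination e2
  have hp := par hc L.ha0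
  rw [hθ, zero_div, zero_smul] at hp
  have p0 : μ 1 ⬝ᵥ mt w *ᵥ μ 2 = 0 := congrFun hp 0
  have p1 : μ 2 ⬝ᵥ mt w *ᵥ μ 0 = 0 := congrFun hp 1
  have p2 : μ 0 ⬝ᵥ mt w *ᵥ μ 1 = 0 := congrFun hp 2
  refine ⟨h1, fun a => eq_zero_of_dot fun v => ?_⟩
  rw [sk, L.toFr.bil _ (μ a) (hU _ fun b => ?_), neg_eq_zero]
  · exact Finset.sum_eq_zero fun l _ => by rw [sk, da]; simp
  · fin_cases a <;> fin_cases b <;>
      simp [self, p0, p1, p2, sk (μ 1) (μ 0), sk (μ 2) (μ 1), sk (μ 0) (μ 2)]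

theorem Loc.cap (L : Loc p μ y) {w : Fin 6 × Fin 6 → k} (hw : w ∈ Sk k ⊓ O2 (wg y p))
    (h : w ∈ La μ) : w = 0 := by
  refine L.inj h (fun t e => L.np t ?_) (L.iff.1 hw).2
  refine L.hζ.symm.trans (Eq.trans ?_ (congrArg (t • ·) L.hη))
  simp [e, Finset.smul_sum, smul_smul]

theorem Loc.dec (L : Loc p μ y) (h4 : 4 ≤ finrank k (Sk k ⊓ O2 (wg y p) : Submodule k _))
    {x : Fin 6 × Fin 6 → k} (hx : x ∈ W1 μ y) : ∃ w ∈ Sk k ⊓ O2 (wg y p), x - w ∈ La μ := by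
  have h1 := fin_map L.φ (Sk k ⊓ O2 (wg y p)) fun w hw h => L.cap hw (L.kerφ (L.iff.1 hw).1 h)
  have h2 : (Sk k ⊓ O2 (wg y p)).map L.φ = ⊤ := by
    apply Submodule.eq_top_of_finrank_eq
    have := Submodule.finrank_le ((Sk k ⊓ O2 (wg y p)).map L.φ)
    simp only [finrank_prod, finrank_self, finrank_fintype_fun_eq_card, Fintype.card_fin] at this ⊢
    omega
  obtain ⟨w, hw, e⟩ : L.φ x ∈ (Sk k ⊓ O2 (wg y p)).map L.φ := h2 ▸ Submodule.mem_top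
  exact ⟨w, hw, L.kerφ ((W1 μ y).sub_mem hx (L.iff.1 hw).1) (by rw [map_sub, e, sub_self])⟩

theorem Loc.stable [IsAlgClosed k] (L : Loc p μ y)
    (h4 : 4 ≤ finrank k (Sk k ⊓ O2 (wg y p) : Submodule k _)) {E : Derivation ℂ k k} {b : Fin 3}
    (hE : dv E p = μ b) (hb : ∀ s t : k, μ b ≠ s • p + t • y) {w : Fin 6 × Fin 6 → k}
    (hw : w ∈ Sk k ⊓ O2 (wg y p)) : dv E w ∈ Sk k ⊓ O2 (wg y p) := by
  have : CharZero k := charZero_of_injective_algebraMap (algebraMap ℂ k).injective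
  obtain ⟨s1, s2⟩ := L.stab E (hE ▸ Submodule.subset_span ⟨b, rfl⟩)
  have g0 : ∀ a, dv E (wg y (μ a)) = 0 := fun a => by rw [dv_wg, s1, s2, wg_zero, wg_zero', add_zero]
  have w1 : ∀ x ∈ W1 μ y, dv E x ∈ W1 μ y := fun x hx =>
    mem_W1.2 ⟨Sk_dv E (mem_W1.1 hx).1, fun a => O1_dv E ((mem_W1.1 hx).2 a)
      (by rw [g0]; exact ⟨by simp, fun D => by simp [dv_zero]⟩)⟩
  have th : ∀ z x, Th μ y z (dv E x) = δ E (Th μ y z x) - Th μ y (dv E z) x := fun z x => by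
    have b0 : β (0 : Fin 6 × Fin 6 → k) x = 0 := by ext D D'; simp [β_apply, dv_zero]
    simp only [Th_apply, β_dv, g0, b0, δ_sum, δ_smul, sub_zero, Finset.sum_add_distrib, dv]
    abel
  let e : Fin 3 → k := Pi.single b 1
  have he : ∑ a, e a • μ a = μ b := by simp [e, Pi.single_apply]
  have de : dv E e = 0 := by
    ext a; by_cases h : a = b <;> simp [dv, e, h]
  have dζ : dv E L.ζ = e := by
    have h1 := congrArg (dv E) L.hζ
    rw [dv_sum, hE, ← he] at h1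
    simp only [dv_smul, s1, smul_zero, add_zero] at h1
    exact L.li.fintypeLinearCombination_injective h1
  have t0 : ∀ x, Th μ y 0 x = 0 := fun x => by simp [Th_apply]
  have rec1 : ∀ x ∈ Sk k ⊓ O2 (wg y p), ∀ n : ℕ, Th μ y L.ζ ((dv E)^[n + 1] x) =
      (-((n : k) + 1)) • Th μ y e ((dv E)^[n] x) := fun x hx n => by
    induction n with
    | zero => simp [th, (L.iff.1 hx).2, δ_zero, dζ]
    | succ n ih =>
      have hn : E (-((n : k) + 1)) = 0 := by simp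
      rw [Function.iterate_succ_apply' (dv E) (n + 1), th, ih, δ_smul, hn, dζ,
        Function.iterate_succ_apply' (dv E) n, th e, de, t0]
      push_cast
      module
  let N := Submodule.span k {x | ∃ w ∈ Sk k ⊓ O2 (wg y p), ∃ n : ℕ, x = (dv E)^[n] w}
  have hN : N ≤ W1 μ y := Submodule.span_le.2 (by
    rintro _ ⟨x, hx, n, rfl⟩
    induction n with
    | zero => exact (L.iff.1 hx).1
    | succ n ih => rw [Function.iterate_succ_apply']; exact w1 _ ih)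
  have dec : ∀ x ∈ N, ∃ w ∈ Sk k ⊓ O2 (wg y p), x - w ∈ N ⊓ La μ := fun x hx => by
    obtain ⟨w, hw, h⟩ := L.dec h4 (hN hx)
    exact ⟨w, hw, N.sub_mem hx (Submodule.subset_span ⟨w, hw, 0, rfl⟩), h⟩
  have c1 : N.map (Th μ y e) ≤ N.map (Th μ y L.ζ) := by
    rw [Submodule.map_span_le]
    rintro _ ⟨x, hx, n, rfl⟩
    have hn : (-((n : k) + 1)) ≠ 0 := neg_ne_zero.2 (Nat.cast_add_one_ne_zero n)
    refine ⟨(-((n : k) + 1))⁻¹ • (dv E)^[n + 1] x,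
      N.smul_mem _ (Submodule.subset_span ⟨x, hx, n + 1, rfl⟩), ?_⟩
    rw [map_smul, rec1 x hx, smul_smul, inv_mul_cancel₀ hn, one_smul]
  have key : N ⊓ La μ = ⊥ := by
    refine pencil _ (Th μ y L.ζ) (Th μ y e) (fun x hx h => ?_) (fun x hx => ?_) fun t x hx h => ?_
    · exact L.cap (L.iff.2 ⟨hN hx.1, h⟩) hx.2
    · obtain ⟨x', hx', h⟩ := c1 ⟨x, hx.1, rfl⟩
      obtain ⟨w, hw, h'⟩ := dec x' hx'
      exact ⟨_, h', by rw [map_sub, (L.iff.1 hw).2, sub_zero, h]⟩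
    · refine L.inj hx.2 (z := e - t • L.ζ) (fun s hs => hb t s ?_) ?_
      · rw [← he, sub_eq_iff_eq_add'.1 hs]
        refine Eq.trans ?_ (congrArg₂ (fun a b => t • a + s • b) L.hζ L.hη)
        simp [Finset.smul_sum, smul_smul, add_smul, Finset.sum_add_distrib]
      · rw [← sub_eq_zero] at h
        rw [← h]
        simp [Th_apply, sub_smul, Finset.smul_sum, smul_smul, Finset.sum_sub_distrib]
  obtain ⟨w', hw', h⟩ := dec (dv E w) (Submodule.subset_span ⟨w, hw, 1, rfl⟩)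
  rw [key, Submodule.mem_bot, sub_eq_zero] at h
  exact h ▸ hw'

end PV.O7
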