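import Pool.Agent.Lib.MP_36fb43_ag.Defs

open Matrix

namespace PV.O7

variable {R : Type} [CommRing R]

/-- Pfaffian of the four rows `a b c d` -/
def pf4 (A : Matrix (Fin 6) (Fin 6) R) (a b c d : Fin 6) : R :=
  A a b * A c d - A a c * A b d + A a d * A b c

/-- Pfaffian of a matrix of size six -/
def pf (A : Matrix (Fin 6) (Fin 6) R) : R :=
  A 0 1 * pf4 A 2 3 4 5 - A 0 2 * pf4 A 1 3 4 5 + A 0 3 * pf4 A 1 2 4 5 - A 0 4 * pf4 A 1 2 3 5 +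
    A 0 5 * pf4 A 1 2 3 4

theorem det4 (A : Matrix (Fin 4) (Fin 4) R) : A.det =
    A 0 0 * (A 1 1 * A 2 2 * A 3 3 - A 1 1 * A 2 3 * A 3 2 - A 1 2 * A 2 1 * A 3 3
      + A 1 2 * A 2 3 * A 3 1 + A 1 3 * A 2 1 * A 3 2 - A 1 3 * A 2 2 * A 3 1)
    - A 0 1 * (A 1 0 * A 2 2 * A 3 3 - A 1 0 * A 2 3 * A 3 2 - A 1 2 * A 2 0 * A 3 3
      + A 1 2 * A 2 3 * A 3 0 + A 1 3 * A 2 0 * A 3 2 - A 1 3 * A 2 2 * A 3 0)
    + A 0 2 * (A 1 0 * A 2 1 * A 3 3 - A 1 0 * A 2 3 * A 3 1 - A 1 1 * A 2 0 * A 3 3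
      + A 1 1 * A 2 3 * A 3 0 + A 1 3 * A 2 0 * A 3 1 - A 1 3 * A 2 1 * A 3 0)
    - A 0 3 * (A 1 0 * A 2 1 * A 3 2 - A 1 0 * A 2 2 * A 3 1 - A 1 1 * A 2 0 * A 3 2
      + A 1 1 * A 2 2 * A 3 0 + A 1 2 * A 2 0 * A 3 1 - A 1 2 * A 2 1 * A 3 0) := by
  rw [det_succ_row_zero, Fin.sum_univ_four]
  simp only [det_fin_three, submatrix_apply]
  simp [Fin.succAbove]
  ring

theorem det_sk (a01 a02 a03 a04 a05 a12 a13 a14 a15 a23 a24 a25 a34 a35 a45 : R) :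
    Matrix.det !![0, a01, a02, a03, a04, a05; -a01, 0, a12, a13, a14, a15;
      -a02, -a12, 0, a23, a24, a25; -a03, -a13, -a23, 0, a34, a35;
      -a04, -a14, -a24, -a34, 0, a45; -a05, -a15, -a25, -a35, -a45, 0] =
    (a01 * (a23 * a45 - a24 * a35 + a25 * a34) - a02 * (a13 * a45 - a14 * a35 + a15 * a34)
      + a03 * (a12 * a45 - a14 * a25 + a15 * a24) - a04 * (a12 * a35 - a13 * a25 + a15 * a23)
      + a05 * (a12 * a34 - a13 * a24 + a14 * a23)) ^ 2 := by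
  rw [det_succ_row_zero, Fin.sum_univ_six]
  simp only [det_succ_row_zero (n := 4), Fin.sum_univ_five, det4, submatrix_apply]
  simp [Fin.succAbove]
  ring

theorem det_eq_pf (A : Matrix (Fin 6) (Fin 6) R) (h : ∀ i j, A j i = -A i j) (h0 : ∀ i, A i i = 0) :
    A.det = pf A ^ 2 := by
  have e : A = !![0, A 0 1, A 0 2, A 0 3, A 0 4, A 0 5; -A 0 1, 0, A 1 2, A 1 3, A 1 4, A 1 5;
      -A 0 2, -A 1 2, 0, A 2 3, A 2 4, A 2 5; -A 0 3, -A 1 3, -A 2 3, 0, A 3 4, A 3 5;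
      -A 0 4, -A 1 4, -A 2 4, -A 3 4, 0, A 4 5; -A 0 5, -A 1 5, -A 2 5, -A 3 5, -A 4 5, 0] := by
    ext i j
    fin_cases i <;> fin_cases j <;> first | exact h0 _ | rfl | exact h _ _
  conv_lhs => rw [e]
  rw [det_sk]
  rfl

theorem map_pf {S : Type} [CommRing S] (φ : R →+* S) (A : Matrix (Fin 6) (Fin 6) R) :
    φ (pf A) = pf (A.map φ) := by
  simp [pf, pf4]

theorem pf_hom {σ K : Type} [CommRing K] (A : Matrix (Fin 6) (Fin 6) (MvPolynomial σ K))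
    (h : ∀ i j, (A i j).IsHomogeneous 1) : (pf A).IsHomogeneous 3 := by
  have h4 : ∀ a b c d, (pf4 A a b c d).IsHomogeneous 2 := fun a b c d =>
    (((h _ _).mul (h _ _)).sub ((h _ _).mul (h _ _))).add ((h _ _).mul (h _ _))
  have h5 : ∀ i j a b c d, (A i j * pf4 A a b c d).IsHomogeneous 3 := fun i j a b c d =>
    (h i j).mul (h4 a b c d)
  exact ((((h5 _ _ _ _ _ _).sub (h5 _ _ _ _ _ _)).add (h5 _ _ _ _ _ _)).sub (h5 _ _ _ _ _ _)).add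
    (h5 _ _ _ _ _ _)

end PV.O7
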