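import Pool.Agent.Lib.MP_36fb43_ag.OscB

open MvPolynomial Matrix Module

namespace PV.O7

variable {k : Type} [Field k]

theorem fin_map {V W : Type} [AddCommGroup V] [Module k V] [AddCommGroup W] [Module k W]
    (f : V →ₗ[k] W) (S : Submodule k V) (h : ∀ x ∈ S, f x = 0 → x = 0) :
    finrank k (S.map f) = finrank k S := by
  rw [← LinearMap.range_domRestrict]
  refine LinearMap.finrank_range_of_inj ((injective_iff_map_eq_zero _).2 fun x hx => ?_)
  exact Subtype.ext (h x x.2 hx)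

theorem le_finrank {n m : ℕ} {v : Fin n → Fin m → k} (h : LinearIndependent k v)
    (S : Submodule k (Fin m → k)) (hS : ∀ a, v a ∈ S) : n ≤ finrank k S := by
  have h1 := finrank_span_eq_card h
  have h2 : Submodule.span k (Set.range v) ≤ S := Submodule.span_le.2 (by rintro _ ⟨a, rfl⟩; exact hS a)
  have := Submodule.finrank_mono h2
  simp only [Fintype.card_fin] at h1
  omega

theorem NS.right' [CharZero k] [IsAlgClosed k] {T : Fin 3 → Matrix (Fin 3) (Fin 3) k} (h : NS T)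
    {z : Fin 3 → k} (hz : z ≠ 0) (S : Submodule k (Fin 3 → k)) (hS : 2 ≤ finrank k S)
    (h0 : ∀ u ∈ S, Pv T z *ᵥ u = 0) : False := by
  obtain ⟨f, hf⟩ := exists_linearIndependent_of_le_finrank hS
  have hf' : LinearIndependent k ![(f 0 : Fin 3 → k), (f 1 : Fin 3 → k)] := by
    have := hf.map' S.subtype (Submodule.ker_subtype S)
    have e : ![(f 0 : Fin 3 → k), (f 1 : Fin 3 → k)] = S.subtype ∘ f := by
      ext1 i; fin_cases i <;> rfl
    rw [e]; exact this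
  exact crossProduct_ne_zero_iff_linearIndependent.2 hf' (h.right hz (h0 _ (f 0).2) (h0 _ (f 1).2))

theorem skew_dot {n : Type} [Fintype n] {M : Matrix n n k} (h : Mᵀ = -M) (v w : n → k) :
    v ⬝ᵥ M *ᵥ w = -(w ⬝ᵥ M *ᵥ v) := by
  rw [dotProduct_mulVec, ← mulVec_transpose, h, neg_mulVec, neg_dotProduct, dotProduct_comm]

theorem eq_zero_of_dot {n : Type} [Fintype n] {w : n → k} (h : ∀ v, v ⬝ᵥ w = 0) : w = 0 := by
  classical
  ext i
  simpa using h (Pi.single i 1)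

variable [Algebra ℂ k]

/-- the linear system of forms over the big field -/
noncomputable def Om (ω : Fin 4 → Matrix (Fin 6) (Fin 6) ℂ) :
    (Fin 4 → k) →ₗ[k] Matrix (Fin 6) (Fin 6) k :=
  Fintype.linearCombination k fun a => (ω a).map (algebraMap ℂ k)

theorem Om_apply (ω : Fin 4 → Matrix (Fin 6) (Fin 6) ℂ) (c : Fin 4 → k) :
    Om ω c = ∑ a, c a • (ω a).map (algebraMap ℂ k) := rfl

theorem Om_entry (ω : Fin 4 → Matrix (Fin 6) (Fin 6) ℂ) (c : Fin 4 → k) (i j : Fin 6) :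
    Om ω c i j = ∑ a, c a * algebraMap ℂ k (ω a i j) := by
  simp [Om_apply, Matrix.sum_apply]

theorem Om_map (ω : Fin 4 → Matrix (Fin 6) (Fin 6) ℂ) (c : Fin 4 → k) (D : Derivation ℂ k k) :
    (Om ω c).map D = Om ω (dv D c) := by
  ext i j
  simp [Om_entry, dv, mul_comm]

/-- the data used in the proof of the equality of the two varieties -/
structure Sys (μ : Fin 3 → Fin 6 → k) (y : Fin 6 → k) (ω : Fin 4 → Matrix (Fin 6) (Fin 6) ℂ)
    extends Fr μ y where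
  η : Fin 3 → k
  hη : ∑ a, η a • μ a = y
  a0 : Fin 3
  ha0 : η a0 ≠ 0
  y0 : y ≠ 0
  sk : ∀ a, (ω a)ᵀ = -ω a
  h2 : ∀ a, ∀ z ∈ Submodule.span k (Set.range μ), y ⬝ᵥ (ω a).map (algebraMap ℂ k) *ᵥ z = 0
  h3 : ∀ c : Fin 4 → k, (∀ v, ∀ z ∈ Submodule.span k (Set.range μ), v ⬝ᵥ Om ω c *ᵥ z = 0) → c = 0

variable {μ : Fin 3 → Fin 6 → k} {y : Fin 6 → k} {ω : Fin 4 → Matrix (Fin 6) (Fin 6) ℂ}

omit [Algebra ℂ k] in
theorem mem_mu (μ : Fin 3 → Fin 6 → k) (z : Fin 3 → k) :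
    ∑ a, z a • μ a ∈ Submodule.span k (Set.range μ) :=
  (Submodule.mem_span_range_iff_exists_fun k).2 ⟨z, rfl⟩

theorem Sys.skm (S : Sys μ y ω) (c : Fin 4 → k) : (Om ω c)ᵀ = -Om ω c := by
  ext i j
  have : ∀ a, ω a j i = -ω a i j := fun a => congrFun (congrFun (S.sk a) i) j
  simp [Om_entry, this]

theorem Sys.skew (S : Sys μ y ω) (c : Fin 4 → k) (v w : Fin 6 → k) :
    v ⬝ᵥ Om ω c *ᵥ w = -(w ⬝ᵥ Om ω c *ᵥ v) := skew_dot (S.skm c) v w

theorem Sys.self (S : Sys μ y ω) (c : Fin 4 → k) (v : Fin 6 → k) : v ⬝ᵥ Om ω c *ᵥ v = 0 := by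
  have : CharZero k := charZero_of_injective_algebraMap (algebraMap ℂ k).injective
  linear_combination (1 / 2 : k) * S.skew c v v

theorem Sys.yU (S : Sys μ y ω) (c : Fin 4 → k) {z : Fin 6 → k}
    (hz : z ∈ Submodule.span k (Set.range μ)) : y ⬝ᵥ Om ω c *ᵥ z = 0 := by
  simp [Om_apply, Matrix.sum_mulVec, dotProduct_sum, Matrix.smul_mulVec, S.h2 _ z hz]

theorem Sys.dU (S : Sys μ y ω) (c : Fin 4 → k) (D : Derivation ℂ k k) {z : Fin 6 → k}
    (hz : z ∈ Submodule.span k (Set.range μ)) :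
    dv D y ⬝ᵥ Om ω c *ᵥ z = -(y ⬝ᵥ Om ω c *ᵥ dv D z) := by
  have := dv_dot D y (Om ω c *ᵥ z)
  rw [S.yU c hz, map_zero, dv_mulVec, Om_map, dotProduct_add, S.yU _ hz] at this
  linear_combination -this

/-- contraction with the point -/
noncomputable def Sys.χ (S : Sys μ y ω) : (Fin 4 → k) →ₗ[k] (Fin 3 → k) where
  toFun c l := y ⬝ᵥ Om ω c *ᵥ dv (S.D l) y
  map_add' c d := by ext l; simp [add_mulVec]
  map_smul' t c := by ext l; simp [Matrix.smul_mulVec]

theorem Sys.bil (S : Sys μ y ω) (M : Matrix (Fin 6) (Fin 6) k) (w : Fin 6 → k)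
    (hw : ∀ z ∈ Submodule.span k (Set.range μ), w ⬝ᵥ M *ᵥ z = 0) (v : Fin 6 → k) :
    w ⬝ᵥ M *ᵥ v = ∑ l, S.Q v l * (w ⬝ᵥ M *ᵥ dv (S.D l) y) := by
  simp only [dotProduct_mulVec] at hw ⊢
  exact S.toFr.dot _ hw v

theorem Sys.ydot (S : Sys μ y ω) (c : Fin 4 → k) (v : Fin 6 → k) :
    y ⬝ᵥ Om ω c *ᵥ v = S.Q v ⬝ᵥ S.χ c := S.bil _ y (fun _ hz => S.yU c hz) v

theorem Sys.χ_zero (S : Sys μ y ω) (c : Fin 4 → k) : S.χ c = 0 ↔ Om ω c *ᵥ y = 0 := by
  constructor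
  · intro h
    refine eq_zero_of_dot fun v => ?_
    rw [S.skew, S.ydot, h]; simp
  · intro h
    ext l
    change y ⬝ᵥ Om ω c *ᵥ dv (S.D l) y = 0
    rw [S.skew, h]; simp

theorem Sys.N (S : Sys μ y ω) (c : Fin 4 → k) (z : Fin 3 → k) (m : Fin 3) :
    (∑ a, z a • μ a) ⬝ᵥ Om ω c *ᵥ dv (S.D m) y = (z ᵥ* Pv (sw S.toFr.T) (S.χ c)) m := by
  rw [S.skew, S.dU c _ (mem_mu μ z), neg_neg, S.ydot, vecMul_sw, dotProduct_comm]
  simp only [vecMul, dotProduct, S.toFr.Pv_eq]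

/-- restriction to the plane -/
noncomputable def θ (μ : Fin 3 → Fin 6 → k) (ω : Fin 4 → Matrix (Fin 6) (Fin 6) ℂ) :
    (Fin 4 → k) →ₗ[k] (Fin 3 → k) where
  toFun c := ![μ 1 ⬝ᵥ Om ω c *ᵥ μ 2, μ 2 ⬝ᵥ Om ω c *ᵥ μ 0, μ 0 ⬝ᵥ Om ω c *ᵥ μ 1]
  map_add' c d := by ext l; fin_cases l <;> simp [add_mulVec]
  map_smul' t c := by ext l; fin_cases l <;> simp [Matrix.smul_mulVec]

theorem Sys.UU (S : Sys μ y ω) (c : Fin 4 → k) (z w : Fin 3 → k) :
    (∑ a, z a • μ a) ⬝ᵥ Om ω c *ᵥ (∑ a, w a • μ a) = z ⬝ᵥ (w ⨯₃ θ μ ω c) := by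
  simp only [Fin.sum_univ_three, mulVec_add, mulVec_smul, add_dotProduct, dotProduct_add,
    smul_dotProduct, dotProduct_smul, smul_eq_mul, S.self, S.skew c (μ 1) (μ 0), S.skew c (μ 2) (μ 1),
    S.skew c (μ 0) (μ 2)]
  simp [θ, cross_apply, dotProduct, Fin.sum_univ_three]
  ring

theorem Sys.cr (S : Sys μ y ω) (c : Fin 4 → k) : θ μ ω c ⨯₃ S.η = 0 := by
  rw [← cross_anticomm, neg_eq_zero]
  refine eq_zero_of_dot fun z => ?_
  rw [← S.UU, S.hη, S.skew, S.yU c (mem_mu μ z), neg_zero]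

theorem Sys.th (S : Sys μ y ω) {c : Fin 4 → k} (h : θ μ ω c S.a0 = 0) : θ μ ω c = 0 := by
  rw [par (S.cr c) S.ha0, h]; simp

theorem Sys.full (S : Sys μ y ω) {c : Fin 4 → k} (h : θ μ ω c = 0) (z : Fin 3 → k) (v : Fin 6 → k) :
    (∑ a, z a • μ a) ⬝ᵥ Om ω c *ᵥ v = z ⬝ᵥ Pv (sw S.toFr.T) (S.χ c) *ᵥ S.Q v := by
  rw [S.bil _ _ (fun w hw => ?_) v, dotProduct_mulVec, dotProduct_comm]
  · simp only [S.N]; rfl
  · obtain ⟨w, rfl⟩ := (Submodule.mem_span_range_iff_exists_fun k).1 hw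
    rw [S.UU, h]; simp

theorem Sys.inj (S : Sys μ y ω) {c : Fin 4 → k} (h : θ μ ω c S.a0 = 0) (h' : S.χ c = 0) : c = 0 := by
  refine S.h3 c fun v w hw => ?_
  obtain ⟨w, rfl⟩ := (Submodule.mem_span_range_iff_exists_fun k).1 hw
  rw [S.skew, S.full (S.th h), h']
  simp [Pv]

theorem Sys.uniq (S : Sys μ y ω) {c c' : Fin 4 → k} (h0 : c ≠ 0) (h : S.χ c = 0) (h' : S.χ c' = 0) :
    ∃ t : k, c' = t • c := by
  have h1 : θ μ ω c S.a0 ≠ 0 := fun e => h0 (S.inj e h)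
  refine ⟨θ μ ω c' S.a0 / θ μ ω c S.a0, sub_eq_zero.1 (S.inj ?_ ?_)⟩
  · simp [h1]
  · simp [h, h']

theorem Sys.cy (S : Sys μ y ω) : ∃ c : Fin 4 → k, c ≠ 0 ∧ Om ω c *ᵥ y = 0 := by
  have : LinearMap.ker S.χ ≠ ⊥ := LinearMap.ker_ne_bot_of_finrank_lt (by simp)
  obtain ⟨c, hc, h0⟩ := Submodule.exists_mem_ne_zero_of_ne_bot this
  exact ⟨c, h0, (S.χ_zero c).1 hc⟩

theorem Sys.gen (S : Sys μ y ω) : 4 ≤ finrank k (Submodule.span k {y} ⊔
    dsp (Set.univ : Set (Derivation ℂ k k)) y : Submodule k (Fin 6 → k)) := by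
  have hy : S.Q y = 0 := (S.ker y).2 (S.hη ▸ mem_mu μ S.η)
  refine le_finrank (v := ![y, dv (S.D 0) y, dv (S.D 1) y, dv (S.D 2) y]) ?_ _ fun a => ?_
  · refine Fintype.linearIndependent_iff.2 fun g hg => ?_
    simp only [Fin.sum_univ_four, cons_val_zero, cons_val_one, cons_val] at hg
    have e := congrArg S.Q hg
    simp only [map_add, map_smul, hy, S.hD, map_zero] at e
    have g1 : g 1 = 0 := by simpa using congrFun e 0
    have g2 : g 2 = 0 := by simpa using congrFun e 1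
    have g3 : g 3 = 0 := by simpa using congrFun e 2
    have g0 : g 0 = 0 := by simpa [g1, g2, g3, S.y0] using hg
    intro i
    fin_cases i
    exacts [g0, g1, g2, g3]
  · have hd : ∀ D : Derivation ℂ k k, dv D y ∈ (Submodule.span k {y} ⊔
        dsp (Set.univ : Set (Derivation ℂ k k)) y : Submodule k (Fin 6 → k)) := fun D =>
      Submodule.mem_sup_right (Submodule.subset_span ⟨D, trivial, rfl⟩)
    fin_cases a
    exacts [Submodule.mem_sup_left (Submodule.mem_span_singleton_self y), hd _, hd _, hd _]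

variable [IsAlgClosed k]

theorem Sys.nsw (S : Sys μ y ω) : NS (sw S.toFr.T) :=
  have : CharZero k := charZero_of_injective_algebraMap (algebraMap ℂ k).injective
  NS.swap S.ns

/-- the degeneracy hypersurface contains no hyperplane -/
theorem Sys.nolin (S : Sys μ y ω) (l : Fin 4 → k)
    (h : ∀ c, l ⬝ᵥ c = 0 → (Om ω c).det = 0) : False := by
  have : CharZero k := charZero_of_injective_algebraMap (algebraMap ℂ k).injective
  let φ : (Fin 4 → k) →ₗ[k] k × k :=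
    (dotProductBilin k k l).prod ((LinearMap.proj S.a0).comp (θ μ ω))
  have hφ : ∀ c ∈ LinearMap.ker φ, l ⬝ᵥ c = 0 ∧ θ μ ω c S.a0 = 0 := fun c hc => by
    simpa [φ] using hc
  have h2 : 2 ≤ finrank k (LinearMap.ker φ) := by
    have h1 := LinearMap.finrank_range_add_finrank_ker φ
    have h3 := Submodule.finrank_le (LinearMap.range φ)
    simp only [finrank_fintype_fun_eq_card, Fintype.card_fin, finrank_prod, finrank_self] at h1 h3
    omega
  refine S.nsw.line ((LinearMap.ker φ).map S.χ) ?_ ?_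
  · rwa [fin_map _ _ fun c hc h0 => S.inj (hφ c hc).2 h0]
  · rintro _ ⟨c, hc, rfl⟩
    obtain ⟨v, v0, hv⟩ := exists_mulVec_eq_zero_iff.2 (h c (hφ c hc).1)
    have ht := S.th (hφ c hc).2
    by_cases hq : S.Q v = 0
    · obtain ⟨z, rfl⟩ := (Submodule.mem_span_range_iff_exists_fun k).1 ((S.ker v).1 hq)
      refine exists_vecMul_eq_zero_iff.1 ⟨z, ?_, ?_⟩
      · rintro rfl
        exact v0 (by simp)
      · ext m
        rw [← S.N, S.skew, hv]; simp
    · refine exists_mulVec_eq_zero_iff.1 ⟨_, hq, eq_zero_of_dot fun z => ?_⟩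
      rw [← S.full ht, hv]; simp

/-- rank at least four -/
theorem Sys.rank (S : Sys μ y ω) {c : Fin 4 → k} (hc : Om ω c *ᵥ y ≠ 0)
    (K : Submodule k (Fin 6 → k)) (hK : ∀ v ∈ K, Om ω c *ᵥ v = 0) : finrank k K ≤ 2 := by
  have : CharZero k := charZero_of_injective_algebraMap (algebraMap ℂ k).injective
  have hχ : S.χ c ≠ 0 := fun e => hc ((S.χ_zero c).1 e)
  by_contra h3
  have e := LinearMap.finrank_range_add_finrank_ker (S.Q.domRestrict K)
  rw [LinearMap.range_domRestrict] at e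
  let lc := Fintype.linearCombination k μ
  have e2 : finrank k (LinearMap.ker (S.Q.domRestrict K)) ≤ finrank k (K.comap lc) := by
    rw [← Submodule.finrank_map_subtype_eq]
    refine le_trans (Submodule.finrank_mono ?_) (Submodule.finrank_map_le lc (K.comap lc))
    rintro _ ⟨v, hv, rfl⟩
    obtain ⟨z, hz⟩ := (Submodule.mem_span_range_iff_exists_fun k).1 ((S.ker v).1 hv)
    exact ⟨z, by change lc z ∈ K; rw [show lc z = v from hz]; exact v.2, hz⟩
  by_cases ht : θ μ ω c = 0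
  · by_cases h1 : 2 ≤ finrank k (K.map S.Q)
    · refine S.nsw.right' hχ _ h1 ?_
      rintro _ ⟨v, hv, rfl⟩
      refine eq_zero_of_dot fun z => ?_
      rw [← S.full ht, hK v hv]; simp
    · refine NS.left S.ns hχ (K.comap lc) (by omega) fun z hz => ?_
      ext m
      have := hK _ hz
      change (z ᵥ* Pv (sw S.toFr.T) (S.χ c)) m = 0
      rw [← S.N, S.skew]
      change -(_ ⬝ᵥ Om ω c *ᵥ lc z) = 0
      rw [this]; simp
  · have h0 : K.comap lc = ⊥ := by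
      refine (Submodule.eq_bot_iff _).2 fun z hz => ?_
      by_contra z0
      have h4 : Om ω c *ᵥ (∑ a, z a • μ a) = 0 := hK _ hz
      have h5 : z ⨯₃ θ μ ω c = 0 := eq_zero_of_dot fun w => by rw [← S.UU, h4]; simp
      obtain ⟨i, hi⟩ := Function.ne_iff.1 ht
      have h6 := par h5 (i := i) hi
      obtain ⟨t, rfl⟩ : ∃ t : k, z = t • S.η :=
        ⟨z i / θ μ ω c i * (θ μ ω c S.a0 / S.η S.a0), by
          rw [← smul_smul, ← par (S.cr c) S.ha0]; exact h6⟩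
      have t0 : t ≠ 0 := by rintro rfl; exact z0 (by simp)
      apply hc
      have h7 : ∑ a, (t • S.η) a • μ a = t • y := by
        refine Eq.trans ?_ (congrArg (t • ·) S.hη)
        simp [Finset.smul_sum, smul_smul]
      rw [h7, mulVec_smul] at h4
      exact (smul_eq_zero.1 h4).resolve_left t0
    rw [h0, finrank_bot] at e2
    have h8 : K.map S.Q = ⊤ := by
      apply Submodule.eq_top_of_finrank_eq
      have := Submodule.finrank_le (K.map S.Q)
      simp only [finrank_fintype_fun_eq_card, Fintype.card_fin] at this ⊢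
      omega
    refine hχ (eq_zero_of_dot fun u => ?_)
    obtain ⟨v, hv, rfl⟩ : u ∈ K.map S.Q := h8 ▸ Submodule.mem_top
    rw [← S.ydot, hK v hv]; simp

end PV.O7
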