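import Pool.Agent.Lib.MP_36fb43_ag.PalA
import Pool.Agent.Lib.MP_36fb43_ag.PalB

open MvPolynomial Matrix Module

namespace PV.O7

section poly
variable {K F σ : Type} [Field K] [Field F] [Algebra K F] [Fintype σ]

theorem lin_hom (l : σ → K) : (lin l).IsHomogeneous 1 :=
  IsHomogeneous.sum _ _ _ fun i _ => (isHomogeneous_X K i).C_mul _

theorem aeval_lin (l : σ → K) (x : σ → F) : aeval x (lin l) = (algebraMap K F ∘ l) ⬝ᵥ x := by
  simp [lin, dotProduct]

omit [Fintype σ] in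
theorem det_hom {n : ℕ} (M : Matrix (Fin n) (Fin n) (MvPolynomial σ K))
    (h : ∀ i j, (M i j).IsHomogeneous 1) : M.det.IsHomogeneous n := by
  rw [det_apply']
  refine IsHomogeneous.sum _ _ _ fun s _ => ?_
  have h1 := IsHomogeneous.prod Finset.univ (fun i => M (s i) i) (fun _ => 1) fun i _ => h _ _
  have h2 : (((Equiv.Perm.sign s : ℤˣ) : ℤ) : MvPolynomial σ K).IsHomogeneous 0 := by
    rw [← map_intCast (C : K →+* MvPolynomial σ K)]
    exact isHomogeneous_C _ _
  simpa using h2.mul h1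

theorem hom_one {g : MvPolynomial σ K} (hg : g.IsHomogeneous 1) :
    ∃ l : σ → F, ∀ c : σ → F, aeval c g = l ⬝ᵥ c := by
  refine ⟨fun i => algebraMap K F (coeff 0 (pderiv i g)), fun c => ?_⟩
  have h1 := hg.sum_X_mul_pderiv
  rw [one_smul] at h1
  conv_lhs => rw [← h1]
  rw [map_sum]
  refine Finset.sum_congr rfl fun i _ => ?_
  have h2 := hg.pderiv (i := i)
  rw [← totalDegree_zero_iff_isHomogeneous, totalDegree_eq_zero_iff_eq_C] at h2
  conv_lhs => rw [h2]
  simp [mul_comm]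

theorem left_inv {n m : ℕ} {v : Fin n → Fin m → K} (h : LinearIndependent K v) :
    ∃ B : Matrix (Fin n) (Fin m) K, ∀ a, B *ᵥ v a = Pi.single a 1 := by
  obtain ⟨g, hg⟩ := (Fintype.linearCombination K v).exists_leftInverse_of_injective
    (LinearMap.ker_eq_bot.2 h.fintypeLinearCombination_injective)
  refine ⟨LinearMap.toMatrix' g, fun a => ?_⟩
  rw [LinearMap.toMatrix'_mulVec]
  have := LinearMap.congr_fun hg (Pi.single a 1)
  simpa using this

theorem cD_map {R : Type} [Field R] [Algebra R F] (D : Derivation R F F) (f : MvPolynomial σ R) :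
    cD D (MvPolynomial.map (algebraMap R F) f) = 0 := by
  ext m
  rw [coeff_cD, coeff_map, D.map_algebraMap, coeff_zero]

omit [Fintype σ] in
theorem eval_map_algebraMap' (v : σ → F) (f : MvPolynomial σ K) :
    eval v (MvPolynomial.map (algebraMap K F) f) = aeval v f := by
  rw [eval_map, aeval_def]

end poly

variable {k : Type} [Field k] [Algebra ℂ k] {μ : Fin 3 → Fin 6 → k} {y : Fin 6 → k}
  {ω : Fin 4 → Matrix (Fin 6) (Fin 6) ℂ} {Z : Cone ℂ 6}

theorem Om_alg (ω : Fin 4 → Matrix (Fin 6) (Fin 6) ℂ) (c : Fin 4 → ℂ) :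
    Om ω (algebraMap ℂ k ∘ c) = (∑ a, c a • ω a).map (algebraMap ℂ k) := by
  ext i j
  simp [Om_entry, Matrix.sum_apply]

theorem Sys.ne (S : Sys μ y ω) {c : Fin 4 → ℂ} (h : ∑ a, c a • ω a = 0) : c = 0 := by
  have := S.h3 (algebraMap ℂ k ∘ c) fun v z _ => by rw [Om_alg, h]; simp
  ext a
  simpa using congrFun this a

theorem Sys.vanish (S : Sys μ y ω) (hy : On Z.I y) {f : MvPolynomial (Fin 6) ℂ} {d : ℕ}
    (hd : f.IsHomogeneous d) (hf : aeval y f = 0) : f ∈ Z.I :=
  PV.gen Z hy (Set.univ : Set (Derivation ℂ k k)) (fun D _ c => D.map_algebraMap c)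
    (by have := S.gen; omega) f hd hf

theorem Sys.nd (S : Sys μ y ω) (hZ : Z.Nondeg) (hy : On Z.I y) {c : Fin 4 → ℂ}
    (h : Om ω (algebraMap ℂ k ∘ c) *ᵥ y = 0) : c = 0 := by
  refine S.ne (Matrix.ext fun i j => congrFun (hZ _ (S.vanish hy (lin_hom _) ?_)) j)
  rw [aeval_lin]
  rw [Om_alg] at h
  exact congrFun h i

theorem Sys.dk (_S : Sys μ y ω) {c : Fin 4 → k} (hc : Om ω c *ᵥ y = 0) (D : Derivation ℂ k k) :
    Om ω (dv D c) *ᵥ y = -(Om ω c *ᵥ dv D y) := by
  have := dv_mulVec D (Om ω c) y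
  rw [hc, dv_zero, Om_map] at this
  exact eq_neg_of_add_eq_zero_left this.symm

theorem Sys.dbil (S : Sys μ y ω) {c : Fin 4 → k} (hc : Om ω c *ᵥ y = 0) (D : Derivation ℂ k k)
    (v : Fin 6 → k) :
    dv D y ⬝ᵥ Om ω c *ᵥ v = ∑ l, S.Q v l * (dv D y ⬝ᵥ Om ω c *ᵥ dv (S.D l) y) :=
  S.bil _ _ (fun z hz => by rw [S.dU c D hz, S.skew, hc]; simp) v

theorem Sys.wne [IsAlgClosed k] (S : Sys μ y ω) (hZ : Z.Nondeg) (hy : On Z.I y) {c : Fin 4 → k}
    (c0 : c ≠ 0) (hc : Om ω c *ᵥ y = 0) :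
    ∃ m l, dv (S.D m) y ⬝ᵥ Om ω c *ᵥ dv (S.D l) y ≠ 0 := by
  by_contra h
  push Not at h
  have h1 : ∀ D : Derivation ℂ k k, ∃ t : k, dv D c = t • c := fun D => by
    refine S.uniq c0 ((S.χ_zero c).2 hc) ((S.χ_zero _).2 ?_)
    rw [S.dk hc, neg_eq_zero]
    refine eq_zero_of_dot fun v => ?_
    rw [S.skew, S.dbil hc, neg_eq_zero]
    refine Finset.sum_eq_zero fun l _ => ?_
    rw [S.skew, S.dbil hc]
    simp [h]
  obtain ⟨i, hi⟩ := Function.ne_iff.1 c0
  have hi' : c i ≠ 0 := hi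
  have h2 : ∀ a, ∃ r : ℂ, algebraMap ℂ k r = c a / c i := fun a => by
    refine const_mem fun D => ?_
    obtain ⟨t, ht⟩ := h1 D
    have ha : D (c a) = t * c a := congrFun ht a
    have hb : D (c i) = t * c i := congrFun ht i
    rw [Derivation.leibniz_div, ha, hb]
    simp only [smul_eq_mul]
    ring
  choose r hr using h2
  have h3 : algebraMap ℂ k ∘ r = (c i)⁻¹ • c := by
    ext a; simp [hr, div_eq_inv_mul]
  have h4 := S.nd hZ hy (c := r) (by rw [h3, map_smul, Matrix.smul_mulVec, hc, smul_zero])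
  have h5 := hr i
  rw [h4, div_self hi'] at h5
  simp at h5

theorem Sys.three [IsAlgClosed k] (S : Sys μ y ω) (hZ : Z.Nondeg) (hy : On Z.I y) {c : Fin 4 → k}
    (c0 : c ≠ 0) (hc : Om ω c *ᵥ y = 0) : 3 ≤ finrank k (Submodule.span k {c} ⊔
      dsp (Set.univ : Set (Derivation ℂ k k)) c : Submodule k (Fin 4 → k)) := by
  obtain ⟨m, l, h⟩ := S.wne hZ hy c0 hc
  refine le_finrank (v := ![c, dv (S.D m) c, dv (S.D l) c]) ?_ _ fun a => ?_
  · refine Fintype.linearIndependent_iff.2 fun g hg => ?_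
    simp only [Fin.sum_univ_three, cons_val_zero, cons_val_one, cons_val] at hg
    have e := congrArg (fun x => Om ω x *ᵥ y) hg
    simp only [map_add, map_smul, add_mulVec, Matrix.smul_mulVec, hc, S.dk hc, map_zero,
      zero_mulVec] at e
    have e1 := congrArg (dv (S.D m) y ⬝ᵥ ·) e
    have e2 := congrArg (dv (S.D l) y ⬝ᵥ ·) e
    simp only [dotProduct_add, dotProduct_smul, dotProduct_neg, dotProduct_zero, S.self,
      smul_eq_mul, S.skew c (dv (S.D l) y) (dv (S.D m) y)] at e1 e2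
    have g1 : g 1 = 0 := mul_right_cancel₀ h (by linear_combination e2)
    have g2 : g 2 = 0 := mul_right_cancel₀ h (by linear_combination -e1)
    have g0 : g 0 = 0 := by simpa [g1, g2, c0] using hg
    intro i
    fin_cases i
    exacts [g0, g1, g2]
  · have hd : ∀ D : Derivation ℂ k k, dv D c ∈ (Submodule.span k {c} ⊔
        dsp (Set.univ : Set (Derivation ℂ k k)) c : Submodule k (Fin 4 → k)) := fun D =>
      Submodule.mem_sup_right (Submodule.subset_span ⟨D, trivial, rfl⟩)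
    fin_cases a
    exacts [Submodule.mem_sup_left (Submodule.mem_span_singleton_self c), hd _, hd _]

/-- the kernel line of the generic degenerate form lies on the variety -/
theorem Sys.line (S : Sys μ y ω) (hy : On Z.I y) {c : Fin 4 → k} (c0 : c ≠ 0)
    (hc : Om ω c *ᵥ y = 0) (K : Submodule k (Fin 6 → k)) (hK : finrank k K ≤ 2)
    (hK' : ∀ v, Om ω c *ᵥ v = 0 → v ∈ K) {f : MvPolynomial (Fin 6) ℂ} {d : ℕ} (hf : f ∈ Z.I)
    (hd : f.IsHomogeneous d) : ∀ v ∈ K, aeval v f = 0 := by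
  have : CharZero k := charZero_of_injective_algebraMap (algebraMap ℂ k).injective
  let W : Matrix (Fin 3) (Fin 3) k := fun m l => dv (S.D m) y ⬝ᵥ Om ω c *ᵥ dv (S.D l) y
  have hW : W.det = 0 := by
    have d0 : ∀ m, W m m = 0 := fun m => S.self _ _
    have s0 : ∀ m l, W l m = -W m l := fun m l => S.skew _ _ _
    rw [det_fin_three, d0, d0, d0, s0 0 1, s0 0 2, s0 1 2]; ring
  obtain ⟨g, g0, hg⟩ := exists_vecMul_eq_zero_iff.2 hW
  let D : Derivation ℂ k k := ∑ m, g m • S.D m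
  have hD : dv D y = ∑ m, g m • dv (S.D m) y := by
    rw [← dvL_apply]; simp only [D, map_sum, map_smul, dvL_apply]
  have hQ : S.Q (dv D y) = g := by
    rw [hD, map_sum]; ext l; simp [S.hD, Pi.single_apply]
  have h1 : Om ω c *ᵥ dv D y = 0 := by
    refine eq_zero_of_dot fun v => ?_
    rw [S.skew, S.dbil hc, neg_eq_zero]
    refine Finset.sum_eq_zero fun l _ => ?_
    have := congrFun hg l
    rw [hD, sum_dotProduct]
    simp only [smul_dotProduct, smul_eq_mul]
    exact mul_eq_zero_of_right _ this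
  obtain ⟨t, ht⟩ := S.uniq (c' := dv D c) c0 ((S.χ_zero c).2 hc)
    ((S.χ_zero _).2 (by rw [S.dk hc, h1, neg_zero]))
  have hyQ : S.Q y = 0 := (S.ker y).2 (S.hη ▸ mem_mu μ S.η)
  have li : LinearIndependent k ![y, dv D y] := by
    refine LinearIndependent.pair_iff.2 fun a b hab => ?_
    have e := congrArg S.Q hab
    simp only [map_add, map_smul, hyQ, hQ, map_zero, smul_zero, zero_add] at e
    have b0 : b = 0 := (smul_eq_zero.1 e).resolve_right g0
    exact ⟨by simpa [b0, S.y0] using hab, b0⟩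
  let K0 := LinearMap.ker (Om ω c).mulVecLin
  let K1 := Submodule.span k (Set.range ![y, dv D y])
  have l1 : K1 ≤ K0 := Submodule.span_le.2 (by
    rintro _ ⟨a, rfl⟩
    fin_cases a
    exacts [hc, h1])
  have l2 : K0 ≤ K := fun v hv => hK' v hv
  have r1 : finrank k K1 = 2 := by rw [finrank_span_eq_card li]; simp
  have e1 : K1 = K := Submodule.eq_of_le_of_finrank_le (l1.trans l2) (by omega)
  have e0 : K0 = K := le_antisymm l2 (e1 ▸ l1)
  intro v hv
  rw [← eval_map_algebraMap' v f]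
  refine tay ({D} : Set (Derivation ℂ k k)) K0 ?_ (x := y) hc ?_ _ (hd.map _) ?_ ?_ v (e0 ▸ hv)
  · rintro _ rfl w hw
    have h2 : Om ω c *ᵥ w = 0 := hw
    have := dv_mulVec D (Om ω c) w
    rw [h2, dv_zero, Om_map, ht, map_smul, Matrix.smul_mulVec, h2, smul_zero, zero_add] at this
    exact this.symm
  · rw [e0, ← e1]
    refine Submodule.span_le.2 ?_
    rintro _ ⟨a, rfl⟩
    fin_cases a
    exacts [Submodule.mem_sup_left (Submodule.mem_span_singleton_self y),
      Submodule.mem_sup_right (Submodule.subset_span ⟨D, rfl, rfl⟩)]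
  · rintro _ rfl
    exact cD_map _ f
  · rw [eval_map_algebraMap']
    exact hy f hf

end PV.O7
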