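import Pool.Agent.Lib.MP_36fb43_ag.Bas

open MvPolynomial Matrix Module

namespace PV

variable {Z : Cone ℂ 6} {Ω : Type} [Field Ω] [Algebra ℂ Ω]

theorem cz (Ω : Type) [Field Ω] [Algebra ℂ Ω] : CharZero Ω :=
  charZero_of_injective_algebraMap (algebraMap ℂ Ω).injective

namespace Tri
variable (T : Tri Z Ω)

theorem e0 : T.e 0 = T.q := rfl
theorem e_succ (a : ℕ) : T.e (a + 1) = dv T.Dπ (T.e a) := rfl

theorem p0 : T.p 0 ≠ 0 := fun h => by
  obtain ⟨D, hD⟩ := T.exp (Pi.single 0 1)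
  have := congrFun hD 0
  simp [h] at this

theorem u_ne (i : Fin 3) : T.u i ≠ 0 := fun h => by
  obtain ⟨g, -, -, e⟩ := T.trans i (i + 1)
  rw [h, map_zero, ← h] at e
  have := T.uinj e
  revert this
  fin_cases i <;> decide

theorem x0 (i : Fin 3) : T.x i 0 ≠ 0 := by
  simpa [x, T.q0] using ⟨T.u_ne i, T.p0⟩

theorem x_ne (i : Fin 3) : T.x i ≠ 0 := fun h => T.x0 i (congrFun h 0)

theorem hx (i : Fin 3) : T.h i ⬝ᵥ T.x i = 0 := (tg_self Z (T.on i)).dot (T.hN i)

theorem hq (i : Fin 3) : T.h i ⬝ᵥ T.q = 0 := by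
  have := T.hx i
  rwa [x, dotProduct_add, dotProduct_smul, T.hp, smul_zero, zero_add] at this

theorem dx (D : Derivation ℂ Ω Ω) (i : Fin 3) :
    dv D (T.x i) = D (T.u i) • T.p + (T.u i • dv D T.p + dv D T.q) := by
  rw [x, dv_add, dv_smul, add_assoc]

theorem tgx (D : Derivation ℂ Ω Ω) (i : Fin 3) : Tg Z.I (T.x i) (dv D (T.x i)) :=
  tg_dv (T.on i) D D.map_algebraMap

theorem hD (D : Derivation ℂ Ω Ω) (i : Fin 3) :
    T.h i ⬝ᵥ (T.u i • dv D T.p + dv D T.q) = 0 := by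
  have := (T.tgx D i).dot (T.hN i)
  rwa [dx, dotProduct_add, dotProduct_smul, T.hp, smul_zero, zero_add] at this

theorem dq0 (D : Derivation ℂ Ω Ω) : dv D T.q 0 = 0 := by simp [T.q0]
theorem dqj (D : Derivation ℂ Ω Ω) : dv D T.q T.j = 0 := by simp [T.qj]

theorem e_0 (a : ℕ) : T.e a 0 = 0 := by
  induction a with
  | zero => exact T.q0
  | succ a ih => simp [e_succ, ih]

theorem e_j (a : ℕ) : T.e (a + 1) T.j = 0 := by
  induction a with
  | zero => exact T.dqj _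
  | succ a ih => rw [e_succ, dv_apply, ih, map_zero]

theorem he1 (i : Fin 3) : T.h i ⬝ᵥ T.e 1 = 0 := by
  have := T.hD T.Dπ i
  rwa [T.Dπp, smul_zero, zero_add] at this

theorem e1_ne : T.e 1 ≠ 0 := T.πne

/-- coefficients of a relation between `p`, `q` and a vector of `W0` -/
theorem rel {a b : Ω} {w : Fin 6 → Ω} (h0 : w 0 = 0) (hj : w T.j = 0)
    (h : a • T.p + b • T.q + w = 0) : a = 0 ∧ b = 0 ∧ w = 0 := by
  have h1 := congrFun h 0
  simp only [Pi.add_apply, Pi.smul_apply, smul_eq_mul, T.q0, h0, mul_zero, add_zero,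
    Pi.zero_apply, mul_eq_zero, T.p0, or_false] at h1
  have h2 := congrFun h T.j
  simp only [Pi.add_apply, Pi.smul_apply, smul_eq_mul, T.qj, hj, h1, zero_mul, mul_one, add_zero,
    zero_add, Pi.zero_apply] at h2
  exact ⟨h1, h2, by simpa [h1, h2] using h⟩

theorem li3 : LinearIndependent Ω ![T.p, T.e 0, T.e 1] := by
  rw [Fintype.linearIndependent_iff]
  intro g hg
  simp only [Fin.sum_univ_three, cons_val_zero, cons_val_one, cons_val] at hg
  obtain ⟨a, b, c⟩ := T.rel (w := g 2 • T.e 1) (by simp [T.e_0]) (by simp [T.e_j]) hg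
  have := (smul_eq_zero.1 c).resolve_right T.e1_ne
  intro i
  fin_cases i <;> assumption

theorem li2 : LinearIndependent Ω ![T.p, T.q] := by
  rw [LinearIndependent.pair_iff]
  intro a b h
  obtain ⟨a, b, -⟩ := T.rel (w := 0) rfl rfl (by rw [add_zero]; exact h)
  exact ⟨a, b⟩

theorem ker (v : Fin 6 → Ω) :
    (∀ i, T.h i ⬝ᵥ v = 0) ↔ v ∈ Submodule.span Ω {T.p, T.e 0, T.e 1} := by
  have e : Submodule.span Ω {T.p, T.e 0, T.e 1} = perp (Submodule.span Ω (Set.range T.h)) := by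
    refine Submodule.eq_of_le_of_finrank_eq (Submodule.span_le.2 ?_) ?_
    · rintro v (rfl | rfl | rfl) <;> refine mem_perp_span.2 ?_ <;> rintro _ ⟨i, rfl⟩
      exacts [T.hp i, T.hq i, T.he1 i]
    · have h1 := finrank_perp (Submodule.span Ω (Set.range T.h))
      rw [finrank_span_eq_card T.hli] at h1
      have h2 := finrank_span_eq_card T.li3
      rw [show Set.range ![T.p, T.e 0, T.e 1] = {T.p, T.e 0, T.e 1} by
        ext; simp; tauto] at h2
      simp only [Fintype.card_fin] at h1 h2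
      omega
  rw [e, mem_perp_span]
  exact ⟨fun h _ ⟨i, e⟩ => e ▸ h i, fun h i => h _ ⟨i, rfl⟩⟩

theorem ker' {v : Fin 6 → Ω} (h : ∀ i, T.h i ⬝ᵥ v = 0) :
    ∃ a b c : Ω, v = a • T.p + b • T.q + c • T.e 1 := by
  obtain ⟨a, b, c, e⟩ := Submodule.mem_span_triple.1 ((T.ker v).1 h)
  exact ⟨a, b, c, e.symm⟩

theorem ker0 {v : Fin 6 → Ω} (h : ∀ i, T.h i ⬝ᵥ v = 0) (h0 : v 0 = 0) (hj : v T.j = 0) :
    ∃ c : Ω, v = c • T.e 1 := by
  obtain ⟨a, b, c, e⟩ := T.ker' h
  obtain ⟨-, -, e'⟩ := T.rel (a := a) (b := b) (w := c • T.e 1 - v) (by simp [T.e_0, h0])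
    (by simp [T.e_j, hj]) (by rw [e]; abel)
  exact ⟨c, (sub_eq_zero.1 e').symm⟩

theorem ex (v w : Fin 6 → Ω) (h0 : w 0 = 0) (hj : w T.j = 0)
    (h : ∀ i, T.h i ⬝ᵥ (T.u i • v + w) = 0) :
    ∃ D : Derivation ℂ Ω Ω, dv D T.p = v ∧ dv D T.q = w := by
  obtain ⟨D, hD⟩ := T.exp v
  obtain ⟨c, hc⟩ := T.ker0 (v := w - dv D T.q) (fun i => by
    have h1 := T.hD D i
    have h2 := h i
    rw [hD, dotProduct_add] at h1
    rw [dotProduct_add] at h2
    rw [dotProduct_sub]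
    linear_combination h2 - h1) (by simp [h0, T.q0]) (by simp [hj, T.qj])
  refine ⟨D + c • T.Dπ, ?_, ?_⟩
  · rw [dvD_add, dvD_smul, T.Dπp, smul_zero, add_zero, hD]
  · rw [dvD_add, dvD_smul]
    change _ + c • T.e 1 = _
    rw [← hc]; abel

/-- a derivation killing `p` is a multiple of `Dπ` -/
theorem eq_smul {D : Derivation ℂ Ω Ω} (h : dv D T.p = 0) : ∃ c : Ω, D = c • T.Dπ := by
  obtain ⟨c, hc⟩ := T.ker0 (v := dv D T.q) (fun i => by
    have := T.hD D i
    rwa [h, smul_zero, zero_add] at this) (T.dq0 D) (T.dqj D)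
  refine ⟨c, sub_eq_zero.1 (T.uq _ ?_ ?_)⟩
  · rw [dvD_sub, dvD_smul, h, T.Dπp, smul_zero, sub_zero]
  · rw [dvD_sub, dvD_smul, hc]; exact sub_self _

/-- the dual vectors -/
theorem pi_ex : ∃ π : Fin 3 → Fin 6 → Ω, (∀ i, π i 0 = 0) ∧ (∀ i, π i T.j = 0) ∧
    ∀ a i, T.h a ⬝ᵥ π i = if a = i then 1 else 0 := by
  have key : ∀ i : Fin 3, ∃ v : Fin 6 → Ω, ∀ a, T.h a ⬝ᵥ v = if a = i then 1 else 0 := by
    intro i
    have hr : (Matrix.of T.h).rank = 3 := by
      rw [Matrix.rank_eq_finrank_span_row]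
      exact (finrank_span_eq_card T.hli).trans (Fintype.card_fin 3)
    have ht : LinearMap.range (Matrix.of T.h).mulVecLin = ⊤ :=
      Submodule.eq_top_of_finrank_eq (by rw [finrank_fintype_fun_eq_card, Fintype.card_fin]; exact hr)
    obtain ⟨v, hv⟩ : (Pi.single i 1 : Fin 3 → Ω) ∈ LinearMap.range (Matrix.of T.h).mulVecLin :=
      ht ▸ Submodule.mem_top
    exact ⟨v, fun a => (congrFun hv a).trans (Pi.single_apply _ _ _)⟩
  choose v hv using key
  refine ⟨fun i => v i - (v i 0 / T.p 0) • T.p - (v i T.j - v i 0 / T.p 0 * T.p T.j) • T.q,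
    fun i => ?_, fun i => ?_, fun a i => ?_⟩
  · simp [T.q0, T.p0]
  · simp [T.qj]
  · simp [dotProduct_sub, T.hp, T.hq, hv]

/-- the conormal covectors killing `p` -/
theorem hline (i : Fin 3) {w : Fin 6 → Ω} (hw : w ∈ Nm Z.I (T.x i)) (hp : w ⬝ᵥ T.p = 0) :
    ∃ t : Ω, w = t • T.h i := by
  obtain ⟨f, hf⟩ := not_forall.1 (T.nt i)
  obtain ⟨hf, hν⟩ := Classical.not_imp.1 hf
  have hl : LinearIndependent Ω ![T.h i, gr f (T.x i)] := by
    rw [LinearIndependent.pair_iff]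
    intro a b h
    have h1 := congrArg (· ⬝ᵥ T.p) h
    simp only [add_dotProduct, smul_dotProduct, T.hp, smul_eq_mul, mul_zero, zero_add,
      zero_dotProduct, mul_eq_zero] at h1
    have hb : b = 0 := h1.resolve_right hν
    rw [hb, zero_smul, add_zero] at h
    exact ⟨(smul_eq_zero.1 h).resolve_right (T.hli.ne_zero i), hb⟩
  have e : Submodule.span Ω (Set.range ![T.h i, gr f (T.x i)]) = Nm Z.I (T.x i) := by
    refine Submodule.eq_of_le_of_finrank_eq (Submodule.span_le.2 ?_) ?_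
    · rintro _ ⟨a, rfl⟩
      fin_cases a
      exacts [T.hN i, gr_mem hf]
    · rw [finrank_span_eq_card hl, Z.rk Ω _ (T.x_ne i) (T.on i), Fintype.card_fin]
  rw [← e, Matrix.range_cons, Matrix.range_cons, Matrix.range_empty, Set.union_empty,
    Set.singleton_union, Submodule.mem_span_pair] at hw
  obtain ⟨a, b, rfl⟩ := hw
  simp only [add_dotProduct, smul_dotProduct, T.hp, smul_eq_mul, mul_zero, zero_add,
    mul_eq_zero] at hp
  exact ⟨a, by rw [hp.resolve_right hν, zero_smul, add_zero]⟩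

/-- a tangent vector on the line is a multiple of the point -/
theorem tg_line (i : Fin 3) {a b : Ω} (h : Tg Z.I (T.x i) (a • T.p + b • T.q)) :
    a = b * T.u i := by
  by_contra hne
  refine T.nt i fun f hf => ?_
  have h1 := h f hf
  have h2 := tg_self Z (T.on i) f hf
  rw [dotProduct_add, dotProduct_smul, dotProduct_smul] at h1
  rw [dotProduct_add, dotProduct_smul] at h2
  simp only [smul_eq_mul, x] at h1 h2
  refine (mul_eq_zero.1 (?_ : (a - b * T.u i) * _ = 0)).resolve_left (sub_ne_zero.2 hne)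
  linear_combination h1 - b * h2

end Tri

theorem hs_self {k F : Type} [Field k] [Field F] [Algebra k F] {n : ℕ}
    (f : MvPolynomial (Fin n) k) (x : Fin n → F) :
    hs f x *ᵥ x = gr (∑ i, X i * pderiv i f) x - gr f x := by
  ext a
  simp only [mulVec, dotProduct, hs, gr, map_sum, Derivation.leibniz, smul_eq_mul, map_add, map_mul,
    aeval_X, Pi.sub_apply, Finset.sum_add_distrib, pderiv_X, Pi.single_apply]
  rw [Finset.sum_eq_single a (f := fun i => aeval x (pderiv i f) * aeval x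
    (if i = a then (1 : MvPolynomial (Fin n) k) else 0)) (fun b _ hb => by simp [hb]) (by simp)]
  simp [mul_comm]

theorem Nm_stab {k F R : Type} [Field k] [CharZero k] [Field R] [Field F] [Algebra k F]
    [Algebra R F] {n : ℕ} (Z : Cone k n) {x : Fin n → F} (D : Derivation R F F)
    (hD : ∀ c : k, D (algebraMap k F c) = 0) {t : F} (hx : dv D x = t • x) {w : Fin n → F}
    (hw : w ∈ Nm Z.I x) : dv D w ∈ Nm Z.I x := by
  induction hw using Submodule.span_induction with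
  | mem w h =>
    obtain ⟨f, hf, rfl⟩ := h
    rw [dv_gr D hD, hx, mulVec_smul, hs_self]
    exact Submodule.smul_mem _ _ (sub_mem (gr_mem (euler_mem Z hf)) (gr_mem hf))
  | zero => rw [dv_zero]; exact zero_mem _
  | add a b _ _ ha hb => rw [dv_add]; exact add_mem ha hb
  | smul a w hw h =>
    rw [dv_smul]
    exact add_mem (Submodule.smul_mem _ _ hw) (Submodule.smul_mem _ _ h)

theorem Tri.dh (T : Tri Z Ω) (D : Derivation ℂ Ω Ω) (i : Fin 3)
    (hx : ∃ t : Ω, dv D (T.x i) = t • T.x i) (hp : T.h i ⬝ᵥ dv D T.p = 0) :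
    ∃ t : Ω, dv D (T.h i) = t • T.h i := by
  obtain ⟨t, ht⟩ := hx
  refine T.hline i (Nm_stab Z D D.map_algebraMap ht (T.hN i)) ?_
  have := D_dot D (T.h i) T.p
  rwa [T.hp, map_zero, hp, add_zero, eq_comm] at this

theorem Tri.dec (T : Tri Z Ω) {π : Fin 3 → Fin 6 → Ω}
    (hπ : ∀ a i, T.h a ⬝ᵥ π i = if a = i then 1 else 0) (c : Fin 3 → Ω) (a : Fin 3) :
    T.h a ⬝ᵥ ∑ i, c i • π i = c a := by
  simp [dotProduct_sum, hπ]

/-- every tangent vector at `x i` is a derivative -/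
theorem Tri.tg_all (T : Tri Z Ω) (i : Fin 3) {v : Fin 6 → Ω} (hv : Tg Z.I (T.x i) v) :
    ∃ (D : Derivation ℂ Ω Ω) (t : Ω), v = dv D (T.x i) + t • T.x i := by
  obtain ⟨π, π0, πj, hπ⟩ := T.pi_ex
  let c : Fin 3 → Ω := fun a => (T.h a ⬝ᵥ v) / (T.u i - T.u a)
  have hc : ∀ a, (T.u i - T.u a) * c a = T.h a ⬝ᵥ v := fun a => by
    by_cases h : a = i
    · rw [h, sub_self, zero_mul, hv.dot (T.hN i)]
    · exact mul_div_cancel₀ _ (sub_ne_zero.2 fun e => h (T.uinj e).symm)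
  obtain ⟨α, β, γ, e⟩ := T.ker' (v := v - ∑ a, (T.h a ⬝ᵥ v) • π a) fun a => by
    rw [dotProduct_sub, T.dec hπ, sub_self]
  obtain ⟨D, h1, h2⟩ := T.ex (∑ a, c a • π a) (∑ a, (-(T.u a * c a)) • π a + γ • T.e 1)
    (by simp [Finset.sum_apply, π0, T.e_0]) (by simp [Finset.sum_apply, πj, T.e_j]) fun a => by
      rw [dotProduct_add, dotProduct_add, dotProduct_smul, dotProduct_smul, T.dec hπ, T.dec hπ,
        T.he1]
      simp
  have e2 : v - dv D (T.x i) = (α - D (T.u i)) • T.p + β • T.q := by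
    have : T.u i • ∑ a, c a • π a + ∑ a, (-(T.u a * c a)) • π a = ∑ a, (T.h a ⬝ᵥ v) • π a := by
      rw [Finset.smul_sum, ← Finset.sum_add_distrib]
      exact Finset.sum_congr rfl fun a _ => by
        rw [smul_smul, ← add_smul, ← hc]; congr 1; ring
    rw [T.dx, h1, h2, ← add_assoc (T.u i • _), this, sub_smul]
    linear_combination (exp := 1) e
  have h3 := T.tg_line i (a := α - D (T.u i)) (b := β) fun f hf => by
    rw [← e2, dotProduct_sub]
    exact sub_eq_zero.2 ((hv f hf).trans (T.tgx D i f hf).symm)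
  refine ⟨D, β, ?_⟩
  rw [← sub_eq_iff_eq_add', e2, h3, Tri.x, smul_add, smul_smul]

theorem rank_of_tg {k F R : Type} [Field k] [Field R] [Field F] [Algebra k F] [Algebra R F] {n : ℕ}
    (Z : Cone k n) {x : Fin n → F} (h0 : x ≠ 0) (hx : On Z.I x)
    (h : ∀ v, Tg Z.I x v → ∃ (D : Derivation R F F) (t : F), v = dv D x + t • x) :
    n ≤ finrank F (Submodule.span F {x} ⊔ dsp (Set.univ : Set (Derivation R F F)) x :
      Submodule F (Fin n → F)) + 2 := by
  refine (finrank_tg Z h0 hx).ge.trans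
    (Nat.add_le_add_right (Submodule.finrank_mono fun v hv => ?_) 2)
  obtain ⟨D, t, rfl⟩ := h v (tg_iff.2 hv)
  exact add_mem (Submodule.mem_sup_right (Submodule.subset_span ⟨D, trivial, rfl⟩))
    (Submodule.mem_sup_left (Submodule.smul_mem _ _ (Submodule.mem_span_singleton_self x)))

/-- the points are generic -/
theorem Tri.gen (T : Tri Z Ω) (i : Fin 3) {f : MvPolynomial (Fin 6) ℂ} {d : ℕ}
    (hd : f.IsHomogeneous d) (hf : aeval (T.x i) f = 0) : f ∈ Z.I :=
  PV.gen Z (T.on i) (Set.univ : Set (Derivation ℂ Ω Ω)) (fun D _ => D.map_algebraMap)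
    (rank_of_tg Z (T.x_ne i) (T.on i) fun _ => T.tg_all i) f hd hf

theorem qf_hom {k σ : Type} [CommRing k] [Fintype σ] (M : Matrix σ σ k) : (qf M).IsHomogeneous 2 :=
  IsHomogeneous.sum _ _ _ fun a _ => IsHomogeneous.sum _ _ _ fun b _ =>
    ((isHomogeneous_C _ _).mul (isHomogeneous_X _ a)).mul (isHomogeneous_X _ b)

theorem lin_hom {k σ : Type} [CommRing k] [Fintype σ] (l : σ → k) : (lin l).IsHomogeneous 1 :=
  IsHomogeneous.sum _ _ _ fun a _ => (isHomogeneous_C _ _).mul (isHomogeneous_X _ a)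

theorem aeval_qf {k F σ : Type} [CommRing k] [CommRing F] [Algebra k F] [Fintype σ]
    (M : Matrix σ σ k) (x : σ → F) : aeval x (qf M) = x ⬝ᵥ M.map (algebraMap k F) *ᵥ x := by
  simp only [qf, map_sum, map_mul, aeval_X, aeval_C, dotProduct, mulVec, Finset.mul_sum,
    Matrix.map_apply]
  exact Finset.sum_congr rfl fun a _ => Finset.sum_congr rfl fun b _ => by ring

theorem aeval_lin {k F σ : Type} [CommRing k] [CommRing F] [Algebra k F] [Fintype σ]
    (l : σ → k) (x : σ → F) : aeval x (lin l) = (algebraMap k F ∘ l) ⬝ᵥ x := by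
  simp [lin, dotProduct]

theorem Tri.poly (T : Tri Z Ω) {s : Sect Z 2} (M : Matrix (Fin 6) (Fin 6) Ω)
    (hM : ∀ (D : Derivation ℂ Ω Ω) a b, D (M a b) = 0)
    (h : s.Val (T.x 0) (T.x 0 ⬝ᵥ M *ᵥ T.x 0)) : s.Poly := by
  choose M0 hM0 using fun a b => const_mem fun D => hM D a b
  have e : (Matrix.of M0).map (algebraMap ℂ Ω) = M := by ext a b; exact hM0 a b
  refine ⟨qf (Matrix.of M0), fun i => T.gen 0 (d := s.N + 2) ?_ ?_⟩
  · refine IsHomogeneous.sub ?_ (s.hom i)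
    simpa using ((isHomogeneous_X ℂ i).pow s.N).mul (qf_hom _)
  · rw [map_sub, map_mul, map_pow, aeval_X, ← h i, aeval_qf, e, sub_self]

end PV
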