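import Pool.Agent.Lib.MP_36fb43_ag.PlaA
import Pool.Agent.Lib.MP_36fb43_ag.TriB

open MvPolynomial Matrix Module

namespace PV

section
variable {R F σ : Type} [CommRing R] [Field F] [Algebra R F]

theorem plb_dv_add (D : Derivation R F F) (v w : σ → F) : dv D (v + w) = dv D v + dv D w := by
  funext i; simp [dv]

theorem plb_dv_smul (D : Derivation R F F) (c : F) (v : σ → F) :
    dv D (c • v) = D c • v + c • dv D v := by
  funext i; simp [dv]; ring

theorem plb_dv_sum (D : Derivation R F F) {r : ℕ} (c : Fin r → F) (l : Fin r → σ → F) :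
    dv D (∑ a, c a • l a) = ∑ a, D (c a) • l a + ∑ a, c a • dv D (l a) := by
  funext i
  simp only [dv, Finset.sum_apply, Pi.smul_apply, smul_eq_mul, map_sum, Derivation.leibniz,
    Pi.add_apply, ← Finset.sum_add_distrib]
  exact Finset.sum_congr rfl fun a _ => by ring

theorem plb_pow (D : Derivation R F F) {x b : F} (h : D x = b * x) (n : ℕ) :
    D (x ^ n) = n * b * x ^ n := by
  induction n with
  | zero => simp
  | succ n ih => rw [pow_succ, D.leibniz, ih, h]; simp only [smul_eq_mul]; push_cast; ring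

end

theorem plb_nm {k F σ : Type} [CommRing k] [Field F] [Algebra k F] [Fintype σ]
    {I : Ideal (MvPolynomial σ k)} {x h v : σ → F} (hh : h ∈ Nm I x) (hv : Tg I x v) :
    h ⬝ᵥ v = 0 := by
  induction hh using Submodule.span_induction with
  | mem w hw => obtain ⟨f, hf, rfl⟩ := hw; exact hv f hf
  | zero => simp
  | add a b _ _ ha hb => rw [add_dotProduct, ha, hb, add_zero]
  | smul c a _ ha => rw [smul_dotProduct, ha, smul_zero]

theorem plb_tg {F σ : Type} [Field F] [Algebra ℂ F] [Fintype σ]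
    {I : Ideal (MvPolynomial σ ℂ)} {x : σ → F} (hx : On I x) (D : Derivation ℂ F F) :
    Tg I x (dv D x) := fun f hf => by
  rw [← D_aeval D D.map_algebraMap, hx f hf, map_zero]

theorem plb_irr {A B : Type} [CommRing A] [IsDomain A] [WfDvdMonoid A] [Field B] (φ : A →+* B)
    {f : A} (h0 : f ≠ 0) (h : φ f = 0) : ∃ g, Irreducible g ∧ g ∣ f ∧ φ g = 0 := by
  induction f using WfDvdMonoid.induction_on_irreducible with
  | zero => exact absurd rfl h0
  | unit u hu => exact absurd h (hu.map φ).ne_zero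
  | mul a i ha hi ih =>
    rw [map_mul, mul_eq_zero] at h
    rcases h with h | h
    · exact ⟨i, hi, dvd_mul_right _ _, h⟩
    · obtain ⟨g, g1, g2, g3⟩ := ih ha h
      exact ⟨g, g1, g2.mul_left _, g3⟩

/-- the focal determinant -/
noncomputable def plbDet {k : Type} [Field k] (μ : Fin 3 → Fin 6 → k)
    (w : Fin 3 → Fin 3 → Fin 6 → k) : MvPolynomial (Fin 3) k :=
  (Matrix.of ![C ∘ μ 0, C ∘ μ 1, C ∘ μ 2, pl (w 0), pl (w 1), pl (w 2)]).det

theorem plb_det_hom {k : Type} [Field k] (μ : Fin 3 → Fin 6 → k)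
    (w : Fin 3 → Fin 3 → Fin 6 → k) : (plbDet μ w).IsHomogeneous 3 := by
  rw [plbDet, ← det_transpose, det_apply']
  refine IsHomogeneous.sum _ _ _ fun s _ => ?_
  have e : ((Equiv.Perm.sign s : ℤ) : MvPolynomial (Fin 3) k) = C ((Equiv.Perm.sign s : ℤ) : k) :=
    by simp
  rw [e]
  refine IsHomogeneous.C_mul ?_ _
  have := IsHomogeneous.prod Finset.univ (fun i : Fin 6 => (Matrix.of
    ![C ∘ μ 0, C ∘ μ 1, C ∘ μ 2, pl (w 0), pl (w 1), pl (w 2)])ᵀ (s i) i) ![0, 0, 0, 1, 1, 1]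
    (fun i _ => by
      fin_cases i
      exacts [isHomogeneous_C _ _, isHomogeneous_C _ _, isHomogeneous_C _ _, pla_hom1 _ _,
        pla_hom1 _ _, pla_hom1 _ _])
  exact this

theorem plb_det_aeval {k Ω : Type} [Field k] [Field Ω] [Algebra k Ω] (μ : Fin 3 → Fin 6 → k)
    (w : Fin 3 → Fin 3 → Fin 6 → k) (y : Fin 3 → Ω) : aeval y (plbDet μ w) =
    (Matrix.of ![algebraMap k Ω ∘ μ 0, algebraMap k Ω ∘ μ 1, algebraMap k Ω ∘ μ 2,
      ∑ a, y a • (algebraMap k Ω ∘ w 0 a), ∑ a, y a • (algebraMap k Ω ∘ w 1 a),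
      ∑ a, y a • (algebraMap k Ω ∘ w 2 a)]).det := by
  rw [plbDet, AlgHom.map_det]
  congr 1
  ext i j
  fin_cases i
  exacts [aeval_C _ _, aeval_C _ _, aeval_C _ _, pla_pl _ _ _, pla_pl _ _ _, pla_pl _ _ _]

theorem plb_det_ne {k : Type} [Field k] {ι : Fin 3 → Fin 6} {μ : Fin 3 → Fin 6 → k}
    (h : Ech ι μ) : ∃ v : Fin 3 → Fin 6 → k, (∀ m a, v m (ι a) = 0) ∧
      (Matrix.of ![μ 0, μ 1, μ 2, v 0, v 1, v 2]).det ≠ 0 := by
  have hc : 3 ≤ (Finset.univ \ Finset.univ.image ι).card := by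
    have := Finset.card_image_le (s := Finset.univ) (f := ι)
    rw [Finset.card_sdiff_of_subset (Finset.subset_univ _)]
    simp only [Finset.card_univ, Fintype.card_fin] at this ⊢
    omega
  let j := (Finset.univ \ Finset.univ.image ι).orderEmbOfCardLe hc
  have hj : ∀ m a, ι a ≠ j m := fun m a e => by
    have := Finset.orderEmbOfCardLe_mem _ hc m
    rw [Finset.mem_sdiff] at this
    exact this.2 (Finset.mem_image.2 ⟨a, Finset.mem_univ _, e⟩)
  have hv : ∀ m a, (Pi.single (j m) 1 : Fin 6 → k) (ι a) = 0 :=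
    fun m a => Pi.single_eq_of_ne (hj m a) _
  have hw : ∀ m m', (Pi.single (j m) 1 : Fin 6 → k) (j m') = if m' = m then 1 else 0 :=
    fun m m' => by rw [Pi.single_apply]; simp
  refine ⟨fun m => Pi.single (j m) 1, hv, fun e => ?_⟩
  obtain ⟨c, c0, hc⟩ := exists_vecMul_eq_zero_iff.2 e
  have h1 : ∀ i, c 0 * μ 0 i + c 1 * μ 1 i + c 2 * μ 2 i + c 3 * (Pi.single (j 0) 1 : Fin 6 → k) i +
      c 4 * (Pi.single (j 1) 1 : Fin 6 → k) i + c 5 * (Pi.single (j 2) 1 : Fin 6 → k) i = 0 :=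
    fun i => by
      have := congrFun hc i
      rw [vecMul, dotProduct, Fin.sum_univ_six] at this
      exact this
  have a0 := h1 (ι 0)
  have a1 := h1 (ι 1)
  have a2 := h1 (ι 2)
  have a3 := h1 (j 0)
  have a4 := h1 (j 1)
  have a5 := h1 (j 2)
  simp only [h _ _, hv] at a0 a1 a2
  simp only [hw] at a3 a4 a5
  simp at a0 a1 a2
  simp [a0, a1, a2] at a3 a4 a5
  apply c0
  funext i
  fin_cases i
  exacts [a0, a1, a2, a3, a4, a5]

section
variable {Z : Cone ℂ 6} {Ω : Type} [Field Ω] [IsAlgClosed Ω] [Algebra ℂ Ω]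

theorem plb_li (T : Tri Z Ω) {a b c : Ω} (h : a • T.p + b • T.e 0 + c • T.e 1 = 0) :
    a = 0 ∧ b = 0 ∧ c = 0 := by
  obtain ⟨D, hD⟩ := T.exp (Pi.single 0 1)
  have p0 : T.p 0 ≠ 0 := fun e => by
    have := congrFun hD 0
    simp [dv, e] at this
  have h0 := congrFun h 0
  have hj := congrFun h T.j
  simp only [Tri.e, dv, Pi.add_apply, Pi.smul_apply, smul_eq_mul, T.q0, T.qj, map_zero,
    Derivation.map_one_eq_zero, mul_zero, add_zero, Pi.zero_apply, mul_one] at h0 hj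
  have ha : a = 0 := (mul_eq_zero.1 h0).resolve_right p0
  have hb : b = 0 := by rwa [ha, zero_mul, zero_add] at hj
  rw [ha, hb, zero_smul, zero_smul, zero_add, zero_add] at h
  exact ⟨ha, hb, (smul_eq_zero.1 h).resolve_right T.πne⟩

theorem plb_stab (T : Tri Z Ω) (hθ : ∀ i, T.h i ⬝ᵥ T.e 2 = 0) {v : Fin 6 → Ω}
    (hv : v ∈ Submodule.span Ω {T.p, T.e 0, T.e 1}) :
    dv T.Dπ v ∈ Submodule.span Ω {T.p, T.e 0, T.e 1} := by
  induction hv using Submodule.span_induction with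
  | mem w hw =>
    rcases hw with rfl | rfl | rfl
    · rw [T.Dπp]; exact zero_mem _
    · exact Submodule.subset_span (Or.inr (Or.inr rfl))
    · exact (T.ker _).1 hθ
  | zero => rw [show dv T.Dπ 0 = 0 by funext i; simp [dv]]; exact zero_mem _
  | add a b _ _ ha hb => rw [plb_dv_add]; exact add_mem ha hb
  | smul c a h ha =>
    rw [plb_dv_smul]; exact add_mem (Submodule.smul_mem _ _ h) (Submodule.smul_mem _ _ ha)

theorem plb_ech (T : Tri Z Ω) (hθ : ∀ i, T.h i ⬝ᵥ T.e 2 = 0) :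
    ∃ (ι : Fin 3 → Fin 6) (l : Fin 3 → Fin 6 → Ω), Ech ι l ∧
      Submodule.span Ω (Set.range l) = Submodule.span Ω {T.p, T.e 0, T.e 1} ∧
      ∀ a, dv T.Dπ (l a) = 0 := by
  have li : LinearIndependent Ω ![T.p, T.e 0, T.e 1] := by
    rw [Fintype.linearIndependent_iff]
    intro g hg i
    rw [Fin.sum_univ_three] at hg
    have := plb_li T hg
    fin_cases i
    exacts [this.1, this.2.1, this.2.2]
  have e : Set.range ![T.p, T.e 0, T.e 1] = {T.p, T.e 0, T.e 1} := by
    simp only [Matrix.range_cons, Matrix.range_empty, Set.union_empty, Set.singleton_union]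
  have hr := finrank_span_eq_card li
  rw [e, Fintype.card_fin] at hr
  obtain ⟨ι, l, h1, h2⟩ := ech_ex _ hr
  refine ⟨ι, l, h1, h2, h1.dv _ fun a => ?_⟩
  rw [h2]
  exact plb_stab T hθ (h2 ▸ Submodule.subset_span ⟨a, rfl⟩)

/-- a derivation moving `p` inside the plane fixes the plane and can be corrected to fix `x 0` -/
theorem plb_key (T : Tri Z Ω) (hθ : ∀ i, T.h i ⬝ᵥ T.e 2 = 0) {ι : Fin 3 → Fin 6}
    {l : Fin 3 → Fin 6 → Ω} (h1 : Ech ι l)
    (h2 : Submodule.span Ω (Set.range l) = Submodule.span Ω {T.p, T.e 0, T.e 1})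
    (E : Derivation ℂ Ω Ω) (hE : ∀ a, dv T.Dπ (dv E (l a)) = 0)
    (hp : dv E T.p ∈ Submodule.span Ω {T.p, T.e 0, T.e 1}) :
    (∀ a, dv E (l a) = 0) ∧ ∃ c b : Ω, dv (E - c • T.Dπ) (T.x 0) = b • T.x 0 := by
  have mp : T.p ∈ Submodule.span Ω {T.p, T.e 0, T.e 1} := Submodule.subset_span (Or.inl rfl)
  have mq : T.e 0 ∈ Submodule.span Ω {T.p, T.e 0, T.e 1} :=
    Submodule.subset_span (Or.inr (Or.inl rfl))
  have hq : dv E (T.e 0) ∈ Submodule.span Ω {T.p, T.e 0, T.e 1} := by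
    refine (T.ker _).1 fun i => ?_
    have := plb_nm (T.hN i) (plb_tg (T.on i) E)
    rw [plb_dv_add, plb_dv_smul, dotProduct_add, dotProduct_add, dotProduct_smul, dotProduct_smul,
      T.hp, (T.ker _).2 hp i] at this
    simpa [Tri.e] using this
  have ml : ∀ c : Fin 3 → Ω, ∑ a, c a • l a ∈ Submodule.span Ω {T.p, T.e 0, T.e 1} := fun c =>
    h2 ▸ Submodule.sum_mem _ fun a _ => Submodule.smul_mem _ _ (Submodule.subset_span ⟨a, rfl⟩)
  have g1 : ∀ v ∈ Submodule.span Ω {T.p, T.e 0, T.e 1},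
      dv E v ∈ Submodule.span Ω {T.p, T.e 0, T.e 1} →
      ∑ a, v (ι a) • dv E (l a) ∈ Submodule.span Ω {T.p, T.e 0, T.e 1} := by
    intro v hv hd
    have e := h1.repr (h2 ▸ hv)
    rw [e, plb_dv_sum] at hd
    exact (Submodule.add_mem_iff_right _ (ml _)).1 hd
  have g2 : ∀ v ∈ Submodule.span Ω {T.p, T.e 0, T.e 1},
      ∑ a, v (ι a) • dv E (l a) ∈ Submodule.span Ω {T.p, T.e 0, T.e 1} := by
    intro v hv
    induction hv using Submodule.span_induction with
    | mem w hw =>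
      rcases hw with rfl | rfl | rfl
      · exact g1 _ mp hp
      · exact g1 _ mq hq
      · have := plb_stab T hθ (g1 _ mq hq)
        rw [plb_dv_sum] at this
        simp only [hE, smul_zero, Finset.sum_const_zero, add_zero] at this
        exact this
    | zero => simp
    | add a b _ _ ha hb =>
      simp only [Pi.add_apply, add_smul, Finset.sum_add_distrib]; exact add_mem ha hb
    | smul c a _ ha =>
      simp only [Pi.smul_apply, smul_assoc, ← Finset.smul_sum]; exact Submodule.smul_mem _ _ ha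
  refine ⟨h1.dv _ fun a => ?_, ?_⟩
  · have := g2 (l a) (h2 ▸ Submodule.subset_span ⟨a, rfl⟩)
    rw [h2]
    simpa [h1 a _] using this
  have hx : dv E (T.x 0) ∈ Submodule.span Ω {T.p, T.e 0, T.e 1} := by
    rw [Tri.x, plb_dv_add, plb_dv_smul]
    exact add_mem (add_mem (Submodule.smul_mem _ _ mp) (Submodule.smul_mem _ _ hp)) hq
  obtain ⟨a, b, c, e⟩ := Submodule.mem_span_triple.1 hx
  have e2 : dv (E - c • T.Dπ) (T.x 0) =
      b • T.x 0 + (a - b * T.u 0 - c * T.Dπ (T.u 0)) • T.p := by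
    funext i
    have e3 := congrFun e i
    have e4 := congrFun T.Dπp i
    simp only [dv, Tri.x, Tri.e, Pi.add_apply, Pi.smul_apply, smul_eq_mul, Pi.zero_apply,
      Derivation.sub_apply, Derivation.smul_apply] at e3 e4 ⊢
    rw [← e3, map_add, Derivation.leibniz, e4]
    simp only [smul_eq_mul]
    ring
  refine ⟨c, b, ?_⟩
  by_cases e5 : a - b * T.u 0 - c * T.Dπ (T.u 0) = 0
  · rw [e2, e5, zero_smul, add_zero]
  · refine absurd (fun f hf => ?_) (T.nt 0)
    have t1 := plb_tg (T.on 0) (E - c • T.Dπ) f hf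
    have t2 := tg_self Z (T.on 0) f hf
    change gr f (T.x 0) ⬝ᵥ dv _ (T.x 0) = 0 at t1
    change gr f (T.x 0) ⬝ᵥ (T.x 0) = 0 at t2
    rw [e2, dotProduct_add, dotProduct_smul, dotProduct_smul, t2, smul_zero, zero_add] at t1
    exact (smul_eq_zero.1 t1).resolve_left e5

end

end PV
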