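import Pool.Agent.Lib.MP_36fb43_ag.GP
import Pool.Agent.Lib.MP_36fb43_ag.FourA

/-! The plane cubic of the line type is nonsingular. -/

open MvPolynomial Matrix Module

namespace PV

variable {Z : Cone ℂ 6} {s : Sect Z 2} {k : Type} [Field k] [IsAlgClosed k] [Algebra ℂ k]
  {p : Fin 6 → k}

theorem plane_sm (hp : GenPt p) (P : Plane s p) (y : Fin 3 → k) (h0 : y ≠ 0) :
    gr P.e y ≠ 0 := by
  intro hy
  have : CharZero k := charZero_of_injective_algebraMap (algebraMap ℂ k).injective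
  let q : Fin 6 → k := ∑ a, y a • P.μ a
  have qU : q ∈ P.U := Submodule.sum_mem _ fun a _ =>
    Submodule.smul_mem _ _ (Submodule.subset_span ⟨a, rfl⟩)
  have qy : q ∘ P.ι = y := by
    funext b
    simp [q, P.ech _ b]
  have ey : eval y P.e = 0 := by
    have := ka_euler P.ehom y
    rw [hy, zero_dotProduct, aeval_eq_eval] at this
    exact (mul_eq_zero.1 this.symm).resolve_left (by norm_num)
  have hq : LinearIndependent k ![p, q] := by
    refine LinearIndependent.pair_iff.2 fun a b h => ?_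
    have e : a • p ∘ P.ι + b • y = 0 := by rw [← qy]; exact congrArg (· ∘ P.ι) h
    have e1 := fo_eval_smul P.ehom a (p ∘ P.ι)
    rw [eq_neg_of_add_eq_zero_left e, ← neg_smul, fo_eval_smul P.ehom, ey, mul_zero] at e1
    have a0 : a = 0 := pow_eq_zero_iff (by norm_num) |>.1
      ((mul_eq_zero.1 e1.symm).resolve_right P.ep)
    rw [a0, zero_smul, zero_add] at e
    exact ⟨a0, (smul_eq_zero.1 e).resolve_right h0⟩
  obtain ⟨d1, d2⟩ := fo_ln_top (p ∘ P.ι) y P.ehom
  set g3 := aeval (ln (p ∘ P.ι) y) P.e with hg3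
  have d3 : g3.natDegree = 3 := Polynomial.natDegree_eq_of_le_of_coeff_ne_zero d1 (d2 ▸ P.ep)
  have g0 : g3 ≠ 0 := fun h => by rw [h] at d3; simp at d3
  have m3 := Polynomial.monic_mul_leadingCoeff_inv g0
  have c0 := Polynomial.leadingCoeff_ne_zero.2 g0
  have cc : Polynomial.C g3.leadingCoeff⁻¹ * Polynomial.C g3.leadingCoeff = 1 := by
    rw [← map_mul, inv_mul_cancel₀ c0, map_one]
  have sp : ∀ f r, aeval (pl P.μ) f = P.e * r → aeval (ln p q) f =
      g3 * Polynomial.C g3.leadingCoeff⁻¹ *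
        (Polynomial.C g3.leadingCoeff * aeval (ln (p ∘ P.ι) y) r) := fun (f : MvPolynomial _ ℂ) r hr => by
    have e1 := fo_ln_pl P.ech P.pm qU f
    rw [hr, map_mul, show ln p q ∘ P.ι = ln (p ∘ P.ι) y from qy ▸ rfl] at e1
    rw [← e1, ← hg3]
    linear_combination (-g3 * aeval (ln (p ∘ P.ι) y) r) * cc
  have h2 : (Polynomial.X - Polynomial.C (0 : k)) ^ 2 ∣ g3 * Polynomial.C g3.leadingCoeff⁻¹ := by
    refine Dvd.dvd.mul_right ?_ _
    rw [map_zero, sub_zero, Polynomial.X_pow_dvd_iff]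
    intro d hd
    interval_cases d
    · rw [Polynomial.coeff_zero_eq_eval_zero, hg3, fo_eval_ln, zero_smul, zero_add, aeval_eq_eval,
        ey]
    · have := congrArg (Polynomial.eval 0) (ln_deriv (p ∘ P.ι) y P.e)
      rw [grL_eval, zero_smul, zero_add, hy, zero_dotProduct, ← Polynomial.coeff_zero_eq_eval_zero,
        Polynomial.coeff_derivative] at this
      simpa using this
  obtain ⟨-, -, key⟩ := gpa (Z := Z) hp.ex hq m3
    (by rw [Polynomial.natDegree_mul_leadingCoeff_inv _ g0, d3])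
    (fun f hf => by obtain ⟨r, hr⟩ := P.dvd f hf; exact ⟨_, sp f r hr⟩) h2
  have le : P.U ≤ Submodule.span k {p, q} := fun v hv => by
    refine key v (grL P.e (p ∘ P.ι) y (v ∘ P.ι) * Polynomial.C g3.leadingCoeff⁻¹) ?_
      fun f hf r' hr' => ?_
    · rw [Polynomial.eval_mul, grL_eval, zero_smul, zero_add, hy, zero_dotProduct, zero_mul]
    · obtain ⟨r, hr⟩ := P.dvd f hf
      obtain rfl := mul_left_cancel₀ m3.ne_zero (hr'.symm.trans (sp f r hr))
      have e : grL f p q v = g3 * grL r (p ∘ P.ι) y (v ∘ P.ι) +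
          aeval (ln (p ∘ P.ι) y) r * grL P.e (p ∘ P.ι) y (v ∘ P.ι) := by
        refine Polynomial.funext fun z => ?_
        have xU : z • p + q ∈ P.U := P.U.add_mem (P.U.smul_mem _ P.pm) qU
        have := fo_gr_pl P.μ ((z • p + q) ∘ P.ι) (v ∘ P.ι) f
        simp only [Function.comp_apply] at this
        rw [← P.ech.repr xU, ← P.ech.repr hv, hr, ka_gr_mul,
          show (z • p + q) ∘ P.ι = z • p ∘ P.ι + y from qy ▸ rfl] at this
        rw [grL_eval, ← this, Polynomial.eval_add, Polynomial.eval_mul, Polynomial.eval_mul,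
          grL_eval, grL_eval, hg3, fo_eval_ln, fo_eval_ln]
        simp
      refine ⟨Polynomial.C g3.leadingCoeff * grL r (p ∘ P.ι) y (v ∘ P.ι), ?_⟩
      rw [e]
      linear_combination (-g3 * grL r (p ∘ P.ι) y (v ∘ P.ι) -
        aeval (ln (p ∘ P.ι) y) r * grL P.e (p ∘ P.ι) y (v ∘ P.ι)) * cc
  have := Submodule.finrank_mono le
  rw [fo_li] at this
  classical
  have h3 := finrank_span_le_card (R := k) ({p, q} : Set (Fin 6 → k))
  rw [Set.toFinset_insert, Set.toFinset_singleton] at h3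
  have := Finset.card_le_two (a := p) (b := q)
  omega

end PV
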