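import Pool.Agent.Lib.MP_36fb43_ag.TriB
import Pool.Agent.Lib.MP_36fb43_ag.GP
import Pool.Agent.Lib.MP_36fb43_ag.PlaB
import Pool.Agent.Lib.MP_36fb43_ag.PlaS

open MvPolynomial Matrix Module

namespace PV

variable {Z : Cone ℂ 6} {s : Sect Z 2} {k : Type} [Field k] [IsAlgClosed k] [Algebra ℂ k]
  {p : Fin 6 → k}

theorem pla_qf_hom {k σ : Type} [Field k] [Fintype σ] (M : Matrix σ σ k) :
    (qf M).IsHomogeneous 2 :=
  IsHomogeneous.sum _ _ _ fun _ _ => IsHomogeneous.sum _ _ _ fun _ _ =>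
    (isHomogeneous_C_mul_X _ _).mul (isHomogeneous_X _ _)

theorem pla_qf {k Ω σ : Type} [Field k] [Field Ω] [Algebra k Ω] [Fintype σ] (M : Matrix σ σ k)
    (x : σ → Ω) : aeval x (qf M) = x ⬝ᵥ M.map (algebraMap k Ω) *ᵥ x := by
  simp only [qf, map_sum, map_mul, aeval_C, aeval_X, dotProduct, mulVec, map_apply,
    Finset.mul_sum]
  exact Finset.sum_congr rfl fun i _ => Finset.sum_congr rfl fun j _ => by ring

theorem plane_ex (hp : GenPt p) {Ω : Type} [Field Ω] [IsAlgClosed Ω] [Algebra ℂ Ω] [Algebra k Ω]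
    [IsScalarTower ℂ k Ω] {T : Tri Z Ω} (L : Leg T s) (hT : T.p = algebraMap k Ω ∘ p)
    (hc : ∀ y, T.Dπ y = 0 ↔ y ∈ Set.range (algebraMap k Ω)) (hθ : ∀ i, T.h i ⬝ᵥ T.e 2 = 0) :
    ∃ P : Plane s p, T.q = ∑ a, T.q (P.ι a) • (algebraMap k Ω ∘ P.μ a) ∧
      aeval (ln T.p T.q ∘ P.ι) P.e = Polynomial.C (algebraMap k Ω (eval (p ∘ P.ι) P.e)) *
        ∏ a, (Polynomial.X - Polynomial.C (T.u a)) := by
  have : CharZero k := charZero_of_injective_algebraMap (algebraMap ℂ k).injective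
  have : CharZero Ω := charZero_of_injective_algebraMap (algebraMap ℂ Ω).injective
  have inj := (algebraMap k Ω).injective
  have kill : ∀ c : k, T.Dπ (algebraMap k Ω c) = 0 := fun c => (hc _).2 ⟨c, rfl⟩
  obtain ⟨ι, l, h1, h2, h3⟩ := plb_ech T hθ
  have hl : ∀ a, ∃ m : Fin 6 → k, algebraMap k Ω ∘ m = l a := fun a => by
    choose m hm using fun i => (hc (l a i)).1 (congrFun (h3 a) i)
    exact ⟨m, funext hm⟩
  choose μ hμ using hl
  have h1' : Ech ι μ := fun a b => inj (by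
    have := congrFun (hμ a) (ι b)
    rw [h1 a b] at this
    rw [apply_ite (algebraMap k Ω), map_one, map_zero]; exact this)
  set U := Submodule.span Ω {T.p, T.e 0, T.e 1} with hU
  have rep : ∀ v ∈ U, ∑ a, v (ι a) • (algebraMap k Ω ∘ μ a) = v := fun v hv => by
    simp only [hμ]; exact (h1.repr (h2 ▸ hv)).symm
  have mp : T.p ∈ U := Submodule.subset_span (Or.inl rfl)
  have mq : T.q ∈ U := Submodule.subset_span (Or.inr (Or.inl rfl))
  have mx : ∀ i, T.x i ∈ U := fun i => add_mem (Submodule.smul_mem _ _ mp) mq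
  have ml : ∀ a, l a ∈ U := fun a => h2 ▸ Submodule.subset_span ⟨a, rfl⟩
  have up : ∀ v ∈ Submodule.span k (Set.range μ), algebraMap k Ω ∘ v ∈ U := fun v hv => by
    have e : algebraMap k Ω ∘ v = ∑ a, algebraMap k Ω (v (ι a)) • l a := by
      funext i
      conv_lhs => rw [h1'.repr hv]
      simp [← hμ, Finset.sum_apply, Algebra.smul_def]
    rw [e]
    exact Submodule.sum_mem _ fun a _ => Submodule.smul_mem _ _ (ml a)
  have pm : p ∈ Submodule.span k (Set.range μ) := by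
    have e : p = ∑ a, p (ι a) • μ a := by
      funext i
      apply inj
      have := congrFun (rep _ mp) i
      rw [hT] at this
      simpa [Finset.sum_apply, Algebra.smul_def] using this.symm
    rw [e]
    exact Submodule.sum_mem _ fun a _ => Submodule.smul_mem _ _ (Submodule.subset_span ⟨a, rfl⟩)
  have ext : ∀ D : Derivation ℂ k k, ∃ E : Derivation ℂ Ω Ω,
      ∀ y, E (algebraMap k Ω y) = algebraMap k Ω (D y) :=
    fun D => der_ext (IsScalarTower.toAlgHom ℂ k Ω) D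
  have key : ∀ D : Derivation ℂ k k, dv D p ∈ Submodule.span k (Set.range μ) →
      (∀ a, dv D (μ a) = 0) ∧ ∃ (E : Derivation ℂ Ω Ω) (b : Ω),
        (∀ y, E (algebraMap k Ω y) = algebraMap k Ω (D y)) ∧ dv E (T.x 0) = b • T.x 0 := by
    intro D hD
    obtain ⟨E, hE⟩ := ext D
    have e : ∀ v : Fin 6 → k, dv E (algebraMap k Ω ∘ v) = algebraMap k Ω ∘ dv D v :=
      fun v => funext fun i => hE _
    obtain ⟨a1, c, b, a2⟩ := plb_key T hθ h1 h2 E
      (fun a => by rw [← hμ, e]; exact funext fun i => kill _) (by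
        have := up _ hD
        rwa [← e, ← hT] at this)
    refine ⟨fun a => funext fun i => inj ?_, E - c • T.Dπ, b, fun y => ?_, a2⟩
    · have := congrFun (a1 a) i
      rw [← hμ, e] at this
      simpa using this
    · simp [hE, kill]
  have plx : ∀ i j, aeval (T.x i ∘ ι) (pl μ j) = T.x i j := fun i j => by
    rw [pla_pl]; exact congrFun (rep _ (mx i)) j
  have plf : ∀ f : MvPolynomial (Fin 6) ℂ,
      aeval (T.x 0 ∘ ι) (aeval (pl μ) f) = aeval (T.x 0) f := fun f => by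
    have := pla_comp (k := ℂ) (aeval (R := k) (T.x 0 ∘ ι)).toRingHom (fun c => by
      rw [IsScalarTower.algebraMap_apply ℂ k (MvPolynomial (Fin 3) k),
        IsScalarTower.algebraMap_apply ℂ k Ω]
      exact AlgHom.commutes _ _) (pl μ) f
    refine this.trans ?_
    congr 2
    exact funext (plx 0)
  -- the focal determinant vanishes at the first point
  have foc0 : ∀ D : Fin 3 → Derivation ℂ k k,
      aeval (T.x 0 ∘ ι) (plbDet μ fun m a => dv (D m) (μ a)) = 0 := by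
    intro D
    have a1 : ∀ a, (algebraMap k Ω ∘ μ a) ⬝ᵥ T.h 0 = 0 := fun a => by
      rw [hμ, dotProduct_comm]; exact (T.ker _).2 (ml a) 0
    have a2 : ∀ m, (∑ a, (T.x 0 ∘ ι) a • (algebraMap k Ω ∘ dv (D m) (μ a))) ⬝ᵥ T.h 0 = 0 := by
      intro m
      obtain ⟨E, hE⟩ := ext (D m)
      have e : ∀ v : Fin 6 → k, dv E (algebraMap k Ω ∘ v) = algebraMap k Ω ∘ dv (D m) v :=
        fun v => funext fun i => hE _
      have := plb_nm (T.hN 0) (plb_tg (T.on 0) E)
      change T.h 0 ⬝ᵥ dv E (T.x 0) = 0 at this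
      rw [← rep _ (mx 0), plb_dv_sum, dotProduct_add, dotProduct_sum, Finset.sum_eq_zero
        (fun a _ => by rw [dotProduct_smul, dotProduct_comm, a1, smul_zero]), zero_add] at this
      simp only [e] at this
      rw [dotProduct_comm]
      exact this
    rw [plb_det_aeval, ← exists_mulVec_eq_zero_iff]
    refine ⟨T.h 0, T.hli.ne_zero 0, funext fun i => ?_⟩
    fin_cases i
    exacts [a1 0, a1 1, a1 2, a2 0, a2 1, a2 2]
  obtain ⟨v, v1, v2⟩ := plb_det_ne h1'
  choose D0 hD0 using fun m => hp.ex (v m)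
  have e0p : aeval (p ∘ ι) (plbDet μ fun m a => dv (D0 m) (μ a)) ≠ 0 := by
    have e : ∀ m, ∑ a, (p ∘ ι) a • (algebraMap k k ∘ dv (D0 m) (μ a)) = v m := fun m => by
      have := hD0 m
      rw [h1'.repr pm, plb_dv_sum, Finset.sum_eq_zero (fun a _ => by
        rw [show D0 m (p (ι a)) = 0 from (congrFun (hD0 m) _).trans (v1 m a), zero_smul]),
        zero_add] at this
      exact this
    rw [plb_det_aeval, e, e, e]
    exact v2
  have e0n : (plbDet μ fun m a => dv (D0 m) (μ a)) ≠ 0 := fun e => e0p (by rw [e, map_zero])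
  obtain ⟨ψ, ψ1, ⟨χ, ψ2⟩, ψ3⟩ := plb_irr (aeval (R := k) (T.x 0 ∘ ι)).toRingHom e0n (foc0 D0)
  have ψ4 := (homfac (ψ2 ▸ plb_det_hom _ _) (ψ2 ▸ e0n)).1
  have ψp : aeval (p ∘ ι) ψ ≠ 0 := fun e => e0p (by rw [ψ2, map_mul, e, zero_mul])
  have ψi : ∀ i, aeval (T.x i ∘ ι) ψ = 0 := fun i => by
    obtain ⟨g, g1, g2, g3⟩ := T.trans 0 i
    have := pla_comp (k := k) g.toRingHom (fun c => g1 _ (kill c)) (T.x 0 ∘ ι) ψ
    rw [show aeval (T.x 0 ∘ ι) ψ = 0 from ψ3, map_zero] at this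
    rw [this]
    congr 2
    funext a
    have := g1 _ (congrFun T.Dπp (ι a))
    simp [Tri.x, g2, g3, this]
  have top : ∀ f : MvPolynomial (Fin 3) k, aeval (T.p ∘ ι) f = algebraMap k Ω (aeval (p ∘ ι) f) :=
    fun f => by rw [pla_comp (k := k) (algebraMap k Ω) (fun _ => rfl), hT]; rfl
  have ψ5 : ψ.IsHomogeneous 3 := by
    have a1 := totalDegree_le_of_dvd_of_isDomain ⟨χ, ψ2⟩ e0n
    have a2 := (plb_det_hom μ fun m a => dv (D0 m) (μ a)).totalDegree_le
    have a3 := pla_ln ψ4 (T.p ∘ ι) (T.q ∘ ι)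
    have a4 : ¬ ψ.totalDegree < 3 := fun hlt => by
      have := Polynomial.eq_zero_of_natDegree_lt_card_of_eval_eq_zero
        (aeval (ln (T.p ∘ ι) (T.q ∘ ι)) ψ) T.uinj (fun i => by rw [pla_ln_eval]; exact ψi i)
        (by rw [Fintype.card_fin]; omega)
      rw [this, Polynomial.coeff_zero, top] at a3
      exact ψp (inj (by rw [← a3.2, map_zero]))
    rwa [show ψ.totalDegree = 3 by omega] at ψ4
  obtain ⟨m, hm⟩ := ne_zero_iff.1 ψ1.ne_zero
  set e := C (coeff m ψ)⁻¹ * ψ with he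
  have ehom : e.IsHomogeneous 3 := ψ5.C_mul _
  have em : coeff m e = 1 := by rw [he, coeff_C_mul, inv_mul_cancel₀ hm]
  have e0 : e ≠ 0 := fun h => by simp [h] at em
  have ei : ∀ i, aeval (T.x i ∘ ι) e = 0 := fun i => by rw [he, map_mul, ψi, mul_zero]
  have rk : Fintype.card (Fin 3) ≤ finrank Ω (Submodule.span Ω {T.x 0 ∘ ι} ⊔
      dsp {T.Dπ} (T.x 0 ∘ ι) : Submodule Ω (Fin 3 → Ω)) + 1 := by
    have li : LinearIndependent Ω ![T.x 0 ∘ ι, dv T.Dπ (T.x 0) ∘ ι] := by
      rw [LinearIndependent.pair_iff]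
      intro a b hab
      have := rep _ (add_mem (Submodule.smul_mem _ a (mx 0))
        (Submodule.smul_mem _ b (plb_stab T hθ (mx 0))))
      rw [Finset.sum_eq_zero (fun c _ => by
        rw [show (a • T.x 0 + b • dv T.Dπ (T.x 0)) (ι c) = 0 from congrFun hab c, zero_smul]),
        Tri.x, plb_dv_add, plb_dv_smul, T.Dπp] at this
      have := plb_li T (a := a * T.u 0 + b * T.Dπ (T.u 0)) (b := a) (c := b) (by
        rw [this]; simp only [Tri.e]; module)
      exact this.2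
    have a1 := finrank_span_eq_card li
    have a2 : Submodule.span Ω (Set.range ![T.x 0 ∘ ι, dv T.Dπ (T.x 0) ∘ ι]) ≤
        Submodule.span Ω {T.x 0 ∘ ι} ⊔ dsp {T.Dπ} (T.x 0 ∘ ι) := by
      rw [Submodule.span_le]
      rintro _ ⟨i, rfl⟩
      fin_cases i
      · exact Submodule.mem_sup_left (Submodule.subset_span rfl)
      · exact Submodule.mem_sup_right (Submodule.subset_span ⟨_, rfl, rfl⟩)
    have := Submodule.finrank_mono a2
    simp only [Fintype.card_fin] at a1 ⊢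
    omega
  have dv1 : ∀ (f : MvPolynomial (Fin 3) k) (d : ℕ), f.IsHomogeneous d →
      aeval (T.x 0 ∘ ι) f = 0 → e ∣ f := fun f d hf h0 =>
    (((isUnit_iff_ne_zero.2 (inv_ne_zero hm)).map C).mul_left_dvd).2
      (ht1h (T.x 0 ∘ ι) {T.Dπ} (by rintro _ rfl; exact kill) rk ψ1 ψ5 (ψi 0) f hf h0)
  choose H0 hH0 using fun a b => (hc (L.H a b)).1 (by rw [L.dH, T.Dπp]; simp [Pv])
  have Qhom : (C (1 / 2 : k) * aeval (pl μ) (qf H0)).IsHomogeneous 2 :=
    (pla_hom μ (pla_qf_hom _)).C_mul _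
  have Qv : ∀ i, T.x 0 i ^ s.N * aeval (T.x 0 ∘ ι) (C (1 / 2 : k) * aeval (pl μ) (qf H0)) =
      aeval (T.x 0) (s.G i) := by
    intro i
    rw [← L.val 0 i, map_mul, aeval_C, ← AlgHom.comp_apply, comp_aeval, funext (plx 0), pla_qf,
      show Matrix.map H0 (algebraMap k Ω) = L.H from Matrix.ext hH0, Tri.x, mulVec_add,
      mulVec_smul, L.Hp, L.Hq, dotProduct_comm, add_dotProduct, smul_dotProduct, dotProduct_add,
      dotProduct_add, dotProduct_smul, dotProduct_smul, L.zp, L.zq, L.z'p, L.z'q]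
    simp only [map_div₀, map_one, map_ofNat, smul_eq_mul]
    ring
  refine ⟨⟨ι, μ, h1', pm, fun D hD => (key D hD).1, e, ehom, fun D hD => ?_, ?_, fun f hf => ?_,
    _, Qhom, fun D hD => ?_, fun i => ?_, fun D => ?_⟩, (rep _ mq).symm, ?_⟩
  · obtain ⟨-, E, b, a1, a2⟩ := key D hD
    have := pla_move D E a1 (x := T.x 0 ∘ ι) (b := b) (funext fun a => congrFun a2 _) ehom
    rw [ei, map_zero, mul_zero, add_zero] at this
    obtain ⟨t, ht⟩ := pla_same ehom e0 (pla_cD_hom D ehom)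
      (dv1 _ _ (pla_cD_hom D ehom) this.symm)
    have := congrArg (coeff m) ht
    rw [coeff_cD, em, coeff_C_mul, em, D.map_one_eq_zero, mul_one] at this
    rw [ht, ← this, C_0, zero_mul]
  · rw [he, map_mul, eval_C]
    exact mul_ne_zero (inv_ne_zero hm) ψp
  · rw [← sum_homogeneousComponent f, map_sum]
    exact Finset.dvd_sum fun d _ => dv1 _ _ (pla_hom μ (homogeneousComponent_isHomogeneous d f))
      (by rw [plf]; exact T.on 0 _ (Z.hom f hf d))
  · obtain ⟨-, E, b, a1, a2⟩ := key D hD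
    have a3 := pla_move D E a1 (x := T.x 0 ∘ ι) (b := b) (funext fun a => congrFun a2 _) Qhom
    obtain ⟨i, hi⟩ : ∃ i, T.x 0 i ≠ 0 := by
      by_contra hn
      push Not at hn
      have := plb_li T (a := T.u 0) (b := 1) (c := 0) (by
        rw [one_smul, zero_smul, add_zero]; exact funext hn)
      exact one_ne_zero this.2.1
    have a4 := congrArg E (Qv i)
    rw [E.leibniz, a3, plb_pow E (b := b) (congrFun a2 i), D_aeval E E.map_algebraMap, a2,
      dotProduct_smul, pla_euler (s.hom i), ← Qv i] at a4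
    refine pla_low ehom e0 (pla_cD_hom D Qhom) (by norm_num) (dv1 _ _ (pla_cD_hom D Qhom) ?_)
    refine (mul_eq_zero.1 ?_).resolve_left (pow_ne_zero s.N hi)
    simp only [smul_eq_mul] at a4
    push_cast at a4
    linear_combination a4
  · refine dv1 _ (s.N + 2) (IsHomogeneous.sub ?_ (pla_hom μ (s.hom i))) ?_
    · have := ((pla_hom1 μ i).pow s.N).mul Qhom
      rwa [one_mul] at this
    · rw [map_sub, map_mul, map_pow, plx, plf, Qv, sub_self]
  · obtain ⟨t, ht⟩ := pla_same ehom e0 (plb_det_hom _ _) (dv1 _ _ (plb_det_hom _ _) (foc0 D))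
    refine ⟨t, fun y => ?_⟩
    have := plb_det_aeval μ (fun m a => dv (D m) (μ a)) y
    rw [ht, map_mul, aeval_C] at this
    exact this.symm
  · change aeval (ln (T.p ∘ ι) (T.q ∘ ι)) e =
      Polynomial.C (algebraMap k Ω (aeval (p ∘ ι) e)) * _
    have a1 := pla_ln ehom (T.p ∘ ι) (T.q ∘ ι)
    have a2 : (∏ a, (Polynomial.X - Polynomial.C (T.u a))).Monic :=
      Polynomial.monic_prod_of_monic _ _ fun a _ => Polynomial.monic_X_sub_C _
    have a3 : (∏ a, (Polynomial.X - Polynomial.C (T.u a))).natDegree = 3 := by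
      rw [Polynomial.natDegree_prod_of_monic _ _ fun a _ => Polynomial.monic_X_sub_C _]
      simp
    have a4 : (∏ a, (Polynomial.X - Polynomial.C (T.u a))) ∣ aeval (ln (T.p ∘ ι) (T.q ∘ ι)) e :=
      Finset.prod_dvd_of_coprime (fun a _ b _ hab => Polynomial.isCoprime_X_sub_C_of_isUnit_sub
        (sub_ne_zero.2 (T.uinj.ne hab)).isUnit) fun a _ =>
        Polynomial.dvd_iff_isRoot.2 (by rw [Polynomial.IsRoot, pla_ln_eval]; exact ei a)
    rw [← top, ← a1.2]
    exact pla_top a2 a3 a1.1 a4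

end PV
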