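import Pool.Agent.Lib.MP_36fb43_ag.KC

open MvPolynomial Matrix Module

namespace PV

section
variable {k A B σ : Type} [CommRing k] [CommRing A] [CommRing B] [Algebra k A] [Algebra k B]

theorem pla_comp (φ : A →+* B) (hφ : ∀ c : k, φ (algebraMap k A c) = algebraMap k B c)
    (g : σ → A) (f : MvPolynomial σ k) : φ (aeval g f) = aeval (φ ∘ g) f := by
  induction f using MvPolynomial.induction_on with
  | C a => simp [hφ]
  | add f f' h h' => simp [h, h']
  | mul_X f i h => simp [h]

/-- chain rule -/
theorem pla_der [Fintype σ] (δ : A → A) (hadd : ∀ a b, δ (a + b) = δ a + δ b)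
    (hmul : ∀ a b, δ (a * b) = δ a * b + a * δ b) (hk : ∀ c : k, δ (algebraMap k A c) = 0)
    (g : σ → A) (f : MvPolynomial σ k) :
    δ (aeval g f) = ∑ i, aeval g (pderiv i f) * δ (g i) := by
  classical
  induction f using MvPolynomial.induction_on with
  | C a => simp [hk]
  | add f f' h h' => simp [hadd, h, h', add_mul, Finset.sum_add_distrib]
  | mul_X f i h =>
    simp only [map_mul, aeval_X, hmul, h, Derivation.leibniz, pderiv_X, smul_eq_mul, map_add,
      add_mul, Finset.sum_add_distrib, Finset.sum_mul, Pi.single_apply, apply_ite (aeval g),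
      map_zero, mul_ite, ite_mul, mul_one, mul_zero, zero_mul, Finset.sum_ite_eq,
      Finset.mem_univ, if_true]
    rw [add_comm]
    congr 1
    exact Finset.sum_congr rfl fun j _ => by ring

end

section
variable {k F σ : Type} [CommRing k] [Field F] [Algebra k F]

theorem pla_euler [Fintype σ] {f : MvPolynomial σ k} {d : ℕ} (hf : f.IsHomogeneous d)
    (x : σ → F) : gr f x ⬝ᵥ x = d * aeval x f := by
  have := congrArg (aeval x) hf.sum_X_mul_pderiv
  simp only [map_sum, map_mul, aeval_X, nsmul_eq_mul, map_natCast] at this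
  rw [← this, dotProduct]
  exact Finset.sum_congr rfl fun i _ => mul_comm _ _

theorem pla_ln {f : MvPolynomial σ k} {d : ℕ} (hf : f.IsHomogeneous d) (x y : σ → F) :
    (aeval (ln x y) f).natDegree ≤ d ∧ (aeval (ln x y) f).coeff d = aeval x f := by
  induction hf using IsWeightedHomogeneous.induction_on with
  | zero => simp
  | add f g _ _ h h' =>
    rw [map_add, map_add, Polynomial.coeff_add, h.2, h'.2]
    exact ⟨(Polynomial.natDegree_add_le _ _).trans (max_le h.1 h'.1), rfl⟩
  | monomial m r hr =>
    subst hr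
    induction m using Finsupp.induction_linear generalizing r with
    | zero =>
      rw [monomial_zero', aeval_C, aeval_C, Polynomial.algebraMap_apply]
      simp
    | add m m' h h' =>
      rw [← mul_one r, ← monomial_mul, map_mul, map_mul, map_add]
      exact ⟨Polynomial.natDegree_mul_le.trans (add_le_add (h r).1 (h' 1).1), by
        rw [Polynomial.coeff_mul_add_eq_of_natDegree_le (h r).1 (h' 1).1, (h r).2, (h' 1).2]⟩
    | single i n =>
      have e : (ln x y i).natDegree ≤ 1 := by unfold ln; compute_degree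
      have e2 : (ln x y i).coeff 1 = x i := by simp [ln]
      have e3 : Finsupp.weight (1 : σ → ℕ) (Finsupp.single i n) = n := by
        simp [Finsupp.weight_apply]
      rw [← C_mul_X_pow_eq_monomial, map_mul, map_mul, aeval_C, aeval_C, map_pow, map_pow,
        aeval_X, aeval_X, e3, Polynomial.algebraMap_apply, Polynomial.coeff_C_mul]
      have := Polynomial.coeff_pow_of_natDegree_le (m := n) e
      rw [mul_one] at this
      refine ⟨(Polynomial.natDegree_C_mul_le _ _).trans ?_, by rw [this, e2]⟩
      simpa using Polynomial.natDegree_pow_le_of_le n e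

theorem pla_smul {f : MvPolynomial σ k} {d : ℕ} (hf : f.IsHomogeneous d) (c : F) (x : σ → F) :
    aeval (c • x) f = c ^ d * aeval x f := by
  induction hf using IsWeightedHomogeneous.induction_on with
  | zero => simp
  | add f g _ _ h h' => rw [map_add, map_add, h, h', mul_add]
  | monomial m r hr =>
    subst hr
    induction m using Finsupp.induction_linear generalizing r with
    | zero => simp
    | add m m' h h' =>
      rw [← mul_one r, ← monomial_mul, map_mul, map_mul, map_add, h, h', pow_add]; ring
    | single i n =>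
      have e3 : Finsupp.weight (1 : σ → ℕ) (Finsupp.single i n) = n := by
        simp [Finsupp.weight_apply]
      rw [← C_mul_X_pow_eq_monomial, e3]
      simp only [map_mul, aeval_C, map_pow, aeval_X, Pi.smul_apply, smul_eq_mul]
      ring

theorem pla_top {f g : Polynomial F} {d : ℕ} (hg : g.Monic) (hd : g.natDegree = d)
    (hf : f.natDegree ≤ d) (h : g ∣ f) : f = Polynomial.C (f.coeff d) * g := by
  subst hd
  have := Polynomial.eq_mul_leadingCoeff_of_monic_of_dvd_of_natDegree_le hg h hf
  conv_rhs => rw [this, Polynomial.coeff_mul_C, hg.coeff_natDegree, one_mul, mul_comm]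
  exact this

theorem pla_ln_eval (f : MvPolynomial σ k) (x y : σ → F) (t : F) :
    (aeval (ln x y) f).eval t = aeval (t • x + y) f := by
  have := pla_comp (k := k) (Polynomial.evalRingHom t)
    (fun c => by simp [Polynomial.algebraMap_apply]) (ln x y) f
  rw [Polynomial.coe_evalRingHom] at this
  rw [this]
  congr 2
  funext i
  simp only [ln, Function.comp, Polynomial.eval_add, Polynomial.eval_mul, Polynomial.eval_C,
    Polynomial.eval_X, Pi.add_apply, Pi.smul_apply, smul_eq_mul]
  ring

theorem pla_ln_der [Fintype σ] (f : MvPolynomial σ k) (x y : σ → F) :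
    Polynomial.derivative (aeval (ln x y) f) = grL f x y x := by
  have := pla_der (k := k) (fun g : Polynomial F => Polynomial.derivative g)
    (fun _ _ => Polynomial.derivative_add) (fun _ _ => Polynomial.derivative_mul)
    (fun c => by rw [Polynomial.algebraMap_apply, Polynomial.derivative_C]) (ln x y) f
  rw [this]
  simp [grL, ln]

theorem pla_grL_eval [Fintype σ] (f : MvPolynomial σ k) (x y v : σ → F) (t : F) :
    (grL f x y v).eval t = gr f (t • x + y) ⬝ᵥ v := by
  simp [grL, gr, dotProduct, Polynomial.eval_finsetSum, pla_ln_eval]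

theorem pla_hom1 {r : ℕ} (l : Fin r → σ → F) (i : σ) : (pl l i).IsHomogeneous 1 :=
  IsHomogeneous.sum _ _ _ fun _ _ => isHomogeneous_C_mul_X _ _

theorem pla_hom {r : ℕ} (l : Fin r → σ → F) {f : MvPolynomial σ k} {d : ℕ}
    (hf : f.IsHomogeneous d) : (aeval (pl l) f).IsHomogeneous d := by
  have := hf.eval₂ (algebraMap k (MvPolynomial (Fin r) F)) (pl l)
    (fun c => isHomogeneous_C _ (algebraMap k F c)) (pla_hom1 l)
  rwa [one_mul] at this

theorem pla_ech {r : ℕ} {ι : Fin r → σ} {l : Fin r → σ → F} (h : Ech ι l) (a : Fin r) :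
    pl l (ι a) = X a := by
  simp [pl, h _ a, apply_ite C]

theorem pla_low {e f : MvPolynomial σ F} {d m : ℕ} (he : e.IsHomogeneous d) (h0 : e ≠ 0)
    (hf : f.IsHomogeneous m) (hm : m < d) (h : e ∣ f) : f = 0 := by
  by_contra hne
  have := totalDegree_le_of_dvd_of_isDomain h hne
  rw [he.totalDegree h0, hf.totalDegree hne] at this
  omega

theorem pla_same {e f : MvPolynomial σ F} {d : ℕ} (he : e.IsHomogeneous d) (h0 : e ≠ 0)
    (hf : f.IsHomogeneous d) (h : e ∣ f) : ∃ t, f = C t * e := by
  obtain ⟨t, rfl⟩ := h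
  by_cases ht : t = 0
  · exact ⟨0, by simp [ht]⟩
  have := totalDegree_mul_of_isDomain h0 ht
  rw [he.totalDegree h0, hf.totalDegree (mul_ne_zero h0 ht)] at this
  exact ⟨coeff 0 t, by rw [← totalDegree_eq_zero_iff_eq_C.1 (by omega), mul_comm]⟩

theorem pla_cD_hom {R : Type} [CommRing R] [Algebra R F] [Fintype σ] (D : Derivation R F F)
    {f : MvPolynomial σ F} {d : ℕ} (hf : f.IsHomogeneous d) : (cD D f).IsHomogeneous d := by
  refine IsHomogeneous.sum _ _ _ fun m hm => isHomogeneous_monomial _ ?_
  by_contra h
  exact mem_support_iff.1 hm (hf.coeff_eq_zero h)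

end

section
variable {k Ω σ : Type} [Field k] [Field Ω] [Algebra k Ω]

theorem pla_pl {r : ℕ} (μ : Fin r → σ → k) (y : Fin r → Ω) (i : σ) :
    aeval y (pl μ i) = (∑ a, y a • (algebraMap k Ω ∘ μ a)) i := by
  simp [pl, Finset.sum_apply, mul_comm]

theorem pla_lnpl {r : ℕ} (μ : Fin r → σ → k) (x y : Fin r → Ω) (i : σ) :
    aeval (ln x y) (pl μ i) =
      ln (∑ a, x a • (algebraMap k Ω ∘ μ a)) (∑ a, y a • (algebraMap k Ω ∘ μ a)) i := by
  simp only [pl, ln, map_sum, map_mul, aeval_C, aeval_X, Polynomial.algebraMap_apply,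
    Finset.sum_apply, Pi.smul_apply, smul_eq_mul, Function.comp, Finset.sum_mul,
    ← Finset.sum_add_distrib]
  exact Finset.sum_congr rfl fun a _ => by ring

/-- derivative of the value of a form at a point that moves along its own line -/
theorem pla_move {R : Type} [Field R] [Algebra R k] [Algebra R Ω] [Fintype σ]
    (D : Derivation R k k) (E : Derivation R Ω Ω)
    (hE : ∀ y, E (algebraMap k Ω y) = algebraMap k Ω (D y)) {x : σ → Ω} {b : Ω}
    (hx : dv E x = b • x) {f : MvPolynomial σ k} {d : ℕ} (hf : f.IsHomogeneous d) :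
    E (aeval x f) = aeval x (cD D f) + d * b * aeval x f := by
  have e1 : ∀ g : MvPolynomial σ k, aeval x g = eval x (MvPolynomial.map (algebraMap k Ω) g) :=
    fun g => by rw [eval_map, aeval_def]
  have e2 : cD E (MvPolynomial.map (algebraMap k Ω) f) =
      MvPolynomial.map (algebraMap k Ω) (cD D f) := by
    ext m
    rw [coeff_cD, coeff_map, coeff_map, coeff_cD, hE]
  rw [e1 f, D_eval, e2, ← e1, hx, dotProduct_smul, pla_euler (hf.map _), aeval_eq_eval]
  simp only [smul_eq_mul]
  ring

end

end PV
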