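import Pool.Agent.Lib.MP_36fb43_ag.TriB
import Pool.Agent.Lib.MP_36fb43_ag.KD
import Pool.Agent.Lib.MP_36fb43_ag.Bas

open MvPolynomial Matrix Module

namespace PV

section tr
variable {F R σ : Type} [CommRing R] [Field F] [Algebra R F] [Fintype σ]

theorem qa_dv (D : Derivation R F F) {P : σ → Matrix σ σ F} (hP : ∀ a b e, D (P a b e) = 0)
    (v w : σ → F) : dv D (Pv P v *ᵥ w) = Pv P (dv D v) *ᵥ w + Pv P v *ᵥ dv D w := by
  have : Pv (fun a => (P a).map D) v = 0 := by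
    ext a b
    simp [Pv_apply, hP]
  rw [dv_mulVec, Pv_map, this, zero_add]

theorem qa_iso {b0 b1 b2 t0 t1 t2 n1 n2 : F} (hb0 : b0 ≠ 0) (hb1 : b1 ≠ 0) (hb2 : b2 ≠ 0)
    (ht : t0 ≠ 0) (h1 : b0 * t0 * t0 + b1 * t1 * t1 + b2 * t2 * t2 = 0)
    (h2 : b1 * t1 * n1 + b2 * t2 * n2 = 0) (h3 : b1 * n1 * n1 + b2 * n2 * n2 = 0) :
    n1 = 0 ∧ n2 = 0 := by
  have e : b0 * t0 ^ 2 * b1 * n1 ^ 2 = 0 := by
    linear_combination (b1 * n1 ^ 2) * h1 - (b1 * t1 * n1 - b2 * t2 * n2) * h2 - b2 * t2 ^ 2 * h3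
  have e1 : n1 = 0 := by simpa [hb0, hb1, ht] using e
  refine ⟨e1, ?_⟩
  simpa [e1, hb2] using h3

theorem qa_top {e : ℕ → Fin 5 → F}
    (hl : LinearIndependent F ![e 0, e 1, e 2, e 3, e 4]) (U : Submodule F (Fin 5 → F))
    (hU : ∀ a, e a ∈ U) : U = ⊤ := by
  rw [eq_top_iff, ← hl.span_eq_top_of_card_eq_finrank' (by simp), Submodule.span_le]
  rintro _ ⟨i, rfl⟩
  fin_cases i <;> exact hU _

theorem qa_not (D : Derivation R F F) {e : ℕ → Fin 5 → F} (he : ∀ a, e (a + 1) = dv D (e a))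
    (hl : LinearIndependent F ![e 0, e 1, e 2, e 3, e 4]) {r : ℕ} (hr : r < 5)
    (v : Fin r → Fin 5 → F) (hv : ∀ i, dv D (v i) ∈ Submodule.span F (Set.range v)) :
    e 0 ∉ Submodule.span F (Set.range v) := fun h0 => by
  have st : ∀ w ∈ Submodule.span F (Set.range v), dv D w ∈ Submodule.span F (Set.range v) := by
    intro w hw
    obtain ⟨c, rfl⟩ := (Submodule.mem_span_range_iff_exists_fun _).1 hw
    rw [dv_sum]
    refine Submodule.sum_mem _ fun i _ => ?_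
    rw [dv_smul]
    exact Submodule.add_mem _ (Submodule.smul_mem _ _ (Submodule.subset_span ⟨i, rfl⟩))
      (Submodule.smul_mem _ _ (hv i))
  have top := qa_top hl (Submodule.span F (Set.range v)) fun a => by
    induction a with
    | zero => exact h0
    | succ a ih => rw [he]; exact st _ ih
  have := finrank_range_le_card (R := F) v
  rw [Set.finrank, top, finrank_top] at this
  simp at this
  omega

theorem qa_kill (D : Derivation R F F) {e : ℕ → Fin 5 → F} (he : ∀ a, e (a + 1) = dv D (e a))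
    (hl : LinearIndependent F ![e 0, e 1, e 2, e 3, e 4]) {w : Fin 5 → F} (hw : dv D w = 0)
    (h0 : w ⬝ᵥ e 0 = 0) : w = 0 := by
  have top := qa_top hl (perp (Submodule.span F {w})) fun a => by
    rw [mem_perp_span]
    rintro _ rfl
    induction a with
    | zero => exact h0
    | succ a ih =>
      have := congrArg D ih
      rwa [D_dot, hw, zero_dotProduct, zero_add, map_zero, ← he] at this
  ext i
  have : Pi.single i 1 ∈ perp (Submodule.span F {w}) := top ▸ Submodule.mem_top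
  simpa using mem_perp_span.1 this w rfl

theorem qa_li {Ω : Type} [Field Ω] (φ : F →+* Ω) {e : ℕ → Fin 5 → F}
    (hl : LinearIndependent F ![e 0, e 1, e 2, e 3, e 4]) :
    LinearIndependent Ω ![φ ∘ e 0, φ ∘ e 1, φ ∘ e 2, φ ∘ e 3, φ ∘ e 4] := by
  have h1 : IsUnit (Matrix.of ![e 0, e 1, e 2, e 3, e 4]) := linearIndependent_rows_iff_isUnit.1 hl
  have h2 := linearIndependent_rows_iff_isUnit.2 (h1.map φ.mapMatrix)
  convert h2 using 1
  ext i j
  fin_cases i <;> rfl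

end tr

section cub
variable {k F σ : Type} [Field k] [Field F] [Algebra k F] [Fintype σ]

/-- the matrix of linear forms `P(Y, ., .)` -/
noncomputable def qaM (P : σ → Matrix σ σ k) : Matrix σ σ (MvPolynomial σ k) :=
  fun b e => ∑ a, X a * C (P a b e)

theorem qaM_map (P : σ → Matrix σ σ k) (y : σ → F) :
    (qaM P).map (aeval y) = Pv (fun a => (P a).map (algebraMap k F)) y := by
  ext b e
  simp [qaM, Pv_apply]

theorem qaM_det [DecidableEq σ] (P : σ → Matrix σ σ k) (y : σ → F) :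
    aeval y (qaM P).det = (Pv (fun a => (P a).map (algebraMap k F)) y).det := by
  rw [AlgHom.map_det, ← qaM_map]; rfl

theorem qaM_cub (P : σ → Matrix σ σ k) (y : σ → F) :
    aeval y (X ⬝ᵥ qaM P *ᵥ X) = y ⬝ᵥ Pv (fun a => (P a).map (algebraMap k F)) y *ᵥ y := by
  simp [← qaM_map, dotProduct, mulVec]

theorem qaM_hom (P : σ → Matrix σ σ k) : (X ⬝ᵥ qaM P *ᵥ X).IsHomogeneous 3 := by
  refine IsHomogeneous.sum _ _ _ fun b _ => ?_
  refine (isHomogeneous_X k b).mul (IsHomogeneous.sum _ _ 2 fun e _ => ?_)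
  refine IsHomogeneous.mul (m := 1) (IsHomogeneous.sum _ _ 1 fun a _ => ?_) (isHomogeneous_X k e)
  exact (isHomogeneous_X k a).mul (isHomogeneous_C _ _)

theorem qa_map {Ω : Type} [Field Ω] [Algebra k Ω] (φ : F →ₐ[k] Ω) (P : σ → Matrix σ σ k)
    {v : σ → F} (h : Pv (fun a => (P a).map (algebraMap k F)) v *ᵥ v = 0) :
    Pv (fun a => (P a).map (algebraMap k Ω)) (φ ∘ v) *ᵥ (φ ∘ v) = 0 := by
  ext a
  have := congrArg φ (congrFun h a)
  simpa [mulVec, dotProduct, Pv_apply] using this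

theorem qa_fac {A B : Type} [CommRing A] [IsDomain A] [WfDvdMonoid A] [Field B] (φ : A →+* B)
    (f : A) : f ≠ 0 → φ f = 0 → ∃ ψ, Irreducible ψ ∧ ψ ∣ f ∧ φ ψ = 0 := by
  induction f using WfDvdMonoid.induction_on_irreducible with
  | zero => exact fun h => (h rfl).elim
  | unit u hu => exact fun _ h => ((hu.map φ).ne_zero h).elim
  | mul a i ha hi ih =>
    intro _ h
    rcases mul_eq_zero.1 ((map_mul φ i a).symm.trans h) with h | h
    · exact ⟨i, hi, dvd_mul_right _ _, h⟩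
    · obtain ⟨ψ, h1, h2, h3⟩ := ih ha h
      exact ⟨ψ, h1, h2.mul_left _, h3⟩

theorem qa_two [CharZero k] {f : MvPolynomial σ k} (hf : f.IsHomogeneous 2) (y : σ → F) :
    (∀ (D : Derivation k F F) i j, D (hs f y i j) = 0) ∧ (hs f y = 0 → f = 0) := by
  have c : ∀ i j, ∃ c, pderiv i (pderiv j f) = C c := fun i j =>
    ⟨_, totalDegree_eq_zero_iff_eq_C.1 ((totalDegree_zero_iff_isHomogeneous _).2 hf.pderiv.pderiv)⟩
  refine ⟨fun D i j => ?_, fun h => ?_⟩
  · obtain ⟨c, hc⟩ := c i j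
    simp [hs, hc]
  · have z : ∀ i j, pderiv i (pderiv j f) = 0 := fun i j => by
      obtain ⟨c, hc⟩ := c i j
      have := congrFun (congrFun h i) j
      simp only [hs, hc, aeval_C, Matrix.zero_apply, map_eq_zero] at this
      rw [hc, this, C_0]
    have z1 : ∀ j, pderiv j f = 0 := fun j => by
      simpa [z] using (hf.pderiv (i := j)).sum_X_mul_pderiv.symm
    simpa [z1] using hf.sum_X_mul_pderiv.symm

end cub

theorem qa_dvd {k F : Type} [Field k] [CharZero k] [IsAlgClosed k] [Field F] [Algebra k F]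
    (P : Fin 5 → Matrix (Fin 5) (Fin 5) k) (s1 : ∀ a b e, P a b e = P b a e)
    (s2 : ∀ a b e, P a b e = P a e b) (D : Derivation k F F) (e : ℕ → Fin 5 → F)
    (he : ∀ a, e (a + 1) = dv D (e a)) (hl : LinearIndependent F ![e 0, e 1, e 2, e 3, e 4])
    (h0 : Pv (fun a => (P a).map (algebraMap k F)) (e 0) *ᵥ e 0 = 0)
    (hn : X ⬝ᵥ qaM P *ᵥ X ≠ 0) : X ⬝ᵥ qaM P *ᵥ X ∣ (qaM P).det := by
  obtain ⟨Ω, _, _, _, ⟨c⟩⟩ := copy_ex (k := k) (F := F) 2
  obtain ⟨D1, a1, b1, l1⟩ := c.ex D 0 0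
  obtain ⟨D2, a2, b2, l2⟩ := c.ex 0 D 0
  obtain ⟨E1, a3, b3, l3⟩ := c.ex 0 0 ![1, 0]
  obtain ⟨E2, a4, b4, l4⟩ := c.ex 0 0 ![0, 1]
  obtain ⟨a, ha⟩ : ∃ a : ℕ → Fin 5 → Ω, ∀ i, a i = c.i1 ∘ e i := ⟨_, fun _ => rfl⟩
  obtain ⟨b, hb⟩ : ∃ b : ℕ → Fin 5 → Ω, ∀ i, b i = c.i2 ∘ e i := ⟨_, fun _ => rfl⟩
  have la : LinearIndependent Ω ![a 0, a 1, a 2, a 3, a 4] := by
    simp only [ha]; exact qa_li (c.i1 : F →+* Ω) hl
  have lb : LinearIndependent Ω ![b 0, b 1, b 2, b 3, b 4] := by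
    simp only [hb]; exact qa_li (c.i2 : F →+* Ω) hl
  have da : ∀ i, a (i + 1) = dv D1 (a i) := fun i => by ext j; simp [ha, he, a1]
  have db : ∀ i, b (i + 1) = dv D2 (b i) := fun i => by ext j; simp [hb, he, b2]
  have d1b : ∀ i, dv D1 (b i) = 0 := fun i => by ext j; simp [hb, b1]
  have d2a : ∀ i, dv D2 (a i) = 0 := fun i => by ext j; simp [ha, a2]
  have e1a : dv E1 (a 0) = 0 := by ext j; simp [ha, a3]
  have e1b : dv E1 (b 0) = 0 := by ext j; simp [hb, b3]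
  have e2a : dv E2 (a 0) = 0 := by ext j; simp [ha, a4]
  have e2b : dv E2 (b 0) = 0 := by ext j; simp [hb, b4]
  have hl0 : c.lam 0 ≠ 0 := fun h => by simpa [h] using l3 0
  have hl1 : c.lam 1 ≠ 0 := fun h => by simpa [h] using l4 1
  obtain ⟨y, hy⟩ : ∃ y, y = c.lam 0 • a 0 + c.lam 1 • b 0 := ⟨_, rfl⟩
  have y1 : dv D1 y = c.lam 0 • a 1 := by simp [hy, dv_add, dv_smul, l1, d1b, ← da]
  have y2 : dv D2 y = c.lam 1 • b 1 := by simp [hy, dv_add, dv_smul, l2, d2a, ← db]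
  have y3 : dv E1 y = a 0 := by simp [hy, dv_add, dv_smul, l3, e1a, e1b]
  have y4 : dv E2 y = b 0 := by simp [hy, dv_add, dv_smul, l4, e2a, e2b]
  -- four independent vectors
  have i2 : LinearIndependent Ω ![b 0, b 1] := by
    convert lb.comp ![0, 1] (by decide) using 1
    ext i j
    fin_cases i <;> rfl
  have n2 : a 0 ∉ Submodule.span Ω (Set.range ![b 0, b 1]) :=
    qa_not D1 da la (by norm_num) _ fun i => by fin_cases i <;> simp [d1b]
  have n3 : a 1 ∉ Submodule.span Ω (Set.range ![a 0, b 0, b 1]) := fun h =>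
    qa_not D1 da la (by norm_num) ![a 0, b 0, b 1] (fun i => by
      fin_cases i
      · exact da 0 ▸ h
      · simp [d1b]
      · simp [d1b]) (Submodule.subset_span ⟨0, rfl⟩)
  have i4 : LinearIndependent Ω ![a 1, a 0, b 0, b 1] := (i2.finCons n2).finCons n3
  have hr : Fintype.card (Fin 5) ≤ finrank Ω (dsp (Set.univ : Set (Derivation k Ω Ω)) y) + 1 := by
    have m : ∀ E : Derivation k Ω Ω, dv E y ∈ dsp (Set.univ : Set (Derivation k Ω Ω)) y :=
      fun E => Submodule.subset_span ⟨E, trivial, rfl⟩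
    have : Submodule.span Ω (Set.range ![a 1, a 0, b 0, b 1]) ≤
        dsp (Set.univ : Set (Derivation k Ω Ω)) y := by
      rw [Submodule.span_le]
      rintro _ ⟨i, rfl⟩
      fin_cases i
      · exact (Submodule.smul_mem_iff _ hl0).1 (y1 ▸ m D1)
      · exact y3 ▸ m E1
      · exact y4 ▸ m E2
      · exact (Submodule.smul_mem_iff _ hl1).1 (y2 ▸ m D2)
    have := Submodule.finrank_mono this
    rw [finrank_span_eq_card i4] at this
    simpa using this
  -- no form of degree two vanishes at `y`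
  have two : ∀ f : MvPolynomial (Fin 5) k, f.IsHomogeneous 2 → aeval y f = 0 → f = 0 := by
    intro f hf h
    obtain ⟨q1, q2⟩ := qa_two hf y
    have u1 := D_aeval E1 E1.map_algebraMap f y
    rw [h, map_zero, y3] at u1
    have u2 := congrArg E2 u1
    rw [map_zero, D_dot, e2a, dotProduct_zero, add_zero, dv_gr E2 E2.map_algebraMap, y4] at u2
    have u3 : hs f y *ᵥ b 0 = 0 := qa_kill D1 da la (by
      have : (hs f y).map D1 = 0 := by ext i j; exact q1 D1 i j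
      rw [dv_mulVec, d1b, this, zero_mulVec, mulVec_zero, add_zero]) u2.symm
    refine q2 (Matrix.ext fun i => congrFun ?_)
    exact qa_kill (w := hs f y i) D2 db lb (funext fun j => q1 D2 i j) (congrFun u3 i)
  -- the cubic and the determinant vanish at `y`
  have pa := qa_map c.i1 P h0
  have pb := qa_map c.i2 P h0
  rw [← ha] at pa
  rw [← hb] at pb
  obtain ⟨P', hP'⟩ : ∃ P', P' = fun a => (P a).map (algebraMap k Ω) := ⟨_, rfl⟩
  have t1 : ∀ a b e, P' a b e = P' b a e := fun a b e => by simp [hP', s1 a b e]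
  have t2 : ∀ a b e, P' a b e = P' a e b := fun a b e => by simp [hP', s2 a b e]
  rw [← hP'] at pa pb
  have sw := Pv_swap t1 t2 (b 0) (a 0)
  have vc : aeval y (X ⬝ᵥ qaM P *ᵥ X) = 0 := by
    have z1 : a 0 ⬝ᵥ Pv P' (a 0) *ᵥ b 0 = 0 := by
      rw [bil_symm (Pv_symm t2 _), pa, dotProduct_zero]
    have z2 : b 0 ⬝ᵥ Pv P' (a 0) *ᵥ b 0 = 0 := by
      rw [← sw, bil_symm (Pv_symm t2 _), pb, dotProduct_zero]
    rw [qaM_cub, ← hP', hy]
    simp [Pv_add, Pv_smul, add_mulVec, mulVec_add, smul_mulVec, mulVec_smul, pa, pb, sw, z1, z2]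
  have vd : aeval y (qaM P).det = 0 := by
    rw [qaM_det, ← hP', ← exists_mulVec_eq_zero_iff]
    refine ⟨c.lam 0 • a 0 - c.lam 1 • b 0, fun h => n2 ?_, ?_⟩
    · rw [← Submodule.smul_mem_iff _ hl0, sub_eq_zero.1 h]
      exact Submodule.smul_mem _ _ (Submodule.subset_span ⟨0, rfl⟩)
    · simp [hy, Pv_add, Pv_smul, add_mulVec, mulVec_sub, smul_mulVec, mulVec_smul, pa, pb, sw,
        smul_smul, mul_comm]
  obtain ⟨ψ, hψ, ⟨χ, hχ⟩, v0⟩ :=
    qa_fac (aeval y : MvPolynomial (Fin 5) k →ₐ[k] Ω).toRingHom _ hn vc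
  have hd := ht1 y Set.univ (fun (E : Derivation k Ω Ω) _ => E.map_algebraMap) hr hψ v0 _ vd
  have h3 := qaM_hom P
  rw [hχ] at h3 hn ⊢
  obtain ⟨f1, f2⟩ := homfac h3 hn
  have deg := (f1.mul f2).inj_right h3 hn
  have dχ : χ.totalDegree = 0 := by
    by_contra hc
    have := two (X 0 ^ (2 - ψ.totalDegree) * ψ) (by
      convert ((isHomogeneous_X k (0 : Fin 5)).pow (2 - ψ.totalDegree)).mul f1 using 1
      omega) (by rw [map_mul, show aeval y ψ = 0 from v0, mul_zero])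
    exact mul_ne_zero (pow_ne_zero _ (X_ne_zero _)) hψ.ne_zero this
  have uχ : IsUnit χ := by
    rw [totalDegree_eq_zero_iff_eq_C] at dχ
    rw [dχ] at hn ⊢
    exact IsUnit.map C (IsUnit.mk0 _ fun h => hn (by rw [h, C_0, mul_zero]))
  exact uχ.mul_right_dvd.2 hd

variable {Z : Cone ℂ 6} {Ω : Type} [Field Ω] [IsAlgClosed Ω] [Algebra ℂ Ω]

variable {K : Type} [Field K] [IsAlgClosed K] [Algebra ℂ K] [Algebra K Ω] [IsScalarTower ℂ K Ω]

theorem quart_span {T : Tri Z Ω} {s : Sect Z 2} (L : Leg T s) (hβ : ∀ i, L.β i ≠ 0)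
    (hθ : ∀ i, T.h i ⬝ᵥ T.e 2 ≠ 0) (h3 : T.e 3 ∉ T.La) :
    LinearIndependent Ω ![T.p, T.e 0, T.e 1, T.e 2, T.e 3, T.e 4] := by
  have : CharZero Ω := charZero_of_injective_algebraMap (algebraMap ℂ Ω).injective
  have he : ∀ a, dv T.Dπ (T.e a) = T.e (a + 1) := fun _ => rfl
  have k0 : ∀ i, T.h i ⬝ᵥ T.e 0 = 0 := (T.ker _).2 (Submodule.subset_span (by simp))
  have k1 : ∀ i, T.h i ⬝ᵥ T.e 1 = 0 := (T.ker _).2 (Submodule.subset_span (by simp))
  have hB : ∀ v w, v ⬝ᵥ Pv L.P (T.e 0) *ᵥ w = ∑ i, L.β i * (T.h i ⬝ᵥ v) * (T.h i ⬝ᵥ w) := by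
    intro v w
    simp only [dotProduct, mulVec, show T.e 0 = T.q from rfl, L.Pq, Fin.sum_univ_succ,
      Fin.sum_univ_zero]
    ring
  obtain ⟨V, hV⟩ : ∃ V : ℕ → ℕ → Fin 6 → Ω, ∀ a b, V a b = Pv L.P (T.e a) *ᵥ T.e b :=
    ⟨_, fun _ _ => rfl⟩
  have sV : ∀ a b, V a b = V b a := fun a b => by rw [hV, hV, Pv_swap L.Ps1 L.Ps2]
  have dV : ∀ a b, dv T.Dπ (V a b) = V (a + 1) b + V a (b + 1) := fun a b => by
    rw [hV, hV, hV, qa_dv _ L.πP, he, he]
  have st : ∀ a b c, T.e c ⬝ᵥ V a b = T.e b ⬝ᵥ V a c := fun a b c => by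
    rw [hV, hV, bil_symm (Pv_symm L.Ps2 _)]
  have v01 : V 0 1 = 0 := by
    ext a
    have := hB (Pi.single a 1) (T.e 1)
    rw [single_one_dotProduct, ← hV] at this
    simp [this, k1]
  have r1 : V 1 1 + V 0 2 = 0 := by rw [← dV, v01, dv_zero]
  have r2 : V 1 2 + V 1 2 + (V 1 2 + V 0 3) = 0 := by
    have := congrArg (dv T.Dπ) r1
    rwa [dv_add, dV, dV, dv_zero, sV (1 + 1) 1] at this
  have s2 : ∀ c, 3 * (T.e c ⬝ᵥ V 1 2) + T.e c ⬝ᵥ V 0 3 = 0 := fun c => by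
    have := congrArg (T.e c ⬝ᵥ ·) r2
    simp only [dotProduct_add, dotProduct_zero] at this
    linear_combination this
  have t22 : T.e 2 ⬝ᵥ V 0 2 = 0 := by
    have a1 := congrArg (T.e 2 ⬝ᵥ ·) r1
    simp only [dotProduct_add, dotProduct_zero] at a1
    have a2 := s2 1
    rw [st 0 3 1, v01, dotProduct_zero, st 1 2 1] at a2
    linear_combination a1 - (1 / 3) * a2
  have t23 : T.e 3 ⬝ᵥ V 0 2 = 0 := by
    have a1 := congrArg T.Dπ t22
    rw [D_dot, dV, he, map_zero, dotProduct_add, st 0 (2 + 1) 2] at a1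
    have a2 := s2 2
    rw [st 0 3 2] at a2
    linear_combination (3 / 5) * a1 - (1 / 5) * a2
  have t24 : 3 * (T.e 4 ⬝ᵥ V 0 2) + 2 * (T.e 3 ⬝ᵥ V 0 3) = 0 := by
    have a1 := congrArg T.Dπ t23
    rw [D_dot, dV, he, map_zero, dotProduct_add] at a1
    linear_combination 3 * a1 - s2 3
  have t33 : T.e 3 ⬝ᵥ V 0 3 ≠ 0 := by
    intro h0
    apply h3
    obtain ⟨c, hc⟩ : ∃ c, T.h 0 ⬝ᵥ T.e 3 = c * (T.h 0 ⬝ᵥ T.e 2) :=
      ⟨_, (div_mul_cancel₀ _ (hθ 0)).symm⟩
    rw [hV, hB, Fin.sum_univ_three] at h0 t22 t23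
    obtain ⟨n1, n2⟩ := qa_iso (n1 := T.h 1 ⬝ᵥ T.e 3 - c * (T.h 1 ⬝ᵥ T.e 2))
      (n2 := T.h 2 ⬝ᵥ T.e 3 - c * (T.h 2 ⬝ᵥ T.e 2)) (hβ 0) (hβ 1) (hβ 2) (hθ 0) t22
      (by rw [hc] at t23; linear_combination t23 - c * t22)
      (by rw [hc] at t23 h0; linear_combination h0 - 2 * c * t23 + c ^ 2 * t22)
    have hm : T.e 3 - c • T.e 2 ∈ Submodule.span Ω {T.p, T.e 0, T.e 1} := by
      refine (T.ker _).1 fun i => ?_
      rw [dotProduct_sub, dotProduct_smul, smul_eq_mul]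
      fin_cases i
      · exact sub_eq_zero.2 hc
      · exact n1
      · exact n2
    have h2 : T.e 2 ∈ T.La := Submodule.subset_span (by simp)
    have hle : Submodule.span Ω {T.p, T.e 0, T.e 1} ≤ T.La :=
      Submodule.span_mono fun x hx => by
        simp only [Set.mem_insert_iff, Set.mem_singleton_iff] at hx ⊢
        tauto
    simpa using T.La.add_mem (hle hm) (T.La.smul_mem c h2)
  have t24' : T.e 4 ⬝ᵥ V 0 2 ≠ 0 := fun h0 => t33 (by
    rw [h0] at t24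
    linear_combination (1 / 2) * t24)
  have z : ∀ b v, (∀ i, T.h i ⬝ᵥ v = 0) → v ⬝ᵥ V 0 b = 0 := fun b v hv => by
    simp [hV, hB, hv]
  have p0 : T.p 0 ≠ 0 := fun h0 => by
    obtain ⟨D, hD⟩ := T.exp fun _ => 1
    have := congrFun hD 0
    simp [h0] at this
  rw [Fintype.linearIndependent_iff]
  intro g hg
  simp only [Fin.sum_univ_succ, Fin.sum_univ_zero, Matrix.cons_val_zero, Matrix.cons_val_succ,
    add_zero] at hg
  have g5 := congrArg (· ⬝ᵥ V 0 2) hg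
  simp only [add_dotProduct, smul_dotProduct, z _ _ T.hp, z _ _ k0, z _ _ k1, t22, t23, smul_eq_mul,
    mul_zero, zero_add, zero_dotProduct, mul_eq_zero, t24', or_false] at g5
  have g4 := congrArg (· ⬝ᵥ V 0 3) hg
  simp only [add_dotProduct, smul_dotProduct, z _ _ T.hp, z _ _ k0, z _ _ k1, st 0 3 2, t23,
    smul_eq_mul, g5, zero_mul, add_zero, mul_zero, zero_add, zero_dotProduct, mul_eq_zero, t33,
    or_false] at g4
  have g3 := congrArg (T.h 0 ⬝ᵥ ·) hg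
  simp only [dotProduct_add, dotProduct_smul, T.hp, k0, k1, smul_eq_mul, g5, g4, zero_mul, add_zero,
    mul_zero, zero_add, dotProduct_zero, mul_eq_zero, hθ, or_false] at g3
  rw [g5, g4, g3, zero_smul, zero_smul, zero_smul, add_zero, add_zero, add_zero] at hg
  have e10 : T.e 1 0 = 0 := by simp [← he, show T.e 0 = T.q from rfl, T.q0]
  have e1j : T.e 1 T.j = 0 := by simp [← he, show T.e 0 = T.q from rfl, T.qj]
  have g0 : g 0 = 0 := by
    simpa [e10, show T.e 0 = T.q from rfl, T.q0, p0] using congrFun hg 0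
  have g1 := congrFun hg T.j
  simp only [g0, zero_smul, zero_add, Pi.add_apply, Pi.smul_apply, e1j, smul_eq_mul, mul_zero,
    add_zero, show T.e 0 = T.q from rfl, T.qj, mul_one, Pi.zero_apply] at g1
  rw [g0, g1, zero_smul, zero_smul, zero_add, zero_add] at hg
  have g2 := (smul_eq_zero.1 hg).resolve_right T.πne
  intro i
  fin_cases i
  exacts [g0, g1, g2, g3, g4, g5]

theorem sec_hess {k F : Type} [Field k] [CharZero k] [IsAlgClosed k] [Field F] [Algebra k F]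
    (P : Fin 5 → Matrix (Fin 5) (Fin 5) k) (s1 : ∀ a b e, P a b e = P b a e)
    (s2 : ∀ a b e, P a b e = P a e b) (D : Derivation k F F) (e : ℕ → Fin 5 → F)
    (he : ∀ a, e (a + 1) = dv D (e a)) (hl : LinearIndependent F ![e 0, e 1, e 2, e 3, e 4])
    (h0 : Pv (fun a => (P a).map (algebraMap k F)) (e 0) *ᵥ e 0 = 0) (y : Fin 5 → F)
    (hy : y ⬝ᵥ Pv (fun a => (P a).map (algebraMap k F)) y *ᵥ y = 0) :
    (Pv (fun a => (P a).map (algebraMap k F)) y).det = 0 := by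
  by_cases hn : X ⬝ᵥ qaM P *ᵥ X = 0
  · have : CharZero F := charZero_of_injective_algebraMap (algebraMap k F).injective
    have z : ∀ v : Fin 5 → F, v ⬝ᵥ Pv (fun a => (P a).map (algebraMap k F)) v *ᵥ v = 0 :=
      fun v => by rw [← qaM_cub, hn, map_zero]
    obtain ⟨P', hP'⟩ : ∃ P', P' = fun a => (P a).map (algebraMap k F) := ⟨_, rfl⟩
    have t1 : ∀ a b e, P' a b e = P' b a e := fun a b e => by simp [hP', s1 a b e]
    have t2 : ∀ a b e, P' a b e = P' a e b := fun a b e => by simp [hP', s2 a b e]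
    rw [← hP'] at z ⊢
    by_cases y0 : y = 0
    · rw [y0, Pv_zero, det_zero]
    refine exists_mulVec_eq_zero_iff.1 ⟨y, y0, funext fun i => ?_⟩
    obtain ⟨v, hv⟩ : ∃ v : Fin 5 → F, v = Pi.single i 1 := ⟨_, rfl⟩
    have u1 := z (y + v)
    have u2 := z (y - v)
    simp only [Pv_add, Pv_sub, add_mulVec, sub_mulVec, mulVec_add, mulVec_sub, add_dotProduct,
      sub_dotProduct, dotProduct_add, dotProduct_sub, z, Pv_swap t1 t2 v y,
      bil_symm (Pv_symm t2 y) y v] at u1 u2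
    have : v ⬝ᵥ Pv P' y *ᵥ y = 0 := by linear_combination (1 / 6) * u1 - (1 / 6) * u2
    simpa [hv] using this
  · obtain ⟨g, hg⟩ := qa_dvd P s1 s2 D e he hl h0 hn
    rw [← qaM_det, hg, map_mul, qaM_cub, hy, zero_mul]

end PV
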