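import Pool.Agent.Lib.MP_36fb43_ag.TriB

open MvPolynomial Matrix Module

namespace PV

section kit
variable {R F σ : Type} [CommRing R] [Field F] [Algebra R F]

theorem qb_add (D : Derivation R F F) (v w : σ → F) : dv D (v + w) = dv D v + dv D w :=
  funext fun i => by simp [dv]

theorem qb_sub (D : Derivation R F F) (v w : σ → F) : dv D (v - w) = dv D v - dv D w :=
  funext fun i => by simp [dv]

theorem qb_smul (D : Derivation R F F) (c : F) (v : σ → F) :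
    dv D (c • v) = D c • v + c • dv D v :=
  funext fun i => by simp [dv, mul_comm, add_comm]

theorem qb_zero (D : Derivation R F F) : dv D (0 : σ → F) = 0 := funext fun i => by simp [dv]

theorem qb_norm (D : Derivation R F F) {v : σ → F} {a : σ} (ha : v a ≠ 0)
    (h : ∃ t : F, dv D v = t • v) : dv D ((v a)⁻¹ • v) = 0 := by
  obtain ⟨t, ht⟩ := h
  have h1 : dv D ((v a)⁻¹ • v) = (D (v a)⁻¹ + (v a)⁻¹ * t) • v := by
    rw [qb_smul, ht, smul_smul, add_smul]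
  have h2 : dv D ((v a)⁻¹ • v) a = 0 := by
    simp only [dv, Pi.smul_apply, smul_eq_mul]
    rw [inv_mul_cancel₀ ha, D.map_one_eq_zero]
  rw [h1] at h2 ⊢
  rcases mul_eq_zero.1 h2 with h3 | h3
  · rw [h3, zero_smul]
  · exact absurd h3 ha

variable [Fintype σ]

theorem qb_dot (D : Derivation R F F) (v w : σ → F) :
    D (v ⬝ᵥ w) = dv D v ⬝ᵥ w + v ⬝ᵥ dv D w := by
  simp only [dotProduct, map_sum, dv, ← Finset.sum_add_distrib]
  exact Finset.sum_congr rfl fun i _ => by simp [mul_comm, add_comm]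

theorem qb_mulVec (D : Derivation R F F) (M M' : Matrix σ σ F) (h : ∀ a b, D (M a b) = M' a b)
    (v : σ → F) : dv D (M *ᵥ v) = M' *ᵥ v + M *ᵥ dv D v := by
  funext i
  have h1 : dv D (M i) = M' i := funext fun b => h i b
  have h2 := qb_dot D (M i) v
  rw [h1] at h2
  exact h2

theorem qb_Pv_add (P : σ → Matrix σ σ F) (x y : σ → F) : Pv P (x + y) = Pv P x + Pv P y := by
  simp [Pv, add_smul, Finset.sum_add_distrib]

theorem qb_Pv_smul (P : σ → Matrix σ σ F) (c : F) (x : σ → F) : Pv P (c • x) = c • Pv P x := by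
  simp [Pv, Finset.smul_sum, smul_smul]

theorem qb_Pv_apply (P : σ → Matrix σ σ F) (x : σ → F) (b e : σ) :
    Pv P x b e = ∑ a, x a * P a b e := by
  simp [Pv, Matrix.sum_apply]

theorem qb_Pv_swap {P : σ → Matrix σ σ F} (s1 : ∀ a b e, P a b e = P b a e)
    (s2 : ∀ a b e, P a b e = P a e b) (x y : σ → F) : Pv P x *ᵥ y = Pv P y *ᵥ x := by
  funext b
  simp only [Matrix.mulVec, dotProduct, qb_Pv_apply, Finset.sum_mul]
  rw [Finset.sum_comm]
  refine Finset.sum_congr rfl fun a _ => Finset.sum_congr rfl fun e _ => ?_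
  rw [s1 a b e, s2 b a e, s1 b e a]
  ring

theorem qb_sym {M : Matrix σ σ F} (h : ∀ a b, M a b = M b a) (v w : σ → F) :
    v ⬝ᵥ M *ᵥ w = w ⬝ᵥ M *ᵥ v := by
  simp only [Matrix.mulVec, dotProduct, Finset.mul_sum]
  rw [Finset.sum_comm]
  refine Finset.sum_congr rfl fun a _ => Finset.sum_congr rfl fun b _ => ?_
  rw [h b a]
  ring

theorem qb_Pv_sym {P : σ → Matrix σ σ F} (s2 : ∀ a b e, P a b e = P a e b) (x v w : σ → F) :
    v ⬝ᵥ Pv P x *ᵥ w = w ⬝ᵥ Pv P x *ᵥ v :=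
  qb_sym (fun a b => by
    rw [qb_Pv_apply, qb_Pv_apply]
    exact Finset.sum_congr rfl fun e _ => by rw [s2]) v w

variable {k : Type} [CommRing k] [Algebra k F] {I : Ideal (MvPolynomial σ k)} {x : σ → F}

theorem qb_nm {h v : σ → F} (hh : h ∈ Nm I x) (hv : Tg I x v) : h ⬝ᵥ v = 0 := by
  induction hh using Submodule.span_induction with
  | mem w hw =>
    obtain ⟨f, hf, rfl⟩ := hw
    exact hv f hf
  | zero => exact zero_dotProduct _
  | add a b _ _ ha hb => rw [add_dotProduct, ha, hb, add_zero]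
  | smul c a _ ha => rw [smul_dotProduct, ha, smul_zero]

theorem qb_tg_add {v w : σ → F} (hv : Tg I x v) (hw : Tg I x w) : Tg I x (v + w) :=
  fun f hf => by rw [dotProduct_add, hv f hf, hw f hf, add_zero]

theorem qb_tg_smul {v : σ → F} (hv : Tg I x v) (c : F) : Tg I x (c • v) :=
  fun f hf => by rw [dotProduct_smul, hv f hf, smul_zero]

theorem qb_tg_sub {v w : σ → F} (hv : Tg I x v) (hw : Tg I x w) : Tg I x (v - w) :=
  fun f hf => by rw [dotProduct_sub, hv f hf, hw f hf, sub_zero]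

theorem qb_tg_zero {v : σ → F} (hv : ¬ Tg I x v) {c : F} (h : Tg I x (c • v)) : c = 0 := by
  by_contra hc
  have := qb_tg_smul h c⁻¹
  rw [smul_smul, inv_mul_cancel₀ hc, one_smul] at this
  exact hv this

end kit

variable {Z : Cone ℂ 6} {Ω : Type} [Field Ω] [IsAlgClosed Ω] [Algebra ℂ Ω]

omit [IsAlgClosed Ω] in
theorem qb_tg {x : Fin 6 → Ω} (hx : On Z.I x) (D : Derivation ℂ Ω Ω) : Tg Z.I x (dv D x) :=
  fun f hf => by
    rw [← D_aeval D (fun c => D.map_algebraMap c) f x, hx f hf, map_zero]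

omit [IsAlgClosed Ω] in
theorem Tri.qb_u (T : Tri Z Ω) (i : Fin 3) : T.u i ≠ 0 := by
  intro h
  obtain ⟨i', hi'⟩ := exists_ne i
  obtain ⟨g, -, -, hg⟩ := T.trans i i'
  rw [h, map_zero] at hg
  exact hi' (T.uinj (by rw [← hg, h]))

omit [IsAlgClosed Ω] in
theorem Tri.qb_p0 (T : Tri Z Ω) : T.p 0 ≠ 0 := by
  intro h
  obtain ⟨D, hD⟩ := T.exp (fun _ => 1)
  have h1 : D (T.p 0) = 1 := congrFun hD 0
  rw [h, map_zero] at h1
  exact zero_ne_one h1

omit [IsAlgClosed Ω] in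
theorem Tri.qb_dx (T : Tri Z Ω) (D : Derivation ℂ Ω Ω) (i : Fin 3) :
    dv D (T.x i) = D (T.u i) • T.p + T.u i • dv D T.p + dv D T.q := by
  rw [Tri.x, qb_add, qb_smul]

/-- a frame of constants of the derivation `p ↦ q ↦ 0` -/
structure QFr (T : Tri Z Ω) where
  D0 : Derivation ℂ Ω Ω
  D0p : dv D0 T.p = T.q
  D0q : dv D0 T.q = 0
  D0u : ∀ i, D0 (T.u i) = T.u i ^ 2
  g : Fin 3 → Fin 6 → Ω
  c : Fin 3 → Ω
  hc : ∀ i, c i ≠ 0
  hg : ∀ i, T.h i = c i • g i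
  gone : ∀ i, ∃ a, g i a = 1
  D0g : ∀ i, dv D0 (g i) = 0
  gp : ∀ i, g i ⬝ᵥ T.p = 0
  gq : ∀ i, g i ⬝ᵥ T.q = 0
  w : Fin 6 → Ω
  w0 : w 0 = 0
  wj : w T.j = 0
  wne : w ≠ 0
  gw : ∀ i, g i ⬝ᵥ w = 0
  D0w : dv D0 w = 0
  π : Fin 3 → Fin 6 → Ω
  π0 : ∀ i, π i 0 = 0
  πj : ∀ i, π i T.j = 0
  gπ : ∀ a i, g a ⬝ᵥ π i = if a = i then 1 else 0
  D0π : ∀ i, dv D0 (π i) = 0
  ker : ∀ v, (∀ i, g i ⬝ᵥ v = 0) → ∃ a b e : Ω, v = a • T.p + b • T.q + e • w

theorem Tri.qb_fr (T : Tri Z Ω) : Nonempty (QFr T) := by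
  have hq : ∀ i, T.h i ⬝ᵥ T.q = 0 := (T.ker T.q).2 (Submodule.subset_span (by simp [Tri.e]))
  have he : ∀ i, T.h i ⬝ᵥ T.e 1 = 0 := (T.ker _).2 (Submodule.subset_span (by simp))
  obtain ⟨D0, D0p, D0q⟩ := T.ex T.q 0 rfl rfl (fun i => by
    rw [add_zero, dotProduct_smul, hq, smul_zero])
  have D0u : ∀ i, D0 (T.u i) = T.u i ^ 2 := fun i => by
    have h1 := qb_tg_sub (qb_tg (T.on i) D0) (qb_tg_smul (tg_self Z (T.on i)) (T.u i))
    have h2 : dv D0 (T.u i • T.p + T.q) - T.u i • (T.u i • T.p + T.q) =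
        (D0 (T.u i) - T.u i ^ 2) • T.p := by
      rw [qb_add, qb_smul, D0p, D0q]
      module
    rw [h2] at h1
    exact sub_eq_zero.1 (qb_tg_zero (T.nt i) h1)
  have hex : ∀ i, ∃ a, T.h i a ≠ 0 := fun i => Function.ne_iff.1 (T.hli.ne_zero i)
  choose ai hai using hex
  have D0g : ∀ i, dv D0 ((T.h i (ai i))⁻¹ • T.h i) = 0 := fun i =>
    qb_norm D0 (hai i) (T.dh D0 i ⟨T.u i, by
      rw [T.qb_dx, D0p, D0q, D0u, Tri.x]
      module⟩ (by rw [D0p, hq]))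
  have hg : ∀ i, T.h i = T.h i (ai i) • ((T.h i (ai i))⁻¹ • T.h i) := fun i => by
    rw [smul_smul, mul_inv_cancel₀ (hai i), one_smul]
  have gone : ∀ i, ((T.h i (ai i))⁻¹ • T.h i) (ai i) = 1 := fun i => inv_mul_cancel₀ (hai i)
  have hgl : ∀ i v, T.h i ⬝ᵥ v = 0 → ((T.h i (ai i))⁻¹ • T.h i) ⬝ᵥ v = 0 := fun i v h => by
    rw [smul_dotProduct, h, smul_zero]
  have hdual : ∀ i, ∃ v : Fin 6 → Ω, ∀ a,
      ((T.h a (ai a))⁻¹ • T.h a) ⬝ᵥ v = if a = i then 1 else 0 := fun i => by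
    obtain ⟨φ, hφ⟩ := LinearMap.exists_extend
      ((Finsupp.lapply i : (Fin 3 →₀ Ω) →ₗ[Ω] Ω) ∘ₗ T.hli.repr)
    refine ⟨T.h i (ai i) • fun b => φ (fun e => if b = e then 1 else 0), fun a => ?_⟩
    have h1 : T.h a ⬝ᵥ (fun b => φ (fun e => if b = e then 1 else 0)) = φ (T.h a) := by
      rw [LinearMap.pi_apply_eq_sum_univ φ (T.h a)]
      rfl
    have h2 : φ (T.h a) = if a = i then 1 else 0 := by
      have h3 := LinearMap.congr_fun hφ ⟨T.h a, Submodule.subset_span ⟨a, rfl⟩⟩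
      rw [LinearMap.comp_apply, LinearMap.comp_apply, T.hli.repr_eq_single a _ rfl] at h3
      rw [← Finsupp.single_apply]
      exact h3
    rw [smul_dotProduct, dotProduct_smul, h1, h2]
    split_ifs with h4
    · rw [h4, smul_eq_mul, smul_eq_mul, mul_one, inv_mul_cancel₀ (hai i)]
    · simp
  generalize hgd : (fun i => (T.h i (ai i))⁻¹ • T.h i) = g
  have hgi : ∀ i, (T.h i (ai i))⁻¹ • T.h i = g i := fun i => congrFun hgd i
  simp only [hgi] at D0g hg gone hgl hdual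
  have e0 : T.e 1 0 = 0 := by
    change T.Dπ (T.q 0) = 0
    rw [T.q0, map_zero]
  have ej : T.e 1 T.j = 0 := by
    change T.Dπ (T.q T.j) = 0
    rw [T.qj, T.Dπ.map_one_eq_zero]
  obtain ⟨b, hb⟩ : ∃ b, T.e 1 b ≠ 0 := Function.ne_iff.1 T.πne
  have ker0 : ∀ v, (∀ i, g i ⬝ᵥ v = 0) → ∃ a b e : Ω, v = a • T.p + b • T.q + e • T.e 1 := by
    intro v hv
    have h1 := (T.ker v).1 fun i => by rw [hg i, smul_dotProduct, hv i, smul_zero]
    obtain ⟨a, b, e, h2⟩ := Submodule.mem_span_triple.1 h1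
    exact ⟨a, b, e, h2.symm⟩
  have ker1 : ∀ v, v 0 = 0 → v T.j = 0 → (∀ i, g i ⬝ᵥ v = 0) → ∃ e : Ω, v = e • T.e 1 := by
    intro v h0 hj hv
    obtain ⟨a, b, e, h⟩ := ker0 v hv
    have a0 : a = 0 := by
      have := congrFun h 0
      simp only [Pi.add_apply, Pi.smul_apply, smul_eq_mul, h0, T.q0, e0, mul_zero,
        add_zero] at this
      exact (mul_eq_zero.1 this.symm).resolve_right T.qb_p0
    have b0 : b = 0 := by
      have := congrFun h T.j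
      simp only [Pi.add_apply, Pi.smul_apply, smul_eq_mul, hj, T.qj, ej, a0, mul_zero, zero_mul,
        add_zero, zero_add, mul_one] at this
      exact this.symm
    exact ⟨e, by rw [h, a0, b0, zero_smul, zero_smul, zero_add, zero_add]⟩
  have hconst : ∀ v : Fin 6 → Ω, v 0 = 0 → v T.j = 0 → (∀ i, D0 (g i ⬝ᵥ v) = 0) →
      ∃ e : Ω, dv D0 v = e • T.e 1 := by
    intro v h0 hj hv
    refine ker1 _ ?_ ?_ fun i => ?_
    · change D0 (v 0) = 0
      rw [h0, map_zero]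
    · change D0 (v T.j) = 0
      rw [hj, map_zero]
    · have := hv i
      rwa [qb_dot, D0g, zero_dotProduct, zero_add] at this
  have D0w : dv D0 ((T.e 1 b)⁻¹ • T.e 1) = 0 :=
    qb_norm D0 hb (hconst _ e0 ej fun i => by rw [hgl i _ (he i), map_zero])
  have hπ : ∀ i, ∃ v : Fin 6 → Ω, v 0 = 0 ∧ v T.j = 0 ∧
      (∀ a, g a ⬝ᵥ v = if a = i then 1 else 0) ∧ dv D0 v = 0 := fun i => by
    obtain ⟨v, hv⟩ := hdual i
    obtain ⟨v1, h10, h1g⟩ : ∃ v1 : Fin 6 → Ω, v1 0 = 0 ∧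
        ∀ a, g a ⬝ᵥ v1 = if a = i then 1 else 0 :=
      ⟨v - (v 0 / T.p 0) • T.p, by simp [div_mul_cancel₀ _ T.qb_p0], fun a => by
        rw [dotProduct_sub, dotProduct_smul, hgl a _ (T.hp a), smul_zero, sub_zero, hv]⟩
    obtain ⟨v2, h20, h2j, h2g⟩ : ∃ v2 : Fin 6 → Ω, v2 0 = 0 ∧ v2 T.j = 0 ∧
        ∀ a, g a ⬝ᵥ v2 = if a = i then 1 else 0 :=
      ⟨v1 - v1 T.j • T.q, by simp [h10, T.q0], by simp [T.qj], fun a => by
        rw [dotProduct_sub, dotProduct_smul, hgl a _ (hq a), smul_zero, sub_zero, h1g]⟩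
    obtain ⟨v3, h30, h3j, h3b, h3g⟩ : ∃ v3 : Fin 6 → Ω, v3 0 = 0 ∧ v3 T.j = 0 ∧ v3 b = 0 ∧
        ∀ a, g a ⬝ᵥ v3 = if a = i then 1 else 0 :=
      ⟨v2 - (v2 b / T.e 1 b) • T.e 1, by simp [h20, e0], by simp [h2j, ej],
        by simp [div_mul_cancel₀ _ hb], fun a => by
        rw [dotProduct_sub, dotProduct_smul, hgl a _ (he a), smul_zero, sub_zero, h2g]⟩
    refine ⟨v3, h30, h3j, h3g, ?_⟩
    obtain ⟨e, he'⟩ := hconst v3 h30 h3j fun a => by
      rw [h3g]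
      split_ifs
      · exact D0.map_one_eq_zero
      · exact map_zero _
    have h4 : D0 (v3 b) = e * T.e 1 b := congrFun he' b
    rw [h3b, map_zero] at h4
    rw [he', (mul_eq_zero.1 h4.symm).resolve_right hb, zero_smul]
  choose π π0 πj gπ D0π using hπ
  refine ⟨⟨D0, D0p, D0q, D0u, g, fun i => T.h i (ai i), hai, hg, fun i => ⟨ai i, gone i⟩, D0g,
    fun i => hgl i _ (T.hp i), fun i => hgl i _ (hq i), (T.e 1 b)⁻¹ • T.e 1, by simp [e0],
    by simp [ej], smul_ne_zero (inv_ne_zero hb) T.πne, fun i => by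
      rw [dotProduct_smul, hgl i _ (he i), smul_zero], D0w, π, π0, πj, fun a i => gπ i a, D0π,
    fun v hv => ?_⟩⟩
  obtain ⟨a, b', e, h⟩ := ker0 v hv
  refine ⟨a, b', e * T.e 1 b, ?_⟩
  rw [smul_smul, mul_assoc, mul_inv_cancel₀ hb, mul_one]
  exact h

end PV
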