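import Mathlib

/-! The definitions used in the statement on quadratic normality of threefolds in `ℙ⁵`. -/

open MvPolynomial

namespace PVS

/-- complex projective 5-space, the lines in `ℂ⁶` -/
abbrev P5 : Type := Projectivization ℂ (Fin 6 → ℂ)

/-- the homogeneous ideal of `X`: generated by the forms vanishing on `X` -/
noncomputable def idealOf (X : Set P5) : Ideal (MvPolynomial (Fin 6) ℂ) :=
  Ideal.span {f | (∃ d, f.IsHomogeneous d) ∧ ∀ x ∈ X, eval x.rep f = 0}

/-- `X` is a Zariski closed, irreducible subset of dimension three (its homogeneous coordinate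
ring has Krull dimension four), nonsingular at every point (the Jacobian has rank `5 - 3`). -/
structure SmoothThreefold (X : Set P5) : Prop where
  closed : ∀ x : P5, (∀ f ∈ idealOf X, eval x.rep f = 0) → x ∈ X
  irred : (idealOf X).IsPrime
  dim : ringKrullDim (MvPolynomial (Fin 6) ℂ ⧸ idealOf X) = 4
  smooth : ∀ x ∈ X, Module.finrank ℂ (Submodule.span ℂ
    {w : Fin 6 → ℂ | ∃ f ∈ idealOf X, w = fun i => eval x.rep (pderiv i f)}) = 2

/-- `s`, seen as a function on the nonzero vectors over `X`, is a global section of `O_X(2)`: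
near every point of `X` it is a quotient `G / H` of forms with `deg G = deg H + 2`. -/
def IsSection2 (X : Set P5) (s : (Fin 6 → ℂ) → ℂ) : Prop :=
  ∀ x ∈ X, ∃ (d : ℕ) (G H : MvPolynomial (Fin 6) ℂ), G.IsHomogeneous (d + 2) ∧ H.IsHomogeneous d ∧
    eval x.rep H ≠ 0 ∧ ∀ (v : Fin 6 → ℂ) (hv : v ≠ 0), Projectivization.mk ℂ v hv ∈ X →
      eval v H ≠ 0 → s v = eval v G / eval v H

/-- every global section of `O_X(2)` is the restriction of a quadratic form -/
def QuadNormal (X : Set P5) : Prop :=
  ∀ s, IsSection2 X s → ∃ Q : MvPolynomial (Fin 6) ℂ, Q.IsHomogeneous 2 ∧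
    ∀ (v : Fin 6 → ℂ) (hv : v ≠ 0), Projectivization.mk ℂ v hv ∈ X → s v = eval v Q

/-- the set `X_W` of points in the kernel of some nonzero form of `W` -/
def XW (W : Submodule ℂ (LinearMap.BilinForm ℂ (Fin 6 → ℂ))) : Set P5 :=
  {p | ∃ ω ∈ W, ω ≠ 0 ∧ ∀ v, ω p.rep v = 0}

end PVS
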