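import Pool.Agent.Lib.MP_36fb43_ag.KE

/-! Projection from the first basis vector: algebraic tools. -/

open MvPolynomial Matrix Module

namespace PV

namespace Sd

theorem two {M : Type} [AddCommGroup M] (V B1 B2 : AddSubgroup M) {f1 f2 : M} (h1 : f1 ∈ V)
    (n1 : f1 ∉ B1) (h2 : f2 ∈ V) (n2 : f2 ∉ B2) : ∃ f ∈ V, f ∉ B1 ∧ f ∉ B2 := by
  by_cases a : f1 ∈ B2
  · by_cases b : f2 ∈ B1
    · exact ⟨f1 + f2, V.add_mem h1 h2, fun h => n1 (by simpa using B1.sub_mem h b),
        fun h => n2 (by simpa using B2.sub_mem h a)⟩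
    · exact ⟨f2, h2, b, n2⟩
  · exact ⟨f1, h1, n1, a⟩

open Polynomial in
theorem nak {P k : Type} [CommRing P] [Field k] (ev : P →+* k) (sec : k →+* P)
    (hs : ∀ c, ev (sec c) = c) (J : Ideal P[X]) {μ G : P[X]} (hμ : μ ∈ J) (mμ : μ.Monic)
    (hG : G ∈ J) (mG : (G.map ev).Monic) {n : ℕ} (hn : (G.map ev).natDegree ≤ n) :
    ∃ r, ev r = 1 ∧ ∀ F, ∃ H : P[X], H.degree < n ∧ Polynomial.C r * F - H ∈ J := by
  have hs' : ∀ t : k[X], (t.map sec).map ev = t := fun t => by
    rw [Polynomial.map_map, show ev.comp sec = RingHom.id k from RingHom.ext hs, Polynomial.map_id]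
  obtain ⟨r, hr, hle⟩ := Submodule.exists_sub_one_mem_and_smul_le_of_fg_of_le_sup
    (I := RingHom.ker ev) (N := degreeLT P n ⊔ J.restrictScalars P)
    (N' := degreeLT P μ.natDegree) (P := ⊤)
    (by rw [← Module.Finite.iff_fg]; infer_instance) le_top (fun F _ => by
      set T := F - G * (F.map ev /ₘ G.map ev).map sec - (F.map ev %ₘ G.map ev).map sec with hT
      have h0 : T.map ev = 0 := by
        rw [hT, Polynomial.map_sub, Polynomial.map_sub, Polynomial.map_mul, hs', hs']
        linear_combination -modByMonic_add_div (F.map ev) (G.map ev)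
      have h1 : (T %ₘ μ).map ev = 0 := by rw [map_modByMonic ev mμ, h0, zero_modByMonic]
      have : Nontrivial P := ev.domain_nontrivial
      have h2 : T %ₘ μ ∈ RingHom.ker ev • degreeLT P μ.natDegree := by
        rw [(T %ₘ μ).as_sum_support]
        refine Submodule.sum_mem _ fun i hi => ?_
        rw [← smul_X_eq_monomial]
        refine Submodule.smul_mem_smul (by simpa using congrArg (Polynomial.coeff · i) h1) ?_
        rw [mem_degreeLT, degree_X_pow, ← degree_eq_natDegree mμ.ne_zero]
        exact (le_degree_of_ne_zero (mem_support_iff.1 hi)).trans_lt (degree_modByMonic_lt _ mμ)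
      have h3 : (F.map ev %ₘ G.map ev).map sec ∈ degreeLT P n := by
        rw [mem_degreeLT]
        refine degree_map_le.trans_lt ((degree_modByMonic_lt _ mG).trans_le ?_)
        exact degree_le_natDegree.trans (by exact_mod_cast hn)
      have h4 : G * (F.map ev /ₘ G.map ev).map sec + μ * (T /ₘ μ) ∈ J :=
        J.add_mem (J.mul_mem_right _ hG) (J.mul_mem_right _ hμ)
      have := Submodule.add_mem_sup (Submodule.add_mem_sup h3
        (show _ ∈ J.restrictScalars P from h4)) h2
      convert this using 1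
      linear_combination -modByMonic_add_div T μ - hT)
  refine ⟨r, by simpa [sub_eq_zero] using hr, fun F => ?_⟩
  obtain ⟨H, hH, t, ht, e⟩ := Submodule.mem_sup.1
    (hle (Submodule.smul_mem_pointwise_smul F r ⊤ trivial))
  refine ⟨H, mem_degreeLT.1 hH, ?_⟩
  rw [← Polynomial.smul_eq_C_mul, ← e, add_sub_cancel_left]
  exact ht

variable {k : Type} [Field k]

theorem hc_mul {σ : Type} {h : MvPolynomial σ k} {d : ℕ} (hh : h.IsHomogeneous d) (e : ℕ)
    (f : MvPolynomial σ k) :
    homogeneousComponent (d + e) (h * f) = h * homogeneousComponent e f := by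
  conv_lhs => rw [← sum_homogeneousComponent f, Finset.mul_sum, map_sum]
  rw [Finset.sum_eq_single e (fun i _ hi => by
    rw [homogeneousComponent_of_mem (hh.mul (homogeneousComponent_isHomogeneous i f)),
      if_neg (by omega)]) (fun he => by
    rw [homogeneousComponent_eq_zero e f (by simpa using he)]; simp)]
  exact homogeneousComponent_eq_self (hh.mul (homogeneousComponent_isHomogeneous e f))

theorem ns [IsAlgClosed k] {n : ℕ} (A : Ideal (MvPolynomial (Fin n) k))
    (h : ∀ q : Fin n → k, q ≠ 0 → ∃ r ∈ A, eval q r ≠ 0) : ∃ M, ∀ j, X j ^ M ∈ A := by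
  have : ∀ j, ∃ M, X j ^ M ∈ A := fun j => by
    refine (show X j ∈ A.radical from ?_)
    rw [← vanishingIdeal_zeroLocus_eq_radical (K := k), mem_vanishingIdeal_iff]
    intro x hx
    by_cases h0 : x = 0
    · simp [h0]
    · obtain ⟨r, hr, e⟩ := h x h0
      exact absurd (by simpa [coe_aeval_eq_eval] using hx r hr) e
  choose M hM using this
  exact ⟨∑ j, M j, fun j => A.pow_mem_of_pow_mem (hM j)
    (Finset.single_le_sum (fun _ _ => Nat.zero_le _) (Finset.mem_univ j))⟩

/-- polynomials in the last five variables -/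
noncomputable abbrev io : MvPolynomial (Fin 5) k →ₐ[k] MvPolynomial (Fin 6) k := rename Fin.succ

/-- `a + b u` -/
noncomputable def red (a b : MvPolynomial (Fin 5) k) : MvPolynomial (Fin 6) k := io a + io b * X 0

/-- `c u ^ 2 - be u - al` -/
noncomputable def qd (c al be : MvPolynomial (Fin 5) k) : MvPolynomial (Fin 6) k :=
  io c * X 0 ^ 2 - red al be

/-- restriction to the line through the centre and `y` -/
noncomputable def lq {F : Type} [Field F] [Algebra k F] (y : Fin 5 → F) :
    MvPolynomial (Fin 6) k →ₐ[k] Polynomial F :=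
  aeval (Fin.cons Polynomial.X fun j => Polynomial.C (y j) : Fin 6 → Polynomial F)

section lq
variable {F : Type} [Field F] [Algebra k F] (y : Fin 5 → F)

theorem lq_io (a : MvPolynomial (Fin 5) k) : lq y (io a) = Polynomial.C (aeval y a) := by
  have : (lq y).comp io = ((Polynomial.CAlgHom (R := F)).restrictScalars k).comp
      (aeval y : MvPolynomial (Fin 5) k →ₐ[k] F) := by
    ext1 j; simp [lq]
  exact DFunLike.congr_fun this a

theorem lq_X0 : lq y (X 0 : MvPolynomial (Fin 6) k) = Polynomial.X := by simp [lq]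

theorem lq_red (a b : MvPolynomial (Fin 5) k) :
    lq y (red a b) = Polynomial.C (aeval y a) + Polynomial.C (aeval y b) * Polynomial.X := by
  rw [red, map_add, map_mul, lq_io, lq_io, lq_X0]

theorem lq_qd (c a b : MvPolynomial (Fin 5) k) : lq y (qd c a b) =
    Polynomial.C (aeval y c) * Polynomial.X ^ 2 -
      (Polynomial.C (aeval y a) + Polynomial.C (aeval y b) * Polynomial.X) := by
  rw [qd, map_sub, map_mul, map_pow, lq_io, lq_red, lq_X0]

theorem eval_lq (z : F) (f : MvPolynomial (Fin 6) k) :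
    (lq y f).eval z = aeval (Fin.cons z y : Fin 6 → F) f := by
  have : ((Polynomial.aeval z).restrictScalars k).comp (lq y) =
      (aeval (Fin.cons z y : Fin 6 → F) : MvPolynomial (Fin 6) k →ₐ[k] F) := by
    ext1 j
    refine Fin.cases ?_ (fun j => ?_) j <;> simp [lq]
  rw [← Polynomial.coe_aeval_eq_eval]
  exact DFunLike.congr_fun this f

theorem aeval_io (z : F) (a : MvPolynomial (Fin 5) k) :
    aeval (Fin.cons z y : Fin 6 → F) (io a) = aeval y a := by
  rw [← eval_lq, lq_io, Polynomial.eval_C]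

theorem pd0_io (a : MvPolynomial (Fin 5) k) : pderiv 0 (io a) = 0 := by
  induction a using MvPolynomial.induction_on with
  | C c => simp
  | add p q hp hq => rw [map_add, map_add, hp, hq, add_zero]
  | mul_X p j hp => rw [map_mul, pderiv_mul, hp]; simp [pderiv_X_of_ne (Fin.succ_ne_zero j)]

theorem pd0_red (a b : MvPolynomial (Fin 5) k) : pderiv 0 (red a b) = io b := by
  rw [red, map_add, pderiv_mul, pd0_io, pd0_io]; simp

theorem pds_red (j : Fin 5) (a b : MvPolynomial (Fin 5) k) :
    pderiv j.succ (red a b) = red (pderiv j a) (pderiv j b) := by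
  rw [red, map_add, pderiv_mul, pderiv_rename (Fin.succ_injective _),
    pderiv_rename (Fin.succ_injective _), pderiv_X_of_ne (Fin.succ_ne_zero j).symm, red]
  simp

theorem gr_red (z : F) (a b : MvPolynomial (Fin 5) k) :
    gr (red a b) (Fin.cons z y : Fin 6 → F) = Fin.cons (aeval y b) (gr a y + z • gr b y) := by
  funext i
  refine Fin.cases ?_ (fun j => ?_) i
  · rw [gr, pd0_red, aeval_io, Fin.cons_zero]
  · rw [gr, pds_red, ← eval_lq, lq_red, Fin.cons_succ, Polynomial.eval_add, Polynomial.eval_mul,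
      Polynomial.eval_C, Polynomial.eval_C, Polynomial.eval_X, mul_comm]
    rfl

end lq

theorem E_io (a : MvPolynomial (Fin 5) k) : finSuccEquiv k 5 (io a) = Polynomial.C a := by
  have : (finSuccEquiv k 5).toAlgHom.comp io =
      (Polynomial.CAlgHom (R := MvPolynomial (Fin 5) k)).restrictScalars k := by
    ext1 j; simp [finSuccEquiv_X_succ]
  exact DFunLike.congr_fun this a

theorem E_red (a b : MvPolynomial (Fin 5) k) :
    finSuccEquiv k 5 (red a b) = Polynomial.C a + Polynomial.C b * Polynomial.X := by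
  rw [red, map_add, map_mul, E_io, E_io, finSuccEquiv_X_zero]

theorem lq_E (q : Fin 5 → k) (f : MvPolynomial (Fin 6) k) :
    lq q f = (finSuccEquiv k 5 f).map (eval q) := by
  induction f using MvPolynomial.induction_on with
  | C c =>
    have := lq_io q (C c : MvPolynomial (Fin 5) k)
    have e := E_io (C c : MvPolynomial (Fin 5) k)
    rw [rename_C] at this e
    rw [this, e]; simp
  | add p r hp hr => simp [hp, hr]
  | mul_X p i hp =>
    rw [map_mul, map_mul, Polynomial.map_mul, hp]
    refine Fin.cases ?_ (fun j => ?_) i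
    · rw [lq_X0, finSuccEquiv_X_zero, Polynomial.map_X]
    · simp [lq, finSuccEquiv_X_succ]

theorem red_add (a b a' b' : MvPolynomial (Fin 5) k) :
    red (a + a') (b + b') = red a b + red a' b' := by
  simp only [red, map_add]; ring

theorem red_mul (c a b : MvPolynomial (Fin 5) k) : red (c * a) (c * b) = io c * red a b := by
  simp only [red, map_mul]; ring

theorem hc_red (e : ℕ) (a b : MvPolynomial (Fin 5) k) : homogeneousComponent (e + 1) (red a b) =
    red (homogeneousComponent (e + 1) a) (homogeneousComponent e b) := by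
  rw [red, map_add, mul_comm, add_comm e 1, hc_mul (isHomogeneous_X k 0), red,
    rename_homogeneousComponent, rename_homogeneousComponent, mul_comm]

/-- pseudo division by a quadratic polynomial -/
theorem pdiv (c al be : MvPolynomial (Fin 5) k) (f : MvPolynomial (Fin 6) k) :
    ∃ (L : ℕ) (w : MvPolynomial (Fin 6) k) (a b : MvPolynomial (Fin 5) k),
      io c ^ L * f = qd c al be * w + red a b := by
  induction f using MvPolynomial.induction_on with
  | C t => exact ⟨0, 0, C t, 0, by simp [red]⟩
  | add p q hp hq =>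
    obtain ⟨L, w, a, b, e⟩ := hp
    obtain ⟨L', w', a', b', e'⟩ := hq
    refine ⟨L + L', io c ^ L' * w + io c ^ L * w', c ^ L' * a + c ^ L * a',
      c ^ L' * b + c ^ L * b', ?_⟩
    rw [red_add, red_mul, red_mul, map_pow, map_pow]
    linear_combination io c ^ L' * e + io c ^ L * e'
  | mul_X p i hp =>
    obtain ⟨L, w, a, b, e⟩ := hp
    refine Fin.cases ?_ (fun j => ?_) i
    · refine ⟨L + 1, io c * w * X 0 + io b, b * al, c * a + b * be, ?_⟩
      simp only [qd, red, map_add, map_mul] at e ⊢
      linear_combination io c * X 0 * e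
    · refine ⟨L, w * X j.succ, X j * a, X j * b, ?_⟩
      rw [red_mul, rename_X]
      linear_combination X j.succ * e

theorem red_eq_zero {c al be a b : MvPolynomial (Fin 5) k} (hc : c ≠ 0)
    {w : MvPolynomial (Fin 6) k} (h : red a b = qd c al be * w) : a = 0 ∧ b = 0 := by
  have e := congrArg (finSuccEquiv k 5) h
  rw [map_mul, qd, map_sub, map_mul, map_pow, E_io, E_red, E_red, finSuccEquiv_X_zero] at e
  have h2 : (Polynomial.C c * Polynomial.X ^ 2 -
      (Polynomial.C al + Polynomial.C be * Polynomial.X)).degree = 2 := by compute_degree!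
  have h0 := Polynomial.eq_zero_of_dvd_of_degree_lt ⟨_, e⟩ (by
    rw [h2]; refine lt_of_le_of_lt (b := 1) ?_ (by norm_num); compute_degree)
  exact ⟨by simpa using congrArg (Polynomial.coeff · 0) h0,
    by simpa using congrArg (Polynomial.coeff · 1) h0⟩

/-- the norm of `a + b u` -/
theorem norm_eq (c al be a b : MvPolynomial (Fin 5) k) :
    io (c * a ^ 2 + be * a * b - al * b ^ 2) =
      red a b * red (c * a + be * b) (-(c * b)) + io b ^ 2 * qd c al be := by
  simp only [qd, red, map_add, map_sub, map_mul, map_pow, map_neg]; ring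

theorem quad_dvd {F : Type} [Field F] {z1 z2 c0 c1 c2 : F}
    (h : (Polynomial.X - Polynomial.C z1) * (Polynomial.X - Polynomial.C z2) ∣
      Polynomial.C c2 * Polynomial.X ^ 2 + Polynomial.C c1 * Polynomial.X + Polynomial.C c0) :
    c1 = -(c2 * (z1 + z2)) ∧ c0 = c2 * (z1 * z2) := by
  have h1 : (Polynomial.X - Polynomial.C z1) * (Polynomial.X - Polynomial.C z2) ∣
      Polynomial.C (c1 + c2 * (z1 + z2)) * Polynomial.X + Polynomial.C (c0 - c2 * (z1 * z2)) := by
    have := dvd_sub h (Dvd.intro_left (Polynomial.C c2) rfl)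
    convert this using 1
    simp only [map_add, map_sub, map_mul]; ring
  have h0 := Polynomial.eq_zero_of_dvd_of_degree_lt h1 (by
    rw [Polynomial.degree_mul, Polynomial.degree_X_sub_C, Polynomial.degree_X_sub_C]
    exact Polynomial.degree_linear_le.trans_lt (by norm_num))
  have e0 := congrArg (Polynomial.coeff · 0) h0
  have e1 := congrArg (Polynomial.coeff · 1) h0
  simp only [Polynomial.coeff_add, Polynomial.coeff_C_mul, Polynomial.coeff_X_zero,
    Polynomial.coeff_X_one, Polynomial.coeff_C_zero, Polynomial.coeff_zero,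
    Polynomial.coeff_C_succ, mul_zero, mul_one, zero_add, add_zero] at e0 e1
  exact ⟨by linear_combination e1, by linear_combination e0⟩

theorem cD_io {R : Type} [Field R] [Algebra R k] (D : Derivation R k k)
    (a : MvPolynomial (Fin 5) k) : cD D (io a) = io (cD D a) := by
  induction a using MvPolynomial.induction_on with
  | C c => rw [rename_C, ka_cD_C, ka_cD_C, rename_C]
  | add p q hp hq => rw [map_add, ka_cD_add, ka_cD_add, hp, hq, map_add]
  | mul_X p j hp =>
    rw [map_mul, cD_mul, cD_mul, hp, rename_X, ka_cD_X, ka_cD_X]; simp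

theorem cD_red {R : Type} [Field R] [Algebra R k] (D : Derivation R k k)
    (a b : MvPolynomial (Fin 5) k) : cD D (red a b) = red (cD D a) (cD D b) := by
  rw [red, ka_cD_add, cD_mul, cD_io, cD_io, ka_cD_X, red]; simp

/-- the threefold in coordinates `x = u p + (0, q)` -/
structure Pj (k : Type) [Field k] [Algebra ℂ k] where
  J : Cone k 6
  mon : ∃ μ ∈ J.I, (finSuccEquiv k 5 μ).Monic
  no3 : ∀ (q : Fin 5 → k) (g : Polynomial k), q ≠ 0 → g.Monic → g.natDegree = 3 →
    ¬ ∀ f ∈ J.I, g ∣ lq q f
  gp : ∀ v : Fin 5 → k, ∃ D : Derivation ℂ k k, ∀ f ∈ J.I,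
    cD D f - X 0 * ∑ j, C (v j) * pderiv j.succ f ∈ J.I
  dd : ∀ (L : Type) [Field L] [IsAlgClosed L] [Algebra k L] (y : Fin 5 → L)
    (D1 D2 : Derivation k L L), LinearIndependent L ![y, dv D1 y, dv D2 y] → ∀ z : L,
    ¬ ∀ f ∈ J.I, (Polynomial.X - Polynomial.C z) ^ 2 ∣ lq y f

/-- reduction to degree one in `u`, and the equation of the image -/
structure Rd [Algebra ℂ k] (T : Pj k) (s : Sect T.J 2) where
  M : ℕ
  al : Fin 5 → MvPolynomial (Fin 5) k
  be : Fin 5 → MvPolynomial (Fin 5) k
  alh : ∀ j, (al j).IsHomogeneous (M + 2)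
  beh : ∀ j, (be j).IsHomogeneous (M + 1)
  qm : ∀ j, qd (X j ^ M) (al j) (be j) ∈ T.J.I
  K : ℕ
  sa : Fin 5 → MvPolynomial (Fin 5) k
  sb : Fin 5 → MvPolynomial (Fin 5) k
  sbh : ∀ j, (sb j).IsHomogeneous (K + 1)
  rep : ∀ j i, X i ^ s.N * red (sa j) (sb j) - io (X j ^ K) * s.G i ∈ T.J.I
  d : ℕ
  Fb : MvPolynomial (Fin 5) k
  Fhom : Fb.IsHomogeneous d
  Firr : Irreducible Fb
  Fdvd : ∀ g, io g ∈ T.J.I ↔ Fb ∣ g

/-- coefficients of `u` -/
def aa (J : Ideal (MvPolynomial (Fin 6) k)) : Ideal (MvPolynomial (Fin 5) k) where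
  carrier := {b | ∃ a, red a b ∈ J}
  add_mem' := fun ⟨a, h⟩ ⟨a', h'⟩ => ⟨a + a', by rw [red_add]; exact J.add_mem h h'⟩
  zero_mem' := ⟨0, by simp [red]⟩
  smul_mem' := fun c _ ⟨a, h⟩ => ⟨c * a, by rw [smul_eq_mul, red_mul]; exact J.mul_mem_left _ h⟩

end Sd

end PV
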