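import Pool.Agent.Lib.MP_36fb43_ag.SdA
import Pool.Agent.Lib.MP_36fb43_ag.GP
import Pool.Agent.Lib.MP_36fb43_ag.KD

open MvPolynomial Matrix Module

namespace PV
namespace Sd

section sub
variable {k : Type} [Field k]

/-- the substitution `x = u p + (0, q)` -/
noncomputable def bps (p : Fin 6 → k) : MvPolynomial (Fin 6) k →ₐ[k] MvPolynomial (Fin 6) k :=
  aeval fun i => C (p i) * X 0 + if i = 0 then 0 else X i

/-- its inverse -/
noncomputable def bph (p : Fin 6 → k) : MvPolynomial (Fin 6) k →ₐ[k] MvPolynomial (Fin 6) k :=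
  aeval fun i => if i = 0 then C (p 0)⁻¹ * X 0 else X i - C (p i / p 0) * X 0

variable {p : Fin 6 → k}

theorem bps_X (i : Fin 6) : bps p (X i) = C (p i) * X 0 + if i = 0 then 0 else X i := aeval_X _ _

theorem bph_X (i : Fin 6) :
    bph p (X i) = if i = 0 then C (p 0)⁻¹ * X 0 else X i - C (p i / p 0) * X 0 := aeval_X _ _

theorem b_hs (h : p 0 ≠ 0) (f : MvPolynomial (Fin 6) k) : bph p (bps p f) = f := by
  have : (bph p).comp (bps p) = AlgHom.id k _ := by
    refine MvPolynomial.algHom_ext fun i => ?_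
    rw [AlgHom.comp_apply, bps_X, map_add, map_mul, bph_X, if_pos rfl, algHom_C, algebraMap_eq,
      ← mul_assoc, ← C_mul, AlgHom.id_apply]
    split_ifs with h0
    · subst h0; rw [mul_inv_cancel₀ h]; simp
    · rw [bph_X, if_neg h0, div_eq_mul_inv]; ring
  exact DFunLike.congr_fun this f

theorem b_sh (h : p 0 ≠ 0) (f : MvPolynomial (Fin 6) k) : bps p (bph p f) = f := by
  have e : C (p 0)⁻¹ * bps p (X 0) = X 0 := by
    rw [bps_X, if_pos rfl, add_zero, ← mul_assoc, ← C_mul, inv_mul_cancel₀ h, C_1, one_mul]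
  have : (bps p).comp (bph p) = AlgHom.id k _ := by
    refine MvPolynomial.algHom_ext fun i => ?_
    rw [AlgHom.comp_apply, bph_X, AlgHom.id_apply]
    split_ifs with h0
    · subst h0; rw [map_mul, algHom_C, algebraMap_eq, e]
    · rw [map_sub, map_mul, algHom_C, algebraMap_eq, div_eq_mul_inv, C_mul, mul_assoc, e, bps_X,
        if_neg h0]
      ring
  exact DFunLike.congr_fun this f

theorem bps_hom {f : MvPolynomial (Fin 6) k} {d : ℕ} (hf : f.IsHomogeneous d) :
    (bps p f).IsHomogeneous d := by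
  have := hf.aeval (n := 1) (fun i => C (p i) * X 0 + if i = 0 then 0 else X i) fun i => by
    refine ((isHomogeneous_X k 0).C_mul _).add ?_
    split_ifs
    · exact isHomogeneous_zero _ _ _
    · exact isHomogeneous_X k i
  rwa [one_mul] at this

theorem bph_hc (f : MvPolynomial (Fin 6) k) (d : ℕ) :
    bph p (homogeneousComponent d f) = homogeneousComponent d (bph p f) := by
  have hh : ∀ {g : MvPolynomial (Fin 6) k} {e : ℕ}, g.IsHomogeneous e →
      (bph p g).IsHomogeneous e := fun {g e} hg => by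
    have := hg.aeval (n := 1)
      (fun i => if i = 0 then C (p 0)⁻¹ * X 0 else X i - C (p i / p 0) * X 0) fun i => by
      split_ifs
      · exact (isHomogeneous_X k 0).C_mul _
      · exact (isHomogeneous_X k i).sub ((isHomogeneous_X k 0).C_mul _)
    rwa [one_mul] at this
  conv_rhs => rw [← sum_homogeneousComponent f, map_sum, map_sum]
  rw [Finset.sum_eq_single d (fun i _ hi => by
    rw [homogeneousComponent_of_mem (hh (homogeneousComponent_isHomogeneous i f)),
      if_neg hi.symm]) (fun he => by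
    rw [homogeneousComponent_eq_zero d f (by simpa using he)]; simp)]
  exact (homogeneousComponent_eq_self (hh (homogeneousComponent_isHomogeneous d f))).symm

theorem bps_aeval {B : Type} [CommRing B] [Algebra k B] (x : Fin 6 → B)
    (f : MvPolynomial (Fin 6) k) : aeval x (bps p f) =
      aeval (fun i => algebraMap k B (p i) * x 0 + if i = 0 then 0 else x i) f := by
  have : (aeval x).comp (bps p) =
      aeval (fun i => algebraMap k B (p i) * x 0 + if i = 0 then 0 else x i) := by
    refine MvPolynomial.algHom_ext fun i => ?_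
    rw [AlgHom.comp_apply, bps_X, aeval_X]
    split_ifs <;> simp
  exact DFunLike.congr_fun this f

theorem bps_pd (j : Fin 6) (f : MvPolynomial (Fin 6) k) : pderiv j (bps p f) =
    if j = 0 then ∑ i, bps p (pderiv i f) * C (p i) else bps p (pderiv j f) := by
  have := gp_chain (pderiv j : Derivation k (MvPolynomial (Fin 6) k) _)
    (fun i => C (p i) * X 0 + if i = 0 then 0 else X i) f
  refine this.trans ?_
  split_ifs with h
  · subst h
    refine Finset.sum_congr rfl fun i _ => ?_
    congr 1
    split_ifs with h0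
    · simp
    · simp [pderiv_X_of_ne h0]
  · rw [Finset.sum_eq_single j]
    · simp [bps, h, pderiv_X_of_ne (Ne.symm h)]
    · intro i _ hi
      split_ifs with h0
      · simp [pderiv_X_of_ne (Ne.symm h)]
      · simp [pderiv_X_of_ne (Ne.symm h), pderiv_X_of_ne hi]
    · simp

/-- transport of a cone -/
noncomputable def bJ (h : p 0 ≠ 0) (Z : Cone k 6) : Cone k 6 where
  I := Z.I.comap (bph p)
  prime := Ideal.comap_isPrime _ _ (H := Z.prime)
  hom := fun f hf d => by
    rw [Ideal.mem_comap, bph_hc]; exact Z.hom _ hf d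
  ne := by
    by_contra hn
    push Not at hn
    obtain ⟨i, hi⟩ := Z.ne
    apply hi
    rw [← b_hs h (X i), ← Ideal.mem_comap, bps_X]
    refine Ideal.add_mem _ (Ideal.mul_mem_left _ _ (hn 0)) ?_
    split_ifs
    · exact Ideal.zero_mem _
    · exact hn i
  rk := fun F _ _ x hx ho => by
    have h' : algebraMap k F (p 0) ≠ 0 := (map_ne_zero _).2 h
    set y : Fin 6 → F := fun i => algebraMap k F (p i) * x 0 + if i = 0 then 0 else x i with hy
    have y0 : y ≠ 0 := fun e => hx (by
      have e0 := congrFun e 0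
      simp only [hy, if_true, add_zero, Pi.zero_apply, mul_eq_zero, h', false_or] at e0
      funext i
      by_cases hi : i = 0
      · rw [hi, e0]; rfl
      · simpa [hy, hi, e0] using congrFun e i)
    have oy : On Z.I y := fun f hf => by
      rw [hy, ← bps_aeval]
      exact ho _ (by rwa [Ideal.mem_comap, b_hs h])
    let e : (Fin 6 → F) →ₗ[F] (Fin 6 → F) :=
      { toFun := fun w j => if j = 0 then ∑ i, w i * algebraMap k F (p i) else w j
        map_add' := fun a b => funext fun j => by
          simp only [Pi.add_apply]; split_ifs <;> simp [add_mul, Finset.sum_add_distrib]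
        map_smul' := fun c a => funext fun j => by
          simp only [Pi.smul_apply, RingHom.id_apply]
          split_ifs <;> simp [Finset.mul_sum, mul_assoc] }
    have he : Function.Injective e := (injective_iff_map_eq_zero e).2 fun w hw => by
      have a : ∀ j, j ≠ 0 → w j = 0 := fun j hj => by simpa [e, hj] using congrFun hw j
      have b := congrFun hw 0
      simp only [e, LinearMap.coe_mk, AddHom.coe_mk, if_true, Pi.zero_apply] at b
      rw [Finset.sum_eq_single 0 (fun j _ hj => by rw [a j hj, zero_mul]) (by simp)] at b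
      funext j
      by_cases hj : j = 0
      · rw [hj]; exact (mul_eq_zero.1 b).resolve_right h'
      · exact a j hj
    have g : ∀ f : MvPolynomial (Fin 6) k, gr (bps p f) x = e (gr f y) := fun f => by
      funext j
      simp only [gr, bps_pd, e, LinearMap.coe_mk, AddHom.coe_mk]
      split_ifs
      · simp only [map_sum, map_mul, bps_aeval, aeval_C, hy]
      · rw [bps_aeval]
    have : Nm (Z.I.comap (bph p)) x = (Nm Z.I y).map e := by
      rw [Nm, Nm, Submodule.map_span]
      congr 1
      ext w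
      constructor
      · rintro ⟨f, hf, rfl⟩
        exact ⟨_, ⟨bph p f, hf, rfl⟩, by rw [← g, b_sh h]⟩
      · rintro ⟨_, ⟨f, hf, rfl⟩, rfl⟩
        exact ⟨bps p f, by rwa [Ideal.mem_comap, b_hs h], (g f).symm⟩
    rw [this, ← (Submodule.equivMapOfInjective e he _).finrank_eq]
    exact Z.rk F y y0 oy

theorem b_pow (h : p 0 ≠ 0) (N : ℕ) (i : Fin 6) : ∃ c : Fin 6 → MvPolynomial (Fin 6) k,
    (∀ a, (c a).IsHomogeneous N) ∧ X i ^ (N + N) = ∑ a, c a * bps p (X a) ^ N := by
  set A := Ideal.span (Set.range fun a : Fin 6 => bps p (X a) ^ N)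
  have m : ∀ (a : Fin 6) (t : k), (C t * bps p (X a)) ^ N ∈ A := fun a t => by
    rw [mul_pow]; exact A.mul_mem_left _ (Ideal.subset_span ⟨a, rfl⟩)
  have : X i ^ (N + N) ∈ A := by
    rw [← b_sh h (X i), bph_X]
    split_ifs
    · rw [map_mul, algHom_C, algebraMap_eq]
      exact A.pow_mem_of_pow_mem (m 0 _) (Nat.le_add_right _ _)
    · have := A.add_pow_mem_of_pow_mem_of_le (k := N + N) (m i 1) (m 0 (-(p i / p 0))) (by omega)
      rw [map_sub, map_mul, algHom_C, algebraMap_eq]
      convert this using 2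
      rw [C_1, C_neg]; ring
  obtain ⟨c, hc⟩ := Ideal.mem_span_range_iff_exists_fun.1 this
  refine ⟨fun a => homogeneousComponent N (c a), fun a => homogeneousComponent_isHomogeneous _ _, ?_⟩
  have e := congrArg (homogeneousComponent (N + N)) hc
  rw [homogeneousComponent_eq_self (isHomogeneous_X_pow i (N + N)), map_sum] at e
  rw [← e]
  refine Finset.sum_congr rfl fun a _ => ?_
  rw [mul_comm, hc_mul (bps_hom (isHomogeneous_X_pow a N) |> fun t => by rwa [map_pow] at t),
    mul_comm]

end sub

theorem b_lq {k F : Type} [Field k] [Algebra ℂ k] [Field F] [Algebra k F] [Algebra ℂ F]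
    [IsScalarTower ℂ k F] (p : Fin 6 → k) (y : Fin 5 → F) (f : MvPolynomial (Fin 6) ℂ) :
    lq y (bps p (map (algebraMap ℂ k) f)) =
      aeval (ln (algebraMap k F ∘ p) (Fin.cons 0 y : Fin 6 → F)) f := by
  rw [lq, bps_aeval, aeval_map_algebraMap]
  congr 2
  funext i
  refine Fin.cases ?_ (fun j => ?_) i <;> simp [ln, Fin.succ_ne_zero]

theorem pj_ex {Z : Cone ℂ 6} (s : Sect Z 2) {k : Type} [Field k] [IsAlgClosed k] [Algebra ℂ k]
    {p : Fin 6 → k} (hp : GenPt p)
    (hno : ∀ (q0 : Fin 6 → k) (g0 : Polynomial k), q0 0 = 0 → q0 ≠ 0 → g0.Monic →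
      g0.natDegree = 3 → ¬ Al Z.I p q0 g0) :
    ∃ (T : Pj k) (s' : Sect T.J 2), s'.Poly → s.Poly := by
  have h : p 0 ≠ 0 := fun e => by
    obtain ⟨D, hD⟩ := hp.ex fun _ => 1
    have := congrFun hD 0
    simp [dv, e] at this
  obtain ⟨Z', hZ⟩ := cone_map Z k
  have mem : ∀ g, bps p g ∈ (bJ h Z').I ↔ g ∈ Z.I.map (map (algebraMap ℂ k)) := fun g => by
    rw [← hZ]
    show bph p (bps p g) ∈ Z'.I ↔ _
    rw [b_hs h]
  have mem0 : ∀ f ∈ Z.I, bps p (map (algebraMap ℂ k) f) ∈ (bJ h Z').I := fun f hf =>
    (mem _).2 (Ideal.mem_map_of_mem _ hf)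
  choose c ch hc using b_pow h s.N
  set G : Fin 6 → MvPolynomial (Fin 6) k := fun a => bps p (map (algebraMap ℂ k) (s.G a)) with hG
  have cm : ∀ a b, bps p (X b) ^ s.N * G a - bps p (X a) ^ s.N * G b ∈ (bJ h Z').I := fun a b => by
    simpa [hG] using mem0 _ (s.cmp a b)
  refine ⟨⟨bJ h Z', ?_, fun q g hq hm hd hg => ?_, fun v => ?_, fun L _ _ _ y D1 D2 hl z hg => ?_⟩,
    ⟨s.N + s.N, fun i => ∑ a, c i a * G a, fun i => IsHomogeneous.sum _ _ _ fun a _ => ?_,
      fun i j => ?_⟩, fun hA => ?_⟩
  · obtain ⟨f0, hf0, n0⟩ : ∃ f ∈ Z.I, f ≠ 0 := by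
      by_contra hn
      push Not at hn
      have := Z.rk ℂ (fun _ => 1) (fun e => one_ne_zero (congrFun e 0))
        fun f hf => by rw [hn f hf, map_zero]
      rw [show Nm Z.I (fun _ => (1 : ℂ)) = ⊥ from Submodule.span_eq_bot.2 (by
        rintro _ ⟨f, hf, rfl⟩
        rw [hn f hf]; funext i; simp [gr]), finrank_bot] at this
      omega
    obtain ⟨d, n1⟩ : ∃ d, homogeneousComponent d f0 ≠ 0 := by
      by_contra hn
      push Not at hn
      exact n0 (by rw [← sum_homogeneousComponent f0]; simp [hn])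
    set f := homogeneousComponent d f0
    have fh : f.IsHomogeneous d := homogeneousComponent_isHomogeneous _ _
    have fp := not_on hp.ex n1
    set μ := bps p (map (algebraMap ℂ k) f) with hμ
    have μh : μ.IsHomogeneous d := bps_hom (fh.map _)
    have top : (finSuccEquiv k 5 μ).coeff d = C (aeval p f) := by
      have h0 := μh.finSuccEquiv_coeff_isHomogeneous d 0 rfl
      have e := lq_E 0 μ
      rw [hμ, b_lq, ← hμ, show ln (algebraMap k k ∘ p) (Fin.cons 0 0 : Fin 6 → k) =
        (Polynomial.X : Polynomial k) • fun i => Polynomial.C (p i) from funext fun i => by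
          refine Fin.cases ?_ (fun j => ?_) i <;> simp [ln], aeval_smul_hom fh] at e
      have e2 : aeval (fun i => Polynomial.C (p i)) f = Polynomial.C (aeval p f) := by
        have : (aeval fun i => Polynomial.C (p i) : MvPolynomial (Fin 6) ℂ →ₐ[ℂ] Polynomial k) =
            ((Polynomial.CAlgHom (R := k)).restrictScalars ℂ).comp (aeval p) := by
          ext1 j; simp
        exact DFunLike.congr_fun this f
      have e3 := congrArg (Polynomial.coeff · d) e
      simp only [e2, Polynomial.coeff_map, Polynomial.coeff_mul_C, Polynomial.coeff_X_pow_self,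
        one_mul] at e3
      have e4 := totalDegree_eq_zero_iff_eq_C.1 (Nat.le_zero.1 h0.totalDegree_le)
      rw [e4, eval_C] at e3
      rw [e4, e3]
    refine ⟨C (aeval p f)⁻¹ * μ, Ideal.mul_mem_left _ _ (mem0 _ (Z.hom _ hf0 d)), ?_⟩
    have e := E_io (C (aeval p f)⁻¹ : MvPolynomial (Fin 5) k)
    rw [rename_C] at e
    rw [map_mul, e]
    refine Polynomial.monic_of_natDegree_le_of_coeff_eq_one d
      ((Polynomial.natDegree_C_mul_le _ _).trans ?_) ?_
    · rw [natDegree_finSuccEquiv]
      exact (degreeOf_le_totalDegree _ _).trans μh.totalDegree_le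
    · rw [Polynomial.coeff_C_mul, top, ← C_mul, inv_mul_cancel₀ fp, C_1]
  · refine hno (Fin.cons 0 q) g rfl (fun e => hq (funext fun j => congrFun e j.succ)) hm hd
      fun f hf => ?_
    have := hg _ (mem0 f hf)
    rwa [b_lq] at this
  · obtain ⟨D, hD⟩ := hp.ex (Fin.cons 0 v)
    set δ : MvPolynomial (Fin 6) k → MvPolynomial (Fin 6) k :=
      fun f => cD D f - X 0 * ∑ j, C (v j) * pderiv j.succ f with hδ
    have da : ∀ f g, δ (f + g) = δ f + δ g := fun f g => by
      simp only [hδ, ka_cD_add, map_add, mul_add, Finset.sum_add_distrib]; ring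
    have dm : ∀ f g, δ (f * g) = δ f * g + f * δ g := fun f g => by
      have : ∑ j, C (v j) * pderiv j.succ (f * g) = (∑ j, C (v j) * pderiv j.succ f) * g +
          f * ∑ j, C (v j) * pderiv j.succ g := by
        rw [Finset.sum_mul, Finset.mul_sum, ← Finset.sum_add_distrib]
        exact Finset.sum_congr rfl fun j _ => by rw [pderiv_mul]; ring
      simp only [hδ, cD_mul, this]; ring
    have d0 : ∀ f : MvPolynomial (Fin 6) ℂ, δ (bps p (map (algebraMap ℂ k) f)) = 0 := fun f => by
      induction f using MvPolynomial.induction_on with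
      | C t => simp [hδ, ka_cD_C]
      | add f g hf hg => rw [map_add, map_add, da, hf, hg, add_zero]
      | mul_X f i hf =>
        rw [map_mul, map_mul, dm, hf, zero_mul, zero_add, map_X, bps_X]
        refine mul_eq_zero_of_right _ ?_
        have e : D (p i) = (Fin.cons 0 v : Fin 6 → k) i := congrFun hD i
        simp only [hδ, ka_cD_add, cD_mul, ka_cD_C, ka_cD_X, e]
        refine Fin.cases ?_ (fun j => ?_) i
        · simp [ka_cD_zero, pderiv_X_of_ne (Fin.succ_ne_zero _).symm]
        · simp [ka_cD_X, Fin.succ_ne_zero, pderiv_X_of_ne (Fin.succ_ne_zero _).symm, pderiv_X,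
            Pi.single_apply, mul_comm]
    refine ⟨D, fun f hf => ?_⟩
    rw [← b_sh h f] at hf ⊢
    have hf' := (mem _).1 hf
    generalize bph p f = g at hf'
    show δ (bps p g) ∈ _
    refine Submodule.span_induction (p := fun g _ => δ (bps p g) ∈ (bJ h Z').I) ?_ ?_ ?_ ?_ hf'
    · rintro _ ⟨f, -, rfl⟩
      rw [d0]; exact Ideal.zero_mem _
    · simp [hδ, ka_cD_zero]
    · intro a b _ _ ha hb
      rw [map_add, da]; exact Ideal.add_mem _ ha hb
    · intro a b hb hb'
      rw [smul_eq_mul, map_mul, dm]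
      exact Ideal.add_mem _ (Ideal.mul_mem_left _ _ ((mem b).2 hb)) (Ideal.mul_mem_left _ _ hb')
  · let : Algebra ℂ L := ((algebraMap k L).comp (algebraMap ℂ k)).toAlgebra
    have : IsScalarTower ℂ k L := IsScalarTower.of_algebraMap_eq fun _ => rfl
    have k0 : ∀ D : Derivation k L L, dv (D.restrictScalars ℂ) (algebraMap k L ∘ p) = 0 :=
      fun D => funext fun i => D.map_algebraMap (p i)
    have k1 : ∀ D : Derivation k L L, dv (D.restrictScalars ℂ) (Fin.cons 0 y : Fin 6 → L) =
        Fin.cons 0 (dv D y) := fun D => funext fun i => by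
      refine Fin.cases ?_ (fun j => ?_) i <;> simp [dv]
    refine gpd (Z := Z) (q := Fin.cons 0 y) hp.ext (k0 D1) (k0 D2) ?_ z fun f hf => ?_
    · rw [k1, k1, Fintype.linearIndependent_iff]
      intro g hg
      simp only [Fin.sum_univ_four, Matrix.cons_val] at hg
      have g0 : g 0 = 0 := by simpa [h] using congrFun hg 0
      have := Fintype.linearIndependent_iff.1 hl ![g 1, g 2, g 3] (by
        funext j
        simpa [Fin.sum_univ_three, g0] using congrFun hg j.succ)
      intro i
      fin_cases i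
      exacts [g0, this 0, this 1, this 2]
    · have := hg _ (mem0 f hf)
      rwa [b_lq] at this
  · rw [add_assoc]
    exact (ch i a).mul (bps_hom ((s.hom a).map _))
  · rw [hc i, hc j, Finset.sum_mul_sum, Finset.sum_mul_sum, Finset.sum_comm,
      ← Finset.sum_sub_distrib]
    refine Ideal.sum_mem _ fun a _ => ?_
    rw [← Finset.sum_sub_distrib]
    refine Ideal.sum_mem _ fun b _ => ?_
    convert Ideal.mul_mem_left _ (c i a * c j b) (cm a b) using 1
    ring
  · obtain ⟨A, hA⟩ := hA
    refine poly_of_ext s k (bph p A) fun a => ?_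
    rw [← mem, map_sub, map_mul, map_pow, b_sh h]
    obtain ⟨i, hi⟩ := (bJ h Z').ne
    have hP := (bJ h Z').prime
    refine (hP.mem_or_mem (x := X i ^ (s.N + s.N)) ?_).resolve_left
      fun t => hi (hP.mem_of_pow_mem _ t)
    have t : ∑ b, c i b * (bps p (X a) ^ s.N * G b - bps p (X b) ^ s.N * G a) ∈ (bJ h Z').I :=
      Ideal.sum_mem _ fun b _ => Ideal.mul_mem_left _ _ (cm b a)
    have hA' : X i ^ (s.N + s.N) * A - ∑ b, c i b * G b ∈ (bJ h Z').I := hA i
    have e : ∑ b, c i b * (bps p (X a) ^ s.N * G b - bps p (X b) ^ s.N * G a) =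
        bps p (X a) ^ s.N * ∑ b, c i b * G b - X i ^ (s.N + s.N) * G a := by
      rw [hc i, Finset.mul_sum, Finset.sum_mul, ← Finset.sum_sub_distrib]
      exact Finset.sum_congr rfl fun b _ => by ring
    rw [e] at t
    have e2 : X i ^ (s.N + s.N) * (bps p (X a) ^ s.N * A - G a) =
        bps p (X a) ^ s.N * (X i ^ (s.N + s.N) * A - ∑ b, c i b * G b) +
          (bps p (X a) ^ s.N * ∑ b, c i b * G b - X i ^ (s.N + s.N) * G a) := by ring
    exact e2 ▸ Ideal.add_mem _ (Ideal.mul_mem_left _ (bps p (X a) ^ s.N) hA') t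

end Sd
end PV
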