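import Pool.Agent.Lib.MP_36fb43_ag.SdA
import Pool.Agent.Lib.MP_36fb43_ag.GPb

/-! Local structure of the projection at a point of the double surface. -/

open MvPolynomial Matrix Module

namespace PV

namespace Sd

variable {k : Type} [Field k] {c al be : MvPolynomial (Fin 5) k}

section ideal
variable {J : Ideal (MvPolynomial (Fin 6) k)}

theorem mem_aa {a b : MvPolynomial (Fin 5) k} (h : red a b ∈ J) : b ∈ aa J := ⟨a, h⟩

theorem red_shift (hq : qd c al be ∈ J) {a b : MvPolynomial (Fin 5) k} (h : red a b ∈ J) :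
    c * a ∈ aa J := by
  have h1 : c * a + b * be ∈ aa J := by
    refine ⟨b * al, ?_⟩
    have := J.sub_mem (J.mul_mem_left (io c * X 0) h) (J.mul_mem_left (io b) hq)
    convert this using 1
    simp only [qd, red, map_add, map_mul]; ring
  simpa using (aa J).sub_mem h1 ((aa J).mul_mem_right be (mem_aa h))

theorem red_of (hq : qd c al be ∈ J) {f} (hf : f ∈ J) : ∃ (L : ℕ) (w : MvPolynomial (Fin 6) k)
    (a b : MvPolynomial (Fin 5) k), red a b ∈ J ∧ io c ^ L * f = qd c al be * w + red a b := by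
  obtain ⟨L, w, a, b, e⟩ := pdiv c al be f
  refine ⟨L, w, a, b, ?_, e⟩
  have := J.sub_mem (J.mul_mem_left (io c ^ L) hf) (J.mul_mem_right w hq)
  rwa [e, add_sub_cancel_left] at this

theorem nm_mem (hq : qd c al be ∈ J) {a b : MvPolynomial (Fin 5) k} (h : red a b ∈ J) :
    io (c * a ^ 2 + be * a * b - al * b ^ 2) ∈ J := by
  rw [norm_eq]
  exact J.add_mem (J.mul_mem_right _ h) (J.mul_mem_left _ hq)

section pt
variable {F : Type} [Field F] [Algebra k F] {y : Fin 5 → F}

theorem van (hq : qd c al be ∈ J) (hc : aeval y c ≠ 0) (hV : On (aa J) y)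
    {a b : MvPolynomial (Fin 5) k} (h : red a b ∈ J) : aeval y a = 0 ∧ aeval y b = 0 := by
  have := hV _ (red_shift hq h)
  rw [map_mul] at this
  exact ⟨(mul_eq_zero.1 this).resolve_left hc, hV _ (mem_aa h)⟩

theorem lq_van (hq : qd c al be ∈ J) (hc : aeval y c ≠ 0) (hV : On (aa J) y)
    {a b : MvPolynomial (Fin 5) k} (h : red a b ∈ J) : lq y (red a b) = 0 := by
  rw [lq_red, (van hq hc hV h).1, (van hq hc hV h).2]; simp

theorem qd_dvd (hq : qd c al be ∈ J) (hc : aeval y c ≠ 0) (hV : On (aa J) y) {f} (hf : f ∈ J) :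
    lq y (qd c al be) ∣ lq y f := by
  obtain ⟨L, w, a, b, h, e⟩ := red_of hq hf
  have e' := congrArg (lq y) e
  rw [map_add, lq_van hq hc hV h, map_mul, map_mul, map_pow, lq_io, add_zero] at e'
  exact ((Polynomial.isUnit_C.2 hc.isUnit).pow L).dvd_mul_left.1 ⟨_, e'⟩

theorem lq_qd_ne (hc : aeval y c ≠ 0) : lq y (qd c al be) ≠ 0 := fun h => by
  have := congrArg (Polynomial.coeff · 2) h
  rw [lq_qd] at this
  generalize aeval y c = c0, aeval y al = a0, aeval y be = b0 at this hc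
  exact hc (by simpa using this)

theorem on_root (hq : qd c al be ∈ J) (hc : aeval y c ≠ 0) (hV : On (aa J) y) {z : F}
    (hz : (lq y (qd c al be)).eval z = 0) : On J (Fin.cons z y : Fin 6 → F) := fun f hf => by
  obtain ⟨t, ht⟩ := qd_dvd hq hc hV hf
  rw [← eval_lq, ht, Polynomial.eval_mul, hz, zero_mul]

theorem gr_dec (hq : qd c al be ∈ J) (hc : aeval y c ≠ 0) {z : F}
    (hx : On J (Fin.cons z y : Fin 6 → F)) {W : Submodule F (Fin 6 → F)}
    (hW : gr (qd c al be) (Fin.cons z y : Fin 6 → F) ∈ W) {f} (hf : f ∈ J)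
    (h : gr f (Fin.cons z y : Fin 6 → F) ∉ W) :
    ∃ a b, red a b ∈ J ∧ gr (red a b) (Fin.cons z y : Fin 6 → F) ∉ W := by
  obtain ⟨L, w, a, b, h1, e⟩ := red_of hq hf
  refine ⟨a, b, h1, fun h2 => h ?_⟩
  have e' := congrArg (gr · (Fin.cons z y : Fin 6 → F)) e
  simp only [KE.gr_add] at e'
  rw [KE.gr_pow_mul _ (hx f hf), mul_comm, KE.gr_pow_mul _ (hx _ hq), map_pow, aeval_io] at e'
  rw [← W.smul_mem_iff (pow_ne_zero L hc), e']
  exact W.add_mem (W.smul_mem _ hW) h2

theorem lq_fac {z1 z2 : F} (h1 : aeval y be = aeval y c * (z1 + z2))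
    (h2 : aeval y al = -(aeval y c * (z1 * z2))) : lq y (qd c al be) = Polynomial.C (aeval y c) *
      ((Polynomial.X - Polynomial.C z1) * (Polynomial.X - Polynomial.C z2)) := by
  rw [lq_qd, h1, h2]
  simp only [map_add, map_mul, map_neg]; ring

theorem roots [IsAlgClosed F] (al be : MvPolynomial (Fin 5) k) (hc : aeval y c ≠ 0) :
    ∃ z1 z2 : F, aeval y be = aeval y c * (z1 + z2) ∧ aeval y al = -(aeval y c * (z1 * z2)) := by
  obtain ⟨z, hz⟩ := IsAlgClosed.exists_root (lq y (qd c al be)) (by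
    have : (lq y (qd c al be)).degree = 2 := by rw [lq_qd]; compute_degree!
    rw [this]; norm_num)
  rw [lq_qd, Polynomial.IsRoot] at hz
  simp only [Polynomial.eval_sub, Polynomial.eval_add, Polynomial.eval_mul, Polynomial.eval_C,
    Polynomial.eval_pow, Polynomial.eval_X] at hz
  refine ⟨z, aeval y be / aeval y c - z, by field_simp; ring, ?_⟩
  field_simp
  linear_combination -hz

end pt

/-- an element of degree one in the ideal generated by `qd` and `red a b` -/
theorem red_span (hc : c ≠ 0) {a b g h : MvPolynomial (Fin 5) k}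
    (hm : red g h ∈ Ideal.span {qd c al be, red a b}) : ∃ (L : ℕ) (a' b' : MvPolynomial (Fin 5) k),
      c ^ L * g = c * a * a' + b * b' * al ∧ c ^ L * h = c * (a * b' + a' * b) + b * b' * be := by
  obtain ⟨w1, w2, e⟩ := Ideal.mem_span_pair.1 hm
  obtain ⟨L, w, a', b', e'⟩ := pdiv c al be w2
  have := red_eq_zero (al := al) (be := be) (a := c ^ (L + 1) * g - (c * a * a' + b * b' * al))
    (b := c ^ (L + 1) * h - (c * (a * b' + a' * b) + b * b' * be)) hc
    (w := io c ^ (L + 1) * w1 + io c * w * red a b + io b * io b') (by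
      simp only [qd, red, map_add, map_sub, map_mul, map_pow] at e e' ⊢
      linear_combination (-io c ^ (L + 1)) * e + io c * (io a + io b * X 0) * e')
  exact ⟨L + 1, a', b', sub_eq_zero.1 this.1, sub_eq_zero.1 this.2⟩

end ideal

variable [CharZero k] [IsAlgClosed k] {q : Fin 5 → k}

theorem good1 (J : Cone k 6) (hq : qd c al be ∈ J.I) (hc : aeval q c ≠ 0) (h0 : q ≠ 0)
    (hV : On (aa J.I) q) {z : k} (hz : (lq q (qd c al be)).eval z = 0) :
    gr (qd c al be) (Fin.cons z q : Fin 6 → k) ≠ 0 ∧ ∃ a b, red a b ∈ J.I ∧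
      gr (red a b) (Fin.cons z q : Fin 6 → k) ∉
        Submodule.span k {gr (qd c al be) (Fin.cons z q : Fin 6 → k)} := by
  have hx := on_root hq hc hV hz
  have x0 : (Fin.cons z q : Fin 6 → k) ≠ 0 := fun h => h0 (funext fun j => congrFun h j.succ)
  have key : ∀ v, gr (qd c al be) (Fin.cons z q : Fin 6 → k) ∈ Submodule.span k {v} →
      ∃ a b, red a b ∈ J.I ∧ gr (red a b) (Fin.cons z q : Fin 6 → k) ∉ Submodule.span k {v} :=
    fun v hv => by
      obtain ⟨f, hf, h⟩ := gp_two x0 hx v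
      exact gr_dec hq hc hx hv hf h
  refine ⟨fun hg => ?_, key _ (Submodule.mem_span_singleton_self _)⟩
  obtain ⟨a1, b1, m1, n1⟩ := key 0 (by rw [hg]; exact Submodule.zero_mem _)
  obtain ⟨a2, b2, m2, n2⟩ := key (gr (red a1 b1) (Fin.cons z q : Fin 6 → k))
    (by rw [hg]; exact Submodule.zero_mem _)
  obtain ⟨e, he, h⟩ := lci J hx m1 m2 ((LinearIndependent.pair_iff' (fun h => n1 (by
    rw [h]; exact Submodule.zero_mem _))).2 fun t ht => n2 (Submodule.mem_span_singleton.2 ⟨t, ht⟩))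
  obtain ⟨w1, w2, e'⟩ := Ideal.mem_span_pair.1 (h _ hq)
  have := congrArg (lq q) e'
  rw [map_add, map_mul, map_mul, map_mul, lq_van hq hc hV m1, lq_van hq hc hV m2, mul_zero,
    mul_zero, add_zero] at this
  have h3 := (mul_eq_zero.1 this.symm).resolve_right (lq_qd_ne hc)
  have h4 := eval_lq q z e
  rw [h3, Polynomial.eval_zero] at h4
  exact he h4.symm

/-- the reduced elements of an ideal -/
def rds (J : Ideal (MvPolynomial (Fin 6) k)) : AddSubgroup (MvPolynomial (Fin 6) k) where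
  carrier := {f | ∃ a b, red a b ∈ J ∧ f = red a b}
  add_mem' := by
    rintro _ _ ⟨a, b, h, rfl⟩ ⟨a', b', h', rfl⟩
    exact ⟨a + a', b + b', by rw [red_add]; exact J.add_mem h h', (red_add ..).symm⟩
  zero_mem' := ⟨0, 0, by simp [red], by simp [red]⟩
  neg_mem' := by
    rintro _ ⟨a, b, h, rfl⟩
    have e : red (-a) (-b) = -red a b := by simp only [red, map_neg]; ring
    exact ⟨-a, -b, by rw [e]; exact J.neg_mem h, e.symm⟩

/-- gradient in a subspace -/
def grs (x : Fin 6 → k) (W : Submodule k (Fin 6 → k)) : AddSubgroup (MvPolynomial (Fin 6) k) where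
  carrier := {f | gr f x ∈ W}
  add_mem' := fun h h' => by
    simp only [Set.mem_ofPred_eq] at h h' ⊢
    rw [KE.gr_add]; exact W.add_mem h h'
  zero_mem' := by
    have : gr (0 : MvPolynomial (Fin 6) k) x = 0 := by funext i; simp [gr]
    simp only [Set.mem_ofPred_eq, this, W.zero_mem]
  neg_mem' := fun {f} h => by
    have : gr (-f) x = -gr f x := by funext i; simp [gr]
    simp only [Set.mem_ofPred_eq] at h ⊢
    rw [this]; exact W.neg_mem h

omit [CharZero k] [IsAlgClosed k] in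
theorem mem_grs {x : Fin 6 → k} {W : Submodule k (Fin 6 → k)} {f : MvPolynomial (Fin 6) k} :
    f ∈ grs x W ↔ gr f x ∈ W := Iff.rfl

omit [CharZero k] [IsAlgClosed k] in
theorem lq_gp {R : Type} [Field R] [Algebra R k] (D : Derivation R k k)
    {a b : MvPolynomial (Fin 5) k} (ha : aeval q a = 0) (hb : aeval q b = 0) (v : Fin 5 → k) :
    lq q (cD D (red a b) - X 0 * ∑ j, C (v j) * pderiv j.succ (red a b)) =
      Polynomial.C (-(gr b q ⬝ᵥ v)) * Polynomial.X ^ 2 +
        Polynomial.C (-(gr b q ⬝ᵥ dv D q) - gr a q ⬝ᵥ v) * Polynomial.X +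
        Polynomial.C (-(gr a q ⬝ᵥ dv D q)) := by
  have h : ∀ f : MvPolynomial (Fin 5) k, aeval q f = 0 →
      aeval q (cD D f) = -(gr f q ⬝ᵥ dv D q) := fun f hf => by
    have := D_eval D f q
    rw [show eval q f = 0 from hf, map_zero] at this
    exact eq_neg_of_add_eq_zero_left this.symm
  have h2 : lq q (∑ j, C (v j) * pderiv j.succ (red a b)) =
      Polynomial.C (gr a q ⬝ᵥ v) + Polynomial.C (gr b q ⬝ᵥ v) * Polynomial.X := by
    simp only [map_sum, map_mul, pds_red, lq_red, dotProduct, Finset.sum_mul,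
      ← Finset.sum_add_distrib, algHom_C, Polynomial.algebraMap_eq]
    exact Finset.sum_congr rfl fun j _ => by simp only [gr]; ring
  rw [map_sub, map_mul, h2, cD_red, lq_red, lq_X0, h a ha, h b hb]
  simp only [map_sub, map_neg]; ring

omit [CharZero k] [IsAlgClosed k] in
theorem indep {da db : Fin 5 → k} {z1 z2 : k} (n1 : da + z1 • db ≠ 0) (n2 : da + z2 • db ≠ 0)
    (h : ∀ v, ∃ w, -(db ⬝ᵥ w) - da ⬝ᵥ v = -(-(db ⬝ᵥ v) * (z1 + z2)) ∧
      -(da ⬝ᵥ w) = -(db ⬝ᵥ v) * (z1 * z2)) : LinearIndependent k ![da, db] := by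
  have hb : db ≠ 0 := fun e => n1 (by
    funext j
    obtain ⟨w, h1, -⟩ := h (Pi.single j 1)
    simpa [e] using h1)
  refine linearIndependent_fin2.2 ⟨hb, fun t ht => ?_⟩
  have ht' : da = t • db := ht.symm
  obtain ⟨j, hj⟩ := Function.ne_iff.1 hb
  obtain ⟨w, h1, h2⟩ := h (Pi.single j 1)
  rw [ht'] at h1 h2 n1 n2
  simp only [smul_dotProduct, dotProduct_single, mul_one, smul_eq_mul, Pi.smul_apply] at h1 h2
  have : db j * ((t + z1) * (t + z2)) = 0 := by linear_combination h2 - t * h1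
  rcases mul_eq_zero.1 ((mul_eq_zero.1 this).resolve_left hj) with e | e
  · exact n1 (by rw [← add_smul, e, zero_smul])
  · exact n2 (by rw [← add_smul, e, zero_smul])

/-- A2 -/
theorem a2 [Algebra ℂ k] (T : Pj k) (hq : qd c al be ∈ T.J.I) (hc : aeval q c ≠ 0) (h0 : q ≠ 0)
    (hV : On (aa T.J.I) q) : ∃ a b e, red a b ∈ T.J.I ∧ LinearIndependent k ![gr a q, gr b q] ∧
      aeval q e ≠ 0 ∧ ∀ f ∈ T.J.I, io e * f ∈ Ideal.span {qd c al be, red a b} := by
  obtain ⟨z1, z2, r1, r2⟩ := roots al be hc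
  have fac := lq_fac r1 r2
  have v1 : (lq q (qd c al be)).eval z1 = 0 := by rw [fac]; simp
  have v2 : (lq q (qd c al be)).eval z2 = 0 := by rw [fac]; simp
  obtain ⟨g1, a1, b1, m1, n1⟩ := good1 T.J hq hc h0 hV v1
  obtain ⟨g2, a2, b2, m2, n2⟩ := good1 T.J hq hc h0 hV v2
  obtain ⟨_, ⟨a, b, m, rfl⟩, k1, k2⟩ := two (rds T.J.I) (grs _ _) (grs _ _) ⟨a1, b1, m1, rfl⟩
    (mt mem_grs.1 n1) ⟨a2, b2, m2, rfl⟩ (mt mem_grs.1 n2)
  have loc : ∀ z, (lq q (qd c al be)).eval z = 0 → gr (qd c al be) (Fin.cons z q : Fin 6 → k) ≠ 0 →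
      red a b ∉ grs (Fin.cons z q) (Submodule.span k {gr (qd c al be) (Fin.cons z q : Fin 6 → k)}) →
      (∃ e ∈ (Ideal.span {qd c al be, red a b}).colon T.J.I,
        e ∉ RingHom.ker (eval (Fin.cons z q : Fin 6 → k))) ∧ gr a q + z • gr b q ≠ 0 :=
    fun z hz hg hn => by
      obtain ⟨e, he, h⟩ := lci T.J (on_root hq hc hV hz) hq m ((LinearIndependent.pair_iff' hg).2
        fun t ht => hn (Submodule.mem_span_singleton.2 ⟨t, ht⟩))
      refine ⟨⟨e, Submodule.mem_colon.2 h, he⟩, fun h1 => hn ?_⟩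
      rw [mem_grs, gr_red, h1, (van hq hc hV m).2]
      convert Submodule.zero_mem _
      funext i
      exact Fin.cases rfl (fun _ => rfl) i
  obtain ⟨⟨e1, s1, t1⟩, d1⟩ := loc z1 v1 g1 k1
  obtain ⟨⟨e2, s2, t2⟩, d2⟩ := loc z2 v2 g2 k2
  obtain ⟨e, s, t1, t2⟩ := two ((Ideal.span {qd c al be, red a b}).colon T.J.I).toAddSubgroup
    (RingHom.ker (eval (Fin.cons z1 q : Fin 6 → k))).toAddSubgroup
    (RingHom.ker (eval (Fin.cons z2 q : Fin 6 → k))).toAddSubgroup s1 t1 s2 t2
  have qc : qd c al be ∈ (Ideal.span {qd c al be, red a b}).colon T.J.I :=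
    Submodule.mem_colon.2 fun f _ => Ideal.mul_mem_right _ _ (Ideal.subset_span (by simp))
  obtain ⟨L, w, a', b', m', e'⟩ := red_of qc s
  have nz : ∀ z, (lq q (qd c al be)).eval z = 0 → eval (Fin.cons z q : Fin 6 → k) e ≠ 0 →
      aeval q a' + aeval q b' * z ≠ 0 := fun z hz he h => by
    have := congrArg (fun f => (lq q f).eval z) e'
    simp only [map_add, map_mul, map_pow, lq_io, lq_red, Polynomial.eval_add, Polynomial.eval_mul,
      Polynomial.eval_pow, Polynomial.eval_C, Polynomial.eval_X, hz, h, zero_mul, add_zero] at this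
    rw [eval_lq] at this
    exact mul_ne_zero (pow_ne_zero L hc) he this
  refine ⟨a, b, _, m, indep d1 d2 fun v => ?_, ?_, Submodule.mem_colon.1 (nm_mem qc m')⟩
  · obtain ⟨D, hD⟩ := T.gp v
    have := qd_dvd hq hc hV (hD _ m)
    rw [lq_gp D (van hq hc hV m).1 (van hq hc hV m).2, fac] at this
    exact ⟨_, quad_dvd ((Dvd.intro_left _ rfl).trans this)⟩
  · have := mul_ne_zero hc (mul_ne_zero (nz z1 v1 t1) (nz z2 v2 t2))
    convert this using 1
    simp only [map_add, map_sub, map_mul, map_pow, r1, r2]; ring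

end Sd

end PV
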