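import Pool.Agent.Lib.MP_36fb43_ag.SdD

/-! The double surface of the projection is a smooth cone. -/

open MvPolynomial Matrix Module

namespace PV

namespace Sd

variable {k : Type} [Field k]

/-- the component of `A` at `q` -/
def lp (A : Ideal (MvPolynomial (Fin 5) k)) (q : Fin 5 → k) : Ideal (MvPolynomial (Fin 5) k) where
  carrier := {g | ∃ e, eval q e ≠ 0 ∧ e * g ∈ A}
  add_mem' := fun {g g'} ⟨e, h, m⟩ ⟨e', h', m'⟩ => ⟨e * e', by rw [map_mul]; exact mul_ne_zero h h', by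
    convert A.add_mem (A.mul_mem_left e' m) (A.mul_mem_left e m') using 1; ring⟩
  zero_mem' := ⟨1, by simp, by simp⟩
  smul_mem' := fun c g ⟨e, h, m⟩ => ⟨e, h, by
    convert A.mul_mem_left c m using 1; rw [smul_eq_mul]; ring⟩

section lp
variable {A : Ideal (MvPolynomial (Fin 5) k)} {q q1 : Fin 5 → k}

theorem mem_lp {g} : g ∈ lp A q ↔ ∃ e, eval q e ≠ 0 ∧ e * g ∈ A := Iff.rfl

theorem le_lp : A ≤ lp A q := fun g h => ⟨1, by simp, by simpa using h⟩

theorem lp_on (h : On A q) : On (lp A q) q := fun g ⟨e, he, m⟩ => by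
  have := h _ m
  rw [map_mul] at this
  exact (mul_eq_zero.1 this).resolve_left he

theorem lp_eq (p0 : (lp A q).IsPrime) (p1 : (lp A q1).IsPrime) (h : On A q)
    (h1 : On (lp A q) q1) : lp A q1 = lp A q := by
  have : lp A q1 ≤ lp A q := fun g ⟨e, he, m⟩ =>
    (p0.mem_or_mem (le_lp m)).resolve_left fun h2 => he (h1 e h2)
  exact le_antisymm this fun g ⟨e, he, m⟩ =>
    (p1.mem_or_mem (le_lp m)).resolve_left fun h2 => he (lp_on h e (this h2))

theorem lp_hom (hA : ∀ f ∈ A, ∀ d, homogeneousComponent d f ∈ A) (p0 : (lp A q).IsPrime)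
    (h : On A q) : ∀ f ∈ lp A q, ∀ d, homogeneousComponent d f ∈ lp A q := by
  let := MvPolynomial.gradedAlgebra (σ := Fin 5) (R := k)
  rintro f ⟨e, he, m⟩ d
  have p1 := p0.homogeneousCore (𝒜 := homogeneousSubmodule (Fin 5) k)
  have le := Ideal.toIdeal_homogeneousCore_le (homogeneousSubmodule (Fin 5) k) (lp A q)
  have h1 : e * f ∈ ((lp A q).homogeneousCore (homogeneousSubmodule (Fin 5) k)).toIdeal := by
    rw [← sum_homogeneousComponent (e * f)]
    exact Ideal.sum_mem _ fun i _ => Ideal.mem_homogeneousCore_of_homogeneous_of_mem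
      ⟨i, homogeneousComponent_isHomogeneous i _⟩ (le_lp (hA _ m i))
  have h2 := (p1.mem_or_mem h1).resolve_left fun h2 => he (lp_on h e (le h2))
  exact le (homogeneousComponent_mem_of_mem (HomogeneousIdeal.isHomogeneous _) h2 d)

end lp

theorem aa_hom (J : Cone k 6) : ∀ f ∈ aa J.I, ∀ d, homogeneousComponent d f ∈ aa J.I :=
  fun _ ⟨a, h⟩ d => ⟨homogeneousComponent (d + 1) a, by rw [← hc_red]; exact J.hom _ h _⟩

theorem red_zero (a : MvPolynomial (Fin 5) k) : red a 0 = io a := by simp [red]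

variable [CharZero k] [IsAlgClosed k] [Algebra ℂ k] {T : Pj k} {q : Fin 5 → k}

theorem a3 {c al be Fb : MvPolynomial (Fin 5) k} (hq : qd c al be ∈ T.J.I) (hc : aeval q c ≠ 0)
    (h0 : q ≠ 0) (hV : On (aa T.J.I) q) (F0 : Fb ≠ 0) (Fd : ∀ g, io g ∈ T.J.I ↔ Fb ∣ g) :
    ∃ a b, red a b ∈ T.J.I ∧ LinearIndependent k ![gr a q, gr b q] ∧
      (∀ g, g ∈ lp (aa T.J.I) q ↔ ∃ e, eval q e ≠ 0 ∧ e * g ∈ Ideal.span (Set.range ![a, b])) ∧
      ∃ n, eval q n ≠ 0 ∧ n * Fb = c * a ^ 2 + be * a * b - al * b ^ 2 := by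
  obtain ⟨a, b, e, m, li, he, h⟩ := a2 T hq hc h0 hV
  have hc' : eval q c ≠ 0 := hc
  have he' : eval q e ≠ 0 := he
  have c0 : c ≠ 0 := fun h => hc (by rw [h, map_zero])
  have rg : Set.range ![a, b] = {a, b} := by simp [Set.pair_comm]
  obtain ⟨va, vb⟩ := van hq hc hV m
  refine ⟨a, b, m, li, fun g => ⟨?_, ?_⟩, ?_⟩
  · rintro ⟨e', h1, γ, h2⟩
    have h3 := h _ h2
    rw [← red_mul] at h3
    obtain ⟨L, a', b', -, h4⟩ := red_span c0 h3
    refine ⟨c ^ L * e * e', by simp [hc', he', h1], ?_⟩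
    rw [rg, Ideal.mem_span_pair]
    exact ⟨c * b', c * a' + b' * be, by linear_combination -h4⟩
  · rintro ⟨e', h1, h2⟩
    rw [rg, Ideal.mem_span_pair] at h2
    obtain ⟨w1, w2, h2⟩ := h2
    refine ⟨c * e', by simp [hc', h1], ?_⟩
    convert (aa T.J.I).add_mem ((aa T.J.I).mul_mem_left w1 (red_shift hq m))
      ((aa T.J.I).mul_mem_left (c * w2) (mem_aa m)) using 1
    linear_combination -c * h2
  · obtain ⟨n, hn⟩ := (Fd _).1 (nm_mem hq m)
    refine ⟨n, ?_, by rw [hn, mul_comm]⟩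
    have h3 := h _ ((Fd Fb).2 dvd_rfl)
    rw [← red_zero Fb, ← red_mul] at h3
    obtain ⟨L, a', b', h4, h5⟩ := red_span c0 h3
    obtain ⟨gb, ga⟩ := linearIndependent_fin2.1 li
    obtain ⟨P, hP, mP⟩ := reg_prime q ![b] (fun i => by fin_cases i; exact vb)
      (linearIndependent_unique_iff.2 gb)
    have mP' : ∀ g, g ∈ P ↔ ∃ e t, eval q e ≠ 0 ∧ t * b = e * g := fun g => by
      simp only [mP, Matrix.range_cons, Matrix.range_empty, Set.union_empty,
        Ideal.mem_span_singleton', exists_and_left]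
    have h6 : c * (a * b') ∈ P :=
      (mP' _).2 ⟨1, -(c * a' + b' * be), by simp, by linear_combination h5⟩
    have h7 : c ∉ P := fun h => by
      obtain ⟨e, t, h1, h2⟩ := (mP' _).1 h
      have := congrArg (aeval q) h2
      rw [map_mul, map_mul, vb, mul_zero] at this
      exact mul_ne_zero h1 hc this.symm
    have h8 : a ∉ P := fun h => by
      obtain ⟨e, t, h1, h2⟩ := (mP' _).1 h
      have := congrArg (gr · q) h2
      simp only [KE.gr_pow_mul _ va, KE.gr_pow_mul _ vb] at this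
      refine ga ((aeval q e)⁻¹ * aeval q t) ?_
      show _ • gr b q = gr a q
      rw [mul_smul, this, smul_smul, inv_mul_cancel₀ (show aeval q e ≠ 0 from h1), one_smul]
    obtain ⟨e', t, h1, h2⟩ := (mP' _).1 ((hP.mem_or_mem ((hP.mem_or_mem h6).resolve_left h7)
      ).resolve_left h8)
    have b0 : b ≠ 0 := fun h => gb (by
      show gr b q = 0
      funext i; simp [gr, h])
    have h9 : c * a * t + c * a' * e' + t * b * be = 0 := mul_left_cancel₀ b0 (by
      linear_combination -e' * h5 + (c * a + b * be) * h2)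
    have h10 : e' * (c ^ L * e) = -t * n := mul_left_cancel₀ F0 (by
      linear_combination e' * h4 + a * h9 - b * al * h2 - t * hn)
    intro hn0
    have := congrArg (eval q) h10
    simp only [map_mul, map_pow, hn0, mul_zero] at this
    exact mul_ne_zero h1 (mul_ne_zero (pow_ne_zero L hc') he') this

variable {s : Sect T.J 2}

theorem Rd.a3 (R : Rd T s) {j : Fin 5} (hj : q j ≠ 0) (hV : On (aa T.J.I) q) :
    ∃ a b, red a b ∈ T.J.I ∧ LinearIndependent k ![gr a q, gr b q] ∧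
      (∀ g, g ∈ lp (aa T.J.I) q ↔ ∃ e, eval q e ≠ 0 ∧ e * g ∈ Ideal.span (Set.range ![a, b])) ∧
      ∃ n, eval q n ≠ 0 ∧
        n * R.Fb = X j ^ R.M * a ^ 2 + R.be j * a * b - R.al j * b ^ 2 :=
  Sd.a3 (R.qm j) (by simp [hj]) (fun h => hj (congrFun h j)) hV R.Firr.ne_zero R.Fdvd

theorem Rd.prime (R : Rd T s) (h0 : q ≠ 0) (hV : On (aa T.J.I) q) :
    (lp (aa T.J.I) q).IsPrime := by
  obtain ⟨j, hj⟩ := Function.ne_iff.1 h0
  obtain ⟨a, b, m, li, h, -⟩ := R.a3 hj hV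
  have v := van (R.qm j) (by simp [show q j ≠ 0 from hj]) hV m
  obtain ⟨P, hP, mP⟩ := reg_prime q ![a, b] (fun i => by fin_cases i; exacts [v.1, v.2])
    (by convert li using 1; funext i; fin_cases i <;> rfl)
  rwa [show lp (aa T.J.I) q = P from Ideal.ext fun g => (h g).trans (mP g).symm]

theorem Rd.rk (R : Rd T s) (h0 : q ≠ 0) (hV : On (aa T.J.I) q) (F : Type) [Field F] [Algebra k F]
    (x : Fin 5 → F) (x0 : x ≠ 0) (hx : On (lp (aa T.J.I) q) x) :
    finrank F (Nm (lp (aa T.J.I) q) x) = 2 := by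
  obtain ⟨j, hj⟩ := Function.ne_iff.1 x0
  obtain ⟨q1, h1, h2⟩ := spec_pt (k := k) x (g := X j) (by simpa using hj)
  rw [eval_X] at h2
  have o1 : On (lp (aa T.J.I) q) q1 := fun f hf => h1 f (hx f hf)
  have o2 : On (aa T.J.I) q1 := fun f hf => o1 f (le_lp hf)
  rw [← lp_eq (R.prime h0 hV) (R.prime (fun h => h2 (congrFun h j)) o2) hV o1] at hx ⊢
  obtain ⟨a, b, -, li, h, -⟩ := R.a3 h2 o2
  have ma : a ∈ lp (aa T.J.I) q1 := (h a).2 ⟨1, by simp, by
    rw [one_mul]; exact Ideal.subset_span ⟨0, rfl⟩⟩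
  have mb : b ∈ lp (aa T.J.I) q1 := (h b).2 ⟨1, by simp, by
    rw [one_mul]; exact Ideal.subset_span ⟨1, rfl⟩⟩
  have : Nm (lp (aa T.J.I) q1) x = Submodule.span F (Set.range ![gr a x, gr b x]) := by
    refine le_antisymm (Submodule.span_le.2 ?_) (Submodule.span_le.2 ?_)
    · rintro _ ⟨g, hg, rfl⟩
      obtain ⟨e, he, m⟩ := (h g).1 hg
      rw [show Set.range ![a, b] = {a, b} by simp [Set.pair_comm], Ideal.mem_span_pair] at m
      obtain ⟨w1, w2, m⟩ := m
      have := congrArg (gr · x) m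
      simp only [KE.gr_add, KE.gr_pow_mul _ (hx _ ma), KE.gr_pow_mul _ (hx _ mb),
        KE.gr_pow_mul _ (hx _ hg)] at this
      rw [SetLike.mem_coe, ← Submodule.smul_mem_iff _ (mt (h1 e) he), ← this]
      exact Submodule.add_mem _ (Submodule.smul_mem _ _ (Submodule.subset_span ⟨0, rfl⟩))
        (Submodule.smul_mem _ _ (Submodule.subset_span ⟨1, rfl⟩))
    · rintro _ ⟨i, rfl⟩
      fin_cases i
      exacts [Submodule.subset_span ⟨a, ma, rfl⟩, Submodule.subset_span ⟨b, mb, rfl⟩]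
  rw [this, finrank_span_eq_card (KE.li_gen h1 li), Fintype.card_fin]

/-- the component of the double surface through `q` -/
def Rd.cn (R : Rd T s) (h0 : q ≠ 0) (hV : On (aa T.J.I) q) : Cone k 5 where
  I := lp (aa T.J.I) q
  prime := R.prime h0 hV
  hom := lp_hom (aa_hom T.J) (R.prime h0 hV) hV
  ne := by
    obtain ⟨j, hj⟩ := Function.ne_iff.1 h0
    exact ⟨j, fun h => hj (by simpa using lp_on hV _ h)⟩
  rk := R.rk h0 hV

omit [IsAlgClosed k] [Algebra ℂ k] in
theorem gen3 (Y : Cone k 5) : ∃ (L : Type) (_ : Field L) (_ : Algebra k L) (_ : IsAlgClosed L)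
    (y : Fin 5 → L), (∀ f, aeval y f = 0 ↔ f ∈ Y.I) ∧
      3 ≤ finrank L (dsp (Set.univ : Set (Derivation k L L)) y) := by
  obtain ⟨L, _, _, _, y, hy, hD, -⟩ := genpt_ex Y
  obtain ⟨W, h1, h2⟩ := KE.tg_ge (Y.rk L y (KE.ne_zero_of_gen Y hy) fun f hf => (hy f).2 hf)
  have := Submodule.finrank_mono
    (show W ≤ dsp Set.univ y from fun v hv => mem_dsp_univ.2 (hD v (h2 v hv)))
  exact ⟨L, _, _, inferInstance, y, hy, by omega⟩

end Sd

end PV
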