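import Pool.Agent.Lib.MP_36fb43_ag.KD
import Pool.Agent.Lib.MP_36fb43_ag.Bas

/-! Two independent generic points of a surface with a section that is not linear (A4). -/

open MvPolynomial Matrix Module

namespace PV

/-- two independent generic points -/
structure Two {k : Type} [Field k] {Y : Cone k 5} (b : Sect Y 1) (Ω : Type) [Field Ω]
    [Algebra k Ω] where
  q : Fin 5 → Ω
  q' : Fin 5 → Ω
  β : Ω
  β' : Ω
  on : On Y.I q
  on' : On Y.I q'
  val : b.Val q β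
  val' : b.Val q' β'
  gen : ∀ f : MvPolynomial (Fin 5) k, aeval q f = 0 → f ∈ Y.I
  gen' : ∀ f : MvPolynomial (Fin 5) k, aeval q' f = 0 → f ∈ Y.I
  ex : ∀ v, Tg Y.I q v → ∃ D : Derivation k Ω Ω, dv D q = v ∧ dv D q' = 0
  ex' : ∀ v, Tg Y.I q' v → ∃ D : Derivation k Ω Ω, dv D q' = v ∧ dv D q = 0
  uq : ∀ D : Derivation k Ω Ω, dv D q = 0 → dv D q' = 0 → D = 0
  nd : ∀ (c : Ω) (n : Fin 5 → Ω), (∀ D : Derivation k Ω Ω, dv D q' = 0 → D c = 0 ∧ dv D n = 0) →
    c * β + n ⬝ᵥ q = 0 → c = 0 ∧ n = 0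
  nd' : ∀ (c : Ω) (n : Fin 5 → Ω), (∀ D : Derivation k Ω Ω, dv D q = 0 → D c = 0 ∧ dv D n = 0) →
    c * β' + n ⬝ᵥ q' = 0 → c = 0 ∧ n = 0

variable {k : Type} [Field k] {Y : Cone k 5} {b : Sect Y 1} {Ω : Type} [Field Ω] [Algebra k Ω]

/-- exchange of the two points -/
def Two.swap (W : Two b Ω) : Two b Ω :=
  ⟨W.q', W.q, W.β', W.β, W.on', W.on, W.val', W.val, W.gen', W.gen, W.ex', W.ex,
    fun D h h' => W.uq D h' h, W.nd', W.nd⟩

variable [CharZero k]

theorem sev_kill {L : Type} [Field L] [Algebra k L] {x : Fin 5 → L}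
    (hu : ∀ D : Derivation k L L, dv D x = 0 → D = 0) (i : L →ₐ[k] Ω) (D : Derivation k Ω Ω)
    (h : dv D (i ∘ x) = 0) (y : L) : D (i y) = 0 := by
  have ha : IsAlgebraic (IntermediateField.adjoin k (Set.range x)) y := by
    by_contra hy
    obtain ⟨E, h1, h2⟩ := der_of_trans _ hy
    have : E = 0 := hu E (by
      ext a
      exact h1 _ (IntermediateField.subset_adjoin _ _ ⟨a, rfl⟩))
    rw [this] at h2
    simp at h2
  have hle : (IntermediateField.adjoin k (Set.range x)).map i ≤ cst {D} := by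
    rw [IntermediateField.adjoin_map, IntermediateField.adjoin_le_iff]
    rintro _ ⟨_, ⟨a, rfl⟩, rfl⟩ E hE
    rw [Set.mem_singleton_iff.1 hE]
    exact congrFun h a
  refine der_alg D (cst {D}) (fun c hc => hc D rfl) ?_
  let φ : IntermediateField.adjoin k (Set.range x) →+* cst {D} :=
    (i.toRingHom.comp (IntermediateField.adjoin k (Set.range x)).subtype).codRestrict
      (cst {D}).toSubfield fun c => hle ⟨c, c.2, rfl⟩
  exact ha.ringHom_of_comp_eq φ i.toRingHom φ.injective (by ext c; rfl)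

theorem sev_ex {L : Type} [Field L] [Algebra k L] {x : Fin 5 → L} (h0 : x ≠ 0) (hx : On Y.I x)
    (he : ∀ v, Tg Y.I x v → ∃ D : Derivation k L L, dv D x = v) {m : ℕ} (c : Copy k L Ω m)
    (v : Fin 5 → Ω) (hv : Tg Y.I (c.i1 ∘ x) v) :
    ∃ D : Derivation k Ω Ω, dv D (c.i1 ∘ x) = v ∧ dv D (c.i2 ∘ x) = 0 := by
  have hon : On Y.I (c.i1 ∘ x) := fun f hf => by
    rw [show aeval (c.i1 ∘ x) f = c.i1 (aeval x f) from (comp_aeval_apply x c.i1 f).symm, hx f hf,
      map_zero]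
  have h0' : c.i1 ∘ x ≠ 0 := fun h => h0 (by
    ext a
    exact (map_eq_zero c.i1).1 (congrFun h a))
  let U : Submodule Ω (Fin 5 → Ω) :=
    { carrier := {v | ∃ D : Derivation k Ω Ω, dv D (c.i1 ∘ x) = v ∧ dv D (c.i2 ∘ x) = 0}
      add_mem' := by
        rintro _ _ ⟨D, rfl, h⟩ ⟨E, rfl, h'⟩
        exact ⟨D + E, dvD_add _ _ _, by rw [dvD_add, h, h', add_zero]⟩
      zero_mem' := ⟨0, dvD_zero _, dvD_zero _⟩
      smul_mem' := by
        rintro a _ ⟨D, rfl, h⟩
        exact ⟨a • D, dvD_smul _ _ _, by rw [dvD_smul, h, smul_zero]⟩ }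
  have hle : U ≤ perp (Nm Y.I (c.i1 ∘ x)) := by
    rintro _ ⟨D, rfl, -⟩
    exact tg_iff.1 (tg_dv hon D D.map_algebraMap)
  have h3 : finrank L (perp (Nm Y.I x)) = 3 := by have := finrank_tg Y h0 hx; omega
  have h3' : finrank Ω (perp (Nm Y.I (c.i1 ∘ x))) = 3 := by have := finrank_tg Y h0' hon; omega
  let B := Module.finBasisOfFinrankEq L (perp (Nm Y.I x)) h3
  have hB : LinearIndependent L fun a => (B a : Fin 5 → L) :=
    B.linearIndependent.map' (perp (Nm Y.I x)).subtype (Submodule.ker_subtype _)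
  let _ : Algebra L Ω := c.i1.toRingHom.toAlgebra
  have hB' : LinearIndependent Ω fun a => algebraMap L Ω ∘ (B a : Fin 5 → L) :=
    linearIndependent_algebraMap_comp_iff.2 hB
  have hsp : Submodule.span Ω (Set.range fun a => algebraMap L Ω ∘ (B a : Fin 5 → L)) ≤ U := by
    rw [Submodule.span_le]
    rintro _ ⟨a, rfl⟩
    obtain ⟨D1, hD1⟩ := he (B a) (tg_iff.2 (B a).2)
    obtain ⟨D, h1, h2, -⟩ := c.ex D1 0 0
    refine ⟨D, ?_, ?_⟩
    · ext j
      rw [dv_apply, Function.comp_apply, h1]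
      exact congrArg c.i1 (congrFun hD1 j)
    · ext j
      rw [dv_apply, Function.comp_apply, h2]
      simp
  have h4 := Submodule.finrank_mono hsp
  rw [finrank_span_eq_card hB', Fintype.card_fin] at h4
  have : U = perp (Nm Y.I (c.i1 ∘ x)) := Submodule.eq_of_le_of_finrank_le hle (by omega)
  have hv' := tg_iff.1 hv
  rw [← this] at hv'
  exact hv'

theorem sev_nd [IsAlgClosed k] {L : Type} [Field L] [Algebra k L] {x : Fin 5 → L} {t : L}
    (hl : LinearIndependent k (Fin.cons t x : Fin 6 → L)) (c : Copy k L Ω 0) (a : Ω)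
    (n : Fin 5 → Ω)
    (h : ∀ D : Derivation k Ω Ω, dv D (c.i1 ∘ x) = 0 → D a = 0 ∧ dv D n = 0)
    (h0 : a * c.i2 t + n ⬝ᵥ (c.i2 ∘ x) = 0) : a = 0 ∧ n = 0 := by
  have := c.ld2 _ hl (Fin.cons a n : Fin 6 → Ω) (fun D h1 _ j => by
    obtain ⟨h2, h3⟩ := h D (by ext j; exact h1 _)
    refine Fin.cases ?_ (fun j => ?_) j
    · exact h2
    · exact congrFun h3 j) (by
    rw [Fin.sum_univ_succ]
    exact h0)
  exact ⟨this 0, funext fun j => this j.succ⟩

theorem two_ex [IsAlgClosed k] (hY : Y.Nondeg) (b : Sect Y 1) (hb : ¬ b.Poly) :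
    ∃ (K : Type) (_ : Field K) (_ : IsAlgClosed K) (_ : Algebra k K), Nonempty (Two b K) := by
  obtain ⟨L, _, _, _, x, hx, he, hu⟩ := genpt_ex Y
  obtain ⟨K, _, _, _, ⟨c⟩⟩ := copy_ex (k := k) (F := L) 0
  have hon : On Y.I x := fun f hf => (hx f).2 hf
  have h0 : x ≠ 0 := by
    obtain ⟨i, hi⟩ := Y.ne
    intro h
    exact hi ((hx _).1 (by simp [h]))
  obtain ⟨t, -, ht, -⟩ := val_ex (R := k) b h0 hon
  have hl : LinearIndependent k (Fin.cons t x : Fin 6 → L) := by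
    rw [Fintype.linearIndependent_iff]
    intro g hg
    rw [Fin.sum_univ_succ] at hg
    simp only [Fin.cons_zero, Fin.cons_succ] at hg
    have hlin : ∀ l : Fin 5 → k, aeval x (lin l) = ∑ i, l i • x i := fun l => by
      simp [lin, Algebra.smul_def]
    have g0 : g 0 = 0 := by
      by_contra g0
      refine hb ⟨lin fun i => -(g 0)⁻¹ * g i.succ, fun i => (hx _).1 ?_⟩
      rw [map_sub, map_mul, map_pow, aeval_X, ← ht i, hlin, sub_eq_zero]
      congr 1
      simp only [mul_smul, ← Finset.smul_sum]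
      rw [← neg_eq_iff_add_eq_zero.2 hg, smul_neg, neg_smul, neg_neg, smul_smul,
        inv_mul_cancel₀ g0, one_smul]
    rw [g0, zero_smul, zero_add] at hg
    have := hY (fun i => g i.succ) ((hx _).1 (by rw [hlin, hg]))
    exact fun i => Fin.cases g0 (fun i => congrFun this i) i
  have hm : ∀ (i : L →ₐ[k] K) (f : MvPolynomial (Fin 5) k), aeval (i ∘ x) f = i (aeval x f) :=
    fun i f => (comp_aeval_apply x i f).symm
  have hv : ∀ i : L →ₐ[k] K, b.Val (i ∘ x) (i t) := fun i j => by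
    rw [hm, ← ht j, map_mul, map_pow]
    rfl
  have ho : ∀ i : L →ₐ[k] K, On Y.I (i ∘ x) := fun i f hf => by rw [hm, hon f hf, map_zero]
  have hg : ∀ (i : L →ₐ[k] K) (f : MvPolynomial (Fin 5) k), aeval (i ∘ x) f = 0 → f ∈ Y.I :=
    fun i f hf => (hx f).1 (by rwa [hm, map_eq_zero] at hf)
  exact ⟨K, inferInstance, inferInstance, inferInstance, ⟨⟨c.i1 ∘ x, c.i2 ∘ x, c.i1 t, c.i2 t,
    ho _, ho _, hv _, hv _, hg _, hg _, sev_ex h0 hon he c, sev_ex h0 hon he c.swap,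
    fun D h1 h2 => c.uq D (sev_kill hu _ D h1) (sev_kill hu _ D h2) fun a => a.elim0,
    sev_nd hl c.swap, sev_nd hl c⟩⟩⟩

end PV
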