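import Pool.Agent.Lib.MP_36fb43_ag.SevA

/-! The frame of two generic points and the covector `η` (A4). -/

open MvPolynomial Matrix Module

namespace PV

variable {k : Type} [Field k] {Y : Cone k 5} {b : Sect Y 1} {Ω : Type} [Field Ω] [Algebra k Ω]

theorem sev_step {V : Type} [AddCommGroup V] [Module Ω V] [FiniteDimensional Ω V]
    {U T : Submodule Ω V} (hle : U ≤ T) (h : finrank Ω T ≤ finrank Ω U + 1) :
    ∃ t ∈ T, ∀ v ∈ T, ∃ u ∈ U, ∃ s : Ω, v = u + s • t := by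
  by_cases e : T ≤ U
  · exact ⟨0, T.zero_mem, fun v hv => ⟨v, e hv, 0, by simp⟩⟩
  obtain ⟨t, ht, hu⟩ := SetLike.not_le_iff_exists.1 e
  have h1 : U < U ⊔ Submodule.span Ω {t} := lt_of_le_of_ne le_sup_left fun h => hu (by
    rw [h]
    exact Submodule.mem_sup_right (Submodule.mem_span_singleton_self t))
  have h2 : U ⊔ Submodule.span Ω {t} ≤ T :=
    sup_le hle ((Submodule.span_singleton_le_iff_mem _ _).2 ht)
  have h3 := Submodule.finrank_lt_finrank_of_lt h1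
  have h4 := Submodule.eq_of_le_of_finrank_le h2 (by omega)
  refine ⟨t, ht, fun v hv => ?_⟩
  rw [← h4] at hv
  obtain ⟨u, hu, w, hw, rfl⟩ := Submodule.mem_sup.1 hv
  obtain ⟨s, rfl⟩ := Submodule.mem_span_singleton.1 hw
  exact ⟨u, hu, s, rfl⟩

theorem sev_gr {x : Fin 5 → Ω} {D : Derivation k Ω Ω} (h : dv D x = 0)
    (f : MvPolynomial (Fin 5) k) : dv D (gr f x) = 0 := by
  rw [dv_gr D D.map_algebraMap, h, mulVec_zero]

theorem sev_stab {x v : Fin 5 → Ω} {D : Derivation k Ω Ω} (h : dv D x = 0) (hv : Tg Y.I x v) :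
    Tg Y.I x (dv D v) := fun f hf => by
  have := congrArg D (hv f hf)
  rwa [D_dot, sev_gr h, zero_dotProduct, zero_add, map_zero] at this

theorem sev_cong (O : ValuationSubring Ω) (hk : ∀ c : k, algebraMap k Ω c ∈ O) {x y u : Fin 5 → Ω}
    {a : Ω} (hx : ∀ i, x i ∈ O) (hy : ∀ i, y i ∈ O) (hu : ∀ i, u i ∈ O) (h : x = y + a • u)
    (f : MvPolynomial (Fin 5) k) :
    aeval x f ∈ O ∧ ∃ r ∈ O, aeval x f = aeval y f + a * r := by
  induction f using MvPolynomial.induction_on with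
  | C c => exact ⟨by simpa using hk c, 0, O.zero_mem, by simp⟩
  | add f g hf hg =>
    obtain ⟨h1, r, hr, e⟩ := hf
    obtain ⟨h2, s, hs, e'⟩ := hg
    refine ⟨by rw [map_add]; exact O.add_mem _ _ h1 h2, r + s, O.add_mem _ _ hr hs, ?_⟩
    rw [map_add, map_add, e, e']; ring
  | mul_X f i hf =>
    obtain ⟨h1, r, hr, e⟩ := hf
    refine ⟨by rw [map_mul, aeval_X]; exact O.mul_mem _ _ h1 (hx i),
      aeval x f * u i + r * y i,
      O.add_mem _ _ (O.mul_mem _ _ h1 (hu i)) (O.mul_mem _ _ hr (hy i)), ?_⟩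
    have hi : x i = y i + a * u i := congrFun h i
    rw [map_mul, map_mul, aeval_X, aeval_X, hi]
    linear_combination (y i) * e

theorem sev_max (O : ValuationSubring Ω) {x : Fin 5 → Ω} (h0 : x ≠ 0) :
    ∃ i, x i ≠ 0 ∧ ∀ j, (x i)⁻¹ * x j ∈ O := by
  obtain ⟨i, -, hi⟩ := Finset.exists_max_image Finset.univ (fun i => O.valuation (x i))
    Finset.univ_nonempty
  have hne : x i ≠ 0 := fun h => h0 (by
    ext j
    have := hi j (Finset.mem_univ _)
    rw [h, map_zero, le_zero_iff] at this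
    exact (map_eq_zero _).1 this)
  refine ⟨i, hne, fun j => ?_⟩
  rw [← O.valuation_le_one_iff, map_mul, map_inv₀]
  exact (inv_mul_le_one₀ (zero_lt_iff.2 ((map_ne_zero _).2 hne))).2 (hi j (Finset.mem_univ _))

variable [CharZero k]

theorem sev_int (O : ValuationSubring Ω) (hk : ∀ c : k, algebraMap k Ω c ∈ O) {x : Fin 5 → Ω}
    (h0 : x ≠ 0) (hx : ∀ i, x i ∈ O) {t : Ω} (ht : b.Val x t) : t ∈ O := by
  obtain ⟨i, hi, hj⟩ := sev_max O h0
  have h1 := val_smul b ht (x i)⁻¹ i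
  have h2 := (sev_cong O hk (x := (x i)⁻¹ • x) (y := (x i)⁻¹ • x) (u := 0) (a := 0) hj hj
    (fun _ => O.zero_mem) (by simp) (b.G i)).1
  rw [← h1, Pi.smul_apply, smul_eq_mul, inv_mul_cancel₀ hi, one_pow, one_mul, pow_one] at h2
  have := O.mul_mem _ _ (hx i) h2
  rwa [mul_inv_cancel_left₀ hi] at this

theorem sev_val (O : ValuationSubring Ω) (hk : ∀ c : k, algebraMap k Ω c ∈ O) {x y : Fin 5 → Ω}
    (h0 : x ≠ 0) (h0' : y ≠ 0) (hw : ∀ i, (x + y) i ∈ O) {s t : Ω} (hs : b.Val x s)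
    (ht : b.Val y t) : s + t ∈ O := by
  obtain ⟨i, hi, hj⟩ := sev_max O h0
  by_cases hO : x i ∈ O
  · have hx : ∀ j, x j ∈ O := fun j => by
      have := O.mul_mem _ _ hO (hj j)
      rwa [mul_inv_cancel_left₀ hi] at this
    refine O.add_mem _ _ (sev_int O hk h0 hx hs) (sev_int O hk h0' (fun j => ?_) ht)
    have := sub_mem (hw j) (hx j)
    simpa using this
  set a := (x i)⁻¹ with ha
  have hv : O.valuation a < 1 := by
    rw [ha, map_inv₀]
    exact inv_lt_one_of_one_lt₀ (not_le.1 fun h => hO ((O.valuation_le_one_iff _).1 h))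
  have haO : a ∈ O := (O.valuation_le_one_iff _).1 hv.le
  have ha0 : a ≠ 0 := inv_ne_zero hi
  have e : a • x = (-a) • y + a • (x + y) := by module
  have hy : ∀ j, ((-a) • y) j ∈ O := fun j => by
    have := sub_mem (hj j) (O.mul_mem _ _ haO (hw j))
    convert this using 1
    simp only [Pi.smul_apply, smul_eq_mul, Pi.add_apply]; ring
  have hxi : (a • x) i = 1 := inv_mul_cancel₀ hi
  obtain ⟨h1, r, hr, e1⟩ := sev_cong O hk (x := a • x) hj hy hw e (b.G i)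
  obtain ⟨-, r', hr', e2⟩ := sev_cong O hk (x := a • x) hj hy hw e (X i ^ b.N)
  rw [← val_smul b hs a i, hxi] at h1 e1
  rw [← val_smul b ht (-a) i] at e1
  rw [map_pow, map_pow, aeval_X, aeval_X, hxi] at e2
  set z := ((-a) • y) i ^ b.N with hz
  simp only [one_pow, one_mul, pow_one] at h1 e1 e2
  have hz1 : O.valuation z = 1 := by
    have : z = 1 - a * r' := by linear_combination -e2
    rw [this]
    refine O.valuation.map_one_sub_of_lt ?_
    rw [map_mul]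
    exact mul_lt_one_of_lt_of_le hv ((O.valuation_le_one_iff _).2 hr')
  have key : z * (s + t) = r - a * s * r' := by
    refine mul_left_cancel₀ ha0 ?_
    linear_combination e1 - a * s * e2
  have := (O.valuation_le_one_iff _).2 (sub_mem hr (O.mul_mem _ _ h1 hr'))
  rw [← key, map_mul, hz1, one_mul] at this
  exact (O.valuation_le_one_iff _).1 this

namespace Two

variable (W : Two b Ω)

omit [CharZero k] in
theorem ne : W.q ≠ 0 := by
  obtain ⟨i, hi⟩ := Y.ne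
  intro h
  exact hi (W.gen _ (by simp [h]))

omit [CharZero k] in
theorem rk3 : finrank Ω (perp (Nm Y.I W.q)) = 3 := by
  have := finrank_tg Y W.ne W.on
  omega

omit [CharZero k] in
theorem low (n : Fin 5 → Ω) : ¬ ∀ f ∈ Y.I, ∃ s : Ω, gr f W.q = s • n := fun h => by
  have h1 : Nm Y.I W.q ≤ Submodule.span Ω {n} := by
    rw [Nm, Submodule.span_le]
    rintro _ ⟨f, hf, rfl⟩
    obtain ⟨s, e⟩ := h f hf
    exact Submodule.mem_span_singleton.2 ⟨s, e.symm⟩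
  have h2 := (Submodule.finrank_mono h1).trans (finrank_span_le_card _)
  rw [Y.rk Ω _ W.ne W.on] at h2
  simp at h2

omit [CharZero k] in
theorem out : ¬ Tg Y.I W.q' W.q := fun h => W.swap.low 0 fun f hf => ⟨0, by
  rw [smul_zero]
  exact (W.nd 0 _ (fun D hD => ⟨map_zero _, sev_gr hD f⟩) (by rw [h f hf]; simp)).2⟩

theorem top : perp (Nm Y.I W.q) ⊔ perp (Nm Y.I W.q') = ⊤ := by
  by_contra hne
  have h5 := Submodule.finrank_lt hne
  rw [Module.finrank_fin_fun] at h5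
  have h3 : finrank Ω (perp (Nm Y.I W.q')) = 3 := W.swap.rk3
  have hq : W.q ∈ perp (Nm Y.I W.q) := tg_iff.1 (tg_self Y W.on)
  have h1 : perp (Nm Y.I W.q') < perp (Nm Y.I W.q') ⊔ Submodule.span Ω {W.q} :=
    lt_of_le_of_ne le_sup_left fun h => W.out (tg_iff.2 (by
      rw [h]
      exact Submodule.mem_sup_right (Submodule.mem_span_singleton_self _)))
  have h2 : perp (Nm Y.I W.q') ⊔ Submodule.span Ω {W.q} ≤ perp (Nm Y.I W.q) ⊔ perp (Nm Y.I W.q') :=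
    sup_le le_sup_right ((Submodule.span_singleton_le_iff_mem _ _).2 (Submodule.mem_sup_left hq))
  have h4 := Submodule.finrank_lt_finrank_of_lt h1
  have h6 := Submodule.eq_of_le_of_finrank_le h2 (by omega)
  obtain ⟨f1, hf1, hc⟩ : ∃ f ∈ Y.I, gr f W.q' ⬝ᵥ W.q ≠ 0 := by
    by_contra h
    push Not at h
    exact W.out h
  refine W.swap.low (gr f1 W.q') fun f hf => ?_
  change ∃ s : Ω, gr f W.q' = s • gr f1 W.q'
  set s := (gr f W.q' ⬝ᵥ W.q) / (gr f1 W.q' ⬝ᵥ W.q) with hs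
  have hn : (gr f W.q' - s • gr f1 W.q') ⬝ᵥ W.q = 0 := by
    rw [sub_dotProduct, smul_dotProduct, smul_eq_mul, hs, div_mul_cancel₀ _ hc, sub_self]
  refine ⟨s, sub_eq_zero.1 (W.nd 0 _ (fun D hD => ⟨map_zero _, ?_⟩) (by rw [hn]; simp)).2⟩
  have hv : dv D W.q ∈ perp (Nm Y.I W.q') ⊔ Submodule.span Ω {W.q} := by
    rw [h6]
    exact Submodule.mem_sup_left (tg_iff.1 (tg_dv W.on D D.map_algebraMap))
  obtain ⟨u, hu, w, hw, e⟩ := Submodule.mem_sup.1 hv
  obtain ⟨a, rfl⟩ := Submodule.mem_span_singleton.1 hw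
  have hd : dv D (gr f W.q' - s • gr f1 W.q') = -(D s • gr f1 W.q') := by
    rw [dv_sub, dv_smul, sev_gr hD, sev_gr hD]; simp
  have := congrArg D hn
  rw [D_dot, ← e, dotProduct_add, dotProduct_smul, hn, hd, sub_dotProduct, smul_dotProduct,
    hu _ (gr_mem hf), hu _ (gr_mem hf1), neg_dotProduct, smul_dotProduct] at this
  simp only [mul_zero, sub_self, add_zero, map_zero, neg_eq_zero, smul_eq_mul, mul_eq_zero, hc,
    or_false] at this
  rw [hd, this, zero_smul, neg_zero]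

theorem all (v : Fin 5 → Ω) : ∃ u u', Tg Y.I W.q u ∧ Tg Y.I W.q' u' ∧ v = u + u' := by
  have : v ∈ perp (Nm Y.I W.q) ⊔ perp (Nm Y.I W.q') := by rw [W.top]; trivial
  obtain ⟨u, hu, w, hw, e⟩ := Submodule.mem_sup.1 this
  exact ⟨u, w, tg_iff.2 hu, tg_iff.2 hw, e.symm⟩

theorem pi_ex : ∃ π : Fin 5 → Ω, π ≠ 0 ∧ Tg Y.I W.q π ∧ Tg Y.I W.q' π ∧
    ∀ v, Tg Y.I W.q v → Tg Y.I W.q' v → ∃ s : Ω, v = s • π := by
  have h := Submodule.finrank_sup_add_finrank_inf_eq (perp (Nm Y.I W.q)) (perp (Nm Y.I W.q'))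
  have h3 : finrank Ω (perp (Nm Y.I W.q')) = 3 := W.swap.rk3
  rw [W.top, finrank_top, Module.finrank_fin_fun, W.rk3, h3] at h
  obtain ⟨π, hπ, hs⟩ := sev_step (bot_le (a := perp (Nm Y.I W.q) ⊓ perp (Nm Y.I W.q')))
    (by omega)
  refine ⟨π, fun e => ?_, tg_iff.2 hπ.1, tg_iff.2 hπ.2, fun v h1 h2 => ?_⟩
  · have : perp (Nm Y.I W.q) ⊓ perp (Nm Y.I W.q') = ⊥ := (Submodule.eq_bot_iff _).2 fun v hv => by
      obtain ⟨u, hu, s, rfl⟩ := hs v hv
      simpa [e] using hu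
    rw [this, finrank_bot] at h
    omega
  · obtain ⟨u, hu, s, rfl⟩ := hs v ⟨tg_iff.1 h1, tg_iff.1 h2⟩
    exact ⟨s, by simpa using hu⟩

omit [CharZero k] in
theorem qpi {π : Fin 5 → Ω} (h0 : π ≠ 0) (h : Tg Y.I W.q' π) {a e : Ω}
    (h1 : a • W.q + e • π = 0) : a = 0 ∧ e = 0 := by
  have ha : a = 0 := by
    by_contra ha
    refine W.out fun f hf => ?_
    have := congrArg (gr f W.q' ⬝ᵥ ·) h1
    simpa [h f hf, ha] using this
  exact ⟨ha, by simpa [ha, h0] using h1⟩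

theorem t_ex {π : Fin 5 → Ω} (h0 : π ≠ 0) (h : Tg Y.I W.q π) (h' : Tg Y.I W.q' π) :
    ∃ t, Tg Y.I W.q t ∧ ∀ v, Tg Y.I W.q v → ∃ a e s : Ω, v = a • W.q + e • π + s • t := by
  have hl : LinearIndependent Ω ![W.q, π] := LinearIndependent.pair_iff.2 fun a e => W.qpi h0 h'
  have h2 := finrank_span_eq_card hl
  have hle : Submodule.span Ω (Set.range ![W.q, π]) ≤ perp (Nm Y.I W.q) := by
    rw [Submodule.span_le]
    rintro _ ⟨a, rfl⟩
    fin_cases a
    · exact tg_iff.1 (tg_self Y W.on)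
    · exact tg_iff.1 h
  obtain ⟨t, ht, hs⟩ := sev_step hle (by rw [W.rk3, h2]; simp)
  refine ⟨t, tg_iff.2 ht, fun v hv => ?_⟩
  obtain ⟨u, hu, s, rfl⟩ := hs v (tg_iff.1 hv)
  obtain ⟨c, rfl⟩ := (Submodule.mem_span_range_iff_exists_fun Ω).1 hu
  exact ⟨c 0, c 1, s, by simp [Fin.sum_univ_two]⟩

theorem eta_ex : ∃ η : Fin 5 → Ω, ∀ D : Derivation k Ω Ω,
    D (W.β + W.β') = η ⬝ᵥ dv D (W.q + W.q') := by
  obtain ⟨π, -, h1, h2, hs⟩ := W.pi_ex
  obtain ⟨E1, e1, e1'⟩ := W.ex π h1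
  obtain ⟨E2, e2, e2'⟩ := W.ex' π h2
  have hE : W.β + W.β' ∈ cst {E1 - E2} := val_der _ fun O hO =>
    sev_val O (fun c => hO _ (algebraMap_mem _ c)) W.ne W.swap.ne (fun i => hO _ fun D hD => by
      rw [Set.mem_singleton_iff.1 hD]
      have : dv (E1 - E2) (W.q + W.q') = 0 := by
        rw [dvD_sub, dv_add, dv_add, e1, e1', e2, e2']; simp
      exact congrFun this i) W.val W.val'
  have h0 : ∀ D : Derivation k Ω Ω, dv D (W.q + W.q') = 0 → D (W.β + W.β') = 0 := fun D hD => by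
    rw [dv_add] at hD
    have hD' := eq_neg_of_add_eq_zero_left hD
    obtain ⟨s, e⟩ := hs (dv D W.q) (tg_dv W.on D D.map_algebraMap) fun f hf => by
      rw [hD', dotProduct_neg, tg_dv W.on' D D.map_algebraMap f hf, neg_zero]
    have : D - s • (E1 - E2) = 0 := W.uq _
      (by rw [dvD_sub, dvD_smul, dvD_sub, e1, e2', e]; simp)
      (by rw [dvD_sub, dvD_smul, dvD_sub, e1', e2, eq_neg_of_add_eq_zero_right hD, e]; simp)
    rw [sub_eq_zero.1 this, Derivation.smul_apply, hE _ rfl, smul_zero]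
  have hx : ∀ v, ∃ D : Derivation k Ω Ω, dv D (W.q + W.q') = v := fun v => by
    obtain ⟨u, u', hu, hu', rfl⟩ := W.all v
    obtain ⟨D, d, d'⟩ := W.ex u hu
    obtain ⟨D', f, f'⟩ := W.ex' u' hu'
    exact ⟨D + D', by rw [dvD_add, dv_add, dv_add, d, d', f, f']; simp⟩
  choose P hP using fun a : Fin 5 => hx (Pi.single a 1)
  refine ⟨fun a => P a (W.β + W.β'), fun D => ?_⟩
  have := h0 (D - ∑ a, dv D (W.q + W.q') a • P a) (by
    rw [dvD_sub, dvD_sum, sub_eq_zero]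
    simp only [dvD_smul, hP]
    exact pi_eq_sum_univ' _)
  rw [Derivation.sub_apply, der_sum, sub_eq_zero] at this
  rw [this, dotProduct]
  exact Finset.sum_congr rfl fun a _ => by rw [Derivation.smul_apply, smul_eq_mul, mul_comm]

theorem eta_q {η : Fin 5 → Ω}
    (h : ∀ D : Derivation k Ω Ω, D (W.β + W.β') = η ⬝ᵥ dv D (W.q + W.q')) :
    (∀ D : Derivation k Ω Ω, D W.β = η ⬝ᵥ dv D W.q) ∧ η ⬝ᵥ W.q = W.β := by
  obtain ⟨t, w, ht, hw, hd⟩ := val_ex (R := k) b W.ne W.on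
  obtain ⟨t', w', ht', -, hd'⟩ := val_ex (R := k) b W.swap.ne W.on'
  obtain rfl := val_uq b W.ne ht W.val
  obtain rfl := val_uq b W.swap.ne ht' W.val'
  have h1 : ∀ D : Derivation k Ω Ω, D W.β = η ⬝ᵥ dv D W.q := fun D => by
    obtain ⟨E, e, e'⟩ := W.ex _ (tg_dv W.on D D.map_algebraMap)
    have h2 := h E
    have h3 : E W.β' = w' ⬝ᵥ dv E W.q' := hd' E E.map_algebraMap
    rw [map_add, dv_add, h3, e', hd E E.map_algebraMap, e] at h2
    rw [hd D D.map_algebraMap]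
    simpa using h2
  refine ⟨h1, ?_⟩
  obtain ⟨E, e, -⟩ := W.ex _ (tg_self Y W.on)
  have := h1 E
  rw [hd E E.map_algebraMap, e, hw] at this
  simpa using this.symm

end Two

/-- the frame -/
structure Two.Fr (W : Two b Ω) where
  η : Fin 5 → Ω
  π : Fin 5 → Ω
  t : Fin 5 → Ω
  t' : Fin 5 → Ω
  π0 : π ≠ 0
  πT : Tg Y.I W.q π
  πT' : Tg Y.I W.q' π
  tT : Tg Y.I W.q t
  tT' : Tg Y.I W.q' t'
  sp : ∀ v, Tg Y.I W.q v → ∃ a e s : Ω, v = a • W.q + e • π + s • t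
  sp' : ∀ v, Tg Y.I W.q' v → ∃ a e s : Ω, v = a • W.q' + e • π + s • t'
  dβ : ∀ D : Derivation k Ω Ω, D W.β = η ⬝ᵥ dv D W.q
  dβ' : ∀ D : Derivation k Ω Ω, D W.β' = η ⬝ᵥ dv D W.q'
  ηq : η ⬝ᵥ W.q = W.β
  ηq' : η ⬝ᵥ W.q' = W.β'

/-- exchange of the two points -/
def Two.Fr.swap {W : Two b Ω} (A : W.Fr) : W.swap.Fr :=
  ⟨A.η, A.π, A.t', A.t, A.π0, A.πT', A.πT, A.tT', A.tT, A.sp', A.sp, A.dβ', A.dβ, A.ηq', A.ηq⟩

theorem Two.fr_ex (W : Two b Ω) : Nonempty W.Fr := by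
  obtain ⟨π, h0, h1, h2, -⟩ := W.pi_ex
  obtain ⟨t, ht, hs⟩ := W.t_ex h0 h1 h2
  obtain ⟨t', ht', hs'⟩ := W.swap.t_ex h0 h2 h1
  obtain ⟨η, hη⟩ := W.eta_ex
  have h3 := W.eta_q hη
  have h4 := W.swap.eta_q (η := η) fun D => by
    rw [add_comm, add_comm W.swap.q]
    exact hη D
  exact ⟨⟨η, π, t, t', h0, h1, h2, ht, ht', hs, hs', h3.1, h4.1, h3.2, h4.2⟩⟩

end PV
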