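import Pool.Agent.Lib.MP_36fb43_ag.SevB
import Pool.Agent.Lib.MP_36fb43_ag.GPb

/-! The plane `Π` and the exclusion of the degenerate case (A4, A5). -/

open MvPolynomial Matrix Module

namespace PV

variable {k : Type} [Field k] {Y : Cone k 5} {b : Sect Y 1} {Ω : Type} [Field Ω] [Algebra k Ω]

/-- the curve `y + s v + s ^ 2 u` -/
noncomputable def sevCv (y v u : Fin 5 → Ω) : Fin 5 → Polynomial Ω := fun i =>
  Polynomial.C (y i) + Polynomial.C (v i) * Polynomial.X + Polynomial.C (u i) * Polynomial.X ^ 2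

theorem sevCv_eval (y v u : Fin 5 → Ω) (s : Ω) (f : MvPolynomial (Fin 5) k) :
    (aeval (sevCv y v u) f).eval s = aeval (y + s • v + s ^ 2 • u) f := by
  induction f using MvPolynomial.induction_on with
  | C a => simp [Polynomial.algebraMap_apply]
  | add f g hf hg => simp [hf, hg]
  | mul_X f j hf => simp [hf, sevCv, mul_comm s, mul_comm (s ^ 2)]

variable [CharZero k]

theorem sevCv_zero {y v u : Fin 5 → Ω} {f : MvPolynomial (Fin 5) k}
    (h : ∀ s : Ω, s ≠ 0 → aeval (y + s • v + s ^ 2 • u) f = 0) : aeval (sevCv y v u) f = 0 := by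
  have : CharZero Ω := charZero_of_injective_algebraMap (algebraMap k Ω).injective
  refine Polynomial.eq_zero_of_infinite_isRoot _ (((Set.finite_singleton 0).infinite_compl).mono
    fun s hs => ?_)
  rw [Set.mem_ofPred_eq, Polynomial.IsRoot, sevCv_eval]
  exact h s hs

theorem sev_tan {y v u : Fin 5 → Ω} (h : ∀ s : Ω, On Y.I (y + s • v + s ^ 2 • u)) :
    Tg Y.I y v := fun f hf => by
  have h1 := gp_chain ((Polynomial.derivative' (R := Ω)).restrictScalars k) (sevCv y v u) f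
  rw [sevCv_zero fun s _ => h s f hf, map_zero] at h1
  have h2 := congrArg (Polynomial.eval 0) h1
  simp only [Polynomial.eval_finsetSum, Polynomial.eval_mul, sevCv_eval] at h2
  simpa [sevCv, gr, dotProduct] using h2.symm

theorem sev_poly (E : Derivation k Ω Ω) {τ : Ω} (hτ : E τ ≠ 0) (n : ℕ) :
    ∀ P : Polynomial Ω, P.natDegree ≤ n → pD E P = 0 → P.eval τ = 0 → P = 0 := by
  have : CharZero Ω := charZero_of_injective_algebraMap (algebraMap k Ω).injective
  induction n with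
  | zero =>
    intro P h _ h0
    rw [Polynomial.eq_C_of_natDegree_le_zero h] at h0 ⊢
    rw [Polynomial.eval_C] at h0
    rw [h0, map_zero]
  | succ n ih =>
    intro P h h1 h0
    have hc : ∀ i, E (P.coeff i) = 0 := fun i => by rw [← pD_coeff, h1, Polynomial.coeff_zero]
    have h2 : E (P.eval τ) = P.derivative.eval τ * E τ := by
      rw [Polynomial.eval_eq_sum_range, Polynomial.derivative_eval, Polynomial.sum_over_range _
        (by simp), map_sum, Finset.sum_mul]
      refine Finset.sum_congr rfl fun i _ => ?_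
      rw [E.leibniz, hc, E.leibniz_pow]
      simp only [smul_eq_mul, nsmul_eq_mul]
      ring
    rw [h0, map_zero] at h2
    have h3 := ih P.derivative ((Polynomial.natDegree_derivative_le P).trans (by omega)) (by
      ext i
      rw [pD_coeff, Polynomial.coeff_derivative, E.leibniz, hc, map_add, E.map_natCast,
        E.map_one_eq_zero]
      simp) ((mul_eq_zero.1 h2.symm).resolve_right hτ)
    rw [Polynomial.eq_C_of_derivative_eq_zero h3] at h0 ⊢
    rw [Polynomial.eval_C] at h0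
    rw [h0, map_zero]

theorem sev_tay {x v : Fin 5 → Ω} (hx : On Y.I x) {E : Derivation k Ω Ω} (h1 : dv E x = v) {ν : Ω}
    (h2 : dv E v = ν • v) (a e : Ω) : On Y.I (a • x + e • v) := fun f hf => by
  rw [← f.sum_homogeneousComponent, map_sum]
  refine Finset.sum_eq_zero fun d _ => ?_
  have hm : ∀ a e : Ω, a • x + e • v ∈ Submodule.span Ω {x, v} := fun a e =>
    Submodule.mem_span_pair.2 ⟨a, e, rfl⟩
  have := tay {E} (Submodule.span Ω {x, v}) (fun D hD w hw => by
      obtain ⟨a, e, rfl⟩ := Submodule.mem_span_pair.1 hw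
      rw [Set.mem_singleton_iff.1 hD, dv_add, dv_smul, dv_smul, h1, h2]
      convert hm (E a) (a + E e + e * ν) using 1
      module) (x := x) (Submodule.subset_span (by simp))
    (by
      rw [Submodule.span_insert]
      exact sup_le_sup_left ((Submodule.span_singleton_le_iff_mem _ _).2
        (show v ∈ dsp {E} x from Submodule.subset_span ⟨E, rfl, h1.symm⟩)) _)
    (MvPolynomial.map (algebraMap k Ω) (homogeneousComponent d f))
    ((homogeneousComponent_isHomogeneous d f).map _)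
    (fun D _ => ka_cD_eq_zero.2 fun m => by rw [coeff_map, D.map_algebraMap])
    (by rw [eval_map, ← aeval_def]; exact hx _ (Y.hom f hf d)) _ (hm a e)
  rwa [eval_map, ← aeval_def] at this

theorem sev_hs {x v : Fin 5 → Ω} (h : Tg Y.I x v) {f : MvPolynomial (Fin 5) k} (hf : f ∈ Y.I) :
    (hs f x *ᵥ x) ⬝ᵥ v = 0 := by
  have : hs f x *ᵥ x = gr (∑ i, X i * pderiv i f) x - gr f x := by
    ext a
    simp only [mulVec, dotProduct, hs, gr, map_sum, Derivation.leibniz, smul_eq_mul, map_add,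
      map_mul, aeval_X, Pi.sub_apply, Finset.sum_add_distrib, pderiv_X, Pi.single_apply]
    rw [Finset.sum_eq_single a (f := fun i => aeval x (pderiv i f) * aeval x
      (if i = a then (1 : MvPolynomial (Fin 5) k) else 0)) (fun b _ hb => by simp [hb]) (by simp)]
    simp [mul_comm]
  rw [this, sub_dotProduct, h _ (euler_mem Y hf), h f hf, sub_self]

omit [CharZero k] in
theorem Two.split (W : Two b Ω) (D : Derivation k Ω Ω) :
    ∃ D1 D2 : Derivation k Ω Ω, D = D1 + D2 ∧ dv D1 W.q' = 0 ∧ dv D2 W.q = 0 := by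
  obtain ⟨E, e, e'⟩ := W.ex _ (tg_dv W.on D D.map_algebraMap)
  exact ⟨E, D - E, by simp, e', by rw [dvD_sub, e, sub_self]⟩

namespace Two.Fr

variable {W : Two b Ω} (A : W.Fr)

/-- membership in the plane `Π` -/
def In (v : Fin 5 → Ω) : Prop := ∀ D : Derivation k Ω Ω, dv D A.η ⬝ᵥ v = 0

omit [CharZero k]

theorem in_q : A.In W.q := fun D => by
  have := D_dot D A.η W.q
  rw [A.ηq, A.dβ] at this
  simpa using this

theorem in_q' : A.In W.q' := A.swap.in_q

theorem sym (D E : Derivation k Ω Ω) : dv D A.η ⬝ᵥ dv E W.q = dv E A.η ⬝ᵥ dv D W.q := by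
  have h := A.dβ ⁅D, E⁆
  rw [Derivation.commutator_apply, A.dβ E, A.dβ D, D_dot, D_dot, dv_lie, dotProduct_sub] at h
  linear_combination h

theorem kil {D : Derivation k Ω Ω} (h : dv D W.q = 0) {v : Fin 5 → Ω} (hv : Tg Y.I W.q v) :
    dv D A.η ⬝ᵥ v = 0 := by
  obtain ⟨E, rfl, -⟩ := W.ex v hv
  rw [A.sym, h, dotProduct_zero]

theorem kil' {D : Derivation k Ω Ω} (h : dv D W.q' = 0) {v : Fin 5 → Ω} (hv : Tg Y.I W.q' v) :
    dv D A.η ⬝ᵥ v = 0 := A.swap.kil h hv

theorem in_pi : A.In A.π := fun D => by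
  obtain ⟨D1, D2, rfl, h1, h2⟩ := W.split D
  rw [dvD_add, add_dotProduct, A.kil' h1 A.πT', A.kil h2 A.πT, add_zero]

theorem In.comb {A : W.Fr} {u v : Fin 5 → Ω} (hu : A.In u) (hv : A.In v) (a e : Ω) :
    A.In (a • u + e • v) := fun D => by
  rw [dotProduct_add, dotProduct_smul, dotProduct_smul, hu, hv]; simp

theorem In.sym {A : W.Fr} {u : Fin 5 → Ω} (hu : A.In u) (D E : Derivation k Ω Ω) :
    dv D A.η ⬝ᵥ dv E u = dv E A.η ⬝ᵥ dv D u := by
  have h := hu ⁅D, E⁆
  have h1 := congrArg D (hu E)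
  have h2 := congrArg E (hu D)
  rw [D_dot, map_zero] at h1 h2
  rw [dv_lie, sub_dotProduct] at h
  linear_combination h2 - h1 + h

variable [CharZero k]

theorem zero_of {E : Derivation k Ω Ω} (h : dv E W.q' = 0) (h' : A.In (dv E W.q)) :
    dv E A.η = 0 := by
  refine dotProduct_eq_zero _ fun v => ?_
  obtain ⟨u, u', hu, hu', rfl⟩ := W.all v
  obtain ⟨D, rfl, -⟩ := W.ex u hu
  rw [dotProduct_add, A.kil' h hu', A.sym, h', add_zero]

theorem xi {E : Derivation k Ω Ω} (h : dv E W.q = A.t) (h' : dv E W.q' = 0) :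
    dv E A.η ⬝ᵥ A.t ≠ 0 := fun h0 => by
  have ht : A.In A.t := fun D => by
    obtain ⟨D1, D2, rfl, h1, h2⟩ := W.split D
    obtain ⟨a, e, s, hs⟩ := A.sp _ (tg_dv W.on D1 D1.map_algebraMap)
    rw [dvD_add, add_dotProduct, A.kil h2 A.tT, ← h, A.sym, hs, dotProduct_add, dotProduct_smul,
      h0, (A.in_q.comb A.in_pi a e) E]
    simp
  have := (W.nd 1 (-A.η) (fun D hD => ⟨D.map_one_eq_zero, by
    obtain ⟨a, e, s, hs⟩ := A.sp _ (tg_dv W.on D D.map_algebraMap)
    rw [dv_neg, A.zero_of hD (by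
      rw [hs, ← one_smul Ω (a • W.q + e • A.π)]
      exact (A.in_q.comb A.in_pi a e).comb ht 1 s), neg_zero]⟩)
    (by rw [neg_dotProduct, A.ηq]; simp)).1
  exact one_ne_zero this

theorem mult {E : Derivation k Ω Ω} (h : dv E W.q = A.t) (h' : dv E W.q' = 0)
    {D : Derivation k Ω Ω} (hD : dv D W.q' = 0) : ∃ s : Ω, dv D A.η = s • dv E A.η := by
  obtain ⟨a, e, s, hs⟩ := A.sp _ (tg_dv W.on D D.map_algebraMap)
  have := A.zero_of (E := D - s • E) (by rw [dvD_sub, dvD_smul, hD, h']; simp) (by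
    rw [dvD_sub, dvD_smul, hs, h, add_sub_cancel_right]
    exact A.in_q.comb A.in_pi a e)
  rw [dvD_sub, dvD_smul, sub_eq_zero] at this
  exact ⟨s, this⟩

theorem two {E E' : Derivation k Ω Ω} (h : dv E W.q = A.t) (h' : dv E W.q' = 0)
    (g : dv E' W.q' = A.t') (g' : dv E' W.q = 0) (D : Derivation k Ω Ω) :
    ∃ s s' : Ω, dv D A.η = s • dv E A.η + s' • dv E' A.η := by
  obtain ⟨D1, D2, rfl, h1, h2⟩ := W.split D
  obtain ⟨s, hs⟩ := A.mult h h' h1
  obtain ⟨s', hs'⟩ := A.swap.mult g g' h2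
  exact ⟨s, s', by rw [dvD_add, hs]; exact congrArg _ hs'⟩

theorem tin {v : Fin 5 → Ω} (hv : Tg Y.I W.q v) (h : A.In v) :
    ∃ a e : Ω, v = a • W.q + e • A.π := by
  obtain ⟨E, e1, e2⟩ := W.ex _ A.tT
  obtain ⟨a, e, s, rfl⟩ := A.sp v hv
  have := h E
  rw [dotProduct_add, dotProduct_smul, (A.in_q.comb A.in_pi a e) E, zero_add, smul_eq_mul] at this
  exact ⟨a, e, by rw [(mul_eq_zero.1 this).resolve_right (A.xi e1 e2)]; simp⟩

theorem span {v : Fin 5 → Ω} (h : A.In v) : ∃ a a' e : Ω, v = a • W.q + a' • W.q' + e • A.π := by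
  obtain ⟨u, u', hu, hu', rfl⟩ := W.all v
  have h1 : A.In u := fun D => by
    obtain ⟨D1, D2, rfl, h1, h2⟩ := W.split D
    have := h D1
    rw [dotProduct_add, A.kil' h1 hu', add_zero] at this
    rw [dvD_add, add_dotProduct, this, A.kil h2 hu, add_zero]
  have h2 : A.In u' := fun D => by
    have := h D
    rwa [dotProduct_add, h1, zero_add] at this
  obtain ⟨a, e, rfl⟩ := A.tin hu h1
  obtain ⟨a', e', h3⟩ := A.swap.tin hu' h2
  change u' = a' • W.q' + e' • A.π at h3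
  exact ⟨a, a', e + e', by rw [h3]; module⟩

theorem mu (hπ : ∀ D : Derivation k Ω Ω, A.In (dv D A.π)) {E : Derivation k Ω Ω}
    (h : dv E W.q = 0) (h' : dv E A.η = 0) : ∃ ν : Ω, dv E A.π = ν • A.π := by
  obtain ⟨μ, ν, e⟩ := A.tin (sev_stab h A.πT) (hπ E)
  obtain ⟨D, d1, d2⟩ := W.ex _ A.tT
  have h1 := congrArg E (hπ D D)
  have h2 := hπ D ⁅E, D⁆
  have h3 := hπ ⁅E, D⁆ D
  rw [D_dot, map_zero] at h1
  rw [dv_lie, h', dv_zero, sub_zero] at h2
  rw [dv_lie, dotProduct_sub, e, dv_add, dv_smul, dv_smul, d1] at h3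
  simp only [dotProduct_add, dotProduct_smul, A.in_q D, A.in_pi D, hπ D D, smul_eq_mul] at h3
  have h4 : μ * (dv D A.η ⬝ᵥ A.t) = 0 := by linear_combination h1 - h2 - h3
  exact ⟨ν, by rw [e, (mul_eq_zero.1 h4).resolve_right (A.xi d1 d2)]; simp⟩

theorem line (hπ : ∀ D : Derivation k Ω Ω, A.In (dv D A.π)) (a e : Ω) :
    On Y.I (a • W.q + e • A.π) := by
  obtain ⟨E, e1, e2⟩ := W.ex _ A.πT
  obtain ⟨ν, h⟩ := A.swap.mu hπ e2 (A.zero_of e2 (e1 ▸ A.in_pi))
  exact sev_tay W.on e1 h a e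

theorem tg_pi (hπ : ∀ D : Derivation k Ω Ω, A.In (dv D A.π)) : Tg Y.I A.π W.q :=
  sev_tan (u := 0) fun s => by
    convert A.line hπ s 1 using 1
    module

theorem li3 : LinearIndependent Ω ![W.q, W.q', A.π] := by
  rw [Fintype.linearIndependent_iff]
  intro g hg
  simp only [Fin.sum_univ_three, Matrix.cons_val] at hg
  have h0 : g 0 = 0 := by
    by_contra h
    refine W.out fun f hf => ?_
    have := congrArg (gr f W.q' ⬝ᵥ ·) hg
    simpa [A.πT' f hf, tg_self Y W.on' f hf, h] using this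
  rw [h0, zero_smul, zero_add] at hg
  have := W.swap.qpi A.π0 A.πT hg
  intro i
  fin_cases i
  exacts [h0, this.1, this.2]

theorem a5 : ¬ ∀ D : Derivation k Ω Ω, A.In (dv D A.π) := fun hπ => by
  have on : On Y.I A.π := by simpa using A.line hπ 0 1
  have tq : Tg Y.I A.π W.q := A.tg_pi hπ
  have tq' : Tg Y.I A.π W.q' := A.swap.tg_pi hπ
  have hle : Submodule.span Ω (Set.range ![W.q, W.q', A.π]) ≤ perp (Nm Y.I A.π) := by
    rw [Submodule.span_le]
    rintro _ ⟨a, rfl⟩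
    fin_cases a
    exacts [tg_iff.1 tq, tg_iff.1 tq', tg_iff.1 (tg_self Y on)]
  have h3 := finrank_tg Y A.π0 on
  have heq := Submodule.eq_of_le_of_finrank_le hle (by
    rw [finrank_span_eq_card A.li3, Fintype.card_fin]; omega)
  have hin : ∀ v, Tg Y.I A.π v → A.In v := fun v hv => by
    have := tg_iff.1 hv
    rw [← heq] at this
    obtain ⟨c, rfl⟩ := (Submodule.mem_span_range_iff_exists_fun Ω).1 this
    intro D
    simp [Fin.sum_univ_three, A.in_q D, A.in_q' D, A.in_pi D]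
  obtain ⟨E, e1, e2⟩ := W.ex _ A.tT
  obtain ⟨E', g1, g2⟩ := W.ex' _ A.tT'
  obtain ⟨μ, ν, h⟩ := A.tin (sev_stab g2 A.πT) (hπ E')
  obtain ⟨μ', ν', h'⟩ := A.swap.tin (sev_stab e2 A.πT') (hπ E)
  change dv E A.π = μ' • W.q' + ν' • A.π at h'
  have k1 : ∀ f ∈ Y.I, μ * (W.q' ⬝ᵥ hs f A.π *ᵥ W.q) + gr f A.π ⬝ᵥ A.t' = 0 := fun f hf => by
    have := congrArg E' (tq' f hf)
    rw [D_dot, map_zero, dv_gr E' E'.map_algebraMap, h, g1, mulVec_add, mulVec_smul, mulVec_smul,
      add_dotProduct, smul_dotProduct, smul_dotProduct, sev_hs tq' hf, dotProduct_comm] at this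
    simpa using this
  have k2 : ∀ f ∈ Y.I, μ' * (W.q' ⬝ᵥ hs f A.π *ᵥ W.q) + gr f A.π ⬝ᵥ A.t = 0 := fun f hf => by
    have := congrArg E (tq f hf)
    rw [D_dot, map_zero, dv_gr E E.map_algebraMap, h', e1, mulVec_add, mulVec_smul, mulVec_smul,
      add_dotProduct, smul_dotProduct, smul_dotProduct, sev_hs tq hf, dotProduct_comm,
      bil_symm (fun a b => congrArg _ (ka_pderiv_comm a b f))] at this
    simpa using this
  have k3 := hin (μ' • A.t' - μ • A.t) (fun f hf => by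
    rw [dotProduct_sub, dotProduct_smul, dotProduct_smul, smul_eq_mul, smul_eq_mul]
    linear_combination μ' * k1 f hf - μ * k2 f hf) E
  rw [dotProduct_sub, dotProduct_smul, dotProduct_smul, A.kil' e2 A.tT', smul_zero, zero_sub,
    neg_eq_zero, smul_eq_mul] at k3
  have k4 := (mul_eq_zero.1 k3).resolve_right (A.xi e1 e2)
  exact A.swap.xi g1 g2 (hin A.t' (fun f hf => by simpa [k4] using k1 f hf) E')

/-- the second fundamental form of `Π` is injective -/
theorem inj {v : Fin 5 → Ω} (h : A.In v) (h' : ∀ D : Derivation k Ω Ω, A.In (dv D v)) : v = 0 := by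
  obtain ⟨E, e1, e2⟩ := W.ex _ A.tT
  obtain ⟨E', g1, g2⟩ := W.ex' _ A.tT'
  obtain ⟨a, a', e, rfl⟩ := A.span h
  have hb : ∀ D D' : Derivation k Ω Ω, a * (dv D' A.η ⬝ᵥ dv D W.q) + a' * (dv D' A.η ⬝ᵥ dv D W.q') +
      e * (dv D' A.η ⬝ᵥ dv D A.π) = 0 := fun D D' => by
    have := h' D D'
    simp only [dv_add, dv_smul, dotProduct_add, dotProduct_smul, A.in_q D', A.in_q' D',
      A.in_pi D', smul_eq_mul] at this
    linear_combination this
  have p1 : dv E A.η ⬝ᵥ dv E A.π = 0 := A.kil' e2 (sev_stab e2 A.πT')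
  have p2 : dv E' A.η ⬝ᵥ dv E' A.π = 0 := A.kil g2 (sev_stab g2 A.πT)
  have b1 := hb E E
  have b2 := hb E' E'
  have b3 := hb E E'
  rw [e1, e2, p1, dotProduct_zero, mul_zero, mul_zero, add_zero, add_zero] at b1
  rw [g1, g2, p2, dotProduct_zero, mul_zero, mul_zero, add_zero, zero_add] at b2
  obtain rfl := (mul_eq_zero.1 b1).resolve_right (A.xi e1 e2)
  obtain rfl := (mul_eq_zero.1 b2).resolve_right (A.swap.xi g1 g2)
  rw [zero_mul, zero_mul, zero_add, zero_add] at b3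
  rcases mul_eq_zero.1 b3 with rfl | b4
  · simp
  refine absurd (fun D D' => ?_) A.a5
  obtain ⟨s, s', hs⟩ := A.two e1 e2 g1 g2 D'
  obtain ⟨r, r', hr⟩ := A.two e1 e2 g1 g2 D
  rw [hs, add_dotProduct, smul_dotProduct, smul_dotProduct, A.in_pi.sym E D, A.in_pi.sym E' D, hr]
  simp only [add_dotProduct, smul_dotProduct, p1, p2, b4, A.in_pi.sym E E', smul_zero, add_zero]

end Two.Fr

end PV
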